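import Pool.Agent.R12.Cg

/-! The low characters with an additional prime `c`: one character of `J` whose degree is divisible
by `c` and by all the primes of `B`. -/

set_option autoImplicit false

namespace Pool.Agent.R12

open Classical
open scoped commutatorElement
open Pool.Agent.Nan
open Pool.Agent.KB Pool.Agent.KB.ContrAux Pool.Agent.KBL Pool.Agent.KBZ Pool.Agent.KBU
  Pool.Agent.KBQ Pool.Agent.KBY

/-! ### The greedy selection -/

private theorem lw_norm {X : Type} [CommGroup X] (K : Subgroup (MulAut X)) [Fintype K]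
    (g : MulAut X) (hg : ∀ k ∈ K, g * k * g⁻¹ ∈ K) (z : X) :
    g (∏ k : K, k • z) = ∏ k : K, k • (g z) := by
  rw [map_prod]
  let e : K → K := fun k => ⟨g * k * g⁻¹, hg k k.2⟩
  have he : Function.Bijective e := by
    rw [← Finite.injective_iff_bijective]
    intro a b hab
    have h1 : g * (a : MulAut X) * g⁻¹ = g * b * g⁻¹ := congrArg Subtype.val hab
    exact Subtype.ext (mul_left_cancel (mul_right_cancel h1))
  refine Fintype.prod_bijective e he _ _ fun k => ?_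
  show g ((k : MulAut X) z) = (g * (k : MulAut X) * g⁻¹) (g z)
  rw [MulAut.mul_apply, MulAut.mul_apply, MulAut.inv_apply_self]

/-- The greedy selection: `x` is moved by all `K r`, and its stabilizer is in the one of `x0`. -/
theorem lw_gr {X : Type} [CommGroup X] [Finite X] (G0 : Subgroup (MulAut X)) (x0 : X)
    (K : ℕ → Subgroup (MulAut X)) (S : Finset ℕ)
    (hcop : ∀ r ∈ S, (Nat.card (K r)).Coprime (Nat.card X))
    (hle : ∀ r ∈ S, K r ≤ G0) (hnor : ∀ r ∈ S, ∀ g ∈ G0, ∀ k ∈ K r, g * k * g⁻¹ ∈ K r)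
    (hnt : ∀ r ∈ S, K r ≠ ⊥) :
    ∃ x : X, (∀ g ∈ G0, g x = x → g x0 = x0) ∧ ∀ r ∈ S, ∃ y ∈ K r, y x ≠ x := by
  classical
  have hfin : Finite (MulAut X) := Finite.of_injective (fun f : MulAut X => (f : X → X))
    fun f g h => MulEquiv.ext fun x => congrFun h x
  induction S using Finset.induction_on with
  | empty => exact ⟨x0, fun g _ h => h, fun r hr => absurd hr (Finset.notMem_empty r)⟩
  | insert r S hr ih =>
    obtain ⟨x, hx1, hx2⟩ := ih (fun r hr => hcop r (Finset.mem_insert_of_mem hr))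
      (fun r hr => hle r (Finset.mem_insert_of_mem hr))
      (fun r hr => hnor r (Finset.mem_insert_of_mem hr))
      (fun r hr => hnt r (Finset.mem_insert_of_mem hr))
    have hrS := Finset.mem_insert_self r S
    by_cases hmv : ∃ y ∈ K r, y x ≠ x
    · refine ⟨x, hx1, fun r' hr' => ?_⟩
      rcases Finset.mem_insert.1 hr' with h | h
      · rw [h]; exact hmv
      · exact hx2 r' h
    push Not at hmv
    obtain ⟨k0, hk1⟩ := (Subgroup.ne_bot_iff_exists_ne_one).1 (hnt r hrS)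
    obtain ⟨d, hd⟩ : ∃ d : X, (k0 : MulAut X) d ≠ d := by
      by_contra hcon
      push Not at hcon
      exact hk1 (Subtype.ext (MulEquiv.ext hcon))
    have : Fintype (K r) := Fintype.ofFinite _
    obtain ⟨c, e, hce, hc, he⟩ := cp_split (K := K r) (hcop r hrS) d
    have he0 : (k0 : MulAut X) e ≠ e := by
      intro h
      apply hd
      have h1 : (k0 : MulAut X) c = c := hc k0
      rw [hce, map_mul, h1, h]
    -- the key
    have key : ∀ g ∈ G0, g (x * e) = x * e → g x = x := by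
      intro g hg h
      have h1 : ∏ k : K r, k • (x * e) = x ^ Nat.card (K r) := by
        have h2 : ∀ k : K r, k • (x * e) = x * k • e := by
          intro k
          rw [smul_mul']
          congr 1
          exact hmv k k.2
        rw [Finset.prod_congr rfl fun k _ => h2 k, Finset.prod_mul_distrib, he, mul_one,
          Finset.prod_const, Finset.card_univ, Nat.card_eq_fintype_card]
      have h3 := lw_norm (K r) g (hnor r hrS g hg) (x * e)
      rw [h, h1, map_pow] at h3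
      exact (powCoprime (hcop r hrS).symm).injective h3
    refine ⟨x * e, fun g hg h => hx1 g hg (key g hg h), fun r' hr' => ?_⟩
    rcases Finset.mem_insert.1 hr' with h | h
    · rw [h]
      refine ⟨k0, k0.2, fun h1 => he0 ?_⟩
      rw [map_mul, hmv k0 k0.2] at h1
      exact mul_left_cancel h1
    · obtain ⟨y, hy, hy'⟩ := hx2 r' h
      exact ⟨y, hy, fun h1 => hy' (key y (hle r' hr' hy) h1)⟩

/-! ### The action on the linear characters -/

section
variable {J : Type} [Group J]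

/-- The action of `J` on the linear characters of the normal subgroup `A`. -/
def lwA (A : Subgroup J) (hA : A.Normal) : J →* MulAut (A →* ℂˣ) where
  toFun g :=
    { toFun := fun f => f.comp (MulAut.conjNormal g⁻¹ : MulAut A).toMonoidHom
      invFun := fun f => f.comp (MulAut.conjNormal g : MulAut A).toMonoidHom
      left_inv := fun f => by
        refine MonoidHom.ext fun x => ?_
        show f ((MulAut.conjNormal g⁻¹ : MulAut A) ((MulAut.conjNormal g : MulAut A) x)) = f x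
        congr 1
        rw [← MulAut.mul_apply, ← map_mul, inv_mul_cancel, map_one, MulAut.one_apply]
      right_inv := fun f => by
        refine MonoidHom.ext fun x => ?_
        show f ((MulAut.conjNormal g : MulAut A) ((MulAut.conjNormal g⁻¹ : MulAut A) x)) = f x
        congr 1
        rw [← MulAut.mul_apply, ← map_mul, mul_inv_cancel, map_one, MulAut.one_apply]
      map_mul' := fun f f' => rfl }
  map_one' := by
    refine MulEquiv.ext fun f => MonoidHom.ext fun x => ?_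
    show f ((MulAut.conjNormal (1 : J)⁻¹ : MulAut A) x) = f x
    rw [inv_one, map_one, MulAut.one_apply]
  map_mul' g k := by
    refine MulEquiv.ext fun f => MonoidHom.ext fun x => ?_
    show f ((MulAut.conjNormal (g * k)⁻¹ : MulAut A) x) =
      f ((MulAut.conjNormal k⁻¹ : MulAut A) ((MulAut.conjNormal g⁻¹ : MulAut A) x))
    rw [mul_inv_rev, map_mul, MulAut.mul_apply]

theorem lwA_apply (A : Subgroup J) (hA : A.Normal) (g : J) (f : A →* ℂˣ) (x y : A)
    (hxy : (y : J) = g * x * g⁻¹) : lwA A hA g f y = f x := by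
  show f ((MulAut.conjNormal g⁻¹ : MulAut A) y) = f x
  congr 1
  apply Subtype.ext
  rw [MulAut.conjNormal_apply, hxy]
  group

/-- `f` is fixed by `g`. -/
theorem lwA_iff (A : Subgroup J) (hA : A.Normal) (g : J) (f : A →* ℂˣ) :
    lwA A hA g f = f ↔ g ∈ fxG A hA (fun x : A => ((f x : ℂˣ) : ℂ)) := by
  constructor
  · intro h x y hxy
    have h1 := lwA_apply A hA g f x y hxy
    rw [h] at h1
    show ((f y : ℂˣ) : ℂ) = ((f x : ℂˣ) : ℂ)
    rw [h1]
  · intro h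
    refine MonoidHom.ext fun y => ?_
    obtain ⟨x, hx⟩ : ∃ x : A, (x : J) = g⁻¹ * y * g := by
      refine ⟨⟨g⁻¹ * y * g, ?_⟩, rfl⟩
      have := hA.conj_mem y y.2 g⁻¹
      rwa [inv_inv] at this
    have hxy : (y : J) = g * x * g⁻¹ := by
      rw [hx]
      group
    rw [lwA_apply A hA g f x y hxy]
    exact (Units.ext (h x y hxy)).symm

theorem lw_one (P : Type) [Group P] : (fun _ : P => (1 : ℂ)) ∈ Irr P := by
  refine ⟨1, (1 : P →* ((Fin 1 → ℂ) →ₗ[ℂ] (Fin 1 → ℂ))), ?_, ?_⟩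
  · have h1 : IsSimpleOrder (Submodule ℂ (Fin 1 → ℂ)) := by
      have h2 : IsSimpleModule ℂ (Fin 1 → ℂ) := by
        rw [isSimpleModule_iff_finrank_eq_one]
        simp
      exact (isSimpleModule_iff ℂ (Fin 1 → ℂ)).1 h2
    refine { exists_pair_ne := ⟨⊥, ⊤, fun h => ?_⟩, eq_bot_or_eq_top := fun S => ?_ }
    · have h2 := congrArg Subrepresentation.toSubmodule h
      exact bot_ne_top h2
    · rcases h1.eq_bot_or_eq_top S.toSubmodule with h2 | h2
      · left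
        exact Subrepresentation.toSubmodule_injective h2
      · right
        exact Subrepresentation.toSubmodule_injective h2
  · funext g
    show LinearMap.trace ℂ (Fin 1 → ℂ) (1 : (Fin 1 → ℂ) →ₗ[ℂ] (Fin 1 → ℂ)) = 1
    rw [LinearMap.trace_one]
    simp

theorem lw_lin {P : Type} [Group P] (f : P →* ℂˣ) :
    (fun x : P => ((f x : ℂˣ) : ℂ)) ∈ Irr P := by
  have h1 := LinB_irr f _ (lw_one P)
  simpa using h1

theorem lw_fin (P : Type) [Group P] [Finite P] : Finite (P →* ℂˣ) := by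
  have := Fintype.ofFinite P
  have := Col_finite P
  refine Finite.of_injective (fun f : P →* ℂˣ => (⟨_, lw_lin f⟩ : Irr P)) fun f g h => ?_
  have h1 := congrArg Subtype.val h
  exact MonoidHom.ext fun x => Units.ext (congrFun h1 x)

end

section
variable {J : Type} [Group J]

theorem lwA_same (A : Subgroup J) (hA : A.Normal) (s s' : J)
    (h : ∀ x ∈ A, s' * x * s'⁻¹ = s * x * s⁻¹) (f : A →* ℂˣ) : lwA A hA s' f = lwA A hA s f := by
  refine MonoidHom.ext fun y => ?_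
  obtain ⟨x, hx⟩ : ∃ x : A, (x : J) = s⁻¹ * y * s := by
    refine ⟨⟨s⁻¹ * y * s, ?_⟩, rfl⟩
    have := hA.conj_mem y y.2 s⁻¹
    rwa [inv_inv] at this
  have h1 : (y : J) = s * x * s⁻¹ := by
    rw [hx]
    group
  rw [lwA_apply A hA s f x y h1, lwA_apply A hA s' f x y (by rw [h x x.2, h1])]

/-- The action on an invariant group of linear characters. -/
def lwY (A : Subgroup J) (hA : A.Normal) (Y : Subgroup (A →* ℂˣ))
    (hY : ∀ g, ∀ f ∈ Y, lwA A hA g f ∈ Y) : J →* MulAut Y where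
  toFun g :=
    { toFun := fun f => ⟨lwA A hA g f, hY g f f.2⟩
      invFun := fun f => ⟨lwA A hA g⁻¹ f, hY g⁻¹ f f.2⟩
      left_inv := fun f => Subtype.ext (by
        show lwA A hA g⁻¹ (lwA A hA g f) = f
        rw [← MulAut.mul_apply, ← map_mul, inv_mul_cancel, map_one, MulAut.one_apply])
      right_inv := fun f => Subtype.ext (by
        show lwA A hA g (lwA A hA g⁻¹ f) = f
        rw [← MulAut.mul_apply, ← map_mul, mul_inv_cancel, map_one, MulAut.one_apply])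
      map_mul' := fun f f' => Subtype.ext (map_mul (lwA A hA g) (f : A →* ℂˣ) f') }
  map_one' := by
    refine MulEquiv.ext fun f => Subtype.ext ?_
    show lwA A hA 1 f = f
    rw [map_one, MulAut.one_apply]
  map_mul' g k := by
    refine MulEquiv.ext fun f => Subtype.ext ?_
    show lwA A hA (g * k) f = lwA A hA g (lwA A hA k f)
    rw [map_mul, MulAut.mul_apply]

end

section
variable {J : Type} [Group J] [Finite J]

private theorem lw_syl {r : ℕ} (hr : r.Prime) (R : Sylow r J) (s : J) (hs : s ∈ (R : Subgroup J))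
    (h1 : s ≠ 1) : r ∣ Nat.card J := by
  have : Fact r.Prime := ⟨hr⟩
  by_contra hd
  apply h1
  have h2 : Nat.card (R : Subgroup J) = 1 := by
    rw [R.card_eq_multiplicity, Nat.factorization_eq_zero_of_not_dvd hd, pow_zero]
  have h3 := (Subgroup.card_eq_one).1 h2
  rw [h3] at hs
  exact (Subgroup.mem_bot).1 hs

/-- The selection of a linear character of `A` in the invariant group `Y`. -/
theorem lw_sel {A : Subgroup J} (hA : Ab A) (B : Set ℕ) (hB : ∀ r ∈ B, AR A r)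
    (Y : Subgroup (A →* ℂˣ)) (hY : ∀ g, ∀ f ∈ Y, lwA A hA.nor g f ∈ Y)
    (hnt : ∀ r ∈ B, ∃ R : Sylow r J, ∃ s ∈ (R : Subgroup J), ∃ f ∈ Y, lwA A hA.nor s f ≠ f)
    (x0 : A →* ℂˣ) (hx0 : x0 ∈ Y) :
    ∃ f ∈ Y, (∀ g, lwA A hA.nor g f = f → lwA A hA.nor g x0 = x0) ∧
      ∀ r ∈ B, ∀ R : Sylow r J, ∃ s ∈ (R : Subgroup J), lwA A hA.nor s f ≠ f := by
  have hfX := lw_fin A
  have hQ : ∀ r, ∃ Q : Subgroup J, r ∈ B → (∃ R : Sylow r J, Q = R) ∧
      ∃ s ∈ Q, ∃ f ∈ Y, lwA A hA.nor s f ≠ f := by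
    intro r
    by_cases hr : r ∈ B
    · obtain ⟨R, s, hs, f, hf, h⟩ := hnt r hr
      exact ⟨R, fun _ => ⟨⟨R, rfl⟩, s, hs, f, hf, h⟩⟩
    · exact ⟨⊥, fun h => absurd h hr⟩
  choose Q hQ using hQ
  obtain ⟨φ, hφ⟩ : ∃ φ, φ = lwY A hA.nor Y hY := ⟨_, rfl⟩
  have hφa : ∀ g (f : Y), ((φ g f : Y) : A →* ℂˣ) = lwA A hA.nor g f := by
    intro g f
    rw [hφ]
    rfl
  have hsame : ∀ s s' : J, (∀ x ∈ A, s' * x * s'⁻¹ = s * x * s⁻¹) → φ s' = φ s := by
    intro s s' h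
    refine MulEquiv.ext fun f => Subtype.ext ?_
    rw [hφa, hφa]
    exact lwA_same A hA.nor s s' h f
  let S : Finset ℕ := (Nat.card J).primeFactors.filter (fun r => r ∈ B)
  have hSB : ∀ r ∈ S, r ∈ B := fun r hr => (Finset.mem_filter.1 hr).2
  have hBS : ∀ r ∈ B, r ∈ S := by
    intro r hr
    obtain ⟨R, s, hs, f, -, h⟩ := hnt r hr
    refine Finset.mem_filter.2 ⟨Nat.mem_primeFactors.2 ⟨(hB r hr).prime, ?_, Nat.card_pos.ne'⟩, hr⟩
    refine lw_syl (hB r hr).prime R s hs fun h1 => h ?_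
    rw [h1, map_one, MulAut.one_apply]
  have g1 : ∀ r ∈ S, (Nat.card ((Q r).map φ)).Coprime (Nat.card Y) := by
    intro r hr
    have hrB := hSB r hr
    obtain ⟨⟨R, hR⟩, -⟩ := hQ r hrB
    have hrp := (hB r hrB).prime
    have : Fact r.Prime := ⟨hrp⟩
    have h1 : ¬ r ∣ Nat.card Y := by
      intro hd
      obtain ⟨y, hy⟩ := exists_prime_orderOf_dvd_card' r hd
      have hy1 : y ≠ 1 := by
        intro h
        rw [h, orderOf_one] at hy
        exact hrp.ne_one hy.symm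
      apply hy1
      refine Subtype.ext (MonoidHom.ext fun a => ?_)
      have h2 : ((y : A →* ℂˣ) a) ^ r = 1 := by
        have h3 : y ^ r = 1 := by
          rw [← hy]
          exact pow_orderOf_eq_one y
        have h4 := congrArg (fun z : Y => (z : A →* ℂˣ) a) h3
        simpa using h4
      have h3 : ((y : A →* ℂˣ) a) ^ Nat.card A = 1 := by
        rw [← map_pow, pow_card_eq_one', map_one]
      have h4 : Nat.Coprime r (Nat.card A) := (hrp.coprime_iff_not_dvd).2 (hB r hrB).ndvd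
      have h5 := pow_gcd_eq_one.2 ⟨h2, h3⟩
      rwa [Nat.Coprime.gcd_eq_one h4, pow_one] at h5
    have h2 : Nat.card ((Q r).map φ) ∣ Nat.card (R : Subgroup J) := by
      rw [hR]
      exact Subgroup.card_map_dvd _ _
    obtain ⟨n, hn⟩ := IsPGroup.iff_card.1 R.isPGroup'
    rw [hn] at h2
    refine Nat.Coprime.coprime_dvd_left h2 (Nat.Coprime.pow_left n ?_)
    exact (hrp.coprime_iff_not_dvd).2 h1
  have g2 : ∀ r ∈ S, (Q r).map φ ≤ φ.range := fun r _ => Subgroup.map_le_range φ (Q r)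
  have g3 : ∀ r ∈ S, ∀ g ∈ φ.range, ∀ k ∈ (Q r).map φ, g * k * g⁻¹ ∈ (Q r).map φ := by
    rintro r hr _ ⟨g, rfl⟩ _ ⟨s, hs, rfl⟩
    have hrB := hSB r hr
    obtain ⟨⟨R, hR⟩, -⟩ := hQ r hrB
    have hs' : g * s * g⁻¹ ∈ ((g • R : Sylow r J) : Subgroup J) := by
      rw [Sylow.coe_subgroup_smul, Subgroup.mem_pointwise_smul_iff_inv_smul_mem, ← map_inv,
        MulAut.smul_def, MulAut.conj_apply]
      have h1 : g⁻¹ * (g * s * g⁻¹) * g⁻¹⁻¹ = s := by group
      rw [h1, ← hR]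
      exact hs
    obtain ⟨s', hs1, hs2⟩ := ar_act hA (hB r hrB) R (g • R) _ hs'
    refine ⟨s', hR ▸ hs1, ?_⟩
    rw [← map_inv, ← map_mul, ← map_mul]
    exact (hsame _ _ fun x hx => hs2 x hx).symm
  have g4 : ∀ r ∈ S, (Q r).map φ ≠ ⊥ := by
    intro r hr h
    obtain ⟨-, s, hs, f, hf, hne⟩ := hQ r (hSB r hr)
    apply hne
    have h1 : φ s = 1 := by
      have h2 : φ s ∈ (Q r).map φ := ⟨s, hs, rfl⟩
      rw [h] at h2
      exact (Subgroup.mem_bot).1 h2
    have h2 := congrArg (fun u : MulAut Y => ((u ⟨f, hf⟩ : Y) : A →* ℂˣ)) h1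
    rw [hφa] at h2
    exact h2
  obtain ⟨x, hx1, hx2⟩ := lw_gr (X := Y) φ.range ⟨x0, hx0⟩ (fun r => (Q r).map φ) S g1 g2 g3 g4
  refine ⟨x, x.2, fun g hg => ?_, fun r hr R' => ?_⟩
  · have h1 : φ g x = x := Subtype.ext (by rw [hφa]; exact hg)
    have h2 := hx1 (φ g) ⟨g, rfl⟩ h1
    have h3 := congrArg Subtype.val h2
    rwa [hφa] at h3
  · obtain ⟨y, hy, hyx⟩ := hx2 r (hBS r hr)
    obtain ⟨s, hs, rfl⟩ := hy
    obtain ⟨⟨R, hR⟩, -⟩ := hQ r hr
    have hs' : s ∈ (R : Subgroup J) := hR ▸ hs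
    obtain ⟨s', hs1, hs2⟩ := ar_act hA (hB r hr) R' R s hs'
    refine ⟨s', hs1, fun h => hyx ?_⟩
    refine Subtype.ext ?_
    rw [hφa, lwA_same A hA.nor s' s hs2, h]

theorem lw_idx {A : Subgroup J} (hA : A.Normal) {r : ℕ} (hr : r.Prime) (f : A →* ℂˣ)
    (h : ∀ R : Sylow r J, ∃ s ∈ (R : Subgroup J), lwA A hA s f ≠ f) :
    r ∣ (fxG A hA (fun x : A => ((f x : ℂˣ) : ℂ))).index := by
  by_contra hd
  obtain ⟨R, hR⟩ := syl_in r hr _ hd
  obtain ⟨s, hs, hne⟩ := h R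
  exact hne ((lwA_iff A hA s f).2 (hR hs))

private theorem lw_sep {P : Type} [Group P] [Finite P] (hab : ∀ x y : P, x * y = y * x) {a : P}
    (ha : a ≠ 1) : ∃ f : P →* ℂˣ, f a ≠ 1 := by
  let _ : CommGroup P := { (inferInstance : Group P) with mul_comm := hab }
  exact CommGroup.exists_apply_ne_one_of_hasEnoughRootsOfUnity P ℂ ha

/-- `f` is moved by `s`. -/
private theorem lw_mv {A : Subgroup J} (hA : Ab A) (s a : J) (ha : a ∈ A) (h1 : s * a * s⁻¹ ≠ a) :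
    ∃ f : A →* ℂˣ, lwA A hA.nor s f ≠ f := by
  have h2 : s * a * s⁻¹ ∈ A := hA.nor.conj_mem a ha s
  obtain ⟨f, hf⟩ := lw_sep (P := A) (fun x y => Subtype.ext (hA.com x x.2 y y.2))
    (a := (⟨s * a * s⁻¹, h2⟩ : A) * (⟨a, ha⟩ : A)⁻¹) (by
      intro h3
      apply h1
      exact congrArg Subtype.val (mul_inv_eq_one.1 h3))
  refine ⟨f, fun h3 => hf ?_⟩
  have h4 := lwA_apply A hA.nor s f ⟨a, ha⟩ ⟨s * a * s⁻¹, h2⟩ rfl
  rw [h3] at h4
  rw [map_mul, h4, map_inv, mul_inv_cancel]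

theorem lw_top {A : Subgroup J} (hA : Ab A) {r : ℕ} (h : AR A r) (hne : cm A r ≠ ⊥) :
    ∃ R : Sylow r J, ∃ s ∈ (R : Subgroup J), ∃ f : A →* ℂˣ, lwA A hA.nor s f ≠ f := by
  have : Fact r.Prime := ⟨h.prime⟩
  obtain ⟨R⟩ : Nonempty (Sylow r J) := inferInstance
  refine ⟨R, ?_⟩
  by_contra hcon
  push Not at hcon
  apply hne
  rw [ar_cm hA h R, eq_bot_iff, Subgroup.commutator_le]
  intro a ha s hs
  rw [Subgroup.mem_bot, commutatorElement_eq_one_iff_mul_comm]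
  by_contra h1
  obtain ⟨f, hf⟩ := lw_mv hA s a ha (fun h2 => h1 (by
    rw [mul_inv_eq_iff_eq_mul] at h2
    exact h2.symm))
  exact hf (hcon s hs f)

/-- The first case. -/
theorem lw_c1 {A : Subgroup J} (hA : Ab A) (B : Set ℕ) (hB : ∀ r ∈ B, AR A r)
    (hne : ∀ r ∈ B, cm A r ≠ ⊥) (x0 : A →* ℂˣ) :
    ∃ ψ ∈ Irr J, ∃ d : ℕ, ψ 1 = d ∧ (∀ r ∈ B, r ∣ d) ∧ ∀ c : ℕ, c.Prime →
      (∀ P : Sylow c J, ∃ s ∈ (P : Subgroup J), lwA A hA.nor s x0 ≠ x0) → c ∣ d := by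
  obtain ⟨f, -, hf1, hf2⟩ := lw_sel hA B hB ⊤ (fun _ _ _ => Subgroup.mem_top _)
    (fun r hr => by
      obtain ⟨R, s, hs, f, hf⟩ := lw_top hA (hB r hr) (hne r hr)
      exact ⟨R, s, hs, f, Subgroup.mem_top _, hf⟩) x0 (Subgroup.mem_top _)
  obtain ⟨ψ, hψ, m, hm⟩ := clif A hA.nor _ (lw_lin f)
  rw [map_one, Units.val_one, mul_one] at hm
  refine ⟨ψ, hψ, m * (fxG A hA.nor fun x : A => ((f x : ℂˣ) : ℂ)).index, ?_, ?_, ?_⟩
  · rw [hm, Nat.cast_mul]
  · intro r hr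
    exact (lw_idx hA.nor (hB r hr).prime f (hf2 r hr)).mul_left m
  · intro c hc h
    refine (lw_idx hA.nor hc f fun P => ?_).mul_left m
    obtain ⟨s, hs, h1⟩ := h P
    exact ⟨s, hs, fun h2 => h1 (hf1 s h2)⟩

/-- The low characters. -/
theorem lw0 {A : Subgroup J} (hA : Ab A) (B : Set ℕ) (hB : ∀ r ∈ B, AR A r)
    (hne : ∀ r ∈ B, cm A r ≠ ⊥) :
    ∃ ψ ∈ Irr J, ∃ d : ℕ, ψ 1 = d ∧ ∀ r ∈ B, r ∣ d := by
  obtain ⟨ψ, hψ, d, hd, h, -⟩ := lw_c1 hA B hB hne 1
  exact ⟨ψ, hψ, d, hd, h⟩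

/-- An involution gives an element which is fixed by no Sylow 2-subgroup. -/
private theorem lw_inv {X : Type} [CommGroup X] (φ : J →* MulAut X)
    (hX : ∀ z : X, z⁻¹ = z → z = 1) (P : Sylow 2 J) (x : J) (hx : x ∈ (P : Subgroup J))
    (hxa : φ x ≠ 1) :
    ∃ x0 : X, ∀ Q : Sylow 2 J, ∃ s ∈ (Q : Subgroup J), φ s x0 ≠ x0 := by
  -- the involution
  obtain ⟨n, hn⟩ := P.isPGroup' ⟨x, hx⟩
  have hn' : x ^ 2 ^ n = 1 := congrArg Subtype.val hn
  have hex : ∃ k, φ x ^ 2 ^ k = 1 := ⟨n, by rw [← map_pow, hn', map_one]⟩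
  classical
  obtain ⟨k, hk1, hk2⟩ : ∃ k, φ x ^ 2 ^ k ≠ 1 ∧ φ x ^ 2 ^ (k + 1) = 1 := by
    have h1 := Nat.find_spec hex
    have h2 : Nat.find hex ≠ 0 := by
      intro h3
      rw [h3, pow_zero, pow_one] at h1
      exact hxa h1
    obtain ⟨k, hk⟩ := Nat.exists_eq_succ_of_ne_zero h2
    refine ⟨k, fun h4 => ?_, by rw [← Nat.succ_eq_add_one, ← hk]; exact h1⟩
    have h5 := Nat.find_min' hex h4
    omega
  obtain ⟨u, hu⟩ : ∃ u, u = x ^ 2 ^ k := ⟨_, rfl⟩
  have hu1 : φ u ≠ 1 := by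
    rw [hu, map_pow]
    exact hk1
  have hu2 : φ u * φ u = 1 := by
    rw [hu, map_pow, ← pow_two, ← pow_mul, ← pow_succ]
    exact hk2
  obtain ⟨y, hy⟩ : ∃ y, φ u y ≠ y := by
    by_contra hcon
    push Not at hcon
    exact hu1 (MulEquiv.ext hcon)
  have huu : ∀ z, φ u (φ u z) = z := fun z => by
    rw [← MulAut.mul_apply, hu2, MulAut.one_apply]
  obtain ⟨x0, hx0⟩ : ∃ x0, x0 = y * (φ u y)⁻¹ := ⟨_, rfl⟩
  have hx1 : φ u x0 = x0⁻¹ := by
    rw [hx0, map_mul, map_inv, huu, mul_inv_rev, inv_inv]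
  have hx2 : x0⁻¹ ≠ x0 := by
    intro h
    rw [hX x0 h] at hx0
    exact hy (mul_inv_eq_one.1 hx0.symm).symm
  refine ⟨x0, fun Q => ?_⟩
  by_contra hcon
  push Not at hcon
  -- the two stabilizers
  let S : Subgroup J :=
    { carrier := {g | φ g x0 = x0}
      one_mem' := by
        show φ 1 x0 = x0
        rw [map_one, MulAut.one_apply]
      mul_mem' := by
        intro g h hg hh
        show φ (g * h) x0 = x0
        have hg' : φ g x0 = x0 := hg
        have hh' : φ h x0 = x0 := hh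
        rw [map_mul, MulAut.mul_apply, hh', hg']
      inv_mem' := by
        intro g hg
        have hg' : φ g x0 = x0 := hg
        show φ g⁻¹ x0 = x0
        nth_rewrite 1 [← hg']
        rw [← MulAut.mul_apply, ← map_mul, inv_mul_cancel, map_one, MulAut.one_apply] }
  let T : Subgroup J :=
    { carrier := {g | φ g x0 = x0 ∨ φ g x0 = x0⁻¹}
      one_mem' := by
        left
        show φ 1 x0 = x0
        rw [map_one, MulAut.one_apply]
      mul_mem' := by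
        intro g h hg hh
        show φ (g * h) x0 = x0 ∨ φ (g * h) x0 = x0⁻¹
        rw [map_mul, MulAut.mul_apply]
        rcases hh with hh' | hh' <;> rcases hg with hg' | hg'
        · left; rw [hh', hg']
        · right; rw [hh', hg']
        · right; rw [hh', map_inv, hg']
        · left; rw [hh', map_inv, hg', inv_inv]
      inv_mem' := by
        intro g hg
        show φ g⁻¹ x0 = x0 ∨ φ g⁻¹ x0 = x0⁻¹
        rcases hg with hg' | hg'
        · left
          nth_rewrite 1 [← hg']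
          rw [← MulAut.mul_apply, ← map_mul, inv_mul_cancel, map_one, MulAut.one_apply]
        · right
          have h1 : φ g⁻¹ (φ g x0) = x0 := by
            rw [← MulAut.mul_apply, ← map_mul, inv_mul_cancel, map_one, MulAut.one_apply]
          rw [hg', map_inv] at h1
          exact inv_eq_iff_eq_inv.1 h1 }
  have hST : S ≤ T := fun g hg => Or.inl hg
  have h2 : (S.subgroupOf T).index = 2 := by
    rw [Subgroup.index_eq_two_iff]
    refine ⟨⟨u, Or.inr hx1⟩, ?_⟩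
    rintro ⟨g, hg⟩
    rw [Subgroup.mem_subgroupOf, Subgroup.mem_subgroupOf]
    show Xor (φ (g * u) x0 = x0) (φ g x0 = x0)
    rw [map_mul, MulAut.mul_apply, hx1, map_inv]
    rcases hg with hg' | hg'
    · rw [hg']
      exact Or.inr ⟨rfl, hx2⟩
    · rw [hg', inv_inv]
      exact Or.inl ⟨rfl, hx2⟩
  have h3 : 2 ∣ S.index := by
    rw [← Subgroup.relIndex_mul_index hST]
    exact Dvd.dvd.mul_right (dvd_of_eq h2.symm) _
  have h4 : (Q : Subgroup J) ≤ S := fun s hs => hcon s hs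
  exact Q.not_dvd_index (h3.trans (Subgroup.index_dvd_of_le h4))

private theorem lw_two {A : Subgroup J} (hA : Ab A) (hA2 : ¬ 2 ∣ Nat.card A) (P : Sylow 2 J)
    (x : J) (hx : x ∈ (P : Subgroup J)) (a : J) (ha : a ∈ A) (hxa : x * a * x⁻¹ ≠ a) :
    ∃ x0 : A →* ℂˣ, ∀ Q : Sylow 2 J, ∃ s ∈ (Q : Subgroup J), lwA A hA.nor s x0 ≠ x0 := by
  obtain ⟨f0, hf0⟩ := lw_mv hA x a ha hxa
  refine lw_inv (X := A →* ℂˣ) (lwA A hA.nor) (fun z hz => ?_) P x hx (fun h => hf0 ?_)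
  · refine MonoidHom.ext fun a => ?_
    have h2 : (z a) ^ 2 = 1 := by
      have h3 : (z⁻¹) a = z a := by rw [hz]
      rw [MonoidHom.inv_apply] at h3
      rw [pow_two]
      nth_rewrite 1 [← h3]
      exact inv_mul_cancel _
    have h3 : (z a) ^ Nat.card A = 1 := by
      rw [← map_pow, pow_card_eq_one', map_one]
    have h4 : Nat.Coprime 2 (Nat.card A) := (Nat.prime_two.coprime_iff_not_dvd).2 hA2
    have h5 := pow_gcd_eq_one.2 ⟨h2, h3⟩
    rwa [Nat.Coprime.gcd_eq_one h4, pow_one] at h5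
  · rw [h, MulAut.one_apply]

/-- The elements of `A` which are products of commutators of `C` are fixed by `R`. -/
private theorem lw_key {A : Subgroup J} (hA : Ab A) {r : ℕ} (h : AR A r) (R : Sylow r J)
    (C : Subgroup J) (hC : C.Normal) (hCA : ∀ x ∈ C, ∀ a ∈ A, x * a = a * x)
    (y : J) (hy : y ∈ A) (hyC : y ∈ ⁅C, C⁆) (s : J) (hs : s ∈ (R : Subgroup J)) :
    s * y * s⁻¹ = y := by
  have : Fact r.Prime := ⟨h.prime⟩
  have hAn : A.Normal := hA.nor
  let Z : Subgroup J :=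
    { carrier := {z | z ∈ (R : Subgroup J) ∧ ∀ a ∈ A, z * a = a * z}
      one_mem' := ⟨one_mem _, fun a _ => by rw [one_mul, mul_one]⟩
      mul_mem' := fun {u v} hu hv => ⟨mul_mem hu.1 hv.1, fun a ha => by
        rw [mul_assoc, hv.2 a ha, ← mul_assoc, hu.2 a ha, mul_assoc]⟩
      inv_mem' := fun {u} hu => ⟨inv_mem hu.1, fun a ha => by
        have h1 := hu.2 a ha
        calc u⁻¹ * a = u⁻¹ * (a * u) * u⁻¹ := by group
          _ = u⁻¹ * (u * a) * u⁻¹ := by rw [h1]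
          _ = a * u⁻¹ := by group⟩ }
  have hZ : Z.Normal := by
    refine ⟨fun z hz g => ?_⟩
    have h1 : ∀ a ∈ A, g * z * g⁻¹ * a = a * (g * z * g⁻¹) := by
      intro a ha
      have h2 := hz.2 (g⁻¹ * a * g) (by
        have := hA.nor.conj_mem a ha g⁻¹
        rwa [inv_inv] at this)
      calc g * z * g⁻¹ * a = g * (z * (g⁻¹ * a * g)) * g⁻¹ := by group
        _ = g * (g⁻¹ * a * g * z) * g⁻¹ := by rw [h2]
        _ = a * (g * z * g⁻¹) := by group
    refine ⟨?_, h1⟩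
    obtain ⟨b, hb, hx⟩ := ar_conj hA h R (g • R)
    have h3 : g * z * g⁻¹ ∈ ((g • R : Sylow r J) : Subgroup J) := by
      rw [Sylow.coe_subgroup_smul, Subgroup.mem_pointwise_smul_iff_inv_smul_mem, ← map_inv,
        MulAut.smul_def, MulAut.conj_apply]
      have h4 : g⁻¹ * (g * z * g⁻¹) * g⁻¹⁻¹ = z := by group
      rw [h4]
      exact hz.1
    have h4 := (hx _).1 h3
    have h5 : b⁻¹ * (g * z * g⁻¹) * b = g * z * g⁻¹ := by
      rw [mul_assoc, h1 b hb, inv_mul_cancel_left]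
    rwa [h5] at h4
  have hCR : ∀ w ∈ ⁅C, (R : Subgroup J)⁆, ∃ a ∈ A, ∃ z ∈ Z, w = a * z := by
    intro w hw
    have h1 : w ∈ C := Subgroup.commutator_le_left C _ hw
    have h2 : w ∈ A ⊔ (R : Subgroup J) := by
      have h3 : ⁅C, (R : Subgroup J)⁆ ≤ ⁅(⊤ : Subgroup J), A ⊔ (R : Subgroup J)⁆ :=
        Subgroup.commutator_mono le_top le_sup_right
      have := h.nor R
      exact Subgroup.commutator_le_right _ _ (h3 hw)
    obtain ⟨a, ha, s, hs, hw'⟩ := Subgroup.mem_sup_of_normal_left.1 h2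
    refine ⟨a, ha, s, ⟨hs, fun b hb => ?_⟩, hw'.symm⟩
    have h5 := hCA w h1 b hb
    rw [← hw'] at h5
    have h6 := hA.com a ha b hb
    calc s * b = a⁻¹ * (a * s * b) := by group
      _ = a⁻¹ * (b * (a * s)) := by rw [h5]
      _ = a⁻¹ * (b * a) * s := by group
      _ = a⁻¹ * (a * b) * s := by rw [h6]
      _ = b * s := by group
  obtain ⟨π, hπ⟩ : ∃ π, π = QuotientGroup.mk' Z := ⟨_, rfl⟩
  have hk : ∀ w, π w = 1 ↔ w ∈ Z := by
    intro w
    rw [hπ, QuotientGroup.mk'_apply, QuotientGroup.eq_one_iff]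
  have h1 : ⁅(C.map π), ((R : Subgroup J).map π)⁆ ≤ A.map π := by
    rw [← Subgroup.map_commutator]
    rintro _ ⟨w, hw, rfl⟩
    obtain ⟨a, ha, z, hz, rfl⟩ := hCR w hw
    exact ⟨a, ha, by rw [map_mul, (hk z).2 hz, mul_one]⟩
  have h2 : ⁅(A.map π), (C.map π)⁆ = ⊥ := by
    rw [← Subgroup.map_commutator]
    have h3 : ⁅A, C⁆ = ⊥ := by
      rw [eq_bot_iff, Subgroup.commutator_le]
      intro a ha x hx
      rw [Subgroup.mem_bot, commutatorElement_eq_one_iff_mul_comm]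
      exact (hCA x hx a ha).symm
    rw [h3, Subgroup.map_bot]
  have h3 : ⁅⁅(C.map π), ((R : Subgroup J).map π)⁆, C.map π⁆ = ⊥ := by
    rw [eq_bot_iff, ← h2]
    exact Subgroup.commutator_mono h1 le_rfl
  have h4 : ⁅⁅((R : Subgroup J).map π), C.map π⁆, C.map π⁆ = ⊥ := by
    rw [Subgroup.commutator_comm ((R : Subgroup J).map π)]
    exact h3
  have h5 : ⁅⁅C.map π, C.map π⁆, ((R : Subgroup J).map π)⁆ = ⊥ :=
    Subgroup.commutator_commutator_eq_bot_of_rotate h3 h4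
  have h6 : ⁅y, s⁆ ∈ Z := by
    rw [← hk, map_commutatorElement, ← Subgroup.mem_bot, ← h5]
    refine Subgroup.commutator_mem_commutator ?_ ⟨s, hs, rfl⟩
    rw [← Subgroup.map_commutator]
    exact ⟨y, hyC, rfl⟩
  have h7 : ⁅y, s⁆ ∈ A := by
    have h8 : ⁅y, s⁆ = y * (s * y⁻¹ * s⁻¹) := by
      rw [commutatorElement_def]
      group
    rw [h8]
    exact mul_mem hy (hAn.conj_mem _ (inv_mem hy) s)
  have h8 : ⁅y, s⁆ = 1 := by
    obtain ⟨n, hn⟩ := R.isPGroup' ⟨_, h6.1⟩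
    have hn' : ⁅y, s⁆ ^ r ^ n = 1 := congrArg Subtype.val hn
    have h9 : ⁅y, s⁆ ^ Nat.card A = 1 := by
      have h10 : (⟨_, h7⟩ : A) ^ Nat.card A = 1 := pow_card_eq_one'
      exact congrArg Subtype.val h10
    have h10 : Nat.Coprime (r ^ n) (Nat.card A) :=
      Nat.Coprime.pow_left n ((h.prime.coprime_iff_not_dvd).2 h.ndvd)
    have h11 := pow_gcd_eq_one.2 ⟨hn', h9⟩
    rwa [Nat.Coprime.gcd_eq_one h10, pow_one] at h11
  rw [commutatorElement_eq_one_iff_mul_comm] at h8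
  rw [← h8, mul_inv_cancel_right]

private theorem lw_abc {C : Type} [Group C] [Finite C] (t : C) (ht : t ∉ commutator C) :
    ∃ ξ : C →* ℂˣ, ξ t ≠ 1 := by
  have h1 : Abelianization.of t ≠ 1 := fun h => ht (by
    rwa [← Abelianization.ker_of, MonoidHom.mem_ker])
  obtain ⟨f, hf⟩ := lw_sep (P := Abelianization C) (fun x y => mul_comm x y) h1
  exact ⟨f.comp Abelianization.of, hf⟩

/-- A linear character of `C`, moved on `A`. -/
private theorem lw_cha {A : Subgroup J} (hA : Ab A) {r : ℕ} (h : AR A r) (hne : cm A r ≠ ⊥)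
    (C : Subgroup J) (hC : C.Normal) (hAC : A ≤ C) (hCA : ∀ x ∈ C, ∀ a ∈ A, x * a = a * x) :
    ∃ R : Sylow r J, ∃ s ∈ (R : Subgroup J), ∃ ξ : C →* ℂˣ,
      lwA A hA.nor s (ξ.comp (Subgroup.inclusion hAC)) ≠ ξ.comp (Subgroup.inclusion hAC) := by
  have : Fact r.Prime := ⟨h.prime⟩
  have hAn : A.Normal := hA.nor
  obtain ⟨R⟩ : Nonempty (Sylow r J) := inferInstance
  refine ⟨R, ?_⟩
  by_contra hcon
  push Not at hcon
  apply hne
  have h1 : ⁅A, (R : Subgroup J)⁆ ≤ ⁅C, C⁆ := by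
    rw [Subgroup.commutator_le]
    intro a ha s hs
    by_contra h2
    have h3 : s * a⁻¹ * s⁻¹ ∈ A := hAn.conj_mem _ (inv_mem ha) s
    have h4 : ⁅a, s⁆ = a * (s * a⁻¹ * s⁻¹) := by
      rw [commutatorElement_def]
      group
    have h5 : ⁅a, s⁆ ∈ A := by
      rw [h4]
      exact mul_mem ha h3
    obtain ⟨ξ, hξ⟩ := lw_abc (C := C) ⟨⁅a, s⁆, hAC h5⟩ (fun h6 => h2 (by
      have h7 : (⟨⁅a, s⁆, hAC h5⟩ : C).1 ∈ (commutator C).map C.subtype := ⟨_, h6, rfl⟩
      rwa [Subgroup.map_subtype_commutator] at h7))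
    apply hξ
    have h6 := hcon s hs ξ
    have h7 := lwA_apply A hA.nor s (ξ.comp (Subgroup.inclusion hAC)) ⟨a⁻¹, inv_mem ha⟩
      ⟨s * a⁻¹ * s⁻¹, h3⟩ rfl
    rw [h6] at h7
    have h8 : ξ ⟨s * a⁻¹ * s⁻¹, hAC h3⟩ = ξ ⟨a⁻¹, hAC (inv_mem ha)⟩ := h7
    have h9 : (⟨⁅a, s⁆, hAC h5⟩ : C) = ⟨a, hAC ha⟩ * ⟨s * a⁻¹ * s⁻¹, hAC h3⟩ := Subtype.ext h4
    rw [h9, map_mul, h8, ← map_mul]
    have h10 : (⟨a, hAC ha⟩ : C) * ⟨a⁻¹, hAC (inv_mem ha)⟩ = 1 := Subtype.ext (mul_inv_cancel a)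
    rw [h10, map_one]
  have h2 : ⁅A, (R : Subgroup J)⁆ ≤ A := Subgroup.commutator_le_left A _
  rw [ar_cm hA h R, eq_bot_iff]
  intro w hw
  rw [Subgroup.mem_bot]
  obtain ⟨n, hn⟩ := IsPGroup.iff_card.1 R.isPGroup'
  refine cp_fix hA R ?_ w hw fun s hs => ?_
  · rw [hn]
    exact Nat.Coprime.pow_left n ((h.prime.coprime_iff_not_dvd).2 h.ndvd)
  · exact lw_key hA h R C hC hCA w (h2 hw) (h1 hw) s hs

/-- A character of `C` over the trivial character of `A`, with degree divisible by `c`. -/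
private theorem lw_phi (hs : Group.IsSolvable J) {A : Subgroup J} (hA : Ab A) (c : ℕ)
    (hc : c.Prime) (hcA : ¬ c ∣ Nat.card A) (hn : ∀ P : Sylow c J, ¬ (P : Subgroup J).Normal)
    (C : Subgroup J) (hC : C.Normal) (hCA : ∀ x ∈ C, ∀ a ∈ A, x * a = a * x)
    (hPC : ∀ P : Sylow c J, (P : Subgroup J) ≤ C) :
    ∃ φ ∈ Irr C, (∀ a : C, (a : J) ∈ A → φ a = φ 1) ∧ ∃ d : ℕ, φ 1 = d ∧ c ∣ d := by
  have : Fact c.Prime := ⟨hc⟩
  have hAn : (A.subgroupOf C).Normal := by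
    have := hA.nor
    infer_instance
  obtain ⟨π, hπ⟩ : ∃ π, π = QuotientGroup.mk' (A.subgroupOf C) := ⟨_, rfl⟩
  have hsur : Function.Surjective π := by
    rw [hπ]
    exact QuotientGroup.mk'_surjective _
  have hk : ∀ x : C, π x = 1 ↔ (x : J) ∈ A := by
    intro x
    rw [hπ, QuotientGroup.mk'_apply, QuotientGroup.eq_one_iff, Subgroup.mem_subgroupOf]
  by_contra hcon
  have hK : ∀ χ ∈ Irr (C ⧸ A.subgroupOf C), ∀ d : ℕ, χ 1 = d → ¬ c ∣ d := by
    intro χ hχ d hd hcd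
    apply hcon
    refine ⟨fun x => χ (π x), Inf_irr π hsur χ hχ, fun a ha => ?_, d, ?_, hcd⟩
    · show χ (π a) = χ (π 1)
      rw [(hk a).2 ha, map_one]
    · show χ (π 1) = d
      rw [map_one, hd]
  have hsK : Group.IsSolvable (C ⧸ A.subgroupOf C) := by
    have := hs
    infer_instance
  obtain ⟨P⟩ : Nonempty (Sylow c J) := inferInstance
  apply hn P
  obtain ⟨T, hTP⟩ : ∃ T : Sylow c C, T = P.subtype (hPC P) := ⟨_, rfl⟩
  obtain ⟨hN, -⟩ := ito2 hsK c hc hK (T.mapSurjective hsur)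
  rw [Sylow.coe_mapSurjective] at hN
  have hTn : (T : Subgroup C).Normal := by
    refine ⟨fun t ht g => ?_⟩
    obtain ⟨t', ht', h2⟩ := hN.conj_mem (π t) ⟨t, ht, rfl⟩ (π g)
    rw [← map_mul, ← map_inv, ← map_mul] at h2
    obtain ⟨w, hw⟩ : ∃ w, w = g * t * g⁻¹ * t'⁻¹ := ⟨_, rfl⟩
    have h3 : (w : J) ∈ A := by
      rw [← hk, hw, map_mul, map_inv π t', h2, mul_inv_cancel]
    have h4 : Commute w t' := Subtype.ext (hCA t' t'.2 w h3).symm
    have h5 : g * t * g⁻¹ = w * t' := by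
      rw [hw, inv_mul_cancel_right]
    obtain ⟨n, hn1⟩ := T.isPGroup' ⟨t, ht⟩
    obtain ⟨m, hm1⟩ := T.isPGroup' ⟨t', ht'⟩
    have hn2 : t ^ c ^ n = 1 := congrArg Subtype.val hn1
    have hm2 : t' ^ c ^ m = 1 := congrArg Subtype.val hm1
    have h6 : w ^ c ^ (n + m) = 1 := by
      have h7 : (g * t * g⁻¹) ^ c ^ (n + m) = 1 := by
        rw [conj_pow, pow_add, pow_mul, hn2, one_pow, mul_one, mul_inv_cancel]
      rw [h5, h4.mul_pow] at h7
      have h8 : t' ^ c ^ (n + m) = 1 := by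
        rw [pow_add, mul_comm, pow_mul, hm2, one_pow]
      rwa [h8, mul_one] at h7
    have h7 : (w : J) ^ Nat.card A = 1 := by
      have h10 : (⟨_, h3⟩ : A) ^ Nat.card A = 1 := pow_card_eq_one'
      exact congrArg Subtype.val h10
    have h8 : (w : J) ^ c ^ (n + m) = 1 := congrArg Subtype.val h6
    have h9 : Nat.Coprime (c ^ (n + m)) (Nat.card A) :=
      Nat.Coprime.pow_left _ ((hc.coprime_iff_not_dvd).2 hcA)
    have h10 := pow_gcd_eq_one.2 ⟨h8, h7⟩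
    rw [Nat.Coprime.gcd_eq_one h9, pow_one] at h10
    have h11 : w = 1 := Subtype.ext h10
    rw [h5, h11, one_mul]
    exact ht'
  have h2 := Sylow.characteristic_of_normal T hTn
  have := hC
  have h3 : ((T : Subgroup C).map C.subtype).Normal := ConjAct.normal_of_characteristic_of_normal
  rw [hTP, Sylow.coe_subtype, Subgroup.map_subgroupOf_eq_of_le (hPC P)] at h3
  exact h3

/-- The second case: the Sylow `c`-subgroups centralize `A`. -/
private theorem lw_c2 (hs : Group.IsSolvable J) {A : Subgroup J} (hA : Ab A) (B : Set ℕ)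
    (hB : ∀ r ∈ B, AR A r) (hne : ∀ r ∈ B, cm A r ≠ ⊥) (c : ℕ) (hc : c.Prime)
    (hcA : ¬ c ∣ Nat.card A) (hn : ∀ P : Sylow c J, ¬ (P : Subgroup J).Normal)
    (hcen : ∀ P : Sylow c J, ∀ x ∈ (P : Subgroup J), ∀ a ∈ A, x * a = a * x) :
    ∃ ψ ∈ Irr J, ∃ d : ℕ, ψ 1 = d ∧ c ∣ d ∧ ∀ r ∈ B, r ∣ d := by
  have hAn : A.Normal := hA.nor
  obtain ⟨C, hCdef⟩ : ∃ C, C = Subgroup.centralizer (A : Set J) := ⟨_, rfl⟩
  have hCA : ∀ x ∈ C, ∀ a ∈ A, x * a = a * x := fun x hx a ha => by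
    rw [hCdef] at hx
    exact (Subgroup.mem_centralizer_iff.1 hx a ha).symm
  have hAC : A ≤ C := fun a ha => by
    rw [hCdef]
    exact Subgroup.mem_centralizer_iff.2 fun b hb => hA.com b hb a ha
  have hC : C.Normal := by
    rw [hCdef]
    infer_instance
  have hPC : ∀ P : Sylow c J, (P : Subgroup J) ≤ C := fun P x hx => by
    rw [hCdef]
    exact Subgroup.mem_centralizer_iff.2 fun a ha => (hcen P x hx a ha).symm
  obtain ⟨φ, hφ, hφA, d, hd, hcd⟩ := lw_phi hs hA c hc hcA hn C hC hCA hPC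
  obtain ⟨Y, hYdef⟩ : ∃ Y : Subgroup (A →* ℂˣ),
      Y = (MonoidHom.compHom' (P := ℂˣ) (Subgroup.inclusion hAC)).range := ⟨_, rfl⟩
  have hYm : ∀ f : A →* ℂˣ, f ∈ Y ↔ ∃ ξ : C →* ℂˣ, ξ.comp (Subgroup.inclusion hAC) = f := by
    intro f
    rw [hYdef]
    exact Iff.rfl
  have hY : ∀ g, ∀ f ∈ Y, lwA A hA.nor g f ∈ Y := by
    intro g f hf
    obtain ⟨ξ, rfl⟩ := (hYm f).1 hf
    rw [hYm]
    refine ⟨lwA C hC g ξ, ?_⟩
    refine MonoidHom.ext fun y => ?_
    obtain ⟨x, hx⟩ : ∃ x : A, (x : J) = g⁻¹ * y * g := by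
      refine ⟨⟨g⁻¹ * y * g, ?_⟩, rfl⟩
      have := hA.nor.conj_mem y y.2 g⁻¹
      rwa [inv_inv] at this
    have h1 : (y : J) = g * x * g⁻¹ := by
      rw [hx]
      group
    rw [lwA_apply A hA.nor g _ x y h1]
    exact lwA_apply C hC g ξ (Subgroup.inclusion hAC x) (Subgroup.inclusion hAC y) h1
  obtain ⟨f, hfY, -, hf⟩ := lw_sel hA B hB Y hY (fun r hr => by
    obtain ⟨R, s, hs, ξ, h⟩ := lw_cha hA (hB r hr) (hne r hr) C hC hAC hCA
    exact ⟨R, s, hs, _, (hYm _).2 ⟨ξ, rfl⟩, h⟩) 1 (one_mem _)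
  obtain ⟨ξ, hξ⟩ := (hYm f).1 hfY
  have hξf : ∀ a : A, ξ (Subgroup.inclusion hAC a) = f a := by
    intro a
    rw [← hξ]
    rfl
  obtain ⟨ψ, hψdef⟩ : ∃ ψ : C → ℂ, ψ = fun b => ((ξ b : ℂˣ) : ℂ) * φ b := ⟨_, rfl⟩
  have hψ : ψ ∈ Irr C := by
    rw [hψdef]
    exact LinB_irr ξ φ hφ
  have hψ1 : ψ 1 = d := by
    rw [hψdef]
    show ((ξ 1 : ℂˣ) : ℂ) * φ 1 = d
    rw [map_one, Units.val_one, one_mul, hd]
  have hψA : ∀ a : A, ψ (Subgroup.inclusion hAC a) = ((f a : ℂˣ) : ℂ) * d := by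
    intro a
    rw [hψdef]
    show ((ξ (Subgroup.inclusion hAC a) : ℂˣ) : ℂ) * φ (Subgroup.inclusion hAC a) = _
    rw [hξf, hφA _ a.2, hd]
  have hd0 : (d : ℂ) ≠ 0 := by
    have := Fintype.ofFinite C
    obtain ⟨n, hn0, hn1⟩ := irr_deg hφ
    rw [← hd, hn1]
    exact_mod_cast hn0.ne'
  obtain ⟨χ, hχ, m, hm⟩ := clif C hC ψ hψ
  have hle : fxG C hC ψ ≤ fxG A hA.nor (fun x : A => ((f x : ℂˣ) : ℂ)) := by
    intro g hg x y hxy
    have h1 := hg (Subgroup.inclusion hAC x) (Subgroup.inclusion hAC y) hxy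
    rw [hψA, hψA] at h1
    exact mul_right_cancel₀ hd0 h1
  refine ⟨χ, hχ, m * (fxG C hC ψ).index * d, ?_, ?_, ?_⟩
  · rw [hm, hψ1, Nat.cast_mul, Nat.cast_mul]
  · exact hcd.mul_left _
  · intro r hr
    have h1 := lw_idx hA.nor (hB r hr).prime f (hf r hr)
    exact ((h1.trans (Subgroup.index_dvd_of_le hle)).mul_left m).mul_right d

/-- The low characters with the additional prime `c`. -/
theorem lw (hs : Group.IsSolvable J) {A : Subgroup J} (hA : Ab A) (B : Set ℕ)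
    (hB : ∀ r ∈ B, AR A r) (hne : ∀ r ∈ B, cm A r ≠ ⊥) (c : ℕ) (hc : c.Prime)
    (hcA : ¬ c ∣ Nat.card A)
    (hcc : c = 2 ∨ ∀ P Q : Sylow c J, ∀ x ∈ (P : Subgroup J), ∃ y ∈ (Q : Subgroup J),
      ∀ a ∈ A, x * a * x⁻¹ = y * a * y⁻¹)
    (hn : ∀ P : Sylow c J, ¬ (P : Subgroup J).Normal) :
    ∃ ψ ∈ Irr J, ∃ d : ℕ, ψ 1 = d ∧ c ∣ d ∧ ∀ r ∈ B, r ∣ d := by
  by_cases hcen : ∀ P : Sylow c J, ∀ x ∈ (P : Subgroup J), ∀ a ∈ A, x * a = a * x
  · exact lw_c2 hs hA B hB hne c hc hcA hn hcen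
  push Not at hcen
  obtain ⟨P, x, hx, a, ha, hxa⟩ := hcen
  have hxa' : x * a * x⁻¹ ≠ a := fun h => hxa (by
    rw [mul_inv_eq_iff_eq_mul] at h
    exact h)
  obtain ⟨x0, hx0⟩ : ∃ x0 : A →* ℂˣ, ∀ Q : Sylow c J, ∃ s ∈ (Q : Subgroup J),
      lwA A hA.nor s x0 ≠ x0 := by
    rcases hcc with h2 | h2
    · subst h2
      exact lw_two hA hcA P x hx a ha hxa'
    · obtain ⟨x0, hx0⟩ := lw_mv hA x a ha hxa'
      refine ⟨x0, fun Q => ?_⟩
      obtain ⟨y, hy, h3⟩ := h2 P Q x hx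
      exact ⟨y, hy, fun h4 => hx0 (by rw [lwA_same A hA.nor y x h3, h4])⟩
  obtain ⟨ψ, hψ, d, hd, h1, h2⟩ := lw_c1 hA B hB hne x0
  exact ⟨ψ, hψ, d, hd, h2 c hc hx0, h1⟩

end

end Pool.Agent.R12
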