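import Pool.Agent.R12.Cn3

/-! A vector which no Sylow `r`-subgroup fixes, for `r = 3` and all `r ≥ 5`, if the Sylow
3-subgroups are trivial on `E / U`. -/

set_option autoImplicit false

namespace Pool.Agent.R12c

open Pool.Agent.Nan Pool.Agent.Nas Pool.Agent.Nfv

section
variable {p : ℕ} [Fact p.Prime] {L W : Type} [Group L] [Finite L] [AddCommGroup W]
  [Module (ZMod p) W] [Finite W] [Nontrivial W] {ρ : Representation (ZMod p) L W}
  {U : Subgroup L}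

private theorem cardE (h : QP ρ U) {E : Subgroup L} {n : ℕ} {M : Fin n → Subgroup L}
    (hE : SE U E n M) (l : ℕ) (hl : l.Prime) (hlU : ¬ l ∣ Nat.card U) : ¬ l ∣ Nat.card E := by
  obtain ⟨e, -, he, hs⟩ := sq_ex (U := U) (E := E) ⟨qp_cyc h, hE.UE, hE.cU, hE.com, hE.cen⟩
  have h1 : Nat.card U * U.relIndex E = Nat.card E := by
    have := Subgroup.relIndex_mul_relIndex (⊥ : Subgroup L) U E bot_le hE.UE
    rwa [Subgroup.relIndex_bot_left, Subgroup.relIndex_bot_left] at this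
  rw [← h1, he]
  intro h2
  rcases (Nat.Prime.dvd_mul hl).1 h2 with h3 | h3
  · exact hlU h3
  · exact hlU (hs l hl (hl.dvd_of_dvd_pow h3))

/-- The commutators of the elements of the Sylow 3-subgroups are in `U`. -/
theorem comU (h : QP ρ U) {E : Subgroup L} {n : ℕ} {M : Fin n → Subgroup L} (hE : SE U E n M)
    (h3 : ¬ 3 ∣ Nat.card U)
    (hT : ∀ T : Sylow 3 L, ∀ x ∈ (T : Subgroup L), ∀ y ∈ E, x * y * x⁻¹ * y⁻¹ ∈ U)
    (T : Sylow 3 L) (x : L) (hx : x ∈ (T : Subgroup L)) (l : L) : l * x * l⁻¹ * x⁻¹ ∈ U := by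
  classical
  haveI : Fact (Nat.Prime 3) := ⟨Nat.prime_three⟩
  have hUn : U.Normal := h.ab.nor
  set f : L →* L ⧸ U := QuotientGroup.mk' U with hf
  have f1 : ∀ a, f a = 1 ↔ a ∈ U := fun a => by
    rw [← MonoidHom.mem_ker, hf, QuotientGroup.ker_mk']
  have e0 : ∀ z y : L, f (z * y * z⁻¹ * y⁻¹) = f z * f y * (f z)⁻¹ * (f y)⁻¹ := fun z y => by
    rw [map_mul, map_mul, map_mul, map_inv, map_inv]
  -- the elements of the Sylow subgroups commute with `E` modulo `U`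
  have hcom : ∀ T : Sylow 3 L, ∀ x ∈ (T : Subgroup L), ∀ y ∈ E, f x * f y = f y * f x := by
    intro T x hx y hy
    have h1 := (f1 _).2 (hT T x hx y hy)
    rw [e0, mul_inv_eq_one] at h1
    exact mul_inv_eq_iff_eq_mul.1 h1
  -- `y = l x l⁻¹ x⁻¹` is in `E`
  have hlx : l * x * l⁻¹ ∈ ((l • T : Sylow 3 L) : Subgroup L) := by
    rw [Sylow.coe_subgroup_smul, Subgroup.mem_pointwise_smul_iff_inv_smul_mem]
    show (MulAut.conj l)⁻¹ • (l * x * l⁻¹) ∈ (T : Subgroup L)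
    rw [← map_inv, MulAut.smul_def, MulAut.conj_apply]
    have h1 : l⁻¹ * (l * x * l⁻¹) * l⁻¹⁻¹ = x := by group
    rw [h1]
    exact hx
  have hy : l * x * l⁻¹ * x⁻¹ ∈ E := by
    refine hE.big _ ?_ ?_
    · intro u hu
      have h1 := qp_abq h l x
      rw [Subgroup.mem_centralizer_iff] at h1
      exact (h1 u hu).symm
    · intro y hy
      rw [← f1]
      have e1 := hcom (l • T) _ hlx y hy
      have e2 := hcom T x hx y hy
      have e3 : f (l * x * l⁻¹ * x⁻¹) * f y = f y * f (l * x * l⁻¹ * x⁻¹) := by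
        rw [map_mul f (l * x * l⁻¹) x⁻¹, map_inv]
        have e4 : (f x)⁻¹ * f y = f y * (f x)⁻¹ := by
          rw [inv_mul_eq_iff_eq_mul, ← mul_assoc, e2, mul_inv_cancel_right]
        rw [mul_assoc, e4, ← mul_assoc, e1, mul_assoc]
      rw [e0, e3, mul_inv_cancel_right, mul_inv_cancel]
  -- a power of 3 kills it
  obtain ⟨k, hk⟩ : ∃ k : ℕ, x ^ 3 ^ k = 1 := by
    obtain ⟨k, hk⟩ := T.isPGroup' ⟨x, hx⟩
    exact ⟨k, congrArg Subtype.val hk⟩
  set y : L := l * x * l⁻¹ * x⁻¹ with hyd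
  have hyx : y * x = l * x * l⁻¹ := by rw [hyd]; group
  have h1 : f y ^ 3 ^ k = 1 := by
    have e2 : Commute (f y) (f x) := (hcom T x hx y hy).symm
    have e3 : (f y * f x) ^ 3 ^ k = 1 := by
      rw [← map_mul, hyx, ← map_pow, conj_pow, hk]
      simp
    rw [e2.mul_pow, ← map_pow f x, hk, map_one, mul_one] at e3
    exact e3
  have h2 : orderOf (f y) ∣ 3 ^ k := orderOf_dvd_of_pow_eq_one h1
  have h4 : f y ^ Nat.card E = 1 := by
    rw [← map_pow, f1]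
    have e5 : y ^ Nat.card E = 1 := by
      have := pow_card_eq_one' (G := E) (x := ⟨y, hy⟩)
      exact congrArg Subtype.val this
    rw [e5]
    exact U.one_mem
  have h5 : orderOf (f y) ∣ Nat.card E := orderOf_dvd_of_pow_eq_one h4
  have h6 : Nat.Coprime (3 ^ k) (Nat.card E) :=
    Nat.Coprime.pow_left k ((Nat.Prime.coprime_iff_not_dvd Nat.prime_three).2
      (cardE h hE 3 Nat.prime_three h3))
  have h7 : orderOf (f y) = 1 := Nat.eq_one_of_dvd_coprimes h6 h2 h5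
  rw [orderOf_eq_one_iff, f1] at h7
  exact h7

theorem n3_U (h : QP ρ U) {E : Subgroup L} {n : ℕ} {M : Fin n → Subgroup L} (hE : SE U E n M)
    (h3 : ¬ 3 ∣ Nat.card U)
    (hT : ∀ T : Sylow 3 L, ∀ x ∈ (T : Subgroup L), ∀ y ∈ E, x * y * x⁻¹ * y⁻¹ ∈ U) :
    Nat.card (Sylow 3 L) ≤ Nat.card U := by
  classical
  haveI : Fact (Nat.Prime 3) := ⟨Nat.prime_three⟩
  haveI : U.Normal := h.ab.nor
  obtain ⟨T⟩ := (inferInstance : Nonempty (Sylow 3 L))
  have hN : (U ⊔ (T : Subgroup L)).Normal := by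
    refine ⟨fun n hn g => ?_⟩
    have hn' : n ∈ ((U ⊔ (T : Subgroup L) : Subgroup L) : Set L) := hn
    rw [Subgroup.normal_mul] at hn'
    obtain ⟨u, hu, x, hx, rfl⟩ := Set.mem_mul.1 hn'
    have h1 : g * u * g⁻¹ ∈ U ⊔ (T : Subgroup L) :=
      (le_sup_left : U ≤ _) ((inferInstance : U.Normal).conj_mem u hu g)
    have h2 : g * x * g⁻¹ * x⁻¹ ∈ U ⊔ (T : Subgroup L) :=
      (le_sup_left : U ≤ _) (comU h hE h3 hT T x hx g)
    have h4 := mul_mem h1 (mul_mem h2 ((le_sup_right : (T : Subgroup L) ≤ U ⊔ _) hx))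
    have h5 : g * u * g⁻¹ * (g * x * g⁻¹ * x⁻¹ * x) = g * (u * x) * g⁻¹ := by group
    rwa [h5] at h4
  have h1 := Sylow.normalizer_sup_eq_top' (N := U ⊔ (T : Subgroup L)) T le_sup_right
  have h2 : U ⊔ Subgroup.normalizer (T : Set L) = ⊤ := by
    rw [eq_top_iff, ← h1]
    refine sup_le le_sup_right (sup_le le_sup_left ?_)
    exact le_trans Subgroup.le_normalizer le_sup_right
  refine Nat.card_le_card_of_surjective (fun c : U => (c : L) • T) ?_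
  intro T'
  obtain ⟨g, rfl⟩ := MulAction.exists_smul_eq L T T'
  have hg : g ∈ ((U ⊔ Subgroup.normalizer (T : Set L) : Subgroup L) : Set L) := by
    rw [h2]
    exact Subgroup.mem_top g
  rw [Subgroup.normal_mul] at hg
  obtain ⟨c, hc, n, hn, rfl⟩ := Set.mem_mul.1 hg
  refine ⟨⟨c, hc⟩, ?_⟩
  show c • T = (c * n) • T
  rw [mul_smul, Sylow.smul_eq_iff_mem_normalizer.2 hn]

theorem cent3 (h : QP ρ U) {E : Subgroup L} {n : ℕ} {M : Fin n → Subgroup L} (hE : SE U E n M)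
    (h3 : ¬ 3 ∣ Nat.card U)
    (hT : ∀ T : Sylow 3 L, ∀ x ∈ (T : Subgroup L), ∀ y ∈ E, x * y * x⁻¹ * y⁻¹ ∈ U)
    (x : L) (hx : x ^ 3 = 1) (hxU : ∀ u ∈ U, x * u = u * x) : x = 1 := by
  classical
  haveI : Fact (Nat.Prime 3) := ⟨Nat.prime_three⟩
  by_contra hx1
  have h1 : IsPGroup 3 (Subgroup.zpowers x) := by
    refine IsPGroup.of_card_dvd_pow (n := 1) ?_
    rw [Nat.card_zpowers, pow_one]
    exact orderOf_dvd_of_pow_eq_one hx
  obtain ⟨T, hTx⟩ := h1.exists_le_sylow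
  have hxE : x ∈ E := hE.big x hxU (hT T x (hTx (Subgroup.mem_zpowers x)))
  have h2 : orderOf (⟨x, hxE⟩ : E) = 3 := by
    refine orderOf_eq_prime (Subtype.ext hx) fun h4 => hx1 (congrArg Subtype.val h4)
  exact cardE h hE 3 Nat.prime_three h3 (h2 ▸ orderOf_dvd_natCard _)

theorem bk_pow2 (h : QP ρ U) (hs : Group.IsSolvable L) {E : Subgroup L} {n : ℕ}
    {M : Fin n → Subgroup L} (hE : SE U E n M) (hn : 0 < n) (e : ℕ)
    (he : U.relIndex E = e ^ 2) :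
    (e = 2 → Nat.card (Bk ρ U) = 0) ∧
    (e = 4 → Nat.card (Bk ρ U) ≤ 16 * Nat.sqrt (Nat.card W)) ∧
    (e = 8 → Nat.card (Bk ρ U) ≤ 768 * Nat.sqrt (Nat.card W)) ∧
    16 * Nat.card (Bk ρ U) ≤ e ^ 8 * Nat.sqrt (Nat.card W) := by
  obtain ⟨k1, k2⟩ := bk_gen h hs hE hn e he
  have h4 : 4 * Nat.card (Bk ρ U) ≤ Ct U E * e ^ 2 * (Nat.sqrt (Nat.card W) - 1) := by
    refine bk_cnt h hs hE e 4 (Nat.sqrt (Nat.card W)) he ?_ ?_
    · rintro x l ⟨hx1, l', hl', hl5, hlU, hxl'⟩ _ hl hxl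
      have h1 : orderOf x = l := (Nat.Prime.dvd_iff_eq hl (by
        rw [Ne, orderOf_eq_one_iff]; exact hx1)).1 (orderOf_dvd_of_pow_eq_one hxl) |>.symm
      have h2 : orderOf x = l' := (Nat.Prime.dvd_iff_eq hl' (by
        rw [Ne, orderOf_eq_one_iff]; exact hx1)).1 (orderOf_dvd_of_pow_eq_one hxl') |>.symm
      omega
    · intro x hx hxU
      rw [Nat.le_sqrt']
      exact (fix_m h hE x hx hxU).1
  refine ⟨?_, ?_, ?_, k1⟩
  · rintro rfl
    by_contra hk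
    obtain ⟨s, k, hsp, hk0, hse, h5, -, -⟩ := k2 hk
    have := Nat.le_of_dvd (by norm_num) hse
    omega
  · rintro rfl
    have hC := ct4 hs (qp_cyc h) h.ab.nor h.mx hE he
    have h5 : Ct U E * 4 ^ 2 * (Nat.sqrt (Nat.card W) - 1) ≤ 4 * 4 ^ 2 * Nat.sqrt (Nat.card W) :=
      Nat.mul_le_mul (Nat.mul_le_mul_right _ hC) (Nat.sub_le _ _)
    omega
  · rintro rfl
    obtain ⟨c8, -⟩ := ct_num hs (qp_cyc h) h.ab.nor h.mx hE 8 he
    have hC : Ct U E ≤ 48 := by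
      rcases c8 rfl with ⟨hC, -⟩ | ⟨hC, -⟩ <;> omega
    have h5 : Ct U E * 8 ^ 2 * (Nat.sqrt (Nat.card W) - 1) ≤ 48 * 8 ^ 2 * Nat.sqrt (Nat.card W) :=
      Nat.mul_le_mul (Nat.mul_le_mul_right _ hC) (Nat.sub_le _ _)
    omega

end

/-- `2 bg ≤ V` (from the proof of `bg_num`). -/
theorem bgV (p a e V bg c N l : ℕ) (hp : p.Prime) (he3 : 3 ≤ e)
    (hd : ∀ s : ℕ, s.Prime → s ∣ e → s ∣ p ^ a - 1) (hV : (p ^ a) ^ e ≤ V)
    (hl : l.Prime) (hl5 : 5 ≤ l) (hla : l ∣ a) (ha : 0 < a) (hc : c ^ 5 ≤ V)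
    (h2 : 5 * bg ≤ a * N * (c - 1)) (h4 : 4 * N ≤ (p ^ a - 1) * e ^ 8) : 2 * bg ≤ V := by
  have ha5 : 5 ≤ a := hl5.trans (Nat.le_of_dvd ha hla)
  have hQ2 : 2 ^ a ≤ p ^ a := Nat.pow_le_pow_left hp.two_le a
  obtain ⟨i1, i2⟩ := cg3_ineq hp he3 hd hl hl5 hla ha
  have n1 : 20 * bg ≤ a * p ^ a * e ^ 8 * c := by
    calc 20 * bg = 4 * (5 * bg) := by ring
      _ ≤ 4 * (a * N * (c - 1)) := Nat.mul_le_mul_left _ h2
      _ = a * (4 * N) * (c - 1) := by ring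
      _ ≤ a * ((p ^ a - 1) * e ^ 8) * c :=
          Nat.mul_le_mul (Nat.mul_le_mul_left _ h4) (Nat.sub_le _ _)
      _ ≤ a * (p ^ a * e ^ 8) * c :=
          Nat.mul_le_mul_right _ (Nat.mul_le_mul_left _
            (Nat.mul_le_mul_right _ (Nat.sub_le _ _)))
      _ = a * p ^ a * e ^ 8 * c := by ring
  have n2 : a ^ 5 ≤ 4 * (p ^ a) ^ 2 :=
    (cg3_a5 a ha5).trans (Nat.mul_le_mul_left _ (Nat.pow_le_pow_left hQ2 2))
  have n3 : (p ^ a) ^ (4 * e - 7) * (p ^ a) ^ 7 = ((p ^ a) ^ e) ^ 4 := by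
    rw [← pow_add, ← pow_mul (p ^ a) e 4]
    congr 1
    omega
  have n4 : (a * p ^ a * e ^ 8 * c) ^ 5 ≤ (10 * V) ^ 5 := by
    calc (a * p ^ a * e ^ 8 * c) ^ 5 = a ^ 5 * ((p ^ a) ^ 5 * e ^ 40) * c ^ 5 := by ring
      _ ≤ (4 * (p ^ a) ^ 2) * ((p ^ a) ^ 5 * e ^ 40) * V :=
          Nat.mul_le_mul (Nat.mul_le_mul_right _ n2) hc
      _ = (4 * e ^ 40) * (p ^ a) ^ 7 * V := by ring
      _ ≤ (10 ^ 5 * (p ^ a) ^ (4 * e - 7)) * (p ^ a) ^ 7 * V :=
          Nat.mul_le_mul_right _ (Nat.mul_le_mul_right _ i2)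
      _ = 10 ^ 5 * ((p ^ a) ^ e) ^ 4 * V := by rw [mul_assoc (10 ^ 5), n3]
      _ ≤ 10 ^ 5 * V ^ 4 * V :=
          Nat.mul_le_mul_right _ (Nat.mul_le_mul_left _ (Nat.pow_le_pow_left hV 4))
      _ = (10 * V) ^ 5 := by ring
  have n5 : a * p ^ a * e ^ 8 * c ≤ 10 * V := (Nat.pow_le_pow_iff_left (by norm_num)).1 n4
  omega

theorem n5a (Q e V b3 c : ℕ) (hQ : 27 ≤ Q) (he2 : 2 ≤ e) (hV : Q ^ e ≤ V) (hc : c ^ 3 ≤ V)
    (h : b3 ≤ (Q - 1) * (c - 1)) : 3 * b3 ≤ V ∧ (4 ≤ e → 27 * b3 ≤ V) := by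
  have h0 : b3 ≤ Q * c := h.trans (Nat.mul_le_mul (Nat.sub_le _ _) (Nat.sub_le _ _))
  have hQ0 : 0 < Q := by omega
  have hV2 : Q ^ 2 ≤ V := (Nat.pow_le_pow_right hQ0 he2).trans hV
  constructor
  · have h1 : (3 * (Q * c)) ^ 3 ≤ V ^ 3 := by
      calc (3 * (Q * c)) ^ 3 = 27 * Q ^ 3 * c ^ 3 := by ring
        _ ≤ Q * Q ^ 3 * V := Nat.mul_le_mul (Nat.mul_le_mul_right _ hQ) hc
        _ = Q ^ 2 * Q ^ 2 * V := by ring
        _ ≤ V * V * V := Nat.mul_le_mul_right _ (Nat.mul_le_mul hV2 hV2)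
        _ = V ^ 3 := by ring
    have h2 : 3 * (Q * c) ≤ V := (Nat.pow_le_pow_iff_left (by norm_num)).1 h1
    omega
  · intro he4
    have hV4 : Q ^ 4 ≤ V := (Nat.pow_le_pow_right hQ0 he4).trans hV
    have h1 : (27 * (Q * c)) ^ 3 ≤ V ^ 3 := by
      calc (27 * (Q * c)) ^ 3 = (27 * 27 * 27) * Q ^ 3 * c ^ 3 := by ring
        _ ≤ (Q * Q * Q) * Q ^ 3 * V :=
          Nat.mul_le_mul (Nat.mul_le_mul_right _ (Nat.mul_le_mul (Nat.mul_le_mul hQ hQ) hQ)) hc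
        _ = Q ^ 2 * Q ^ 4 * V := by ring
        _ ≤ V * V * V := Nat.mul_le_mul_right _ (Nat.mul_le_mul hV2 hV4)
        _ = V ^ 3 := by ring
    have h2 : 27 * (Q * c) ≤ V := (Nat.pow_le_pow_iff_left (by norm_num)).1 h1
    omega

theorem n5e (e : ℕ) (he : 16 ≤ e) : e ^ 16 ≤ 27 ^ e := by
  induction e, he using Nat.le_induction with
  | base => norm_num
  | succ e he ih =>
    have h1 : (16 * (e + 1)) ^ 16 ≤ (17 * e) ^ 16 := Nat.pow_le_pow_left (by omega) 16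
    rw [mul_pow, mul_pow] at h1
    have h2 : (e + 1) ^ 16 ≤ 27 * e ^ 16 := by
      generalize (e + 1) ^ 16 = y at h1 ⊢
      generalize e ^ 16 = z at h1 ⊢
      norm_num at h1
      omega
    have h3 : 27 ^ (e + 1) = 27 * 27 ^ e := pow_succ' 27 e
    rw [h3]
    omega

theorem n5b (Q e V bk k : ℕ) (hQ : 27 ≤ Q) (hV : Q ^ e ≤ V) (he : e = 2 ^ k) (hk : 2 ≤ k)
    (h4 : e = 4 → bk ≤ 16 * Nat.sqrt V) (h8 : e = 8 → bk ≤ 768 * Nat.sqrt V)
    (h : 16 * bk ≤ e ^ 8 * Nat.sqrt V) : 16 * bk ≤ V := by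
  have hr : Nat.sqrt V * Nat.sqrt V ≤ V := Nat.sqrt_le V
  have hbig : 4 ≤ k → 16 * bk ≤ V := by
    intro hk4
    have he16 : 16 ≤ e := by
      rw [he]
      calc 16 = 2 ^ 4 := by norm_num
        _ ≤ 2 ^ k := Nat.pow_le_pow_right (by norm_num) hk4
    have h1 : (16 * bk) ^ 2 ≤ V ^ 2 := by
      calc (16 * bk) ^ 2 ≤ (e ^ 8 * Nat.sqrt V) ^ 2 := Nat.pow_le_pow_left h 2
        _ = e ^ 16 * (Nat.sqrt V * Nat.sqrt V) := by ring
        _ ≤ 27 ^ e * V := Nat.mul_le_mul (n5e e he16) hr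
        _ ≤ V * V := Nat.mul_le_mul_right _ ((Nat.pow_le_pow_left hQ e).trans hV)
        _ = V ^ 2 := by ring
    exact (Nat.pow_le_pow_iff_left (by norm_num)).1 h1
  have hle : ∀ y : ℕ, y ^ 2 ≤ V → y ≤ Nat.sqrt V := fun y hy => by rw [Nat.le_sqrt']; exact hy
  rcases Nat.lt_or_ge k 4 with hk4 | hk4
  · have hk2 : k = 2 ∨ k = 3 := by omega
    rcases hk2 with rfl | rfl
    · have he4 : e = 4 := by rw [he]; norm_num
      have h1 := h4 he4
      have h2 : 256 ≤ Nat.sqrt V := by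
        refine hle 256 ?_
        refine le_trans ?_ ((Nat.pow_le_pow_left hQ e).trans hV)
        rw [he4]
        norm_num
      have h3 : 256 * Nat.sqrt V ≤ Nat.sqrt V * Nat.sqrt V := Nat.mul_le_mul_right _ h2
      omega
    · have he8 : e = 8 := by rw [he]; norm_num
      have h1 := h8 he8
      have h2 : 12288 ≤ Nat.sqrt V := by
        refine hle 12288 ?_
        refine le_trans ?_ ((Nat.pow_le_pow_left hQ e).trans hV)
        rw [he8]
        norm_num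
      have h3 : 12288 * Nat.sqrt V ≤ Nat.sqrt V * Nat.sqrt V := Nat.mul_le_mul_right _ h2
      omega
  · exact hbig hk4

theorem n5c (a Q V bg c N : ℕ) (ha : 15 ≤ a) (hQ : 3 ^ a ≤ Q) (hV : Q ^ 2 ≤ V)
    (hc : c ^ 5 ≤ V) (h2 : 5 * bg ≤ a * N * (c - 1)) (h3 : N ≤ 24 * (Q - 1)) : 2 * bg ≤ V := by
  have k0 : 48 ^ 5 * 4 * (2 ^ a) ^ 2 ≤ 5 ^ 5 * (3 ^ a) ^ 3 := by
    have e1 : (2 ^ a) ^ 2 = 4 ^ a := by rw [← pow_mul, mul_comm, pow_mul]; norm_num
    have e2 : (3 ^ a) ^ 3 = 27 ^ a := by rw [← pow_mul, mul_comm, pow_mul]; norm_num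
    have e3 : 4 ^ a * 6 ^ a ≤ 27 ^ a := by
      rw [← mul_pow]
      exact Nat.pow_le_pow_left (by norm_num) a
    have e4 : 6 ^ 15 ≤ 6 ^ a := Nat.pow_le_pow_right (by norm_num) ha
    rw [e1, e2]
    calc 48 ^ 5 * 4 * 4 ^ a ≤ 5 ^ 5 * 6 ^ 15 * 4 ^ a :=
          Nat.mul_le_mul_right _ (by norm_num)
      _ ≤ 5 ^ 5 * 6 ^ a * 4 ^ a := Nat.mul_le_mul_right _ (Nat.mul_le_mul_left _ e4)
      _ = 5 ^ 5 * (4 ^ a * 6 ^ a) := by ring
      _ ≤ 5 ^ 5 * 27 ^ a := Nat.mul_le_mul_left _ e3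
  have k1 : (48 * a) ^ 5 ≤ 5 ^ 5 * Q ^ 3 := by
    calc (48 * a) ^ 5 = 48 ^ 5 * a ^ 5 := by ring
      _ ≤ 48 ^ 5 * (4 * (2 ^ a) ^ 2) := Nat.mul_le_mul_left _ (cg3_a5 a (by omega))
      _ = 48 ^ 5 * 4 * (2 ^ a) ^ 2 := by ring
      _ ≤ 5 ^ 5 * (3 ^ a) ^ 3 := k0
      _ ≤ 5 ^ 5 * Q ^ 3 := Nat.mul_le_mul_left _ (Nat.pow_le_pow_left hQ 3)
  have k2 : (48 * a * Q * c) ^ 5 ≤ (5 * V) ^ 5 := by
    calc (48 * a * Q * c) ^ 5 = (48 * a) ^ 5 * Q ^ 5 * c ^ 5 := by ring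
      _ ≤ (5 ^ 5 * Q ^ 3) * Q ^ 5 * V := Nat.mul_le_mul (Nat.mul_le_mul_right _ k1) hc
      _ = 5 ^ 5 * (Q ^ 2) ^ 4 * V := by ring
      _ ≤ 5 ^ 5 * V ^ 4 * V :=
        Nat.mul_le_mul_right _ (Nat.mul_le_mul_left _ (Nat.pow_le_pow_left hV 4))
      _ = (5 * V) ^ 5 := by ring
  have k3 : 48 * a * Q * c ≤ 5 * V := (Nat.pow_le_pow_iff_left (by norm_num)).1 k2
  have k4 : 10 * bg ≤ 48 * a * Q * c := by
    calc 10 * bg = 2 * (5 * bg) := by ring
      _ ≤ 2 * (a * N * (c - 1)) := Nat.mul_le_mul_left _ h2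
      _ ≤ 2 * (a * (24 * Q) * c) :=
        Nat.mul_le_mul_left _ (Nat.mul_le_mul (Nat.mul_le_mul_left _
          (h3.trans (Nat.mul_le_mul_left _ (Nat.sub_le _ _)))) (Nat.sub_le _ _))
      _ = 48 * a * Q * c := by ring
  omega

section
variable {p : ℕ} [Fact p.Prime] {L W : Type} [Group L] [Finite L] [AddCommGroup W]
  [Module (ZMod p) W] [Finite W] [Nontrivial W] {ρ : Representation (ZMod p) L W}
  {U : Subgroup L}

/-- The same as `cn3` if all the Sylow 3-subgroups are trivial on `E / U`. -/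
theorem cn5 (h : QP ρ U) (hs : Group.IsSolvable L) {E : Subgroup L} {n : ℕ}
    {M : Fin n → Subgroup L} (hE : SE U E n M) (h3 : ¬ 3 ∣ Nat.card U) (hn : 0 < n)
    (hT : ∀ T : Sylow 3 L, ∀ x ∈ (T : Subgroup L), ∀ y ∈ E, x * y * x⁻¹ * y⁻¹ ∈ U) :
    ∃ w : W, w ≠ 0 ∧ ∀ r : ℕ, r.Prime → r ≠ 2 → ¬ r ∣ Nat.card U → ∀ R : Sylow r L,
      (∀ x ∈ (R : Subgroup L), ρ x w = w) → ∀ x ∈ (R : Subgroup L), x = 1 := by
  classical
  have hcyc := qp_cyc h
  have hprg : Prg U E := ⟨hcyc, hE.UE, hE.cU, hE.com, hE.cen⟩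
  obtain ⟨e, he0, he, hep⟩ := sq_ex hprg
  -- a prime `≥ 5` divides `e`: `cn3`
  by_cases hs5 : ∃ s : ℕ, s.Prime ∧ 5 ≤ s ∧ s ∣ e
  · obtain ⟨s, hsp, hs5, hse⟩ := hs5
    exact cn3 h hs hE h3 s hsp hs5 (by rw [he]; exact hse.trans (dvd_pow_self e (by norm_num)))
  have he2 : 2 ≤ e := by
    by_contra hlt
    have h1 : e = 1 := by omega
    rw [h1, one_pow, Subgroup.relIndex_eq_one] at he
    have h2 := hE.mU ⟨0, hn⟩
    exact absurd (le_trans (hE.mE ⟨0, hn⟩) he) (not_le_of_gt h2)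
  have hall : ∀ s : ℕ, s.Prime → s ∣ e → s = 2 := by
    intro s hsp hse
    by_contra h2
    have h4 : s ≠ 3 := by
      rintro rfl
      exact h3 (hep 3 hsp hse)
    have h5 : s ≠ 4 := by
      rintro rfl
      revert hsp
      decide
    have := hsp.two_le
    exact hs5 ⟨s, hsp, by omega, hse⟩
  obtain ⟨k, hek⟩ : ∃ k : ℕ, e = 2 ^ k := by
    refine ⟨_, Nat.eq_prime_pow_of_unique_prime_dvd (p := 2) (by omega) ?_⟩
    intro d hd hde
    exact hall d hd hde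
  have hk0 : 0 < k := by
    rcases Nat.eq_zero_or_pos k with h0 | h0
    · rw [h0, pow_zero] at hek
      omega
    · exact h0
  have h2e : 2 ∣ e := by
    rw [hek]
    exact dvd_pow_self 2 hk0.ne'
  obtain ⟨a, ha0, hUa, _, hAA, ⟨d, hd0, hWd⟩, _⟩ := qp_gal h
  have hp : p.Prime := Fact.out
  have hV : (p ^ a) ^ e ≤ Nat.card W := by
    rw [← hAA]
    exact qp_dim h hE e he
  have hdv : ∀ s : ℕ, s.Prime → s ∣ e → s ∣ p ^ a - 1 := fun s hsp hse =>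
    (hep s hsp hse).trans hUa
  by_cases hB3 : Nat.card (B3 ρ) = 0
  · -- no vector is bad for 3
    have hna : ¬ ∀ x y : L, x * y * x⁻¹ * y⁻¹ ∈ U := by
      intro hab
      obtain ⟨y, hy, hyU⟩ := Set.not_subset.1 (hE.mU ⟨0, hn⟩).not_ge
      have hcU : ∀ u ∈ U, y * u = u * y := hE.cU y (hE.mE _ hy)
      haveI : U.Normal := h.ab.nor
      have hmem : ∀ a ∈ U ⊔ Subgroup.zpowers y, ∃ u ∈ U, ∃ i : ℤ, a = u * y ^ i := by
        intro a ha
        have ha' : a ∈ ((U ⊔ Subgroup.zpowers y : Subgroup L) : Set L) := ha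
        rw [Subgroup.normal_mul] at ha'
        obtain ⟨u, hu, z, hz, rfl⟩ := Set.mem_mul.1 ha'
        obtain ⟨i, rfl⟩ := Subgroup.mem_zpowers_iff.1 hz
        exact ⟨u, hu, i, rfl⟩
      have hN : Ab (U ⊔ Subgroup.zpowers y) := by
        refine ⟨⟨fun x hx g => ?_⟩, ?_⟩
        · have h1 := mul_mem ((le_sup_left : U ≤ U ⊔ Subgroup.zpowers y) (hab g x)) hx
          rwa [inv_mul_cancel_right] at h1
        · intro a ha b hb
          obtain ⟨u, hu, i, rfl⟩ := hmem a ha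
          obtain ⟨v, hv, j, rfl⟩ := hmem b hb
          have e1 : Commute u v := h.ab.com u hu v hv
          have e2 : Commute (y ^ i) v := (show Commute y v from hcU v hv).zpow_left i
          have e3 : Commute u (y ^ j) := ((show Commute y u from hcU u hu).zpow_left j).symm
          have e4 : Commute (y ^ i) (y ^ j) := (Commute.refl y).zpow_zpow i j
          exact (Commute.mul_left (e1.mul_right e3) (e2.mul_right e4)).eq
      exact hyU (h.mx _ hN le_sup_left (Subgroup.mem_sup_right (Subgroup.mem_zpowers y)))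
    obtain ⟨w, hw0, hw⟩ := Pool.Agent.Nfv.cn h hs hna
    refine ⟨w, hw0, ?_⟩
    intro r hr hr2 hrU R hR
    rcases Nat.lt_or_ge r 5 with hr5 | hr5
    · have hr3 : r = 3 := by
        have := hr.two_le
        have h4 : r ≠ 4 := by
          rintro rfl
          revert hr
          decide
        omega
      subst hr3
      by_contra hcon
      push Not at hcon
      obtain ⟨x, hx, hx1⟩ := hcon
      have h1 : w ∈ B3 ρ := ⟨hw0, R, ⟨x, hx, hx1⟩, hR⟩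
      have h2 : Nonempty (B3 ρ) := ⟨⟨w, h1⟩⟩
      have h4 : 0 < Nat.card (B3 ρ) := Nat.card_pos
      omega
    · exact hw r hr hr5 hrU R hR
  -- some vectors are bad for 3
  obtain ⟨hsyl, c, hc0, hc3, hb3, h3a⟩ := b3_gal h a hAA (fun x hx hxU => cent3 h hE h3 hT x hx hxU)
  have h3a' := h3a hB3
  have hp1 : 1 ≤ p ^ a := Nat.one_le_pow _ _ hp.pos
  have hp3 : 3 ≤ p := by
    have h5 := hdv 2 Nat.prime_two h2e
    have h6 : p ≠ 2 := by
      rintro rfl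
      have h7 : 2 ∣ 2 ^ a := dvd_pow_self 2 (by omega)
      omega
    have := hp.two_le
    omega
  have ha3 : 3 ≤ a := Nat.le_of_dvd ha0 h3a'
  have hQ : 27 ≤ p ^ a := by
    calc 27 = 3 ^ 3 := by norm_num
      _ ≤ 3 ^ a := Nat.pow_le_pow_right (by norm_num) ha3
      _ ≤ p ^ a := Nat.pow_le_pow_left hp3 a
  have hU1 : Nat.card U ≤ p ^ a - 1 := Nat.le_of_dvd (by omega) hUa
  have hb3' : Nat.card (B3 ρ) ≤ (p ^ a - 1) * (c - 1) :=
    hb3.trans (Nat.mul_le_mul_right _ ((n3_U h hE h3 hT).trans hU1))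
  obtain ⟨m1, m2⟩ := n5a (p ^ a) e (Nat.card W) _ c hQ he2 hV hc3 hb3'
  obtain ⟨q1, q2, q3, q4⟩ := bk_pow2 h hs hE hn e he
  have hV27 : 729 ≤ Nat.card W := by
    calc 729 = 27 ^ 2 := by norm_num
      _ ≤ (p ^ a) ^ 2 := Nat.pow_le_pow_left hQ 2
      _ ≤ (p ^ a) ^ e := Nat.pow_le_pow_right (by omega) he2
      _ ≤ Nat.card W := hV
  have hbk : (k = 1 ∧ e = 2 ∧ Nat.card (Bk ρ U) = 0) ∨
      (4 ≤ e ∧ 16 * Nat.card (Bk ρ U) ≤ Nat.card W) := by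
    rcases Nat.lt_or_ge k 2 with hk | hk
    · have hk1 : k = 1 := by omega
      have he' : e = 2 := by rw [hek, hk1, pow_one]
      exact Or.inl ⟨hk1, he', q1 he'⟩
    · refine Or.inr ⟨?_, n5b (p ^ a) e _ _ k hQ hV hek hk q2 q3 q4⟩
      rw [hek]
      calc 4 = 2 ^ 2 := by norm_num
        _ ≤ 2 ^ k := Nat.pow_le_pow_right (by norm_num) hk
  have key : Nat.card (B3 ρ) + Nat.card (Bk ρ U) + Nat.card (Bg ρ U) + 1 < Nat.card W := by
    by_cases hg : Nat.card (Bg ρ U) = 0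
    · rw [hg]
      rcases hbk with ⟨-, -, hb⟩ | ⟨he4, hb⟩
      · rw [hb]
        omega
      · have := m2 he4
        omega
    · obtain ⟨c5, hc50, hc5, hb, hl⟩ := bg_cnt h a hAA
      obtain ⟨l, hlp, hl5, hla⟩ := hl hg
      obtain ⟨c1, c2⟩ := card_C h hs hE hn e a he hAA
      have ha15 : 15 ≤ a := by
        have hcop : Nat.Coprime 3 l := (Nat.coprime_primes Nat.prime_three hlp).2 (by omega)
        have h1 := Nat.le_of_dvd ha0 (Nat.Coprime.mul_dvd_of_dvd_of_dvd hcop h3a' hla)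
        omega
      have hbg : 2 * Nat.card (Bg ρ U) ≤ Nat.card W := by
        rcases hbk with ⟨-, he', -⟩ | ⟨he4, -⟩
        · subst he'
          exact n5c a (p ^ a) (Nat.card W) _ c5 _ ha15 (Nat.pow_le_pow_left hp3 a) hV hc5 hb
            (c1 rfl)
        · exact bgV p a e (Nat.card W) _ c5 _ l hp (by omega) hdv hV hlp hl5 hla ha0 hc5 hb c2
      rcases hbk with ⟨-, -, hb⟩ | ⟨he4, hb⟩
      · rw [hb]
        omega
      · have := m2 he4
        omega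
  -- choose `w`
  obtain ⟨w, hw⟩ : ∃ w : W, w ≠ 0 ∧ w ∉ B3 ρ ∧ w ∉ Bk ρ U ∧ w ∉ Bg ρ U := by
    by_contra hcon
    push Not at hcon
    have h1 : (Set.univ : Set W) ⊆ {0} ∪ (B3 ρ ∪ (Bk ρ U ∪ Bg ρ U)) := by
      intro w _
      by_cases h0 : w = 0
      · exact Or.inl h0
      · right
        by_cases hb3 : w ∈ B3 ρ
        · exact Or.inl hb3
        · right
          by_cases hbk' : w ∈ Bk ρ U
          · exact Or.inl hbk'
          · exact Or.inr (hcon w h0 hb3 hbk')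
    have h2 : Nat.card W ≤ 1 + (Nat.card (B3 ρ) + (Nat.card (Bk ρ U) + Nat.card (Bg ρ U))) := by
      calc Nat.card W = (Set.univ : Set W).ncard := (Set.ncard_univ W).symm
        _ ≤ ({0} ∪ (B3 ρ ∪ (Bk ρ U ∪ Bg ρ U)) : Set W).ncard := Set.ncard_le_ncard h1
        _ ≤ ({0} : Set W).ncard + (B3 ρ ∪ (Bk ρ U ∪ Bg ρ U)).ncard := Set.ncard_union_le _ _
        _ ≤ 1 + ((B3 ρ).ncard + ((Bk ρ U).ncard + (Bg ρ U).ncard)) := by
          rw [Set.ncard_singleton]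
          exact Nat.add_le_add_left ((Set.ncard_union_le _ _).trans
            (Nat.add_le_add_left (Set.ncard_union_le _ _) _)) _
        _ = _ := rfl
    omega
  obtain ⟨hw0, hwB3, hwBk, hwBg⟩ := hw
  refine ⟨w, hw0, ?_⟩
  intro r hr hr2 hrU R hR
  haveI : Fact r.Prime := ⟨hr⟩
  by_contra hcon
  push Not at hcon
  obtain ⟨x, hx, hx1⟩ := hcon
  rcases Nat.lt_or_ge r 5 with hr5 | hr5
  · have hr3 : r = 3 := by
      have := hr.two_le
      have h4 : r ≠ 4 := by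
        rintro rfl
        revert hr
        decide
      omega
    subst hr3
    exact hwB3 ⟨hw0, R, ⟨x, hx, hx1⟩, hR⟩
  · have h1 : r ∣ Nat.card R := by
      rcases R.isPGroup'.card_eq_or_dvd with h2 | h2
      · exfalso
        apply hx1
        have h4 : Subsingleton R := (Nat.card_eq_one_iff_unique.1 h2).1
        exact congrArg Subtype.val (Subsingleton.elim (⟨x, hx⟩ : R) 1)
      · exact h2
    obtain ⟨y, hy⟩ := exists_prime_orderOf_dvd_card' (G := R) r h1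
    have hy1 : (y : L) ≠ 1 := by
      intro h2
      have h4 : y = 1 := Subtype.ext h2
      rw [h4, orderOf_one] at hy
      omega
    have hyr : (y : L) ^ r = 1 := by
      have h2 := pow_orderOf_eq_one y
      rw [hy] at h2
      exact congrArg Subtype.val h2
    by_cases hyU : ∀ u ∈ U, (y : L) * u = u * y
    · exact hwBk ⟨hw0, y, ⟨hy1, r, hr, hr5, hrU, hyr⟩, hyU, hR _ y.2⟩
    · push Not at hyU
      exact hwBg ⟨hw0, y, ⟨hy1, r, hr, hr5, hyr⟩, hyU, hR _ y.2⟩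

end

end Pool.Agent.R12c
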