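import Pool.Agent.Nth.G3
import Pool.Agent.R12.Cn5

/-! The prime 3 for irreducible modules: either there are generic vectors for all odd primes, or
the number of Sylow 3-subgroups is even and no Sylow 2-subgroup fixes a nonzero vector. -/

set_option autoImplicit false

namespace Pool.Agent.R12c

open Pool.Agent.Nan Pool.Agent.Nas Pool.Agent.Nfv Pool.Agent.Nth

section
variable {p : ℕ} [Fact p.Prime] {L W : Type} [Group L] [Finite L] [AddCommGroup W]
  [Module (ZMod p) W] [Finite W] [Nontrivial W] {ρ : Representation (ZMod p) L W}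
  {U : Subgroup L}

private theorem gb_cardE (h : QP ρ U) {E : Subgroup L} {n : ℕ} {M : Fin n → Subgroup L}
    (hE : SE U E n M) (l : ℕ) (hl : l.Prime) (hlU : ¬ l ∣ Nat.card U) : ¬ l ∣ Nat.card E := by
  obtain ⟨e, -, he, hs⟩ := sq_ex (U := U) (E := E) ⟨qp_cyc h, hE.UE, hE.cU, hE.com, hE.cen⟩
  have h1 : Nat.card U * U.relIndex E = Nat.card E := by
    rw [Subgroup.relIndex, ← Nat.card_congr (Subgroup.subgroupOfEquivOfLe hE.UE).toEquiv]
    exact (U.subgroupOf E).card_mul_index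
  rw [← h1, he]
  intro h2
  rcases (Nat.Prime.dvd_mul hl).1 h2 with h3 | h3
  · exact hlU h3
  · exact hlU (hs l hl (hl.dvd_of_dvd_pow h3))

/-- If a Sylow 2-subgroup normalizes a Sylow 3-subgroup `T` and `E / U` is a 2-group then the
commutators of `T` and `E` are in `U`. -/
theorem gb_com (h : QP ρ U) {E : Subgroup L} {n : ℕ} {M : Fin n → Subgroup L} (hE : SE U E n M)
    (h3 : ¬ 3 ∣ Nat.card U) (hpow : ∀ x ∈ E, ∃ m : ℕ, x ^ 2 ^ m ∈ U) (S : Sylow 2 L)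
    (T : Sylow 3 L) (hST : ∀ s ∈ (S : Subgroup L), ∀ t ∈ (T : Subgroup L),
      s * t * s⁻¹ ∈ (T : Subgroup L)) :
    ∀ t ∈ (T : Subgroup L), ∀ y ∈ E, t * y * t⁻¹ * y⁻¹ ∈ U := by
  classical
  have hUn : U.Normal := h.ab.nor
  have hEn : E.Normal := hE.nor
  have h3E := gb_cardE h hE 3 Nat.prime_three h3
  -- `E = (S ∩ E) U`
  have hsu : ∀ y ∈ E, ∃ s ∈ (S : Subgroup L), s⁻¹ * y ∈ U := by
    intro y hy
    have hsur := QuotientGroup.mk'_surjective U
    have h1 : (E.map (QuotientGroup.mk' U)).Normal := hEn.map _ hsur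
    have h2 : IsPGroup 2 (E.map (QuotientGroup.mk' U)) := by
      rintro ⟨z, hz⟩
      obtain ⟨x, hx, rfl⟩ := hz
      obtain ⟨m, hm⟩ := hpow x hx
      refine ⟨m, ?_⟩
      apply Subtype.ext
      show (QuotientGroup.mk' U x) ^ 2 ^ m = 1
      rw [← map_pow, QuotientGroup.mk'_apply, QuotientGroup.eq_one_iff]
      exact hm
    have h4 : E.map (QuotientGroup.mk' U) ≤ (S.mapSurjective hsur : Sylow 2 (L ⧸ U)) := by
      have h5 := (S.mapSurjective hsur).isPGroup'.to_sup_of_normal_right h2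
      have h6 := (S.mapSurjective hsur).is_maximal' h5 le_sup_left
      rw [← h6]
      exact le_sup_right
    have h5 := h4 (Subgroup.mem_map_of_mem (QuotientGroup.mk' U) hy)
    rw [Sylow.coe_mapSurjective] at h5
    obtain ⟨s, hs, hsy⟩ := h5
    refine ⟨s, hs, ?_⟩
    have h6 : (QuotientGroup.mk' U) s = (QuotientGroup.mk' U) y := hsy
    rw [QuotientGroup.mk'_apply, QuotientGroup.mk'_apply, QuotientGroup.eq] at h6
    exact h6
  intro t ht y hy
  obtain ⟨s, hs, hsy⟩ := hsu y hy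
  have hsE : s ∈ E := by
    have h1 := mul_mem hy (inv_mem (hE.UE hsy))
    have h2 : y * (s⁻¹ * y)⁻¹ = s := by group
    rwa [h2] at h1
  -- the commutator of `t` and `s`
  have hc : t * s * t⁻¹ * s⁻¹ = 1 := by
    have h1 : t * s * t⁻¹ * s⁻¹ ∈ (T : Subgroup L) := by
      have h2 := mul_mem ht (hST s hs t⁻¹ (inv_mem ht))
      have h4 : t * (s * t⁻¹ * s⁻¹) = t * s * t⁻¹ * s⁻¹ := by group
      rwa [h4] at h2
    have h2 : t * s * t⁻¹ * s⁻¹ ∈ E := mul_mem (hEn.conj_mem s hsE t) (inv_mem hsE)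
    have h4 : orderOf (t * s * t⁻¹ * s⁻¹) ∣ Nat.card E := by
      have := orderOf_dvd_natCard (⟨_, h2⟩ : E)
      rwa [← Subgroup.orderOf_coe] at this
    obtain ⟨k, hk⟩ := T.isPGroup' ⟨_, h1⟩
    have hk' : (t * s * t⁻¹ * s⁻¹) ^ 3 ^ k = 1 := congrArg Subtype.val hk
    have h5 := orderOf_dvd_of_pow_eq_one hk'
    obtain ⟨i, hi, hi2⟩ := (Nat.dvd_prime_pow Nat.prime_three).1 h5
    rcases Nat.eq_zero_or_pos i with h0 | h0
    · rw [h0, pow_zero] at hi2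
      exact orderOf_eq_one_iff.1 hi2
    · exfalso
      apply h3E
      refine dvd_trans ?_ h4
      rw [hi2]
      exact dvd_pow_self 3 h0.ne'
  have h6 : t * y * t⁻¹ * y⁻¹ = t * s * t⁻¹ * s⁻¹ * (s * (t * (s⁻¹ * y) * t⁻¹ * (s⁻¹ * y)⁻¹) * s⁻¹) := by
    group
  rw [h6, hc, one_mul]
  exact hUn.conj_mem _ (mul_mem (hUn.conj_mem _ hsy t) (inv_mem hsy)) s

/-- A normal subgroup which contains the Sylow 3-subgroups meets `U` in a subgroup of even
order. -/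
theorem gb_ele (h : QP ρ U) {E : Subgroup L} {n : ℕ} {M : Fin n → Subgroup L} (hE : SE U E n M)
    (hpow : ∀ x ∈ E, ∃ m : ℕ, x ^ 2 ^ m ∈ U) (K : Subgroup L) (hK : K.Normal) (t : L) (ht : t ∈ K)
    (y : L) (hy : y ∈ E) (hty : t * y * t⁻¹ * y⁻¹ ∉ U) :
    ∃ c ∈ U, c ∈ K ∧ c ≠ 1 ∧ ∃ m : ℕ, c ^ 2 ^ m = 1 := by
  classical
  have hUn : U.Normal := h.ab.nor
  have hEn : E.Normal := hE.nor
  have hd1 : t * y * t⁻¹ * y⁻¹ ∈ K ⊓ E := by
    refine Subgroup.mem_inf.mpr ⟨?_, mul_mem (hEn.conj_mem y hy t) (inv_mem hy)⟩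
    have h2 := mul_mem ht (hK.conj_mem _ (inv_mem ht) y)
    have h4 : t * (y * t⁻¹ * y⁻¹) = t * y * t⁻¹ * y⁻¹ := by group
    rwa [h4] at h2
  have hnc : ¬ ∀ a ∈ K ⊓ E, ∀ b ∈ K ⊓ E, a * b = b * a := by
    intro hcom
    apply hty
    refine h.mx ((K ⊓ E) ⊔ U) ⟨?_, ?_⟩ le_sup_right (Subgroup.mem_sup_left hd1)
    · have : (K ⊓ E).Normal := Subgroup.normal_inf_normal K E
      exact Subgroup.sup_normal _ _
    · intro a ha b hb
      rw [Subgroup.mem_sup_of_normal_right] at ha hb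
      obtain ⟨a1, ha1, a2, ha2, rfl⟩ := ha
      obtain ⟨b1, hb1, b2, hb2, rfl⟩ := hb
      have e1 : a1 * b1 = b1 * a1 := hcom a1 ha1 b1 hb1
      have e2 : a1 * b2 = b2 * a1 := hE.cU a1 ha1.2 b2 hb2
      have e3 : b1 * a2 = a2 * b1 := hE.cU b1 hb1.2 a2 ha2
      have e4 : a2 * b2 = b2 * a2 := (hE.cU b2 (hE.UE hb2) a2 ha2).symm
      calc a1 * a2 * (b1 * b2) = a1 * (a2 * b1) * b2 := by group
        _ = a1 * (b1 * a2) * b2 := by rw [e3]
        _ = (a1 * b1) * (a2 * b2) := by group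
        _ = (b1 * a1) * (b2 * a2) := by rw [e1, e4]
        _ = b1 * (a1 * b2) * a2 := by group
        _ = b1 * (b2 * a1) * a2 := by rw [e2]
        _ = b1 * b2 * (a1 * a2) := by group
  push Not at hnc
  obtain ⟨a, ha, b, hb, hab⟩ := hnc
  have hcU : a * b * a⁻¹ * b⁻¹ ∈ U := hE.com a ha.2 b hb.2
  refine ⟨a * b * a⁻¹ * b⁻¹, hcU, ?_, ?_, ?_⟩
  · exact mul_mem (mul_mem (mul_mem ha.1 hb.1) (inv_mem ha.1)) (inv_mem hb.1)
  · intro h1
    apply hab
    calc a * b = (a * b * a⁻¹ * b⁻¹) * (b * a) := by group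
      _ = b * a := by rw [h1, one_mul]
  · obtain ⟨m, hm⟩ := hpow a ha.2
    refine ⟨m, ?_⟩
    have e1 : b * a * b⁻¹ = (a * b * a⁻¹ * b⁻¹)⁻¹ * a := by group
    have e2 : Commute (a * b * a⁻¹ * b⁻¹)⁻¹ a := by
      have h1 := hE.cU a ha.2 _ (inv_mem hcU)
      exact h1.symm
    have e3 : (b * a * b⁻¹) ^ 2 ^ m = a ^ 2 ^ m := by
      rw [conj_pow, hE.cU b hb.2 _ hm]
      group
    rw [e1, e2.mul_pow] at e3
    have e4 : ((a * b * a⁻¹ * b⁻¹)⁻¹) ^ 2 ^ m = 1 := by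
      have := mul_eq_right.mp e3
      exact this
    rw [inv_pow, inv_eq_one] at e4
    exact e4

/-- The alternatives for the faithful action of the stabilizer of a block. -/
theorem gb_loc (h : QP ρ U) (hs : Group.IsSolvable L)
    (hna : ¬ ∀ x y : L, x * y * x⁻¹ * y⁻¹ ∈ U) (h3 : ¬ 3 ∣ Nat.card U) :
    (∃ w : W, w ≠ 0 ∧ ∀ r : ℕ, r.Prime → r ≠ 2 → ¬ r ∣ Nat.card U → ∀ R : Sylow r L,
      (∀ x ∈ (R : Subgroup L), ρ x w = w) → ∀ x ∈ (R : Subgroup L), x = 1) ∨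
    ((∀ (S : Sylow 2 L) (T : Sylow 3 L), ¬ ∀ s ∈ (S : Subgroup L), ∀ t ∈ (T : Subgroup L),
      s * t * s⁻¹ ∈ (T : Subgroup L)) ∧
      ∀ K : Subgroup L, K.Normal → (∀ T : Sylow 3 L, (T : Subgroup L) ≤ K) →
        ∃ c ∈ U, c ∈ K ∧ c ≠ 1 ∧ ∃ m : ℕ, c ^ 2 ^ m = 1) := by
  classical
  have hUn : U.Normal := h.ab.nor
  obtain ⟨E, n, M, hE⟩ := qp_E h hs
  have hcyc := qp_cyc h
  have hprg : Prg U E := ⟨hcyc, hE.UE, hE.cU, hE.com, hE.cen⟩
  obtain ⟨e, he0, he, hep⟩ := sq_ex hprg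
  have hex : ∃ x, (∀ u ∈ U, x * u = u * x) ∧ x ∉ U := by
    by_contra hcon
    push Not at hcon
    apply hna
    intro x y
    apply hcon
    intro u hu
    have h1 := qp_abq h x y
    rw [Subgroup.mem_centralizer_iff] at h1
    exact (h1 u hu).symm
  have hn : 0 < n := hE.pos hex
  by_cases hs5 : ∃ s : ℕ, s.Prime ∧ 5 ≤ s ∧ s ∣ U.relIndex E
  · obtain ⟨s, hsp, hs5, hse⟩ := hs5
    exact Or.inl (cn3 h hs hE h3 s hsp hs5 hse)
  by_cases hT : ∀ T : Sylow 3 L, ∀ x ∈ (T : Subgroup L), ∀ y ∈ E, x * y * x⁻¹ * y⁻¹ ∈ U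
  · exact Or.inl (cn5 h hs hE h3 hn hT)
  right
  -- `E / U` is a 2-group
  have hrel : ∃ k : ℕ, U.relIndex E = 2 ^ k := by
    refine (Nat.eq_two_pow_or_exists_odd_prime_and_dvd _).resolve_right ?_
    rintro ⟨s, hsp, hsd, hodd⟩
    have hse : s ∣ e := hsp.dvd_of_dvd_pow (he ▸ hsd)
    have hs3 : s ≠ 3 := by
      rintro rfl
      exact h3 (hep 3 Nat.prime_three hse)
    apply hs5
    refine ⟨s, hsp, ?_, hsd⟩
    have h2 := hsp.two_le
    rcases hodd with ⟨j, hj⟩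
    omega
  obtain ⟨k, hk⟩ := hrel
  have hpow : ∀ x ∈ E, ∃ m : ℕ, x ^ 2 ^ m ∈ U := by
    intro x hx
    refine ⟨k, ?_⟩
    have h1 : (⟨x, hx⟩ : E) ^ (U.subgroupOf E).index ∈ U.subgroupOf E := Subgroup.pow_index_mem _ _
    have h2 : (U.subgroupOf E).index = 2 ^ k := hk
    rw [h2, Subgroup.mem_subgroupOf] at h1
    exact h1
  push Not at hT
  obtain ⟨T0, t0, ht0, y0, hy0, hty0⟩ := hT
  refine ⟨?_, ?_⟩
  · intro S T hST
    have h1 := gb_com h hE h3 hpow S T hST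
    obtain ⟨g, hg⟩ := MulAction.exists_smul_eq L T T0
    have hEn : E.Normal := hE.nor
    apply hty0
    have h2 : g⁻¹ * t0 * g ∈ (T : Subgroup L) := by
      rw [← hg, Sylow.coe_subgroup_smul, Subgroup.mem_pointwise_smul_iff_inv_smul_mem, ← map_inv,
        MulAut.smul_def, MulAut.conj_apply, inv_inv] at ht0
      exact ht0
    have h4 := h1 _ h2 (g⁻¹ * y0 * g) (by
      have := hEn.conj_mem y0 hy0 g⁻¹
      rwa [inv_inv] at this)
    have h5 := hUn.conj_mem _ h4 g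
    have h6 : g * (g⁻¹ * t0 * g * (g⁻¹ * y0 * g) * (g⁻¹ * t0 * g)⁻¹ * (g⁻¹ * y0 * g)⁻¹) * g⁻¹ =
        t0 * y0 * t0⁻¹ * y0⁻¹ := by group
    rwa [h6] at h5
  · intro K hK hTK
    exact gb_ele h hE hpow K hK t0 (hTK T0 ht0) y0 hy0 hty0

end

section
variable {p : ℕ} [Fact p.Prime] {H X J : Type} [Group H] [Finite H] [AddCommGroup X]
  [Module (ZMod p) X] [Finite X] {ρ : Representation (ZMod p) H X}
  {W : J → Submodule (ZMod p) X} {UU : J → Subgroup H}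

/-- A conjugate of a 2-element of a normal subgroup `C`, by an element of `C`, is in a given Sylow
2-subgroup. -/
private theorem gb_inf {H : Type} [Group H] [Finite H] (S : Sylow 2 H) (C : Subgroup H)
    (hC : C.Normal) (z : H) (hz : z ∈ C) (hz2 : ∃ m : ℕ, z ^ 2 ^ m = 1) :
    ∃ c ∈ C, c * z * c⁻¹ ∈ (S : Subgroup H) := by
  classical
  have hne : (C.relIndex (S : Subgroup H)) ≠ 0 :=
    (Subgroup.index_ne_zero_of_finite : (C.subgroupOf (S : Subgroup H)).index ≠ 0)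
  have h1 : C.relIndex ((S : Subgroup H) ⊔ C) = C.relIndex (S : Subgroup H) :=
    Subgroup.relIndex_sup_right _ _
  have h2 := Subgroup.relIndex_mul_relIndex ((S : Subgroup H) ⊓ C) (S : Subgroup H)
    ((S : Subgroup H) ⊔ C) inf_le_left le_sup_left
  have h3 := Subgroup.relIndex_mul_relIndex ((S : Subgroup H) ⊓ C) C
    ((S : Subgroup H) ⊔ C) inf_le_right le_sup_right
  rw [Subgroup.inf_relIndex_left] at h2
  rw [Subgroup.inf_relIndex_right, h1, ← h2, mul_comm] at h3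
  have h4 : (S : Subgroup H).relIndex C = (S : Subgroup H).relIndex ((S : Subgroup H) ⊔ C) :=
    Nat.eq_of_mul_eq_mul_left (Nat.pos_of_ne_zero hne) h3
  have h5 : (S : Subgroup H).relIndex C ∣ (S : Subgroup H).index := by
    rw [h4, ← Subgroup.relIndex_mul_index (le_sup_left : (S : Subgroup H) ≤ (S : Subgroup H) ⊔ C)]
    exact dvd_mul_right _ _
  have h6 : ¬ 2 ∣ ((S : Subgroup H).subgroupOf C).index := fun h0 =>
    S.not_dvd_index (h0.trans h5)
  have h7 : IsPGroup 2 ((S : Subgroup H).subgroupOf C) := by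
    rintro ⟨x, hx⟩
    obtain ⟨m, hm⟩ := S.isPGroup' ⟨(x : H), Subgroup.mem_subgroupOf.mp hx⟩
    refine ⟨m, ?_⟩
    apply Subtype.ext
    apply Subtype.ext
    show (x : H) ^ 2 ^ m = 1
    exact congrArg Subtype.val hm
  have h8 : IsPGroup 2 (Subgroup.zpowers (⟨z, hz⟩ : C)) := by
    obtain ⟨m, hm⟩ := hz2
    rintro ⟨x, hx⟩
    obtain ⟨i, rfl⟩ := Subgroup.mem_zpowers_iff.mp hx
    refine ⟨m, ?_⟩
    apply Subtype.ext
    show ((⟨z, hz⟩ : C) ^ i) ^ 2 ^ m = 1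
    have h9 : (⟨z, hz⟩ : C) ^ 2 ^ m = 1 := Subtype.ext hm
    rw [← zpow_natCast, ← zpow_mul, mul_comm, zpow_mul, zpow_natCast, h9, one_zpow]
  obtain ⟨Q, hQ⟩ := h8.exists_le_sylow
  obtain ⟨c, hc⟩ := MulAction.exists_smul_eq C Q (h7.toSylow h6)
  refine ⟨c, c.2, ?_⟩
  have h10 : (⟨z, hz⟩ : C) ∈ (Q : Subgroup C) := hQ (Subgroup.mem_zpowers _)
  have h11 : c * ⟨z, hz⟩ * c⁻¹ ∈ ((h7.toSylow h6 : Sylow 2 C) : Subgroup C) := by
    rw [← hc, Sylow.coe_subgroup_smul, Subgroup.mem_pointwise_smul_iff_inv_smul_mem, ← map_inv,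
      MulAut.smul_def, MulAut.conj_apply, inv_inv]
    have h12 : c⁻¹ * (c * ⟨z, hz⟩ * c⁻¹) * c = ⟨z, hz⟩ := by group
    rw [h12]
    exact h10
  have h13 : c * ⟨z, hz⟩ * c⁻¹ ∈ (S : Subgroup H).subgroupOf C := h11
  exact Subgroup.mem_subgroupOf.mp h13

/-- The alternatives for one block. -/
theorem gb_blk (h : BS ρ W UU) (hs : Group.IsSolvable H) (j : J)
    (hab : ¬ ∀ x ∈ Nm ρ (W j), ∀ y ∈ Nm ρ (W j), x * y * x⁻¹ * y⁻¹ ∈ UU j)
    (hU : ∀ u ∈ UU j, Tv ρ (W j) (u ^ 3) → Tv ρ (W j) u)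
    (hT : ∀ T : Sylow 3 H, ∀ x ∈ (T : Subgroup H), x ∈ Nm ρ (W j)) :
    (∃ v ∈ W j, v ≠ 0 ∧ ∀ r : ℕ, r.Prime → 3 ≤ r →
      (∀ u ∈ UU j, Tv ρ (W j) (u ^ r) → Tv ρ (W j) u) →
        ∀ R : Sylow r H, (∀ x ∈ (R : Subgroup H), x ∈ Nm ρ (W j)) → ∀ g ∈ Nm ρ (W j),
          (∀ x ∈ (R : Subgroup H), ρ (g * x * g⁻¹) v = v) →
            ∀ x ∈ (R : Subgroup H), Tv ρ (W j) x) ∨
    (Even (Nat.card (Sylow 3 H)) ∧ ∀ K : Subgroup H, K.Normal → (∀ T : Sylow 3 H, (T : Subgroup H) ≤ K) →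
      K ≤ Nm ρ (W j) → ∃ z ∈ K, (∃ m : ℕ, z ^ 2 ^ m = 1) ∧ ∀ w ∈ W j, ρ z w = w → w = 0) := by
  classical
  have : Nontrivial (W j) := Submodule.nontrivial_iff_ne_bot.mpr (h.ne j)
  obtain ⟨L, iL, fL, ρL, π, U, hsur, hact, hQP, hUU⟩ := bs_qp h j
  have := hs
  have : Group.IsSolvable L := Group.isSolvable_of_surjective (f := π) hsur
  have hna : ¬ ∀ x y : L, x * y * x⁻¹ * y⁻¹ ∈ U := by
    intro hall
    apply hab
    intro x hx y hy
    have h1 := hall (π ⟨x, hx⟩) (π ⟨y, hy⟩)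
    rw [← map_mul, ← map_inv, ← map_mul, ← map_inv, ← map_mul] at h1
    exact (hUU _).mp h1
  have htriv : ∀ y : Nm ρ (W j), π y = 1 → Tv ρ (W j) (y : H) := by
    intro y hy v hv
    have h1 := hact y ⟨v, hv⟩
    rw [hy, map_one] at h1
    exact h1.symm
  have hrU : ∀ r : ℕ, r.Prime → (∀ u ∈ UU j, Tv ρ (W j) (u ^ r) → Tv ρ (W j) u) →
      ¬ r ∣ Nat.card U := by
    intro r hr hur hd
    have : Fact r.Prime := ⟨hr⟩
    obtain ⟨z, hz⟩ := exists_prime_orderOf_dvd_card' r hd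
    obtain ⟨u, hu⟩ := hsur (z : L)
    have huU : (u : H) ∈ UU j := (hUU u).mp (by rw [hu]; exact z.2)
    have hzr : (z : L) ^ r = 1 := by
      have := pow_orderOf_eq_one z
      rw [hz] at this
      exact congrArg Subtype.val this
    have hur1 : Tv ρ (W j) ((u : H) ^ r) := by
      have := htriv (u ^ r) (by rw [map_pow, hu, hzr])
      exact this
    have hut := hur (u : H) huU hur1
    have hz1 : (z : L) = 1 := by
      apply hQP.fai
      intro v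
      rw [← hu]
      apply Subtype.ext
      rw [hact]
      exact hut v v.2
    have hz2 : z = 1 := Subtype.ext hz1
    rw [hz2, orderOf_one] at hz
    exact hr.one_lt.ne hz
  rcases gb_loc hQP inferInstance hna (hrU 3 Nat.prime_three hU) with hw | ⟨hev, hele⟩
  · left
    obtain ⟨w, hw0, hw⟩ := hw
    refine ⟨(w : X), w.2, fun h0 => hw0 (Subtype.ext h0), ?_⟩
    intro r hr hr3 hur R hR g hg hfix x hx
    have : Fact r.Prime := ⟨hr⟩
    have hle : (R : Subgroup H) ≤ Nm ρ (W j) := fun y hy => hR y hy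
    have key := hw r hr (by omega) (hrU r hr hur)
      (((⟨g, hg⟩ : Nm ρ (W j)) • R.subtype hle).mapSurjective hsur)
      (by
        intro y hy
        rw [Sylow.coe_mapSurjective] at hy
        obtain ⟨y', hy', rfl⟩ := hy
        rw [SetLike.mem_coe, Sylow.coe_subgroup_smul, Subgroup.mem_pointwise_smul_iff_inv_smul_mem] at hy'
        rw [← map_inv, MulAut.smul_def, MulAut.conj_apply, inv_inv, Sylow.coe_subtype,
          Subgroup.mem_subgroupOf] at hy'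
        have h1 := hfix _ hy'
        apply Subtype.ext
        rw [hact]
        have h2 : g * ((((⟨g, hg⟩ : Nm ρ (W j))⁻¹ * y' * ⟨g, hg⟩ : Nm ρ (W j))) : H) * g⁻¹ = (y' : H) := by
          rw [Subgroup.coe_mul, Subgroup.coe_mul, Subgroup.coe_inv]
          group
        rw [h2] at h1
        exact h1)
    have hgx : π (⟨g, hg⟩ * ⟨x, hR x hx⟩ * (⟨g, hg⟩ : Nm ρ (W j))⁻¹) = 1 := by
      apply key
      rw [Sylow.coe_mapSurjective]
      refine ⟨_, ?_, rfl⟩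
      rw [SetLike.mem_coe, Sylow.coe_subgroup_smul, Subgroup.mem_pointwise_smul_iff_inv_smul_mem,
        ← map_inv, MulAut.smul_def, MulAut.conj_apply, inv_inv, Sylow.coe_subtype,
        Subgroup.mem_subgroupOf]
      have h3 : ((⟨g, hg⟩ : Nm ρ (W j))⁻¹ * (⟨g, hg⟩ * ⟨x, hR x hx⟩ * (⟨g, hg⟩ : Nm ρ (W j))⁻¹) * ⟨g, hg⟩)
          = ⟨x, hR x hx⟩ := by group
      rw [h3]
      exact hx
    have hx1 : π ⟨x, hR x hx⟩ = 1 := by
      rw [map_mul, map_mul, map_inv] at hgx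
      have h4 : π ⟨g, hg⟩ * π ⟨x, hR x hx⟩ = π ⟨g, hg⟩ := by
        have := mul_inv_eq_one.mp hgx
        exact this
      exact mul_eq_left.mp h4
    exact htriv _ hx1
  · right
    refine ⟨?_, ?_⟩
    · -- a Sylow 2-subgroup of the stabilizer normalizes a Sylow 3-subgroup if the number is odd
      by_contra hodd
      have h2 : ¬ 2 ∣ Nat.card (Sylow 3 H) := fun h0 => hodd (even_iff_two_dvd.mpr h0)
      obtain ⟨S⟩ : Nonempty (Sylow 2 (Nm ρ (W j))) := inferInstance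
      obtain ⟨T0, hT0⟩ := S.isPGroup'.nonempty_fixed_point_of_prime_not_dvd_card (Sylow 3 H) h2
      have hle : (T0 : Subgroup H) ≤ Nm ρ (W j) := fun y hy => hT T0 y hy
      apply hev (S.mapSurjective hsur) ((T0.subtype hle).mapSurjective hsur)
      intro s hs1 t ht1
      rw [Sylow.coe_mapSurjective] at hs1 ht1 ⊢
      obtain ⟨s', hs', rfl⟩ := hs1
      obtain ⟨t', ht', rfl⟩ := ht1
      refine ⟨s' * t' * s'⁻¹, ?_, by rw [map_mul, map_mul, map_inv]⟩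
      rw [SetLike.mem_coe, Sylow.coe_subtype, Subgroup.mem_subgroupOf] at ht' ⊢
      have h4 : ((s' : H) • T0 : Sylow 3 H) = T0 := hT0 ⟨s', hs'⟩
      rw [← h4, Sylow.coe_subgroup_smul, Subgroup.mem_pointwise_smul_iff_inv_smul_mem, ← map_inv,
        MulAut.smul_def, MulAut.conj_apply, inv_inv]
      have h5 : (s' : H)⁻¹ * ((s' * t' * s'⁻¹ : Nm ρ (W j)) : H) * (s' : H) = (t' : H) := by
        rw [Subgroup.coe_mul, Subgroup.coe_mul, Subgroup.coe_inv]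
        group
      rw [h5]
      exact ht'
    · intro K hK hTK hKN
      have hKL : ((K.subgroupOf (Nm ρ (W j))).map π).Normal :=
        (hK.subgroupOf (Nm ρ (W j))).map π hsur
      obtain ⟨c, hcU, hcK, hc1, m, hcm⟩ := hele _ hKL (by
        intro T
        obtain ⟨T0⟩ : Nonempty (Sylow 3 H) := inferInstance
        have hle : (T0 : Subgroup H) ≤ Nm ρ (W j) := fun y hy => hT T0 y hy
        obtain ⟨g, hg⟩ := MulAction.exists_smul_eq L ((T0.subtype hle).mapSurjective hsur) T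
        intro t ht
        rw [← hg, Sylow.coe_subgroup_smul, Subgroup.mem_pointwise_smul_iff_inv_smul_mem, ← map_inv,
          MulAut.smul_def, MulAut.conj_apply, inv_inv, Sylow.coe_mapSurjective] at ht
        obtain ⟨t', ht', htt⟩ := ht
        have h1 : g⁻¹ * t * g ∈ (K.subgroupOf (Nm ρ (W j))).map π := by
          rw [← htt]
          apply Subgroup.mem_map_of_mem
          rw [SetLike.mem_coe, Sylow.coe_subtype, Subgroup.mem_subgroupOf] at ht'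
          exact Subgroup.mem_subgroupOf.mpr (hTK T0 ht')
        have h2 := hKL.conj_mem _ h1 g
        have h3 : g * (g⁻¹ * t * g) * g⁻¹ = t := by group
        rwa [h3] at h2)
      obtain ⟨z, hzK, rfl⟩ := hcK
      have hzK' : (z : H) ∈ K := Subgroup.mem_subgroupOf.mp hzK
      obtain ⟨a, b, hb, hab2⟩ := Nat.exists_eq_two_pow_mul_odd (orderOf_pos (z : H)).ne'
      refine ⟨(z : H) ^ b, pow_mem hzK' b, ⟨a, ?_⟩, ?_⟩
      · rw [← pow_mul, mul_comm, ← hab2]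
        exact pow_orderOf_eq_one _
      · intro w hw hzw
        by_contra hw0
        have h1 : π (z ^ b) = 1 := by
          refine qp_fpf hQP U hQP.ab (π (z ^ b)) ?_ ⟨w, hw⟩ (fun h0 => hw0 (congrArg Subtype.val h0)) ?_
          · rw [map_pow]
            exact pow_mem hcU b
          · apply Subtype.ext
            rw [hact, Subgroup.coe_pow]
            exact hzw
        rw [map_pow] at h1
        apply hc1
        have h2 := orderOf_dvd_of_pow_eq_one h1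
        have h3 := orderOf_dvd_of_pow_eq_one hcm
        have h4 : Nat.Coprime b (2 ^ m) := (Nat.Coprime.pow_left m (Nat.coprime_two_left.mpr hb)).symm
        exact orderOf_eq_one_iff.mp (Nat.eq_one_of_dvd_coprimes h4 h2 h3)

/-- If the Sylow 3-subgroups fix all the blocks, 3 does not divide the orders of the linear parts
and the action on the blocks is not semilinear, then there are generic vectors for all odd primes,
or the number of the Sylow 3-subgroups is even and no Sylow 2-subgroup fixes a nonzero vector. -/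
theorem gb3 [Finite J] (h : BS ρ W UU) (hs : Group.IsSolvable H)
    (hfix : ∀ T : Sylow 3 H, ∀ x ∈ (T : Subgroup H), ∀ j, (W j).map (ρ x) = W j)
    (hU : Ufr ρ W UU 3) (hab : ¬ Abq ρ W UU) :
    (∃ v : J → X, (∀ j, v j ∈ W j ∧ v j ≠ 0) ∧ ∀ r : ℕ, r.Prime → 3 ≤ r → Vg ρ W UU r v) ∨
    (Even (Nat.card (Sylow 3 H)) ∧ ∀ S : Sylow 2 H, ∀ x : X, x ≠ 0 →
      ∃ s ∈ (S : Subgroup H), ρ s x ≠ x) := by
  classical
  have : Fintype J := Fintype.ofFinite J
  have hinv' : ∀ (g : H) (w : X), ρ g (ρ g⁻¹ w) = w := by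
    intro g w
    rw [← Module.End.mul_apply, ← map_mul, mul_inv_cancel, map_one, Module.End.one_apply]
  have hinv : ∀ (g : H) (S : Submodule (ZMod p) X), (S.map (ρ g⁻¹)).map (ρ g) = S := by
    intro g S
    calc (S.map (ρ g⁻¹)).map (ρ g) = S.map (ρ g * ρ g⁻¹) := (Submodule.map_comp _ _ _).symm
      _ = S := by
        rw [← map_mul, mul_inv_cancel, map_one]
        exact Submodule.map_id S
  have hmm : ∀ (g g' : H) (S : Submodule (ZMod p) X), S.map (ρ (g * g')) = (S.map (ρ g')).map (ρ g) := by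
    intro g g' S
    rw [map_mul]
    exact Submodule.map_comp _ _ _
  -- the blocks are conjugate, so no block is semilinear
  have habj : ∀ j, ¬ ∀ x ∈ Nm ρ (W j), ∀ y ∈ Nm ρ (W j), x * y * x⁻¹ * y⁻¹ ∈ UU j := by
    intro j hj
    apply hab
    intro j' x hx y hy
    obtain ⟨g, hg⟩ := h.tra j j'
    have hc : ∀ x ∈ Nm ρ (W j'), g⁻¹ * x * g ∈ Nm ρ (W j) := by
      intro x hx
      rw [mem_Nm] at hx ⊢
      rw [hmm, hmm, hg, hx, ← hg, ← hmm, inv_mul_cancel, map_one]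
      exact Submodule.map_id _
    have h1 := h.uCj g j j' hg _ (hj _ (hc x hx) _ (hc y hy))
    have h2 : g * (g⁻¹ * x * g * (g⁻¹ * y * g) * (g⁻¹ * x * g)⁻¹ * (g⁻¹ * y * g)⁻¹) * g⁻¹ =
        x * y * x⁻¹ * y⁻¹ := by group
    rwa [h2] at h1
  by_cases hall : ∀ j, ∃ v ∈ W j, v ≠ 0 ∧ ∀ r : ℕ, r.Prime → 3 ≤ r →
      (∀ u ∈ UU j, Tv ρ (W j) (u ^ r) → Tv ρ (W j) u) →
        ∀ R : Sylow r H, (∀ x ∈ (R : Subgroup H), x ∈ Nm ρ (W j)) → ∀ g ∈ Nm ρ (W j),
          (∀ x ∈ (R : Subgroup H), ρ (g * x * g⁻¹) v = v) →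
            ∀ x ∈ (R : Subgroup H), Tv ρ (W j) x
  · left
    choose v hvW hv0 hv using hall
    exact ⟨v, fun j => ⟨hvW j, hv0 j⟩, fun r hr hr3 j _ hu => hv j r hr hr3 hu⟩
  right
  push Not at hall
  obtain ⟨j, hj⟩ := hall
  have hTN : ∀ T : Sylow 3 H, ∀ x ∈ (T : Subgroup H), x ∈ Nm ρ (W j) := fun T x hx => hfix T x hx j
  rcases gb_blk h hs j (habj j) (hU j) hTN with h1 | ⟨hev, hele⟩
  · exfalso
    obtain ⟨v, hvW, hv0, hv⟩ := h1
    obtain ⟨r, hr, hr3, hur, R, hR, g, hg, hf, x, hx, hx1⟩ := hj v hvW hv0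
    exact hx1 (hv r hr hr3 hur R hR g hg hf x hx)
  refine ⟨hev, ?_⟩
  -- the kernel of the action on the blocks
  set C : Subgroup H := ⨅ j', Nm ρ (W j') with hC
  have hmC : ∀ x, x ∈ C ↔ ∀ j', x ∈ Nm ρ (W j') := by
    intro x
    rw [hC, Subgroup.mem_iInf]
  have hCn : C.Normal := by
    refine ⟨fun x hx g => ?_⟩
    rw [hmC] at hx ⊢
    intro j'
    rw [mem_Nm, hmm, hmm]
    obtain ⟨j'', hj''⟩ := h.prm g⁻¹ j'
    have h1 := hx j''
    rw [mem_Nm] at h1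
    rw [hj'', h1, ← hj'', hinv]
  obtain ⟨z, hzC, hz2, hzw⟩ := hele C hCn (fun T x hx => (hmC x).mpr (hfix T x hx))
    (fun x hx => (hmC x).mp hx j)
  intro S x hx
  by_contra hcon
  push Not at hcon
  -- the components of `x`
  have hxs : x ∈ ⨆ j', W j' := by
    rw [h.sup]
    exact Submodule.mem_top
  rw [Submodule.mem_iSup_iff_exists_finsupp] at hxs
  obtain ⟨t, htW, htx⟩ := hxs
  rw [Finsupp.sum_fintype _ _ (fun _ => rfl)] at htx
  have hex : ∃ j', t j' ≠ 0 := by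
    by_contra h0
    push Not at h0
    apply hx
    rw [← htx]
    exact Finset.sum_eq_zero fun i _ => h0 i
  obtain ⟨j', hj'⟩ := hex
  obtain ⟨g, hg⟩ := h.tra j j'
  have hgz : g * z * g⁻¹ ∈ C := hCn.conj_mem z hzC g
  obtain ⟨c, hcC, hcS⟩ := gb_inf S C hCn (g * z * g⁻¹) hgz (by
    obtain ⟨m, hm⟩ := hz2
    refine ⟨m, ?_⟩
    rw [conj_pow, hm]
    group)
  have hsC : c * (g * z * g⁻¹) * c⁻¹ ∈ C := hCn.conj_mem _ hgz c
  have hcomp : ρ (c * (g * z * g⁻¹) * c⁻¹) (t j') = t j' := by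
    have h2 : ∑ i, ρ (c * (g * z * g⁻¹) * c⁻¹) (t i) = ∑ i, t i := by
      rw [← map_sum, htx]
      exact hcon _ hcS
    refine ((iSupIndep_iff_finsetSum_eq_imp_eq W).1 h.ind) Finset.univ _ _
      (fun i _ => ⟨?_, htW i⟩) h2 j' (Finset.mem_univ _)
    have h3 := (hmC _).mp hsC i
    rw [mem_Nm] at h3
    have h4 := Submodule.mem_map_of_mem (f := ρ (c * (g * z * g⁻¹) * c⁻¹)) (htW i)
    rwa [h3] at h4
  have hk : (W j).map (ρ (c * g)) = W j' := by
    rw [hmm, hg]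
    exact (hmC c).mp hcC j'
  have hkt : t j' ∈ (W j).map (ρ (c * g)) := by
    rw [hk]
    exact htW j'
  obtain ⟨w, hw, hwt⟩ := hkt
  have hw1 : ρ z w = w := by
    have h2 : c * (g * z * g⁻¹) * c⁻¹ = (c * g) * z * (c * g)⁻¹ := by group
    rw [h2, ← hwt] at hcomp
    have h3 : ρ ((c * g) * z * (c * g)⁻¹) (ρ (c * g) w) = ρ (c * g) (ρ z w) := by
      rw [← Module.End.mul_apply, ← Module.End.mul_apply, ← map_mul, ← map_mul]
      congr 2
      group
    rw [h3] at hcomp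
    have h4 : ρ (c * g)⁻¹ (ρ (c * g) (ρ z w)) = ρ (c * g)⁻¹ (ρ (c * g) w) := by rw [hcomp]
    have h5 : ∀ v : X, ρ (c * g)⁻¹ (ρ (c * g) v) = v := by
      intro v
      rw [← Module.End.mul_apply, ← map_mul, inv_mul_cancel, map_one, Module.End.one_apply]
    rwa [h5, h5] at h4
  have hw0 := hzw w hw hw1
  apply hj'
  rw [← hwt, hw0, map_zero]

/-- The same, from `¬ Bt`. -/
theorem gb3b [Finite J] (h : BS ρ W UU) (hs : Group.IsSolvable H)
    (hfix : ∀ T : Sylow 3 H, ∀ x ∈ (T : Subgroup H), ∀ j, (W j).map (ρ x) = W j)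
    (hU : Ufr ρ W UU 3) (hb : ¬ Bt ρ W UU 3) :
    (∃ v : J → X, (∀ j, v j ∈ W j ∧ v j ≠ 0) ∧ ∀ r : ℕ, r.Prime → 3 ≤ r → Vg ρ W UU r v) ∨
    (Even (Nat.card (Sylow 3 H)) ∧ (∀ S : Sylow 2 H, ∀ x : X, x ≠ 0 →
      ∃ s ∈ (S : Subgroup H), ρ s x ≠ x) ∧ ¬ Abq ρ W UU) := by
  have hab : ¬ Abq ρ W UU := fun h0 => hb (Or.inr ⟨hfix, h0, hU⟩)
  rcases gb3 h hs hfix hU hab with h1 | ⟨h1, h2⟩
  · exact Or.inl h1
  · exact Or.inr ⟨h1, h2, hab⟩

end

end Pool.Agent.R12c
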