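import Pool.Agent.R12.Df
import Pool.Agent.R12.Gb3

/-! Generic data of a module for all odd primes: the four cases. -/

set_option autoImplicit false

namespace Pool.Agent.R12

open Pool.Agent.Nan Pool.Agent.Nas Pool.Agent.Nfv Pool.Agent.Nth Pool.Agent.R12c

/-- The prime `3` for the vectors `v b`, `b ∈ Δ`, if the Sylow `3`-subgroups move blocks: the sum is fixed by no Sylow
`3`-subgroup; or there are a larger set `D₁` and an element `g` of the stabilizer of the block of a new element `d`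
such that the sums of `v` over `Δ`, over `D₁`, and over `D₁` with `v d` replaced by `g v d` are as in `gen3c`. -/
def Pd3 {p : ℕ} {H : Type} [Group H] (F : Fam p H) (Δ : Finset F.J) (v : F.J → F.X) : Prop :=
  (∀ k : F.J → H, (∀ b, k b ∈ Nm F.ρ (F.W b)) → ∀ R : Sylow 3 H,
    ¬ ∀ x ∈ (R : Subgroup H), F.ρ x (∑ b ∈ Δ, F.ρ (k b) (v b)) = ∑ b ∈ Δ, F.ρ (k b) (v b)) ∨
  ∃ (D₁ : Finset F.J) (d : F.J) (g : H), Δ ⊆ D₁ ∧ d ∈ D₁ ∧ d ∉ Δ ∧ g ∈ Nm F.ρ (F.W d) ∧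
    (∀ k : F.J → H, (∀ b, k b ∈ Nm F.ρ (F.W b)) → ∀ r : ℕ, r.Prime → 5 ≤ r → ¬ F.Bt r →
      ∀ R : Sylow r H,
        ¬ ∀ x ∈ (R : Subgroup H), F.ρ x (∑ b ∈ D₁, F.ρ (k b) (v b)) = ∑ b ∈ D₁, F.ρ (k b) (v b)) ∧
    ∀ k k' : F.J → H, (∀ b, k b ∈ Nm F.ρ (F.W b)) → (∀ b, b ≠ d → k' b = k b) →
      k' d = k d * g → ∀ T₀ T₁ T₂ : Sylow 3 H,
        (∀ x ∈ (T₀ : Subgroup H),
          F.ρ x (∑ b ∈ Δ, F.ρ (k b) (v b)) = ∑ b ∈ Δ, F.ρ (k b) (v b)) →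
        (∀ x ∈ (T₁ : Subgroup H),
          F.ρ x (∑ b ∈ D₁, F.ρ (k b) (v b)) = ∑ b ∈ D₁, F.ρ (k b) (v b)) →
        (∀ x ∈ (T₂ : Subgroup H),
          F.ρ x (∑ b ∈ D₁, F.ρ (k' b) (v b)) = ∑ b ∈ D₁, F.ρ (k' b) (v b)) →
          (∀ x ∈ (T₁ : Subgroup H),
            F.ρ x (∑ b ∈ Δ, F.ρ (k b) (v b)) = ∑ b ∈ Δ, F.ρ (k b) (v b)) ∧
          (∀ x ∈ (T₂ : Subgroup H),
            F.ρ x (∑ b ∈ Δ, F.ρ (k b) (v b)) = ∑ b ∈ Δ, F.ρ (k b) (v b)) ∧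
          ¬ (T₁ = T₀ ∧ T₂ = T₀)

/-- The four cases for the prime `3` at a module. -/
theorem md3 {p : ℕ} [Fact p.Prime] {H : Type} [Group H] [Finite H] (hs : Group.IsSolvable H)
    (F : Fam p H) :
    (∀ b₀ b₁, ∃ (Δ : Finset F.J) (v : F.J → F.X), b₀ ∈ Δ ∧ b₁ ∈ Δ ∧
      Gd F {r | r.Prime ∧ 3 ≤ r ∧ ¬ F.Bt r} Δ v) ∨
    ((¬ ∀ R : Sylow 3 H, ∀ x ∈ (R : Subgroup H), ∀ b, (F.W b).map (F.ρ x) = F.W b) ∧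
      ∀ b₀ b₁, ∃ (Δ : Finset F.J) (v : F.J → F.X), b₀ ∈ Δ ∧ b₁ ∈ Δ ∧ Pd3 F Δ v ∧
        Gd F {r | r.Prime ∧ 5 ≤ r ∧ ¬ F.Bt r} Δ v) ∨
    ((∀ R : Sylow 3 H, ∀ x ∈ (R : Subgroup H), ∀ b, (F.W b).map (F.ρ x) = F.W b) ∧
      Ufr F.ρ F.W F.UU 3 ∧ ¬ Abq F.ρ F.W F.UU ∧ Even (Nat.card (Sylow 3 H)) ∧
      (∀ S : Sylow 2 H, ∀ x : F.X, x ≠ 0 → ∃ s ∈ (S : Subgroup H), F.ρ s x ≠ x) ∧
      ∀ b₀ b₁, ∃ (Δ : Finset F.J) (v : F.J → F.X), b₀ ∈ Δ ∧ b₁ ∈ Δ ∧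
        Gd F {r | r.Prime ∧ 5 ≤ r ∧ ¬ F.Bt r} Δ v) := by
  classical
  have h5 : ∀ r : ℕ, r.Prime → 3 ≤ r → r ≠ 3 → 5 ≤ r := by
    intro r hr h3 hne
    have h4 : r ≠ 4 := by
      rintro rfl
      revert hr
      norm_num
    omega
  -- generic data for `r ≥ 5`
  have hgen : ∀ b₀ b₁, ∃ (Δ : Finset F.J) (v : F.J → F.X), b₀ ∈ Δ ∧ b₁ ∈ Δ ∧
      Gd F {r | r.Prime ∧ 5 ≤ r ∧ ¬ F.Bt r} Δ v := by
    intro b₀ b₁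
    obtain ⟨Δ, v, h0, h1, h2, hv, hc⟩ := gen F.bs hs b₀ b₁
    exact ⟨Δ, v, h0, h1, ⟨b₀, h0⟩, h2, hv, fun k hk r hr R => hc k hk r hr.1 hr.2.1 hr.2.2 R⟩
  by_cases hBt : F.Bt 3
  · left
    intro b₀ b₁
    obtain ⟨Δ, v, h0, h1, hG⟩ := hgen b₀ b₁
    refine ⟨Δ, v, h0, h1, hG.ne, hG.two, hG.vW, fun k hk r hr R => hG.cov k hk r ?_ R⟩
    refine ⟨hr.1, h5 r hr.1 hr.2.1 ?_, hr.2.2⟩
    rintro rfl
    exact hr.2.2 hBt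
  by_cases hT : ∀ R : Sylow 3 H, ∀ x ∈ (R : Subgroup H), ∀ b, (F.W b).map (F.ρ x) = F.W b
  · -- the blocks are fixed
    have key : ∀ v : F.J → F.X, (∀ b, v b ∈ F.W b ∧ v b ≠ 0) →
        (∀ r : ℕ, r.Prime → 3 ≤ r → ¬ F.Bt r → Gp F.ρ F.W F.UU r v) →
        ∀ b₀ b₁, ∃ (Δ : Finset F.J) (v : F.J → F.X), b₀ ∈ Δ ∧ b₁ ∈ Δ ∧
          Gd F {r | r.Prime ∧ 3 ≤ r ∧ ¬ F.Bt r} Δ v := by
      intro v hv hg b₀ b₁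
      rcases gen3 F.bs hs b₀ b₁ with ⟨Δ, h0, h1, h2, hc⟩ | ⟨-, -, -, -, -, -, -, -, -, hn, -, -⟩
      · exact ⟨Δ, v, h0, h1, ⟨b₀, h0⟩, h2, hv, fun k hk r hr R =>
          hc v hv k hk r hr.1 hr.2.1 (hg r hr.1 hr.2.1 hr.2.2) R⟩
      · exact absurd hT hn
    by_cases hU : Ufr F.ρ F.W F.UU 3
    · have hab : ¬ Abq F.ρ F.W F.UU := fun hab => hBt (Or.inr ⟨hT, hab, hU⟩)
      rcases gb3 F.bs hs hT hU hab with ⟨v, hv, hvg⟩ | ⟨he, h2⟩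
      · left
        exact key v hv fun r hr hr3 hB => Or.inl ⟨hvg r hr hr3, hB⟩
      · right
        right
        exact ⟨hT, hU, hab, he, h2, hgen⟩
    · left
      obtain ⟨v, hv, hvg⟩ := vg5 F.bs hs
      refine key v hv fun r hr hr3 hB => ?_
      by_cases h33 : r = 3
      · subst h33
        exact Or.inr (Or.inr hU)
      · exact Or.inl ⟨hvg r hr (h5 r hr hr3 h33), hB⟩
  · right
    left
    refine ⟨hT, fun b₀ b₁ => ?_⟩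
    rcases gen3c F.bs hs F.irr hT b₀ b₁ with ⟨Δ, v, h0, h1, h2, hv, hc⟩ |
      ⟨D₀, D₁, v, d, g, h0, h1, h2, hsub, hd, hd', hg, hv, hc, h3⟩
    · exact ⟨Δ, v, h0, h1, Or.inl fun k hk R => hc k hk 3 Nat.prime_three le_rfl hBt R,
        ⟨b₀, h0⟩, h2, hv, fun k hk r hr R => hc k hk r hr.1 (by have := hr.2.1; omega) hr.2.2 R⟩
    · exact ⟨D₀, v, h0, h1, Or.inr ⟨D₁, d, g, hsub, hd, hd', hg,
        fun k hk r hr hr5 hB R => (hc k hk r hr hr5 hB R).2, h3⟩,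
        ⟨b₀, h0⟩, h2, hv, fun k hk r hr R => (hc k hk r hr.1 hr.2.1 hr.2.2 R).1⟩

end Pool.Agent.R12
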