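import Pool.Agent.Nas.Defs

/-! The prime `2` for the stabilizers of vectors of homogeneous components. -/

set_option autoImplicit false

namespace Pool.Agent.R12

open Pool.Agent.Nan Pool.Agent.Nas

section
variable {H : Type} [Group H] [Finite H]

omit [Finite H] in
/-- A power of a `2`-element which acts as a nontrivial involution on a subspace. -/
theorem t2_neg {q : ℕ} [Fact q.Prime] {X : Type} [AddCommGroup X]
    [Module (ZMod q) X] (ρ : Representation (ZMod q) H X) (E : Submodule (ZMod q) X)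
    (n : ℕ) : ∀ g : H, g ^ 2 ^ n = 1 → (∀ j : ℕ, ∀ l ∈ E, ρ (g ^ j) l ∈ E) → (∃ l ∈ E, ρ g l ≠ l) →
    ∃ j : ℕ, ∃ l ∈ E, l ≠ 0 ∧ ρ (g ^ j) l = -l := by
  induction n with
  | zero =>
    intro g hg _ ⟨l, _, hl⟩
    exfalso
    apply hl
    rw [pow_zero, pow_one] at hg
    rw [hg, map_one, Module.End.one_apply]
  | succ n ih =>
    intro g hg hE ⟨l, hl, hgl⟩
    by_cases h1 : ∃ l ∈ E, ρ (g ^ 2) l ≠ l
    · obtain ⟨j, l', hl', h0, hj⟩ := ih (g ^ 2) (by rw [← pow_mul, ← pow_succ', hg])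
        (fun j l hl => by
          rw [← pow_mul]
          exact hE _ l hl) h1
      exact ⟨2 * j, l', hl', h0, by rw [pow_mul]; exact hj⟩
    · push Not at h1
      refine ⟨1, ρ g l - l, Submodule.sub_mem _ (by simpa using hE 1 l hl) hl,
        sub_ne_zero.2 hgl, ?_⟩
      have h2 : ρ g (ρ g l) = l := by
        rw [← Module.End.mul_apply, ← map_mul, ← pow_two]
        exact h1 l hl
      rw [pow_one, map_sub, h2, neg_sub]

/-- An element with `g l = - l` shows that no Sylow `2`-subgroup fixes `l`. -/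
theorem t2_idx {q : ℕ} [Fact q.Prime] (hq : q ≠ 2) {X : Type} [AddCommGroup X]
    [Module (ZMod q) X] (ρ : Representation (ZMod q) H X) (g : H) (l : X) (hl : l ≠ 0)
    (hg : ρ g l = -l) (P : Sylow 2 H) : ¬ ∀ x ∈ (P : Subgroup H), ρ x l = l := by
  intro hP
  -- the group of the elements with `h l = ± l`
  let S : Subgroup H :=
    { carrier := {h | ρ h l = l ∨ ρ h l = -l}
      one_mem' := Or.inl (by rw [map_one, Module.End.one_apply])
      mul_mem' := by
        intro a b ha hb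
        show ρ (a * b) l = l ∨ ρ (a * b) l = -l
        rw [map_mul, Module.End.mul_apply]
        rcases ha with ha | ha <;> rcases hb with hb | hb
        · left; rw [hb, ha]
        · right; rw [hb, map_neg, ha]
        · right; rw [hb, ha]
        · left; rw [hb, map_neg, ha, neg_neg]
      inv_mem' := by
        intro a ha
        show ρ a⁻¹ l = l ∨ ρ a⁻¹ l = -l
        have h1 : ρ a⁻¹ (ρ a l) = l := by
          rw [← Module.End.mul_apply, ← map_mul, inv_mul_cancel, map_one, Module.End.one_apply]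
        rcases ha with ha | ha
        · left
          rw [ha] at h1
          exact h1
        · right
          rw [ha, map_neg] at h1
          exact neg_eq_iff_eq_neg.1 h1 }
  let T : Subgroup H :=
    { carrier := {h | ρ h l = l}
      one_mem' := by
        show ρ 1 l = l
        rw [map_one, Module.End.one_apply]
      mul_mem' := by
        intro a b ha hb
        show ρ (a * b) l = l
        rw [map_mul, Module.End.mul_apply]
        have h1 : ρ b l = l := hb
        have h2 : ρ a l = l := ha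
        rw [h1, h2]
      inv_mem' := by
        intro a ha
        show ρ a⁻¹ l = l
        have h2 : ρ a l = l := ha
        calc ρ a⁻¹ l = ρ a⁻¹ (ρ a l) := by rw [h2]
          _ = l := by
            rw [← Module.End.mul_apply, ← map_mul, inv_mul_cancel, map_one,
              Module.End.one_apply] }
  have hneg : -l ≠ l := by
    intro h
    have h1 : (2 : ZMod q) • l = 0 := by
      rw [two_smul]
      nth_rewrite 1 [← h]
      exact neg_add_cancel l
    rcases smul_eq_zero.1 h1 with h2 | h2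
    · have h3 : ((2 : ℕ) : ZMod q) = 0 := by exact_mod_cast h2
      rw [ZMod.natCast_eq_zero_iff] at h3
      exact hq ((Nat.prime_dvd_prime_iff_eq (Fact.out : q.Prime) Nat.prime_two).1 h3)
    · exact hl h2
  have hgS : g ∈ S := Or.inr hg
  have hgT : g ∉ T := by
    intro h
    have h1 : ρ g l = l := h
    exact hneg (hg ▸ h1)
  have hTS : T ≤ S := fun h hh => Or.inl hh
  have hPT : (P : Subgroup H) ≤ T := hP
  -- the index of `T` in `S` is two
  have h2 : T.relIndex S = 2 := by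
    rw [Subgroup.relIndex, Subgroup.index_eq_two_iff]
    refine ⟨⟨g, hgS⟩, fun b => ?_⟩
    have hbS : (b : H) ∈ S := b.2
    have hmT : ∀ x : S, x ∈ T.subgroupOf S ↔ ρ (x : H) l = l := fun x => Iff.rfl
    rw [hmT, hmT]
    have h3 : ρ ((b * ⟨g, hgS⟩ : S) : H) l = - ρ (b : H) l := by
      show ρ ((b : H) * g) l = _
      rw [map_mul, Module.End.mul_apply, hg, map_neg]
    rw [h3]
    rcases hbS with h | h
    · right
      rw [h]
      exact ⟨rfl, hneg⟩
    · left
      rw [h, neg_neg]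
      exact ⟨rfl, hneg⟩
  have h3 : T.index = 2 * S.index := by
    rw [← h2]
    exact (Subgroup.relIndex_mul_index hTS).symm
  have h4 : 2 ∣ (P : Subgroup H).index := by
    have h5 := Subgroup.index_dvd_of_le hPT
    rw [h3] at h5
    exact (Dvd.intro _ rfl).trans h5
  have : Fact (Nat.Prime 2) := ⟨Nat.prime_two⟩
  exact P.not_dvd_index h4

/-- (T2) Some vectors `l i` in the homogeneous components `E i` have a stabilizer in which no Sylow
`2`-subgroup of `H` is contained as a normal subgroup. -/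
theorem t2 {ι : Type} [Finite ι] (A : Subgroup H) (hA : A.Normal) (p : ι → ℕ)
    [hpp : ∀ i, Fact (p i).Prime] (X : ι → Type) [∀ i, AddCommGroup (X i)]
    [∀ i, Module (ZMod (p i)) (X i)] (ρ : ∀ i, Representation (ZMod (p i)) H (X i))
    (E : ∀ i, Submodule (ZMod (p i)) (X i)) (hp : ∀ i, p i ≠ 2) (hE : ∀ i, E i ≠ ⊥)
    (hbl : ∀ i h, ∀ l ∈ E i, l ≠ 0 → ρ i h l ∈ E i → (E i).map (ρ i h) = E i)
    (hAE : ∀ i, ∀ a ∈ A, (E i).map (ρ i a) = E i)
    (hcE : ∀ i h, (∀ a ∈ A, h * a = a * h) → (E i).map (ρ i h) = E i)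
    (h2 : 2 ∣ Nat.card H) (hO : ∀ K : Subgroup H, K.Normal → IsPGroup 2 K → K = ⊥) :
    ∃ l : ∀ i, X i, (∀ i, l i ∈ E i ∧ l i ≠ 0) ∧ ∀ P : Sylow 2 H,
      ¬ ((∀ x ∈ (P : Subgroup H), ∀ i, ρ i x (l i) = l i) ∧
        ∀ h, (∀ i, ρ i h (l i) = l i) → ∀ x ∈ (P : Subgroup H), h * x * h⁻¹ ∈ (P : Subgroup H)) := by
  classical
  have hf2 : Fact (Nat.Prime 2) := ⟨Nat.prime_two⟩
  by_contra hcon
  push Not at hcon
  -- vectors
  have hv : ∀ i, ∃ l ∈ E i, l ≠ 0 := fun i => Submodule.exists_mem_ne_zero_of_ne_bot (hE i)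
  choose l0 hl0 hl1 using hv
  -- the stabilizer of the components
  obtain ⟨M, hM⟩ : ∃ M : Subgroup H, ∀ h, h ∈ M ↔ ∀ i, (E i).map (ρ i h) = E i := by
    refine ⟨⨅ i, Nm (ρ i) (E i), fun h => ?_⟩
    rw [Subgroup.mem_iInf]
    rfl
  have hmE : ∀ h ∈ M, ∀ i, ∀ l ∈ E i, ρ i h l ∈ E i := by
    intro h hh i l hl
    rw [← (hM h).1 hh i]
    exact ⟨l, hl, rfl⟩
  -- the `2`-elements of `M` are trivial on the components
  have h1 : ∀ g ∈ M, (∃ n : ℕ, g ^ 2 ^ n = 1) → ∀ i, ∀ l ∈ E i, ρ i g l = l := by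
    rintro g hg ⟨n, hn⟩ i
    by_contra hc
    push Not at hc
    obtain ⟨l, hl, hgl⟩ := hc
    obtain ⟨j, l', hl', hl'0, hj⟩ := t2_neg (ρ i) (E i) n g hn
      (fun j l hl => hmE _ (M.pow_mem hg j) i l hl) ⟨l, hl, hgl⟩
    obtain ⟨P, hP, -⟩ := hcon (Function.update l0 i l') (by
      intro i'
      by_cases h : i' = i
      · subst h
        rw [Function.update_self]
        exact ⟨hl', hl'0⟩
      · rw [Function.update_of_ne h]
        exact ⟨hl0 i', hl1 i'⟩)
    refine t2_idx (hp i) (ρ i) (g ^ j) l' hl'0 hj P fun x hx => ?_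
    have := hP x hx i
    rwa [Function.update_self] at this
  obtain ⟨P, hP1, hP2⟩ := hcon l0 fun i => ⟨hl0 i, hl1 i⟩
  -- `P` lies in `M`
  have hPM : (P : Subgroup H) ≤ M := by
    intro x hx
    rw [hM]
    intro i
    refine hbl i x (l0 i) (hl0 i) (hl1 i) ?_
    rw [hP1 x hx i]
    exact hl0 i
  have hPe : ∀ x ∈ (P : Subgroup H), ∃ n : ℕ, x ^ 2 ^ n = 1 := by
    intro x hx
    obtain ⟨n, hn⟩ := P.isPGroup' ⟨x, hx⟩
    exact ⟨n, by simpa using congrArg Subtype.val hn⟩
  -- `P` is normalized by `H_l`, so it contains all `2`-elements which normalize it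
  have hPin : ∀ g : H, (∃ n : ℕ, g ^ 2 ^ n = 1) → (∀ i, ρ i g (l0 i) = l0 i) →
      g ∈ (P : Subgroup H) := by
    rintro g ⟨n, hn⟩ hg
    have hgN : ∀ x ∈ (P : Subgroup H), g * x * g⁻¹ ∈ (P : Subgroup H) := hP2 g hg
    have hle : Subgroup.zpowers g ≤ Subgroup.normalizer ((P : Subgroup H) : Set H) := by
      rw [Subgroup.zpowers_le]
      exact Subgroup.mem_normalizer_iff.2 fun x => by
        constructor
        · exact hgN x
        · intro hx
          have hgi : ∀ i, ρ i g⁻¹ (l0 i) = l0 i := by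
            intro i
            calc ρ i g⁻¹ (l0 i) = ρ i g⁻¹ (ρ i g (l0 i)) := by rw [hg i]
              _ = l0 i := by
                rw [← Module.End.mul_apply, ← map_mul, inv_mul_cancel, map_one,
                  Module.End.one_apply]
          have h5 := hP2 g⁻¹ hgi _ hx
          have h6 : g⁻¹ * (g * x * g⁻¹) * g⁻¹⁻¹ = x := by group
          rwa [h6] at h5
    have hz : IsPGroup 2 (Subgroup.zpowers g) := by
      rintro ⟨x, hx⟩
      obtain ⟨k, rfl⟩ := Subgroup.mem_zpowers_iff.1 hx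
      refine ⟨n, Subtype.ext ?_⟩
      show (g ^ k) ^ 2 ^ n = 1
      rw [← zpow_natCast, ← zpow_mul, mul_comm, zpow_mul, zpow_natCast, hn, one_zpow]
    have h7 : IsPGroup 2 ((P : Subgroup H) ⊔ Subgroup.zpowers g : Subgroup H) :=
      IsPGroup.to_sup_of_normal_left' P.isPGroup' hz hle
    have h8 := P.is_maximal' h7 le_sup_left
    have h9 : Subgroup.zpowers g ≤ (P : Subgroup H) := by
      calc Subgroup.zpowers g ≤ (P : Subgroup H) ⊔ Subgroup.zpowers g := le_sup_right
        _ = (P : Subgroup H) := h8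
    exact h9 (Subgroup.mem_zpowers g)
  have hMP : ∀ g ∈ M, (∃ n : ℕ, g ^ 2 ^ n = 1) → g ∈ (P : Subgroup H) := fun g hg hn =>
    hPin g hn fun i => h1 g hg hn i (l0 i) (hl0 i)
  have hcj : ∀ g x : H, (∃ n : ℕ, x ^ 2 ^ n = 1) → ∃ n : ℕ, (g * x * g⁻¹) ^ 2 ^ n = 1 := by
    rintro g x ⟨n, hn⟩
    exact ⟨n, by rw [conj_pow, hn, mul_one, mul_inv_cancel]⟩
  have hAM : A ≤ M := fun a ha => (hM a).2 fun i => hAE i a ha
  -- `P` centralizes `A`
  have hPA : ∀ x ∈ (P : Subgroup H), ∀ a ∈ A, x * a = a * x := by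
    intro x hx a ha
    -- the intersection `A ∩ P` is normal in `H`
    have hAP : A ⊓ (P : Subgroup H) = ⊥ := by
      refine hO _ ⟨fun y hy g => ?_⟩ ?_
      · refine ⟨hA.conj_mem y hy.1 g, hMP _ (hAM (hA.conj_mem y hy.1 g)) (hcj g y (hPe y hy.2))⟩
      · rintro ⟨y, hy⟩
        obtain ⟨n, hn⟩ := hPe y hy.2
        exact ⟨n, Subtype.ext hn⟩
    have h3 : x * a * x⁻¹ * a⁻¹ ∈ A ⊓ (P : Subgroup H) := by
      refine ⟨A.mul_mem (hA.conj_mem a ha x) (A.inv_mem ha), ?_⟩
      have h4 : a * x⁻¹ * a⁻¹ ∈ (P : Subgroup H) := by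
        refine hMP _ (M.mul_mem (M.mul_mem (hAM ha) (M.inv_mem (hPM hx))) (M.inv_mem (hAM ha))) ?_
        exact hcj a x⁻¹ (hPe _ (Subgroup.inv_mem _ hx))
      have h5 : x * a * x⁻¹ * a⁻¹ = x * (a * x⁻¹ * a⁻¹) := by group
      rw [h5]
      exact Subgroup.mul_mem _ hx h4
    rw [hAP, Subgroup.mem_bot] at h3
    have h4 : x * a * x⁻¹ * a⁻¹ * (a * x) = a * x := by rw [h3, one_mul]
    rw [← h4]
    group
  -- all `2`-elements are in `P`
  have hall : ∀ g : H, (∃ n : ℕ, g ^ 2 ^ n = 1) → g ∈ (P : Subgroup H) := by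
    rintro g ⟨n, hn⟩
    refine hMP g ((hM g).2 fun i => hcE i g fun a ha => ?_) ⟨n, hn⟩
    -- `g` is conjugate to an element of `P`
    have hz : IsPGroup 2 (Subgroup.zpowers g) := by
      rintro ⟨x, hx⟩
      obtain ⟨k, rfl⟩ := Subgroup.mem_zpowers_iff.1 hx
      refine ⟨n, Subtype.ext ?_⟩
      show (g ^ k) ^ 2 ^ n = 1
      rw [← zpow_natCast, ← zpow_mul, mul_comm, zpow_mul, zpow_natCast, hn, one_zpow]
    obtain ⟨Q, hQ⟩ := hz.exists_le_sylow
    obtain ⟨k, hk⟩ := MulAction.exists_smul_eq H P Q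
    have hgQ : g ∈ (Q : Subgroup H) := hQ (Subgroup.mem_zpowers g)
    rw [← hk, Sylow.coe_subgroup_smul, Subgroup.mem_pointwise_smul_iff_inv_smul_mem, ← map_inv,
      MulAut.smul_def, MulAut.conj_apply, inv_inv] at hgQ
    have h3 := hPA _ hgQ (k⁻¹ * a * k) (by
      have := hA.conj_mem a ha k⁻¹
      rwa [inv_inv] at this)
    have h4 : k * (k⁻¹ * g * k * (k⁻¹ * a * k)) * k⁻¹ = k * (k⁻¹ * a * k * (k⁻¹ * g * k)) * k⁻¹ := by
      rw [h3]
    have h5 : k * (k⁻¹ * g * k * (k⁻¹ * a * k)) * k⁻¹ = g * a := by group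
    have h6 : k * (k⁻¹ * a * k * (k⁻¹ * g * k)) * k⁻¹ = a * g := by group
    rw [h5, h6] at h4
    exact h4
  have hPn : (P : Subgroup H).Normal := ⟨fun x hx g => hall _ (hcj g x (hPe x hx))⟩
  have hbot := hO _ hPn P.isPGroup'
  have hidx : 2 ∣ (P : Subgroup H).index := by
    rw [hbot, Subgroup.index_bot]
    exact h2
  exact P.not_dvd_index hidx

end

end Pool.Agent.R12
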