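import Pool.Agent.Nas.St
import Pool.Agent.Nas.Bs

/-! The prime `3` for the stabilizers of vectors of homogeneous components. -/

set_option autoImplicit false

namespace Pool.Agent.R12

open Pool.Agent.Nan Pool.Agent.Nas

/-- `z` is a primitive prime divisor of `q ^ d - 1`. -/
structure Zp (q d z : ℕ) : Prop where
  pr : z.Prime
  dv : z ∣ q ^ d - 1
  no : ∀ j, 0 < j → j < d → ¬ z ∣ q ^ j - 1

-- BEGIN za
/-- A prime divisor `p` of `Φ_d(q)`: the order of `q` modulo `p` is the `p`-prime part of `d`. -/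
private theorem za_root (q d p : ℕ) (hd : d ≠ 0) (hp : p.Prime)
    (h : p ∣ ((Polynomial.cyclotomic d ℤ).eval (q : ℤ)).natAbs) :
    ∃ k m : ℕ, d = p ^ k * m ∧ ¬ p ∣ m ∧ IsPrimitiveRoot (q : ZMod p) m := by
  have hpf : Fact p.Prime := ⟨hp⟩
  obtain ⟨k, m, hm, hdm⟩ := Nat.exists_eq_pow_mul_and_not_dvd hd p hp.ne_one
  refine ⟨k, m, hdm, hm, ?_⟩
  have hm0 : NeZero (m : ZMod p) := ⟨by
    rw [Ne, ZMod.natCast_eq_zero_iff]
    exact hm⟩
  have h1 : ((((Polynomial.cyclotomic d ℤ).eval (q : ℤ)) : ℤ) : ZMod p) = 0 := by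
    rw [ZMod.intCast_zmod_eq_zero_iff_dvd]
    exact Int.natCast_dvd.mpr h
  have h2 : (Polynomial.cyclotomic d (ZMod p)).IsRoot (q : ZMod p) := by
    rw [Polynomial.IsRoot.def]
    have h3 := Polynomial.cyclotomic.eval_apply (q : ℤ) d (Int.castRingHom (ZMod p))
    simp only [eq_intCast, Int.cast_natCast] at h3
    rw [h3]
    exact h1
  rw [hdm] at h2
  exact Polynomial.isRoot_cyclotomic_prime_pow_mul_iff_of_charP.mp h2

/-- `p ^ 2` does not divide `Φ_d(q)` if `p ∣ d`, `3 ≤ d`. -/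
private theorem za_sq (q d p : ℕ) (hq : 2 ≤ q) (hd : 3 ≤ d) (hp : p.Prime) (hpd : p ∣ d)
    (h : p ^ 2 ∣ ((Polynomial.cyclotomic d ℤ).eval (q : ℤ)).natAbs) : False := by
  have hpf : Fact p.Prime := ⟨hp⟩
  have hpN : p ∣ ((Polynomial.cyclotomic d ℤ).eval (q : ℤ)).natAbs := (dvd_pow_self p two_ne_zero).trans h
  obtain ⟨k, m, hdm, hm, hprim⟩ := za_root q d p (by omega) hp hpN
  have hk : k ≠ 0 := by
    rintro rfl
    rw [pow_zero, one_mul] at hdm
    exact hm (hdm ▸ hpd)
  obtain ⟨k, rfl⟩ := Nat.exists_eq_succ_of_ne_zero hk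
  set e : ℕ := p ^ k * m with he
  have hde : d = e * p := by rw [hdm, he, pow_succ]; ring
  have he0 : 0 < e := by
    rcases Nat.eq_zero_or_pos e with h0 | h0
    · rw [h0] at hde
      omega
    · exact h0
  have hmem : e ∈ d.properDivisors := by
    rw [Nat.mem_properDivisors]
    refine ⟨⟨p, hde⟩, ?_⟩
    rw [hde]
    exact lt_mul_of_one_lt_right he0 hp.one_lt
  have hdiv := Polynomial.X_pow_sub_one_mul_cyclotomic_dvd_X_pow_sub_one_of_dvd ℤ hmem
  have hdiv2 : ((q : ℤ) ^ e - 1) * (Polynomial.cyclotomic d ℤ).eval (q : ℤ) ∣ (q : ℤ) ^ d - 1 := by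
    have := map_dvd (Polynomial.evalRingHom (q : ℤ)) hdiv
    simpa using this
  set x : ℕ := q ^ e with hx
  have hx1 : 1 < x := Nat.one_lt_pow he0.ne' (by omega)
  have hxd : (q : ℤ) ^ d = (x : ℤ) ^ p := by
    rw [hx, hde, pow_mul]
    push_cast
    rfl
  have hdiv3 : (p : ℤ) ^ 2 * ((x : ℤ) - 1) ∣ (x : ℤ) ^ p - 1 := by
    rw [← hxd]
    refine dvd_trans ?_ hdiv2
    have h4 : (p : ℤ) ^ 2 ∣ (Polynomial.cyclotomic d ℤ).eval (q : ℤ) := by
      have := Int.natCast_dvd.mpr h
      exact_mod_cast this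
    rw [mul_comm]
    have h5 : (x : ℤ) - 1 = (q : ℤ) ^ e - 1 := by
      rw [hx]
      push_cast
      rfl
    rw [h5]
    exact mul_dvd_mul_left _ h4
  have hdiv4 : p ^ 2 * (x - 1) ∣ x ^ p - 1 := by
    have h6 : ((p ^ 2 * (x - 1) : ℕ) : ℤ) ∣ ((x ^ p - 1 : ℕ) : ℤ) := by
      push_cast [Nat.cast_sub hx1.le, Nat.cast_sub (Nat.one_le_pow p x (by omega))]
      exact hdiv3
    exact_mod_cast h6
  have hpx : p ∣ x - 1 := by
    have h7 : ((x : ℕ) : ZMod p) = 1 := by
      rw [hx, he]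
      push_cast
      rw [mul_comm, pow_mul, hprim.pow_eq_one, one_pow]
    have h8 : (((x - 1 : ℕ)) : ZMod p) = 0 := by
      rw [Nat.cast_sub hx1.le, h7]
      simp
    exact (ZMod.natCast_eq_zero_iff _ _).mp h8
  have hpx' : ¬ p ∣ x := by
    intro h9
    have h10 : p ∣ x - (x - 1) := Nat.dvd_sub h9 hpx
    have h11 : x - (x - 1) = 1 := by omega
    rw [h11] at h10
    exact hp.one_lt.ne' (Nat.dvd_one.mp h10)
  rcases hp.eq_two_or_odd' with h2 | hodd
  · -- p = 2
    subst h2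
    have hm1 : m = 1 := by
      have h12 : m ∣ 2 - 1 := by
        rw [← hprim.pow_eq_one_iff_dvd]
        refine ZMod.pow_card_sub_one_eq_one ?_
        intro h0
        have := hprim.pow_eq_one
        have hm0 : m ≠ 0 := by
          rintro rfl
          simp at hm
        rw [h0, zero_pow hm0] at this
        exact zero_ne_one this
      simpa using h12
    rw [hm1, mul_one] at he
    have hk0 : k ≠ 0 := by
      rintro rfl
      rw [pow_zero] at he
      rw [he] at hde
      omega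
    obtain ⟨k, rfl⟩ := Nat.exists_eq_succ_of_ne_zero hk0
    have hxy : x = (q ^ 2 ^ k) ^ 2 := by
      rw [hx, he, pow_succ, pow_mul]
    have hyo : ¬ 2 ∣ q ^ 2 ^ k := by
      intro h13
      apply hpx'
      rw [hxy, pow_two]
      exact Dvd.dvd.mul_right h13 _
    have h14 : x % 4 = 1 := by
      rw [hxy]
      generalize q ^ 2 ^ k = y at hyo ⊢
      have hy4 : y % 4 = 1 ∨ y % 4 = 3 := by omega
      rcases hy4 with h15 | h15 <;> simp [Nat.pow_mod, h15]
    have h16 : x ^ 2 - 1 = (x + 1) * (x - 1) := by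
      have := Nat.sq_sub_sq x 1
      simpa using this
    rw [h16] at hdiv4
    have h17 : 2 ^ 2 ∣ x + 1 := Nat.dvd_of_mul_dvd_mul_right (by omega) hdiv4
    omega
  · have hlte := padicValNat.pow_sub_pow hodd hx1 hpx hpx' hp.ne_zero
    rw [one_pow] at hlte
    have h18 : padicValNat p p = 1 := padicValNat_self
    rw [h18] at hlte
    obtain ⟨c, hc⟩ := hdiv4
    have hxp : x ^ p - 1 ≠ 0 := by
      have := Nat.one_lt_pow hp.ne_zero hx1
      omega
    have hc0 : c ≠ 0 := by
      rintro rfl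
      rw [mul_zero] at hc
      exact hxp hc
    have hx10 : x - 1 ≠ 0 := by omega
    rw [hc, padicValNat.mul (mul_ne_zero (pow_ne_zero 2 hp.ne_zero) hx10) hc0,
      padicValNat.mul (pow_ne_zero 2 hp.ne_zero) hx10, padicValNat.pow, h18] at hlte
    omega

/-- (Bang, Zsigmondy) A primitive prime divisor of `q ^ d - 1`, `3 ≤ q`, `3 ≤ d`. -/
private theorem za_main (q d : ℕ) (hq : 3 ≤ q) (hd : 3 ≤ d) :
    ∃ z, z.Prime ∧ z ∣ q ^ d - 1 ∧ ∀ j, 0 < j → j < d → ¬ z ∣ q ^ j - 1 := by
  by_contra hcon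
  push Not at hcon
  set N : ℕ := ((Polynomial.cyclotomic d ℤ).eval (q : ℤ)).natAbs with hN
  have hbig : (q - 1) ^ Nat.totient d < N :=
    Polynomial.sub_one_pow_totient_lt_natAbs_cyclotomic_eval (by omega) (by omega)
  have hN1 : 1 < N := lt_of_le_of_lt (Nat.one_le_pow _ _ (by omega)) hbig
  have hNd : N ∣ q ^ d - 1 := by
    have h1 : (Polynomial.cyclotomic d ℤ).eval (q : ℤ) ∣ (q : ℤ) ^ d - 1 := by
      have := map_dvd (Polynomial.evalRingHom (q : ℤ)) (Polynomial.cyclotomic.dvd_X_pow_sub_one d ℤ)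
      simpa using this
    have h2 : ((q ^ d - 1 : ℕ) : ℤ) = (q : ℤ) ^ d - 1 := by
      push_cast [Nat.cast_sub (Nat.one_le_pow d q (by omega))]
      ring
    rw [← h2] at h1
    exact Int.natAbs_dvd_natAbs.mpr h1
  have key : ∀ p : ℕ, p.Prime → p ∣ N → ∃ k m : ℕ, d = p ^ k * m ∧ k ≠ 0 ∧ m ∣ p - 1 := by
    intro p hp hpN
    have hpf : Fact p.Prime := ⟨hp⟩
    obtain ⟨k, m, hdm, hm, hprim⟩ := za_root q d p (by omega) hp hpN
    refine ⟨k, m, hdm, ?_, ?_⟩
    · rintro rfl
      rw [pow_zero, one_mul] at hdm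
      obtain ⟨j, hj0, hjd, hj⟩ := hcon p hp (hpN.trans hNd)
      have h3 : (q : ZMod p) ^ j = 1 := by
        have h4 : ((q ^ j - 1 : ℕ) : ZMod p) = 0 := (ZMod.natCast_eq_zero_iff _ _).mpr hj
        rw [Nat.cast_sub (Nat.one_le_pow j q (by omega))] at h4
        push_cast at h4
        exact sub_eq_zero.mp h4
      have h5 := (hprim.pow_eq_one_iff_dvd j).mp h3
      rw [← hdm] at h5
      exact absurd (Nat.le_of_dvd hj0 h5) (by omega)
    · rw [← hprim.pow_eq_one_iff_dvd]
      refine ZMod.pow_card_sub_one_eq_one ?_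
      intro h0
      have h6 := hprim.pow_eq_one
      have hm0 : m ≠ 0 := by
        rintro rfl
        simp at hm
      rw [h0, zero_pow hm0] at h6
      exact zero_ne_one h6
  have huniq : ∀ p p' : ℕ, p.Prime → p'.Prime → p ∣ N → p' ∣ N → p ≤ p' := by
    intro p p' hp hp' hpN hpN'
    by_contra hlt
    have hne : p ≠ p' := by
      rintro rfl
      exact hlt le_rfl
    obtain ⟨k, m, hdm, hk, hmp⟩ := key p hp hpN
    obtain ⟨k', m', hdm', hk', hmp'⟩ := key p' hp' hpN'
    have h7 : p ∣ p' ^ k' * m' := by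
      rw [← hdm', hdm]
      exact (dvd_pow_self p hk).mul_right m
    have h8 : p ∣ m' := by
      rcases hp.dvd_mul.mp h7 with h9 | h9
      · exact absurd ((Nat.prime_dvd_prime_iff_eq hp hp').mp (hp.dvd_of_dvd_pow h9)) hne
      · exact h9
    have h10 := Nat.le_of_dvd (by have := hp'.two_le; omega) (h8.trans hmp')
    omega
  set p : ℕ := N.minFac with hpdef
  have hp : p.Prime := Nat.minFac_prime (by omega)
  have hpN : p ∣ N := Nat.minFac_dvd N
  have hNp : N = p ^ N.primeFactorsList.length := by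
    refine Nat.eq_prime_pow_of_unique_prime_dvd (by omega) ?_
    intro r hr hrN
    exact le_antisymm (huniq r p hr hp hrN hpN) (huniq p r hp hr hpN hrN)
  have hs : ¬ p ^ 2 ∣ N := by
    intro h11
    obtain ⟨k, m, hdm, hk, -⟩ := key p hp hpN
    refine za_sq q d p (by omega) hd hp ?_ h11
    rw [hdm]
    exact (dvd_pow_self p hk).mul_right m
  have hs1 : N.primeFactorsList.length ≤ 1 := by
    by_contra h12
    apply hs
    rw [hNp]
    exact pow_dvd_pow p (by omega)
  have hNle : N ≤ p := by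
    rw [hNp]
    calc p ^ N.primeFactorsList.length ≤ p ^ 1 := Nat.pow_le_pow_right hp.pos hs1
      _ = p := pow_one p
  have htot : p - 1 ≤ Nat.totient d := by
    obtain ⟨k, m, hdm, hk, -⟩ := key p hp hpN
    have h13 : p ∣ d := by
      rw [hdm]
      exact (dvd_pow_self p hk).mul_right m
    have h14 := Nat.le_of_dvd (Nat.totient_pos.mpr (by omega)) (Nat.totient_dvd_of_dvd h13)
    rwa [Nat.totient_prime hp] at h14
  have h15 : p ≤ (q - 1) ^ Nat.totient d := by
    calc p ≤ 2 ^ (p - 1) := by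
          have := Nat.lt_two_pow_self (n := p - 1)
          omega
      _ ≤ 2 ^ Nat.totient d := Nat.pow_le_pow_right (by norm_num) htot
      _ ≤ (q - 1) ^ Nat.totient d := Nat.pow_le_pow_left (by omega) _
  omega

/-- (za, size 5) Zsigmondy. PROOF. `N` = the value of the cyclotomic polynomial `Φ_d` (over `ℤ`) at `q`, a divisor of
`q ^ d - 1`. (1) If a prime `z` divides `N` and `z ∤ d`, then `q` is a root of `Φ_d` in `ZMod z`, so it is a primitive
`d`-th root of unity (Mathlib `Polynomial.isRoot_cyclotomic_iff`, `NeZero (d : ZMod z)`): done. (2) Let `z` be a prime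
with `z ∣ N`, `z ∣ d`, `d = z ^ v * m`, `z ∤ m`. In `ZMod z`: `Φ_d = Φ_m ^ (z ^ v - z ^ (v - 1))` (Mathlib
`Polynomial.cyclotomic_mul_prime_pow_eq`), so `q` is a primitive `m`-th root of unity in `ZMod z`, so `m ∣ z - 1`: all
primes of `m` are `< z`, so `z` is the largest prime divisor of `d`. And `z ^ 2 ∤ N`: for `z` odd, `Q = q ^ (d / z)` is `1`
mod `z` (`m ∣ d / z`) and `N ∣ (q ^ d - 1) / (Q - 1) = 1 + Q + .. + Q ^ (z - 1)`, which is `z` mod `z ^ 2` (`Q = 1 + z t`:
the sum is `z + z t z (z - 1) / 2`); for `z = 2`: `m = 1`, `d = 2 ^ v`, `v ≥ 2`, `N = q ^ (d / 2) + 1` is `2` mod `4`.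
(3) So if no prime as in (1) exists, `N` (which is `> 1`) is the largest prime divisor `z` of `d`; but
`N > (q - 1) ^ φ(d)` (Mathlib `Polynomial.sub_one_pow_totient_lt_cyclotomic_eval`) `≥ 4 ^ (z - 1) ≥ z`
(`z - 1 = φ(z) ∣ φ(d)`), contradiction. -/
theorem tz_zsg (q d : ℕ) (h5 : 5 ≤ q) (hd : 3 ≤ d) : ∃ z : ℕ, Zp q d z := by
  obtain ⟨z, hz, h1, h2⟩ := za_main q d (by omega) hd
  exact ⟨z, hz, h1, h2⟩
-- END za

-- BEGIN zb
/-- (zb, size 1) PROOF. `z ∤ q`; the order of `q` in `(ZMod z)ˣ` is `d` by `dv`, `no` (it divides `d` and is not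
smaller), and it divides `z - 1`. -/
theorem tz_ord {q d z : ℕ} (hq : 0 < q) (hd : 0 < d) (hz : Zp q d z) : d ∣ z - 1 := by
  have : Fact z.Prime := ⟨hz.pr⟩
  have hiff : ∀ j : ℕ, (q : ZMod z) ^ j = 1 ↔ z ∣ q ^ j - 1 := by
    intro j
    rw [← ZMod.natCast_eq_zero_iff, Nat.cast_sub (Nat.one_le_pow j q hq), Nat.cast_pow, Nat.cast_one,
      sub_eq_zero]
  have h1 : (q : ZMod z) ^ d = 1 := (hiff d).2 hz.dv
  have h0 : (q : ZMod z) ≠ 0 := by
    intro h
    rw [h, zero_pow hd.ne'] at h1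
    exact zero_ne_one h1
  have h2 : orderOf (q : ZMod z) = d :=
    (orderOf_eq_iff hd).2 ⟨h1, fun m hm hm0 h => hz.no m hm0 hm ((hiff m).1 h)⟩
  rw [← h2]
  exact orderOf_dvd_of_pow_eq_one (ZMod.pow_card_sub_one_eq_one h0)
-- END zb

-- BEGIN zc
/-- (zc, size 2) PROOF. `D` = the last nontrivial member of the derived series: normal and commutative. `r` = a prime
divisor of `card D`, `N` = the elements `n ∈ D` with `n ^ r = 1` (Cauchy: `N ≠ ⊥`). -/
theorem tz_min {G : Type} [Group G] [Finite G] [Nontrivial G] (hs : Group.IsSolvable G) :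
    ∃ (r : ℕ) (N : Subgroup G), r.Prime ∧ Ab N ∧ N ≠ ⊥ ∧ ∀ n ∈ N, n ^ r = 1 := by
  classical
  have hex : ∃ n, derivedSeries G n = ⊥ := hs.solvable
  have hn := Nat.find_spec hex
  have hmin := fun m (hm : m < Nat.find hex) => Nat.find_min hex hm
  have hpos : Nat.find hex ≠ 0 := by
    intro h0
    rw [h0, derivedSeries_zero] at hn
    exact top_ne_bot hn
  obtain ⟨k, hk⟩ := Nat.exists_eq_succ_of_ne_zero hpos
  rw [hk] at hn hmin
  have hD0 : derivedSeries G k ≠ ⊥ := hmin k (Nat.lt_succ_self k)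
  have hcom : ∀ a ∈ derivedSeries G k, ∀ b ∈ derivedSeries G k, a * b = b * a := by
    intro a ha b hb
    have h1 : a * b * a⁻¹ * b⁻¹ ∈ derivedSeries G (k + 1) := by
      rw [derivedSeries_succ]
      exact Subgroup.commutator_mem_commutator ha hb
    rw [hn, Subgroup.mem_bot] at h1
    rw [mul_inv_eq_one, mul_inv_eq_iff_eq_mul] at h1
    exact h1
  have hc1 : Nat.card (derivedSeries G k) ≠ 1 := fun h1 => hD0 (Subgroup.card_eq_one.1 h1)
  obtain ⟨r, hr, hrd⟩ := Nat.exists_prime_and_dvd hc1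
  haveI : Fact r.Prime := ⟨hr⟩
  let N : Subgroup G :=
    { carrier := {n | n ∈ derivedSeries G k ∧ n ^ r = 1}
      mul_mem' := by
        rintro a b ⟨ha, ha'⟩ ⟨hb, hb'⟩
        refine ⟨mul_mem ha hb, ?_⟩
        rw [(show Commute a b from hcom a ha b hb).mul_pow, ha', hb', mul_one]
      one_mem' := ⟨one_mem _, one_pow _⟩
      inv_mem' := by
        rintro a ⟨ha, ha'⟩
        refine ⟨inv_mem ha, ?_⟩
        rw [inv_pow, ha', inv_one] }
  have hN : ∀ n, n ∈ N ↔ n ∈ derivedSeries G k ∧ n ^ r = 1 := fun n => Iff.rfl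
  refine ⟨r, N, hr, ⟨⟨?_⟩, ?_⟩, ?_, fun n hn => ((hN n).1 hn).2⟩
  · intro n hn g
    rw [hN] at hn ⊢
    refine ⟨(derivedSeries_normal G k).conj_mem n hn.1 g, ?_⟩
    rw [conj_pow, hn.2, mul_one, mul_inv_cancel]
  · intro a ha b hb
    exact hcom a ((hN a).1 ha).1 b ((hN b).1 hb).1
  · obtain ⟨x, hx⟩ := exists_prime_orderOf_dvd_card' (G := derivedSeries G k) r hrd
    intro h0
    have h1 : (x : G) ∈ N := by
      rw [hN]
      refine ⟨x.2, ?_⟩
      have h2 := pow_orderOf_eq_one x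
      rw [hx] at h2
      exact congrArg Subtype.val h2
    rw [h0, Subgroup.mem_bot] at h1
    have h2 : x = 1 := Subtype.ext h1
    rw [h2, orderOf_one] at hx
    exact hr.one_lt.ne hx
-- END zc

-- BEGIN zd
private theorem zd_ind (m : ℕ) : ∀ (G : Type) [Group G] [Finite G], Group.IsSolvable G →
    ∀ π : ℕ → Prop, Nat.card G ≤ m →
    ∃ Y : Subgroup G, (∀ r : ℕ, r.Prime → r ∣ Nat.card Y → π r) ∧
      ∀ r : ℕ, r.Prime → π r → ¬ r ∣ Y.index := by
  induction m with
  | zero =>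
    intro G _ _ _ π h
    have h1 : 0 < Nat.card G := Nat.card_pos
    omega
  | succ m ih =>
    intro G _ _ hs π hm
    rcases subsingleton_or_nontrivial G with h1 | h1
    · refine ⟨⊤, fun r hr hd => ?_, fun r hr _ hd => ?_⟩
      · exfalso
        rw [Subgroup.card_top, Nat.card_unique] at hd
        exact hr.one_lt.ne' (Nat.dvd_one.1 hd)
      · rw [Subgroup.index_top] at hd
        exact hr.one_lt.ne' (Nat.dvd_one.1 hd)
    · obtain ⟨r, N, hr, hN, hN0, hNr⟩ := tz_min hs
      haveI : N.Normal := hN.nor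
      have hcN : 1 < Nat.card N := by
        rw [Subgroup.one_lt_card_iff_ne_bot]
        exact hN0
      have hNp : ∀ s : ℕ, s.Prime → s ∣ Nat.card N → s = r := by
        intro s hsp hd
        haveI : Fact s.Prime := ⟨hsp⟩
        obtain ⟨x, hx⟩ := exists_prime_orderOf_dvd_card' (G := N) s hd
        have h2 : x ^ r = 1 := Subtype.ext (hNr x x.2)
        have h3 := orderOf_dvd_of_pow_eq_one h2
        rw [hx] at h3
        exact (Nat.prime_dvd_prime_iff_eq hsp hr).1 h3
      have hcG : Nat.card G = Nat.card (G ⧸ N) * Nat.card N :=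
        Subgroup.card_eq_card_quotient_mul_card_subgroup N
      have hq0 : 0 < Nat.card (G ⧸ N) := Nat.card_pos
      have hlt : Nat.card (G ⧸ N) ≤ m := by
        have h2 : Nat.card (G ⧸ N) * 1 < Nat.card (G ⧸ N) * Nat.card N :=
          Nat.mul_lt_mul_of_pos_left hcN hq0
        omega
      haveI := hs
      obtain ⟨Z, hZ1, hZ2⟩ := ih (G ⧸ N) inferInstance π hlt
      let K : Subgroup G := Z.comap (QuotientGroup.mk' N)
      have hKi : K.index = Z.index :=
        Subgroup.index_comap_of_surjective Z (QuotientGroup.mk'_surjective N)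
      have hZi : 0 < Z.index := Nat.pos_of_ne_zero Subgroup.index_ne_zero_of_finite
      have hKc : Nat.card K = Nat.card Z * Nat.card N := by
        have h2 := Subgroup.card_mul_index K
        have h3 := Subgroup.card_mul_index Z
        rw [hKi, hcG, ← h3] at h2
        have h4 : Nat.card K * Z.index = (Nat.card Z * Nat.card N) * Z.index := by
          rw [h2]
          ring
        exact Nat.eq_of_mul_eq_mul_right hZi h4
      by_cases hπ : π r
      · refine ⟨K, fun s hsp hd => ?_, fun s hsp hπs hd => ?_⟩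
        · rw [hKc] at hd
          rcases (Nat.Prime.dvd_mul hsp).1 hd with h2 | h2
          · exact hZ1 s hsp h2
          · rw [hNp s hsp h2]
            exact hπ
        · rw [hKi] at hd
          exact hZ2 s hsp hπs hd
      · have hNK : N ≤ K := by
          intro x hx
          show QuotientGroup.mk' N x ∈ Z
          rw [QuotientGroup.mk'_apply, (QuotientGroup.eq_one_iff x).2 hx]
          exact one_mem Z
        have hcs : Nat.card (N.subgroupOf K) = Nat.card N :=
          Nat.card_congr (Subgroup.subgroupOfEquivOfLe hNK).toEquiv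
        have hN0' : 0 < Nat.card N := by omega
        have hix : (N.subgroupOf K).index = Nat.card Z := by
          have h2 := Subgroup.card_mul_index (N.subgroupOf K)
          rw [hcs, hKc, mul_comm (Nat.card Z)] at h2
          exact Nat.eq_of_mul_eq_mul_left hN0' h2
        have hcop : Nat.Coprime (Nat.card (N.subgroupOf K)) (N.subgroupOf K).index := by
          rw [hcs, hix]
          apply Nat.Coprime.symm
          apply Nat.coprime_of_dvd
          intro s hsp h2 h3
          apply hπ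
          rw [← hNp s hsp h3]
          exact hZ1 s hsp h2
        obtain ⟨Y0, hY0⟩ := Subgroup.exists_right_complement'_of_coprime hcop
        have hY0c : Nat.card Y0 = Nat.card Z := by
          have h2 := hY0.card_mul
          rw [hcs, hKc, mul_comm (Nat.card Z)] at h2
          exact Nat.eq_of_mul_eq_mul_left hN0' h2
        refine ⟨Y0.map K.subtype, fun s hsp hd => ?_, fun s hsp hπs hd => ?_⟩
        · rw [Subgroup.card_map_of_injective K.subtype_injective, hY0c] at hd
          exact hZ1 s hsp hd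
        · rw [Subgroup.index_map_subtype, hKi] at hd
          rcases (Nat.Prime.dvd_mul hsp).1 hd with h2 | h2
          · have h3 : Y0.index = Nat.card N := by
              have h4 := Subgroup.card_mul_index Y0
              have hZ0 : 0 < Nat.card Z := Nat.card_pos
              rw [hY0c, hKc] at h4
              exact Nat.eq_of_mul_eq_mul_left hZ0 h4
            rw [h3] at h2
            apply hπ
            rw [← hNp s hsp h2]
            exact hπs
          · exact hZ2 s hsp hπs h2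

/-- (zd, size 4) Hall subgroups of a solvable group. PROOF. Induction on `card G`. `G` trivial: `⊤`. Otherwise `r`, `N` of
`tz_min` (`N` is an `r`-group). Induction gives `Z` in `G ⧸ N`; `K` = the preimage of `Z` in `G`, `K.index = Z.index`,
`card K = card Z * card N`. If `π r`: take `Y = K`. If `¬ π r`: `card N` is a power of `r` and `r ∤ card Z`, so
`card N` and the index of `N` in `K` are coprime; Schur-Zassenhaus in `K` (Mathlib
`Subgroup.exists_right_complement'_of_coprime`) gives a complement `Y` of `N` in `K`: `card Y = card Z`,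
`Y.index = K.index * card N`. -/
theorem tz_hall {G : Type} [Group G] [Finite G] (hs : Group.IsSolvable G) (π : ℕ → Prop) :
    ∃ Y : Subgroup G, (∀ r : ℕ, r.Prime → r ∣ Nat.card Y → π r) ∧
      ∀ r : ℕ, r.Prime → π r → ¬ r ∣ Y.index := by
  exact zd_ind _ G hs π le_rfl
-- END zd

-- BEGIN ze
/-- (ze, size 2) PROOF. `MulAut N` has `φ (card N)` elements (Mathlib `IsCyclic.card_mulAut`). The conjugation by `x` is an
element of `MulAut N` (`MulAut.conjNormal`) whose order divides `k` and `φ (card N)`, so it is `1`. -/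
theorem tz_aut {G : Type} [Group G] [Finite G] (N : Subgroup G) (hN : N.Normal) (hc : IsCyclic N)
    (k : ℕ) (x : G) (hx : x ^ k = 1) (hk : Nat.Coprime k (Nat.totient (Nat.card N))) :
    ∀ n ∈ N, x * n = n * x := by
  intro n hn
  have h1 : (MulAut.conjNormal x : MulAut N) ^ k = 1 := by
    rw [← map_pow, hx, map_one]
  have h2 : orderOf (MulAut.conjNormal x : MulAut N) ∣ k := orderOf_dvd_of_pow_eq_one h1
  have h3 : orderOf (MulAut.conjNormal x : MulAut N) ∣ Nat.totient (Nat.card N) := by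
    rw [← IsCyclic.card_mulAut N]
    exact orderOf_dvd_natCard _
  have h4 : orderOf (MulAut.conjNormal x : MulAut N) = 1 := by
    have h5 := Nat.dvd_gcd h2 h3
    rw [Nat.Coprime.gcd_eq_one hk] at h5
    exact Nat.dvd_one.1 h5
  have h6 : (MulAut.conjNormal x : MulAut N) = 1 := orderOf_eq_one_iff.1 h4
  have h7 := congrArg (fun f : MulAut N => ((f ⟨n, hn⟩ : N) : G)) h6
  have h8 : x * n * x⁻¹ = n := by
    simpa using h7
  exact mul_inv_eq_iff_eq_mul.1 h8
-- END ze

section
variable {q : ℕ} [Fact q.Prime] {M W : Type} [Group M] [Finite M] [AddCommGroup W]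
  [Module (ZMod q) W] [Finite W] [Nontrivial W] {ρ : Representation (ZMod q) M W}

-- BEGIN zf
private theorem zf_mod {z : ℕ} (hz : z.Prime) (g : M) (hg : g ^ z = 1)
    (V : Submodule (ZMod q) W) (hV : ∀ v ∈ V, ρ g v ∈ V) :
    Nat.card V ≡ Nat.card {v : V // ρ g (v : W) = v} [MOD z] := by
  classical
  have : Fact z.Prime := ⟨hz⟩
  have : Fintype V := Fintype.ofFinite V
  let f : Function.End V := fun v => ⟨ρ g v, hV v v.2⟩
  have hf : ∀ n : ℕ, ∀ v : V, ((f ^ n) v : W) = ρ (g ^ n) v := by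
    intro n
    induction n with
    | zero =>
      intro v
      rw [pow_zero, pow_zero, map_one]
      rfl
    | succ n ih =>
      intro v
      rw [pow_succ', pow_succ', map_mul, Module.End.mul_apply, ← ih v]
      rfl
  have h1 : f ^ z ^ 1 = 1 := by
    funext v
    apply Subtype.ext
    rw [hf, pow_one, hg, map_one]
    rfl
  have h2 := Equiv.Perm.card_fixedPoints_modEq (f := f) (p := z) (n := 1) h1
  rw [Nat.card_eq_fintype_card]
  refine h2.trans ?_
  rw [← Nat.card_eq_fintype_card]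
  have e : Function.fixedPoints f ≃ {v : V // ρ g (v : W) = v} :=
    Equiv.subtypeEquivRight fun v => by
      constructor
      · intro h
        have h3 : f v = v := h
        exact congrArg Subtype.val h3
      · intro h
        exact (Subtype.ext h : f v = v)
  rw [Nat.card_congr e]

/-- (zf, size 3) An element of order `z` is irreducible. PROOF. For a finite set with an action of the `z`-group
`Subgroup.zpowers g` the number of elements is that of the fixed points mod `z` (Mathlib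
`IsPGroup.card_modEq_card_fixedPoints`). (1) On `W`: the fixed vectors are a subspace of order `q ^ j`, `j < d` by `hg1`, so
`z ∣ q ^ d - q ^ j = q ^ j * (q ^ (d - j) - 1)`, `z ∤ q` (`dv`, `0 < d`), so `z ∣ q ^ (d - j) - 1` and `j = 0` (`no`): no fixed
vector except `0`. (2) On `V`, of order `q ^ i`: `z ∣ q ^ i - 1`, so `i = 0` or `i = d` (`no`). -/
theorem tz_irr {d z : ℕ} (hd : Nat.card W = q ^ d) (hz : Zp q d z) (g : M) (hg : g ^ z = 1)
    (hg1 : ∃ w, ρ g w ≠ w) (V : Submodule (ZMod q) W) (hV : ∀ v ∈ V, ρ g v ∈ V) :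
    V = ⊥ ∨ V = ⊤ := by
  have hq : q.Prime := Fact.out
  have hcd : ∀ T : Submodule (ZMod q) W, ∃ i, i ≤ d ∧ Nat.card T = q ^ i ∧ (i = d → T = ⊤) := by
    intro T
    have h1 : Nat.card T ∣ q ^ d := by
      rw [← hd]
      exact T.toAddSubgroup.card_addSubgroup_dvd_card
    obtain ⟨i, hi, hT⟩ := (Nat.dvd_prime_pow hq).1 h1
    refine ⟨i, hi, hT, ?_⟩
    rintro rfl
    have h2 : Nat.card T.toAddSubgroup = Nat.card W := by
      rw [hd]; exact hT
    have h3 := AddSubgroup.eq_top_of_card_eq T.toAddSubgroup h2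
    rw [eq_top_iff]
    intro w _
    have h4 : w ∈ T.toAddSubgroup := by rw [h3]; trivial
    exact h4
  have hd0 : 0 < d := by
    rcases Nat.eq_zero_or_pos d with h0 | h0
    · rw [h0, pow_zero] at hd
      exact absurd hd (Finite.one_lt_card (α := W)).ne'
    · exact h0
  have hzq : ¬ z ∣ q := by
    intro h1
    have h2 : z ∣ q ^ d := dvd_pow h1 hd0.ne'
    have h3 : z ∣ q ^ d - (q ^ d - 1) := Nat.dvd_sub h2 hz.dv
    have h4 : 0 < q ^ d := pow_pos hq.pos _
    rw [show q ^ d - (q ^ d - 1) = 1 by omega] at h3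
    exact hz.pr.one_lt.ne' (Nat.dvd_one.1 h3)
  -- the fixed vectors
  let Fx : Submodule (ZMod q) W := LinearMap.eqLocus (ρ g) LinearMap.id
  have hFx : ∀ w, w ∈ Fx ↔ ρ g w = w := fun w => Iff.rfl
  obtain ⟨j, hj, hFj, hjd⟩ := hcd Fx
  have hjlt : j < d := by
    rcases Nat.lt_or_ge j d with h1 | h1
    · exact h1
    · exfalso
      obtain ⟨w, hw⟩ := hg1
      apply hw
      rw [← hFx, hjd (le_antisymm hj h1)]
      trivial
  have hj0 : j = 0 := by
    by_contra hj0
    have h1 := zf_mod hz.pr g hg (ρ := ρ) ⊤ (fun v _ => trivial)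
    have e1 : Nat.card (⊤ : Submodule (ZMod q) W) = q ^ d := by
      rw [← hd]
      exact Nat.card_congr (Equiv.subtypeUnivEquiv fun x => trivial)
    have e2 : Nat.card {v : (⊤ : Submodule (ZMod q) W) // ρ g (v : W) = v} = q ^ j := by
      rw [← hFj]
      refine Nat.card_congr ⟨fun v => ⟨(v : (⊤ : Submodule (ZMod q) W)), v.2⟩,
        fun w => ⟨⟨w, trivial⟩, w.2⟩, fun v => rfl, fun w => rfl⟩
    rw [e1, e2] at h1
    have h2 : z ∣ q ^ d - q ^ j := (Nat.modEq_iff_dvd' (pow_le_pow_right₀ hq.one_lt.le hj)).1 h1.symm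
    have h3 : q ^ d - q ^ j = q ^ j * (q ^ (d - j) - 1) := by
      rw [Nat.mul_sub, mul_one, ← pow_add, Nat.add_sub_cancel' hj]
    rw [h3] at h2
    rcases hz.pr.dvd_mul.1 h2 with h4 | h4
    · exact hzq (hz.pr.dvd_of_dvd_pow h4)
    · exact hz.no (d - j) (by omega) (by omega) h4
  have hFbot : ∀ w, ρ g w = w → w = 0 := by
    intro w hw
    rw [hj0, pow_zero] at hFj
    have h1 : Subsingleton Fx := (Nat.card_eq_one_iff_unique.1 hFj).1
    have h2 : (⟨w, (hFx w).2 hw⟩ : Fx) = 0 := Subsingleton.elim _ _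
    exact congrArg Subtype.val h2
  obtain ⟨i, hi, hVi, hid⟩ := hcd V
  have h1 := zf_mod hz.pr g hg (ρ := ρ) V hV
  have e1 : Nat.card {v : V // ρ g (v : W) = v} = 1 := by
    rw [Nat.card_eq_one_iff_unique]
    refine ⟨⟨fun a b => ?_⟩, ⟨⟨0, by simp⟩⟩⟩
    apply Subtype.ext
    apply Subtype.ext
    rw [hFbot _ a.2, hFbot _ b.2]
  rw [e1, hVi] at h1
  have h2 : z ∣ q ^ i - 1 := (Nat.modEq_iff_dvd' (Nat.one_le_pow _ _ hq.pos)).1 h1.symm
  rcases Nat.eq_zero_or_pos i with h3 | h3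
  · left
    rw [h3, pow_zero] at hVi
    have h4 : Subsingleton V := (Nat.card_eq_one_iff_unique.1 hVi).1
    rw [Submodule.eq_bot_iff]
    intro v hv
    have h5 : (⟨v, hv⟩ : V) = 0 := Subsingleton.elim _ _
    exact congrArg Subtype.val h5
  · right
    apply hid
    rcases Nat.lt_or_ge i d with h4 | h4
    · exact absurd h2 (hz.no i h3 h4)
    · exact le_antisymm hi h4
-- END zf

-- BEGIN zg
/-- (zg, size 4) The partition. PROOF. `n` = the number of Sylow 3-subgroups of `M`, `n % 3 = 1`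
(Mathlib `card_sylow_modEq_one`), `n ∣ card M`. The fixed space `C P` of a Sylow 3-subgroup `P` has `c = q ^ b` elements,
independent of `P` (they are conjugate, `C (g P) = ρ g (C P)`). By `hP` the nonzero vectors are the disjoint union of the
`C P - 0`: `n * (c - 1) = q ^ d - 1`. `c > 1` (`W` is nontrivial, so the left hand side is not `0`), so `b > 0`. By `hnt` some
`C P ≠ W`, so `b < d`. If `d ≤ 2`, then `d = 2`, `b = 1`, `n = q + 1`, so `3 ∣ q`, `q = 3`, contradiction to `h5`. So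
`3 ≤ d`. If `Zp q d z`: `z ∣ n * (q ^ b - 1)` and `z ∤ q ^ b - 1`, so `z ∣ n ∣ card M`. -/
theorem tz_ptn {d : ℕ} (h5 : 5 ≤ q) (hd : Nat.card W = q ^ d)
    (hP : ∀ w : W, w ≠ 0 → ∃! P : Sylow 3 M, ∀ x ∈ (P : Subgroup M), ρ x w = w)
    (hnt : ∃ P : Sylow 3 M, ∃ x ∈ (P : Subgroup M), ∃ w, ρ x w ≠ w) :
    3 ≤ d ∧ ∀ z, Zp q d z → z ∣ Nat.card M := by
  classical
  have hq : q.Prime := Fact.out
  have h3 : Fact (Nat.Prime 3) := ⟨Nat.prime_three⟩
  let C : Sylow 3 M → Submodule (ZMod q) W := fun P =>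
    { carrier := {w | ∀ x ∈ (P : Subgroup M), ρ x w = w}
      add_mem' := fun {a b} ha hb x hx => by rw [map_add, ha x hx, hb x hx]
      zero_mem' := fun x _ => map_zero _
      smul_mem' := fun r a ha x hx => by rw [map_smul, ha x hx] }
  have hC : ∀ P w, w ∈ C P ↔ ∀ x ∈ (P : Subgroup M), ρ x w = w := fun P w => Iff.rfl
  have hinj : ∀ g : M, Function.Injective (ρ g) := by
    intro g a b h
    have h1 : ρ g⁻¹ (ρ g a) = ρ g⁻¹ (ρ g b) := by rw [h]
    rw [← Module.End.mul_apply, ← Module.End.mul_apply, ← map_mul, inv_mul_cancel, map_one] at h1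
    exact h1
  have hle : ∀ P Q : Sylow 3 M, Nat.card (C P) ≤ Nat.card (C Q) := by
    intro P Q
    obtain ⟨g, rfl⟩ := MulAction.exists_smul_eq M P Q
    refine Nat.card_le_card_of_injective (fun w : C P => (⟨ρ g w, ?_⟩ : C (g • P))) ?_
    · intro x hx
      have hx' : g⁻¹ * x * g ∈ (P : Subgroup M) := by
        rw [Sylow.smul_def, Sylow.pointwise_smul_def, Subgroup.mem_pointwise_smul_iff_inv_smul_mem] at hx
        simpa [mul_assoc] using hx
      have h1 := w.2 _ hx'
      calc ρ x (ρ g w) = ρ g (ρ (g⁻¹ * x * g) w) := by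
            rw [← Module.End.mul_apply, ← Module.End.mul_apply, ← map_mul, ← map_mul]
            congr 2
            group
        _ = ρ g w := by rw [h1]
    · intro a b h
      have h1 : ρ g (a : W) = ρ g (b : W) := congrArg Subtype.val h
      exact Subtype.ext (hinj g h1)
  obtain ⟨P0, x0, hx0, w0, hw0⟩ := hnt
  have hcc : ∀ P : Sylow 3 M, Nat.card (C P) = Nat.card (C P0) := fun P => le_antisymm (hle _ _) (hle _ _)
  -- the partition
  let e : {w : W // w ≠ 0} ≃ Σ P : Sylow 3 M, {w : W // w ∈ C P ∧ w ≠ 0} :=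
    { toFun := fun w => ⟨(hP w.1 w.2).choose, ⟨w.1, (hP w.1 w.2).choose_spec.1, w.2⟩⟩
      invFun := fun s => ⟨s.2.1, s.2.2.2⟩
      left_inv := fun w => rfl
      right_inv := fun s => by
        refine Sigma.subtype_ext ?_ rfl
        exact ((hP s.2.1 s.2.2.2).choose_spec.2 s.1 s.2.2.1).symm }
  have hfin : Fintype (Sylow 3 M) := Fintype.ofFinite _
  have hc1 : ∀ P : Sylow 3 M, Nat.card {w : W // w ∈ C P ∧ w ≠ 0} = Nat.card (C P0) - 1 := by
    intro P
    rw [← hcc P]
    have h1 : ({w : W | w ∈ C P ∧ w ≠ 0} : Set W) = (C P : Set W) \ {0} := by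
      ext w
      simp
    have h2 : Nat.card {w : W // w ∈ C P ∧ w ≠ 0} = Set.ncard ((C P : Set W) \ {0}) := by
      rw [← h1]
      rfl
    rw [h2, Set.ncard_sdiff_singleton_of_mem (C P).zero_mem]
    rfl
  have hW : Nat.card {w : W // w ≠ 0} = q ^ d - 1 := by
    have h1 : Nat.card {w : W // w ≠ 0} = Set.ncard ((Set.univ : Set W) \ {0}) := by
      have : ((Set.univ : Set W) \ {0}) = {w : W | w ≠ 0} := by
        ext w
        simp
      rw [this]
      rfl
    rw [h1, Set.ncard_sdiff_singleton_of_mem (Set.mem_univ _), Set.ncard_univ, hd]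
  have hmul : Nat.card (Sylow 3 M) * (Nat.card (C P0) - 1) = q ^ d - 1 := by
    rw [← hW, Nat.card_congr e, Nat.card_sigma, Finset.sum_congr rfl (fun P _ => hc1 P), Finset.sum_const,
      Finset.card_univ, smul_eq_mul, Nat.card_eq_fintype_card]
  obtain ⟨b, hb⟩ : ∃ b, Nat.card (C P0) = q ^ b := by
    refine ⟨Module.finrank (ZMod q) (C P0), ?_⟩
    rw [Module.natCard_eq_pow_finrank (K := ZMod q), Nat.card_zmod]
  rw [hb] at hmul
  have hW1 : 1 < q ^ d := by
    rw [← hd]
    exact Finite.one_lt_card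
  have hb0 : 0 < b := by
    rcases Nat.eq_zero_or_pos b with h | h
    · rw [h, pow_zero, Nat.sub_self, mul_zero] at hmul
      omega
    · exact h
  have hbd : b < d := by
    rw [← Nat.pow_lt_pow_iff_right hq.one_lt, ← hb, ← hd]
    refine lt_of_le_of_ne (Nat.card_le_card_of_injective _ (Subtype.val_injective)) ?_
    intro h
    have h1 : (C P0 : Set W) = Set.univ := by
      refine Set.eq_of_subset_of_ncard_le (Set.subset_univ _) ?_
      rw [Set.ncard_univ, ← h]
      exact le_of_eq rfl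
    have h2 : w0 ∈ C P0 := by
      have : w0 ∈ (C P0 : Set W) := by rw [h1]; trivial
      exact this
    exact hw0 (h2 x0 hx0)
  constructor
  · by_contra hlt
    have hd2 : d = 2 := by omega
    have hb1 : b = 1 := by omega
    subst hd2
    subst hb1
    have h1 : Nat.card (Sylow 3 M) * (q - 1) = (q + 1) * (q - 1) := by
      rw [pow_one] at hmul
      rw [hmul]
      obtain ⟨t, rfl⟩ : ∃ t, q = t + 1 := ⟨q - 1, by omega⟩
      have e1 : (t + 1) ^ 2 - 1 = (t + 1 + 1) * t := by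
        have : (t + 1) ^ 2 = (t + 1 + 1) * t + 1 := by ring
        omega
      rw [e1]
      simp
    have h2 : Nat.card (Sylow 3 M) = q + 1 := Nat.eq_of_mul_eq_mul_right (by omega) h1
    have h3' := card_sylow_modEq_one 3 M
    rw [h2] at h3'
    have h4 : 3 ∣ q := by
      unfold Nat.ModEq at h3'
      omega
    have h6 := (Nat.prime_dvd_prime_iff_eq Nat.prime_three hq).1 h4
    omega
  · intro z hz
    have h1 : z ∣ Nat.card (Sylow 3 M) * (q ^ b - 1) := by
      rw [hmul]
      exact hz.dv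
    have h2 : z ∣ Nat.card (Sylow 3 M) := by
      rcases hz.pr.dvd_mul.1 h1 with h | h
      · exact h
      · exact absurd h (hz.no b hb0 hbd)
    refine h2.trans ?_
    rw [Sylow.card_eq_index_normalizer P0]
    exact Subgroup.index_dvd_card _
-- END zg

-- BEGIN zh
omit [Finite M] [Finite W] [Nontrivial W] in
private theorem zh_fix (hP : ∀ P : Sylow 3 M, ∃ w : W, w ≠ 0 ∧ ∀ x ∈ (P : Subgroup M), ρ x w = w)
    (R : Subgroup M) (hR : IsPGroup 3 R) : ∃ w : W, w ≠ 0 ∧ ∀ x ∈ R, ρ x w = w := by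
  obtain ⟨P, hPR⟩ := hR.exists_le_sylow
  obtain ⟨w, hw, h⟩ := hP P
  exact ⟨w, hw, fun x hx => h x (hPR hx)⟩

private theorem zh_top (hf : ∀ g, (∀ w, ρ g w = w) → g = 1) {d z : ℕ} (hd : Nat.card W = q ^ d)
    (hz : Zp q d z) (hP : ∀ P : Sylow 3 M, ∃ w : W, w ≠ 0 ∧ ∀ x ∈ (P : Subgroup M), ρ x w = w)
    (R : Subgroup M) (hR : IsPGroup 3 R) (g : M) (hg : g ^ z = 1) (hg1 : g ≠ 1)
    (hgR : ∀ r ∈ R, g⁻¹ * r * g ∈ R) : R = ⊥ := by
  obtain ⟨w, hw, hRw⟩ := zh_fix (ρ := ρ) hP R hR
  let V : Submodule (ZMod q) W :=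
    { carrier := {v | ∀ x ∈ R, ρ x v = v}
      zero_mem' := fun x _ => map_zero _
      add_mem' := by
        intro a b ha hb x hx
        rw [map_add, ha x hx, hb x hx]
      smul_mem' := by
        intro c a ha x hx
        rw [map_smul, ha x hx] }
  have hV : ∀ v ∈ V, ρ g v ∈ V := by
    intro v hv x hx
    have h1 : ρ (g⁻¹ * x * g) v = v := hv _ (hgR x hx)
    have h2 : x * g = g * (g⁻¹ * x * g) := by group
    calc ρ x (ρ g v) = ρ (x * g) v := by rw [map_mul]; rfl
      _ = ρ (g * (g⁻¹ * x * g)) v := by rw [h2]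
      _ = ρ g (ρ (g⁻¹ * x * g) v) := by rw [map_mul]; rfl
      _ = ρ g v := by rw [h1]
  have hg2 : ∃ w, ρ g w ≠ w := by
    by_contra hcon
    push Not at hcon
    exact hg1 (hf g hcon)
  rcases tz_irr hd hz g hg hg2 V hV with h | h
  · exfalso
    have : w ∈ V := hRw
    rw [h, Submodule.mem_bot] at this
    exact hw this
  · rw [Subgroup.eq_bot_iff_forall]
    intro x hx
    refine hf x fun v => ?_
    have : v ∈ V := by rw [h]; trivial
    exact this x hx

private theorem zh_cyc (hf : ∀ g, (∀ w, ρ g w = w) → g = 1) {d z : ℕ} (hd : Nat.card W = q ^ d)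
    (hz : Zp q d z) (N : Subgroup M) (hc : ∀ a ∈ N, ∀ b ∈ N, a * b = b * a)
    (hN : ∀ n ∈ N, n ^ z = 1) (hN1 : N ≠ ⊥) : IsCyclic N := by
  obtain ⟨n, hn, hn1⟩ := (Subgroup.ne_bot_iff_exists_ne_one).1 hN1 |>.elim fun a ha =>
    (⟨(a : M), a.2, fun h => ha (Subtype.ext h)⟩ : ∃ n : M, n ∈ N ∧ n ≠ 1)
  have hg2 : ∃ w, ρ n w ≠ w := by
    by_contra hcon
    push Not at hcon
    exact hn1 (hf n hcon)
  let ρ' : Representation (ZMod q) N W := ρ.comp N.subtype
  have habt : Ab (⊤ : Subgroup N) := ⟨inferInstance, fun a _ b _ => Subtype.ext (hc a a.2 b b.2)⟩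
  have hqp : QP ρ' (⊤ : Subgroup N) := by
    refine ⟨fun h hh => Subtype.ext (hf h hh), ?_, habt, fun N' _ _ => le_top⟩
    intro N' _ y hy
    have hy' : y ∈ AA ρ' (⊤ : Subgroup N) := by
      refine Algebra.adjoin_mono ?_ hy
      exact Set.image_mono (fun x _ => Subgroup.mem_top x)
    have hnm : ρ' ⟨n, hn⟩ ∈ AA ρ' (⊤ : Subgroup N) :=
      Algebra.subset_adjoin ⟨⟨n, hn⟩, Subgroup.mem_top _, rfl⟩
    have hcm : y * ρ' ⟨n, hn⟩ = ρ' ⟨n, hn⟩ * y := aa_comm habt _ _ hy' hnm
    have hV : ∀ v ∈ LinearMap.ker y, ρ n v ∈ LinearMap.ker y := by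
      intro v hv
      rw [LinearMap.mem_ker] at hv ⊢
      have h1 : y (ρ n v) = ρ n (y v) := LinearMap.congr_fun hcm v
      rw [h1, hv, map_zero]
    rcases tz_irr hd hz n (hN n hn) hg2 (LinearMap.ker y) hV with h | h
    · right
      intro w hw
      have : w ∈ LinearMap.ker y := hw
      rw [h, Submodule.mem_bot] at this
      exact this
    · left
      exact LinearMap.ker_eq_top.1 h
  have h1 : IsCyclic (⊤ : Subgroup N) := qp_cyc hqp
  exact isCyclic_of_surjective (Subgroup.topEquiv (G := N)) (MulEquiv.surjective _)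

/-- (zh, size 5) PROOF. Suppose `3 ∤ z - 1`. `Y` = a Hall subgroup of `M` for the primes `3`, `z` (`tz_hall`). It contains a
Sylow 3-subgroup `P` of `M` (`3 ∤ Y.index`; `P ≠ ⊥` by `h3M`) and an element `g` of order `z`. (1) `Y` has no normal
subgroup `N ≠ 1` with `n ^ 3 = 1` for all `n ∈ N`: `N` is in all Sylow 3-subgroups of `Y`, these are Sylow in `M`, so they
have a nonzero fixed vector (`hP`); the space of the fixed vectors of `N` is invariant under `Y ∋ g` and nonzero, so it is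
`W` (`tz_irr`), `N = 1` by `hf`. (2) `tz_min` for `Y` gives `r`, `N`; `r ∣ card Y`, so `r = 3` or `r = z`; `r = 3` is
impossible by (1), so `r = z`, `N` is a commutative normal subgroup of `Y`, `n ^ z = 1` for `n ∈ N`. Every subspace
which is invariant under one `n ∈ N`, `n ≠ 1`, is `⊥` or `⊤` (`tz_irr`). (3) `N` is cyclic: it is a finite group of units
of the commutative ring without zero divisors `AA ρ N` (the kernel of an element of `AA ρ N` is invariant under `N`);
or: `QP` for the representation of the group `N` and `U = ⊤`, then `qp_cyc`. So `card N = z`, `φ(z) = z - 1` is prime to `3`.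
(4) By `tz_aut` (in the group `Y`, `k` = the order of `x`, a power of `3`) every `x ∈ P` commutes with `N`; `P` fixes a vector
`w ≠ 0` (`hP`), so the space of the fixed vectors of `x` is nonzero and invariant under `N`, so it is `W`, `x = 1`:
`P = ⊥`, contradiction. -/
theorem tz_dvz {d z : ℕ} (hs : Group.IsSolvable M) (hd : Nat.card W = q ^ d) (hz : Zp q d z)
    (h3 : z ≠ 3) (hf : ∀ g, (∀ w, ρ g w = w) → g = 1) (hzM : z ∣ Nat.card M)
    (hP : ∀ P : Sylow 3 M, ∃ w : W, w ≠ 0 ∧ ∀ x ∈ (P : Subgroup M), ρ x w = w)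
    (h3M : 3 ∣ Nat.card M) : 3 ∣ z - 1 := by
  by_contra hn
  have hs' : Group.IsSolvable M := hs
  have hp3 : Nat.Prime 3 := Nat.prime_three
  have hpz : z.Prime := hz.pr
  have hF3 : Fact (Nat.Prime 3) := ⟨hp3⟩
  have hFz : Fact (Nat.Prime z) := ⟨hpz⟩
  obtain ⟨Y, hY1, hY2⟩ := tz_hall hs (fun r => r = 3 ∨ r = z)
  have hdv : ∀ r : ℕ, r.Prime → (r = 3 ∨ r = z) → r ∣ Nat.card M → r ∣ Nat.card Y := by
    intro r hr hr1 hr2
    rw [← Subgroup.card_mul_index Y] at hr2
    exact (hr.dvd_mul.1 hr2).resolve_right (hY2 r hr hr1)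
  obtain ⟨x, hx⟩ := exists_prime_orderOf_dvd_card' (G := Y) 3 (hdv 3 hp3 (Or.inl rfl) h3M)
  obtain ⟨g, hg⟩ := exists_prime_orderOf_dvd_card' (G := Y) z (hdv z hpz (Or.inr rfl) hzM)
  have hgz : (g : M) ^ z = 1 := by
    have h1 : g ^ z = 1 := by rw [← hg]; exact pow_orderOf_eq_one g
    have h2 := congrArg Subtype.val h1
    simpa using h2
  have hg1 : (g : M) ≠ 1 := by
    intro h1
    have h2 : g = 1 := Subtype.ext h1
    rw [h2, orderOf_one] at hg
    exact hpz.one_lt.ne hg
  have hx1 : x ≠ 1 := by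
    intro h1
    rw [h1, orderOf_one] at hx
    omega
  have hnt : Nontrivial Y := ⟨⟨x, 1, hx1⟩⟩
  obtain ⟨r, N, hr, hNab, hN1, hNr⟩ := tz_min (G := Y) inferInstance
  obtain ⟨n, hn0, hn1⟩ : ∃ n : Y, n ∈ N ∧ n ≠ 1 := by
    obtain ⟨a, ha⟩ := (Subgroup.ne_bot_iff_exists_ne_one).1 hN1
    exact ⟨a, a.2, fun h => ha (Subtype.ext h)⟩
  have hFr : Fact (Nat.Prime r) := ⟨hr⟩
  have hon : orderOf n = r := orderOf_eq_prime (hNr n hn0) hn1
  have hrY : r ∣ Nat.card Y := by rw [← hon]; exact orderOf_dvd_natCard n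
  rcases hY1 r hr hrY with h | h
  · -- `r = 3`
    subst h
    have hR : IsPGroup 3 (N.map Y.subtype) := by
      have h1 : IsPGroup 3 N := fun m => ⟨1, by
        rw [pow_one]
        exact Subtype.ext (hNr m m.2)⟩
      exact h1.map Y.subtype
    have h2 := zh_top (ρ := ρ) hf hd hz hP (N.map Y.subtype) hR g hgz hg1 (by
      rintro _ ⟨m, hm, rfl⟩
      refine ⟨g⁻¹ * m * g, ?_, by simp⟩
      have := hNab.nor.conj_mem m hm g⁻¹
      simpa using this)
    rw [Subgroup.map_eq_bot_iff_of_injective _ Y.subtype_injective] at h2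
    exact hN1 h2
  · subst h
    -- `r = z`
    have hnM : ∀ m ∈ N.map Y.subtype, m ^ r = 1 := by
      rintro _ ⟨m, hm, rfl⟩
      rw [← map_pow, hNr m hm, map_one]
    have hcM : ∀ a ∈ N.map Y.subtype, ∀ b ∈ N.map Y.subtype, a * b = b * a := by
      rintro _ ⟨a, ha, rfl⟩ _ ⟨b, hb, rfl⟩
      rw [← map_mul, ← map_mul, hNab.com a ha b hb]
    have hbM : N.map Y.subtype ≠ ⊥ := by
      rw [ne_eq, Subgroup.map_eq_bot_iff_of_injective _ Y.subtype_injective]
      exact hN1
    have hcy : IsCyclic (N.map Y.subtype) := zh_cyc (ρ := ρ) hf hd hz _ hcM hnM hbM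
    have hcy' : IsCyclic N :=
      isCyclic_of_surjective (N.equivMapOfInjective Y.subtype Y.subtype_injective).symm
        (MulEquiv.surjective _)
    have hcard : Nat.card N = r := by
      obtain ⟨c, hc⟩ := IsCyclic.exists_generator (α := N)
      have h1 : orderOf c = Nat.card N := orderOf_eq_card_of_forall_mem_zpowers hc
      rw [← h1]
      refine orderOf_eq_prime (Subtype.ext (hNr c c.2)) ?_
      intro h2
      have h3' := hc ⟨n, hn0⟩
      rw [h2, Subgroup.zpowers_one_eq_bot, Subgroup.mem_bot] at h3'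
      exact hn1 (congrArg Subtype.val h3')
    have hcop : Nat.Coprime 3 (Nat.totient (Nat.card N)) := by
      rw [hcard, Nat.totient_prime hr]
      exact (Nat.Prime.coprime_iff_not_dvd hp3).2 hn
    have hx3 : x ^ 3 = 1 := by rw [← hx]; exact pow_orderOf_eq_one x
    have hcx := tz_aut N hNab.nor hcy' 3 x hx3 hcop
    have hR : IsPGroup 3 (Subgroup.zpowers (x : M)) := by
      rw [IsPGroup.iff_card]
      refine ⟨1, ?_⟩
      rw [Nat.card_zpowers, Subgroup.orderOf_coe, hx, pow_one]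
    have h2 := zh_top (ρ := ρ) hf hd hz hP (Subgroup.zpowers (x : M)) hR n (by
      have := congrArg Subtype.val (hNr n hn0)
      simpa using this) (fun h => hn1 (Subtype.ext h)) (by
      intro y hy
      have h3' : (n : M) * x = x * n := by
        have := congrArg Subtype.val (hcx n hn0)
        simpa using this.symm
      have h4 : (n : M) * y = y * n := by
        obtain ⟨k, rfl⟩ := hy
        exact (Commute.zpow_right (show Commute (n : M) (x : M) from h3') k)
      have h5 : (n : M)⁻¹ * y * n = y := by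
        rw [mul_assoc, ← h4, inv_mul_cancel_left]
      rw [h5]
      exact hy)
    rw [Subgroup.zpowers_eq_bot] at h2
    exact hx1 (Subtype.ext h2)
-- END zh

-- BEGIN zi
/-- (zi, size 4) PROOF. `ρ` is irreducible: `tz_irr`. `bs_ex` (Nas/Bs.lean) gives blocks `B j`, `j : J`, and `UU j`. The blocks
are independent and nonzero, so `card J ≤ dim W = d < z` (Mathlib `iSupIndep.subtype_ne_bot_le_finrank`;
`card W = q ^ d`). `g` permutes the blocks (`prm`), its orbits on `J` have `1` or `z` elements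
(`g ^ z = 1`, `z` prime), so `g` fixes every block: `(B j).map (ρ g) = B j`, so `B j` is invariant under `g`, nonzero, so
`B j = ⊤` (`tz_irr`). Take one `j` (`J` is nonempty by `sup`, `W` nontrivial), `U = UU j`, `Nm ρ (B j) = ⊤`. `fai` = `hf`; `fld`
= `qp`; `ab`: `uNor`, `uCom` and `hf`; `mx` = `uMax` (the same formulas with `B j = ⊤`). -/
theorem tz_qp {d z : ℕ} (hd : Nat.card W = q ^ d) (hz : Zp q d z) (hdz : d < z)
    (hf : ∀ g, (∀ w, ρ g w = w) → g = 1) (g : M) (hg : g ^ z = 1) (hg1 : g ≠ 1) :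
    ∃ U : Subgroup M, QP ρ U := by
  classical
  have hg2 : ∃ w, ρ g w ≠ w := by
    by_contra hno
    push Not at hno
    exact hg1 (hf g hno)
  have hirr : Irrd ρ ⊤ := fun V hV => tz_irr hd hz g hg hg2 V (hV g (Subgroup.mem_top g))
  obtain ⟨J, hJ, B, UU, hB⟩ := bs_ex hirr
  -- the number of the blocks
  have hdim : Module.finrank (ZMod q) W = d := by
    have h1 : Nat.card W = q ^ Module.finrank (ZMod q) W := by
      rw [Module.natCard_eq_pow_finrank (K := ZMod q), Nat.card_zmod]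
    rw [hd] at h1
    exact (Nat.pow_right_injective (Fact.out : q.Prime).two_le h1).symm
  have := Fintype.ofFinite J
  have hcJ : Fintype.card J ≤ d := by
    have : Fintype {i // B i ≠ ⊥} := Fintype.ofFinite _
    have h1 := hB.ind.subtype_ne_bot_le_finrank
    rw [hdim] at h1
    refine le_trans (Fintype.card_le_of_injective (fun j => (⟨j, hB.ne j⟩ : {i // B i ≠ ⊥})) ?_) h1
    intro j j' h
    exact congrArg Subtype.val h
  have hinj : Function.Injective B := hB.ind.injective hB.ne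
  have hmul : ∀ (V : Submodule (ZMod q) W) (a b : M),
      V.map (ρ (a * b)) = (V.map (ρ b)).map (ρ a) := fun V a b => by
    rw [map_mul]
    exact Submodule.map_comp _ _ _
  have hone : ∀ V : Submodule (ZMod q) W, V.map (ρ 1) = V := fun V => by
    rw [map_one]
    exact Submodule.map_id V
  choose σ hσ using hB.prm g
  have hit : ∀ (n : ℕ) (j : J), (B j).map (ρ (g ^ n)) = B (σ^[n] j) := by
    intro n
    induction n with
    | zero => intro j; rw [pow_zero, hone, Function.iterate_zero, id]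
    | succ n ih =>
      intro j
      rw [pow_succ', hmul, ih, hσ, Function.iterate_succ_apply']
  have hfix : ∀ j, (B j).map (ρ g) = B j := by
    intro j
    have h1 : Function.IsPeriodicPt σ z j := by
      refine hinj ?_
      rw [← hit, hg, hone]
    have h2 := h1.minimalPeriod_dvd
    rcases (Nat.dvd_prime hz.pr).1 h2 with h3 | h3
    · have h4 := Function.minimalPeriod_eq_one_iff_isFixedPt.1 h3
      rw [hσ, h4]
    · exfalso
      have h4 : (Finset.range z).card ≤ (Finset.univ : Finset J).card := by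
        refine Finset.card_le_card_of_injOn (fun n => σ^[n] j) (fun _ _ => Finset.mem_univ _) ?_
        have h5 := Function.iterate_injOn_Iio_minimalPeriod (f := σ) (x := j)
        rw [h3] at h5
        intro a ha b hb hab
        exact h5 (by simpa using ha) (by simpa using hb) hab
      rw [Finset.card_range, Finset.card_univ] at h4
      omega
  have hne : Nonempty J := by
    by_contra hno
    rw [not_nonempty_iff] at hno
    have h1 := hB.sup
    rw [iSup_of_empty] at h1
    exact bot_ne_top h1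
  obtain ⟨j⟩ := hne
  have htop : B j = ⊤ := by
    refine (tz_irr hd hz g hg hg2 (B j) ?_).resolve_left (hB.ne j)
    intro v hv
    have h1 : ρ g v ∈ (B j).map (ρ g) := Submodule.mem_map_of_mem hv
    rwa [hfix j] at h1
  have hNm : ∀ h : M, h ∈ Nm ρ (B j) := by
    intro h
    rw [mem_Nm, htop, eq_top_iff]
    intro v _
    refine ⟨ρ h⁻¹ v, trivial, ?_⟩
    rw [← Module.End.mul_apply, ← map_mul, mul_inv_cancel, map_one, Module.End.one_apply]
  have hmem : ∀ w : W, w ∈ B j := fun w => by rw [htop]; trivial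
  have hcm : ∀ a b : M, (∀ w, ρ a (ρ b w) = ρ b (ρ a w)) → a * b = b * a := by
    intro a b h
    have h1 : a * b * (b * a)⁻¹ = 1 := by
      apply hf
      intro w
      have h2 := h (ρ (b * a)⁻¹ w)
      rw [map_mul, map_mul, Module.End.mul_apply, Module.End.mul_apply, h2, ← Module.End.mul_apply, ← map_mul,
        ← Module.End.mul_apply, ← map_mul, mul_inv_cancel, map_one, Module.End.one_apply]
    exact mul_inv_eq_one.1 h1
  refine ⟨UU j, ⟨hf, ?_, ⟨⟨?_⟩, ?_⟩, ?_⟩⟩
  · intro N hN z' hz'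
    rcases hB.qp j N (fun h _ => hNm h) (fun h _ n hn => hN.nor.conj_mem n hn h)
      (fun a ha b hb w _ => by rw [← Module.End.mul_apply, ← map_mul, hN.com a ha b hb, map_mul,
        Module.End.mul_apply]) z' hz' with h | h
    · left
      ext w
      rw [h w (hmem w), LinearMap.zero_apply]
    · right
      exact fun w => h w (hmem w)
  · exact fun n hn h => hB.uNor j h (hNm h) n hn
  · exact fun a ha b hb => hcm a b (fun w => hB.uCom j a ha b hb w (hmem w))
  · intro N hN hle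
    exact hB.uMax j N (fun h _ => hNm h) (fun h _ n hn => hN.nor.conj_mem n hn h)
      (fun a ha b hb w _ => by rw [← Module.End.mul_apply, ← map_mul, hN.com a ha b hb, map_mul,
        Module.End.mul_apply]) hle
-- END zi

-- BEGIN zj
/-- (zj, size 5) PROOF. Suppose `x * y * x⁻¹ * y⁻¹ ∉ U`. It centralizes `U` (`qp_abq`). `E`, `n`, `M'` from `qp_E` (in Nas/St.lean),
`0 < n` (`pos`), so `E ≠ U` (`mU`, `mE`). `Prg U E` (fields of `SE` and `qp_cyc`), `sq_ex` (Nas/Sq.lean) gives `0 < e`,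
`U.relIndex E = e ^ 2`, so `e ≠ 1`. `qp_gal`: `card (AA ρ U) = q ^ a`, `0 < a`, `(centralizer U).index ∣ a`; `qp_dim`:
`(q ^ a) ^ e ≤ q ^ d`, so `a * e ≤ d < z`. (1) `g` centralizes `U`: `card (M ⧸ centralizer U) ∣ a` is prime to `z`
(`0 < a < z`), `g ^ z = 1`. (2) `g ∉ U`: otherwise fix `w ≠ 0`; `{r w | r ∈ AA ρ U}` is a nonzero subspace invariant under
`g`, so it is `W` (`tz_irr`), `q ^ d ≤ card (AA ρ U)`, so `d * e ≤ d`, `e = 1`, contradiction (`d > 0` as `W` is
nontrivial). (3) `z ∤ e` (`0 < e < z`), so `z` does not divide `card (E / U) = e ^ 2`, so `g ∉ E` (otherwise `g ∈ U`). (4)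
`prm_act` (Nas/Sq.lean) for `x = g`, `l = z`: a prime `s`, `0 < k`, `s ^ k ∣ e`, `z ∣ s ^ (2 * k) - 1 = (s ^ k - 1) (s ^ k + 1)`.
`s ^ k ≤ e ≤ d < z`, so `z ∣ s ^ k + 1 ≤ z`, `z = s ^ k + 1`, `s ^ k = z - 1` is divisible by `3`, so `s = 3`, so
`z - 1 = 3 ^ k` is odd, `z` is even, contradiction (`2 < z`). -/
theorem tz_abq {d z : ℕ} (hd : Nat.card W = q ^ d) (hz : Zp q d z) (hdz : d < z) (h2 : 2 < z)
    (h3 : 3 ∣ z - 1) {U : Subgroup M} (h : QP ρ U) (hs : Group.IsSolvable M) (g : M)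
    (hg : g ^ z = 1) (hg1 : g ≠ 1) (x y : M) : x * y * x⁻¹ * y⁻¹ ∈ U := by
  classical
  by_contra hc0
  have hzp := hz.pr
  have hU : U.Normal := h.ab.nor
  obtain ⟨E, n, M', hE⟩ := qp_E h hs
  have hcyc := qp_cyc h
  have hPrg : Prg U E := ⟨hcyc, hE.UE, hE.cU, hE.com, hE.cen⟩
  obtain ⟨e, he0, he, -⟩ := sq_ex hPrg
  have hcc : ∀ u ∈ U, (x * y * x⁻¹ * y⁻¹) * u = u * (x * y * x⁻¹ * y⁻¹) := fun u hu =>
    ((Subgroup.mem_centralizer_iff.mp (qp_abq h x y)) u hu).symm
  have hn : 0 < n := hE.pos ⟨_, hcc, hc0⟩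
  have he1 : e ≠ 1 := by
    rintro rfl
    rw [one_pow, Subgroup.relIndex_eq_one] at he
    exact absurd ((hE.mE ⟨0, hn⟩).trans he) (hE.mU ⟨0, hn⟩).not_ge
  have he2 : 2 ≤ e := by omega
  obtain ⟨a, ha0, -, hidx, hAA, -, -⟩ := qp_gal h
  have hdim := qp_dim h hE e he
  have hq1 : 1 < q := (Fact.out : q.Prime).one_lt
  rw [hAA, hd, ← pow_mul] at hdim
  have hae : a * e ≤ d := (Nat.pow_le_pow_iff_right hq1).mp hdim
  have had : a ≤ d := (Nat.le_mul_of_pos_right a he0).trans hae
  have hed : e ≤ d := (Nat.le_mul_of_pos_left e ha0).trans hae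
  -- (1)
  have hcen : g ∈ Subgroup.centralizer (U : Set M) := by
    have hCn : (Subgroup.centralizer (U : Set M)).Normal := inferInstance
    have h1 : ((g : M ⧸ Subgroup.centralizer (U : Set M))) ^ z = 1 := by
      rw [← QuotientGroup.mk_pow, hg, QuotientGroup.mk_one]
    have h4 : orderOf (g : M ⧸ Subgroup.centralizer (U : Set M)) ∣ z := orderOf_dvd_of_pow_eq_one h1
    have h5 : orderOf (g : M ⧸ Subgroup.centralizer (U : Set M)) ∣ a := by
      refine (orderOf_dvd_natCard _).trans ?_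
      rw [← Subgroup.index_eq_card]
      exact hidx
    rcases (Nat.dvd_prime hzp).mp h4 with h6 | h6
    · rw [orderOf_eq_one_iff] at h6
      exact (QuotientGroup.eq_one_iff g).mp h6
    · rw [h6] at h5
      exact absurd (Nat.le_of_dvd ha0 h5) (by omega)
  have hgU' : ∀ u ∈ U, g * u = u * g := fun u hu => ((Subgroup.mem_centralizer_iff.mp hcen) u hu).symm
  have hgw : ∃ w, ρ g w ≠ w := by
    by_contra h1
    push Not at h1
    exact hg1 (h.fai g h1)
  -- (2)
  have hgU : g ∉ U := by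
    intro hgU
    obtain ⟨w, hw⟩ := exists_ne (0 : W)
    let V : Submodule (ZMod q) W := (AA ρ U).toSubmodule.map (LinearMap.applyₗ w)
    have hV : ∀ v ∈ V, ρ g v ∈ V := by
      rintro v ⟨r, hr, rfl⟩
      refine ⟨ρ g * r, (AA ρ U).mul_mem (Algebra.subset_adjoin ⟨g, hgU, rfl⟩) hr, rfl⟩
    have hwV : w ∈ V := ⟨1, (AA ρ U).one_mem, rfl⟩
    rcases tz_irr hd hz g hg hgw V hV with h1 | h1
    · rw [h1, Submodule.mem_bot] at hwV
      exact hw hwV
    · have hfin : Finite (Module.End (ZMod q) W) :=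
        Finite.of_injective (fun (r : Module.End (ZMod q) W) => (r : W → W)) DFunLike.coe_injective
      have h2 : Nat.card W ≤ Nat.card (AA ρ U) := by
        refine Nat.card_le_card_of_surjective (fun r : AA ρ U => (r : Module.End (ZMod q) W) w) ?_
        intro v
        have hv : v ∈ V := by rw [h1]; exact Submodule.mem_top
        obtain ⟨r, hr, hrv⟩ := hv
        exact ⟨⟨r, hr⟩, hrv⟩
      rw [hAA, hd] at h2
      have h3 : d ≤ a := (Nat.pow_le_pow_iff_right hq1).mp h2
      have h4 : a * 2 ≤ a * e := Nat.mul_le_mul_left a he2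
      omega
  -- (3)
  have hze : ¬ z ∣ e := fun h1 => absurd (Nat.le_of_dvd he0 h1) (by omega)
  have hgE : g ∉ E := by
    intro hgE
    have hn1 : (U.subgroupOf E).Normal := inferInstance
    have h1 : g ^ (e ^ 2) ∈ U := by
      have h2 := Subgroup.pow_index_mem (U.subgroupOf E) (⟨g, hgE⟩ : E)
      rw [Subgroup.mem_subgroupOf] at h2
      have h3 : (U.subgroupOf E).index = e ^ 2 := he
      rw [h3] at h2
      exact h2
    have h2 : orderOf (g : M ⧸ U) ∣ z :=
      orderOf_dvd_of_pow_eq_one (by rw [← QuotientGroup.mk_pow, hg, QuotientGroup.mk_one])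
    have h3 : orderOf (g : M ⧸ U) ∣ e ^ 2 :=
      orderOf_dvd_of_pow_eq_one (by rw [← QuotientGroup.mk_pow]; exact (QuotientGroup.eq_one_iff _).mpr h1)
    rcases (Nat.dvd_prime hzp).mp h2 with h6 | h6
    · rw [orderOf_eq_one_iff] at h6
      exact hgU ((QuotientGroup.eq_one_iff g).mp h6)
    · rw [h6] at h3
      exact hze (hzp.dvd_of_dvd_pow h3)
  obtain ⟨s, k, hs1, hk, hsk, hzd⟩ := prm_act hcyc hE e he z hzp hze g hgU' hg hgE
  have h1 : s ^ k ≤ e := Nat.le_of_dvd he0 hsk
  have h2s : 2 ≤ s ^ k := hs1.two_le.trans (Nat.le_self_pow hk.ne' s)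
  have h3s : s ^ (2 * k) - 1 = (s ^ k - 1) * (s ^ k + 1) := by
    have h4 : s ^ (2 * k) = s ^ k * s ^ k := by rw [two_mul, pow_add]
    rw [h4]
    obtain ⟨r, hr⟩ : ∃ r, s ^ k = r + 1 := ⟨s ^ k - 1, by omega⟩
    rw [hr]
    have h5 : (r + 1) * (r + 1) = (r + 1 - 1) * (r + 1 + 1) + 1 := by
      rw [Nat.add_sub_cancel]
      ring
    rw [h5, Nat.add_sub_cancel]
  rw [h3s, hzp.dvd_mul] at hzd
  rcases hzd with h4 | h4
  · exact absurd (Nat.le_of_dvd (by omega) h4) (by omega)
  · have h5 : s ^ k + 1 = z := by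
      have h6 := Nat.le_of_dvd (by omega) h4
      omega
    have h6 : z - 1 = s ^ k := by omega
    rw [h6] at h3
    have h7 : s = 3 := ((Nat.prime_dvd_prime_iff_eq Nat.prime_three hs1).mp
      (Nat.prime_three.dvd_of_dvd_pow h3)).symm
    subst h7
    have h8 : Odd (3 ^ k) := Odd.pow (by decide)
    have h9 : Even z := by
      rw [← h5]
      exact h8.add_one
    rcases hzp.eq_two_or_odd' with h10 | h10
    · omega
    · exact (Nat.not_even_iff_odd.mpr h10) h9
-- END zj

end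

section
variable {q : ℕ} [Fact q.Prime] {M W : Type} [Group M] [Finite M] [AddCommGroup W]
  [Module (ZMod q) W] [Finite W]

-- BEGIN zk
/-- (zk, size 3) Passage to a faithful representation. PROOF. `G = M ⧸ ρ.ker` (or the range of `ρ.toHomUnits`), `f` the
projection, `ρ'` the induced representation. `(K.map f).index ∣ K.index`. Let `w ≠ 0`. The Sylow 3-subgroups of `K.map f` are
the images of those of `K` (Mathlib `Sylow.mapSurjective_surjective` for `K →* K.map f`). Existence: the image of `P` of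
`hP`. Uniqueness: two Sylow subgroups of `K.map f` which fix `w` are the images of Sylow subgroups of `K` which fix `w`
(`ρ' (f x) w = ρ x w`), and these are equal. -/
theorem tz_quo (ρ : Representation (ZMod q) M W) (K : Subgroup M)
    (hK : ¬ 3 ∣ K.index)
    (hP : ∀ w : W, w ≠ 0 → ∃! P : Sylow 3 K, ∀ x ∈ (P : Subgroup K), ρ (x : M) w = w) :
    ∃ (G : Type) (_ : Group G) (_ : Finite G) (ρ' : Representation (ZMod q) G W) (f : M →* G),
      Function.Surjective f ∧ (∀ m w, ρ' (f m) w = ρ m w) ∧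
      (∀ g, (∀ w, ρ' g w = w) → g = 1) ∧ ¬ 3 ∣ (K.map f).index ∧
      ∀ w : W, w ≠ 0 → ∃! P : Sylow 3 (K.map f), ∀ x ∈ (P : Subgroup (K.map f)),
        ρ' (x : G) w = w := by
  classical
  refine ⟨M ⧸ MonoidHom.ker ρ, inferInstance, inferInstance,
    QuotientGroup.lift (MonoidHom.ker ρ) ρ (fun m hm => hm), QuotientGroup.mk' (MonoidHom.ker ρ),
    QuotientGroup.mk'_surjective _, fun m w => rfl, ?_, ?_, ?_⟩
  · intro g hg
    obtain ⟨m, rfl⟩ := QuotientGroup.mk'_surjective _ g
    have h1 : ρ m = 1 := by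
      ext w
      exact hg w
    exact (QuotientGroup.eq_one_iff m).mpr h1
  · intro h3
    exact hK (h3.trans (Subgroup.index_map_dvd K (QuotientGroup.mk'_surjective _)))
  · intro w hw
    obtain ⟨P, hPw, hu⟩ := hP w hw
    have hF := (QuotientGroup.mk' (MonoidHom.ker ρ)).subgroupMap_surjective K
    refine ⟨P.mapSurjective hF, ?_, ?_⟩
    · intro x hx
      rw [Sylow.coe_mapSurjective] at hx
      obtain ⟨y, hy, rfl⟩ := hx
      exact hPw y hy
    · intro Q hQ
      obtain ⟨P', rfl⟩ := Sylow.mapSurjective_surjective hF 3 Q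
      have h1 : P' = P := by
        apply hu
        intro x hx
        exact hQ ((QuotientGroup.mk' (MonoidHom.ker ρ)).subgroupMap K x)
          (by rw [Sylow.coe_mapSurjective]; exact ⟨x, hx, rfl⟩)
      rw [h1]
-- END zk

end

-- BEGIN zl
/-- (zl, size 3) PROOF. (1) `y ∈ U`: the elements `g` with `g ^ 3 ^ i ∈ U` for some `i` are a subgroup (`hab`: `G ⧸ U` is
commutative) which contains all Sylow 3-subgroups, so all of `G`; `y ^ 3 ^ i ∈ U` and `y ^ 2 ^ k = 1`, and `3 ^ i`, `2 ^ k` are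
coprime, so `y ∈ U`. (2) `N = Subgroup.zpowers y` is normal in `G`: `U` is cyclic and normal, with generator `u`,
`g u g⁻¹ = u ^ j`, so `g y g⁻¹ = y ^ j`. (3) `card N` divides `2 ^ k`, so it is `2 ^ i`, `φ (2 ^ i)` is a power of `2`:
`tz_aut`. -/
theorem tz_two {G : Type} [Group G] [Finite G] {U : Subgroup G} (hU : U.Normal) (hc : IsCyclic U)
    (hab : ∀ x y : G, x * y * x⁻¹ * y⁻¹ ∈ U) (hL : ⨆ P : Sylow 3 G, (P : Subgroup G) = ⊤)
    (x y : G) (m k : ℕ) (hx : x ^ 3 ^ m = 1) (hy : y ^ 2 ^ k = 1) : x * y = y * x := by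
  classical
  have := hU
  have hcm : ∀ a b : G, Commute (QuotientGroup.mk' U a) (QuotientGroup.mk' U b) := by
    intro a b
    have h1 : QuotientGroup.mk' U (a * b * a⁻¹ * b⁻¹) = 1 :=
      (QuotientGroup.eq_one_iff _).mpr (hab a b)
    rw [map_mul, map_mul, map_mul, map_inv, map_inv] at h1
    have h2 := mul_inv_eq_one.mp h1
    exact mul_inv_eq_iff_eq_mul.mp h2
  -- the subgroup of the elements of 3-power order modulo `U`
  let V : Subgroup G :=
    { carrier := {g | ∃ i : ℕ, (QuotientGroup.mk' U g) ^ 3 ^ i = 1}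
      mul_mem' := by
        rintro a b ⟨i, hi⟩ ⟨j, hj⟩
        refine ⟨i + j, ?_⟩
        rw [map_mul, (hcm a b).mul_pow, pow_add, pow_mul, hi, one_pow, one_mul, mul_comm (3 ^ i),
          pow_mul, hj, one_pow]
      one_mem' := ⟨0, by simp⟩
      inv_mem' := by
        rintro a ⟨i, hi⟩
        exact ⟨i, by rw [map_inv, inv_pow, hi, inv_one]⟩ }
  have hV : V = ⊤ := by
    rw [eq_top_iff, ← hL]
    refine iSup_le fun P => ?_
    intro t ht
    obtain ⟨i, hi⟩ := P.2 ⟨t, ht⟩
    have hi' : t ^ 3 ^ i = 1 := congrArg Subtype.val hi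
    exact ⟨i, by rw [← map_pow, hi', map_one]⟩
  have hyV : y ∈ V := by rw [hV]; exact Subgroup.mem_top y
  obtain ⟨i, hi⟩ := hyV
  have hyk : (QuotientGroup.mk' U y) ^ 2 ^ k = 1 := by rw [← map_pow, hy, map_one]
  have hyU : y ∈ U := by
    have h7 : orderOf (QuotientGroup.mk' U y) ∣ 3 ^ i := orderOf_dvd_of_pow_eq_one hi
    have h8 : orderOf (QuotientGroup.mk' U y) ∣ 2 ^ k := orderOf_dvd_of_pow_eq_one hyk
    have h9 : Nat.Coprime (3 ^ i) (2 ^ k) := Nat.Coprime.pow _ _ (by norm_num)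
    have h10 := orderOf_eq_one_iff.mp (Nat.eq_one_of_dvd_coprimes h9 h7 h8)
    exact (QuotientGroup.eq_one_iff y).mp h10
  -- `zpowers y` is normal
  have hN : (Subgroup.zpowers y).Normal := by
    obtain ⟨u, hu⟩ := hc.exists_generator
    constructor
    intro n hn g
    have hnU : n ∈ U := (Subgroup.zpowers_le.mpr hyU) hn
    have hconj : g * (u : G) * g⁻¹ ∈ U := hU.conj_mem _ u.2 g
    obtain ⟨j, hj⟩ := Subgroup.mem_zpowers_iff.mp (hu ⟨g * (u : G) * g⁻¹, hconj⟩)
    have hj' : (u : G) ^ j = g * (u : G) * g⁻¹ := by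
      have := congrArg Subtype.val hj
      simpa using this
    obtain ⟨a, ha⟩ := Subgroup.mem_zpowers_iff.mp (hu ⟨n, hnU⟩)
    have ha' : (u : G) ^ a = n := by
      have := congrArg Subtype.val ha
      simpa using this
    have h1 : g * n * g⁻¹ = n ^ j := by
      rw [← ha', ← conj_zpow, ← hj', ← zpow_mul, ← zpow_mul, mul_comm]
    rw [h1]
    exact (Subgroup.zpowers y).zpow_mem hn j
  have hcard : Nat.card (Subgroup.zpowers y) ∣ 2 ^ k := by
    rw [Nat.card_zpowers]
    exact orderOf_dvd_of_pow_eq_one hy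
  obtain ⟨l, hl, hl2⟩ := (Nat.dvd_prime_pow Nat.prime_two).mp hcard
  refine tz_aut (Subgroup.zpowers y) hN inferInstance (3 ^ m) x hx ?_ y
    (Subgroup.mem_zpowers y)
  rw [hl2]
  apply Nat.Coprime.pow_left
  rcases Nat.eq_zero_or_pos l with h0 | h0
  · rw [h0]; simp
  · rw [Nat.totient_prime_pow Nat.prime_two h0]
    exact Nat.Coprime.mul_right (Nat.Coprime.pow_right _ (by norm_num)) (by norm_num)
-- END zl

section
variable {q : ℕ} [Fact q.Prime] {M W : Type} [Group M] [Finite M] [AddCommGroup W]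
  [Module (ZMod q) W] [Finite W] [Nontrivial W]

-- BEGIN zm
private theorem zm_app {G V : Type} [Group G] [AddCommGroup V] [Module (ZMod q) V]
    (ρ : Representation (ZMod q) G V) (g h : G) (v : V) : ρ (g * h) v = ρ g (ρ h v) := by
  rw [map_mul]
  rfl

private theorem zm_inv {G V : Type} [Group G] [AddCommGroup V] [Module (ZMod q) V]
    (ρ : Representation (ZMod q) G V) (g : G) (v : V) : ρ g (ρ g⁻¹ v) = v := by
  rw [← zm_app, mul_inv_cancel, map_one]
  rfl

/-- An element of `3`-power order is in a normal subgroup of index prime to `3`. -/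
private theorem zm_in {G : Type} [Group G] [Finite G] (C : Subgroup G) (hC : C.Normal)
    (h3 : ¬ 3 ∣ C.index) (x : G) (m : ℕ) (hx : x ^ 3 ^ m = 1) : x ∈ C := by
  have h1 : orderOf (QuotientGroup.mk x : G ⧸ C) ∣ 3 ^ m := by
    apply orderOf_dvd_of_pow_eq_one
    rw [← QuotientGroup.mk_pow, hx]
    rfl
  have h2 : orderOf (QuotientGroup.mk x : G ⧸ C) ∣ C.index := by
    rw [Subgroup.index_eq_card]
    exact orderOf_dvd_natCard _
  have h4 : Nat.Coprime (3 ^ m) C.index :=
    Nat.Coprime.pow_left m ((Nat.Prime.coprime_iff_not_dvd Nat.prime_three).2 h3)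
  have h5 : orderOf (QuotientGroup.mk x : G ⧸ C) = 1 :=
    Nat.eq_one_of_dvd_coprimes h4 h1 h2
  rw [orderOf_eq_one_iff] at h5
  exact (QuotientGroup.eq_one_iff x).1 h5

/-- (zm, size 4) PROOF. Case 1: all `x' ∈ K` with `x' ^ 3 ^ i = 1` for some `i` act trivially. A Sylow 3-subgroup of `K` is a
Sylow 3-subgroup of `M` (`hK`), so `x` is conjugate to an element of it, `ρ x = 1`. Case 2: `G`, `ρ'`, `f` of `tz_quo`,
`K' = K.map f`. `card W = q ^ d`. The representation of the group `K'` (restriction of `ρ'`) satisfies the hypotheses of `tz_ptn`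
(`hnt`: not case 1), so `3 ≤ d`; `z` from `tz_zsg`; `z ∣ card K'`; `d ∣ z - 1` (`tz_ord`), so `d < z`, `z ≠ 3`, `2 < z`. Every
Sylow 3-subgroup of `K'` fixes a nonzero vector (one of them does, `hP` for any `w ≠ 0`, and they are conjugate), and
`3 ∣ card K'` (not case 1), so `3 ∣ z - 1` by `tz_dvz` for `K'`. `g ∈ K'` of order `z` (Cauchy). `G` is solvable and generated
by its Sylow 3-subgroups (the images of those of `M`). `tz_qp` for `G` gives `U`; `tz_abq` for `G`; `qp_cyc`; `tz_two` for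
`f x`, `f y`. -/
theorem tz_cme (ρ : Representation (ZMod q) M W) (h5 : 5 ≤ q) (hs : Group.IsSolvable M)
    (hL : ⨆ P : Sylow 3 M, (P : Subgroup M) = ⊤) (K : Subgroup M) (hK : ¬ 3 ∣ K.index)
    (hP : ∀ w : W, w ≠ 0 → ∃! P : Sylow 3 K, ∀ x ∈ (P : Subgroup K), ρ (x : M) w = w)
    (x y : M) (m k : ℕ) (hx : x ^ 3 ^ m = 1) (hy : y ^ 2 ^ k = 1) (w : W) :
    ρ (x * y) w = ρ (y * x) w := by
  classical
  have hf3 : Fact (Nat.Prime 3) := ⟨Nat.prime_three⟩
  by_cases hcase : ∀ (x' : M) (i : ℕ), x' ∈ K → x' ^ 3 ^ i = 1 → ∀ w : W, ρ x' w = w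
  · -- the kernel
    let C : Subgroup M :=
      { carrier := {g | ∀ v : W, ρ g v = v}
        one_mem' := fun v => by rw [map_one]; rfl
        mul_mem' := fun {a b} ha hb v => by
          rw [zm_app, hb v, ha v]
        inv_mem' := fun {a} ha v => by
          have h1 : ρ a⁻¹ (ρ a v) = v := by
            rw [← zm_app, inv_mul_cancel, map_one]
            rfl
          rwa [ha v] at h1 }
    have hCm : ∀ g, g ∈ C ↔ ∀ v : W, ρ g v = v := fun g => Iff.rfl
    have hCn : C.Normal := ⟨fun n hn g => by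
      rw [hCm] at hn ⊢
      intro v
      rw [zm_app, zm_app, hn, zm_inv]⟩
    -- a Sylow subgroup of `K`
    let P0 : Sylow 3 K := default
    have hPC : (P0 : Subgroup K).map K.subtype ≤ C := by
      rintro _ ⟨a, ha, rfl⟩
      rw [hCm]
      obtain ⟨i, hi⟩ := P0.isPGroup' ⟨a, ha⟩
      have h1 : (a : K) ^ 3 ^ i = 1 := by simpa using congrArg Subtype.val hi
      exact hcase _ i a.2 (by simpa using congrArg (fun t : K => (t : M)) h1)
    have h3 : ¬ 3 ∣ C.index := by
      intro h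
      have h1 := h.trans (Subgroup.index_dvd_of_le hPC)
      rw [Subgroup.index_map_subtype] at h1
      rcases (Nat.Prime.dvd_mul Nat.prime_three).1 h1 with h2 | h2
      · exact P0.not_dvd_index h2
      · exact hK h2
    have h4 := (hCm x).1 (zm_in C hCn h3 x m hx)
    rw [zm_app, zm_app, h4, h4]
  · push Not at hcase
    obtain ⟨x', i, hx'K, hx'i, w', hw'⟩ := hcase
    obtain ⟨G, _, _, ρ', f, hf, hρ, hfa, hK', hP'⟩ := tz_quo ρ K hK hP
    set K' : Subgroup G := K.map f with hK'def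
    let σ : Representation (ZMod q) K' W := ρ'.comp K'.subtype
    have hσ : ∀ (g : K') (v : W), σ g v = ρ' (g : G) v := fun _ _ => rfl
    obtain ⟨d, hd⟩ : ∃ d : ℕ, Nat.card W = q ^ d := by
      refine ⟨Module.finrank (ZMod q) W, ?_⟩
      rw [Module.natCard_eq_pow_finrank (K := ZMod q) (V := W), Nat.card_zmod]
    have hq : q.Prime := Fact.out
    -- an element of `K'`
    let x1 : K' := ⟨f x', x', hx'K, rfl⟩
    have hx1i : x1 ^ 3 ^ i = 1 := by
      apply Subtype.ext
      show f x' ^ 3 ^ i = 1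
      rw [← map_pow, hx'i, map_one]
    have hx1 : ∀ j : ℕ, σ x1 w' ≠ w' := fun _ => by
      rw [hσ]
      show ρ' (f x') w' ≠ w'
      rwa [hρ]
    have hpx1 : IsPGroup 3 (Subgroup.zpowers x1) := by
      rintro ⟨a, ha⟩
      obtain ⟨j, rfl⟩ := Subgroup.mem_zpowers_iff.1 ha
      refine ⟨i, Subtype.ext ?_⟩
      show (x1 ^ j) ^ 3 ^ i = 1
      rw [← zpow_natCast, ← zpow_mul, mul_comm, zpow_mul, zpow_natCast, hx1i, one_zpow]
    obtain ⟨Q, hQ⟩ := hpx1.exists_le_sylow
    have hx1Q : x1 ∈ (Q : Subgroup K') := hQ (Subgroup.mem_zpowers x1)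
    obtain ⟨h3d, hzd⟩ := tz_ptn (ρ := σ) h5 hd hP' ⟨Q, x1, hx1Q, w', hx1 0⟩
    obtain ⟨z, hz⟩ := tz_zsg q d h5 h3d
    have hzK := hzd z hz
    have hdz1 := tz_ord hq.pos (by omega) hz
    have hz1 : 0 < z - 1 := Nat.sub_pos_of_lt hz.pr.one_lt
    have hdz2 := Nat.le_of_dvd hz1 hdz1
    have hsG : Group.IsSolvable G := solvable_of_surjective hf
    have hsK' : Group.IsSolvable K' := inferInstance
    have hfaK : ∀ g : K', (∀ v, σ g v = v) → g = 1 := fun g hg => Subtype.ext (hfa g hg)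
    have hfix : ∀ P : Sylow 3 K', ∃ v : W, v ≠ 0 ∧ ∀ a ∈ (P : Subgroup K'), σ a v = v := by
      intro P
      obtain ⟨v, hv⟩ := exists_ne (0 : W)
      obtain ⟨P0, hP0, -⟩ := hP' v hv
      obtain ⟨g, hg⟩ := MulAction.exists_smul_eq K' P0 P
      refine ⟨σ g v, ?_, ?_⟩
      · intro h
        apply hv
        have h1 : σ g⁻¹ (σ g v) = v := by
          rw [← zm_app, inv_mul_cancel, map_one]
          rfl
        rw [← h1, h, map_zero]
      · intro a ha
        rw [← hg, Sylow.coe_subgroup_smul, Subgroup.mem_pointwise_smul_iff_inv_smul_mem, ← map_inv,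
          MulAut.smul_def, MulAut.conj_apply, inv_inv] at ha
        have h1 : σ (g⁻¹ * a * g) v = v := hP0 _ ha
        have h2 : a * g = g * (g⁻¹ * a * g) := by group
        rw [← zm_app, h2, zm_app, h1]
    have h3K : 3 ∣ Nat.card K' := by
      have h1 : orderOf x1 ∣ 3 ^ i := orderOf_dvd_of_pow_eq_one hx1i
      obtain ⟨j, hj, hj2⟩ := (Nat.dvd_prime_pow Nat.prime_three).1 h1
      have h2 : x1 ≠ 1 := by
        intro h
        apply hx1 0
        rw [h, map_one]
        rfl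
      have h3 : j ≠ 0 := by
        intro h
        apply h2
        rw [← orderOf_eq_one_iff, hj2, h, pow_zero]
      have h4 : 3 ∣ orderOf x1 := by
        rw [hj2]
        exact dvd_pow_self 3 h3
      exact h4.trans (orderOf_dvd_natCard x1)
    have h3z : 3 ∣ z - 1 := tz_dvz (ρ := σ) hsK' hd hz (by omega) hfaK hzK hfix h3K
    have hfz : Fact z.Prime := ⟨hz.pr⟩
    obtain ⟨g, hg⟩ := exists_prime_orderOf_dvd_card' z hzK
    have hgz : (g : G) ^ z = 1 := by
      have h1 : g ^ z = 1 := by rw [← hg, pow_orderOf_eq_one]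
      simpa using congrArg (fun t : K' => (t : G)) h1
    have hg1 : (g : G) ≠ 1 := by
      intro h
      have h1 : g = 1 := Subtype.ext h
      rw [h1, orderOf_one] at hg
      exact hz.pr.one_lt.ne hg
    obtain ⟨U, hU⟩ := tz_qp (ρ := ρ') hd hz (by omega) hfa g hgz hg1
    have hab := tz_abq hd hz (by omega) (by omega) h3z hU hsG g hgz hg1
    have hLG : ⨆ P : Sylow 3 G, (P : Subgroup G) = ⊤ := by
      rw [eq_top_iff]
      intro a _
      obtain ⟨b, rfl⟩ := hf a
      have hb : b ∈ ⨆ P : Sylow 3 M, (P : Subgroup M) := by rw [hL]; trivial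
      have h1 : (⨆ P : Sylow 3 M, (P : Subgroup M)) ≤ (⨆ P : Sylow 3 G, (P : Subgroup G)).comap f := by
        refine iSup_le fun P => ?_
        rw [← Subgroup.map_le_iff_le_comap, ← Sylow.coe_mapSurjective hf P]
        exact le_iSup (fun P : Sylow 3 G => (P : Subgroup G)) (P.mapSurjective hf)
      exact h1 hb
    have hfin := tz_two hU.ab.nor (qp_cyc hU) hab hLG (f x) (f y) m k
      (by rw [← map_pow, hx, map_one]) (by rw [← map_pow, hy, map_one])
    rw [← hρ, ← hρ, map_mul f, map_mul f, hfin]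
-- END zm

end

section
variable {H : Type} [Group H] [Finite H]

-- BEGIN zn
/-- (zn, size 3) PROOF. Let `S` be a Sylow 2-subgroup of `G`. Its elements commute with all Sylow 3-subgroups, so with `G`
(`hL`): `S` is central, so normal, its order and its index are coprime, so it has a complement `K` (Mathlib
`Subgroup.exists_right_complement'_of_coprime`), which is normal (`G = S K`, `S` central), of index
`card S`, a power of `2`. So `K` contains all elements of 3-power order, `K = ⊤` by `hL`, `S = ⊥`. -/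
theorem tz_ctw {G : Type} [Group G] [Finite G] (hL : ⨆ P : Sylow 3 G, (P : Subgroup G) = ⊤)
    (hc : ∀ (x y : G) (m k : ℕ), x ^ 3 ^ m = 1 → y ^ 2 ^ k = 1 → x * y = y * x) :
    ¬ 2 ∣ Nat.card G := by
  intro h2
  have f2 : Fact (Nat.Prime 2) := ⟨Nat.prime_two⟩
  have f3 : Fact (Nat.Prime 3) := ⟨Nat.prime_three⟩
  obtain ⟨S⟩ : Nonempty (Sylow 2 G) := inferInstance
  -- the Sylow 2-subgroup is central
  have hcen : ∀ s ∈ (S : Subgroup G), ∀ g : G, g * s = s * g := by
    intro s hs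
    have h1 : (⨆ P : Sylow 3 G, (P : Subgroup G)) ≤ Subgroup.centralizer {s} := by
      refine iSup_le fun P x hx => ?_
      rw [Subgroup.mem_centralizer_singleton_iff]
      obtain ⟨m, hm⟩ := P.isPGroup' ⟨x, hx⟩
      obtain ⟨k, hk⟩ := S.isPGroup' ⟨s, hs⟩
      exact hc x s m k (congrArg Subtype.val hm) (congrArg Subtype.val hk)
    rw [hL] at h1
    intro g
    exact Subgroup.mem_centralizer_singleton_iff.1 (h1 (Subgroup.mem_top g))
  have hn : (S : Subgroup G).Normal := by
    refine ⟨fun s hs g => ?_⟩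
    rw [hcen s hs g, mul_inv_cancel_right]
    exact hs
  obtain ⟨K, hK⟩ := Subgroup.exists_right_complement'_of_coprime (N := (S : Subgroup G))
    S.card_coprime_index
  -- the complement contains the elements of 3-power order
  have hKt : K = ⊤ := by
    rw [← top_le_iff, ← hL]
    refine iSup_le fun P x hx => ?_
    obtain ⟨m, hm⟩ := P.isPGroup' ⟨x, hx⟩
    have hxm : x ^ 3 ^ m = 1 := congrArg Subtype.val hm
    obtain ⟨s, k, hsk⟩ : ∃ (s : (S : Subgroup G)) (k : K), (s : G) * k = x := by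
      obtain ⟨⟨s, k⟩, h1⟩ := hK.2 x
      exact ⟨s, k, h1⟩
    obtain ⟨j, hj⟩ := S.isPGroup' s
    have hj' : (s : G) ^ 2 ^ j = 1 := congrArg Subtype.val hj
    have hcomm : Commute (s : G) (k : G) := (hcen s s.2 k).symm
    have h3 : (s : G) ^ 3 ^ m * (k : G) ^ 3 ^ m = 1 := by
      rw [← hcomm.mul_pow, hsk, hxm]
    have h4 : (s : G) ^ 3 ^ m = ((k : G) ^ 3 ^ m)⁻¹ := eq_inv_of_mul_eq_one_left h3
    have h5 : (s : G) ^ 3 ^ m = 1 := by
      have h6 : (s : G) ^ 3 ^ m ∈ (S : Subgroup G) ⊓ K := by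
        refine ⟨(S : Subgroup G).pow_mem s.2 _, ?_⟩
        rw [h4]
        exact K.inv_mem (K.pow_mem k.2 _)
      rw [hK.disjoint.eq_bot, Subgroup.mem_bot] at h6
      exact h6
    have h7 : orderOf (s : G) = 1 :=
      Nat.eq_one_of_dvd_coprimes
        (Nat.Coprime.pow m j (by norm_num : Nat.Coprime 3 2))
        (orderOf_dvd_of_pow_eq_one h5) (orderOf_dvd_of_pow_eq_one hj')
    have h8 : (s : G) = 1 := orderOf_eq_one_iff.1 h7
    rw [← hsk, h8, one_mul]
    exact k.2
  have hS : (S : Subgroup G) = ⊥ := by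
    have h9 := hK.disjoint.eq_bot
    rwa [hKt, inf_top_eq] at h9
  have h10 := S.dvd_card_of_dvd_card h2
  have h11 : Nat.card S = 1 := by
    have h12 : Nat.card (S : Subgroup G) = 1 := by rw [hS]; exact Subgroup.card_bot
    exact h12
  rw [h11] at h10
  norm_num at h10
-- END zn

-- BEGIN zo
/-- (zo, size 2) PROOF. Let `Q` be a Sylow 3-subgroup of `H`; `L = ⨆ Sylow` contains `P` and `Q`, they are Sylow in `L` and
conjugate by some `g ∈ L` (`Sylow.subtype`, `MulAction.exists_smul_eq` in `L`). For `x ∈ P`: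
`g x g⁻¹ = (g x g⁻¹ x⁻¹) x ∈ S`. So `Q ≤ S`. -/
theorem tz_stb (S : Subgroup H)
    (hS : ∀ x ∈ (⨆ P : Sylow 3 H, (P : Subgroup H)), ∀ y ∈ (⨆ P : Sylow 3 H, (P : Subgroup H)),
      x * y * x⁻¹ * y⁻¹ ∈ S) (P : Sylow 3 H) (hP : (P : Subgroup H) ≤ S) :
    (⨆ P : Sylow 3 H, (P : Subgroup H)) ≤ S := by
  have hf3 : Fact (Nat.Prime 3) := ⟨Nat.prime_three⟩
  refine iSup_le fun Q => ?_
  have hPL : (P : Subgroup H) ≤ ⨆ P : Sylow 3 H, (P : Subgroup H) :=
    le_iSup (fun P : Sylow 3 H => (P : Subgroup H)) P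
  have hQL : (Q : Subgroup H) ≤ ⨆ P : Sylow 3 H, (P : Subgroup H) :=
    le_iSup (fun P : Sylow 3 H => (P : Subgroup H)) Q
  obtain ⟨g, hg⟩ := MulAction.exists_smul_eq
    ((⨆ P : Sylow 3 H, (P : Subgroup H) : Subgroup H)) (P.subtype hPL) (Q.subtype hQL)
  intro y hy
  have h1 : (⟨y, hQL hy⟩ : (⨆ P : Sylow 3 H, (P : Subgroup H) : Subgroup H)) ∈
      ((Q.subtype hQL : Sylow 3 _) : Subgroup _) := hy
  rw [← hg, Sylow.coe_subgroup_smul, Subgroup.mem_pointwise_smul_iff_inv_smul_mem] at h1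
  have h2 : (g : H)⁻¹ * y * (g : H) ∈ (P : Subgroup H) := by
    have h3 : ((g⁻¹ * ⟨y, hQL hy⟩ * g : (⨆ P : Sylow 3 H, (P : Subgroup H) : Subgroup H)) : H) ∈
        (P : Subgroup H) := by
      rw [MulAut.smul_def, ← map_inv, MulAut.conj_apply, inv_inv] at h1
      exact h1
    exact h3
  have h4 := hS g g.2 ((g : H)⁻¹ * y * (g : H)) (hPL h2)
  have h5 := S.mul_mem h4 (hP h2)
  have h6 : (g : H) * ((g : H)⁻¹ * y * (g : H)) * (g : H)⁻¹ * ((g : H)⁻¹ * y * (g : H))⁻¹ *
      ((g : H)⁻¹ * y * (g : H)) = y := by group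
  rwa [h6] at h5
-- END zo

-- BEGIN zp
/-- (zp, size 2) PROOF. `R` is in every Sylow 3-subgroup `Q` of `H`: `Q` normalizes `R`, so `R Q` is a 3-group
(`IsPGroup.to_sup_of_normal_left'`), `R Q = Q` (`Sylow.is_maximal'`). The intersection of all Sylow 3-subgroups is a normal
3-subgroup of `H`, so it is `⊥`. -/
theorem tz_oth (hO : ∀ K : Subgroup H, K.Normal → IsPGroup 3 K → K = ⊥) (R : Subgroup H)
    (hR : IsPGroup 3 R)
    (hRL : ∀ g ∈ (⨆ P : Sylow 3 H, (P : Subgroup H)), ∀ r ∈ R, g * r * g⁻¹ ∈ R) : R = ⊥ := by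
  have hf3 : Fact (Nat.Prime 3) := ⟨Nat.prime_three⟩
  have h1 : ∀ Q : Sylow 3 H, R ≤ (Q : Subgroup H) := by
    intro Q
    have h2 : (Q : Subgroup H) ≤ Subgroup.normalizer (R : Set H) := by
      intro g hg
      have h3 : g ∈ ⨆ P : Sylow 3 H, (P : Subgroup H) :=
        le_iSup (fun P : Sylow 3 H => (P : Subgroup H)) Q hg
      rw [Subgroup.mem_normalizer_iff]
      intro r
      refine ⟨fun hr => hRL g h3 r hr, fun hr => ?_⟩
      have h4 := hRL g⁻¹ (Subgroup.inv_mem _ h3) _ hr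
      have h5 : g⁻¹ * (g * r * g⁻¹) * g⁻¹⁻¹ = r := by group
      rwa [h5] at h4
    have h6 := IsPGroup.to_sup_of_normal_left' hR Q.isPGroup' h2
    have h7 := Q.is_maximal' h6 le_sup_right
    rw [← h7]
    exact le_sup_left
  have h2 : (⨅ Q : Sylow 3 H, (Q : Subgroup H)) = ⊥ := by
    refine hO _ ⟨fun n hn g => ?_⟩ ?_
    · rw [Subgroup.mem_iInf] at hn ⊢
      intro Q
      have h3 := hn (g⁻¹ • Q)
      rw [Sylow.coe_subgroup_smul, Subgroup.mem_pointwise_smul_iff_inv_smul_mem,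
        MulAut.smul_def, ← map_inv, inv_inv, MulAut.conj_apply] at h3
      exact h3
    · exact (Classical.arbitrary (Sylow 3 H)).isPGroup'.to_le (iInf_le _ _)
  exact le_bot_iff.1 (h2 ▸ le_iInf h1)
-- END zp

-- BEGIN zq
/-- (zq, size 3) PROOF. `R = C ⊓ P`. An element `c ∈ C` of 3-power order normalizes `P` (`hP`), so it is in `P`
(`IsPGroup.to_sup_of_normal_left'`, `Sylow.is_maximal'`): `R` is the set of the elements of `C` of 3-power order, so it is
invariant under `L = ⨆ Sylow` (`hCn`), and `R = ⊥` by `tz_oth`. For `c ∈ C`, `x ∈ P` (`P ≤ L`): `c x c⁻¹ x⁻¹ ∈ C ⊓ P = ⊥`, so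
`P` and `C` commute. Let `Q` be another Sylow 3-subgroup of `H`, `Q = g P g⁻¹` with `g ∈ L` (as in `tz_stb`): for `c ∈ C`,
`x ∈ P`, `g⁻¹ c g ∈ C` commutes with `x`, so `c` commutes with `g x g⁻¹`. So `C` commutes with all Sylow subgroups, so with
`L`. -/
theorem tz_cen (hO : ∀ K : Subgroup H, K.Normal → IsPGroup 3 K → K = ⊥) (C : Subgroup H)
    (hC : C ≤ ⨆ P : Sylow 3 H, (P : Subgroup H))
    (hCn : ∀ g ∈ (⨆ P : Sylow 3 H, (P : Subgroup H)), ∀ c ∈ C, g * c * g⁻¹ ∈ C)
    (P : Sylow 3 H) (hP : ∀ c ∈ C, ∀ x ∈ (P : Subgroup H), c * x * c⁻¹ ∈ (P : Subgroup H)) :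
    ∀ c ∈ C, ∀ g ∈ (⨆ P : Sylow 3 H, (P : Subgroup H)), g * c = c * g := by
  have : Fact (Nat.Prime 3) := ⟨Nat.prime_three⟩
  have hle : ∀ Q : Sylow 3 H, (Q : Subgroup H) ≤ ⨆ P : Sylow 3 H, (P : Subgroup H) := fun Q =>
    le_iSup (fun P : Sylow 3 H => (P : Subgroup H)) Q
  -- elements of 3-power order of C are in P
  have h1 : ∀ c ∈ C, ∀ k : ℕ, c ^ 3 ^ k = 1 → c ∈ (P : Subgroup H) := by
    intro c hc k hk
    have hz : IsPGroup 3 (Subgroup.zpowers c) := by
      rintro ⟨y, hy⟩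
      obtain ⟨m, rfl⟩ := Subgroup.mem_zpowers_iff.1 hy
      refine ⟨k, Subtype.ext ?_⟩
      show (c ^ m) ^ 3 ^ k = 1
      rw [← zpow_natCast, ← zpow_mul, mul_comm, zpow_mul, zpow_natCast, hk, one_zpow]
    have hn : Subgroup.zpowers c ≤ Subgroup.normalizer ((P : Subgroup H) : Set H) := by
      rw [Subgroup.zpowers_le, Subgroup.mem_normalizer_iff]
      intro x
      constructor
      · exact fun hx => hP c hc x hx
      · intro hx
        have h2 := hP c⁻¹ (C.inv_mem hc) _ hx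
        have h3 : c⁻¹ * (c * x * c⁻¹) * c⁻¹⁻¹ = x := by group
        rwa [h3] at h2
    have hsup : IsPGroup 3 (Subgroup.zpowers c ⊔ (P : Subgroup H) : Subgroup H) := by
      exact IsPGroup.to_sup_of_normal_right' hz P.isPGroup' hn
    have h2 := P.is_maximal' hsup le_sup_right
    have h3 : c ∈ Subgroup.zpowers c ⊔ (P : Subgroup H) :=
      Subgroup.mem_sup_left (Subgroup.mem_zpowers c)
    rw [h2] at h3
    exact h3
  have hR : C ⊓ (P : Subgroup H) = ⊥ := by
    refine tz_oth hO _ (P.isPGroup'.to_le inf_le_right) ?_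
    intro g hg r hr
    refine ⟨hCn g hg r hr.1, ?_⟩
    obtain ⟨k, hk⟩ := P.isPGroup' ⟨r, hr.2⟩
    have hk' : r ^ 3 ^ k = 1 := congrArg Subtype.val hk
    refine h1 _ (hCn g hg r hr.1) k ?_
    rw [conj_pow, hk', mul_one, mul_inv_cancel]
  have hcom : ∀ c ∈ C, ∀ x ∈ (P : Subgroup H), c * x = x * c := by
    intro c hc x hx
    have h2 : c * x * c⁻¹ * x⁻¹ ∈ C ⊓ (P : Subgroup H) := by
      refine ⟨?_, (P : Subgroup H).mul_mem (hP c hc x hx) ((P : Subgroup H).inv_mem hx)⟩
      have h3 := C.mul_mem hc (hCn x (hle P hx) c⁻¹ (C.inv_mem hc))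
      have h4 : c * (x * c⁻¹ * x⁻¹) = c * x * c⁻¹ * x⁻¹ := by group
      rwa [h4] at h3
    rw [hR, Subgroup.mem_bot] at h2
    have h3 : c * x = (c * x * c⁻¹ * x⁻¹) * (x * c) := by group
    rw [h3, h2, one_mul]
  intro c hc g hg
  -- all Sylow subgroups commute with C
  have hall : (⨆ P : Sylow 3 H, (P : Subgroup H)) ≤ Subgroup.centralizer (C : Set H) := by
    refine iSup_le fun Q => ?_
    obtain ⟨k, hk⟩ := MulAction.exists_smul_eq (⨆ P : Sylow 3 H, (P : Subgroup H) : Subgroup H)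
      (P.subtype (hle P)) (Q.subtype (hle Q))
    intro x hx
    have h2 : (⟨x, hle Q hx⟩ : (⨆ P : Sylow 3 H, (P : Subgroup H) : Subgroup H)) ∈
        (k • P.subtype (hle P)) := by
      rw [hk]
      exact hx
    have h3 : k⁻¹ * (⟨x, hle Q hx⟩ : (⨆ P : Sylow 3 H, (P : Subgroup H) : Subgroup H)) * k ∈
        P.subtype (hle P) := by
      have h4 := Subgroup.mem_pointwise_smul_iff_inv_smul_mem.1 h2
      rwa [MulAut.smul_def, MulAut.inv_def, MulAut.conj_symm_apply] at h4
    have h5 : (k : H)⁻¹ * x * k ∈ (P : Subgroup H) := h3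
    rw [Subgroup.mem_centralizer_iff]
    intro d hd
    have h6 := hcom _ (hCn (k : H)⁻¹ (Subgroup.inv_mem _ k.2) d hd) _ h5
    have h7 : d * x = (k : H) * (((k : H)⁻¹ * d * (k : H)⁻¹⁻¹) * ((k : H)⁻¹ * x * k)) * (k : H)⁻¹ := by
      group
    rw [h7, h6]
    group
  have h2 := Subgroup.mem_centralizer_iff.1 (hall hg) c hc
  exact h2.symm
-- END zq

-- BEGIN zr
/-- (zr, size 3) PROOF. `P` is Sylow in `K` (`Sylow.subtype`), and its elements are in `F`. Let `Q` be a Sylow 3-subgroup of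
`K` whose elements are in `F`. `Q` (in `H`) is in `F ⊓ K`, so it normalizes `P` (`hn`, also for inverses), so `Q P` is a
3-group, `Q ≤ P` (`Sylow.is_maximal'`), and as subgroups of `K`: `Q = P` (`Q` is maximal). -/
theorem tz_uni (K F : Subgroup H) (P : Sylow 3 H) (hPK : (P : Subgroup H) ≤ K)
    (hPF : (P : Subgroup H) ≤ F)
    (hn : ∀ f ∈ F, f ∈ K → ∀ x ∈ (P : Subgroup H), f * x * f⁻¹ ∈ (P : Subgroup H)) :
    ∃! Q : Sylow 3 K, ∀ x ∈ (Q : Subgroup K), (x : H) ∈ F := by
  have hmem : ∀ x : K, x ∈ ((P.subtype hPK : Sylow 3 K) : Subgroup K) ↔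
      (x : H) ∈ (P : Subgroup H) := by
    intro x
    rw [Sylow.coe_subtype]
    exact Subgroup.mem_subgroupOf
  refine ⟨P.subtype hPK, ?_, ?_⟩
  · intro x hx
    exact hPF ((hmem x).1 hx)
  · intro Q hQ
    have hQp : IsPGroup 3 ((Q : Subgroup K).map K.subtype) := Q.isPGroup'.map K.subtype
    have hle : (Q : Subgroup K).map K.subtype ≤ Subgroup.normalizer (P : Subgroup H) := by
      rintro g ⟨k, hk, rfl⟩
      have hkF : (k : H) ∈ F := hQ k hk
      have hkK : (k : H) ∈ K := k.2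
      refine Subgroup.mem_normalizer_iff.2 ?_
      intro x
      constructor
      · intro hx
        exact hn _ hkF hkK x hx
      · intro hx
        have h1 := hn _ (F.inv_mem hkF) (K.inv_mem hkK) _ hx
        have h2 : (k : H)⁻¹ * (K.subtype k * x * (K.subtype k)⁻¹) * ((k : H)⁻¹)⁻¹ = x := by
          simp [mul_assoc]
        rw [h2] at h1
        exact h1
    have hsup : IsPGroup 3 (((Q : Subgroup K).map K.subtype) ⊔ (P : Subgroup H) : Subgroup H) :=
      IsPGroup.to_sup_of_normal_right' hQp P.isPGroup' hle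
    have heq : ((Q : Subgroup K).map K.subtype) ⊔ (P : Subgroup H) = (P : Subgroup H) :=
      P.is_maximal' hsup le_sup_right
    have hQP : (Q : Subgroup K) ≤ ((P.subtype hPK : Sylow 3 K) : Subgroup K) := by
      intro x hx
      refine (hmem x).2 ?_
      rw [← heq]
      exact Subgroup.mem_sup_left ⟨x, hx, rfl⟩
    have h3 : ((P.subtype hPK : Sylow 3 K) : Subgroup K) = (Q : Subgroup K) :=
      Q.is_maximal' (P.subtype hPK).isPGroup' hQP
    exact (Sylow.ext h3).symm
-- END zr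

-- BEGIN zs
/-- (zs, size 2) PROOF. `L = ⨆ Sylow`. For a Sylow 3-subgroup `P` of `H`, `P ≤ L` and `P` (as a subgroup of `L`,
`Sylow.subtype`) is a Sylow subgroup of `L`. Map the supremum into `H`: it contains all `P`, so it is `L`
(`Subgroup.map_iSup`, `Subgroup.map_injective`, `L.subtype`). -/
theorem tz_top : (⨆ P : Sylow 3 (⨆ P : Sylow 3 H, (P : Subgroup H) : Subgroup H),
    (P : Subgroup (⨆ P : Sylow 3 H, (P : Subgroup H) : Subgroup H))) = ⊤ := by
  set L : Subgroup H := ⨆ P : Sylow 3 H, (P : Subgroup H) with hL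
  rw [eq_top_iff]
  have key : L ≤ (⨆ P : Sylow 3 L, (P : Subgroup L)).map L.subtype := by
    conv_lhs => rw [hL]
    refine iSup_le fun P => ?_
    have hP : (P : Subgroup H) ≤ L := le_iSup (fun P : Sylow 3 H => (P : Subgroup H)) P
    have h2 : ((P.subtype hP : Sylow 3 L) : Subgroup L).map L.subtype = (P : Subgroup H) := by
      rw [Sylow.coe_subtype, Subgroup.map_subgroupOf_eq_of_le hP]
    rw [← h2]
    exact Subgroup.map_mono (le_iSup (fun P : Sylow 3 L => (P : Subgroup L)) (P.subtype hP))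
  intro x _
  obtain ⟨y, hy, hyx⟩ := Subgroup.mem_map.1 (key x.2)
  have : y = x := Subtype.ext hyx
  rwa [← this]
-- END zs

-- BEGIN zt
private theorem zt_app {q : ℕ} {G V : Type} [Group G] [AddCommGroup V] [Module (ZMod q) V]
    (ρ : Representation (ZMod q) G V) (g h : G) (v : V) : ρ (g * h) v = ρ g (ρ h v) := by
  rw [map_mul]
  rfl

private theorem zt_one {q : ℕ} {G V : Type} [Group G] [AddCommGroup V] [Module (ZMod q) V]
    (ρ : Representation (ZMod q) G V) (v : V) : ρ 1 v = v := by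
  rw [map_one]
  rfl

private theorem zt_ii {q : ℕ} {G V : Type} [Group G] [AddCommGroup V] [Module (ZMod q) V]
    (ρ : Representation (ZMod q) G V) (g : G) (v : V) : ρ g⁻¹ (ρ g v) = v := by
  rw [← zt_app, inv_mul_cancel, zt_one]

/-- The stabilizer of a family of vectors. -/
private def zt_st {ι : Type} {p : ι → ℕ} {G : Type} [Group G] {X : ι → Type}
    [∀ i, AddCommGroup (X i)] [∀ i, Module (ZMod (p i)) (X i)]
    (ρ : ∀ i, Representation (ZMod (p i)) G (X i)) (J : ι → Prop) (l : ∀ i, X i) : Subgroup G where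
  carrier := {h | ∀ i, J i → ρ i h (l i) = l i}
  one_mem' := fun i _ => zt_one (ρ i) (l i)
  mul_mem' := fun {a b} ha hb i hi => by
    rw [zt_app, hb i hi, ha i hi]
  inv_mem' := fun {a} ha i hi => by
    have h1 := zt_ii (ρ i) a (l i)
    rwa [ha i hi] at h1

private theorem zt_mem {ι : Type} {p : ι → ℕ} {G : Type} [Group G] {X : ι → Type}
    [∀ i, AddCommGroup (X i)] [∀ i, Module (ZMod (p i)) (X i)]
    (ρ : ∀ i, Representation (ZMod (p i)) G (X i)) (J : ι → Prop) (l : ∀ i, X i) (h : G) :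
    h ∈ zt_st ρ J l ↔ ∀ i, J i → ρ i h (l i) = l i := Iff.rfl

/-- The restriction of a representation to a subspace which is stabilized by a subgroup. -/
private def zt_rs {q : ℕ} {V : Type} [AddCommGroup V] [Module (ZMod q) V]
    (ρ : Representation (ZMod q) H V) (E : Submodule (ZMod q) V) (L : Subgroup H)
    (hE : ∀ g ∈ L, ∀ v ∈ E, ρ g v ∈ E) : Representation (ZMod q) L E where
  toFun g := (ρ (g : H)).restrict (hE g g.2)
  map_one' := by
    ext v
    show ρ ((1 : L) : H) (v : V) = v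
    rw [Subgroup.coe_one, zt_one]
  map_mul' a b := by
    ext v
    show ρ ((a * b : L) : H) (v : V) = ρ (a : H) (ρ (b : H) v)
    rw [Subgroup.coe_mul, zt_app]

private theorem zt_rs_app {q : ℕ} {V : Type} [AddCommGroup V] [Module (ZMod q) V]
    (ρ : Representation (ZMod q) H V) (E : Submodule (ZMod q) V) (L : Subgroup H)
    (hE : ∀ g ∈ L, ∀ v ∈ E, ρ g v ∈ E) (g : L) (v : E) :
    ((zt_rs ρ E L hE g v : E) : V) = ρ (g : H) (v : V) := rfl

/-- The kernel of `L` on the subspaces `E i`. -/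
private def zt_kr {ι : Type} {p : ι → ℕ} {G : Type} [Group G] {X : ι → Type}
    [∀ i, AddCommGroup (X i)] [∀ i, Module (ZMod (p i)) (X i)]
    (ρ : ∀ i, Representation (ZMod (p i)) G (X i)) (E : ∀ i, Submodule (ZMod (p i)) (X i))
    (L : Subgroup G) : Subgroup G where
  carrier := {h | h ∈ L ∧ ∀ i, ∀ v ∈ E i, ρ i h v = v}
  one_mem' := ⟨L.one_mem, fun i v _ => zt_one (ρ i) v⟩
  mul_mem' := fun {a b} ha hb => ⟨L.mul_mem ha.1 hb.1, fun i v hv => by
    rw [zt_app, hb.2 i v hv, ha.2 i v hv]⟩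
  inv_mem' := fun {a} ha => ⟨L.inv_mem ha.1, fun i v hv => by
    have h1 := zt_ii (ρ i) a v
    rwa [ha.2 i v hv] at h1⟩

private theorem zt_mkr {ι : Type} {p : ι → ℕ} {G : Type} [Group G] {X : ι → Type}
    [∀ i, AddCommGroup (X i)] [∀ i, Module (ZMod (p i)) (X i)]
    (ρ : ∀ i, Representation (ZMod (p i)) G (X i)) (E : ∀ i, Submodule (ZMod (p i)) (X i))
    (L : Subgroup G) (h : G) : h ∈ zt_kr ρ E L ↔ h ∈ L ∧ ∀ i, ∀ v ∈ E i, ρ i h v = v := Iff.rfl

/-- (zt, size 5, helper22) (T3) Some vectors `l i` in the homogeneous components `E i` have a stabilizer in which no Sylow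
`3`-subgroup of `H` is contained as a normal subgroup. PROOF. Otherwise, for all `l`, there is a Sylow 3-subgroup `P l` of
`H`, normal in `H_l` and contained in it. It stabilizes the `E i` (`hbl`), so `L = ⨆ Sylow` does (`tz_stb`, `hL`). Fix `i` and
`l`; `K` = the stabilizer in `L` of the `l j`, `j ≠ i`. By `tz_uni` every `w ∈ E i`, `w ≠ 0` is fixed by
exactly one Sylow 3-subgroup of `K`. By `tz_cme` (for the group `L`, `tz_top`) the commutators `x y x⁻¹ y⁻¹` of 3-elements and
2-elements of `L` are in `C` = the kernel of `L` on all the `E i`. `C` is central in `L` by `tz_cen` (`C ≤ H_l`). So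
`x y x⁻¹ y⁻¹ = 1` (it is central of 3-power order and of 2-power order). `tz_ctw` contradicts `h2`. -/
theorem t3 {ι : Type} [Finite ι] (p : ι → ℕ) [hpp : ∀ i, Fact (p i).Prime] (X : ι → Type)
    [∀ i, AddCommGroup (X i)] [∀ i, Module (ZMod (p i)) (X i)] [∀ i, Finite (X i)]
    (ρ : ∀ i, Representation (ZMod (p i)) H (X i)) (E : ∀ i, Submodule (ZMod (p i)) (X i))
    (hs : Group.IsSolvable H) (hp : ∀ i, 5 ≤ p i) (hE : ∀ i, E i ≠ ⊥)
    (hbl : ∀ i h, ∀ l ∈ E i, l ≠ 0 → ρ i h l ∈ E i → (E i).map (ρ i h) = E i)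
    (hL : ∀ i, ∀ x ∈ (⨆ P : Sylow 3 H, (P : Subgroup H)),
      ∀ y ∈ (⨆ P : Sylow 3 H, (P : Subgroup H)), (E i).map (ρ i (x * y * x⁻¹ * y⁻¹)) = E i)
    (h2 : 2 ∣ Nat.card (⨆ P : Sylow 3 H, (P : Subgroup H) : Subgroup H))
    (hO : ∀ K : Subgroup H, K.Normal → IsPGroup 3 K → K = ⊥) :
    ∃ l : ∀ i, X i, (∀ i, l i ∈ E i ∧ l i ≠ 0) ∧ ∀ P : Sylow 3 H,
      ¬ ((∀ x ∈ (P : Subgroup H), ∀ i, ρ i x (l i) = l i) ∧
        ∀ h, (∀ i, ρ i h (l i) = l i) → ∀ x ∈ (P : Subgroup H), h * x * h⁻¹ ∈ (P : Subgroup H)) := by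
  classical
  have hf3 : Fact (Nat.Prime 3) := ⟨Nat.prime_three⟩
  by_contra hcon
  push Not at hcon
  -- vectors
  have hv : ∀ i, ∃ l ∈ E i, l ≠ 0 := fun i => Submodule.exists_mem_ne_zero_of_ne_bot (hE i)
  choose l0 hl0 hl1 using hv
  obtain ⟨P0, hP01, hP02⟩ := hcon l0 fun i => ⟨hl0 i, hl1 i⟩
  -- `L` stabilizes the subspaces
  set L : Subgroup H := ⨆ P : Sylow 3 H, (P : Subgroup H) with hLdef
  have hPL : ∀ P : Sylow 3 H, (P : Subgroup H) ≤ L := fun P =>
    le_iSup (fun P : Sylow 3 H => (P : Subgroup H)) P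
  have hLE0 : ∀ i, L ≤ Nm (ρ i) (E i) := by
    intro i
    refine tz_stb (Nm (ρ i) (E i)) (fun x hx y hy => hL i x hx y hy) P0 fun x hx => ?_
    rw [mem_Nm]
    refine hbl i x (l0 i) (hl0 i) (hl1 i) ?_
    rw [hP01 x hx i]
    exact hl0 i
  have hLE : ∀ i, ∀ g ∈ L, ∀ v ∈ E i, ρ i g v ∈ E i := by
    intro i g hg v hv
    have h1 := (mem_Nm (ρ i) (E i) g).1 (hLE0 i hg)
    rw [← h1]
    exact ⟨v, hv, rfl⟩
  have hsL : Group.IsSolvable L := inferInstance
  -- the main step
  have hmain : ∀ (x y : L) (m k : ℕ), x ^ 3 ^ m = 1 → y ^ 2 ^ k = 1 → ∀ i, ∀ v ∈ E i,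
      ρ i ((x * y : L) : H) v = ρ i ((y * x : L) : H) v := by
    intro x y m k hx hy i v hv
    have hnt : Nontrivial (E i) := (Submodule.nontrivial_iff_ne_bot).2 (hE i)
    -- the stabilizer of the other vectors
    let S : Subgroup H := zt_st ρ (fun j => j ≠ i) l0
    have hS : ∀ h, h ∈ S ↔ ∀ j, j ≠ i → ρ j h (l0 j) = l0 j := fun h =>
      zt_mem ρ (fun j => j ≠ i) l0 h
    have hPS : (P0 : Subgroup H) ≤ S := fun a ha => (hS a).2 fun j _ => hP01 a ha j
    let K : Subgroup L := S.subgroupOf L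
    have hK : ¬ 3 ∣ K.index := by
      intro h
      have h1 : (P0.subtype (hPL P0) : Subgroup L) ≤ K := fun a ha => hPS ha
      exact (P0.subtype (hPL P0)).not_dvd_index (h.trans (Subgroup.index_dvd_of_le h1))
    have hq := tz_cme (zt_rs (ρ i) (E i) L (hLE i)) (hp i) hsL tz_top K hK (by
      intro w hw
      have hw0 : (w : X i) ≠ 0 := fun h => hw (Subtype.ext h)
      -- the vector `l`
      let l : ∀ j, X j := Function.update l0 i (w : X i)
      have hli : l i = (w : X i) := Function.update_self _ _ _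
      have hlj : ∀ j, j ≠ i → l j = l0 j := fun j hj => Function.update_of_ne hj _ _
      obtain ⟨P, hP1, hP2⟩ := hcon l (by
        intro j
        by_cases hj : j = i
        · subst hj
          rw [hli]
          exact ⟨w.2, hw0⟩
        · rw [hlj j hj]
          exact ⟨hl0 j, hl1 j⟩)
      have huni := tz_uni (H := L) K ((zt_st ρ (fun j => j = i) l).subgroupOf L)
        (P.subtype (hPL P)) (by
          intro a ha
          have ha' : (a : H) ∈ (P : Subgroup H) := ha
          show (a : H) ∈ S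
          rw [hS]
          intro j hj
          rw [← hlj j hj]
          exact hP1 _ ha' j) (by
          intro a ha
          have ha' : (a : H) ∈ (P : Subgroup H) := ha
          intro j _
          exact hP1 _ ha' j) (by
          intro f hf hfK a ha
          have ha' : (a : H) ∈ (P : Subgroup H) := ha
          have hf' : ∀ j, j = i → ρ j (f : H) (l j) = l j := hf
          have hfK' : ∀ j, j ≠ i → ρ j (f : H) (l0 j) = l0 j := (hS _).1 hfK
          exact hP2 (f : H) (fun j => by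
            by_cases hj : j = i
            · exact hf' j hj
            · rw [hlj j hj]
              exact hfK' j hj) _ ha')
      have hiff : ∀ Q : Sylow 3 K, (∀ a ∈ (Q : Subgroup K),
          ((a : L)) ∈ (zt_st ρ (fun j => j = i) l).subgroupOf L) ↔
          ∀ a ∈ (Q : Subgroup K), zt_rs (ρ i) (E i) L (hLE i) (a : L) w = w := by
        intro Q
        refine forall_congr' fun a => forall_congr' fun _ => ?_
        rw [Subgroup.mem_subgroupOf, zt_mem]
        constructor
        · intro h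
          apply Subtype.ext
          rw [zt_rs_app, ← hli]
          exact h i rfl
        · rintro h j rfl
          rw [hli, ← zt_rs_app (ρ j) (E j) L (hLE j) (a : L) w, h]
      obtain ⟨Q, hQ1, hQ2⟩ := huni
      exact ⟨Q, (hiff Q).1 hQ1, fun Q' hQ' => hQ2 Q' ((hiff Q').2 hQ')⟩) x y m k hx hy ⟨v, hv⟩
    have := congrArg (fun t : E i => (t : X i)) hq
    exact this
  -- the kernel
  have hC := fun h => zt_mkr ρ E L h
  set C : Subgroup H := zt_kr ρ E L with hCdef
  have hCn : ∀ g ∈ L, ∀ c ∈ C, g * c * g⁻¹ ∈ C := by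
    intro g hg c hc
    rw [hC] at hc ⊢
    refine ⟨L.mul_mem (L.mul_mem hg hc.1) (L.inv_mem hg), fun i v hv => ?_⟩
    rw [zt_app, zt_app, hc.2 i _ (hLE i _ (L.inv_mem hg) v hv), ← zt_app, mul_inv_cancel, zt_one]
  have hcen := tz_cen hO C (fun c hc => ((hC c).1 hc).1) hCn P0 (fun c hc a ha =>
    hP02 c (fun i => ((hC c).1 hc).2 i _ (hl0 i)) a ha)
  refine tz_ctw (G := L) tz_top ?_ h2
  intro x y m k hx hy
  have hcC : ((x * y * x⁻¹ * y⁻¹ : L) : H) ∈ C := by
    rw [hC]
    refine ⟨Subtype.prop _, fun i v hv => ?_⟩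
    have h1 : (x * y * x⁻¹ * y⁻¹ : L) = (x * y) * (y * x)⁻¹ := by group
    have hw : ρ i (((y * x)⁻¹ : L) : H) v ∈ E i := hLE i _ (Subtype.prop _) v hv
    rw [h1, Subgroup.coe_mul, zt_app, hmain x y m k hx hy i _ hw, ← zt_app, ← Subgroup.coe_mul,
      mul_inv_cancel, Subgroup.coe_one, zt_one]
  have hcc : ∀ g : L, g * (x * y * x⁻¹ * y⁻¹) = (x * y * x⁻¹ * y⁻¹) * g := fun g =>
    Subtype.ext (hcen _ hcC g g.2)
  set c : L := x * y * x⁻¹ * y⁻¹ with hc
  have h3 : c ^ 3 ^ m = 1 := by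
    have e1 : y * x⁻¹ * y⁻¹ = x⁻¹ * c := by rw [hc]; group
    have e2 : (y * x⁻¹ * y⁻¹) ^ 3 ^ m = 1 := by
      rw [conj_pow, inv_pow, hx, inv_one, mul_one, mul_inv_cancel]
    have e3 : Commute x⁻¹ c := hcc x⁻¹
    rw [e1, e3.mul_pow, inv_pow, hx, inv_one, one_mul] at e2
    exact e2
  have h4 : c ^ 2 ^ k = 1 := by
    have e1 : x * y * x⁻¹ = c * y := by rw [hc]; group
    have e2 : (x * y * x⁻¹) ^ 2 ^ k = 1 := by
      rw [conj_pow, hy, mul_one, mul_inv_cancel]
    have e3 : Commute c y := (hcc y).symm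
    rw [e1, e3.mul_pow, hy, mul_one] at e2
    exact e2
  have h5 : c = 1 := by
    rw [← orderOf_eq_one_iff]
    exact Nat.eq_one_of_dvd_coprimes (Nat.Coprime.pow _ _ (by norm_num : Nat.Coprime 3 2))
      (orderOf_dvd_of_pow_eq_one h3) (orderOf_dvd_of_pow_eq_one h4)
  have h6 : x * y = c * (y * x) := by rw [hc]; group
  rw [h6, h5, one_mul]
-- END zt

end

end Pool.Agent.R12
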