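import Pool.Agent.R12.Cg

/-! Three stabilizers of which one gives a degree divisible by `r`. -/

set_option autoImplicit false

namespace Pool.Agent.R12

open Pool.Agent.Nan
open Pool.Agent.KB Pool.Agent.KB.ContrAux Pool.Agent.KBL Pool.Agent.KBZ Pool.Agent.KBU
  Pool.Agent.KBQ Pool.Agent.KBY

/-- The trivial character. -/
theorem one_irr3 (P : Type) [Group P] : (fun _ : P => (1 : ℂ)) ∈ Irr P := by
  refine ⟨1, (1 : P →* ((Fin 1 → ℂ) →ₗ[ℂ] (Fin 1 → ℂ))), ?_, ?_⟩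
  · have h1 : IsSimpleOrder (Submodule ℂ (Fin 1 → ℂ)) := by
      have h2 : IsSimpleModule ℂ (Fin 1 → ℂ) := by
        rw [isSimpleModule_iff_finrank_eq_one]
        simp
      exact (isSimpleModule_iff ℂ (Fin 1 → ℂ)).1 h2
    refine { exists_pair_ne := ⟨⊥, ⊤, fun h => ?_⟩, eq_bot_or_eq_top := fun S => ?_ }
    · have h2 := congrArg Subrepresentation.toSubmodule h
      exact bot_ne_top h2
    · rcases h1.eq_bot_or_eq_top S.toSubmodule with h2 | h2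
      · left
        exact Subrepresentation.toSubmodule_injective h2
      · right
        exact Subrepresentation.toSubmodule_injective h2
  · funext g
    show LinearMap.trace ℂ (Fin 1 → ℂ) (1 : (Fin 1 → ℂ) →ₗ[ℂ] (Fin 1 → ℂ)) = 1
    rw [LinearMap.trace_one]
    simp

/-- If no degree over `S` is divisible by `r`, then `S` contains exactly one Sylow `r`-subgroup of `H`. -/
theorem one_syl {H : Type} [Group H] [Finite H] (hs : Group.IsSolvable H) (r : ℕ) (hr : r.Prime)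
    (S : Subgroup H) (h : ∀ φ ∈ Irr S, ∀ b : ℕ, φ 1 = b → ¬ r ∣ S.index * b) :
    ∃ T : Sylow r H, (T : Subgroup H) ≤ S ∧ ∀ T' : Sylow r H, (T' : Subgroup H) ≤ S → T' = T := by
  have : Fact r.Prime := ⟨hr⟩
  have hsS : Group.IsSolvable S := by
    have := hs
    infer_instance
  have hind : ¬ r ∣ S.index := by
    have h1 := h _ (one_irr3 S) 1 (by norm_num)
    rwa [mul_one] at h1
  obtain ⟨R⟩ : Nonempty (Sylow r S) := inferInstance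
  obtain ⟨hRn, -⟩ := ito2 hsS r hr (fun χ hχ d hd hrd => h χ hχ d hd (Dvd.dvd.mul_left hrd _)) R
  have hRp : IsPGroup r ((R : Subgroup S).map S.subtype) := R.isPGroup'.map _
  obtain ⟨T, hT⟩ := hRp.exists_le_sylow
  have hcard : Nat.card (T : Subgroup H) = Nat.card ((R : Subgroup S).map S.subtype) := by
    have h1 : Nat.card ((R : Subgroup S).map S.subtype) = Nat.card (R : Subgroup S) :=
      (Nat.card_congr ((R : Subgroup S).equivMapOfInjective S.subtype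
        S.subtype_injective).toEquiv).symm
    have h2 : (Nat.card H).factorization r = (Nat.card S).factorization r := by
      rw [← Subgroup.card_mul_index S, Nat.factorization_mul Nat.card_pos.ne'
        Subgroup.index_ne_zero_of_finite, Finsupp.add_apply,
        Nat.factorization_eq_zero_of_not_dvd hind, add_zero]
    rw [h1, T.card_eq_multiplicity, R.card_eq_multiplicity, h2]
  have hTR : (R : Subgroup S).map S.subtype = T :=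
    Subgroup.eq_of_le_of_card_ge hT hcard.le
  refine ⟨T, ?_, ?_⟩
  · rw [← hTR]
    rintro _ ⟨x, -, rfl⟩
    exact x.2
  · intro T' hT'
    have h1 : T'.subtype hT' = R := by
      have := Sylow.unique_of_normal R hRn
      exact Subsingleton.elim _ _
    apply Sylow.ext
    rw [← hTR, ← h1, Sylow.coe_subtype]
    ext x
    rw [Subgroup.mem_map]
    constructor
    · intro hx
      exact ⟨⟨x, hT' hx⟩, hx, rfl⟩
    · rintro ⟨y, hy, rfl⟩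
      exact hy

/-- Three stabilizers. -/
theorem three {H : Type} [Group H] [Finite H] (hs : Group.IsSolvable H) (r : ℕ) (hr : r.Prime)
    (S₀ S₁ S₂ : Subgroup H)
    (h : ∀ T₀ T₁ T₂ : Sylow r H, (T₀ : Subgroup H) ≤ S₀ → (T₁ : Subgroup H) ≤ S₁ →
      (T₂ : Subgroup H) ≤ S₂ → (T₁ : Subgroup H) ≤ S₀ ∧ (T₂ : Subgroup H) ≤ S₀ ∧
        ¬ (T₁ = T₀ ∧ T₂ = T₀)) :
    (∃ φ ∈ Irr S₀, ∃ b : ℕ, φ 1 = b ∧ r ∣ S₀.index * b) ∨
    (∃ φ ∈ Irr S₁, ∃ b : ℕ, φ 1 = b ∧ r ∣ S₁.index * b) ∨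
    (∃ φ ∈ Irr S₂, ∃ b : ℕ, φ 1 = b ∧ r ∣ S₂.index * b) := by
  by_contra hcon
  push Not at hcon
  obtain ⟨h0, h1, h2⟩ := hcon
  obtain ⟨T₀, hT0, hu⟩ := one_syl hs r hr S₀ h0
  obtain ⟨T₁, hT1, -⟩ := one_syl hs r hr S₁ h1
  obtain ⟨T₂, hT2, -⟩ := one_syl hs r hr S₂ h2
  obtain ⟨a1, a2, a3⟩ := h T₀ T₁ T₂ hT0 hT1 hT2
  exact a3 ⟨hu T₁ a1, hu T₂ a2⟩

/-- The same for the stabilizers of three vectors (as in `gen3c`) in the stabilizer `S` of everything else. -/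
theorem three_vec {p : ℕ} {H X : Type} [Group H] [Finite H] [AddCommGroup X] [Module (ZMod p) X]
    (hs : Group.IsSolvable H) (ρ : Representation (ZMod p) H X) (S S₀ S₁ S₂ : Subgroup H)
    (x₀ x₁ x₂ : X) (hS₀ : ∀ z, z ∈ S₀ ↔ z ∈ S ∧ ρ z x₀ = x₀)
    (hS₁ : ∀ z, z ∈ S₁ ↔ z ∈ S ∧ ρ z x₁ = x₁) (hS₂ : ∀ z, z ∈ S₂ ↔ z ∈ S ∧ ρ z x₂ = x₂)
    (h : ∀ T₀ T₁ T₂ : Sylow 3 H, (∀ x ∈ (T₀ : Subgroup H), ρ x x₀ = x₀) →
      (∀ x ∈ (T₁ : Subgroup H), ρ x x₁ = x₁) → (∀ x ∈ (T₂ : Subgroup H), ρ x x₂ = x₂) →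
        (∀ x ∈ (T₁ : Subgroup H), ρ x x₀ = x₀) ∧ (∀ x ∈ (T₂ : Subgroup H), ρ x x₀ = x₀) ∧
          ¬ (T₁ = T₀ ∧ T₂ = T₀)) :
    (∃ φ ∈ Irr S₀, ∃ b : ℕ, φ 1 = b ∧ 3 ∣ S₀.index * b) ∨
    (∃ φ ∈ Irr S₁, ∃ b : ℕ, φ 1 = b ∧ 3 ∣ S₁.index * b) ∨
    (∃ φ ∈ Irr S₂, ∃ b : ℕ, φ 1 = b ∧ 3 ∣ S₂.index * b) := by
  refine three hs 3 Nat.prime_three S₀ S₁ S₂ ?_
  intro T₀ T₁ T₂ h0 h1 h2
  obtain ⟨a1, a2, a3⟩ := h T₀ T₁ T₂ (fun x hx => ((hS₀ x).1 (h0 hx)).2)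
    (fun x hx => ((hS₁ x).1 (h1 hx)).2) (fun x hx => ((hS₂ x).1 (h2 hx)).2)
  exact ⟨fun x hx => (hS₀ x).2 ⟨((hS₁ x).1 (h1 hx)).1, a1 x hx⟩,
    fun x hx => (hS₀ x).2 ⟨((hS₂ x).1 (h2 hx)).1, a2 x hx⟩, a3⟩

end Pool.Agent.R12
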