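import Pool.Agent.R12.Gz
import Pool.Agent.R12.Lw
import Pool.Agent.R12.Md3
import Pool.Agent.R12.T2
import Pool.Agent.R12.T3
import Pool.Agent.R12.Th3

/-! The assembly for `2 ∣ |G : Fit G|`. -/

set_option autoImplicit false

namespace Pool.Agent.R12

open Classical
open Pool.Agent.Nan Pool.Agent.Nas Pool.Agent.Nfv
open Pool.Agent.KB Pool.Agent.KB.ContrAux Pool.Agent.KBL Pool.Agent.KBZ Pool.Agent.KBU
  Pool.Agent.KBQ Pool.Agent.KBY

section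
variable {H : Type} [Group H] [Finite H]

-- BEGIN aa
private theorem aa_conj {r : ℕ} (R : Sylow r H) (S : Subgroup H) (g : H)
    (h : ∀ x ∈ (R : Subgroup H), g⁻¹ * x * g ∈ S) :
    ∃ R'' : Sylow r H, (R'' : Subgroup H) ≤ S := by
  refine ⟨g⁻¹ • R, fun x hx => ?_⟩
  rw [Sylow.coe_subgroup_smul, Subgroup.mem_pointwise_smul_iff_inv_smul_mem, ← map_inv,
    MulAut.smul_def, MulAut.conj_apply] at hx
  have h1 := h _ hx
  have h2 : g⁻¹ * (g⁻¹⁻¹ * x * g⁻¹⁻¹⁻¹) * g = x := by group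
  rwa [h2] at h1

private theorem aa_ext {ι : Type} {n : ι → ℕ} (i : ι) (C : Subgroup H) (x : Fin (n i) → H)
    (hx : ∀ j, x j ∈ C) :
    ∃ X : (Σ i, Fin (n i)) → H, (∀ J, X J ∈ C) ∧ (∀ j, X ⟨i, j⟩ = x j) ∧
      ∀ i' j', i' ≠ i → X ⟨i', j'⟩ = 1 := by
  refine ⟨fun J => if h : ∃ j, J = ⟨i, j⟩ then x h.choose else 1, fun J => ?_, fun j => ?_,
    fun i' j' hi => ?_⟩
  · by_cases h : ∃ j, J = ⟨i, j⟩
    · simp only [h, dite_true]
      exact hx _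
    · simp only [h, dite_false]
      exact one_mem _
  · have h : ∃ j', (⟨i, j⟩ : Σ i, Fin (n i)) = ⟨i, j'⟩ := ⟨j, rfl⟩
    have h1 : h.choose = j := by
      have := h.choose_spec
      exact (eq_of_heq (Sigma.mk.inj this).2).symm
    show (if h : ∃ j', (⟨i, j⟩ : Σ i, Fin (n i)) = ⟨i, j'⟩ then x h.choose else 1) = x j
    rw [dif_pos h, h1]
  · have h : ¬ ∃ j, (⟨i', j'⟩ : Σ i, Fin (n i)) = ⟨i, j⟩ := by
      rintro ⟨j, hj⟩
      exact hi (congrArg Sigma.fst hj)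
    show (if h : ∃ j, (⟨i', j'⟩ : Σ i, Fin (n i)) = ⟨i, j⟩ then x h.choose else 1) = 1
    rw [dif_neg h]

/-- (aa, size 2) The glue for all low characters at once: `k` depends only on the `St`. PROOF. As `fin_glue2` of Nfv/Mn.lean (`glue` of Nan/Ar.lean
gives `k` from the `St` only; the rest of the proof for the subgroups `Ss i (l i)`); copy it with the private lemmas `mn1_conj`, `mn1_ext`. -/
theorem fin_glue3 {ι : Type} [Finite ι] {A : Subgroup H} (hA : Ab A) (B : Set ℕ)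
    (hB : ∀ r ∈ B, AR A r) (hne : ∀ r ∈ B, cm A r ≠ ⊥) (p : ι → ℕ) (nt : ι → Subgroup H → Prop)
    (Λ : ι → Type) (Ss : ∀ i, Λ i → Subgroup H) (n : ι → ℕ) (St : ∀ i, Fin (n i) → Subgroup H)
    (hblk : ∀ i l, Blk2 A B (p i) (nt i) (Ss i l) (n i) (St i))
    (hf : ∀ q : ℕ, q.Prime → ∀ D : Subgroup H, D.Normal → IsPGroup q D → D ≠ ⊥ →
      ∃ i, p i ≠ q ∧ nt i D) :
    ∃ k : ∀ i, Fin (n i) → H, (∀ i j, k i j ∈ A) ∧
      ∀ l : ∀ i, Λ i, ∀ r ∈ B,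
        (∀ R : Sylow r H, ¬ ∀ x ∈ (R : Subgroup H), ∀ i j, (k i j)⁻¹ * x * k i j ∈ St i j) ∨
        ¬ ∃ R : Sylow r H, (∀ i, (R : Subgroup H) ≤ Ss i (l i)) ∧
          ∀ c ∈ cm A r, (∀ i, c ∈ Ss i (l i)) → c = 1 := by
  obtain ⟨k, hkA, hk⟩ := glue (J := Σ i, Fin (n i)) hA B hB (fun J => St J.1 J.2)
  refine ⟨fun i j => k ⟨i, j⟩, fun i j => hkA _, ?_⟩
  intro l r hr
  by_cases hZZ : ∀ R : Sylow r H,
      ¬ ∀ x ∈ (R : Subgroup H), ∀ i j, (k ⟨i, j⟩)⁻¹ * x * k ⟨i, j⟩ ∈ St i j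
  · exact Or.inl hZZ
  · right
    push Not at hZZ
    obtain ⟨R', hZ⟩ := hZZ
    rintro ⟨R, hR1, hR2⟩
    have hS := hk r hr ⟨R', fun J x hx => hZ x hx J.1 J.2⟩
    have hAc : Ab (cm A r) := ⟨cm_nor hA r, fun a ha b hb =>
      hA.com a (cm_le hA r ha) b (cm_le hA r hb)⟩
    have hcard : Nat.card (cm A r) ≠ 1 := fun h => hne r hr (Subgroup.card_eq_one.1 h)
    obtain ⟨q, hq, hqd⟩ := Nat.exists_prime_and_dvd hcard
    obtain ⟨D, hD, hDA, hDp, hD1⟩ := omq hAc q hq hqd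
    obtain ⟨i, hpi, hnt⟩ := hf q hq D hD hDp hD1
    have hc := (hblk i (l i)).c r hr ⟨q, hq, Ne.symm hpi, D, hD, hDA, hDp, hnt⟩
    have hd : Srj A r (St i) := by
      intro x hx
      obtain ⟨X, hX1, hX2, -⟩ := aa_ext i (cm A r) x hx
      obtain ⟨y, hy, hy2⟩ := hS X hX1
      refine ⟨y, hy, fun j => ?_⟩
      have := hy2 ⟨i, j⟩
      rwa [hX2 j] at this
    have hc3 : ¬ ∀ c ∈ cm A r, c ∈ Ss i (l i) → ∀ j, c ∈ St i j := fun h3 =>
      hc ⟨⟨R, hR1 i⟩, fun j => aa_conj R' (St i j) (k ⟨i, j⟩) fun x hx =>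
        hZ x hx i j, h3, hd⟩
    push Not at hc3
    obtain ⟨c, hcA, hcS, j, hcj⟩ := hc3
    obtain ⟨X, hX1, hX2, hX3⟩ := aa_ext i (cm A r) (fun _ => c) (fun _ => hcA)
    obtain ⟨y, hy, hy2⟩ := hS X hX1
    have hyi : ∀ j, c⁻¹ * y ∈ St i j := by
      intro j
      have := hy2 ⟨i, j⟩
      rwa [hX2 j] at this
    have hyS : ∀ i', y ∈ Ss i' (l i') := by
      intro i'
      by_cases hi : i' = i
      · subst hi
        have h1 : c⁻¹ * y ∈ Ss i' (l i') := (hblk i' (l i')).b1 _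
          (mul_mem (inv_mem (cm_le hA r hcA)) (cm_le hA r hy)) hyi
        have h2 := mul_mem hcS h1
        rwa [mul_inv_cancel_left] at h2
      · refine (hblk i' (l i')).b1 y (cm_le hA r hy) fun j' => ?_
        have := hy2 ⟨i', j'⟩
        rwa [hX3 i' j' hi, inv_one, one_mul] at this
    have hy1 := hR2 y hy hyS
    apply hcj
    have h1 := hyi j
    rw [hy1, mul_one] at h1
    exact inv_mem_iff.1 h1
-- END aa

-- BEGIN ab
/-- (ab, size 2) If `S` contains one Sylow `r`-subgroup of `H`, then the Sylow `r`-subgroups of `S` are Sylow subgroups of `H`. PROOF. `P.subtype hP` is a Sylow subgroup of `S` for a Sylow subgroup `P ≤ S` of `H`; all Sylow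
subgroups of `S` are conjugate to it in `S`; or compare orders (`Sylow.card_eq_multiplicity`; `one_syl` of Th3.lean contains such a computation). -/
theorem syl_up (r : ℕ) (hr : r.Prime) (S : Subgroup H) (P : Sylow r H) (hP : (P : Subgroup H) ≤ S)
    (R : Sylow r S) : ∃ Q : Sylow r H, (Q : Subgroup H) = (R : Subgroup S).map S.subtype := by
  have : Fact r.Prime := ⟨hr⟩
  obtain ⟨s, hs⟩ := MulAction.exists_smul_eq S (P.subtype hP) R
  refine ⟨(s : H) • P, ?_⟩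
  have h1 := Sylow.smul_subtype hP s
  rw [hs] at h1
  have h2 : (((s : H) • P : Sylow r H) : Subgroup H) ≤ S := Sylow.smul_le hP s
  have h3 : (R : Subgroup S) = ((((s : H) • P : Sylow r H) : Subgroup H)).subgroupOf S := by
    rw [h1]
    rfl
  rw [h3, Subgroup.map_subgroupOf_eq_of_le h2]
-- END ab

-- BEGIN ac
/-- (ac, size 3) PROOF. `prime`: clear; `ndvd`: the order of `A.subgroupOf S` divides the order of `A`. `nor`: for a Sylow subgroup `R` of `S` let `Q` be as in `syl_up`; `A ⊔ Q` is normal in `H`, and `(A ⊔ Q) ⊓ S = (A ⊓ S) ⊔ Q` (Dedekind, `Q ≤ S`), so `(A.subgroupOf S) ⊔ R` is the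
preimage of `A ⊔ Q` in `S` (an element `s = a * q`, `a ∈ A`, `q ∈ Q`, has `a = s q⁻¹ ∈ S`; `Subgroup.mem_sup_of_normal_left`), normal. -/
theorem ar_sub {A : Subgroup H} (hA : Ab A) (r : ℕ) (h : AR A r) (S : Subgroup H)
    (P : Sylow r H) (hP : (P : Subgroup H) ≤ S) : AR (A.subgroupOf S) r := by
  have hAn : A.Normal := hA.nor
  refine ⟨h.prime, fun hd => h.ndvd (hd.trans ?_), fun R => ?_⟩
  · have h1 : Nat.card (A.subgroupOf S) = Nat.card ((A.subgroupOf S).map S.subtype) :=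
      Nat.card_congr ((A.subgroupOf S).equivMapOfInjective S.subtype S.subtype_injective).toEquiv
    rw [h1]
    refine Subgroup.card_dvd_of_le ?_
    rintro _ ⟨x, hx, rfl⟩
    exact Subgroup.mem_subgroupOf.1 hx
  · obtain ⟨Q, hQ⟩ := syl_up r h.prime S P hP R
    have hN : (A ⊔ (Q : Subgroup H)).Normal := h.nor Q
    have key : A.subgroupOf S ⊔ (R : Subgroup S) = (A ⊔ (Q : Subgroup H)).subgroupOf S := by
      apply le_antisymm
      · refine sup_le ?_ ?_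
        · intro x hx
          exact Subgroup.mem_subgroupOf.2 ((le_sup_left : A ≤ A ⊔ (Q : Subgroup H))
            (Subgroup.mem_subgroupOf.1 hx))
        · intro x hx
          refine Subgroup.mem_subgroupOf.2 ((le_sup_right : (Q : Subgroup H) ≤ A ⊔ (Q : Subgroup H)) ?_)
          rw [hQ]
          exact ⟨x, hx, rfl⟩
      · intro s hs
        have h1 : (s : H) ∈ ((A ⊔ (Q : Subgroup H) : Subgroup H) : Set H) :=
          Subgroup.mem_subgroupOf.1 hs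
        rw [Subgroup.normal_mul] at h1
        obtain ⟨a, ha, q, hq, haq⟩ := Set.mem_mul.1 h1
        have hq' : q ∈ (Q : Subgroup H) := hq
        rw [hQ] at hq'
        obtain ⟨y, hy, rfl⟩ := hq'
        have h2 : ((s * y⁻¹ : S) : H) = a := by
          rw [Subgroup.coe_mul, Subgroup.coe_inv, ← haq]
          show a * (y : H) * (y : H)⁻¹ = a
          group
        have h3 : s * y⁻¹ ∈ A.subgroupOf S := by
          rw [Subgroup.mem_subgroupOf, h2]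
          exact ha
        have h4 : s = s * y⁻¹ * y := by group
        rw [h4]
        exact mul_mem ((le_sup_left : A.subgroupOf S ≤ A.subgroupOf S ⊔ (R : Subgroup S)) h3)
          ((le_sup_right : (R : Subgroup S) ≤ A.subgroupOf S ⊔ (R : Subgroup S)) hy)
    rw [key]
    exact Subgroup.Normal.subgroupOf hN S
-- END ac

-- BEGIN ad
/-- (ad, size 3) PROOF. `ar_cm`: `cm A r = ⁅A, P⁆` and (with `ar_sub`) `cm (A.subgroupOf S) r = ⁅A.subgroupOf S, P.subtype hP⁆ = ⊥`, so `P` commutes with all elements of `A ⊓ S`. Let `c ∈ cm A r ⊓ S`. So `c` commutes with the elements of `P`, and an element of `⁅A, P⁆` which commutes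
with `P` is `1` (coprime action: `ar_cop` of Nan/Ar.lean). -/
theorem cm_sub {A : Subgroup H} (hA : Ab A) (r : ℕ) (h : AR A r) (S : Subgroup H)
    (P : Sylow r H) (hP : (P : Subgroup H) ≤ S) (hc : cm (A.subgroupOf S) r = ⊥) :
    ∀ c ∈ cm A r, c ∈ S → c = 1 := by
  intro c hcm hcS
  have hcA : c ∈ A := cm_le hA r hcm
  rw [ar_cm hA h P] at hcm
  refine cp_fix hA (P : Subgroup H) (ar_cop h P) c hcm fun s hs => ?_
  have h1 : (⟨c, hcS⟩ : S) * (⟨s, hP hs⟩ : S) * (⟨c, hcS⟩ : S)⁻¹ * (⟨s, hP hs⟩ : S)⁻¹ ∈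
      cm (A.subgroupOf S) r := by
    have h0 : (⟨c, hcS⟩ : S) ∈ A.subgroupOf S := Subgroup.mem_subgroupOf.2 hcA
    refine Subgroup.commutator_mem_commutator h0 ?_
    have h2 : (⟨s, hP hs⟩ : S) ∈ ((P.subtype hP : Sylow r S) : Subgroup S) := by
      rw [Sylow.coe_subtype]
      exact Subgroup.mem_subgroupOf.2 hs
    exact (le_iSup (fun R : Sylow r S => (R : Subgroup S)) (P.subtype hP)) h2
  rw [hc, Subgroup.mem_bot] at h1
  have h2 : c * s * c⁻¹ * s⁻¹ = 1 := congrArg Subtype.val h1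
  have h3 : s * c * s⁻¹ = (c * s * c⁻¹ * s⁻¹)⁻¹ * c := by group
  rw [h3, h2, inv_one, one_mul]
-- END ad

-- BEGIN ae
private theorem ae_sub {A : Subgroup H} (hA : Ab A) (S : Subgroup H) : Ab (A.subgroupOf S) := by
  have := hA.nor
  exact ⟨inferInstance, fun a ha b hb => Subtype.ext (hA.com _ ha _ hb)⟩

/-- (ae, size 3) The low characters over `S`, the primes in `B` only. PROOF. `B' = {r ∈ B | (∃ P : Sylow r H, P ≤ S) ∧ cm (A.subgroupOf S) r ≠ ⊥}`, `lw0` for `S`, `A.subgroupOf S`, `B'` (`ar_sub`; `A.subgroupOf S` is abelian and normal: `Ab`). Let `r ∈ B`. If `r` does not divide `S.index` then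
a Sylow subgroup `P` of `H` is in `S` (`syl_in` of Nan/Cp.lean); if `cm (A.subgroupOf S) r = ⊥` then `cm_sub`, otherwise `r ∈ B'`. -/
theorem lowS0 (hs : Group.IsSolvable H) {A : Subgroup H} (hA : Ab A) (B : Set ℕ)
    (hB : ∀ r ∈ B, AR A r) (S : Subgroup H) :
    ∃ φ ∈ Irr S, ∃ b : ℕ, φ 1 = b ∧ ∀ r ∈ B, r ∣ S.index * b ∨
      ∃ R : Sylow r H, (R : Subgroup H) ≤ S ∧ ∀ x ∈ cm A r, x ∈ S → x = 1 := by
  obtain ⟨ψ, hψ, d, hd, h⟩ := lw0 (ae_sub hA S)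
    {r | r ∈ B ∧ (∃ P : Sylow r H, (P : Subgroup H) ≤ S) ∧ cm (A.subgroupOf S) r ≠ ⊥}
    (fun r hr => by
      obtain ⟨h1, ⟨P, hP⟩, -⟩ := hr
      exact ar_sub hA r (hB r h1) S P hP) (fun r hr => hr.2.2)
  refine ⟨ψ, hψ, d, hd, fun r hr => ?_⟩
  by_cases h1 : r ∣ S.index
  · exact Or.inl (h1.mul_right d)
  obtain ⟨P, hP⟩ := syl_in r (hB r hr).prime S h1
  by_cases h2 : cm (A.subgroupOf S) r = ⊥
  · exact Or.inr ⟨P, hP, cm_sub hA r (hB r hr) S P hP h2⟩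
  · exact Or.inl ((h r ⟨hr, ⟨P, hP⟩, h2⟩).mul_left S.index)
-- END ae

-- BEGIN af
/-- (af, size 3) The same with one more prime `c`. PROOF. If `c` divides `S.index`: `lowS0`. Otherwise there is a Sylow `c`-subgroup of `H` in `S` (`syl_in`), the Sylow `c`-subgroups of `S` are Sylow in `H` (`syl_up`), so by `hS` none of them is normal in `S`, and `hcc` holds for them; `lw` for `B'` as in
`lowS0` (`c ∉ B'`, the order of `A.subgroupOf S` divides that of `A`). -/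
theorem lowS (hs : Group.IsSolvable H) {A : Subgroup H} (hA : Ab A) (B : Set ℕ)
    (hB : ∀ r ∈ B, AR A r) (c : ℕ) (hc : c.Prime) (hcB : c ∉ B) (hcA : ¬ c ∣ Nat.card A)
    (hcc : c = 2 ∨ ∀ P Q : Sylow c H, ∀ x ∈ (P : Subgroup H), ∃ y ∈ (Q : Subgroup H),
      ∀ a ∈ A, x * a * x⁻¹ = y * a * y⁻¹)
    (S : Subgroup H)
    (hS : ∀ P : Sylow c H, ¬ ((P : Subgroup H) ≤ S ∧
      ∀ h ∈ S, ∀ x ∈ (P : Subgroup H), h * x * h⁻¹ ∈ (P : Subgroup H))) :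
    ∃ φ ∈ Irr S, ∃ b : ℕ, φ 1 = b ∧ c ∣ S.index * b ∧ ∀ r ∈ B, r ∣ S.index * b ∨
      ∃ R : Sylow r H, (R : Subgroup H) ≤ S ∧ ∀ x ∈ cm A r, x ∈ S → x = 1 := by
  by_cases hcS : c ∣ S.index
  · obtain ⟨φ, hφ, b, hb, h⟩ := lowS0 hs hA B hB S
    exact ⟨φ, hφ, b, hb, hcS.mul_right b, h⟩
  have hAS : Ab (A.subgroupOf S) := by
    have := hA.nor
    exact ⟨inferInstance, fun a ha b hb => Subtype.ext (hA.com _ ha _ hb)⟩
  obtain ⟨P₀, hP₀⟩ := syl_in c hc S hcS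
  have hsS : Group.IsSolvable S := by
    have := hs
    infer_instance
  have hcA' : ¬ c ∣ Nat.card (A.subgroupOf S) := fun h =>
    hcA (h.trans (Subgroup.card_comap_dvd_of_injective A S.subtype S.subtype_injective))
  obtain ⟨ψ, hψ, d, hd, hcd, h⟩ := lw hsS hAS
    {r | r ∈ B ∧ (∃ P : Sylow r H, (P : Subgroup H) ≤ S) ∧ cm (A.subgroupOf S) r ≠ ⊥}
    (fun r hr => by
      obtain ⟨h1, ⟨P, hP⟩, -⟩ := hr
      exact ar_sub hA r (hB r h1) S P hP) (fun r hr => hr.2.2) c hc hcA' (by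
      rcases hcc with h2 | h2
      · exact Or.inl h2
      · right
        intro P Q x hx
        obtain ⟨P', hP'⟩ := syl_up c hc S P₀ hP₀ P
        obtain ⟨Q', hQ'⟩ := syl_up c hc S P₀ hP₀ Q
        obtain ⟨y, hy, hxy⟩ := h2 P' Q' x (by
          rw [hP']
          exact ⟨x, hx, rfl⟩)
        rw [hQ'] at hy
        obtain ⟨y', hy', rfl⟩ := hy
        exact ⟨y', hy', fun a ha => Subtype.ext (hxy a ha)⟩) (by
      intro P hPn
      obtain ⟨P', hP'⟩ := syl_up c hc S P₀ hP₀ P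
      refine hS P' ⟨?_, ?_⟩
      · rw [hP']
        rintro _ ⟨x, -, rfl⟩
        exact x.2
      · rw [hP']
        rintro g hg _ ⟨x, hx, rfl⟩
        exact ⟨⟨g, hg⟩ * x * ⟨g, hg⟩⁻¹, hPn.conj_mem x hx ⟨g, hg⟩, rfl⟩)
  refine ⟨ψ, hψ, d, hd, hcd.mul_left S.index, fun r hr => ?_⟩
  by_cases h1 : r ∣ S.index
  · exact Or.inl (h1.mul_right d)
  obtain ⟨P, hP⟩ := syl_in r (hB r hr).prime S h1
  by_cases h2 : cm (A.subgroupOf S) r = ⊥
  · exact Or.inr ⟨P, hP, cm_sub hA r (hB r hr) S P hP h2⟩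
  · exact Or.inl ((h r ⟨hr, ⟨P, hP⟩, h2⟩).mul_left S.index)
-- END af

-- BEGIN ag
/-- (ag, size 1) PROOF. `omq` of Nan/Cp.lean: a prime divisor of the order of `A` gives a normal subgroup `D ≠ ⊥` which is a `q`-group. -/
theorem no_dvd {A : Subgroup H} (hA : Ab A) (c : ℕ) (hc : c.Prime)
    (hO : ∀ K : Subgroup H, K.Normal → IsPGroup c K → K = ⊥) : ¬ c ∣ Nat.card A := by
  intro hd
  obtain ⟨D, hDn, _, hDp, hDb⟩ := Pool.Agent.Nan.omq hA c hc hd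
  exact hDb (hO D hDn hDp)
-- END ag

-- BEGIN ah
/-- (ah, size 2) PROOF. `P`, `Q` Sylow 3-subgroups of `H`, both in `L = ⨆ P`. `Q = g P g⁻¹` with `g ∈ L` (`L` is normal, both are Sylow subgroups of `L`, `Sylow.subtype`, `MulAction.exists_smul_eq`; compare row zo (`tz_stb`) of T3.lean). For `x ∈ P` let `y = g x g⁻¹ = (g x g⁻¹ x⁻¹) x`. -/
theorem same3 {A : Subgroup H}
    (hL : ∀ x ∈ (⨆ P : Sylow 3 H, (P : Subgroup H)), ∀ y ∈ (⨆ P : Sylow 3 H, (P : Subgroup H)),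
      ∀ a ∈ A, x * y * x⁻¹ * y⁻¹ * a = a * (x * y * x⁻¹ * y⁻¹))
    (hA : A.Normal) (P Q : Sylow 3 H) : ∀ x ∈ (P : Subgroup H), ∃ y ∈ (Q : Subgroup H),
      ∀ a ∈ A, x * a * x⁻¹ = y * a * y⁻¹ := by
  have hf3 : Fact (Nat.Prime 3) := ⟨Nat.prime_three⟩
  have hPL : (P : Subgroup H) ≤ ⨆ P : Sylow 3 H, (P : Subgroup H) :=
    le_iSup (fun P : Sylow 3 H => (P : Subgroup H)) P
  have hQL : (Q : Subgroup H) ≤ ⨆ P : Sylow 3 H, (P : Subgroup H) :=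
    le_iSup (fun P : Sylow 3 H => (P : Subgroup H)) Q
  obtain ⟨g, hg⟩ := MulAction.exists_smul_eq
    ((⨆ P : Sylow 3 H, (P : Subgroup H) : Subgroup H)) (P.subtype hPL) (Q.subtype hQL)
  intro x hx
  have h1 : (g * ⟨x, hPL hx⟩ * g⁻¹ : (⨆ P : Sylow 3 H, (P : Subgroup H) : Subgroup H)) ∈
      ((Q.subtype hQL : Sylow 3 _) : Subgroup _) := by
    rw [← hg, Sylow.coe_subgroup_smul, Subgroup.mem_pointwise_smul_iff_inv_smul_mem]
    have h2 : g⁻¹ * (g * ⟨x, hPL hx⟩ * g⁻¹) * g =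
        (⟨x, hPL hx⟩ : (⨆ P : Sylow 3 H, (P : Subgroup H) : Subgroup H)) := by group
    rw [MulAut.smul_def, ← map_inv, MulAut.conj_apply, inv_inv, h2]
    exact hx
  have h3 : (g : H) * x * (g : H)⁻¹ ∈ (Q : Subgroup H) := h1
  refine ⟨(g : H) * x * (g : H)⁻¹, h3, fun a ha => ?_⟩
  have h4 := hL g g.2 x (hPL hx) (x * a * x⁻¹) (hA.conj_mem a ha x)
  have h5 : (g : H) * x * (g : H)⁻¹ * a * ((g : H) * x * (g : H)⁻¹)⁻¹ =
      (g : H) * x * (g : H)⁻¹ * x⁻¹ * (x * a * x⁻¹) * ((g : H) * x * (g : H)⁻¹ * x⁻¹)⁻¹ := by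
    group
  rw [h5, h4]
  group
-- END ah

-- BEGIN ai
/-- (ai, size 2) PROOF. `L = ⨆ P` acts transitively on the Sylow 3-subgroups of `H` by conjugation (see `same3`), so their number divides the order of `L` (orbit: `MulAction.card_orbit_mul_card_stabilizer_eq_card_group` / `MulAction.index_stabilizer`), or: the Sylow 3-subgroups of `H` are those of
`L` and `Sylow.card_dvd_index`. -/
theorem even3 (h : Even (Nat.card (Sylow 3 H))) :
    2 ∣ Nat.card (⨆ P : Sylow 3 H, (P : Subgroup H) : Subgroup H) := by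
  have : Fact (Nat.Prime 3) := ⟨Nat.prime_three⟩
  have hle : ∀ Q : Sylow 3 H, (Q : Subgroup H) ≤ ⨆ P : Sylow 3 H, (P : Subgroup H) :=
    fun Q => le_iSup (fun P : Sylow 3 H => (P : Subgroup H)) Q
  have hb : Function.Bijective
      (fun Q : Sylow 3 H => (Q.subtype (hle Q) :
        Sylow 3 ((⨆ P : Sylow 3 H, (P : Subgroup H) : Subgroup H)))) := by
    refine ⟨fun P Q hPQ => Sylow.subtype_injective hPQ, fun R => ?_⟩
    obtain ⟨Q, hQ⟩ := R.exists_comap_subtype_eq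
    refine ⟨Q, Sylow.ext ?_⟩
    rw [← hQ, Sylow.coe_subtype]
    rfl
  have hc := Nat.card_congr (Equiv.ofBijective _ hb)
  obtain ⟨P⟩ : Nonempty (Sylow 3 ((⨆ P : Sylow 3 H, (P : Subgroup H) : Subgroup H))) := inferInstance
  have h1 := Sylow.card_dvd_index P
  rw [← hc] at h1
  exact (h.two_dvd.trans h1).trans (Subgroup.index_dvd_card _)
-- END ai

end

section
variable {p : ℕ} {H : Type} [Group H] [Finite H]

-- BEGIN bd
/-- (bd, size 1) If the Sylow 3-subgroups move blocks, there are two blocks. -/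
theorem nt3 (F : Fam p H)
    (hT : ¬ ∀ R : Sylow 3 H, ∀ x ∈ (R : Subgroup H), ∀ b, (F.W b).map (F.ρ x) = F.W b) :
    Nontrivial F.J := by
  by_contra hn
  rw [not_nontrivial_iff_subsingleton] at hn
  refine hT fun R x _ b => ?_
  obtain ⟨b', hb'⟩ := F.bs.prm x b
  rw [hb', hn.elim b' b]
-- END bd

end

/-- The prime divisors of `|G|`. -/
abbrev PF (G : Type) [Group G] [Finite G] : Type := {p : ℕ // p ∈ (Nat.card G).primeFactors}

instance pf_fact {G : Type} [Group G] [Finite G] (i : PF G) : Fact (i : ℕ).Prime :=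
  ⟨Nat.prime_of_mem_primeFactors i.2⟩

section
variable {G : Type} [Group G] [Finite G]

/-- The family of all the modules. -/
def FF (E : ∀ i : PF G, PD G i) (s : Σ i : PF G, Fin (E i).n) : Fam (s.1 : ℕ) (G ⧸ Fit G) :=
  (E s.1).F s.2

/-- The subgroup `A`. -/
def AF (E : ∀ i : PF G, PD G i) : Subgroup (G ⧸ Fit G) := HA (FF E)

/-- The set of the odd prime divisors of `|G : Fit G|` which are of type `B` at all modules. -/
def BB (E : ∀ i : PF G, PD G i) : Set ℕ :=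
  {r | r.Prime ∧ 3 ≤ r ∧ r ∣ Nat.card (G ⧸ Fit G) ∧ ∀ i j, ((E i).F j).Bt r}

/-- The global data: the data for all primes, and the conjugating elements `k`. -/
structure GD (E : ∀ i : PF G, PD G i) (Cv : ∀ i : PF G, Fin (E i).n → Set ℕ)
    (Δ : ∀ i j, Finset ((E i).F j).J) (v : ∀ i j, ((E i).F j).J → ((E i).F j).X) where
  gd : ∀ i j, Gd ((E i).F j) (Cv i j) (Δ i j) (v i j)
  tb : ∀ i : PF G, TB G (AF E) (BB E) (i : ℕ) (E i) (Cv i) (Δ i) (v i)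
  k : ∀ i : PF G, Fin (tb i).n → G ⧸ Fit G
  kA : ∀ i a, k i a ∈ AF E
  gl : ∀ l : ∀ i : PF G, (tb i).X, (∀ i, l i ∈ (tb i).Y ∧ l i ≠ 0) → ∀ r ∈ BB E,
    (∀ R : Sylow r (G ⧸ Fit G), ¬ ∀ x ∈ (R : Subgroup (G ⧸ Fit G)), ∀ i a,
      (k i a)⁻¹ * x * k i a ∈ (tb i).St a) ∨
    ¬ ∃ R : Sylow r (G ⧸ Fit G),
      (∀ i : PF G, (R : Subgroup (G ⧸ Fit G)) ≤ fxH (Fit G) (Op i G) (op_nor i) ((tb i).s (l i))) ∧
      ∀ c ∈ cm (AF E) r, (∀ i : PF G, c ∈ fxH (Fit G) (Op i G) (op_nor i) ((tb i).s (l i))) → c = 1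

-- BEGIN ca
/-- (ca, size 2) PROOF. As in the proof of `main2` in Nfv/Mn.lean: `ha_ab`, `ha_ar`, `ha_ne`, `ha_triv`, `pd_fai`. -/
theorem ab_AF (hs : Group.IsSolvable G) (E : ∀ i : PF G, PD G i) : Ab (AF E) ∧
    (∀ r ∈ BB E, AR (AF E) r) ∧ (∀ r ∈ BB E, cm (AF E) r ≠ ⊥) ∧
    (∀ i j, AF E ≤ ((E i).F j).A) ∧
    ∀ r ∈ BB E, ∀ i j, (∀ c ∈ cm (AF E) r, ∀ x, ((E i).F j).ρ c x = x) →
      ∀ R : Sylow r (G ⧸ Fit G), ∀ y ∈ (R : Subgroup (G ⧸ Fit G)), ∀ x,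
        ((E i).F j).ρ y x = x := by
  have hfin : Finite (Σ i : PF G, Fin (E i).n) := inferInstance
  have hpF : ∀ s : (Σ i : PF G, Fin (E i).n), (s.1 : ℕ).Prime := fun s =>
    Nat.prime_of_mem_primeFactors s.1.2
  have hfai : ∀ h : G ⧸ Fit G, (∀ s, ∀ x, (FF E s).ρ h x = x) → h = 1 := fun h hh =>
    pd_fai hs E h fun i j x => hh ⟨i, j⟩ x
  refine ⟨ha_ab (FF E) hpF hfai, fun r hr => ?_, fun r hr => ?_, fun i j => ?_,
    fun r hr i j => ?_⟩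
  · exact ha_ar (FF E) hpF hfai r hr.1 fun s => hr.2.2.2 s.1 s.2
  · exact ha_ne (FF E) hpF hfai r hr.1 (fun s => hr.2.2.2 s.1 s.2) hr.2.2.1
  · exact iInf_le (fun s => (FF E s).A) ⟨i, j⟩
  · exact ha_triv (FF E) hpF hfai r hr.1 (fun s => hr.2.2.2 s.1 s.2) ⟨i, j⟩
-- END ca

-- BEGIN cb
omit [Finite G] in
private theorem cb_top (F : Subgroup G) [F.Normal] (P : Subgroup G) (hP : P.Normal) (x : G ⧸ F) :
    x ∈ fxH F P hP (fun _ => 1) := by
  obtain ⟨g, rfl⟩ := QuotientGroup.mk'_surjective F x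
  exact ⟨g, fun _ _ _ => rfl, rfl⟩

private theorem cb_one (P : Type) [Group P] : (fun _ : P => (1 : ℂ)) ∈ Irr P := one_irr3 P

private theorem cb_lin {P : Type} [Group P] (f : P →* ℂˣ) :
    (fun x : P => ((f x : ℂˣ) : ℂ)) ∈ Irr P := by
  have h1 := LinB_irr f _ (cb_one P)
  simpa using h1

/-- the stabilizer of a vector -/
private def cb_st {p : ℕ} {H X : Type} [Group H] [AddCommGroup X] [Module (ZMod p) X]
    (ρ : Representation (ZMod p) H X) (v : X) : Subgroup H where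
  carrier := {h | ρ h v = v}
  one_mem' := by
    show ρ 1 v = v
    rw [map_one]
    rfl
  mul_mem' := by
    intro a b ha hb
    show ρ (a * b) v = v
    rw [map_mul, Module.End.mul_apply]
    have h1 : ρ b v = v := hb
    have h2 : ρ a v = v := ha
    rw [h1, h2]
  inv_mem' := by
    intro a ha
    show ρ a⁻¹ v = v
    have h2 : ρ a v = v := ha
    calc ρ a⁻¹ v = ρ a⁻¹ (ρ a v) := by rw [h2]
      _ = (ρ a⁻¹ * ρ a) v := rfl
      _ = v := by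
        rw [← map_mul, inv_mul_cancel, map_one]
        rfl

/-- (cb, size 4) The data of a prime which is not in `Tau`. PROOF. As `gblk_lin2` of Nfv/Mn.lean. `X = ZMod p` with the trivial representation, `Y = ⊤`, `s l = 1`. `n` = the number of the pairs `(j, b)`, `b ∈ Δ j` (`e : (Σ j, {b // b ∈ Δ j}) ≃ Fin n`), `St (j, b)` = the stabilizer of
`v j b`, `κ k j b = k (e (j, b))` for `b ∈ Δ j`, otherwise `1`; `I = ∅`, `K k = ⊤`; `Θ k T` = the linear character of `∑ j, em j (T j)` (`zt_ex`, `lin_fx` of Gz.lean). `s3`, `s2`: all elements fix the trivial character. `blk`: as there. -/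
theorem tb_lin (p : ℕ) [Fact p.Prime] (E : PD G p) (hτ : ¬ Tau G p) {A : Subgroup (G ⧸ Fit G)}
    (hA : Ab A) (B : Set ℕ) (hB : ∀ r ∈ B, AR A r) (Ale : ∀ j, A ≤ (E.F j).A)
    (Cv : Fin E.n → Set ℕ) (Δ : ∀ j, Finset (E.F j).J) (v : ∀ j, (E.F j).J → (E.F j).X)
    (hg : ∀ j, Gd (E.F j) (Cv j) (Δ j) (v j)) : Nonempty (TB G A B p E Cv Δ v) := by
  have hAU : ∀ i j, ∀ a ∈ A, a ∈ (E.F i).UU j := by
    intro i j a ha
    have h1 := Ale i ha
    rw [Fam.A, Subgroup.mem_iInf] at h1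
    exact h1 j
  have hne : ∀ i, ∃ b₀, b₀ ∈ Δ i := fun i => (hg i).ne
  choose j₀ hj₀ using hne
  obtain ⟨ζ, hζ⟩ := zt_ex p
  -- the index set
  obtain ⟨n, ⟨e⟩⟩ : ∃ n : ℕ, Nonempty ((Σ i : Fin E.n, {j : (E.F i).J // j ∈ Δ i}) ≃ Fin n) :=
    ⟨_, ⟨Finite.equivFin _⟩⟩
  -- the conjugating elements
  obtain ⟨K, hK⟩ : ∃ K : (Fin n → G ⧸ Fit G) → ∀ i : Fin E.n, (E.F i).J → G ⧸ Fit G,
      ∀ k i j, K k i j = if h : j ∈ Δ i then k (e ⟨i, ⟨j, h⟩⟩) else 1 := ⟨_, fun _ _ _ => rfl⟩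
  have hKA : ∀ k, (∀ j, k j ∈ A) → ∀ i j, K k i j ∈ A := by
    intro k hk i j
    rw [hK]
    split_ifs
    · exact hk _
    · exact A.one_mem
  have hq1 : E.q 1 = 0 := by
    have h1 := E.q_mul 1 1
    rw [mul_one] at h1
    simpa using h1
  have hid : ∀ h : G ⧸ Fit G, (⊤ : Submodule (ZMod p) (ZMod p)).map
      ((1 : Representation (ZMod p) (G ⧸ Fit G) (ZMod p)) h) = ⊤ := fun h => Submodule.map_id _
  refine ⟨{
    X := ZMod p
    ρ := 1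
    Y := ⊤
    Yne := top_ne_bot
    Ybl := fun h _ _ _ _ => hid h
    YA := fun h _ => hid h
    Yc := fun h _ => hid h
    s := fun _ _ => 1
    s_irr := fun _ _ _ => cb_one _
    s_fx := fun _ _ _ _ _ => rfl
    s_one := fun _ _ => rfl
    s3 := fun _ _ _ _ _ _ _ x _ => cb_top _ _ _ x
    n := n
    St := fun a => cb_st (E.F (e.symm a).1).ρ (v (e.symm a).1 (e.symm a).2)
    blk := fun _ _ _ => ⟨fun a _ _ => cb_top _ _ _ a, ?_⟩
    κ := K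
    κA := hKA
    I := ∅
    one := fun j hj => absurd hj (Finset.notMem_empty j)
    K := fun _ => ⊤
    K_lin := fun _ => ⟨rfl, fun _ => rfl⟩
    K_cv := fun _ _ j hj => absurd hj (Finset.notMem_empty j)
    K_D := fun _ _ _ _ _ j hj => absurd hj (Finset.notMem_empty j)
    Θ := fun _ T x => ((ζ (Multiplicative.ofAdd ((∑ i, E.em i (T i)) (E.q x))) : ℂˣ) : ℂ)
    Θ_irr := ?_
    Θ_fx := ?_
    st := ?_
    dv := fun h => absurd h hτ
    s2 := fun _ _ _ _ _ _ _ _ => cb_top _ _ _ _ }⟩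
  · rintro r hr ⟨q, hq, hqp, D, hD, hDc, hDq, hD'⟩ ⟨-, -, h3, -⟩
    obtain ⟨i, d, hd, x, hx⟩ := E.det q hq hqp D hD hDq hD'
    apply hx
    have h4 : ∀ d ∈ D, Tv (E.F i).ρ ((E.F i).W (j₀ i)) d := by
      intro d hd
      have h5 := h3 d (hDc hd) (cb_top _ _ _ d) (e ⟨i, ⟨j₀ i, hj₀ i⟩⟩)
      rw [Equiv.symm_apply_apply] at h5
      have h6 : (E.F i).ρ d (v i (j₀ i)) = v i (j₀ i) := h5
      exact bs_fpf (E.F i).bs (j₀ i) d (hAU i _ d (cm_le hA r (hDc hd))) (v i (j₀ i))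
        ((hg i).vW (j₀ i)).1 ((hg i).vW (j₀ i)).2 h6
    have h5 : ∀ j, ∀ w ∈ (E.F i).W j, (E.F i).ρ d w = w := by
      intro j w hw
      obtain ⟨h, hh⟩ := (E.F i).bs.tra (j₀ i) j
      rw [← hh] at hw
      obtain ⟨u, hu, rfl⟩ := hw
      have h6 : h⁻¹ * d * h ∈ D := by
        have := hD.conj_mem d hd h⁻¹
        rwa [inv_inv] at this
      have h7 : (E.F i).ρ (h⁻¹ * d * h) u = u := h4 _ h6 u hu
      calc (E.F i).ρ d ((E.F i).ρ h u) = (E.F i).ρ (d * h) u := by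
            rw [map_mul, Module.End.mul_apply]
        _ = (E.F i).ρ (h * (h⁻¹ * d * h)) u := by
            congr 2
            group
        _ = (E.F i).ρ h ((E.F i).ρ (h⁻¹ * d * h) u) := by
            rw [map_mul, Module.End.mul_apply]
        _ = (E.F i).ρ h u := by rw [h7]
    have h6 : x ∈ ⨆ j, (E.F i).W j := by
      rw [(E.F i).bs.sup]
      exact Submodule.mem_top
    refine Submodule.iSup_induction _ (motive := fun x => (E.F i).ρ d x = x) h6 h5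
      (map_zero _) ?_
    intro x y hx hy
    rw [map_add, hx, hy]
  · intro k _ T
    let μ : Op p G →* ℂˣ :=
      { toFun := fun x => ζ (Multiplicative.ofAdd ((∑ i, E.em i (T i)) (E.q x)))
        map_one' := by
          rw [hq1, map_zero, ofAdd_zero, map_one]
        map_mul' := fun x y => by
          rw [E.q_mul, map_add, ofAdd_add, map_mul] }
    exact cb_lin μ
  · intro k _ T z
    rw [lin_fx p E ζ hζ T z]
    exact ⟨fun h => ⟨Subgroup.mem_top _, fun j _ => h j⟩,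
      fun h j => h.2 j (Finset.notMem_empty j)⟩
  · intro k hk r hr R _ hfix z hz a
    obtain ⟨⟨i, j, hj⟩, rfl⟩ := e.surjective a
    beta_reduce
    rw [Equiv.symm_apply_apply]
    show (E.F i).ρ ((k (e ⟨i, ⟨j, hj⟩⟩))⁻¹ * z * k (e ⟨i, ⟨j, hj⟩⟩)) (v i j) = v i j
    have hKk : K k i j = k (e ⟨i, ⟨j, hj⟩⟩) := by
      rw [hK, dif_pos hj]
    have h2 := hfix z hz i (Finset.notMem_empty i) j hj
    rw [← hKk, map_mul, map_mul, Module.End.mul_apply, Module.End.mul_apply, h2,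
      ← Module.End.mul_apply, ← map_mul, inv_mul_cancel, map_one]
    rfl
-- END cb

-- BEGIN cc
/-- (cc, size 4) Existence of the global data. PROOF. For each `i`: if `Tau G i` then `hTB` (`3 ≤ i`: `i` does not divide `|G : Fit G|`, but `2` does); otherwise `Δ`, `v` from `hgen` (take `b₀ = b₁` arbitrary, there is one because the blocks span a nonzero space) and `tb_lin`. Choose `Δ i`, `v i`, `tb i`. `fin_glue3`
with `Λ i = {l // l ∈ (tb i).Y ∧ l ≠ 0}` gives `k` (`fit_fai` as in `main2` of Nfv/Mn.lean). -/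
theorem gd_ex (hTB : TBst G) (hs : Group.IsSolvable G) (h2 : 2 ∣ Nat.card (G ⧸ Fit G))
    (E : ∀ i : PF G, PD G i) (Cv : ∀ i : PF G, Fin (E i).n → Set ℕ)
    (hCv : ∀ i j, ∀ r ∈ Cv i j, r.Prime ∧ ¬ ((E i).F j).Bt r)
    (Pd : ∀ i j, Finset ((E i).F j).J → (((E i).F j).J → ((E i).F j).X) → Prop)
    (hgen : ∀ i j b₀ b₁, ∃ Δ v, b₀ ∈ Δ ∧ b₁ ∈ Δ ∧ Pd i j Δ v ∧ Gd ((E i).F j) (Cv i j) Δ v) :
    ∃ (Δ : ∀ i j, Finset ((E i).F j).J) (v : ∀ i j, ((E i).F j).J → ((E i).F j).X),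
      (∀ i j, Nontrivial ((E i).F j).J → Pd i j (Δ i j) (v i j)) ∧ Nonempty (GD E Cv Δ v) := by
  obtain ⟨hA, hB, hne, hAle, htriv⟩ := ab_AF hs E
  have h1 : ∀ i : PF G, ∃ (Δ : ∀ j, Finset ((E i).F j).J)
      (v : ∀ j, ((E i).F j).J → ((E i).F j).X),
      (∀ j, Gd ((E i).F j) (Cv i j) (Δ j) (v j)) ∧
      (∀ j, Nontrivial ((E i).F j).J → Pd i j (Δ j) (v j)) ∧
      Nonempty (TB G (AF E) (BB E) i (E i) (Cv i) Δ v) := by
    intro i
    have hpi : Fact (i : ℕ).Prime := inferInstance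
    by_cases hτ : Tau G i
    · have h3 : 3 ≤ (i : ℕ) := by
        have h4 := hpi.out.two_le
        rcases Nat.lt_or_ge 2 (i : ℕ) with h | h
        · omega
        · exfalso
          have h5 : (i : ℕ) = 2 := by omega
          have h6 : ¬ (i : ℕ) ∣ Nat.card (G ⧸ Fit G) := hτ.1
          rw [h5] at h6
          exact h6 h2
      exact hTB i hs (E i) hτ h3 (AF E) hA (BB E) hB (fun r hr => hr.2.1) (hAle i)
        (fun r hr j => hr.2.2.2 i j) (fun r hr j => htriv r hr i j) (Cv i) (hCv i) (Pd i) (hgen i)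
    · have hJ : ∀ j, Nonempty ((E i).F j).J := by
        intro j
        by_contra hc
        rw [not_nonempty_iff] at hc
        have h4 := ((E i).F j).bs.sup
        rw [iSup_of_empty] at h4
        exact bot_ne_top h4
      have h5 : ∀ j, ∃ Δ v, Pd i j Δ v ∧ Gd ((E i).F j) (Cv i j) Δ v := by
        intro j
        obtain ⟨b⟩ := hJ j
        obtain ⟨Δ, v, -, -, h6, h7⟩ := hgen i j b b
        exact ⟨Δ, v, h6, h7⟩
      choose Δ v h6 h7 using h5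
      exact ⟨Δ, v, h7, fun j _ => h6 j, tb_lin i (E i) hτ hA (BB E) hB (hAle i) (Cv i) Δ v h7⟩
  choose Δ v hgd hPd hTBn using h1
  let tb : ∀ i : PF G, TB G (AF E) (BB E) i (E i) (Cv i) (Δ i) (v i) := fun i => (hTBn i).some
  obtain ⟨k, hkA, hgl⟩ := fin_glue3 hA (BB E) hB hne (fun i : PF G => (i : ℕ))
    (fun i D => ntG (Op i G) D) (fun i => {l : (tb i).X // l ∈ (tb i).Y ∧ l ≠ 0})
    (fun i l => fxH (Fit G) (Op i G) (op_nor i) ((tb i).s l)) (fun i => (tb i).n)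
    (fun i => (tb i).St) (fun i l => (tb i).blk l.1 l.2.1 l.2.2)
    (fun q hq D hD hD' hne => fit_fai q hq D hD hD' hne)
  exact ⟨Δ, v, hPd, ⟨⟨hgd, tb, k, hkA, fun l hl r hr => hgl (fun i => ⟨l i, hl i⟩) r hr⟩⟩⟩
-- END cc

section
variable {E : ∀ i : PF G, PD G i} {Cv : ∀ i : PF G, Fin (E i).n → Set ℕ}
  {Δ : ∀ i j, Finset ((E i).F j).J} {v : ∀ i j, ((E i).F j).J → ((E i).F j).X}

/-- The stabilizer of the low character. -/
def SL (D : GD E Cv Δ v) (l : ∀ i, (D.tb i).X) : Subgroup (G ⧸ Fit G) :=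
  ⨅ i : PF G, fxH (Fit G) (Op i G) (op_nor i) ((D.tb i).s (l i))

/-- The stabilizer of the high character. -/
def SH (D : GD E Cv Δ v) (T : ∀ i j, ((E i).F j).X) : Subgroup (G ⧸ Fit G) :=
  ⨅ i : PF G, fxH (Fit G) (Op i G) (op_nor i) ((D.tb i).Θ (D.k i) (T i))

/-- The standard vectors. -/
def T0 (D : GD E Cv Δ v) (i : PF G) (j : Fin (E i).n) : ((E i).F j).X :=
  ∑ b ∈ Δ i j, ((E i).F j).ρ ((D.tb i).κ (D.k i) j b) (v i j b)

/-- Good vectors: not zero, moved by the Sylow `r`-subgroups, `r ∈ Cv i j`; standard at the modules with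
one block; and the Sylow `r`-subgroups, `r ∈ B`, which fix them fix the components of the standard vector. -/
structure Gt (D : GD E Cv Δ v) (T : ∀ i j, ((E i).F j).X) : Prop where
  ne : ∀ i j, T i j ≠ 0
  one : ∀ i j, Subsingleton ((E i).F j).J → T i j = T0 D i j
  mv : ∀ i j, ∀ r ∈ Cv i j, ∀ R : Sylow r (G ⧸ Fit G),
    ¬ ∀ x ∈ (R : Subgroup (G ⧸ Fit G)), ((E i).F j).ρ x (T i j) = T i j
  cmp : ∀ r ∈ BB E, ∀ R : Sylow r (G ⧸ Fit G), ∀ i j,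
    (∀ x ∈ (R : Subgroup (G ⧸ Fit G)), ((E i).F j).ρ x (T i j) = T i j) →
      ∀ x ∈ (R : Subgroup (G ⧸ Fit G)), ∀ b ∈ Δ i j,
        ((E i).F j).ρ x (((E i).F j).ρ ((D.tb i).κ (D.k i) j b) (v i j b)) =
          ((E i).F j).ρ ((D.tb i).κ (D.k i) j b) (v i j b)

-- BEGIN da
/-- (da, size 1) PROOF. `Subgroup.mem_iInf`, `Θ_fx`. -/
theorem mem_SH (D : GD E Cv Δ v) (T : ∀ i j, ((E i).F j).X) (z : G ⧸ Fit G) :
    z ∈ SH D T ↔ ∀ i, z ∈ (D.tb i).K (D.k i) ∧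
      ∀ j, j ∉ (D.tb i).I → ((E i).F j).ρ z (T i j) = T i j := by
  rw [SH, Subgroup.mem_iInf]
  exact forall_congr' fun i => (D.tb i).Θ_fx (D.k i) (D.kA i) (T i) z
-- END da

-- BEGIN db
/-- components of a fixed vector are fixed, if the blocks are fixed -/
private theorem db_cmp {p : ℕ} {H X J : Type} [Group H] [AddCommGroup X] [Module (ZMod p) X]
    [Finite J] (ρ : Representation (ZMod p) H X) (W : J → Submodule (ZMod p) X)
    (hind : iSupIndep W) (z : H) (hz : ∀ j, (W j).map (ρ z) = W j) (Δ : Finset J) (w : J → X)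
    (hw : ∀ j, w j ∈ W j) (hf : ρ z (∑ j ∈ Δ, w j) = ∑ j ∈ Δ, w j) :
    ∀ j ∈ Δ, ρ z (w j) = w j := by
  intro j hj
  have h1 : ∑ j ∈ Δ, (ρ z (w j) - w j) = 0 := by
    rw [Finset.sum_sub_distrib, ← map_sum, hf, sub_self]
  have h2 : ∀ j, ρ z (w j) - w j ∈ W j := by
    intro j
    refine Submodule.sub_mem _ ?_ (hw j)
    rw [← hz j]
    exact ⟨w j, hw j, rfl⟩
  have h3 := (iSupIndep_iff_finsetSum_eq_zero_imp_eq_zero W).1 hind Δ _ (fun j _ => h2 j) h1 j hj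
  exact sub_eq_zero.1 h3

/-- (db, size 2) A Sylow `r`-subgroup, `r ∈ B`, which fixes a sum of vectors of different blocks fixes the summands. PROOF. `Bt r` (from `BB`): the elements of `R` are trivial or fix the blocks; the components of a fixed vector are fixed (private lemma `mn3_cmp` of Nfv/Mn.lean, copy it). -/
theorem cmpB (i : PF G) (j : Fin (E i).n) (r : ℕ) (hr : r ∈ BB E) (R : Sylow r (G ⧸ Fit G))
    (D₁ : Finset ((E i).F j).J) (w : ((E i).F j).J → ((E i).F j).X)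
    (hw : ∀ b, w b ∈ ((E i).F j).W b)
    (hf : ∀ x ∈ (R : Subgroup (G ⧸ Fit G)), ((E i).F j).ρ x (∑ b ∈ D₁, w b) = ∑ b ∈ D₁, w b) :
    ∀ x ∈ (R : Subgroup (G ⧸ Fit G)), ∀ b ∈ D₁, ((E i).F j).ρ x (w b) = w b := by
  intro x hx b hb
  rcases hr.2.2.2 i j with h | ⟨h, -, -⟩
  · exact h R x hx _
  · exact db_cmp ((E i).F j).ρ ((E i).F j).W ((E i).F j).bs.ind x (fun b => h R x hx b) D₁ w hw
      (hf x hx) b hb
-- END db

-- BEGIN dc
/-- (dc, size 2) The standard vectors are good. PROOF. `κA`: the twists are in `AF E ≤ (F j).A ≤ UU b ≤ Nm` (`ab_AF`, `Fam.A`, `bs.uN`). `ne`: the components are nonzero and in different blocks (`bs.ind`), `Δ` is not empty (`Gd.ne`). `mv`: `Gd.cov`. `cmp`: `cmpB`. -/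
theorem gt_T0 (hs : Group.IsSolvable G) (D : GD E Cv Δ v) : Gt D (T0 D) := by
  have hle := (ab_AF hs E).2.2.2.1
  have hN : ∀ i j b, (D.tb i).κ (D.k i) j b ∈ Nm ((E i).F j).ρ (((E i).F j).W b) := by
    intro i j b
    have h1 := hle i j ((D.tb i).κA (D.k i) (D.kA i) j b)
    exact ((E i).F j).bs.uN b (Subgroup.mem_iInf.1 h1 b)
  have hW : ∀ i j b, ((E i).F j).ρ ((D.tb i).κ (D.k i) j b) (v i j b) ∈ ((E i).F j).W b := by
    intro i j b
    have h1 : (((E i).F j).W b).map (((E i).F j).ρ ((D.tb i).κ (D.k i) j b)) = ((E i).F j).W b := hN i j b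
    rw [← h1]
    exact ⟨_, ((D.gd i j).vW b).1, rfl⟩
  refine ⟨?_, fun _ _ _ => rfl, ?_, ?_⟩
  · intro i j h0
    obtain ⟨b, hb⟩ := (D.gd i j).ne
    have h1 := (iSupIndep_iff_finsetSum_eq_zero_imp_eq_zero _).1 ((E i).F j).bs.ind (Δ i j) _
      (fun b _ => hW i j b) h0 b hb
    apply ((D.gd i j).vW b).2
    have h2 := congrArg (((E i).F j).ρ ((D.tb i).κ (D.k i) j b)⁻¹) h1
    rwa [map_zero, ← Module.End.mul_apply, ← map_mul, inv_mul_cancel, map_one, Module.End.one_apply] at h2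
  · intro i j r hr R h
    exact (D.gd i j).cov (fun b => (D.tb i).κ (D.k i) j b) (hN i j) r hr R h
  · intro r hr R i j h
    exact cmpB i j r hr R (Δ i j) _ (hW i j) h
-- END dc

-- BEGIN dd
/-- (dd, size 3) The high characters. PROOF. `highT` of Gz.lean with `Θ i := (D.tb i).Θ (D.k i) (T i)`, `S = SH D T`: if `i ∣ card (G ⧸ Fit G)` then `i` is not in `Tau`, so `K = ⊤` and `I = ∅` (`K_lin`), and `z ∈ fxH .. (Θ i)` iff `z` fixes all `T i j` (`Θ_fx`). -/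
theorem hi_char (D : GD E Cv Δ v) (hE : ∀ i, Ffr (E i)) (T : ∀ i j, ((E i).F j).X)
    (φ : SH D T → ℂ) (hφ : φ ∈ Irr (SH D T)) (b : ℕ) (hb : φ 1 = b) :
    ∃ χ ∈ Irr G, ∃ d : ℕ, χ 1 = d ∧ (SH D T).index * b ∣ d ∧
      ∀ i : PF G, ¬ (i : ℕ) ∣ Nat.card (G ⧸ Fit G) →
        ∀ e : ℕ, (D.tb i).Θ (D.k i) (T i) 1 = e → e ∣ d := by
  have hS : ∀ z, z ∈ SH D T ↔ ∀ i : {p : ℕ // p ∈ (Nat.card G).primeFactors},
      ((i : ℕ) ∣ Nat.card (G ⧸ Fit G) → ∀ j, ((E i).F j).ρ z (T i j) = T i j) ∧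
      (¬ (i : ℕ) ∣ Nat.card (G ⧸ Fit G) → z ∈ fxH (Fit G) (Op (i : ℕ) G) (op_nor _)
        ((D.tb i).Θ (D.k i) (T i))) := by
    intro z
    rw [SH, Subgroup.mem_iInf]
    refine forall_congr' fun i => ?_
    by_cases hi : (i : ℕ) ∣ Nat.card (G ⧸ Fit G)
    · have hτ : ¬ Tau G i := fun h => h.1 hi
      obtain ⟨hI, hK⟩ := (D.tb i).K_lin hτ
      rw [(D.tb i).Θ_fx (D.k i) (D.kA i) (T i) z]
      constructor
      · rintro ⟨_, h⟩
        exact ⟨fun _ j => h j (by rw [hI]; exact Finset.notMem_empty j), fun h' => absurd hi h'⟩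
      · rintro ⟨h, _⟩
        exact ⟨by rw [hK]; exact Subgroup.mem_top _, fun j _ => h hi j⟩
    · exact ⟨fun h => ⟨fun h' => absurd h' hi, fun _ => h⟩, fun h => h.2 hi⟩
  exact highT E hE T (fun i => (D.tb i).Θ (D.k i) (T i))
    (fun i => (D.tb i).Θ_irr (D.k i) (D.kA i) (T i)) (SH D T) hS φ hφ b hb
-- END dd

-- BEGIN de
omit [Finite G] in
private theorem de_one (F : Subgroup G) [F.Normal] (P : Subgroup G) (hP : P.Normal) (x : G ⧸ F) :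
    x ∈ fxH F P hP (fun _ => 1) := by
  obtain ⟨g, rfl⟩ := QuotientGroup.mk'_surjective F x
  exact ⟨g, fun _ _ _ => rfl, rfl⟩

/-- (de, size 2) The low characters. PROOF. `lowg` of Cg.lean for `s i = (D.tb i).s (l i)`, `i` in `Tau`; `SL D l` is the intersection of their stabilizers, because the `s i` of the other `i` are `1` (`s_one`; all elements fix `1`: private lemma `mn6_one` of Nfv/Mn.lean). -/
theorem lo_char (D : GD E Cv Δ v) (l : ∀ i, (D.tb i).X)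
    (hl : ∀ i, l i ∈ (D.tb i).Y ∧ l i ≠ 0) (φ : SL D l → ℂ) (hφ : φ ∈ Irr (SL D l)) (b : ℕ)
    (hb : φ 1 = b) :
    ∃ χ ∈ Irr G, ∃ d : ℕ, χ 1 = d ∧ (SL D l).index * b ∣ d ∧
      ∀ i : PF G, Tau G i → ∀ e : ℕ, (D.tb i).s (l i) 1 = e → e ∣ d := by
  have hS : ∀ z, z ∈ SL D l ↔ ∀ i : {p : ℕ // p ∈ (Nat.card G).primeFactors ∧ Tau G p},
      z ∈ fxH (Fit G) (Op (i : ℕ) G) (op_nor _)
        ((D.tb ⟨(i : ℕ), i.2.1⟩).s (l ⟨(i : ℕ), i.2.1⟩)) := by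
    intro z
    constructor
    · intro h i
      exact (Subgroup.mem_iInf.1 h) ⟨(i : ℕ), i.2.1⟩
    · intro h
      refine Subgroup.mem_iInf.2 fun i => ?_
      by_cases hτ : Tau G (i : ℕ)
      · exact h ⟨(i : ℕ), i.2, hτ⟩
      · rw [(D.tb i).s_one hτ (l i)]
        exact de_one _ _ _ z
  obtain ⟨χ, hχ, d, hd, hdv, hde⟩ := lowg
    (fun i : {p : ℕ // p ∈ (Nat.card G).primeFactors ∧ Tau G p} =>
      (D.tb ⟨(i : ℕ), i.2.1⟩).s (l ⟨(i : ℕ), i.2.1⟩))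
    (fun i => (D.tb ⟨(i : ℕ), i.2.1⟩).s_irr _ (hl _).1 (hl _).2) (SL D l) hS φ hφ b hb
  exact ⟨χ, hχ, d, hd, hdv, fun i hτ e he => hde ⟨(i : ℕ), i.2, hτ⟩ e he⟩
-- END de

-- BEGIN df
/-- (df, size 3) The end. PROOF. `hi_char`, `lo_char`. Let `r` divide the degree of some character, so `r ∣ card G`, `i = ⟨r, _⟩ : PF G`. If `r ∣ card (G ⧸ Fit G)`: `hr`. Otherwise as at the end of the proof of `main2` in Nfv/Mn.lean: `Op r G` is not abelian (`ito`, `op_idx`), so `Tau G r`, and `dv`. -/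
theorem fin (D : GD E Cv Δ v) (hE : ∀ i, Ffr (E i)) (T : ∀ i j, ((E i).F j).X)
    (φ : SH D T → ℂ) (hφ : φ ∈ Irr (SH D T)) (b : ℕ) (hb : φ 1 = b)
    (l : ∀ i, (D.tb i).X) (hl : ∀ i, l i ∈ (D.tb i).Y ∧ l i ≠ 0)
    (ψ : SL D l → ℂ) (hψ : ψ ∈ Irr (SL D l)) (c : ℕ) (hc : ψ 1 = c)
    (hr : ∀ r : ℕ, r.Prime → r ∣ Nat.card (G ⧸ Fit G) →
      r ∣ (SH D T).index * b ∨ r ∣ (SL D l).index * c) :
    ∃ χ₁ ∈ Irr G, ∃ χ₂ ∈ Irr G, ∃ d₁ d₂ : ℕ, χ₁ 1 = d₁ ∧ χ₂ 1 = d₂ ∧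
      ∀ p : ℕ, p.Prime → (∃ χ ∈ Irr G, ∃ d : ℕ, χ 1 = d ∧ p ∣ d) → p ∣ d₁ * d₂ := by
  obtain ⟨χ₁, hχ₁, d₁, hd₁, hdv₁, hhi⟩ := hi_char D hE T φ hφ b hb
  obtain ⟨χ₂, hχ₂, d₂, hd₂, hdv₂, hlo⟩ := lo_char D l hl ψ hψ c hc
  refine ⟨χ₁, hχ₁, χ₂, hχ₂, d₁, d₂, hd₁, hd₂, fun r hr' hex => ?_⟩
  obtain ⟨χ, hχ, d, hd, hpd⟩ := hex
  have hrG : r ∣ Nat.card G := by
    have hft := Fintype.ofFinite G
    exact hpd.trans (Cdeg_dvd χ hχ d hd)
  have hrm : r ∈ (Nat.card G).primeFactors :=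
    Nat.mem_primeFactors.2 ⟨hr', hrG, Nat.card_pos.ne'⟩
  by_cases hF : r ∣ Nat.card (G ⧸ Fit G)
  · rcases hr r hr' hF with h | h
    · exact (h.trans hdv₁).mul_right d₂
    · exact (h.trans hdv₂).mul_left d₁
  · have hF' : ¬ r ∣ (Fit G).index := hF
    by_cases hab : ∀ x ∈ Op r G, ∀ y ∈ Op r G, x * y = y * x
    · exact absurd hpd
        (ito r hr' (Op r G) (op_nor r) (op_pgr r) hab (op_idx r hr' hF') χ hχ d hd)
    · have hτ : Tau G r := ⟨hF', hab⟩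
      rcases (D.tb ⟨r, hrm⟩).dv hτ with h1 | h1
      · obtain ⟨e, he, hpe⟩ := h1 (l ⟨r, hrm⟩) (hl ⟨r, hrm⟩).1 (hl ⟨r, hrm⟩).2
        exact (hpe.trans (hlo ⟨r, hrm⟩ hτ e he)).mul_left d₁
      · obtain ⟨e, he, hpe⟩ := h1 (D.k ⟨r, hrm⟩) (D.kA ⟨r, hrm⟩) (T ⟨r, hrm⟩)
        exact (hpe.trans (hhi ⟨r, hrm⟩ hF e he)).mul_right d₂
-- END df

-- BEGIN dg
/-- (dg, size 2) The primes in `Cv i j` divide the index of the stabilizer of the high character. PROOF. Otherwise (`syl_in`) a Sylow subgroup `R ≤ SH D T`; `mem_SH`; `j ∈ I`: `K_cv`; `j ∉ I`: `Gt.mv`. -/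
theorem hi_cv (D : GD E Cv Δ v) (T : ∀ i j, ((E i).F j).X) (hT : Gt D T) (i : PF G)
    (j : Fin (E i).n) (r : ℕ) (hr : r.Prime) (hrC : r ∈ Cv i j) : r ∣ (SH D T).index := by
  by_contra h
  obtain ⟨R, hR⟩ := syl_in r hr (SH D T) h
  have hm : ∀ x ∈ (R : Subgroup (G ⧸ Fit G)), x ∈ (D.tb i).K (D.k i) ∧
      ∀ j, j ∉ (D.tb i).I → ((E i).F j).ρ x (T i j) = T i j :=
    fun x hx => (mem_SH D T x).1 (hR hx) i
  by_cases hj : j ∈ (D.tb i).I
  · exact (D.tb i).K_cv (D.k i) (D.kA i) j hj r hrC R (fun x hx => (hm x hx).1)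
  · exact hT.mv i j r hrC R (fun x hx => (hm x hx).2 j hj)
-- END dg

-- BEGIN dh
/-- (dh, size 3) A normal `r`-subgroup `N ≠ ⊥`. PROOF. Otherwise (`syl_in`) a Sylow subgroup `R ≤ SH D T`, and `N ≤ R` (`nor_syl`, `syl_nor`: a normal `r`-subgroup is in every Sylow subgroup). `j ∈ I`: `K_D`. `j ∉ I`: `N` fixes `T i j ≠ 0`; the vectors which are fixed by `N` form an `H`-invariant submodule, so it is
everything (`irr`). So `N` is trivial on all the modules, `pd_fai`: `N = ⊥`. -/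
theorem hi_O (hs : Group.IsSolvable G) (D : GD E Cv Δ v) (T : ∀ i j, ((E i).F j).X)
    (hT : Gt D T) (r : ℕ) (hr : r.Prime) (N : Subgroup (G ⧸ Fit G)) (hN : N.Normal)
    (hNr : IsPGroup r N) (hN1 : N ≠ ⊥) : r ∣ (SH D T).index := by
  by_contra hcon
  obtain ⟨R, hR⟩ := syl_in r hr _ hcon
  have hNR : N ≤ SH D T := (nor_syl r hr N hN hNr R).trans hR
  apply hN1
  rw [Subgroup.eq_bot_iff_forall]
  intro d hd
  refine pd_fai hs E d fun i j x => ?_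
  by_cases hj : j ∈ (D.tb i).I
  · have hK : N ≤ (D.tb i).K (D.k i) := fun z hz => ((mem_SH D T z).1 (hNR hz) i).1
    exact (D.tb i).K_D (D.k i) (D.kA i) N hN hK j hj d hd x
  · have hfix : ∀ z ∈ N, ((E i).F j).ρ z (T i j) = T i j := fun z hz =>
      ((mem_SH D T z).1 (hNR hz) i).2 j hj
    let W : Submodule (ZMod (i : ℕ)) ((E i).F j).X :=
      { carrier := {y | ∀ z ∈ N, ((E i).F j).ρ z y = y}
        add_mem' := by
          intro a b ha hb z hz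
          rw [map_add, ha z hz, hb z hz]
        zero_mem' := by
          intro z _
          rw [map_zero]
        smul_mem' := by
          intro c a ha z hz
          rw [map_smul, ha z hz] }
    have hW : ∀ n ∈ (⊤ : Subgroup (G ⧸ Fit G)), ∀ w ∈ W, ((E i).F j).ρ n w ∈ W := by
      intro n _ w hw z hz
      have h1 : n⁻¹ * z * n ∈ N := by
        have := hN.conj_mem z hz n⁻¹
        rwa [inv_inv] at this
      have h2 := hw _ h1
      calc ((E i).F j).ρ z (((E i).F j).ρ n w) = ((E i).F j).ρ n (((E i).F j).ρ (n⁻¹ * z * n) w) := by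
            rw [← Module.End.mul_apply, ← Module.End.mul_apply, ← map_mul, ← map_mul]
            congr 2
            group
        _ = ((E i).F j).ρ n w := by rw [h2]
    rcases ((E i).F j).irr W hW with h | h
    · exfalso
      have h1 : T i j ∈ W := hfix
      rw [h, Submodule.mem_bot] at h1
      exact hT.ne i j h1
    · have h1 : x ∈ W := by rw [h]; exact Submodule.mem_top
      exact h1 d hd
-- END dh

-- BEGIN di
/-- (di, size 2) The prime `2` at a module which is not semilinear and in which every Sylow 2-subgroup moves every nonzero vector. PROOF. `j ∉ I` by `TB.one`. Otherwise (`syl_in`) a Sylow subgroup `≤ SH D T` fixes `T i j ≠ 0`. -/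
theorem hi_2 (D : GD E Cv Δ v) (T : ∀ i j, ((E i).F j).X) (hT : Gt D T) (i : PF G)
    (j : Fin (E i).n) (hab : ¬ Abq ((E i).F j).ρ ((E i).F j).W ((E i).F j).UU)
    (h2 : ∀ P : Sylow 2 (G ⧸ Fit G), ∀ x : ((E i).F j).X, x ≠ 0 →
      ∃ y ∈ (P : Subgroup (G ⧸ Fit G)), ((E i).F j).ρ y x ≠ x) : 2 ∣ (SH D T).index := by
  by_contra hcon
  obtain ⟨P, hP⟩ := syl_in 2 Nat.prime_two _ hcon
  have hj : j ∉ (D.tb i).I := fun hj => hab ((D.tb i).one j hj).2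
  obtain ⟨y, hy, hne⟩ := h2 P (T i j) (hT.ne i j)
  exact hne (((mem_SH D T y).1 (hP hy) i).2 j hj)
-- END di

-- BEGIN dj
/-- (dj, size 3) The primes in `B`. PROOF. `D.gl`. First alternative: if `r` does not divide `(SH D T).index` then there is a Sylow subgroup `R ≤ SH D T` (`syl_in`), so `R ≤ K`, `R` fixes the `T i j`, `j ∉ I`, so (`Gt.cmp`) the components, and `TB.st` is a contradiction. Second alternative: `hψ` (`SL` is the
intersection: `Subgroup.mem_iInf`, `le_iInf_iff`). -/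
theorem hi_B (D : GD E Cv Δ v) (T : ∀ i j, ((E i).F j).X) (hT : Gt D T)
    (l : ∀ i, (D.tb i).X) (hl : ∀ i, l i ∈ (D.tb i).Y ∧ l i ≠ 0) (c : ℕ)
    (hψ : ∀ r ∈ BB E, r ∣ (SL D l).index * c ∨ ∃ R : Sylow r (G ⧸ Fit G),
      (R : Subgroup (G ⧸ Fit G)) ≤ SL D l ∧ ∀ x ∈ cm (AF E) r, x ∈ SL D l → x = 1) :
    ∀ r ∈ BB E, r ∣ (SH D T).index ∨ r ∣ (SL D l).index * c := by
  intro r hr
  by_cases h : r ∣ (SH D T).index
  · exact Or.inl h
  · right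
    rcases hψ r hr with h1 | ⟨R, hRS, hc⟩
    · exact h1
    · exfalso
      rcases D.gl l hl r hr with h2 | h2
      · obtain ⟨R', hR'⟩ := syl_in r hr.1 (SH D T) h
        apply h2 R'
        intro x hx i a
        exact (D.tb i).st (D.k i) (D.kA i) r hr R'
          (fun y hy => ((mem_SH D T y).1 (hR' hy) i).1)
          (fun y hy j hj b hb => hT.cmp r hr R' i j
            (fun z hz => ((mem_SH D T z).1 (hR' hz) i).2 j hj) y hy b hb) x hx a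
      · apply h2
        refine ⟨R, fun i x hx => ?_, fun x hx1 hx2 => hc x hx1 ?_⟩
        · exact (Subgroup.mem_iInf.1 (hRS hx)) i
        · exact Subgroup.mem_iInf.2 hx2
-- END dj

-- BEGIN dk
omit [Finite G] in
private theorem dk_one (F : Subgroup G) [F.Normal] (P : Subgroup G) (hP : P.Normal) (x : G ⧸ F) :
    x ∈ fxH F P hP (fun _ => 1) := by
  obtain ⟨g, rfl⟩ := QuotientGroup.mk'_surjective F x
  exact ⟨g, fun _ _ _ => rfl, rfl⟩

/-- If a Sylow subgroup of `H` is normal in `S`, it is the only one in `S`. -/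
private theorem dk_eq {H : Type} [Group H] [Finite H] {r : ℕ} [Fact r.Prime] (S : Subgroup H)
    (P P' : Sylow r H) (hP : (P : Subgroup H) ≤ S) (hP' : (P' : Subgroup H) ≤ S)
    (hn : ∀ h ∈ S, ∀ x ∈ (P : Subgroup H), h * x * h⁻¹ ∈ (P : Subgroup H)) :
    (P' : Subgroup H) ≤ P := by
  obtain ⟨g, hg⟩ := MulAction.exists_smul_eq S (P.subtype hP) (P'.subtype hP')
  intro x hx
  have h1 : (⟨x, hP' hx⟩ : S) ∈ ((P'.subtype hP' : Sylow r S) : Subgroup S) := by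
    rw [Sylow.coe_subtype]
    exact Subgroup.mem_subgroupOf.2 hx
  rw [← hg, Sylow.coe_subgroup_smul, Subgroup.mem_pointwise_smul_iff_inv_smul_mem, ← map_inv,
    MulAut.smul_def, MulAut.conj_apply, Sylow.coe_subtype] at h1
  have h2 : (g : H)⁻¹ * x * g ∈ (P : Subgroup H) := by
    have h3 := Subgroup.mem_subgroupOf.1 h1
    simpa using h3
  have h4 := hn g g.2 _ h2
  have h5 : (g : H) * ((g : H)⁻¹ * x * g) * (g : H)⁻¹ = x := by group
  rwa [h5] at h4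

private theorem dk_gen (D : GD E Cv Δ v) (r : ℕ) [Fact r.Prime] (l : ∀ i, (D.tb i).X)
    (hl : ∀ i, l i ∈ (D.tb i).Y ∧ l i ≠ 0) (P : Sylow r (G ⧸ Fit G))
    (hP : (P : Subgroup (G ⧸ Fit G)) ≤ SL D l)
    (hn : ∀ h ∈ SL D l, ∀ x ∈ (P : Subgroup (G ⧸ Fit G)), h * x * h⁻¹ ∈ (P : Subgroup (G ⧸ Fit G)))
    (h2' : ∀ i : PF G, Tau G i → ∀ Q : Sylow r (G ⧸ Fit G),
      (∀ x ∈ (Q : Subgroup (G ⧸ Fit G)), (D.tb i).ρ x (l i) = l i) →
        (Q : Subgroup (G ⧸ Fit G)) ≤ fxH (Fit G) (Op i G) (op_nor i) ((D.tb i).s (l i)))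
    (h : G ⧸ Fit G) (hh : ∀ i : PF G, Tau G i → (D.tb i).ρ h (l i) = l i) :
    ∀ x ∈ (P : Subgroup (G ⧸ Fit G)), h * x * h⁻¹ ∈ (P : Subgroup (G ⧸ Fit G)) := by
  have hmem : ∀ y ∈ ((h • P : Sylow r (G ⧸ Fit G)) : Subgroup (G ⧸ Fit G)),
      h⁻¹ * y * h ∈ (P : Subgroup (G ⧸ Fit G)) := by
    intro y hy
    rw [Sylow.coe_subgroup_smul, Subgroup.mem_pointwise_smul_iff_inv_smul_mem, ← map_inv,
      MulAut.smul_def, MulAut.conj_apply, inv_inv] at hy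
    exact hy
  have hle : ((h • P : Sylow r (G ⧸ Fit G)) : Subgroup (G ⧸ Fit G)) ≤ SL D l := by
    refine le_iInf fun i => ?_
    by_cases hτ : Tau G i
    · refine h2' i hτ (h • P) fun y hy => ?_
      have h1 := hmem y hy
      have h2 := (D.tb i).s_fx (l i) (hl i).1 (hl i).2 _ (Subgroup.mem_iInf.1 (hP h1) i)
      have h3 : (D.tb i).ρ h⁻¹ (l i) = l i := by
        conv_lhs => rw [← hh i hτ]
        rw [← Module.End.mul_apply, ← map_mul, inv_mul_cancel, map_one, Module.End.one_apply]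
      have h4 : y = h * (h⁻¹ * y * h) * h⁻¹ := by group
      rw [h4, map_mul, map_mul, Module.End.mul_apply, Module.End.mul_apply, h3, h2, hh i hτ]
    · intro y _
      rw [(D.tb i).s_one hτ]
      exact dk_one _ _ _ y
  intro x hx
  refine dk_eq (SL D l) P (h • P) hP hle hn ?_
  rw [Sylow.coe_subgroup_smul, Subgroup.mem_pointwise_smul_iff_inv_smul_mem, ← map_inv,
    MulAut.smul_def, MulAut.conj_apply, inv_inv]
  have h1 : h⁻¹ * (h * x * h⁻¹) * h = x := by group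
  rw [h1]
  exact hx

/-- A `2`-element of a subgroup `M` which contains the Sylow subgroup `Q` is conjugate in `M` to an
element of `Q`. -/
private theorem dk_conj {H : Type} [Group H] [Finite H] (Q : Sylow 2 H) (M : Subgroup H) (hQ : (Q : Subgroup H) ≤ M) (g : H)
    (hg : g ∈ M) (hn : ∃ n : ℕ, g ^ 2 ^ n = 1) :
    ∃ k ∈ M, ∃ x ∈ (Q : Subgroup H), g = k * x * k⁻¹ := by
  have hf2 : Fact (Nat.Prime 2) := ⟨Nat.prime_two⟩
  obtain ⟨n, hn⟩ := hn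
  have hz : IsPGroup 2 (Subgroup.zpowers (⟨g, hg⟩ : M)) := by
    rintro ⟨x, hx⟩
    obtain ⟨k, rfl⟩ := Subgroup.mem_zpowers_iff.1 hx
    refine ⟨n, Subtype.ext (Subtype.ext ?_)⟩
    show (g ^ k) ^ 2 ^ n = 1
    rw [← zpow_natCast, ← zpow_mul, mul_comm, zpow_mul, zpow_natCast, hn, one_zpow]
  obtain ⟨R, hR⟩ := hz.exists_le_sylow
  obtain ⟨k, hk⟩ := MulAction.exists_smul_eq M (Q.subtype hQ) R
  have hgR : (⟨g, hg⟩ : M) ∈ (R : Subgroup M) := hR (Subgroup.mem_zpowers _)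
  rw [← hk, Sylow.coe_subgroup_smul, Subgroup.mem_pointwise_smul_iff_inv_smul_mem, ← map_inv,
    MulAut.smul_def, MulAut.conj_apply, inv_inv] at hgR
  refine ⟨k, k.2, (k : H)⁻¹ * g * k, ?_, by group⟩
  exact hgR

/-- The prime `2` for subgroups `S i l` instead of the stabilizers of the vectors `l`. -/
private theorem dk_t2 {H : Type} [Group H] [Finite H] {ι : Type} (p : ι → ℕ)
    [hpp : ∀ i, Fact (p i).Prime] {A : Subgroup H} (hA : A.Normal) (X : ι → Type)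
    [∀ i, AddCommGroup (X i)] [∀ i, Module (ZMod (p i)) (X i)]
    (ρ : ∀ i, Representation (ZMod (p i)) H (X i)) (Y : ∀ i, Submodule (ZMod (p i)) (X i))
    (S : ∀ i, X i → Subgroup H) (hp : ∀ i, p i ≠ 2) (hne : ∀ i, Y i ≠ ⊥)
    (hbl : ∀ i h, ∀ l ∈ Y i, l ≠ 0 → ρ i h l ∈ Y i → (Y i).map (ρ i h) = Y i)
    (hbA : ∀ i, ∀ a ∈ A, (Y i).map (ρ i a) = Y i)
    (hbC : ∀ i h, (∀ a ∈ A, h * a = a * h) → (Y i).map (ρ i h) = Y i)
    (hfix : ∀ i, ∀ l ∈ Y i, l ≠ 0 → ∀ h ∈ S i l, ρ i h l = l)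
    (htw : ∀ i, ∀ l ∈ Y i, l ≠ 0 → ∀ x ∈ S i l, (∀ e ∈ Y i, ρ i x e = e) →
      ∀ k, (Y i).map (ρ i k) = Y i → k * x * k⁻¹ ∈ S i l)
    (h2 : 2 ∣ Nat.card H) (hO : ∀ K : Subgroup H, K.Normal → IsPGroup 2 K → K = ⊥) :
    ∃ l : ∀ i, X i, (∀ i, l i ∈ Y i ∧ l i ≠ 0) ∧ ∀ Q : Sylow 2 H,
      ¬ ((∀ x ∈ (Q : Subgroup H), ∀ i, x ∈ S i (l i)) ∧
        ∀ h, (∀ i, h ∈ S i (l i)) → ∀ x ∈ (Q : Subgroup H),
          h * x * h⁻¹ ∈ (Q : Subgroup H)) := by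
  have hf2 : Fact (Nat.Prime 2) := ⟨Nat.prime_two⟩
  by_contra hcon
  push Not at hcon
  have hv : ∀ i, ∃ l ∈ Y i, l ≠ 0 := fun i =>
    Submodule.exists_mem_ne_zero_of_ne_bot (hne i)
  choose l0 hl0 hl1 using hv
  obtain ⟨M, hM⟩ : ∃ M : Subgroup H, ∀ h, h ∈ M ↔ ∀ i, (Y i).map (ρ i h) = Y i := by
    refine ⟨⨅ i, Nm (ρ i) (Y i), fun h => ?_⟩
    rw [Subgroup.mem_iInf]
    rfl
  have hmE : ∀ h ∈ M, ∀ i, ∀ l ∈ Y i, ρ i h l ∈ Y i := by
    intro h hh i l hl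
    rw [← (hM h).1 hh i]
    exact ⟨l, hl, rfl⟩
  -- the `2`-elements of `M` are trivial on the components
  have h1 : ∀ g ∈ M, (∃ n : ℕ, g ^ 2 ^ n = 1) → ∀ i, ∀ l ∈ Y i, ρ i g l = l := by
    rintro g hg ⟨n, hn⟩ i
    by_contra hc
    push Not at hc
    obtain ⟨l, hl, hgl⟩ := hc
    obtain ⟨j, l', hl', hl'0, hj⟩ := t2_neg (ρ i) (Y i) n g hn
      (fun j l hl => hmE _ (M.pow_mem hg j) i l hl) ⟨l, hl, hgl⟩
    obtain ⟨Q, hQ, -⟩ := hcon (Function.update l0 i l') (by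
      intro i'
      by_cases h : i' = i
      · subst h
        rw [Function.update_self]
        exact ⟨hl', hl'0⟩
      · rw [Function.update_of_ne h]
        exact ⟨hl0 i', hl1 i'⟩)
    refine t2_idx (hp i) (ρ i) (g ^ j) l' hl'0 hj Q fun x hx => ?_
    have h3 := hQ x hx i
    rw [Function.update_self] at h3
    exact hfix i l' hl' hl'0 x h3
  obtain ⟨Q, hQ1, hQ2⟩ := hcon l0 fun i => ⟨hl0 i, hl1 i⟩
  -- `Q` lies in `M`
  have hQM : (Q : Subgroup H) ≤ M := by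
    intro x hx
    rw [hM]
    intro i
    refine hbl i x (l0 i) (hl0 i) (hl1 i) ?_
    rw [hfix i (l0 i) (hl0 i) (hl1 i) x (hQ1 x hx i)]
    exact hl0 i
  have hQe : ∀ x ∈ (Q : Subgroup H), ∃ n : ℕ, x ^ 2 ^ n = 1 := by
    intro x hx
    obtain ⟨n, hn⟩ := Q.isPGroup' ⟨x, hx⟩
    exact ⟨n, by simpa using congrArg Subtype.val hn⟩
  -- `Q` is normalized by the stabilizer, so it contains all `2`-elements which normalize it
  have hQin : ∀ g : H, (∃ n : ℕ, g ^ 2 ^ n = 1) → (∀ i, g ∈ S i (l0 i)) →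
      g ∈ (Q : Subgroup H) := by
    rintro g ⟨n, hn⟩ hg
    have hgN : ∀ x ∈ (Q : Subgroup H), g * x * g⁻¹ ∈ (Q : Subgroup H) := hQ2 g hg
    have hle : Subgroup.zpowers g ≤ Subgroup.normalizer ((Q : Subgroup H) : Set H) := by
      rw [Subgroup.zpowers_le]
      exact Subgroup.mem_normalizer_iff.2 fun x => by
        constructor
        · exact hgN x
        · intro hx
          have h5 := hQ2 g⁻¹ (fun i => Subgroup.inv_mem _ (hg i)) _ hx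
          have h6 : g⁻¹ * (g * x * g⁻¹) * g⁻¹⁻¹ = x := by group
          rwa [h6] at h5
    have hz : IsPGroup 2 (Subgroup.zpowers g) := by
      rintro ⟨x, hx⟩
      obtain ⟨k, rfl⟩ := Subgroup.mem_zpowers_iff.1 hx
      refine ⟨n, Subtype.ext ?_⟩
      show (g ^ k) ^ 2 ^ n = 1
      rw [← zpow_natCast, ← zpow_mul, mul_comm, zpow_mul, zpow_natCast, hn, one_zpow]
    have h7 : IsPGroup 2 ((Q : Subgroup H) ⊔ Subgroup.zpowers g : Subgroup H) :=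
      IsPGroup.to_sup_of_normal_left' Q.isPGroup' hz hle
    have h8 := Q.is_maximal' h7 le_sup_left
    have h9 : Subgroup.zpowers g ≤ (Q : Subgroup H) := by
      calc Subgroup.zpowers g ≤ (Q : Subgroup H) ⊔ Subgroup.zpowers g := le_sup_right
        _ = (Q : Subgroup H) := h8
    exact h9 (Subgroup.mem_zpowers g)
  have hMQ : ∀ g ∈ M, (∃ n : ℕ, g ^ 2 ^ n = 1) → g ∈ (Q : Subgroup H) := by
    intro g hg hn
    refine hQin g hn fun i => ?_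
    obtain ⟨k, hk, x, hx, rfl⟩ := dk_conj Q M hQM g hg hn
    exact htw i (l0 i) (hl0 i) (hl1 i) x (hQ1 x hx i) (h1 x (hQM hx) (hQe x hx) i) k
      ((hM k).1 hk i)
  have hcj : ∀ g x : H, (∃ n : ℕ, x ^ 2 ^ n = 1) → ∃ n : ℕ, (g * x * g⁻¹) ^ 2 ^ n = 1 := by
    rintro g x ⟨n, hn⟩
    exact ⟨n, by rw [conj_pow, hn, mul_one, mul_inv_cancel]⟩
  have hAM : A ≤ M := fun a ha => (hM a).2 fun i => hbA i a ha
  -- `Q` centralizes `A`
  have hQA : ∀ x ∈ (Q : Subgroup H), ∀ a ∈ A, x * a = a * x := by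
    intro x hx a ha
    -- the intersection `A ∩ Q` is normal in `H`
    have hAQ : A ⊓ (Q : Subgroup H) = ⊥ := by
      refine hO _ ⟨fun y hy g => ?_⟩ ?_
      · refine ⟨hA.conj_mem y hy.1 g, hMQ _ (hAM (hA.conj_mem y hy.1 g)) (hcj g y (hQe y hy.2))⟩
      · rintro ⟨y, hy⟩
        obtain ⟨n, hn⟩ := hQe y hy.2
        exact ⟨n, Subtype.ext hn⟩
    have h3 : x * a * x⁻¹ * a⁻¹ ∈ A ⊓ (Q : Subgroup H) := by
      refine ⟨A.mul_mem (hA.conj_mem a ha x) (A.inv_mem ha), ?_⟩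
      have h4 : a * x⁻¹ * a⁻¹ ∈ (Q : Subgroup H) := by
        refine hMQ _ (M.mul_mem (M.mul_mem (hAM ha) (M.inv_mem (hQM hx))) (M.inv_mem (hAM ha))) ?_
        exact hcj a x⁻¹ (hQe _ (Subgroup.inv_mem _ hx))
      have h5 : x * a * x⁻¹ * a⁻¹ = x * (a * x⁻¹ * a⁻¹) := by group
      rw [h5]
      exact Subgroup.mul_mem _ hx h4
    rw [hAQ, Subgroup.mem_bot] at h3
    have h4 : x * a * x⁻¹ * a⁻¹ * (a * x) = a * x := by rw [h3, one_mul]
    rw [← h4]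
    group
  -- all `2`-elements are in `Q`
  have hall : ∀ g : H, (∃ n : ℕ, g ^ 2 ^ n = 1) → g ∈ (Q : Subgroup H) := by
    intro g hn
    refine hMQ g ((hM g).2 fun i => hbC i g fun a ha => ?_) hn
    obtain ⟨k, -, x, hx, hg⟩ := dk_conj Q ⊤ le_top g (Subgroup.mem_top g) hn
    have h3 := hQA x hx (k⁻¹ * a * k) (by
      have := hA.conj_mem a ha k⁻¹
      rwa [inv_inv] at this)
    have h4 : k * (x * (k⁻¹ * a * k)) * k⁻¹ = k * (k⁻¹ * a * k * x) * k⁻¹ := by rw [h3]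
    have h5 : k * (x * (k⁻¹ * a * k)) * k⁻¹ = g * a := by rw [hg]; group
    have h6 : k * (k⁻¹ * a * k * x) * k⁻¹ = a * g := by rw [hg]; group
    rw [h5, h6] at h4
    exact h4
  have hQn : (Q : Subgroup H).Normal := ⟨fun x hx g => hall _ (hcj g x (hQe x hx))⟩
  have hbot := hO _ hQn Q.isPGroup'
  have hidx : 2 ∣ (Q : Subgroup H).index := by
    rw [hbot, Subgroup.index_bot]
    exact h2
  exact Q.not_dvd_index hidx

/-- (dk, size 4) The low vectors for the prime `2`. PROOF. `dk_t2` for the index type `{i : PF G // Tau G i}`; for the other `i` any `l i ≠ 0` in `Y` (`Yne`), `s = 1` there. -/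
theorem lo_2 (hs : Group.IsSolvable G) (D : GD E Cv Δ v) (h2 : 2 ∣ Nat.card (G ⧸ Fit G))
    (hO : ∀ K : Subgroup (G ⧸ Fit G), K.Normal → IsPGroup 2 K → K = ⊥) :
    ∃ l : ∀ i, (D.tb i).X, (∀ i, l i ∈ (D.tb i).Y ∧ l i ≠ 0) ∧ ∀ P : Sylow 2 (G ⧸ Fit G),
      ¬ ((P : Subgroup (G ⧸ Fit G)) ≤ SL D l ∧ ∀ h ∈ SL D l, ∀ x ∈ (P : Subgroup (G ⧸ Fit G)),
        h * x * h⁻¹ ∈ (P : Subgroup (G ⧸ Fit G))) := by
  have hA := (ab_AF hs E).1
  have hpp : ∀ i : {i : PF G // Tau G i}, Fact ((i.1 : PF G) : ℕ).Prime := fun i => pf_fact i.1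
  obtain ⟨l0, hl0, hl0P⟩ := dk_t2 (ι := {i : PF G // Tau G i})
    (fun i => ((i.1 : PF G) : ℕ)) hA.1 (fun i => (D.tb i.1).X) (fun i => (D.tb i.1).ρ)
    (fun i => (D.tb i.1).Y)
    (fun i l => fxH (Fit G) (Op i.1 G) (op_nor i.1) ((D.tb i.1).s l)) (by
      intro i h
      apply i.2.1
      rw [h]
      exact h2)
    (fun i => (D.tb i.1).Yne) (fun i => (D.tb i.1).Ybl) (fun i => (D.tb i.1).YA)
    (fun i => (D.tb i.1).Yc) (fun i => (D.tb i.1).s_fx) (fun i => (D.tb i.1).s2) h2 hO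
  have hex : ∀ i : PF G, ∃ l : (D.tb i).X, (l ∈ (D.tb i).Y ∧ l ≠ 0) ∧
      ∀ hi : Tau G i, l = l0 ⟨i, hi⟩ := by
    intro i
    by_cases hi : Tau G i
    · exact ⟨l0 ⟨i, hi⟩, hl0 ⟨i, hi⟩, fun _ => rfl⟩
    · obtain ⟨l, h1, h3⟩ := (Submodule.ne_bot_iff _).1 (D.tb i).Yne
      exact ⟨l, ⟨h1, h3⟩, fun h => absurd h hi⟩
  choose l hl1 hl2 using hex
  refine ⟨l, hl1, ?_⟩
  rintro P ⟨hP1, hP2⟩
  refine hl0P P ⟨fun x hx i => ?_, fun h hh x hx => ?_⟩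
  · have h1 := Subgroup.mem_iInf.1 (hP1 hx) i.1
    rw [hl2 i.1 i.2] at h1
    exact h1
  · refine hP2 h (Subgroup.mem_iInf.2 fun i => ?_) x hx
    by_cases hi : Tau G i
    · rw [hl2 i hi]
      exact hh ⟨i, hi⟩
    · rw [(D.tb i).s_one hi]
      exact dk_one _ _ _ _
-- END dk

-- BEGIN dl
/-- (dl, size 3) The low vectors for the prime `3`. PROOF. As `lo_2`, with `t3` of T3.lean (`i ≥ 5` for `i` in `Tau`: not `2`, not `3`) and `TB.s3` (`P ≤ SL D l` is given, so every Sylow 3-subgroup which fixes the `l i` is in `SL D l`). `hL` of `t3`: `hL` and `TB.Yc`. -/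
theorem lo_3 (hs : Group.IsSolvable G) (D : GD E Cv Δ v) (h2 : 2 ∣ Nat.card (G ⧸ Fit G))
    (h3 : 3 ∣ Nat.card (G ⧸ Fit G))
    (hL : ∀ x ∈ (⨆ P : Sylow 3 (G ⧸ Fit G), (P : Subgroup (G ⧸ Fit G))),
      ∀ y ∈ (⨆ P : Sylow 3 (G ⧸ Fit G), (P : Subgroup (G ⧸ Fit G))),
        ∀ a ∈ AF E, x * y * x⁻¹ * y⁻¹ * a = a * (x * y * x⁻¹ * y⁻¹))
    (h2' : 2 ∣ Nat.card (⨆ P : Sylow 3 (G ⧸ Fit G), (P : Subgroup (G ⧸ Fit G)) :
      Subgroup (G ⧸ Fit G)))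
    (hO : ∀ K : Subgroup (G ⧸ Fit G), K.Normal → IsPGroup 3 K → K = ⊥) :
    ∃ l : ∀ i, (D.tb i).X, (∀ i, l i ∈ (D.tb i).Y ∧ l i ≠ 0) ∧ ∀ P : Sylow 3 (G ⧸ Fit G),
      ¬ ((P : Subgroup (G ⧸ Fit G)) ≤ SL D l ∧ ∀ h ∈ SL D l, ∀ x ∈ (P : Subgroup (G ⧸ Fit G)),
        h * x * h⁻¹ ∈ (P : Subgroup (G ⧸ Fit G))) := by
  have hfin : Finite {i : PF G // Tau G i} := inferInstance
  have hpp : ∀ i : {i : PF G // Tau G i}, Fact ((i.1 : PF G) : ℕ).Prime := fun i => pf_fact i.1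
  have hsH : Group.IsSolvable (G ⧸ Fit G) := by
    have := hs
    infer_instance
  obtain ⟨l0, hl0, hl0P⟩ := t3 (ι := {i : PF G // Tau G i})
    (fun i => ((i.1 : PF G) : ℕ)) (fun i => (D.tb i.1).X) (fun i => (D.tb i.1).ρ)
    (fun i => (D.tb i.1).Y) hsH (by
      intro i
      have hp : ((i.1 : PF G) : ℕ).Prime := (hpp i).out
      have h2i : ((i.1 : PF G) : ℕ) ≠ 2 := fun h => i.2.1 (by rw [h]; exact h2)
      have h3i : ((i.1 : PF G) : ℕ) ≠ 3 := fun h => i.2.1 (by rw [h]; exact h3)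
      have h4i : ((i.1 : PF G) : ℕ) ≠ 4 := fun h => by
        rw [h] at hp
        exact absurd hp (by norm_num)
      have := hp.two_le
      show 5 ≤ ((i.1 : PF G) : ℕ)
      omega)
    (fun i => (D.tb i.1).Yne) (fun i => (D.tb i.1).Ybl)
    (fun i x hx y hy => (D.tb i.1).Yc _ fun a ha => hL x hx y hy a ha) h2' hO
  have hex : ∀ i : PF G, ∃ l : (D.tb i).X, (l ∈ (D.tb i).Y ∧ l ≠ 0) ∧
      ∀ hi : Tau G i, l = l0 ⟨i, hi⟩ := by
    intro i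
    by_cases hi : Tau G i
    · exact ⟨l0 ⟨i, hi⟩, hl0 ⟨i, hi⟩, fun _ => rfl⟩
    · obtain ⟨l, h1, h3⟩ := (Submodule.ne_bot_iff _).1 (D.tb i).Yne
      exact ⟨l, ⟨h1, h3⟩, fun h => absurd h hi⟩
  choose l hl1 hl2 using hex
  refine ⟨l, hl1, ?_⟩
  rintro P ⟨hP1, hP2⟩
  have hf3 : Fact (Nat.Prime 3) := ⟨Nat.prime_three⟩
  refine hl0P P ⟨fun x hx i => ?_, fun h hh x hx => ?_⟩
  · have h1 := (D.tb i.1).s_fx (l i.1) (hl1 i.1).1 (hl1 i.1).2 _ (Subgroup.mem_iInf.1 (hP1 hx) i.1)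
    rw [hl2 i.1 i.2] at h1
    exact h1
  · refine dk_gen D 3 l hl1 P hP1 hP2 (fun i _ Q hQ => (D.tb i).s3 (l i) (hl1 i).1 (hl1 i).2 P Q
      (fun z hz => Subgroup.mem_iInf.1 (hP1 hz) i) hQ) h (fun i hi => ?_) x hx
    rw [hl2 i hi]
    exact hh ⟨i, hi⟩
-- END dl

-- BEGIN dm
/-- (dm, size 3) The commutators of the elements of `L = ⨆ Sylow 3` commute with `AF E`, if the Sylow 3-subgroups fix all blocks. PROOF. For all `i`, `j` and all blocks `b`: `L ≤ Nm (W b)` normalizes `UU b` (`uNor`). The image of `UU b` in `GL (W b)` is commutative and every nonzero element of the algebra it generates is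
invertible on `W b` (`qp` for `N = UU b`; `bs_fpf`, or: this algebra restricted to `W b` is a field `K`, a finite commutative ring without zero divisors), and `x ∈ L` acts on it by the automorphism `z ↦ ρ x z ρ x⁻¹`; the automorphisms of a finite field commute (powers of the Frobenius map); so `[x, y]` acts trivially on
`K`, so it commutes with `a ∈ AF E ≤ UU b` on `W b`. Two elements of `H` which act in the same way on all blocks of all modules are equal (`pd_fai`). LOOK FIRST: Nas/Bs.lean, Nas/St.lean (`bs_qp`, `qp_gal`) and Nas/Ha.lean may contain the needed lemma about commutators (`qp`: with `QP` the elements which act trivially on `U`). -/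
theorem hLA (hs : Group.IsSolvable G) (E : ∀ i : PF G, PD G i)
    (hT : ∀ i j, ∀ R : Sylow 3 (G ⧸ Fit G), ∀ x ∈ (R : Subgroup (G ⧸ Fit G)), ∀ b,
      (((E i).F j).W b).map (((E i).F j).ρ x) = ((E i).F j).W b) :
    ∀ x ∈ (⨆ P : Sylow 3 (G ⧸ Fit G), (P : Subgroup (G ⧸ Fit G))),
      ∀ y ∈ (⨆ P : Sylow 3 (G ⧸ Fit G), (P : Subgroup (G ⧸ Fit G))),
        ∀ a ∈ AF E, x * y * x⁻¹ * y⁻¹ * a = a * (x * y * x⁻¹ * y⁻¹) := by
  intro x hx y hy a ha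
  have hN : ∀ i j b, (⨆ P : Sylow 3 (G ⧸ Fit G), (P : Subgroup (G ⧸ Fit G))) ≤
      Nm ((E i).F j).ρ (((E i).F j).W b) := fun i j b => iSup_le fun P z hz => hT i j P z hz b
  have haU : ∀ i j b, a ∈ ((E i).F j).UU b := fun i j b =>
    Subgroup.mem_iInf.1 (Subgroup.mem_iInf.1 ha ⟨i, j⟩) b
  have h1 : x * y * x⁻¹ * y⁻¹ * a * (x * y * x⁻¹ * y⁻¹)⁻¹ * a⁻¹ = 1 := by
    refine pd_fai hs E _ fun i j => ?_
    have hblk : ∀ b, ∀ w ∈ ((E i).F j).W b,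
        ((E i).F j).ρ (x * y * x⁻¹ * y⁻¹ * a * (x * y * x⁻¹ * y⁻¹)⁻¹ * a⁻¹) w = w := by
      intro b w hw
      have hne : Nontrivial (((E i).F j).W b) :=
        Submodule.nontrivial_iff_ne_bot.2 (((E i).F j).bs.ne b)
      obtain ⟨L, iL, iLf, ρL, π, U, -, hρ, hqp, hU⟩ := bs_qp ((E i).F j).bs b
      set x' : Nm ((E i).F j).ρ (((E i).F j).W b) := ⟨x, hN i j b hx⟩ with hx'
      set y' : Nm ((E i).F j).ρ (((E i).F j).W b) := ⟨y, hN i j b hy⟩ with hy'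
      set a' : Nm ((E i).F j).ρ (((E i).F j).W b) :=
        ⟨a, ((E i).F j).bs.uN b (haU i j b)⟩ with ha'
      have h2 := qp_abq hqp (π x') (π y')
      have h3 : π a' ∈ U := (hU a').2 (haU i j b)
      have h4 := (Subgroup.mem_centralizer_iff.1 h2) _ h3
      have h5 : π (x' * y' * x'⁻¹ * y'⁻¹ * a' * (x' * y' * x'⁻¹ * y'⁻¹)⁻¹ * a'⁻¹) = 1 := by
        simp only [map_mul, map_inv] at h4 ⊢
        rw [← h4]
        group
      have h6 := hρ (x' * y' * x'⁻¹ * y'⁻¹ * a' * (x' * y' * x'⁻¹ * y'⁻¹)⁻¹ * a'⁻¹) ⟨w, hw⟩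
      rw [h5, map_one, Module.End.one_apply] at h6
      exact h6.symm
    intro z
    have hz : z ∈ ⨆ b, ((E i).F j).W b := by
      rw [((E i).F j).bs.sup]
      exact Submodule.mem_top
    refine Submodule.iSup_induction _ (motive := fun z => ((E i).F j).ρ
      (x * y * x⁻¹ * y⁻¹ * a * (x * y * x⁻¹ * y⁻¹)⁻¹ * a⁻¹) z = z) hz hblk (map_zero _) ?_
    intro u v hu hv
    rw [map_add, hu, hv]
  rw [mul_inv_eq_one, mul_inv_eq_iff_eq_mul] at h1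
  exact h1
-- END dm

-- BEGIN ea
/-- (ea, size 2) Low for `B` and `2`. PROOF. If a nontrivial normal 2-subgroup exists: `hi_O` gives `2 ∣ (SH D T).index`; `l` arbitrary (`Yne`), `lowS0`, `hi_B`. Otherwise `lo_2`, `lowS` with `c = 2` (`2 ∉ BB E`, `no_dvd`), `hi_B`. -/
theorem lo2 (hs : Group.IsSolvable G) (D : GD E Cv Δ v) (h2 : 2 ∣ Nat.card (G ⧸ Fit G))
    (T : ∀ i j, ((E i).F j).X) (hT : Gt D T) :
    ∃ l : ∀ i, (D.tb i).X, (∀ i, l i ∈ (D.tb i).Y ∧ l i ≠ 0) ∧ ∃ ψ ∈ Irr (SL D l), ∃ c : ℕ,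
      ψ 1 = c ∧ (2 ∣ (SH D T).index ∨ 2 ∣ (SL D l).index * c) ∧
      ∀ r ∈ BB E, r ∣ (SH D T).index ∨ r ∣ (SL D l).index * c := by
  obtain ⟨hA, hB, -, -, -⟩ := ab_AF hs E
  have hsQ : Group.IsSolvable (G ⧸ Fit G) := inferInstance
  by_cases hO : ∀ K : Subgroup (G ⧸ Fit G), K.Normal → IsPGroup 2 K → K = ⊥
  · obtain ⟨l, hl, hP⟩ := lo_2 hs D h2 hO
    obtain ⟨ψ, hψ, c, hc, h2c, hr⟩ := lowS hsQ hA (BB E) hB 2 Nat.prime_two
      (fun h => by have := h.2.1; omega) (no_dvd hA 2 Nat.prime_two hO) (Or.inl rfl) (SL D l) hP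
    exact ⟨l, hl, ψ, hψ, c, hc, Or.inr h2c, hi_B D T hT l hl c hr⟩
  · push Not at hO
    obtain ⟨K, hK, hK2, hK1⟩ := hO
    have hex : ∀ i, ∃ x, x ∈ (D.tb i).Y ∧ x ≠ 0 := fun i =>
      Submodule.exists_mem_ne_zero_of_ne_bot (D.tb i).Yne
    choose l hl using hex
    obtain ⟨ψ, hψ, c, hc, hr⟩ := lowS0 hsQ hA (BB E) hB (SL D l)
    exact ⟨l, hl, ψ, hψ, c, hc, Or.inl (hi_O hs D T hT 2 Nat.prime_two K hK hK2 hK1),
      hi_B D T hT l hl c hr⟩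
-- END ea

-- BEGIN eb
/-- (eb, size 2) Low for `B` and `3`. PROOF. `hLA`, `even3`, `lo_3`, `lowS` with `c = 3` (`h3B`, `no_dvd`, `same3`), `hi_B`. -/
theorem lo3 (hs : Group.IsSolvable G) (D : GD E Cv Δ v) (h2 : 2 ∣ Nat.card (G ⧸ Fit G))
    (h3 : 3 ∣ Nat.card (G ⧸ Fit G)) (h3B : 3 ∉ BB E)
    (hfix : ∀ i j, ∀ R : Sylow 3 (G ⧸ Fit G), ∀ x ∈ (R : Subgroup (G ⧸ Fit G)), ∀ b,
      (((E i).F j).W b).map (((E i).F j).ρ x) = ((E i).F j).W b)
    (hev : Even (Nat.card (Sylow 3 (G ⧸ Fit G))))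
    (hO : ∀ K : Subgroup (G ⧸ Fit G), K.Normal → IsPGroup 3 K → K = ⊥)
    (T : ∀ i j, ((E i).F j).X) (hT : Gt D T) :
    ∃ l : ∀ i, (D.tb i).X, (∀ i, l i ∈ (D.tb i).Y ∧ l i ≠ 0) ∧ ∃ ψ ∈ Irr (SL D l), ∃ c : ℕ,
      ψ 1 = c ∧ 3 ∣ (SL D l).index * c ∧
      ∀ r ∈ BB E, r ∣ (SH D T).index ∨ r ∣ (SL D l).index * c := by
  obtain ⟨hA, hB, -, -, -⟩ := ab_AF hs E
  have hsQ : Group.IsSolvable (G ⧸ Fit G) := inferInstance
  have hL := hLA hs E hfix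
  obtain ⟨l, hl, hP⟩ := lo_3 hs D h2 h3 hL (even3 hev) hO
  obtain ⟨ψ, hψ, c, hc, h3c, hr⟩ := lowS hsQ hA (BB E) hB 3 Nat.prime_three h3B
    (no_dvd hA 3 Nat.prime_three hO) (Or.inr fun P Q => same3 hL hA.nor P Q) (SL D l) hP
  exact ⟨l, hl, ψ, hψ, c, hc, h3c, hi_B D T hT l hl c hr⟩
-- END eb

end

/-- Two characters cover all the primes. -/
def Two (G : Type) [Group G] : Prop :=
  ∃ χ₁ ∈ Irr G, ∃ χ₂ ∈ Irr G, ∃ d₁ d₂ : ℕ, χ₁ 1 = d₁ ∧ χ₂ 1 = d₂ ∧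
    ∀ p : ℕ, p.Prime → (∃ χ ∈ Irr G, ∃ d : ℕ, χ 1 = d ∧ p ∣ d) → p ∣ d₁ * d₂

-- BEGIN fa
/-- (fa, size 3) The end with low for the prime `2`. PROOF. `lo2`, `fin`. Let the prime `r` divide `card (G ⧸ Fit G)`: `r = 2`: `lo2`. `r ∈ BB E`: `lo2`. `r = 3` not in `BB E`: `h3`. `r ≥ 5` not in `BB E`: `r` is not of type `B` at some `i`, `j`: `hC`, `hi_cv`. (`r ∣ index → r ∣ index * b`.) -/
theorem end2 {E : ∀ i : PF G, PD G i} {Cv : ∀ i : PF G, Fin (E i).n → Set ℕ}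
    {Δ : ∀ i j, Finset ((E i).F j).J} {v : ∀ i j, ((E i).F j).J → ((E i).F j).X}
    (hs : Group.IsSolvable G) (h2 : 2 ∣ Nat.card (G ⧸ Fit G)) (D : GD E Cv Δ v)
    (hE : ∀ i, Ffr (E i))
    (hC : ∀ i j, ∀ r : ℕ, r.Prime → 5 ≤ r → ¬ ((E i).F j).Bt r → r ∈ Cv i j)
    (T : ∀ i j, ((E i).F j).X) (hT : Gt D T) (φ : SH D T → ℂ) (hφ : φ ∈ Irr (SH D T)) (b : ℕ)
    (hb : φ 1 = b) (h3 : 3 ∣ Nat.card (G ⧸ Fit G) → 3 ∉ BB E → 3 ∣ (SH D T).index * b) :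
    Two G := by
  obtain ⟨l, hl, ψ, hψ, c, hc, hc2, hB⟩ := lo2 hs D h2 T hT
  refine fin D hE T φ hφ b hb l hl ψ hψ c hc ?_
  intro r hr hrc
  rcases eq_or_ne r 2 with h | hr2
  · subst h
    rcases hc2 with h | h
    · exact Or.inl (h.mul_right b)
    · exact Or.inr h
  by_cases hrB : r ∈ BB E
  · rcases hB r hrB with h | h
    · exact Or.inl (h.mul_right b)
    · exact Or.inr h
  rcases eq_or_ne r 3 with h | hr3
  · subst h
    exact Or.inl (h3 hrc hrB)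
  have hr5 : 5 ≤ r := by
    have h4 := hr.two_le
    by_contra h5
    have h6 : r = 4 := by omega
    subst h6
    exact absurd hr (by norm_num)
  left
  have h4 : ∃ i j, ¬ ((E i).F j).Bt r := by
    by_contra hcon
    push Not at hcon
    exact hrB ⟨hr, by omega, hrc, hcon⟩
  obtain ⟨i, j, hij⟩ := h4
  exact (hi_cv D T hT i j r hr (hC i j r hr hr5 hij)).mul_right b
-- END fa

-- BEGIN fb
/-- The family `T` with the vector `x` at `(i₁, j₁)`. -/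
private noncomputable def fb_T {E : ∀ i : PF G, PD G i} (T : ∀ i j, ((E i).F j).X) (i₁ : PF G)
    (j₁ : Fin (E i₁).n) (x : ((E i₁).F j₁).X) : ∀ i j, ((E i).F j).X :=
  Function.update T i₁ (Function.update (T i₁) j₁ x)

private theorem fb_T1 {E : ∀ i : PF G, PD G i} (T : ∀ i j, ((E i).F j).X) (i₁ : PF G)
    (j₁ : Fin (E i₁).n) (x : ((E i₁).F j₁).X) : fb_T T i₁ j₁ x i₁ j₁ = x := by
  rw [fb_T, Function.update_self, Function.update_self]

private theorem fb_T2 {E : ∀ i : PF G, PD G i} (T : ∀ i j, ((E i).F j).X) (i₁ : PF G)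
    (j₁ : Fin (E i₁).n) (x : ((E i₁).F j₁).X) (j : Fin (E i₁).n) (hj : j ≠ j₁) :
    fb_T T i₁ j₁ x i₁ j = T i₁ j := by
  rw [fb_T, Function.update_self, Function.update_of_ne hj]

private theorem fb_T3 {E : ∀ i : PF G, PD G i} (T : ∀ i j, ((E i).F j).X) (i₁ : PF G)
    (j₁ : Fin (E i₁).n) (x : ((E i₁).F j₁).X) (i : PF G) (hi : i ≠ i₁) :
    fb_T T i₁ j₁ x i = T i := by
  rw [fb_T, Function.update_of_ne hi]

private theorem fb_T0 {E : ∀ i : PF G, PD G i} (T : ∀ i j, ((E i).F j).X) (i₁ : PF G)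
    (j₁ : Fin (E i₁).n) : fb_T T i₁ j₁ (T i₁ j₁) = T := by
  rw [fb_T, Function.update_eq_self, Function.update_eq_self]

private theorem fb_Nm {E : ∀ i : PF G, PD G i} {Cv : ∀ i : PF G, Fin (E i).n → Set ℕ}
    {Δ : ∀ i j, Finset ((E i).F j).J} {v : ∀ i j, ((E i).F j).J → ((E i).F j).X}
    (hs : Group.IsSolvable G) (D : GD E Cv Δ v) (i₁ : PF G) (j₁ : Fin (E i₁).n)
    (b : ((E i₁).F j₁).J) :
    (D.tb i₁).κ (D.k i₁) j₁ b ∈ Nm ((E i₁).F j₁).ρ (((E i₁).F j₁).W b) := by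
  have h1 : (D.tb i₁).κ (D.k i₁) j₁ b ∈ AF E := (D.tb i₁).κA (D.k i₁) (fun a => D.kA i₁ a) j₁ b
  have h2 : (D.tb i₁).κ (D.k i₁) j₁ b ∈ ((E i₁).F j₁).A := (ab_AF hs E).2.2.2.1 i₁ j₁ h1
  exact ((E i₁).F j₁).bs.uN b ((Subgroup.mem_iInf.1 h2) b)

/-- The stabilizer of the high character of the changed family. -/
private theorem fb_SH {E : ∀ i : PF G, PD G i} {Cv : ∀ i : PF G, Fin (E i).n → Set ℕ}
    {Δ : ∀ i j, Finset ((E i).F j).J} {v : ∀ i j, ((E i).F j).J → ((E i).F j).X}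
    (D : GD E Cv Δ v) (T : ∀ i j, ((E i).F j).X) (i₁ : PF G) (j₁ : Fin (E i₁).n)
    (hI : j₁ ∉ (D.tb i₁).I) (x : ((E i₁).F j₁).X) (z : G ⧸ Fit G) :
    z ∈ SH D (fb_T T i₁ j₁ x) ↔ z ∈ SH D (fb_T T i₁ j₁ 0) ∧ ((E i₁).F j₁).ρ z x = x := by
  rw [mem_SH, mem_SH]
  constructor
  · intro h
    refine ⟨fun i => ⟨(h i).1, fun j hj => ?_⟩, ?_⟩
    · by_cases hi : i = i₁
      · subst hi
        by_cases hj1 : j = j₁
        · subst hj1
          rw [fb_T1, map_zero]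
        · have h1 := (h i).2 j hj
          rw [fb_T2 _ _ _ _ _ hj1] at h1 ⊢
          exact h1
      · have h1 := (h i).2 j hj
        rw [fb_T3 _ _ _ _ _ hi] at h1 ⊢
        exact h1
    · have h1 := (h i₁).2 j₁ hI
      rwa [fb_T1] at h1
  · rintro ⟨h, hx⟩ i
    refine ⟨(h i).1, fun j hj => ?_⟩
    by_cases hi : i = i₁
    · subst hi
      by_cases hj1 : j = j₁
      · subst hj1
        rw [fb_T1]
        exact hx
      · have h1 := (h i).2 j hj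
        rw [fb_T2 _ _ _ _ _ hj1] at h1 ⊢
        exact h1
    · have h1 := (h i).2 j hj
      rw [fb_T3 _ _ _ _ _ hi] at h1 ⊢
      exact h1

/-- The changed family is good. -/
private theorem fb_gt {E : ∀ i : PF G, PD G i} {Cv : ∀ i : PF G, Fin (E i).n → Set ℕ}
    {Δ : ∀ i j, Finset ((E i).F j).J} {v : ∀ i j, ((E i).F j).J → ((E i).F j).X}
    (hs : Group.IsSolvable G) (D : GD E Cv Δ v) (i₁ : PF G) (j₁ : Fin (E i₁).n)
    (hJ : Nontrivial ((E i₁).F j₁).J) (D₁ : Finset ((E i₁).F j₁).J) (hsub : Δ i₁ j₁ ⊆ D₁)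
    (k' : ((E i₁).F j₁).J → G ⧸ Fit G)
    (hk' : ∀ b, k' b ∈ Nm ((E i₁).F j₁).ρ (((E i₁).F j₁).W b))
    (hkk : ∀ b ∈ Δ i₁ j₁, k' b = (D.tb i₁).κ (D.k i₁) j₁ b)
    (hmv : ∀ r ∈ Cv i₁ j₁, ∀ R : Sylow r (G ⧸ Fit G), ¬ ∀ x ∈ (R : Subgroup (G ⧸ Fit G)),
      ((E i₁).F j₁).ρ x (∑ b ∈ D₁, ((E i₁).F j₁).ρ (k' b) (v i₁ j₁ b)) =
        ∑ b ∈ D₁, ((E i₁).F j₁).ρ (k' b) (v i₁ j₁ b)) :
    Gt D (fb_T (T0 D) i₁ j₁ (∑ b ∈ D₁, ((E i₁).F j₁).ρ (k' b) (v i₁ j₁ b))) := by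
  have h0 := gt_T0 hs D
  have hkv : ∀ b, ((E i₁).F j₁).ρ (k' b) (v i₁ j₁ b) ∈ ((E i₁).F j₁).W b := by
    intro b
    have h1 := Submodule.mem_map_of_mem (f := ((E i₁).F j₁).ρ (k' b)) ((D.gd i₁ j₁).vW b).1
    rwa [(mem_Nm _ _ _).1 (hk' b)] at h1
  refine ⟨?_, ?_, ?_, ?_⟩
  · intro i j
    by_cases hi : i = i₁
    · subst hi
      by_cases hj1 : j = j₁
      · subst hj1
        rw [fb_T1]
        intro hz
        obtain ⟨b, hb⟩ := (D.gd i j).ne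
        have h1 := (iSupIndep_iff_finsetSum_eq_zero_imp_eq_zero ((E i).F j).W).1
          ((E i).F j).bs.ind D₁ _ (fun b _ => hkv b) hz b (hsub hb)
        apply ((D.gd i j).vW b).2
        have h2 : ((E i).F j).ρ (k' b)⁻¹ (((E i).F j).ρ (k' b) (v i j b)) = v i j b := by
          rw [← Module.End.mul_apply, ← map_mul, inv_mul_cancel, map_one]
          rfl
        rw [← h2, h1, map_zero]
      · rw [fb_T2 _ _ _ _ _ hj1]
        exact h0.ne i j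
    · rw [fb_T3 _ _ _ _ _ hi]
      exact h0.ne i j
  · intro i j hsj
    by_cases hi : i = i₁
    · subst hi
      by_cases hj1 : j = j₁
      · subst hj1
        exact absurd hsj (not_subsingleton_iff_nontrivial.2 hJ)
      · rw [fb_T2 _ _ _ _ _ hj1]
    · rw [fb_T3 _ _ _ _ _ hi]
  · intro i j r hr R
    by_cases hi : i = i₁
    · subst hi
      by_cases hj1 : j = j₁
      · subst hj1
        rw [fb_T1]
        exact hmv r hr R
      · rw [fb_T2 _ _ _ _ _ hj1]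
        exact h0.mv i j r hr R
    · rw [fb_T3 _ _ _ _ _ hi]
      exact h0.mv i j r hr R
  · intro r hr R i j
    by_cases hi : i = i₁
    · subst hi
      by_cases hj1 : j = j₁
      · subst hj1
        rw [fb_T1]
        intro hf x hx b hb
        have h1 := cmpB i j r hr R D₁ (fun b => ((E i).F j).ρ (k' b) (v i j b)) hkv hf x hx b
          (hsub hb)
        simp only [hkk b hb] at h1
        exact h1
      · rw [fb_T2 _ _ _ _ _ hj1]
        exact h0.cmp r hr R i j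
    · rw [fb_T3 _ _ _ _ _ hi]
      exact h0.cmp r hr R i j

/-- (fb, size 5) The three high characters. PROOF. `Nontrivial ((E i₁).F j₁).J`, so `j₁ ∉ (D.tb i₁).I` (`TB.one`). Write `k b = (D.tb i₁).κ (D.k i₁) j₁ b` (in `Nm`: `κA`, `ab_AF`, `Fam.A`, `bs.uN`). First alternative of `Pd3`: `T = T0 D` (`gt_T0`); a Sylow 3-subgroup in `SH D T` would fix `T0 D i₁ j₁`
(`mem_SH`), so `3 ∣ (SH D T).index` (`syl_in`); `φ = 1` (`one_irr3`), `b = 1`. Second alternative: `x₀ = ∑ b ∈ Δ, ρ (k b) (v b) = T0 D i₁ j₁`, `x₁ = ∑ b ∈ D₁, ρ (k b) (v b)`, `x₂ = ∑ b ∈ D₁, ρ (k' b) (v b)`, `k' = k` except for `k' d = k d * g`; `T₁`, `T₂` = `T0 D` with the component at `(i₁, j₁)` replaced by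
`x₁`, `x₂` (`Function.update` twice, or `if h : .. then h ▸ .. else`). They are `Gt`: `ne` as in `gt_T0`; `one`: the module `(i₁, j₁)` has two blocks; `mv`: at `(i₁, j₁)` the clause for `r ≥ 5` in `Pd3` for `k` and for `k'` (`hC1`); `cmp`: `cmpB` for `D₁ ⊇ Δ` (`d ∉ Δ`, so `k' = k` on `Δ`). `three_vec` of Th3.lean with
`S = SH D` of the family with `0` at `(i₁, j₁)` (`mem_SH`) gives one of the three with `φ`, `b`. -/
theorem three2 {E : ∀ i : PF G, PD G i} {Cv : ∀ i : PF G, Fin (E i).n → Set ℕ}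
    {Δ : ∀ i j, Finset ((E i).F j).J} {v : ∀ i j, ((E i).F j).J → ((E i).F j).X}
    (hs : Group.IsSolvable G) (D : GD E Cv Δ v) (i₁ : PF G) (j₁ : Fin (E i₁).n)
    (hJ : Nontrivial ((E i₁).F j₁).J)
    (hC1 : ∀ r ∈ Cv i₁ j₁, r.Prime ∧ 5 ≤ r ∧ ¬ ((E i₁).F j₁).Bt r)
    (hP : Pd3 ((E i₁).F j₁) (Δ i₁ j₁) (v i₁ j₁)) :
    ∃ T : ∀ i j, ((E i).F j).X, Gt D T ∧ ∃ φ ∈ Irr (SH D T), ∃ b : ℕ, φ 1 = b ∧
      3 ∣ (SH D T).index * b := by
  have hI : j₁ ∉ (D.tb i₁).I := fun h =>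
    not_subsingleton_iff_nontrivial.2 hJ ((D.tb i₁).one j₁ h).1
  have hsH : Group.IsSolvable (G ⧸ Fit G) := by
    have := hs
    infer_instance
  have hkN := fb_Nm hs D i₁ j₁
  rcases hP with h | ⟨D₁, d, g, hsub, hd, hd', hg, h5, h3⟩
  · refine ⟨T0 D, gt_T0 hs D, _, one_irr3 (SH D (T0 D)), 1, by norm_num, ?_⟩
    rw [mul_one]
    by_contra hno
    obtain ⟨Q, hQ⟩ := syl_in 3 Nat.prime_three _ hno
    exact h _ hkN Q fun x hx => (((mem_SH D (T0 D) x).1 (hQ hx)) i₁).2 j₁ hI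
  · let k : ((E i₁).F j₁).J → G ⧸ Fit G := fun b => (D.tb i₁).κ (D.k i₁) j₁ b
    let k' : ((E i₁).F j₁).J → G ⧸ Fit G := fun b => if b = d then k d * g else k b
    have hk'1 : ∀ b, b ≠ d → k' b = k b := fun b hb => if_neg hb
    have hk'2 : k' d = k d * g := if_pos rfl
    have hkN' : ∀ b, k' b ∈ Nm ((E i₁).F j₁).ρ (((E i₁).F j₁).W b) := by
      intro b
      by_cases hb : b = d
      · rw [hb, hk'2]
        exact mul_mem (hkN d) hg
      · rw [hk'1 b hb]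
        exact hkN b
    have hD' : ∀ b ∈ Δ i₁ j₁, b ≠ d := by
      rintro b hb rfl
      exact hd' hb
    have hG1 := fb_gt hs D i₁ j₁ hJ D₁ hsub k hkN (fun b _ => rfl)
      fun r hr R => h5 k hkN r (hC1 r hr).1 (hC1 r hr).2.1 (hC1 r hr).2.2 R
    have hG2 := fb_gt hs D i₁ j₁ hJ D₁ hsub k' hkN' (fun b hb => hk'1 b (hD' b hb))
      fun r hr R => h5 k' hkN' r (hC1 r hr).1 (hC1 r hr).2.1 (hC1 r hr).2.2 R
    have h30 := three_vec hsH ((E i₁).F j₁).ρ (SH D (fb_T (T0 D) i₁ j₁ 0)) (SH D (T0 D)) _ _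
      (T0 D i₁ j₁) _ _ (fun z => by
        have h1 := fb_SH D (T0 D) i₁ j₁ hI (T0 D i₁ j₁) z
        rwa [fb_T0] at h1)
      (fb_SH D (T0 D) i₁ j₁ hI (∑ b ∈ D₁, ((E i₁).F j₁).ρ (k b) (v i₁ j₁ b)))
      (fb_SH D (T0 D) i₁ j₁ hI (∑ b ∈ D₁, ((E i₁).F j₁).ρ (k' b) (v i₁ j₁ b)))
      (fun T₀ T₁ T₂ a0 a1 a2 => h3 k k' hkN hk'1 hk'2 T₀ T₁ T₂ a0 a1 a2)
    rcases h30 with ⟨φ, hφ, b, hb, h4⟩ | ⟨φ, hφ, b, hb, h4⟩ | ⟨φ, hφ, b, hb, h4⟩
    · exact ⟨_, gt_T0 hs D, φ, hφ, b, hb, h4⟩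
    · exact ⟨_, hG1, φ, hφ, b, hb, h4⟩
    · exact ⟨_, hG2, φ, hφ, b, hb, h4⟩
-- END fb

-- BEGIN fc
/-- (fc, size 3) Case 4: low for the prime `3`. PROOF. `T = T0 D` (`gt_T0`), `φ = 1` (`one_irr3`), `lo3`, `fin`: `r = 2`: `hi_2`; `r = 3`, `r ∈ BB E`: `lo3`; `r ≥ 5` not in `BB E`: `hC`, `hi_cv`. -/
theorem end4 {E : ∀ i : PF G, PD G i} {Cv : ∀ i : PF G, Fin (E i).n → Set ℕ}
    {Δ : ∀ i j, Finset ((E i).F j).J} {v : ∀ i j, ((E i).F j).J → ((E i).F j).X}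
    (hs : Group.IsSolvable G) (h2 : 2 ∣ Nat.card (G ⧸ Fit G)) (D : GD E Cv Δ v)
    (hE : ∀ i, Ffr (E i))
    (hC : ∀ i j, ∀ r : ℕ, r.Prime → 5 ≤ r → ¬ ((E i).F j).Bt r → r ∈ Cv i j)
    (h3 : 3 ∣ Nat.card (G ⧸ Fit G)) (h3B : 3 ∉ BB E)
    (hfix : ∀ i j, ∀ R : Sylow 3 (G ⧸ Fit G), ∀ x ∈ (R : Subgroup (G ⧸ Fit G)), ∀ b,
      (((E i).F j).W b).map (((E i).F j).ρ x) = ((E i).F j).W b)
    (hev : Even (Nat.card (Sylow 3 (G ⧸ Fit G))))
    (hO : ∀ K : Subgroup (G ⧸ Fit G), K.Normal → IsPGroup 3 K → K = ⊥)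
    (i₁ : PF G) (j₁ : Fin (E i₁).n)
    (hab : ¬ Abq ((E i₁).F j₁).ρ ((E i₁).F j₁).W ((E i₁).F j₁).UU)
    (hm : ∀ P : Sylow 2 (G ⧸ Fit G), ∀ x : ((E i₁).F j₁).X, x ≠ 0 →
      ∃ y ∈ (P : Subgroup (G ⧸ Fit G)), ((E i₁).F j₁).ρ y x ≠ x) : Two G := by
  have hT := gt_T0 hs D
  obtain ⟨l, hl, ψ, hψ, c, hc, hc3, hB⟩ := lo3 hs D h2 h3 h3B hfix hev hO (T0 D) hT
  refine fin D hE (T0 D) (fun _ => 1) (one_irr3 _) 1 (by simp) l hl ψ hψ c hc ?_
  intro r hr hrc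
  rcases eq_or_ne r 2 with h | hr2
  · subst h
    left
    rw [mul_one]
    exact hi_2 D (T0 D) hT i₁ j₁ hab hm
  rcases eq_or_ne r 3 with h | hr3
  · subst h
    exact Or.inr hc3
  have hr5 : 5 ≤ r := by
    have h4 := hr.two_le
    by_contra h5
    have h6 : r = 4 := by omega
    subst h6
    exact absurd hr (by norm_num)
  by_cases hrB : r ∈ BB E
  · rcases hB r hrB with h | h
    · left
      rw [mul_one]
      exact h
    · exact Or.inr h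
  · left
    rw [mul_one]
    have h4 : ∃ i j, ¬ ((E i).F j).Bt r := by
      by_contra hcon
      push Not at hcon
      exact hrB ⟨hr, by omega, hrc, hcon⟩
    obtain ⟨i, j, hij⟩ := h4
    exact hi_cv D (T0 D) hT i j r hr (hC i j r hr hr5 hij)
-- END fc

-- BEGIN fd
/-- (fd, size 4) The main theorem for `2 ∣ |G : Fit G|`. PROOF. `E` from `pdf_ex`. `QA i j` = the statement (A) of `md3` for `(E i).F j`, `QB i j` = the statement (B) (negation of the block condition and the existence of `Δ`, `v` with `Pd3`). `Cv i j = {r | r.Prime ∧ ¬ Bt r ∧ (5 ≤ r ∨ (3 ≤ r ∧ QA i j))}`,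
`Pd i j Δ v = (¬ QA i j → QB i j → Pd3 ..)`. `hgen`: `md3` (the sets `Cv` are those of `md3`: `Gd` only needs `cov` for the elements of the set). `gd_ex` gives `D`. CASES. (1) `3 ∤ card`, `3 ∈ BB E`, or a nontrivial normal 3-subgroup: `end2` for `T0 D`, `φ = 1` (`hi_O`). (2) some `(i, j)` with `QA`, `¬ Bt 3`:
`3 ∈ Cv i j`, `end2` for `T0 D` with `hi_cv`. (3) some `(i, j)` with `¬ QA`, `QB`: `nt3`, `three2`, `end2`. (4) otherwise: by `md3` every `(i, j)` with `¬ Bt 3` is in case (C), and there is one as `3 ∉ BB E`; all modules: the Sylow 3-subgroups fix the blocks (if `Bt 3`: trivial or by definition; otherwise (C)). `end4`. -/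
theorem main3 (hTB : TBst G) (hs : Group.IsSolvable G) (h2 : 2 ∣ Nat.card (G ⧸ Fit G)) : Two G := by
  have hsH : Group.IsSolvable (G ⧸ Fit G) := by
    have := hs
    infer_instance
  have hE : ∀ i : PF G, ∃ E : PD G i, Ffr E := fun i => pdf_ex i (Nat.prime_of_mem_primeFactors i.2)
  choose E hEf using hE
  obtain ⟨QA, hQA⟩ : ∃ QA : ∀ i : PF G, Fin (E i).n → Prop, ∀ i j, QA i j ↔
      ∀ b₀ b₁, ∃ (Δ : Finset ((E i).F j).J) (v : ((E i).F j).J → ((E i).F j).X), b₀ ∈ Δ ∧ b₁ ∈ Δ ∧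
        Gd ((E i).F j) {r | r.Prime ∧ 3 ≤ r ∧ ¬ ((E i).F j).Bt r} Δ v := ⟨_, fun _ _ => Iff.rfl⟩
  obtain ⟨QB, hQB⟩ : ∃ QB : ∀ i : PF G, Fin (E i).n → Prop, ∀ i j, QB i j ↔
      (¬ ∀ R : Sylow 3 (G ⧸ Fit G), ∀ x ∈ (R : Subgroup (G ⧸ Fit G)), ∀ b,
        (((E i).F j).W b).map (((E i).F j).ρ x) = ((E i).F j).W b) ∧
      ∀ b₀ b₁, ∃ (Δ : Finset ((E i).F j).J) (v : ((E i).F j).J → ((E i).F j).X), b₀ ∈ Δ ∧ b₁ ∈ Δ ∧
        Pd3 ((E i).F j) Δ v ∧ Gd ((E i).F j) {r | r.Prime ∧ 5 ≤ r ∧ ¬ ((E i).F j).Bt r} Δ v :=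
    ⟨_, fun _ _ => Iff.rfl⟩
  obtain ⟨Cv, hCv⟩ : ∃ Cv : ∀ i : PF G, Fin (E i).n → Set ℕ, ∀ i j r, r ∈ Cv i j ↔
      r.Prime ∧ ¬ ((E i).F j).Bt r ∧ (5 ≤ r ∨ (3 ≤ r ∧ QA i j)) := ⟨_, fun _ _ _ => Iff.rfl⟩
  obtain ⟨Pd, hPd⟩ : ∃ Pd : ∀ (i : PF G) (j : Fin (E i).n), Finset ((E i).F j).J →
      (((E i).F j).J → ((E i).F j).X) → Prop, ∀ i j Δ v, Pd i j Δ v ↔
        (¬ QA i j → QB i j → Pd3 ((E i).F j) Δ v) := ⟨_, fun _ _ _ _ => Iff.rfl⟩
  have g3 : ∀ i j, QA i j → ∀ b₀ b₁, ∃ Δ v, b₀ ∈ Δ ∧ b₁ ∈ Δ ∧ Pd i j Δ v ∧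
      Gd ((E i).F j) (Cv i j) Δ v := by
    intro i j hA b₀ b₁
    obtain ⟨Δ, v, h0, h1, hG⟩ := (hQA i j).1 hA b₀ b₁
    refine ⟨Δ, v, h0, h1, (hPd i j Δ v).2 fun hn _ => absurd hA hn, hG.ne, hG.two, hG.vW, ?_⟩
    intro k hk r hr
    refine hG.cov k hk r ?_
    obtain ⟨hr1, hr2, hr3⟩ := (hCv i j r).1 hr
    refine ⟨hr1, ?_, hr2⟩
    rcases hr3 with h | h
    · omega
    · exact h.1
  have g5 : ∀ i j, ¬ QA i j → ∀ (Δ : Finset ((E i).F j).J) (v : ((E i).F j).J → ((E i).F j).X),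
      Gd ((E i).F j) {r | r.Prime ∧ 5 ≤ r ∧ ¬ ((E i).F j).Bt r} Δ v →
        Gd ((E i).F j) (Cv i j) Δ v := by
    intro i j hA Δ v hG
    refine ⟨hG.ne, hG.two, hG.vW, ?_⟩
    intro k hk r hr
    refine hG.cov k hk r ?_
    obtain ⟨hr1, hr2, hr3⟩ := (hCv i j r).1 hr
    refine ⟨hr1, ?_, hr2⟩
    rcases hr3 with h | h
    · exact h
    · exact absurd h.2 hA
  have hgen : ∀ i j b₀ b₁, ∃ Δ v, b₀ ∈ Δ ∧ b₁ ∈ Δ ∧ Pd i j Δ v ∧
      Gd ((E i).F j) (Cv i j) Δ v := by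
    intro i j b₀ b₁
    by_cases hA : QA i j
    · exact g3 i j hA b₀ b₁
    by_cases hB : QB i j
    · obtain ⟨Δ, v, h0, h1, h3, hG⟩ := ((hQB i j).1 hB).2 b₀ b₁
      exact ⟨Δ, v, h0, h1, (hPd i j Δ v).2 fun _ _ => h3, g5 i j hA Δ v hG⟩
    have hpi : Fact (i : ℕ).Prime := pf_fact i
    rcases md3 hsH ((E i).F j) with h | h | ⟨-, -, -, -, -, h⟩
    · exact absurd ((hQA i j).2 h) hA
    · exact absurd ((hQB i j).2 h) hB
    · obtain ⟨Δ, v, h0, h1, hG⟩ := h b₀ b₁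
      exact ⟨Δ, v, h0, h1, (hPd i j Δ v).2 fun _ h' => absurd h' hB, g5 i j hA Δ v hG⟩
  obtain ⟨Δ, v, hP, ⟨D⟩⟩ := gd_ex hTB hs h2 E Cv
    (fun i j r hr => ⟨((hCv i j r).1 hr).1, ((hCv i j r).1 hr).2.1⟩) Pd hgen
  have hC : ∀ i j, ∀ r : ℕ, r.Prime → 5 ≤ r → ¬ ((E i).F j).Bt r → r ∈ Cv i j :=
    fun i j r hr h5 hB => (hCv i j r).2 ⟨hr, hB, Or.inl h5⟩
  have hT0 := gt_T0 hs D
  have he0 : (3 ∣ Nat.card (G ⧸ Fit G) → 3 ∉ BB E → 3 ∣ (SH D (T0 D)).index) → Two G := by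
    intro h
    refine end2 hs h2 D hEf hC (T0 D) hT0 (fun _ => 1) (one_irr3 _) 1 (by norm_num) ?_
    intro a b
    rw [mul_one]
    exact h a b
  by_cases h3 : 3 ∣ Nat.card (G ⧸ Fit G)
  swap
  · exact he0 fun h => absurd h h3
  by_cases h3B : 3 ∈ BB E
  · exact he0 fun _ h => absurd h3B h
  by_cases hO : ∃ N : Subgroup (G ⧸ Fit G), N.Normal ∧ IsPGroup 3 N ∧ N ≠ ⊥
  · obtain ⟨N, hN, hN3, hN1⟩ := hO
    exact he0 fun _ _ => hi_O hs D (T0 D) hT0 3 Nat.prime_three N hN hN3 hN1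
  by_cases hAA : ∃ (i : PF G) (j : Fin (E i).n), QA i j ∧ ¬ ((E i).F j).Bt 3
  · obtain ⟨i, j, hA, hB⟩ := hAA
    exact he0 fun _ _ => hi_cv D (T0 D) hT0 i j 3 Nat.prime_three
      ((hCv i j 3).2 ⟨Nat.prime_three, hB, Or.inr ⟨le_rfl, hA⟩⟩)
  by_cases hBB : ∃ (i : PF G) (j : Fin (E i).n), ¬ QA i j ∧ QB i j
  · obtain ⟨i, j, hA, hB⟩ := hBB
    have hJ : Nontrivial ((E i).F j).J := nt3 ((E i).F j) ((hQB i j).1 hB).1
    have hC1 : ∀ r ∈ Cv i j, r.Prime ∧ 5 ≤ r ∧ ¬ ((E i).F j).Bt r := by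
      intro r hr
      obtain ⟨hr1, hr2, hr3⟩ := (hCv i j r).1 hr
      refine ⟨hr1, ?_, hr2⟩
      rcases hr3 with h | h
      · exact h
      · exact absurd h.2 hA
    obtain ⟨T, hT, φ, hφ, b, hb, h3b⟩ := three2 hs D i j hJ hC1
      ((hPd i j (Δ i j) (v i j)).1 (hP i j hJ) hA hB)
    exact end2 hs h2 D hEf hC T hT φ hφ b hb fun _ _ => h3b
  -- case 4
  have hmod : ∀ (i : PF G) (j : Fin (E i).n), ¬ ((E i).F j).Bt 3 →
      (∀ R : Sylow 3 (G ⧸ Fit G), ∀ x ∈ (R : Subgroup (G ⧸ Fit G)), ∀ b,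
        (((E i).F j).W b).map (((E i).F j).ρ x) = ((E i).F j).W b) ∧
      ¬ Abq ((E i).F j).ρ ((E i).F j).W ((E i).F j).UU ∧ Even (Nat.card (Sylow 3 (G ⧸ Fit G))) ∧
      ∀ P : Sylow 2 (G ⧸ Fit G), ∀ x : ((E i).F j).X, x ≠ 0 →
        ∃ y ∈ (P : Subgroup (G ⧸ Fit G)), ((E i).F j).ρ y x ≠ x := by
    intro i j hB
    have hpi : Fact (i : ℕ).Prime := pf_fact i
    rcases md3 hsH ((E i).F j) with h | h | ⟨h1, -, h2', h3', h4, -⟩
    · exact absurd ⟨i, j, (hQA i j).2 h, hB⟩ hAA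
    · by_cases hA : QA i j
      · exact absurd ⟨i, j, hA, hB⟩ hAA
      · exact absurd ⟨i, j, hA, (hQB i j).2 h⟩ hBB
    · exact ⟨h1, h2', h3', h4⟩
  have hex : ∃ (i : PF G) (j : Fin (E i).n), ¬ ((E i).F j).Bt 3 := by
    by_contra hno
    push Not at hno
    exact h3B ⟨Nat.prime_three, le_rfl, h3, hno⟩
  obtain ⟨i₁, j₁, hB₁⟩ := hex
  obtain ⟨-, hab, hev, hm⟩ := hmod i₁ j₁ hB₁
  refine end4 hs h2 D hEf hC h3 h3B ?_ hev ?_ i₁ j₁ hab hm
  · intro i j R x hx b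
    by_cases hB : ((E i).F j).Bt 3
    · rcases hB with h | h
      · apply le_antisymm
        · rintro _ ⟨w, hw, rfl⟩
          rw [h R x hx w]
          exact hw
        · intro w hw
          exact ⟨w, hw, h R x hx w⟩
      · exact h.1 R x hx b
    · exact (hmod i j hB).1 R x hx b
  · intro K hK hK3
    by_contra hK1
    exact hO ⟨K, hK, hK3, hK1⟩
-- END fd

end

end Pool.Agent.R12
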