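import Pool.Agent.R12.Lo

/-! The local theorem. -/

set_option autoImplicit false

namespace Pool.Agent.R12

open Classical
open Pool.Agent.Nan Pool.Agent.Nas
open Pool.Agent.Nfv (PD vu2)
open Pool.Agent.KB Pool.Agent.KB.ContrAux Pool.Agent.KBL Pool.Agent.KBZ Pool.Agent.KBU
  Pool.Agent.KBQ Pool.Agent.KBY

/-- The local theorem for the stabilizers `fx`. -/
def Loc3 {P H : Type} [Group P] [Group H] (p : ℕ) (fx : (P → ℂ) → Subgroup H) (A : Subgroup H)
    (B : Set ℕ) {n : ℕ} (F : Fin n → Fam p H) : Prop :=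
  ∃ (Th : H → (∀ i, (F i).X) → P → ℂ) (S0 : Subgroup H) (I : Set (Fin n)), Hi fx F Th S0 I ∧
    ((∀ k T, ∃ d : ℕ, Th k T 1 = d ∧ p ∣ d) ∨
      (S0 = ⊤ ∧ I = ∅ ∧ Nonempty (LoD fx A B F)))

section
variable {p : ℕ} {P H : Type} [Group P] [Group H]

/-- The conjugates of the characters `θ T`. -/
theorem hi_conj (φ : H →* MulAut P) {n : ℕ} (F : Fin n → Fam p H)
    (θ : (∀ i, (F i).X) → P → ℂ) (hθ : ∀ T, θ T ∈ Irr P) (S0 : Subgroup H) (I : Set (Fin n))
    (hfix : ∀ T h, h ∈ fxS φ (θ T) ↔ h ∈ S0 ∧ ∀ i, i ∉ I → (F i).ρ h (T i) = T i)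
    (one : ∀ i ∈ I, Subsingleton (F i).J ∧ Abq (F i).ρ (F i).W (F i).UU)
    (zf : ∀ i ∈ I, ∃ z : (F i).X, z ≠ 0 ∧ ∀ h ∈ S0, (F i).ρ h z = z) :
    Hi (fxS φ) F (fun k T x => θ (fun i => (F i).ρ k⁻¹ (T i)) (φ k⁻¹ x)) S0 I := by
  refine ⟨fun k T => Inf_irr (φ k⁻¹).toMonoidHom (φ k⁻¹).surjective _ (hθ _), ?_, one, zf⟩
  intro k T h
  have h1 : h ∈ fxS φ (fun x => θ (fun i => (F i).ρ k⁻¹ (T i)) (φ k⁻¹ x)) ↔
      k⁻¹ * h * k ∈ fxS φ (θ fun i => (F i).ρ k⁻¹ (T i)) := by
    rw [mem_fxS, mem_fxS]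
    constructor
    · intro h2 x
      have h3 := h2 (φ k x)
      rw [map_mul, map_mul, MulAut.mul_apply, MulAut.mul_apply, h3, ← MulAut.mul_apply,
        ← map_mul, inv_mul_cancel, map_one, MulAut.one_apply]
    · intro h2 x
      have h3 := h2 (φ k⁻¹ x)
      rw [← MulAut.mul_apply, ← map_mul, mul_inv_cancel_right, map_mul, MulAut.mul_apply] at h3
      exact h3
  rw [h1, hfix]
  refine and_congr_right fun _ => forall_congr' fun i => imp_congr_right fun _ => ?_
  constructor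
  · intro h2
    rw [← Module.End.mul_apply, ← map_mul, mul_inv_cancel_right, map_mul,
      Module.End.mul_apply] at h2
    have h3 := congrArg ((F i).ρ k) h2
    rw [← Module.End.mul_apply, ← map_mul, mul_inv_cancel, map_one, Module.End.one_apply,
      ← Module.End.mul_apply, ← map_mul, mul_inv_cancel, map_one, Module.End.one_apply] at h3
    exact h3
  · intro h2
    rw [← Module.End.mul_apply, ← map_mul, mul_inv_cancel_right, map_mul, Module.End.mul_apply,
      h2]

/-- A submodule which is mapped into itself by an injective map. -/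
theorem lk_map [Fact p.Prime] {X : Type} [AddCommGroup X] [Module (ZMod p) X] [Finite X]
    (ρ : Representation (ZMod p) H X) (E : Submodule (ZMod p) X) (h : H)
    (hE : ∀ l ∈ E, ρ h l ∈ E) : E.map (ρ h) = E := by
  have hinj : Function.Injective (ρ h) := by
    intro x y hxy
    have h1 := congrArg (ρ h⁻¹) hxy
    rw [← Module.End.mul_apply, ← Module.End.mul_apply, ← map_mul, inv_mul_cancel, map_one,
      Module.End.one_apply, Module.End.one_apply] at h1
    exact h1
  have hfd : FiniteDimensional (ZMod p) X := Module.Finite.of_finite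
  refine Submodule.eq_of_le_of_finrank_eq ?_ ?_
  · rintro _ ⟨l, hl, rfl⟩
    exact hE l hl
  · exact (Submodule.equivMapOfInjective (ρ h) hinj E).finrank_eq.symm

end

section
variable {p : ℕ} [Fact p.Prime] {P H V U : Type} [Group P] [Finite P] [Group H] [Finite H]
  [AddCommGroup V] [Module (ZMod p) V] [Finite V] [AddCommGroup U] [Module (ZMod p) U] [Finite U]
  {φ : H →* MulAut P} {ρV : Representation (ZMod p) H V} {ρU : Representation (ZMod p) H U}
  {β : V →ₗ[ZMod p] V →ₗ[ZMod p] U} {q : P → V} {κ : U → P}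

theorem loc_core3 (hC : C2 p φ ρV ρU β q κ) {A : Subgroup H} {B : Set ℕ} {n : ℕ}
    {F : Fin n → Fam p H} {em : ∀ i, (F i).X →ₗ[ZMod p] Module.Dual (ZMod p) V}
    (h : LS ρV ρU β A B F em) : Loc3 p (fxS φ) A B F := by
  obtain ⟨ζ, hζ⟩ := zt_ex p
  have hL := h.ltg
  by_cases hY : CY β em
  · obtain ⟨l, hl, I, m₀, m, h1, h2, h3⟩ := cy_hi h hY
    choose θ hθ hd hfx using fun T => chr hC hL.pH ζ hζ l (ltg_ne hL l hl) (m T)
    refine ⟨_, fx2 hL l m₀, (I : Set (Fin n)), hi_conj φ F θ hθ (fx2 hL l m₀) I ?_ ?_ ?_,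
      Or.inl ?_⟩
    · intro T g
      exact (hfx T g).trans (h3 T g)
    · intro i hi
      exact h1 i hi
    · intro i hi
      obtain ⟨z, hz, hz2⟩ := h2 i hi
      exact ⟨z, hz, fun g hg => hz2 g hg⟩
    · intro k T
      obtain ⟨d, hd1, hd2⟩ := hd fun i => (F i).ρ k⁻¹ (T i)
      refine ⟨d, ?_, hd2⟩
      change θ (fun i => (F i).ρ k⁻¹ (T i)) (φ k⁻¹ 1) = d
      rw [map_one, hd1]
  · obtain ⟨E, mm, i₀, i₁, j₀, j₁, hX⟩ := cx_main h hY
    have hlin := fun t => chr_lin hC ζ hζ t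
    refine ⟨_, ⊤, ∅, hi_conj φ F (fun T x => ((ζ (Multiplicative.ofAdd
      ((∑ i, em i (T i)) (q x))) : ℂˣ) : ℂ)) (fun T => (hlin _).1) ⊤ ∅ ?_ ?_ ?_,
      Or.inr ⟨rfl, rfl, ?_⟩⟩
    · intro T g
      rw [(hlin (∑ i, em i (T i))).2 g]
      constructor
      · intro hg
        refine ⟨Subgroup.mem_top g, fun i _ => ?_⟩
        refine lc15_sum h T g (fun w => ?_) i
        have h4 := hg w
        rw [LinearMap.sum_apply, LinearMap.sum_apply] at h4
        exact h4
      · rintro ⟨-, hg⟩ w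
        rw [LinearMap.sum_apply, LinearMap.sum_apply]
        refine Finset.sum_congr rfl fun i _ => ?_
        rw [lc15_em h, lc15_inv' _ _ _ (hg i (Set.notMem_empty i))]
    · intro i hi
      exact absurd hi (Set.notMem_empty i)
    · intro i hi
      exact absurd hi (Set.notMem_empty i)
    · have hs : ∀ l : Module.Dual (ZMod p) U, ∃ θ : P → ℂ, l ≠ 0 → θ ∈ Irr P ∧
          (∃ d : ℕ, θ 1 = d ∧ p ∣ d) ∧ ∀ g : H, g ∈ fxS φ θ ↔ Fx2 ρV ρU β l (mm l) g := by
        intro l
        by_cases hl : l = 0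
        · exact ⟨fun _ => 1, fun h' => absurd hl h'⟩
        · obtain ⟨θ, h1, h2, h3⟩ := chr hC hL.pH ζ hζ l (ltg_ne hL l hl) (mm l)
          exact ⟨θ, fun _ => ⟨h1, h2, h3⟩⟩
      choose s hs using hs
      have hfin : Finite (Module.Dual (ZMod p) U) := DFunLike.finite _
      have hdual : ∀ (g : H) (l : Module.Dual (ZMod p) U), ρU.dual g l = l ∘ₗ ρU g⁻¹ :=
        fun g l => rfl
      have hfixL : ∀ (g : H) (l : Module.Dual (ZMod p) U), ρU.dual g l = l ↔ FixL ρU l g := by
        intro g l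
        rw [hdual]
        constructor
        · intro h4 u
          have h5 := LinearMap.congr_fun h4 (ρU g u)
          rw [LinearMap.comp_apply, ← Module.End.mul_apply, ← map_mul, inv_mul_cancel, map_one,
            Module.End.one_apply] at h5
          exact h5.symm
        · intro h4
          ext u
          rw [LinearMap.comp_apply]
          have h5 := h4 (ρU g⁻¹ u)
          rw [← Module.End.mul_apply, ← map_mul, mul_inv_cancel, map_one,
            Module.End.one_apply] at h5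
          exact h5.symm
      have hmapk : ∀ k : H, E.map (ρU.dual k) = E → ∀ e ∈ E, e ∘ₗ ρU k ∈ E := by
        intro k hk e he
        rw [← hk] at he
        obtain ⟨e', he', rfl⟩ := he
        have h5 : (ρU.dual k e') ∘ₗ ρU k = e' := by
          rw [hdual]
          ext u
          rw [LinearMap.comp_apply, LinearMap.comp_apply, ← Module.End.mul_apply, ← map_mul,
            inv_mul_cancel, map_one, Module.End.one_apply]
        rw [h5]
        exact he'
      exact ⟨{
        Y := Module.Dual (ZMod p) U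
        ρ := ρU.dual
        E := E
        s := s
        i₀ := i₀
        i₁ := i₁
        j₀ := j₀
        j₁ := j₁
        ne := hX.ne
        bl := fun g l hl hl0 hg => lk_map _ E g fun l' hl' => hX.bl g⁻¹ l hl hl0 hg l' hl'
        bA := fun a ha => lk_map _ E a fun l' hl' => hX.bA a⁻¹ (inv_mem ha) l' hl'
        bC := fun g hg => lk_map _ E g fun l' hl' => hX.bC g⁻¹ (fun a ha => by
          have h5 := hg a ha
          have h6 : a = g⁻¹ * (g * a) := by group
          calc g⁻¹ * a = g⁻¹ * (a * g) * g⁻¹ := by group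
            _ = g⁻¹ * (g * a) * g⁻¹ := by rw [h5]
            _ = a * g⁻¹ := by rw [← h6]) l' hl'
        irr := fun l _ hl0 => (hs l hl0).1
        deg := fun l _ hl0 => (hs l hl0).2.1
        fix := fun l _ hl0 g hg => (hfixL g l).2 (((hs l hl0).2.2 g).1 hg).1
        tw := fun l hl hl0 x hx hxE k hk => ((hs l hl0).2.2 _).2
          (hX.tw l hl hl0 x (((hs l hl0).2.2 x).1 hx) (fun e he => (hfixL x e).1 (hxE e he)) k
            (hmapk k hk))
        th := fun l hl hl0 r hr hr3 R hR x hx k hk => ((hs l hl0).2.2 _).2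
          (hX.th l hl hl0 r hr hr3 R (fun y hy => ((hs l hl0).2.2 y).1 (hR hy)) x hx k
            ((hfixL k l).1 hk))
        b1 := fun Δ v hc hj0 hj1 l hl hl0 a ha hfa => ((hs l hl0).2.2 a).2
          (hX.b1 Δ v hc hj0 hj1 l hl hl0 a ha hfa)
        c := by
          rintro Δ v hc hj0 hj1 l hl hl0 r hr ⟨c, hcc, i, x, hcx⟩ ⟨⟨R, hR⟩, h5, h6, h7⟩
          have hne : cm A r ≠ ⊥ := by
            intro h8
            rw [h8, Subgroup.mem_bot] at hcc
            rw [hcc, map_one, Module.End.one_apply] at hcx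
            exact hcx rfl
          exact hX.c Δ v hc hj0 hj1 l hl hl0 r hr hne
            ⟨⟨R, fun x hx => ((hs l hl0).2.2 x).1 (hR hx)⟩, h5,
              fun c hcc hcf => h6 c hcc (((hs l hl0).2.2 c).2 hcf), h7⟩ }⟩

end

section
variable {p : ℕ} {P H : Type} [Group P] [Finite P] [Group H] [Finite H]

theorem loc3_inf {P' : Type} [Group P'] (π : P →* P') (hπ : Function.Surjective π)
    (fx : (P → ℂ) → Subgroup H) (fx' : (P' → ℂ) → Subgroup H)
    (hfx : ∀ χ ∈ Irr P', fx (fun x => χ (π x)) = fx' χ) {A : Subgroup H} {B : Set ℕ} {n : ℕ}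
    {F : Fin n → Fam p H} (h : Loc3 p fx' A B F) : Loc3 p fx A B F := by
  obtain ⟨Th, S0, I, h1, h2⟩ := h
  refine ⟨_, S0, I, hi_inf π hπ F fx fx' hfx Th S0 I h1, ?_⟩
  rcases h2 with h2 | ⟨h2, h3, h4⟩
  · left
    intro k T
    obtain ⟨d, hd, hpd⟩ := h2 k T
    refine ⟨d, ?_, hpd⟩
    change Th k T (π 1) = d
    rw [map_one, hd]
  · exact Or.inr ⟨h2, h3, lod_inf π hπ B F fx fx' hfx h4⟩

theorem loc3_map {H' : Type} [Group H'] [Finite H'] (σ : H →* H')
    (hσ : Function.Surjective σ) {A : Subgroup H} (hA : Ab A) (B : Set ℕ)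
    (hB : ∀ r ∈ B, r.Prime) {n : ℕ} (F : Fin n → Fam p H)
    (hk : ∀ i, ∀ h, σ h = 1 → ∀ x, (F i).ρ h x = x)
    (fx : (P → ℂ) → Subgroup H) (fx' : (P → ℂ) → Subgroup H')
    (hfx : ∀ χ g, g ∈ fx χ ↔ σ g ∈ fx' χ)
    (h : Loc3 p fx' (A.map σ) B (fun i => fmap σ hσ (F i) (hk i))) : Loc3 p fx A B F := by
  obtain ⟨Th, S0, I, h1, h2⟩ := h
  refine ⟨_, _, I, hi_map σ hσ F hk fx fx' hfx Th S0 I h1, ?_⟩
  rcases h2 with h2 | ⟨h2, h3, h4⟩
  · exact Or.inl fun k T => h2 (σ k) T
  · refine Or.inr ⟨?_, h3, lod_map σ hσ hA B hB F hk fx fx' hfx h4⟩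
    rw [h2, Subgroup.comap_top]

private noncomputable def lk_act (φ : H →* MulAut P) (N₀ : Subgroup P) [N₀.Normal]
    (hinv : ∀ h, ∀ x ∈ N₀, φ h x ∈ N₀) : H →* MulAut (P ⧸ N₀) where
  toFun h := QuotientGroup.congr N₀ N₀ (φ h) (by
    apply le_antisymm
    · rintro _ ⟨x, hx, rfl⟩
      exact hinv h x hx
    · intro x hx
      refine ⟨φ h⁻¹ x, hinv _ x hx, ?_⟩
      change φ h (φ h⁻¹ x) = x
      rw [← MulAut.mul_apply, ← map_mul, mul_inv_cancel, map_one, MulAut.one_apply])
  map_one' := by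
    ext x
    induction x using QuotientGroup.induction_on with
    | H x =>
      change ((φ 1 x : P) : P ⧸ N₀) = x
      rw [map_one, MulAut.one_apply]
  map_mul' g h := by
    ext x
    induction x using QuotientGroup.induction_on with
    | H x =>
      change ((φ (g * h) x : P) : P ⧸ N₀) = ((φ g (φ h x) : P) : P ⧸ N₀)
      rw [map_mul, MulAut.mul_apply]

omit [Finite P] [Finite H] in
private theorem lk_act_mk (φ : H →* MulAut P) (N₀ : Subgroup P) [N₀.Normal]
    (hinv : ∀ h, ∀ x ∈ N₀, φ h x ∈ N₀) (h : H) (x : P) :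
    lk_act φ N₀ hinv h (x : P ⧸ N₀) = ((φ h x : P) : P ⧸ N₀) := rfl

omit [Finite P] [Finite H] in
private theorem lk_cmap {P' : Type} [Group P'] (π : P →* P') (hπ : Function.Surjective π) :
    commutator P' = (commutator P).map π := by
  rw [commutator_def, commutator_def, Subgroup.map_commutator, Subgroup.map_top_of_surjective π hπ]

omit [Finite P] [Finite H] in
private theorem lk_phi (p : ℕ) (N₀ : Subgroup P) [N₀.Normal] (h : N₀ ≤ pe_Phi p P) (x : P) :
    QuotientGroup.mk' N₀ x ∈ pe_Phi p (P ⧸ N₀) ↔ x ∈ pe_Phi p P := by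
  have h1 : pe_Phi p (P ⧸ N₀) = (pe_Phi p P).map (QuotientGroup.mk' N₀) := by
    unfold pe_Phi
    rw [Subgroup.map_sup, lk_cmap _ (QuotientGroup.mk'_surjective N₀), MonoidHom.map_closure]
    congr 2
    ext z
    constructor
    · rintro ⟨y, rfl⟩
      obtain ⟨y, rfl⟩ := QuotientGroup.mk'_surjective N₀ y
      exact ⟨y ^ p, ⟨y, rfl⟩, map_pow _ _ _⟩
    · rintro ⟨_, ⟨y, rfl⟩, rfl⟩
      exact ⟨QuotientGroup.mk' N₀ y, map_pow _ _ _⟩
  rw [h1]
  constructor
  · rintro ⟨y, hy, he⟩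
    have h2 : y⁻¹ * x ∈ N₀ := QuotientGroup.eq.1 he
    have h3 := (pe_Phi p P).mul_mem hy (h h2)
    rwa [mul_inv_cancel_left] at h3
  · intro hx
    exact ⟨x, hx, rfl⟩

/-- The local theorem for a `p`-group with operators. PROOF. As `loc_main2` of Nfv/Lo.lean. -/
theorem loc_main3 (p : ℕ) [hp : Fact p.Prime] (h3 : 3 ≤ p) (hP : IsPGroup p P)
    (hH : ¬ p ∣ Nat.card H) (hs : Group.IsSolvable H) (φ : H →* MulAut P)
    (hne : commutator P ≠ ⊥) {V : Type} [AddCommGroup V] [Module (ZMod p) V] [Finite V]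
    (ρV : Representation (ZMod p) H V) (q : P → V) (hq : ∀ x y, q (x * y) = q x + q y)
    (hqs : Function.Surjective q) (hqk : ∀ x, q x = 0 ↔ x ∈ pe_Phi p P)
    (hqe : ∀ h x, q (φ h x) = ρV h (q x)) {n : ℕ} (F : Fin n → Fam p H)
    (em : ∀ i, (F i).X →ₗ[ZMod p] Module.Dual (ZMod p) V)
    (inj : ∀ i, Function.Injective (em i))
    (eqv : ∀ i h x v, em i ((F i).ρ h x) v = em i x (ρV h⁻¹ v))
    (ind : iSupIndep fun i => LinearMap.range (em i)) (sup : ⨆ i, LinearMap.range (em i) = ⊤)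
    {A : Subgroup H} (hA : Ab A) (B : Set ℕ) (hB : ∀ r ∈ B, AR A r) (hB3 : ∀ r ∈ B, 3 ≤ r)
    (Ale : ∀ i, A ≤ (F i).A) (bt : ∀ r ∈ B, ∀ i, (F i).Bt r)
    (triv : ∀ r ∈ B, ∀ i, (∀ c ∈ cm A r, ∀ x, (F i).ρ c x = x) →
      ∀ R : Sylow r H, ∀ y ∈ (R : Subgroup H), ∀ x, (F i).ρ y x = x) :
    Loc3 p (fxS φ) A B F := by
  have hpp : p.Prime := hp.out
  obtain ⟨N₀, hN, hinv, hlt, hcen, hexp, hmin⟩ := ex_N0 p hpp hP φ hne
  refine loc3_inf (QuotientGroup.mk' N₀) (QuotientGroup.mk'_surjective N₀) (fxS φ)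
    (fxS (lk_act φ N₀ hinv)) ?_ ?_
  · intro χ _
    ext g
    rw [mem_fxS, mem_fxS]
    constructor
    · intro hg y
      obtain ⟨x, rfl⟩ := QuotientGroup.mk'_surjective N₀ y
      exact hg x
    · intro hg x
      exact hg (x : P ⧸ N₀)
  · set φ' := lk_act φ N₀ hinv with hφ'
    have hσ : Function.Surjective φ'.rangeRestrict := φ'.rangeRestrict_surjective
    obtain ⟨hA', hAR', hcmA⟩ := map_ab φ'.rangeRestrict hσ hA
    have hcm : commutator (P ⧸ N₀) = (commutator P).map (QuotientGroup.mk' N₀) :=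
      lk_cmap _ (QuotientGroup.mk'_surjective N₀)
    have hc1 : ∀ x ∈ commutator (P ⧸ N₀), ∀ y : P ⧸ N₀, x * y = y * x := by
      intro x hx y
      rw [hcm] at hx
      obtain ⟨x, hx, rfl⟩ := hx
      obtain ⟨y, rfl⟩ := QuotientGroup.mk'_surjective N₀ y
      have h1 := hcen x hx y
      rw [← QuotientGroup.eq_one_iff] at h1
      have h2 : QuotientGroup.mk' N₀ (x * y * x⁻¹ * y⁻¹) = 1 := h1
      rw [map_mul, map_mul, map_mul, map_inv, map_inv, mul_inv_eq_one, mul_inv_eq_iff_eq_mul] at h2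
      exact h2
    suffices h : _ ∧ _ ∧ _ by
      obtain ⟨V', U, i1, i2, i3, i4, i5, i6, ρV', ρU, β, q', κ, hC, hL, hk'⟩ :=
        vu2 p (hP.to_quotient N₀)
        (fun h => hH (h.trans (Subgroup.card_range_dvd φ'))) φ'.range.subtype
        Subtype.val_injective hc1 h.1 h.2.1 h.2.2
      -- the isomorphism of `V` and `V'`
      have hNPhi : N₀ ≤ pe_Phi p P := hlt.le.trans le_sup_left
      have hk0 : ∀ x, q' (QuotientGroup.mk' N₀ x) = 0 ↔ q x = 0 := by
        intro x
        rw [hk', hqk, lk_phi p N₀ hNPhi]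
      obtain ⟨e₀, he₀⟩ := pe_lift q hq hqs (fun x => q' (QuotientGroup.mk' N₀ x))
        (fun x y => by rw [map_mul, hC.q_mul]) (fun x hx => (hk0 x).2 hx)
      have he₀b : Function.Bijective e₀ := by
        constructor
        · rw [injective_iff_map_eq_zero]
          intro v hv
          obtain ⟨x, rfl⟩ := hqs v
          rw [he₀] at hv
          exact (hk0 x).1 hv
        · intro v'
          obtain ⟨y, rfl⟩ := hC.q_surj v'
          obtain ⟨x, rfl⟩ := QuotientGroup.mk'_surjective N₀ y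
          exact ⟨q x, he₀ x⟩
      let e : V ≃ₗ[ZMod p] V' := LinearEquiv.ofBijective (e₀.toZModLinearMap p) he₀b
      have he : ∀ x, e (q x) = q' (QuotientGroup.mk' N₀ x) := he₀
      have hee : ∀ (h : H) v, e (ρV h v) = ρV' (φ'.rangeRestrict h) (e v) := by
        intro h v
        obtain ⟨x, rfl⟩ := hqs v
        rw [← hqe, he, he, ← hC.q_eq]
        rfl
      have hees : ∀ (h : H) v', e.symm (ρV' (φ'.rangeRestrict h) v') = ρV h (e.symm v') := by
        intro h v'
        rw [LinearEquiv.symm_apply_eq, hee, LinearEquiv.apply_symm_apply]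
      have hker : ∀ h : H, φ'.rangeRestrict h = 1 → ∀ v, ρV h v = v := by
        intro h h1 v
        apply e.injective
        rw [hee, h1, map_one]
        rfl
      have hkF : ∀ i, ∀ h : H, φ'.rangeRestrict h = 1 → ∀ x, (F i).ρ h x = x := by
        intro i h h1 x
        apply inj i
        ext v
        rw [eqv]
        congr 1
        exact hker _ (by rw [map_inv, h1, inv_one]) v
      refine loc3_map φ'.rangeRestrict hσ hA B (fun r hr => (hB r hr).prime) F hkF (fxS φ')
        (fxS φ'.range.subtype) (fun χ g => by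
          rw [mem_fxS, mem_fxS]
          rfl) ?_
      let em' : ∀ i, (fmap φ'.rangeRestrict hσ (F i) (hkF i)).X →ₗ[ZMod p]
          Module.Dual (ZMod p) V' := fun i =>
        (e.symm.dualMap : Module.Dual (ZMod p) V →ₗ[ZMod p] Module.Dual (ZMod p) V').comp (em i)
      have hem' : ∀ i (x : (F i).X) v', em' i x v' = em i x (e.symm v') := fun i x v' => rfl
      have hrange : ∀ i, LinearMap.range (em' i) =
          (LinearMap.range (em i)).map
            (e.symm.dualMap : Module.Dual (ZMod p) V →ₗ[ZMod p] Module.Dual (ZMod p) V') := by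
        intro i
        exact LinearMap.range_comp _ _
      have hFρ : ∀ i (h : H) (x : (F i).X),
          (fmap φ'.rangeRestrict hσ (F i) (hkF i)).ρ (φ'.rangeRestrict h) x = (F i).ρ h x := by
        intro i h x
        rw [fmap_ρ]
      have hLS : LS ρV' ρU β (A.map φ'.rangeRestrict) B
          (fun i => fmap φ'.rangeRestrict hσ (F i) (hkF i)) em' := by
        refine ⟨hL, ?_, h3, hA', fun r hr => hAR' r (hB r hr), hB3, ?_, ?_, ?_, ?_, ?_, ?_, ?_⟩
        · exact Group.isSolvable_of_surjective hσ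
        · intro i x y hxy
          apply inj i
          ext v
          have h1 := congrArg (fun f : Module.Dual (ZMod p) V' => f (e v)) hxy
          simp only [hem', LinearEquiv.symm_apply_apply] at h1
          exact h1
        · intro i h x v
          obtain ⟨h, rfl⟩ := hσ h
          rw [hFρ i h x, hem', hem', ← map_inv, hees, ← eqv]
        · have h1 := ind.map_orderIso (Submodule.orderIsoMapComap e.symm.dualMap)
          have h2 : (fun i => LinearMap.range (em' i)) =
              (Submodule.orderIsoMapComap e.symm.dualMap) ∘ fun i => LinearMap.range (em i) := by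
            funext i
            exact hrange i
          rw [h2]
          exact h1
        · simp only [hrange]
          rw [← Submodule.map_iSup, sup, Submodule.map_top]
          exact LinearEquiv.range _
        · intro i
          exact (Subgroup.map_mono (Ale i)).trans (fmap_A _ hσ (F i) (hkF i))
        · intro r hr i
          exact (fmap_bt _ hσ (F i) (hkF i) r (hB r hr).prime).2 (bt r hr i)
        · intro r hr i hc R' y hy x
          have hrp : r.Prime := (hB r hr).prime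
          have : Fact r.Prime := ⟨hrp⟩
          obtain ⟨R, rfl⟩ := Sylow.mapSurjective_surjective hσ r R'
          rw [Sylow.coe_mapSurjective] at hy
          obtain ⟨y, hy, rfl⟩ := hy
          rw [hFρ i y x]
          refine triv r hr i (fun c hc' x => ?_) R y hy x
          rw [← hFρ i c x]
          refine hc _ ?_ _
          rw [hcmA r hrp]
          exact ⟨c, hc', rfl⟩
      exact loc_core3 hC hLS
    refine ⟨?_, ?_, ?_⟩
    · intro x hx
      rw [hcm] at hx
      obtain ⟨x, hx, rfl⟩ := hx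
      rw [← map_pow]
      exact (QuotientGroup.eq_one_iff _).2 (hexp x hx)
    · intro h
      rw [hcm, Subgroup.map_eq_bot_iff, QuotientGroup.ker_mk'] at h
      exact absurd h (not_le_of_gt hlt)
    · intro N hNle hNinv
      have hNn : N.Normal := ⟨fun n hn g => by
        rw [← hc1 n (hNle hn) g, mul_inv_cancel_right]
        exact hn⟩
      have h1 := hmin (N.comap (QuotientGroup.mk' N₀)) (hNn.comap _) ?_ ?_ ?_
      · rcases h1 with h1 | h1
        · left
          rw [← Subgroup.map_comap_eq_self_of_surjective (QuotientGroup.mk'_surjective N₀) N, h1,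
            QuotientGroup.map_mk'_self]
        · right
          rw [← Subgroup.map_comap_eq_self_of_surjective (QuotientGroup.mk'_surjective N₀) N, h1,
            hcm]
      · intro x hx
        rw [Subgroup.mem_comap]
        have : QuotientGroup.mk' N₀ x = 1 := (QuotientGroup.eq_one_iff _).2 hx
        rw [this]
        exact N.one_mem
      · intro x hx
        rw [Subgroup.mem_comap] at hx
        have h2 := hNle hx
        rw [hcm] at h2
        obtain ⟨y, hy, hxy⟩ := h2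
        have h3 : y⁻¹ * x ∈ N₀ := QuotientGroup.eq.1 hxy
        have h4 := (commutator P).mul_mem hy (hlt.le h3)
        rwa [mul_inv_cancel_left] at h4
      · intro h x hx
        exact hNinv (φ'.rangeRestrict h) _ hx

end

section
variable {G : Type} [Group G] [Finite G]

private theorem lk_fx {p : ℕ} (φ : (G ⧸ Fit G) →* MulAut (Op p G))
    (hφ : ∀ g : G, ∃ y : Op p G, ∀ x z : Op p G,
      (z : G) = g * x * g⁻¹ → z = y * φ (g : G ⧸ Fit G) x * y⁻¹) (χ : Op p G → ℂ)
    (hχ : χ ∈ Irr (Op p G)) : fxH (Fit G) (Op p G) (op_nor p) χ = fxS φ χ := by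
  have key : ∀ (g : G) (x z : Op p G), (z : G) = g * x * g⁻¹ →
      χ z = χ (φ (g : G ⧸ Fit G) x) := by
    intro g x z hz
    obtain ⟨y, hy⟩ := hφ g
    rw [hy x z hz]
    have := Fintype.ofFinite (Op p G)
    exact irr_conj hχ (isConj_iff.2 ⟨y⁻¹, by group⟩)
  ext z
  constructor
  · rintro ⟨g, hg, rfl⟩ x
    obtain ⟨z, hz⟩ : ∃ z : Op p G, (z : G) = g * x * g⁻¹ :=
      ⟨⟨_, (op_nor (G := G) p).conj_mem (x : G) x.2 g⟩, rfl⟩
    exact (key g x z hz).symm.trans (hg x z hz)
  · intro h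
    obtain ⟨g, rfl⟩ := QuotientGroup.mk_surjective z
    exact ⟨g, fun x z hz => (key g x z hz).trans (h x), rfl⟩

/-- The local theorem for a prime in `tau`. PROOF. As `gblk_tau2` of Nfv/Mn.lean. -/
theorem loc3 (p : ℕ) [hp : Fact p.Prime] (hs : Group.IsSolvable G) (E : PD G p)
    (hτ : Tau G p) (h3p : 3 ≤ p) {A : Subgroup (G ⧸ Fit G)} (hA : Ab A) (B : Set ℕ)
    (hB : ∀ r ∈ B, AR A r) (hB3 : ∀ r ∈ B, 3 ≤ r) (Ale : ∀ i, A ≤ (E.F i).A)
    (bt : ∀ r ∈ B, ∀ i, (E.F i).Bt r)
    (triv : ∀ r ∈ B, ∀ i, (∀ c ∈ cm A r, ∀ x, (E.F i).ρ c x = x) →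
      ∀ R : Sylow r (G ⧸ Fit G), ∀ y ∈ (R : Subgroup (G ⧸ Fit G)), ∀ x, (E.F i).ρ y x = x) :
    ∃ (Th : (G ⧸ Fit G) → (∀ i, (E.F i).X) → Op p G → ℂ) (S0 : Subgroup (G ⧸ Fit G))
      (I : Set (Fin E.n)), Hi (fxH (Fit G) (Op p G) (op_nor p)) E.F Th S0 I ∧
        ((∀ k T, ∃ d : ℕ, Th k T 1 = d ∧ p ∣ d) ∨
          (S0 = ⊤ ∧ I = ∅ ∧ Nonempty (LoD (fxH (Fit G) (Op p G) (op_nor p)) A B E.F))) := by
  have hp' : p.Prime := hp.out
  obtain ⟨φ, hφ⟩ := act p hp' hτ.1
  have hne : commutator (Op p G) ≠ ⊥ := by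
    intro h
    apply hτ.2
    intro x hx y hy
    have h1 := Subgroup.commutator_mem_commutator (H₁ := (⊤ : Subgroup (Op p G))) (H₂ := ⊤)
      (Subgroup.mem_top (⟨x, hx⟩ : Op p G)) (Subgroup.mem_top (⟨y, hy⟩ : Op p G))
    rw [← commutator_def, h, Subgroup.mem_bot, commutatorElement_eq_one_iff_mul_comm] at h1
    exact congrArg Subtype.val h1
  have hcard : ¬ p ∣ Nat.card (G ⧸ Fit G) := hτ.1
  have hs' : Group.IsSolvable (G ⧸ Fit G) := inferInstance
  have hq1 : E.q 1 = 0 := by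
    have h1 := E.q_mul 1 1
    rw [mul_one] at h1
    exact (left_eq_add.1 h1)
  have hqi : ∀ y : Op p G, E.q y + E.q y⁻¹ = 0 := by
    intro y
    rw [← E.q_mul, mul_inv_cancel, hq1]
  have hqe : ∀ h x, E.q (φ h x) = E.ρV h (E.q x) := by
    intro h x
    obtain ⟨g, rfl⟩ := QuotientGroup.mk_surjective h
    obtain ⟨y, hy⟩ := hφ g
    obtain ⟨z, hz⟩ : ∃ z : Op p G, (z : G) = g * x * g⁻¹ :=
      ⟨⟨_, (op_nor (G := G) p).conj_mem (x : G) x.2 g⟩, rfl⟩
    have h1 := E.q_eq g x z hz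
    have h2 := hy x z hz
    rw [← h1, h2, E.q_mul, E.q_mul, add_right_comm, hqi, zero_add]
  refine loc3_inf (MonoidHom.id (Op p G)) Function.surjective_id
    (fxH (Fit G) (Op p G) (op_nor p)) (fxS φ) (fun χ hχ => lk_fx φ hφ χ hχ) ?_
  exact loc_main3 p h3p (op_pgr p) hcard hs' φ hne E.ρV E.q E.q_mul E.q_surj E.q_ker hqe E.F E.em
      E.inj E.eqv E.ind (E.sup hcard) hA B hB hB3 Ale bt triv

end

end Pool.Agent.R12
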