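import Pool.Agent.R12.Ld
import Pool.Agent.Nfv.Gn
import Pool.Agent.Nfv.Mn

/-! The local machine: modules with one block. -/

set_option autoImplicit false

namespace Pool.Agent.R12

open Classical
open Pool.Agent.Nan Pool.Agent.Nas
open Pool.Agent.Nfv (PD)
open Pool.Agent.KB

section
variable {p : ℕ} {H : Type} [Group H]

/-- The stabilizer of a vector. -/
def stv {X : Type} [AddCommGroup X] [Module (ZMod p) X] (ρ : Representation (ZMod p) H X)
    (x : X) : Subgroup H where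
  carrier := {h | ρ h x = x}
  one_mem' := by
    show ρ 1 x = x
    rw [map_one, Module.End.one_apply]
  mul_mem' := by
    intro a b ha hb
    show ρ (a * b) x = x
    have h1 : ρ b x = x := hb
    have h2 : ρ a x = x := ha
    rw [map_mul, Module.End.mul_apply, h1, h2]
  inv_mem' := by
    intro a ha
    show ρ a⁻¹ x = x
    have h2 : ρ a x = x := ha
    calc ρ a⁻¹ x = ρ a⁻¹ (ρ a x) := by rw [h2]
      _ = x := by
        rw [← Module.End.mul_apply, ← map_mul, inv_mul_cancel, map_one, Module.End.one_apply]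

theorem mem_stv {X : Type} [AddCommGroup X] [Module (ZMod p) X]
    (ρ : Representation (ZMod p) H X) (x : X) (h : H) : h ∈ stv ρ x ↔ ρ h x = x := Iff.rfl

end

section
variable {H : Type} [Group H] [Finite H]

-- BEGIN mf
/-- (mf, size 2) One block: primes which are not of type `B` are moved. -/
theorem high_one {p : ℕ} [Fact p.Prime] (F : Fam p H) (hJ : Subsingleton F.J)
    (hab : Abq F.ρ F.W F.UU) (r : ℕ) (hr : r.Prime) (hB : ¬ F.Bt r) (S0 : Subgroup H)
    (hz : ∃ z : F.X, z ≠ 0 ∧ ∀ h ∈ S0, F.ρ h z = z) (k : H) (R : Sylow r H) :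
    ¬ ∀ x ∈ (R : Subgroup H), k⁻¹ * x * k ∈ S0 := by
  intro hR
  obtain ⟨z, hz0, hz⟩ := hz
  haveI : Fact r.Prime := ⟨hr⟩
  obtain ⟨x, hx, _, hx2⟩ := Pool.Agent.Nfv.gen_one F.bs hab r hr hB (k⁻¹ • R)
  have h1 : k * x * k⁻¹ ∈ (R : Subgroup H) := by
    have h2 : x ∈ ((k⁻¹ • R : Sylow r H) : Subgroup H) := hx
    rw [Sylow.coe_subgroup_smul, Subgroup.mem_pointwise_smul_iff_inv_smul_mem] at h2
    rw [MulAut.smul_def, ← map_inv, inv_inv, MulAut.conj_apply] at h2
    exact h2
  have h3 := hR _ h1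
  have h4 : k⁻¹ * (k * x * k⁻¹) * k = x := by group
  rw [h4] at h3
  exact hz0 (hx2 z (hz x h3))
-- END mf

-- BEGIN mg
/-- (mg, size 3) One block: a vector for `Cho.full`. -/
theorem cho_one {p : ℕ} [Fact p.Prime] (hpH : ¬ p ∣ Nat.card H) {A : Subgroup H} (hA : Ab A)
    (B : Set ℕ) (hB : ∀ r ∈ B, AR A r) (F : Fam p H) (hJ : Subsingleton F.J) (Ale : A ≤ F.A)
    (triv : ∀ r ∈ B, (∀ c ∈ cm A r, ∀ x, F.ρ c x = x) →
      ∀ R : Sylow r H, ∀ y ∈ (R : Subgroup H), ∀ x, F.ρ y x = x)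
    (hnt : ∃ r ∈ B, ¬ ∀ R : Sylow r H, ∀ y ∈ (R : Subgroup H), ∀ x, F.ρ y x = x) :
    ∃ x : F.X, x ≠ 0 ∧ ∀ r ∈ B, ∀ (R : Sylow r H), (∀ y ∈ (R : Subgroup H), F.ρ y x = x) →
      (∀ R' : Sylow r H, ∀ y ∈ (R' : Subgroup H), ∀ z, F.ρ y z = z) ∨ Full F.ρ (cm A r) := by
  classical
  have hAU : ∀ j, A ≤ F.UU j := fun j a ha => (Subgroup.mem_iInf.1 (Ale ha)) j
  obtain ⟨r₀, hr₀, hnt⟩ := hnt
  have hone : ∀ j, F.W j = ⊤ := by
    intro j
    rw [eq_top_iff, ← F.bs.sup]
    exact iSup_le fun j' => by rw [Subsingleton.elim j' j]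
  obtain ⟨Rr, hRr⟩ := cmpl hA ((Nat.card H).primeFactors.filter fun r => r ∈ B)
    (fun r hr => hB r (Finset.mem_filter.1 hr).2)
  obtain ⟨x₀, hx1, hx2⟩ := tlem (ρ := F.ρ) (A := A) (C := A)
    (S := (Nat.card H).primeFactors.filter fun r => r ∈ B) (R := fun r => (Rr r : Subgroup H))
    { ab := hA
      pH := hpH
      irr := F.irr
      prime := fun r hr => (hB r (Finset.mem_filter.1 hr).2).prime
      ndvd := fun r hr => (hB r (Finset.mem_filter.1 hr).2).ndvd
      pgr := fun r _ => (Rr r).isPGroup'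
      com := hRr
      Cn := hA.nor
      CA := le_rfl
      AC := fun r _ => by
        haveI := hA.nor
        exact Subgroup.commutator_le_left _ _
      fpf := by
        intro c hc x hx hcx y
        rcases isEmpty_or_nonempty F.J with hJe | ⟨⟨j⟩⟩
        · exfalso
          apply hx
          have h1 : x ∈ (⊤ : Submodule (ZMod p) F.X) := Submodule.mem_top
          rw [← F.bs.sup, iSup_of_empty, Submodule.mem_bot] at h1
          exact h1
        · exact bs_fpf F.bs j c (hAU j hc) x (by rw [hone j]; exact Submodule.mem_top) hx hcx y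
            (by rw [hone j]; exact Submodule.mem_top) }
  have hx0 : x₀ ≠ 0 := by
    rintro rfl
    apply hnt
    refine triv r₀ hr₀ fun c hc x => hx1 c (cm_le hA r₀ hc) ?_ x
    exact map_zero _
  refine ⟨x₀, hx0, ?_⟩
  intro r hr R hfix
  have hAR : AR A r := hB r hr
  by_cases hd : r ∣ Nat.card H
  · have hrS : r ∈ ((Nat.card H).primeFactors.filter fun r => r ∈ B) :=
      Finset.mem_filter.2 ⟨Nat.mem_primeFactors.2 ⟨hAR.prime, hd, Nat.card_pos.ne'⟩, hr⟩
    obtain ⟨a, ha, haR⟩ := ar_conj hA hAR (Rr r) R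
    rcases hx2 r hrS ⟨a, ha, fun s hs' => hfix _ ((haR _).2 (by
      have h1 : a⁻¹ * (a * s * a⁻¹) * a = s := by group
      rw [h1]
      exact hs'))⟩ with h1 | h1
    · left
      intro R' x hx y
      obtain ⟨b, hb, hbR⟩ := ar_conj hA hAR (Rr r) R'
      have h2 := h1 _ ((hbR x).1 hx) (F.ρ b⁻¹ y)
      have h3 : x = b * (b⁻¹ * x * b) * b⁻¹ := by group
      rw [h3, map_mul, map_mul, Module.End.mul_apply, Module.End.mul_apply, h2,
        ← Module.End.mul_apply, ← map_mul, mul_inv_cancel, map_one, Module.End.one_apply]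
    · right
      rw [ar_cm hA hAR (Rr r)]
      exact h1
  · left
    intro R' x hx y
    have h1 : x = 1 := by
      haveI := Fact.mk hAR.prime
      obtain ⟨k, hk⟩ := (IsPGroup.iff_orderOf.1 R'.isPGroup') ⟨x, hx⟩
      rw [Subgroup.orderOf_mk] at hk
      rcases Nat.eq_zero_or_pos k with h2 | h2
      · rw [h2, pow_zero] at hk
        exact orderOf_eq_one_iff.1 hk
      · exfalso
        apply hd
        refine dvd_trans ?_ (orderOf_dvd_natCard x)
        rw [hk]
        exact dvd_pow_self r h2.ne'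
    rw [h1, map_one, Module.End.one_apply]
-- END mg

end

end Pool.Agent.R12
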