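import Pool.Agent.R12.Df
import Pool.Agent.R12.Lm
import Pool.Agent.R12.Lk

/-! The bridge from the local data of a prime to the interface of the assembly. -/

set_option autoImplicit false

namespace Pool.Agent.R12

open Classical
open Pool.Agent.Nan Pool.Agent.Nas Pool.Agent.Nfv
open Pool.Agent.KB Pool.Agent.KB.ContrAux Pool.Agent.KBL Pool.Agent.KBZ Pool.Agent.KBU
  Pool.Agent.KBQ Pool.Agent.KBY

private theorem br_top {G : Type} [Group G] (F : Subgroup G) [F.Normal] (P : Subgroup G)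
    (hP : P.Normal) (x : G ⧸ F) : x ∈ fxH F P hP (fun _ => 1) := by
  obtain ⟨g, rfl⟩ := QuotientGroup.mk'_surjective F x
  exact ⟨g, fun _ _ _ => rfl, rfl⟩

private theorem br_one (P : Type) [Group P] : (fun _ : P => (1 : ℂ)) ∈ Irr P := by
  refine ⟨1, (1 : P →* ((Fin 1 → ℂ) →ₗ[ℂ] (Fin 1 → ℂ))), ?_, ?_⟩
  · have h1 : IsSimpleOrder (Submodule ℂ (Fin 1 → ℂ)) := by
      have h2 : IsSimpleModule ℂ (Fin 1 → ℂ) := by
        rw [isSimpleModule_iff_finrank_eq_one]
        simp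
      exact (isSimpleModule_iff ℂ (Fin 1 → ℂ)).1 h2
    refine { exists_pair_ne := ⟨⊥, ⊤, fun h => ?_⟩, eq_bot_or_eq_top := fun S => ?_ }
    · have h2 := congrArg Subrepresentation.toSubmodule h
      exact bot_ne_top h2
    · rcases h1.eq_bot_or_eq_top S.toSubmodule with h2 | h2
      · left
        exact Subrepresentation.toSubmodule_injective h2
      · right
        exact Subrepresentation.toSubmodule_injective h2
  · funext g
    show LinearMap.trace ℂ (Fin 1 → ℂ) (1 : (Fin 1 → ℂ) →ₗ[ℂ] (Fin 1 → ℂ)) = 1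
    rw [LinearMap.trace_one]
    simp

section
variable {p : ℕ} {H : Type} [Group H]

private theorem br_ne (F : Fam p H) : Nonempty F.J := by
  by_contra hc
  rw [not_nonempty_iff] at hc
  have h1 := F.bs.sup
  rw [iSup_of_empty] at h1
  exact bot_ne_top h1

private theorem br_W (F : Fam p H) (hJ : Subsingleton F.J) (b : F.J) : F.W b = ⊤ := by
  rw [← F.bs.sup]
  refine le_antisymm (le_iSup _ b) (iSup_le fun b' => ?_)
  rw [Subsingleton.elim b' b]

/-- A normal subgroup which fixes a nonzero vector is trivial on the module. -/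
private theorem br_nor (F : Fam p H) (D : Subgroup H) (hD : D.Normal) (w : F.X) (hw : w ≠ 0)
    (hf : ∀ d ∈ D, F.ρ d w = w) : ∀ d ∈ D, ∀ x, F.ρ d x = x := by
  set Y : Submodule (ZMod p) F.X := ⨅ d : D, LinearMap.eqLocus (F.ρ (d : H)) LinearMap.id with hY
  have hm : ∀ x, x ∈ Y ↔ ∀ d ∈ D, F.ρ d x = x := by
    intro x
    rw [hY, Submodule.mem_iInf]
    constructor
    · intro h d hd
      have h1 := h ⟨d, hd⟩
      rw [LinearMap.mem_eqLocus] at h1
      exact h1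
    · intro h d
      rw [LinearMap.mem_eqLocus]
      exact h d d.2
  rcases F.irr Y (fun n _ x hx => by
    rw [hm] at hx ⊢
    intro d hd
    have h1 : n⁻¹ * d * n ∈ D := by
      have := hD.conj_mem d hd n⁻¹
      rwa [inv_inv] at this
    calc F.ρ d (F.ρ n x) = F.ρ (d * n) x := by rw [map_mul, Module.End.mul_apply]
      _ = F.ρ (n * (n⁻¹ * d * n)) x := by
        congr 2
        group
      _ = F.ρ n (F.ρ (n⁻¹ * d * n) x) := by rw [map_mul, Module.End.mul_apply]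
      _ = F.ρ n x := by rw [hx _ h1]) with h1 | h1
  · exfalso
    apply hw
    have h2 : w ∈ Y := (hm w).2 hf
    rw [h1] at h2
    exact (Submodule.mem_bot _).1 h2
  · intro d hd x
    have h2 : x ∈ Y := by
      rw [h1]
      exact Submodule.mem_top
    exact (hm x).1 h2 d hd

end

section
variable {G : Type} [Group G] [Finite G]

/-- The case in which the degrees of the high characters are divisible by `p`. -/
theorem br_y (p : ℕ) [Fact p.Prime] (E : PD G p) (hτ : Tau G p) {A : Subgroup (G ⧸ Fit G)}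
    (B : Set ℕ)
    (Cv : Fin E.n → Set ℕ) (hCv : ∀ j, ∀ r ∈ Cv j, r.Prime ∧ ¬ (E.F j).Bt r)
    (Δ : ∀ j, Finset (E.F j).J) (v : ∀ j, (E.F j).J → (E.F j).X)
    (hg : ∀ j, Gd (E.F j) (Cv j) (Δ j) (v j))
    (Th : (G ⧸ Fit G) → (∀ i, (E.F i).X) → Op p G → ℂ) (S0 : Subgroup (G ⧸ Fit G))
    (I : Set (Fin E.n)) (hH : Hi (fxH (Fit G) (Op p G) (op_nor p)) E.F Th S0 I)
    (hd : ∀ k T, ∃ d : ℕ, Th k T 1 = d ∧ p ∣ d) : Nonempty (TB G A B p E Cv Δ v) := by
  obtain ⟨n, ⟨e⟩⟩ : ∃ n : ℕ,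
      Nonempty (Option (Σ i : Fin E.n, {j : (E.F i).J // j ∈ Δ i}) ≃ Fin n) :=
    ⟨_, ⟨Finite.equivFin _⟩⟩
  obtain ⟨κ, hκ⟩ : ∃ κ : (Fin n → G ⧸ Fit G) → ∀ i : Fin E.n, (E.F i).J → G ⧸ Fit G,
      ∀ k i j, κ k i j = if h : j ∈ Δ i then k (e (some ⟨i, ⟨j, h⟩⟩)) else 1 :=
    ⟨_, fun _ _ _ => rfl⟩
  obtain ⟨St, hSt⟩ : ∃ St : Option (Σ i : Fin E.n, {j : (E.F i).J // j ∈ Δ i}) →
      Subgroup (G ⧸ Fit G), St none = S0 ∧ ∀ a : (Σ i : Fin E.n, {j : (E.F i).J // j ∈ Δ i}),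
        St (some a) = if a.1 ∈ I then ⊤ else stv (E.F a.1).ρ (v a.1 a.2) :=
    ⟨fun a => match a with
      | none => S0
      | some a => if a.1 ∈ I then ⊤ else stv (E.F a.1).ρ (v a.1 a.2), rfl, fun _ => rfl⟩
  have hK : ∀ k z : G ⧸ Fit G, z ∈ S0.comap (MulAut.conj k⁻¹).toMonoidHom ↔ k⁻¹ * z * k ∈ S0 := by
    intro k z
    rw [Subgroup.mem_comap]
    show k⁻¹ * z * (k⁻¹)⁻¹ ∈ S0 ↔ _
    rw [inv_inv]
  have htr : ∀ (z : G ⧸ Fit G) (x : ZMod p),
      (1 : Representation (ZMod p) (G ⧸ Fit G) (ZMod p)) z x = x := fun _ _ => rfl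
  have hmap : ∀ z : G ⧸ Fit G, (⊤ : Submodule (ZMod p) (ZMod p)).map
      ((1 : Representation (ZMod p) (G ⧸ Fit G) (ZMod p)) z) = ⊤ := by
    intro z
    show (⊤ : Submodule (ZMod p) (ZMod p)).map (1 : ZMod p →ₗ[ZMod p] ZMod p) = ⊤
    exact Submodule.map_id _
  refine ⟨{
    X := ZMod p
    ρ := 1
    Y := ⊤
    Yne := bot_ne_top.symm
    Ybl := fun h _ _ _ _ => hmap h
    YA := fun a _ => hmap a
    Yc := fun h _ => hmap h
    s := fun _ _ => 1
    s_irr := fun _ _ _ => br_one _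
    s_fx := fun l _ _ z _ => htr z l
    s_one := fun _ _ => rfl
    s3 := fun l _ _ P Q _ _ x _ => br_top _ _ _ x
    n := n
    St := fun a => St (e.symm a)
    blk := ?_
    κ := κ
    κA := ?_
    I := Finset.univ.filter (· ∈ I)
    one := fun j hj => hH.one j (Finset.mem_filter.1 hj).2
    K := fun k => S0.comap (MulAut.conj (k (e none))⁻¹).toMonoidHom
    K_lin := fun h => absurd hτ h
    K_cv := ?_
    K_D := ?_
    Θ := fun k T => Th (k (e none)) T
    Θ_irr := fun k _ T => hH.irr _ _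
    Θ_fx := ?_
    st := ?_
    dv := fun _ => Or.inr fun k _ T => hd _ T
    s2 := fun l _ _ z _ _ k _ => br_top _ _ _ _ }⟩
  · -- blk
    intro l _ _
    refine ⟨fun a _ _ => br_top _ _ _ a, ?_⟩
    rintro r hr ⟨q, hq, hqp, D, hD, hDc, hDq, hD'⟩ ⟨-, -, h3, -⟩
    obtain ⟨i, d, hdD, x, hx⟩ := E.det q hq hqp D hD hDq hD'
    apply hx
    by_cases hi : i ∈ I
    · obtain ⟨w, hw, hwf⟩ := hH.zf i hi
      refine br_nor (E.F i) D hD w hw (fun d hd => hwf d ?_) d hdD x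
      have h5 := h3 d (hDc hd) (br_top _ _ _ d) (e none)
      rw [Equiv.symm_apply_apply, hSt.1] at h5
      exact h5
    · obtain ⟨b, hb⟩ := (hg i).ne
      refine br_nor (E.F i) D hD (v i b) ((hg i).vW b).2 (fun d hd => ?_) d hdD x
      have h5 := h3 d (hDc hd) (br_top _ _ _ d) (e (some ⟨i, ⟨b, hb⟩⟩))
      rw [Equiv.symm_apply_apply, hSt.2, if_neg hi] at h5
      exact h5
  · -- κA
    intro k hk j b
    rw [hκ]
    split_ifs
    · exact hk _
    · exact one_mem A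
  · -- K_cv
    intro k _ j hj r hr R hR
    have hj' := (Finset.mem_filter.1 hj).2
    have h1 := hH.one j hj'
    exact high_one (E.F j) h1.1 h1.2 r (hCv j r hr).1 (hCv j r hr).2 S0 (hH.zf j hj') (k (e none)) R
      fun x hx => (hK _ _).1 (hR hx)
  · -- K_D
    intro k _ D hD hDK j hj d hd x
    obtain ⟨w, hw, hwf⟩ := hH.zf j (Finset.mem_filter.1 hj).2
    refine br_nor (E.F j) D hD w hw (fun d hd => hwf d ?_) d hd x
    have h1 := (hK _ _).1 (hDK (hD.conj_mem d hd (k (e none))))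
    have h2 : (k (e none))⁻¹ * (k (e none) * d * (k (e none))⁻¹) * k (e none) = d := by group
    rwa [h2] at h1
  · -- Θ_fx
    intro k _ T z
    rw [hK, hH.fix]
    simp
  · -- st
    intro k hk r hr R hRK hRf x hx a
    obtain ⟨a, rfl⟩ := e.surjective a
    rw [Equiv.symm_apply_apply]
    rcases a with _ | ⟨i, b, hb⟩
    · rw [hSt.1]
      exact (hK _ _).1 (hRK hx)
    · rw [hSt.2]
      dsimp only
      split_ifs with hi
      · exact Subgroup.mem_top _
      · rw [mem_stv]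
        have h1 := hRf x hx i (by simpa using hi) b hb
        rw [hκ, dif_pos hb] at h1
        rw [map_mul, map_mul, Module.End.mul_apply, Module.End.mul_apply, h1,
          ← Module.End.mul_apply, ← map_mul, inv_mul_cancel, map_one]
        rfl

/-- The case of the low characters `s l`. -/
theorem br_x (p : ℕ) [Fact p.Prime] (E : PD G p) (hτ : Tau G p) {A : Subgroup (G ⧸ Fit G)}
    (B : Set ℕ) (Cv : Fin E.n → Set ℕ)
    (Δ : ∀ j, Finset (E.F j).J) (v : ∀ j, (E.F j).J → (E.F j).X)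
    (hcho : Cho A B E.F Δ v)
    (Th : (G ⧸ Fit G) → (∀ i, (E.F i).X) → Op p G → ℂ)
    (hH : Hi (fxH (Fit G) (Op p G) (op_nor p)) E.F Th ⊤ ∅)
    (L : LoD (fxH (Fit G) (Op p G) (op_nor p)) A B E.F) (h0 : L.j₀ ∈ Δ L.i₀)
    (h1 : L.j₁ ∈ Δ L.i₁) : Nonempty (TB G A B p E Cv Δ v) := by
  obtain ⟨n, ⟨e⟩⟩ : ∃ n : ℕ, Nonempty ((Σ i : Fin E.n, {j : (E.F i).J // j ∈ Δ i}) ≃ Fin n) :=
    ⟨_, ⟨Finite.equivFin _⟩⟩
  obtain ⟨κ, hκ⟩ : ∃ κ : (Fin n → G ⧸ Fit G) → ∀ i : Fin E.n, (E.F i).J → G ⧸ Fit G,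
      ∀ k i j, κ k i j = if h : j ∈ Δ i then k (e ⟨i, ⟨j, h⟩⟩) else 1 :=
    ⟨_, fun _ _ _ => rfl⟩
  refine ⟨{
    X := L.Y
    ρ := L.ρ
    Y := L.E
    Yne := L.ne
    Ybl := L.bl
    YA := L.bA
    Yc := L.bC
    s := L.s
    s_irr := L.irr
    s_fx := L.fix
    s_one := fun h => absurd hτ h
    s3 := ?_
    n := n
    St := fun a => stv (E.F (e.symm a).1).ρ (v (e.symm a).1 (e.symm a).2)
    blk := ?_
    κ := κ
    κA := ?_
    I := ∅
    one := fun j hj => absurd hj (Finset.notMem_empty j)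
    K := fun _ => ⊤
    K_lin := fun h => absurd hτ h
    K_cv := fun k _ j hj => absurd hj (Finset.notMem_empty j)
    K_D := fun k _ D _ _ j hj => absurd hj (Finset.notMem_empty j)
    Θ := fun _ T => Th 1 T
    Θ_irr := fun _ _ T => hH.irr _ _
    Θ_fx := ?_
    st := ?_
    dv := fun _ => Or.inl L.deg
    s2 := L.tw }⟩
  · -- s3
    intro l hl hl0 P Q hP hQ x hx
    have hPl : (P : Subgroup (G ⧸ Fit G)) ≤ stv L.ρ l := fun y hy => L.fix l hl hl0 y (hP hy)
    have hQl : (Q : Subgroup (G ⧸ Fit G)) ≤ stv L.ρ l := fun y hy => hQ y hy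
    obtain ⟨c, hc⟩ := MulAction.exists_smul_eq (stv L.ρ l) (P.subtype hPl) (Q.subtype hQl)
    have hx1 : (⟨x, hQl hx⟩ : stv L.ρ l) ∈
        ((Q.subtype hQl : Sylow 3 (stv L.ρ l)) : Subgroup (stv L.ρ l)) := by
      rw [Sylow.coe_subtype, Subgroup.mem_subgroupOf]
      exact hx
    rw [← hc, Sylow.coe_subgroup_smul, Subgroup.mem_pointwise_smul_iff_inv_smul_mem, ← map_inv,
      MulAut.smul_def, MulAut.conj_apply, inv_inv, Sylow.coe_subtype, Subgroup.mem_subgroupOf,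
      Subgroup.coe_mul, Subgroup.coe_mul, Subgroup.coe_inv] at hx1
    have h2 := L.th l hl hl0 3 Nat.prime_three le_rfl P hP _ hx1 (c : G ⧸ Fit G) c.2
    have h3 : (c : G ⧸ Fit G) * ((c : G ⧸ Fit G)⁻¹ * x * (c : G ⧸ Fit G)) * (c : G ⧸ Fit G)⁻¹ = x := by
      group
    rwa [h3] at h2
  · -- blk
    intro l hl hl0
    refine ⟨fun a ha hSt => ?_, ?_⟩
    · refine L.b1 Δ v hcho h0 h1 l hl hl0 a ha fun i b hb => ?_
      have h2 := hSt (e ⟨i, ⟨b, hb⟩⟩)
      rw [Equiv.symm_apply_apply] at h2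
      exact h2
    · rintro r hr ⟨q, hq, hqp, D, hD, hDc, hDq, hD'⟩ ⟨g1, g2, g3, g4⟩
      obtain ⟨i, d, hdD, x, hx⟩ := E.det q hq hqp D hD hDq hD'
      refine L.c Δ v hcho h0 h1 l hl hl0 r hr ⟨d, hDc hdD, i, x, hx⟩ ⟨g1, ?_, ?_, ?_⟩
      · intro i b hb
        obtain ⟨R, hR⟩ := g2 (e ⟨i, ⟨b, hb⟩⟩)
        refine ⟨R, fun y hy => ?_⟩
        have h2 := hR hy
        rw [Equiv.symm_apply_apply] at h2
        exact h2
      · intro c hc hcs i b hb
        have h2 := g3 c hc hcs (e ⟨i, ⟨b, hb⟩⟩)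
        rw [Equiv.symm_apply_apply] at h2
        exact h2
      · intro y hy
        obtain ⟨z, hz, hz1⟩ := g4 (fun a => y (e.symm a).1 (e.symm a).2) (fun a => hy _ _)
        refine ⟨z, hz, fun i b hb => ?_⟩
        have h2 : ∀ a, e.symm (e ⟨i, ⟨b, hb⟩⟩) = a →
            (y a.1 a.2)⁻¹ * z ∈ stv (E.F a.1).ρ (v a.1 a.2) := by
          rintro a rfl
          exact hz1 (e ⟨i, ⟨b, hb⟩⟩)
        exact h2 ⟨i, ⟨b, hb⟩⟩ (Equiv.symm_apply_apply _ _)
  · -- κA
    intro k hk j b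
    rw [hκ]
    split_ifs
    · exact hk _
    · exact one_mem A
  · -- Θ_fx
    intro k _ T z
    rw [hH.fix]
    simp
  · -- st
    intro k hk r hr R hRK hRf x hx a
    obtain ⟨⟨i, b, hb⟩, rfl⟩ := e.surjective a
    rw [Equiv.symm_apply_apply, mem_stv]
    have h1 := hRf x hx i (Finset.notMem_empty i) b hb
    rw [hκ, dif_pos hb] at h1
    rw [map_mul, map_mul, Module.End.mul_apply, Module.End.mul_apply, h1,
      ← Module.End.mul_apply, ← map_mul, inv_mul_cancel, map_one]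
    rfl

/-- The local theorem in the form of the assembly. -/
theorem tbst : TBst G := by
  intro p hp hs E hτ h3p A hA B hB hB3 Ale bt triv Cv hCv Pd hgen
  have hpG : ¬ p ∣ Nat.card (G ⧸ Fit G) := hτ.1
  obtain ⟨Th, S0, I, hH, hcase⟩ := loc3 p hs E hτ h3p hA B hB hB3 Ale bt triv
  rcases hcase with hd | ⟨hS0, hI, ⟨L⟩⟩
  · -- the high characters
    have hgen' : ∀ j, ∃ Δ v, Pd j Δ v ∧ Gd (E.F j) (Cv j) Δ v := by
      intro j
      obtain ⟨b⟩ := br_ne (E.F j)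
      obtain ⟨Δ, v, -, -, h1, h2⟩ := hgen j b b
      exact ⟨Δ, v, h1, h2⟩
    choose Δ v hP hG using hgen'
    exact ⟨Δ, v, hG, fun j _ => hP j, br_y p E hτ B Cv hCv Δ v hG Th S0 I hH hd⟩
  · -- the low characters
    subst hS0 hI
    have key : ∀ j, ∃ (Δ : Finset (E.F j).J) (v : (E.F j).J → (E.F j).X),
        Gd (E.F j) (Cv j) Δ v ∧ (Nontrivial (E.F j).J → Pd j Δ v) ∧
        (∀ h : L.i₀ = j, h ▸ L.j₀ ∈ Δ) ∧ (∀ h : L.i₁ = j, h ▸ L.j₁ ∈ Δ) ∧
        (Subsingleton (E.F j).J → ∀ r ∈ B, ∀ (R : Sylow r (G ⧸ Fit G)) (b : (E.F j).J),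
          (∀ x ∈ (R : Subgroup (G ⧸ Fit G)), (E.F j).ρ x (v b) = v b) →
            (∀ R' : Sylow r (G ⧸ Fit G), ∀ x ∈ (R' : Subgroup (G ⧸ Fit G)), ∀ y,
              (E.F j).ρ x y = y) ∨ Full (E.F j).ρ (cm A r)) := by
      intro j
      obtain ⟨b0, hb0⟩ : ∃ b0 : (E.F j).J, ∀ h : L.i₀ = j, h ▸ L.j₀ = b0 := by
        by_cases h : L.i₀ = j
        · exact ⟨h ▸ L.j₀, fun _ => rfl⟩
        · obtain ⟨b⟩ := br_ne (E.F j)
          exact ⟨b, fun h' => absurd h' h⟩
      obtain ⟨b1, hb1⟩ : ∃ b1 : (E.F j).J, ∀ h : L.i₁ = j, h ▸ L.j₁ = b1 := by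
        by_cases h : L.i₁ = j
        · exact ⟨h ▸ L.j₁, fun _ => rfl⟩
        · obtain ⟨b⟩ := br_ne (E.F j)
          exact ⟨b, fun h' => absurd h' h⟩
      obtain ⟨Δ, v, hm0, hm1, hP, hG⟩ := hgen j b0 b1
      by_cases hone : Subsingleton (E.F j).J ∧ ∃ r ∈ B, ¬ ∀ R : Sylow r (G ⧸ Fit G),
          ∀ y ∈ (R : Subgroup (G ⧸ Fit G)), ∀ x, (E.F j).ρ y x = x
      · obtain ⟨hJ, hnt⟩ := hone
        obtain ⟨w, hw0, hw⟩ := cho_one hpG hA B hB (E.F j) hJ (Ale j) (fun r hr => triv r hr j) hnt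
        have hab : Abq (E.F j).ρ (E.F j).W (E.F j).UU := by
          obtain ⟨r, hr, hr1⟩ := hnt
          rcases bt r hr j with h2 | ⟨-, h2, -⟩
          · exact absurd h2 hr1
          · exact h2
        refine ⟨Δ, fun _ => w, ⟨hG.ne, hG.two, fun b => ⟨?_, hw0⟩, ?_⟩, ?_, ?_, ?_, ?_⟩
        · rw [br_W (E.F j) hJ b]
          exact Submodule.mem_top
        · intro k hk r hr R hR
          obtain ⟨x, hx, -, hx1⟩ := gen_one (E.F j).bs hab r (hCv j r hr).1 (hCv j r hr).2 R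
          have h2 := hx1 _ (hR x hx)
          obtain ⟨b, hb⟩ := hG.ne
          have h3 : Δ = {b} := by
            ext b'
            rw [Finset.mem_singleton, Subsingleton.elim b' b]
            exact ⟨fun _ => rfl, fun _ => hb⟩
          rw [h3, Finset.sum_singleton] at h2
          apply hw0
          have h4 : (E.F j).ρ (k b)⁻¹ ((E.F j).ρ (k b) w) = w := by
            rw [← Module.End.mul_apply, ← map_mul, inv_mul_cancel, map_one, Module.End.one_apply]
          rw [h2, map_zero] at h4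
          exact h4.symm
        · intro hn
          exact absurd hJ (not_subsingleton_iff_nontrivial.2 hn)
        · intro h
          rw [hb0 h]
          exact hm0
        · intro h
          rw [hb1 h]
          exact hm1
        · intro _ r hr R b hb
          exact hw r hr R hb
      · refine ⟨Δ, v, hG, fun _ => hP, ?_, ?_, ?_⟩
        · intro h
          rw [hb0 h]
          exact hm0
        · intro h
          rw [hb1 h]
          exact hm1
        · intro hJ r hr R b hb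
          left
          by_contra hcon
          exact hone ⟨hJ, r, hr, hcon⟩
    choose Δ v hG hP h0 h1 hfull using key
    exact ⟨Δ, v, hG, hP, br_x p E hτ B Cv Δ v
      ⟨fun i => (hG i).ne, fun i => (hG i).two, fun i j => ((hG i).vW j).1,
        fun i j => ((hG i).vW j).2, fun i hJ r hr R j hj => hfull i hJ r hr R j hj⟩
      Th hH L (h0 _ rfl) (h1 _ rfl)⟩

end

end Pool.Agent.R12
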