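import Pool.Agent.Nan.Mn

/-! Clifford theory with degrees: the theorem of Gallagher, characters over an extendible character
of a normal subgroup, split abelian normal subgroups, the theorem of Ito. -/

set_option autoImplicit false

namespace Pool.Agent.R12

open Classical
open Pool.Agent.Nan
open Pool.Agent.KB Pool.Agent.KB.ContrAux Pool.Agent.KBL Pool.Agent.KBZ Pool.Agent.KBU
  Pool.Agent.KBQ Pool.Agent.KBY

-- BEGIN ca
private theorem ca_irr {G V : Type} [Group G] [Fintype G] [AddCommGroup V] [Module ℂ V]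
    [FiniteDimensional ℂ V] (σ : Representation ℂ G V)
    (h : ∑ g, σ.character g * σ.character g⁻¹ = (Nat.card G : ℂ)) : σ.character ∈ Irr G := by
  have hN : (Nat.card G : ℂ) ≠ 0 := by
    exact_mod_cast Nat.card_pos.ne'
  have : Invertible (Nat.card G : ℂ) := invertibleOfNonzero hN
  have hk : ∀ θ ∈ Irr G, ∃ k : ℕ, ∑ g, σ.character g * θ g⁻¹ = (Nat.card G : ℂ) * k := by
    rintro θ ⟨n, ρ, hρ, rfl⟩
    refine ⟨Module.finrank ℂ (Representation.IntertwiningMap ρ σ), ?_⟩
    rw [← Representation.card_inv_mul_sum_char_mul_char_eq_finrank ρ σ, mul_inv_cancel_left₀ hN]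
  choose! k hk using hk
  have hinv : ∀ f f' : G → ℂ, ∑ g, f g⁻¹ * f' g = ∑ g, f' g * f g⁻¹ := fun f f' =>
    Finset.sum_congr rfl fun g _ => mul_comm _ _
  have hinv2 : ∀ f f' : G → ℂ, ∑ g, f g⁻¹ * f' g = ∑ g, f g * f' g⁻¹ := fun f f' => by
    rw [← Equiv.sum_comp (Equiv.inv G)]
    simp
  have h0 := ColA_main (fun g => σ.character g - ∑ θ ∈ irrF G, (k θ : ℂ) * θ g) (by
    intro g g' hgg
    obtain ⟨c, rfl⟩ := isConj_iff.1 hgg
    rw [Representation.char_conj]
    congr 1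
    refine Finset.sum_congr rfl fun θ hθ => ?_
    rw [Col_class (mem_irrF.1 hθ) hgg]) (by
    intro ψ hψ
    have h1 : ∑ g, (σ.character g⁻¹ - ∑ θ ∈ irrF G, (k θ : ℂ) * θ g⁻¹) * ψ g =
        ∑ g, σ.character g⁻¹ * ψ g - ∑ θ ∈ irrF G, (k θ : ℂ) * ∑ g, θ g⁻¹ * ψ g := by
      simp only [sub_mul, Finset.sum_sub_distrib, Finset.sum_mul, Finset.mul_sum]
      rw [Finset.sum_comm]
      congr 1
      refine Finset.sum_congr rfl fun θ _ => Finset.sum_congr rfl fun g _ => by ring
    rw [h1, hinv2, hk ψ hψ]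
    have h2 : ∑ θ ∈ irrF G, (k θ : ℂ) * ∑ g, θ g⁻¹ * ψ g = (k ψ : ℂ) * (Nat.card G : ℂ) := by
      rw [Finset.sum_eq_single_of_mem ψ (mem_irrF.2 hψ)]
      · rw [hinv2, (Col_row ψ ψ hψ hψ).1 rfl]
      · intro θ hθ hne
        rw [hinv2, (Col_row θ ψ (mem_irrF.1 hθ) hψ).2 hne, mul_zero]
    rw [h2]
    ring)
  have h1 : ∀ g, σ.character g = ∑ θ ∈ irrF G, (k θ : ℂ) * θ g := fun g =>
    sub_eq_zero.1 (congrFun h0 g)
  have h2 : (Nat.card G : ℂ) * ((∑ θ ∈ irrF G, k θ * k θ : ℕ) : ℂ) = (Nat.card G : ℂ) := by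
    have h3 : ∑ g, σ.character g * σ.character g⁻¹ =
        ∑ θ ∈ irrF G, (k θ : ℂ) * ∑ g, σ.character g * θ g⁻¹ := by
      calc ∑ g, σ.character g * σ.character g⁻¹ =
          ∑ g, ∑ θ ∈ irrF G, (k θ : ℂ) * (σ.character g * θ g⁻¹) :=
            Finset.sum_congr rfl fun g _ => by
              rw [h1 g⁻¹, Finset.mul_sum]
              exact Finset.sum_congr rfl fun θ _ => by ring
        _ = ∑ θ ∈ irrF G, ∑ g, (k θ : ℂ) * (σ.character g * θ g⁻¹) := Finset.sum_comm
        _ = _ := Finset.sum_congr rfl fun θ _ => (Finset.mul_sum _ _ _).symm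
    have h4 : (Nat.card G : ℂ) * ((∑ θ ∈ irrF G, k θ * k θ : ℕ) : ℂ) =
        ∑ θ ∈ irrF G, (k θ : ℂ) * ∑ g, σ.character g * θ g⁻¹ := by
      push_cast
      rw [Finset.mul_sum]
      refine Finset.sum_congr rfl fun θ hθ => ?_
      rw [hk θ (mem_irrF.1 hθ)]
      ring
    rw [h4, ← h3, h]
  have h3 : ∑ θ ∈ irrF G, k θ * k θ = 1 := by
    have h4 := mul_left_cancel₀ hN (h2.trans (mul_one _).symm)
    exact_mod_cast h4
  obtain ⟨θ0, hθ0, hk0⟩ : ∃ θ ∈ irrF G, k θ ≠ 0 := by
    by_contra hno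
    push Not at hno
    rw [Finset.sum_eq_zero fun θ hθ => by rw [hno θ hθ, mul_zero]] at h3
    exact zero_ne_one h3
  have h5 := Finset.add_sum_erase (irrF G) (fun θ => k θ * k θ) hθ0
  rw [h3] at h5
  have h6 : 0 < k θ0 * k θ0 := Nat.mul_pos (Nat.pos_of_ne_zero hk0) (Nat.pos_of_ne_zero hk0)
  have h7 : k θ0 * k θ0 = 1 := by omega
  have h8 : ∑ θ ∈ (irrF G).erase θ0, k θ * k θ = 0 := by omega
  have h9 : k θ0 = 1 := Nat.eq_one_of_mul_eq_one_left h7
  have h10 : ∀ θ ∈ (irrF G).erase θ0, k θ = 0 := fun θ hθ => by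
    have := (Finset.sum_eq_zero_iff.1 h8) θ hθ
    exact mul_self_eq_zero.1 this
  have h11 : σ.character = θ0 := by
    funext g
    rw [h1 g, Finset.sum_eq_single_of_mem θ0 hθ0]
    · rw [h9]
      simp
    · intro θ hθ hne
      rw [h10 θ (Finset.mem_erase.2 ⟨hne, hθ⟩)]
      simp
  rw [h11]
  exact mem_irrF.1 hθ0

private theorem ca_tr {V : Type} [AddCommGroup V] [Module ℂ V] [FiniteDimensional ℂ V]
    (f : Module.End ℂ V) (n : ℕ) (hn : 0 < n) (hf : f ^ n = 1)
    (ht : LinearMap.trace ℂ V f = LinearMap.trace ℂ V 1) : f = 1 := by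
  classical
  have hn0 : (n : ℂ) ≠ 0 := by exact_mod_cast hn.ne'
  have hss : f.IsSemisimple := by
    apply Module.End.isSemisimple_of_squarefree_aeval_eq_zero
      (p := (Polynomial.X ^ n - 1 : Polynomial ℂ))
    · exact (Polynomial.X_pow_sub_one_separable_iff.2 hn0).squarefree
    · simp [hf]
  have htop := hss.iSup_eigenspace_eq_top
  have hind := f.eigenspaces_iSupIndep
  have hint : DirectSum.IsInternal (fun μ : ℂ => f.eigenspace μ) :=
    (DirectSum.isInternal_submodule_iff_iSupIndep_and_iSup_eq_top _).2 ⟨hind, htop⟩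
  have hN : {μ : ℂ | f.eigenspace μ ≠ ⊥}.Finite :=
    WellFoundedGT.finite_ne_bot_of_iSupIndep hind
  have hmf : ∀ μ : ℂ, Set.MapsTo f (f.eigenspace μ) (f.eigenspace μ) := by
    intro μ v hv
    rw [SetLike.mem_coe, Module.End.mem_eigenspace_iff] at hv ⊢
    rw [hv, map_smul, hv]
  have hm1 : ∀ μ : ℂ, Set.MapsTo (1 : Module.End ℂ V) (f.eigenspace μ) (f.eigenspace μ) := by
    intro μ v hv
    exact hv
  rw [LinearMap.trace_eq_sum_trace_restrict' hint hN hmf,
    LinearMap.trace_eq_sum_trace_restrict' hint hN hm1] at ht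
  have hroot : ∀ μ : ℂ, f.eigenspace μ ≠ ⊥ → ‖μ‖ = 1 := by
    intro μ hμ
    obtain ⟨v, hv, hv0⟩ := Submodule.exists_mem_ne_zero_of_ne_bot hμ
    rw [Module.End.mem_eigenspace_iff] at hv
    have hpow : ∀ k : ℕ, (f ^ k) v = μ ^ k • v := by
      intro k
      induction k with
      | zero => simp
      | succ k ih => rw [pow_succ', Module.End.mul_apply, ih, map_smul, hv, smul_smul, pow_succ]
    have hμn : μ ^ n = 1 := by
      have h1 := hpow n
      rw [hf] at h1
      have h2 : (μ ^ n - 1) • v = 0 := by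
        rw [sub_smul, ← h1]; simp
      rcases smul_eq_zero.1 h2 with h3 | h3
      · exact sub_eq_zero.1 h3
      · exact absurd h3 hv0
    exact Complex.norm_eq_one_of_pow_eq_one hμn hn.ne'
  have e1 : ∀ μ, LinearMap.trace ℂ (f.eigenspace μ) (f.restrict (hmf μ)) =
      μ * (Module.finrank ℂ (f.eigenspace μ) : ℂ) := by
    intro μ
    have h1 : f.restrict (hmf μ) = μ • LinearMap.id := by
      ext ⟨w, hw⟩
      rw [Module.End.mem_eigenspace_iff] at hw
      exact hw
    rw [h1, map_smul, LinearMap.trace_id, smul_eq_mul]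
  have e2 : ∀ μ, LinearMap.trace ℂ (f.eigenspace μ)
      ((1 : Module.End ℂ V).restrict (hm1 μ)) = (Module.finrank ℂ (f.eigenspace μ) : ℂ) := by
    intro μ
    have h1 : (1 : Module.End ℂ V).restrict (hm1 μ) = LinearMap.id := by
      ext ⟨w, hw⟩
      rfl
    rw [h1, LinearMap.trace_id]
  simp only [e1, e2] at ht
  have h3 : ∑ μ ∈ hN.toFinset, (1 - μ.re) * (Module.finrank ℂ (f.eigenspace μ) : ℝ) = 0 := by
    have h4 := congrArg Complex.re ht
    rw [Complex.re_sum, Complex.re_sum] at h4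
    simp only [Complex.mul_re, Complex.natCast_re, Complex.natCast_im, mul_zero, sub_zero] at h4
    simp only [sub_mul, one_mul, Finset.sum_sub_distrib]
    linarith
  have hle : ∀ μ : ℂ, ‖μ‖ = 1 → 0 ≤ 1 - μ.re := by
    intro μ h4
    have := Complex.re_le_norm μ
    rw [h4] at this
    linarith
  have h5 : ∀ μ ∈ hN.toFinset, μ = 1 := by
    intro μ hμ
    have h6 := (Finset.sum_eq_zero_iff_of_nonneg (fun ν hν => ?_)).1 h3 μ hμ
    · rw [Set.Finite.mem_toFinset] at hμ
      have h7 : (Module.finrank ℂ (f.eigenspace μ) : ℝ) ≠ 0 := by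
        have : 0 < Module.finrank ℂ (f.eigenspace μ) := by
          have := (Submodule.nontrivial_iff_ne_bot (p := f.eigenspace μ)).2 hμ
          exact Module.finrank_pos
        exact_mod_cast this.ne'
      have h8 : μ.re = 1 := by
        rcases mul_eq_zero.1 h6 with h | h
        · linarith
        · exact absurd h h7
      have h9 := hroot μ hμ
      have h10 : μ.im = 0 := by
        have h11 := Complex.sq_norm μ
        rw [h9, Complex.normSq_apply, h8] at h11
        have : μ.im * μ.im = 0 := by linarith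
        exact mul_self_eq_zero.1 this
      exact Complex.ext (by rw [h8]; simp) (by rw [h10]; simp)
    · rw [Set.Finite.mem_toFinset] at hν
      exact mul_nonneg (hle ν (hroot ν hν)) (Nat.cast_nonneg _)
  have h6 : f.eigenspace 1 = ⊤ := by
    rw [eq_top_iff, ← htop]
    refine iSup_le fun μ => ?_
    by_cases hμ : f.eigenspace μ = ⊥
    · rw [hμ]
      exact bot_le
    · rw [h5 μ (by rw [Set.Finite.mem_toFinset]; exact hμ)]
  ext v
  have h7 : v ∈ f.eigenspace 1 := by rw [h6]; exact Submodule.mem_top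
  rw [Module.End.mem_eigenspace_iff, one_smul] at h7
  rw [h7]
  rfl

/-- Schur averaging over `N`, entrywise. -/
private theorem ca_schur {N : Type} [Group N] [Fintype N] {n : ℕ}
    (ρ : Representation ℂ N (Fin n → ℂ))
    (hρ : ∀ S : Module.End ℂ (Fin n → ℂ), (∀ a, S * ρ a = ρ a * S) →
      ∃ c : ℂ, S = c • (1 : Module.End ℂ (Fin n → ℂ))) (i k j l : Fin n) :
    (n : ℂ) * ∑ x : N, LinearMap.toMatrix' (ρ x) j i * LinearMap.toMatrix' (ρ x⁻¹) k l =
      (if j = l then 1 else 0) * (if i = k then (Nat.card N : ℂ) else 0) := by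
  have hmul : ∀ a b : N, LinearMap.toMatrix' (ρ (a * b)) =
      LinearMap.toMatrix' (ρ a) * LinearMap.toMatrix' (ρ b) := fun a b => by
    rw [map_mul]
    exact LinearMap.toMatrix'_mul _ _
  have hone : LinearMap.toMatrix' (ρ 1) = 1 := by
    rw [map_one]
    exact LinearMap.toMatrix'_one
  set M : N → Matrix (Fin n) (Fin n) ℂ := fun x => LinearMap.toMatrix' (ρ x) with hM
  have hmul' : ∀ a b : N, M (a * b) = M a * M b := hmul
  have hone' : M 1 = 1 := hone
  set E : Matrix (Fin n) (Fin n) ℂ := Matrix.single i k 1 with hE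
  set P : Matrix (Fin n) (Fin n) ℂ := ∑ x : N, M x * E * M x⁻¹ with hP
  have hcomm : ∀ a, P * M a = M a * P := by
    intro a
    rw [hP, Finset.sum_mul, Finset.mul_sum, ← Equiv.sum_comp (Equiv.mulLeft a)]
    refine Finset.sum_congr rfl fun x _ => ?_
    simp only [Equiv.coe_mulLeft]
    have h1 : M (a * x)⁻¹ * M a = M x⁻¹ := by
      rw [← hmul']
      congr 1
      group
    rw [mul_assoc, mul_assoc, h1, hmul']
    simp only [mul_assoc]
  obtain ⟨c, hc⟩ := hρ (Matrix.toLin' P) (by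
    intro a
    have h1 : ρ a = Matrix.toLin' (M a) := by
      rw [hM]
      exact (Matrix.toLin'_toMatrix' _).symm
    rw [h1]
    have h2 := congrArg Matrix.toLin' (hcomm a)
    rw [Matrix.toLin'_mul, Matrix.toLin'_mul] at h2
    exact h2)
  have hc' : P = c • (1 : Matrix (Fin n) (Fin n) ℂ) := by
    apply Matrix.toLin'.injective
    rw [hc, map_smul, Matrix.toLin'_one]
    rfl
  have htr : Matrix.trace P = (Nat.card N : ℂ) * (if i = k then 1 else 0) := by
    rw [hP, Matrix.trace_sum]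
    have h1 : ∀ x ∈ (Finset.univ : Finset N), Matrix.trace (M x * E * M x⁻¹) =
        (if i = k then 1 else 0) := by
      intro x _
      rw [Matrix.trace_mul_comm, ← mul_assoc, ← hmul', inv_mul_cancel, hone', one_mul]
      split_ifs with h
      · subst h
        simp [hE, Matrix.trace_single_eq_same]
      · rw [hE, Matrix.trace_single_eq_of_ne _ _ _ h]
    rw [Finset.sum_congr rfl h1, Finset.sum_const, nsmul_eq_mul, Finset.card_univ,
      Fintype.card_eq_nat_card]
  have htr' : Matrix.trace P = c * n := by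
    rw [hc', Matrix.trace_smul, Matrix.trace_one, smul_eq_mul, Fintype.card_fin]
  have hent : ∑ x : N, M x j i * M x⁻¹ k l = P j l := by
    rw [hP, Matrix.sum_apply]
    refine Finset.sum_congr rfl fun x _ => ?_
    rw [hE, Matrix.mul_apply, Finset.sum_eq_single k]
    · rw [Matrix.mul_single_apply_same, mul_one]
    · intro b _ hb
      rw [Matrix.mul_single_apply_of_ne _ _ _ _ _ hb, zero_mul]
    · intro h
      exact absurd (Finset.mem_univ _) h
  change (n : ℂ) * ∑ x : N, M x j i * M x⁻¹ k l = _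
  rw [hent, hc', Matrix.smul_apply, Matrix.one_apply, smul_eq_mul]
  have h3 : c * n = (Nat.card N : ℂ) * (if i = k then 1 else 0) := by rw [← htr', htr]
  have h4 : (if i = k then (Nat.card N : ℂ) else 0) =
      (Nat.card N : ℂ) * (if i = k then 1 else 0) := by split_ifs <;> simp
  rw [h4, ← h3]
  ring

/-- The sum over a coset. -/
private theorem ca_cos {N : Type} [Group N] [Fintype N] {n : ℕ} (hn : n ≠ 0)
    (ρ : Representation ℂ N (Fin n → ℂ))
    (hρ : ∀ S : Module.End ℂ (Fin n → ℂ), (∀ a, S * ρ a = ρ a * S) →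
      ∃ c : ℂ, S = c • (1 : Module.End ℂ (Fin n → ℂ)))
    (A B : Module.End ℂ (Fin n → ℂ)) (hAB : A * B = 1) :
    ∑ x : N, LinearMap.trace ℂ _ (A * ρ x) * LinearMap.trace ℂ _ (ρ x⁻¹ * B) =
      (Nat.card N : ℂ) := by
  have hn' : (n : ℂ) ≠ 0 := by exact_mod_cast hn
  apply mul_left_cancel₀ hn'
  have h1 : ∀ x, LinearMap.trace ℂ _ (A * ρ x) =
      ∑ i, ∑ j, LinearMap.toMatrix' A i j * LinearMap.toMatrix' (ρ x) j i := by
    intro x
    rw [LinearMap.trace_eq_matrix_trace ℂ (Pi.basisFun ℂ (Fin n)),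
      LinearMap.toMatrix_eq_toMatrix', LinearMap.toMatrix'_mul, Matrix.trace]
    refine Finset.sum_congr rfl fun i _ => ?_
    rw [Matrix.diag_apply, Matrix.mul_apply]
  have h2 : ∀ x, LinearMap.trace ℂ _ (ρ x⁻¹ * B) =
      ∑ k, ∑ l, LinearMap.toMatrix' (ρ x⁻¹) k l * LinearMap.toMatrix' B l k := by
    intro x
    rw [LinearMap.trace_eq_matrix_trace ℂ (Pi.basisFun ℂ (Fin n)),
      LinearMap.toMatrix_eq_toMatrix', LinearMap.toMatrix'_mul, Matrix.trace]
    refine Finset.sum_congr rfl fun i _ => ?_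
    rw [Matrix.diag_apply, Matrix.mul_apply]
  have h3 : (n : ℂ) * ∑ x : N, LinearMap.trace ℂ _ (A * ρ x) * LinearMap.trace ℂ _ (ρ x⁻¹ * B) =
      ∑ i, ∑ j, ∑ k, ∑ l, LinearMap.toMatrix' A i j * LinearMap.toMatrix' B l k *
        ((n : ℂ) * ∑ x : N, LinearMap.toMatrix' (ρ x) j i * LinearMap.toMatrix' (ρ x⁻¹) k l) := by
    have h0 : ∀ x : N, (n : ℂ) * (LinearMap.trace ℂ _ (A * ρ x) *
        LinearMap.trace ℂ _ (ρ x⁻¹ * B)) =
        ∑ i, ∑ j, ∑ k, ∑ l, LinearMap.toMatrix' A i j * LinearMap.toMatrix' B l k *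
        ((n : ℂ) * (LinearMap.toMatrix' (ρ x) j i * LinearMap.toMatrix' (ρ x⁻¹) k l)) := by
      intro x
      rw [h1, h2, Finset.sum_mul, Finset.mul_sum]
      refine Finset.sum_congr rfl fun i _ => ?_
      rw [Finset.sum_mul, Finset.mul_sum]
      refine Finset.sum_congr rfl fun j _ => ?_
      rw [Finset.mul_sum, Finset.mul_sum]
      refine Finset.sum_congr rfl fun k _ => ?_
      rw [Finset.mul_sum, Finset.mul_sum]
      refine Finset.sum_congr rfl fun l _ => ?_
      ring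
    rw [Finset.mul_sum, Finset.sum_congr rfl fun x _ => h0 x, Finset.sum_comm]
    refine Finset.sum_congr rfl fun i _ => ?_
    rw [Finset.sum_comm]
    refine Finset.sum_congr rfl fun j _ => ?_
    rw [Finset.sum_comm]
    refine Finset.sum_congr rfl fun k _ => ?_
    rw [Finset.sum_comm]
    refine Finset.sum_congr rfl fun l _ => ?_
    rw [← Finset.mul_sum, ← Finset.mul_sum]
  rw [h3]
  simp only [ca_schur ρ hρ]
  have h4 : ∀ i : Fin n, ∑ j, ∑ k, ∑ l, LinearMap.toMatrix' A i j * LinearMap.toMatrix' B l k *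
      ((if j = l then 1 else 0) * (if i = k then (Nat.card N : ℂ) else 0)) = (Nat.card N : ℂ) := by
    intro i
    have h5 : ∀ j : Fin n, ∑ k, ∑ l, LinearMap.toMatrix' A i j * LinearMap.toMatrix' B l k *
      ((if j = l then 1 else 0) * (if i = k then (Nat.card N : ℂ) else 0)) =
      LinearMap.toMatrix' A i j * LinearMap.toMatrix' B j i * (Nat.card N : ℂ) := by
      intro j
      rw [Finset.sum_eq_single i, Finset.sum_eq_single j]
      · simp
      · intro l _ hl
        rw [if_neg (Ne.symm hl), zero_mul, mul_zero]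
      · intro h
        exact absurd (Finset.mem_univ _) h
      · intro k _ hk
        refine Finset.sum_eq_zero fun l _ => ?_
        rw [if_neg (Ne.symm hk), mul_zero, mul_zero]
      · intro h
        exact absurd (Finset.mem_univ _) h
    rw [Finset.sum_congr rfl fun j _ => h5 j, ← Finset.sum_mul, ← Matrix.mul_apply,
      ← LinearMap.toMatrix'_mul, hAB, LinearMap.toMatrix'_one, Matrix.one_apply_eq, one_mul]
  rw [Finset.sum_congr rfl fun i _ => h4 i, Finset.sum_const, nsmul_eq_mul, Finset.card_univ,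
    Fintype.card_fin]

/-- (ca, size 4) The theorem of Gallagher. PROOF. `η = char ρ` on `Fin n → ℂ`, `φ = char σ` on `Fin m → ℂ`. `σ (κ x) = 1` for all `x` (`φ (κ x) = φ 1`; private lemma `hi_tr` in the proof of `defl` of Nan/Ch.lean:
an operator of finite order with trace = dimension is 1; copy it). `ρ ∘ κ` is irreducible (its character is in `Irr N`; compare the private lemma `hb_sub` and the proof of `cancel` in Nan/Ch.lean; or: its commutant is one-dimensional by the norm of the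
character, `Representation.char_orthonormal` / `Representation.card_inv_mul_sum_char_mul_char_eq_finrank`). Let `R t = ρ t ⊗ σ t` on `(Fin n → ℂ) ⊗ (Fin m → ℂ)`, written on `Fin m → (Fin n → ℂ)` (or `Fin m × Fin n → ℂ`): `(R t v) a = ∑ b, (σ t)_ab • ρ t (v b)`. Its
character is `η * φ`. COMMUTANT: let `S` commute with all `R t`. Its blocks `S_ab : End (Fin n → ℂ)` commute with `ρ (κ x)` (because `R (κ x)` is `ρ (κ x)` in every block), so `S_ab = c_ab • 1` (`schur` for `ρ ∘ κ`), and the matrix `c` commutes with `σ t`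
(compare `S R t = R t S` and cancel the invertible `ρ t`), so `c` is a scalar matrix (`schur` for `σ`). So the commutant is one-dimensional, so `R` is irreducible (Maschke: a projection which commutes with `R` is a scalar; or norm of the character = dimension of the
commutant = 1: then the character is in `Irr T`; such a lemma, representation with character of norm 1, is in the proof of `prodchar` in Nan/Ch.lean). -/
theorem gal {N T : Type} [Group N] [Fintype N] [Group T] [Fintype T] (κ : N →* T) (hκ : Nrm κ)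
    (η : T → ℂ) (hη : η ∈ Irr T) (hres : (fun x => η (κ x)) ∈ Irr N) (φ : T → ℂ)
    (hφ : φ ∈ Irr T) (hφN : ∀ x, φ (κ x) = φ 1) : (fun t => η t * φ t) ∈ Irr T := by
  have hNC : (Nat.card N : ℂ) ≠ 0 := by exact_mod_cast Nat.card_pos.ne'
  have hφr := (Col_row φ φ hφ hφ).1 rfl
  obtain ⟨n, ρ, hρ, hch⟩ := hη
  obtain ⟨m, σ, hσ, hch'⟩ := hφ
  -- `N` acts trivially
  have hker : ∀ x, σ (κ x) = 1 := by
    intro x
    refine ca_tr (σ (κ x)) (Nat.card T) Nat.card_pos ?_ ?_
    · rw [← map_pow, pow_card_eq_one', map_one]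
    · have h2 : σ.character (κ x) = σ.character 1 := by rw [hch']; exact hφN x
      rw [← map_one σ]
      exact h2
  have hφ1 : ∀ t x, φ (t * κ x) = φ t := by
    intro t x
    rw [← hch']
    change LinearMap.trace ℂ _ (σ (t * κ x)) = LinearMap.trace ℂ _ (σ t)
    rw [map_mul, hker, mul_one]
  have hφ2 : ∀ t x, φ (t * κ x)⁻¹ = φ t⁻¹ := by
    intro t x
    rw [← hch']
    change LinearMap.trace ℂ _ (σ (t * κ x)⁻¹) = LinearMap.trace ℂ _ (σ t⁻¹)
    have h3 : (t * κ x)⁻¹ = κ x⁻¹ * t⁻¹ := by rw [map_inv]; group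
    rw [h3, map_mul, hker, one_mul]
  -- the restriction of `ρ`
  let τ : Representation ℂ N (Fin n → ℂ) := MonoidHom.comp ρ κ
  have hτ : ∀ a, τ a = ρ (κ a) := fun _ => rfl
  have h3 : τ.character = fun x => η (κ x) := by
    funext a
    rw [← hch]
    rfl
  have e2 := Representation.card_inv_mul_sum_char_mul_char_eq_finrank τ τ
  rw [h3, (Col_row _ _ hres hres).1 rfl, inv_mul_cancel₀ hNC] at e2
  have e2' : Module.finrank ℂ (Representation.IntertwiningMap τ τ) = 1 := by
    exact_mod_cast e2.symm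
  have hn : n ≠ 0 := by
    rintro rfl
    have h4 := (Col_row _ _ hres hres).1 rfl
    have h5 : ∀ x : N, η (κ x) = 0 := by
      intro x
      rw [← hch]
      change LinearMap.trace ℂ _ (ρ (κ x)) = 0
      rw [Subsingleton.elim (ρ (κ x)) 0, map_zero]
    rw [Finset.sum_eq_zero fun x _ => by rw [h5, zero_mul]] at h4
    exact hNC h4.symm
  have hτi : ∀ S : Module.End ℂ (Fin n → ℂ), (∀ a, S * τ a = τ a * S) →
      ∃ c : ℂ, S = c • (1 : Module.End ℂ (Fin n → ℂ)) := by
    intro S hS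
    let g : Representation.IntertwiningMap τ τ :=
      { toLinearMap := S
        isIntertwining' := fun a => hS a }
    let i : Representation.IntertwiningMap τ τ := Representation.IntertwiningMap.id τ
    have hi : i.toLinearMap = 1 := rfl
    have hi0 : i ≠ 0 := by
      intro h
      have h5 : (1 : Module.End ℂ (Fin n → ℂ)) = 0 := by
        rw [← hi, h]
        rfl
      have h6 := congrFun (LinearMap.congr_fun h5 (fun _ => 1)) ⟨0, Nat.pos_of_ne_zero hn⟩
      exact one_ne_zero h6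
    obtain ⟨c, hc⟩ := (finrank_eq_one_iff_of_nonzero' i hi0).1 e2' g
    refine ⟨c, ?_⟩
    have h5 := congrArg (fun s : Representation.IntertwiningMap τ τ => s.toLinearMap) hc
    exact h5.symm
  have hcos : ∀ t, ∑ x : N, η (t * κ x) * η (t * κ x)⁻¹ = (Nat.card N : ℂ) := by
    intro t
    rw [← ca_cos hn τ hτi (ρ t) (ρ t⁻¹) (by rw [← map_mul, mul_inv_cancel, map_one])]
    refine Finset.sum_congr rfl fun x _ => ?_
    rw [← hch]
    change LinearMap.trace ℂ _ (ρ (t * κ x)) * LinearMap.trace ℂ _ (ρ (t * κ x)⁻¹) = _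
    have h3 : (t * κ x)⁻¹ = κ x⁻¹ * t⁻¹ := by rw [map_inv]; group
    rw [h3, map_mul ρ, map_mul ρ]
    rfl
  have hchr : (Representation.tprod ρ σ).character = fun t => η t * φ t := by
    rw [Representation.char_tensor, hch, hch']
    rfl
  rw [← hchr]
  apply ca_irr
  rw [hchr]
  apply mul_left_cancel₀ hNC
  have h5 : ∀ x : N, ∑ t : T, (η t * φ t) * (η t⁻¹ * φ t⁻¹) =
      ∑ t : T, (φ t * φ t⁻¹) * (η (t * κ x) * η (t * κ x)⁻¹) := by
    intro x
    rw [← Equiv.sum_comp (Equiv.mulRight (κ x))]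
    refine Finset.sum_congr rfl fun t _ => ?_
    simp only [Equiv.coe_mulRight]
    rw [hφ1, hφ2]
    ring
  have h6 : (Nat.card N : ℂ) * ∑ t : T, (η t * φ t) * (η t⁻¹ * φ t⁻¹) =
      ∑ x : N, ∑ t : T, (φ t * φ t⁻¹) * (η (t * κ x) * η (t * κ x)⁻¹) := by
    rw [← Finset.sum_congr rfl fun x _ => h5 x, Finset.sum_const, nsmul_eq_mul,
      Finset.card_univ, Fintype.card_eq_nat_card]
  refine h6.trans ?_
  rw [Finset.sum_comm]
  have h7 : ∀ t : T, ∑ x : N, (φ t * φ t⁻¹) * (η (t * κ x) * η (t * κ x)⁻¹) =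
      (φ t * φ t⁻¹) * (Nat.card N : ℂ) := fun t => by rw [← Finset.mul_sum, hcos]
  rw [Finset.sum_congr rfl fun t _ => h7 t, ← Finset.sum_mul, hφr, mul_comm]
-- END ca

-- BEGIN cb
/-- (cb, size 3) Clifford correspondence + Gallagher: `η` extends `θ` to the stabilizer `I`, `φ` is a character of `I` with `N` in its kernel. PROOF. `κ : N → I` the inclusion, `ψ t = η t * φ t` is in `Irr I` by `gal`. `Over κ ψ θ`: `∑ x, ψ (κ x) * θ x⁻¹ =
φ 1 * ∑ x, θ x * θ x⁻¹ = φ 1 * card N ≠ 0` (`Col_row`). `Ctx (Nrm.subtype N) I κ {θ}` exactly as in the proof of `ito` in Nan/Ch.lean (`fxG_tw`). `IndIB_irr` gives `indc I ψ ∈ Irr G`, `Frb_one` its degree `I.index * ψ 1 = I.index * (a * b)` (`η 1 = θ 1`). -/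
theorem cg {G : Type} [Group G] [Finite G] (N : Subgroup G) (hN : N.Normal) (θ : N → ℂ)
    (hθ : θ ∈ Irr N) (I : Subgroup G) (hI : I = fxG N hN θ) (hNI : N ≤ I) (η : I → ℂ)
    (hη : η ∈ Irr I) (hres : ∀ (x : N) (t : I), (t : G) = x → η t = θ x) (φ : I → ℂ)
    (hφ : φ ∈ Irr I) (hφN : ∀ t : I, (t : G) ∈ N → φ t = φ 1) (a b : ℕ) (ha : θ 1 = a)
    (hb : φ 1 = b) : ∃ χ ∈ Irr G, χ 1 = ((I.index * (a * b) : ℕ) : ℂ) := by
  let := Fintype.ofFinite G
  let := Fintype.ofFinite N
  let := Fintype.ofFinite I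
  let κ : N →* I := Subgroup.inclusion hNI
  have hκi : Function.Injective κ := Subgroup.inclusion_injective hNI
  have hκ : Nrm κ := by
    refine ⟨hκi, fun g x => ?_⟩
    refine ⟨⟨(g : G) * x * (g : G)⁻¹, hN.conj_mem x x.2 g⟩, ?_⟩
    apply Subtype.ext
    rfl
  have hmem : ∀ g, g ∈ I ↔ tw (Nrm.subtype N) g θ = θ := by
    intro g
    rw [hI]
    exact fxG_tw N hN θ g
  have hctx : Ctx (Nrm.subtype N) I κ {θ} := by
    refine ⟨hκ, fun a => rfl, ?_, ?_, ?_⟩
    · rintro φ rfl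
      exact hθ
    · rintro t φ rfl
      exact (hmem t).1 t.2
    · rintro g hg φ rfl h
      exact hg ((hmem g).2 h)
  have hr : ∀ x : N, η (κ x) = θ x := fun x => hres x (κ x) rfl
  have hr' : (fun x => η (κ x)) ∈ Irr N := by
    have h1 : (fun x => η (κ x)) = θ := funext hr
    rw [h1]
    exact hθ
  have hφκ : ∀ x : N, φ (κ x) = φ 1 := fun x => hφN (κ x) x.2
  have hψ := gal κ hκ η hη hr' φ hφ hφκ
  have hov : Over κ (fun t => η t * φ t) θ := by
    unfold Over
    have h1 : ∑ x : N, (fun t => η t * φ t) (κ x) * θ x⁻¹ = φ 1 * ∑ x : N, θ x * θ x⁻¹ := by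
      rw [Finset.mul_sum]
      refine Finset.sum_congr rfl fun x _ => ?_
      show η (κ x) * φ (κ x) * θ x⁻¹ = φ 1 * (θ x * θ x⁻¹)
      rw [hr, hφκ]
      ring
    rw [h1, (Col_row θ θ hθ hθ).1 rfl]
    have h2 : (Nat.card N : ℂ) ≠ 0 := by exact_mod_cast (Nat.card_pos (α := N)).ne'
    exact mul_ne_zero (Alg_ne hφ) h2
  obtain ⟨h1, -⟩ := IndIB_irr hctx (fun t => η t * φ t) hψ θ rfl hov
  refine ⟨_, h1, ?_⟩
  rw [Frb_one]
  have h2 : η 1 = a := by
    rw [← ha, ← hr 1, map_one]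
  rw [h2, hb]
  push_cast
  ring
-- END cb

-- BEGIN cc
private theorem cc_cop {G : Type} [Group G] [Finite G] {p q : ℕ} (hp : p.Prime) (hq : q.Prime)
    (hne : p ≠ q) : (Nat.card (Op p G)).Coprime (Nat.card (Op q G)) := by
  have := Fact.mk hp
  have := Fact.mk hq
  exact IsPGroup.coprime_card_of_ne p q hne _ _ (op_pgr p) (op_pgr q)

private theorem cc_deg {A : Type} [Group A] [Finite A] {θ : A → ℂ} (h : θ ∈ Irr A) :
    ∃ n : ℕ, θ 1 = n := by
  obtain ⟨n, ρ, -, rfl⟩ := h
  exact ⟨n, by rw [Representation.char_one]; simp⟩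

/-- The extension to the stabilizer. -/
private theorem cc_ext {G : Type} [Group G] [Finite G] (N : Subgroup G) (hN : N.Normal)
    (hcop : (Nat.card N).Coprime N.index) (θ : N → ℂ) (hθ : θ ∈ Irr N) (I : Subgroup G)
    (hI : I = fxG N hN θ) (hNI : N ≤ I) :
    ∃ η : I → ℂ, η ∈ Irr I ∧ ∀ (x : N) (t : I), (t : G) = x → η t = θ x := by
  have h3 := Fintype.ofFinite N
  have h4 := Fintype.ofFinite I
  have hι : Nrm (Subgroup.inclusion hNI) :=
    ⟨Subgroup.inclusion_injective hNI, fun g x =>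
      ⟨⟨(g : G) * x * (g : G)⁻¹, hN.conj_mem x x.2 g⟩, Subtype.ext rfl⟩⟩
  have hidx : (Subgroup.inclusion hNI).range.index ∣ N.index := by
    rw [Subgroup.inclusion_range]
    exact Dvd.intro _ (Subgroup.relIndex_mul_index hNI)
  have hfix : ∀ g : I, ∀ x y : N, (y : G) = g * x * (g : G)⁻¹ → θ y = θ x := by
    intro g
    have h5 : (g : G) ∈ fxG N hN θ := by
      rw [← hI]
      exact g.2
    exact h5
  obtain ⟨η, hη, hηθ⟩ := cext hι (Nat.Coprime.coprime_dvd_right hidx hcop) θ hθ (by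
    intro g
    funext x
    rw [tw_apply]
    exact hfix g x _ (congrArg (fun u : I => (u : G)) (hι.cg_spec g x)))
  refine ⟨η, hη, fun x t htx => ?_⟩
  have h6 : t = Subgroup.inclusion hNI x := Subtype.ext (by rw [htx]; rfl)
  rw [h6, hηθ]

/-- (cc, size 4) The low characters: over given irreducible characters `s i` of the subgroups `Op i G`, `i` in `τ`, with stabilizer `S ≤ G ⧸ Fit G`, there is a character of `G` for EVERY irreducible character `φ` of `S`. PROOF. `θ` on `N = ⨆ i, Op i G` from `prodchar`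
exactly as in the proof of `low` (Nan/Mn.lean), `I = fxG N hN θ`; `Fit G ≤ I` (`fit_fx`), `I ↔ S` (`mem_fxH`: `g ∈ I` iff the class of `g` is in `S`). `η ∈ Irr I` which extends `θ`: `cext` with `tau_cop`, as in the private lemma `hf_zeta` of Nan/Ch.lean. `π : I → S`,
`g ↦` its class, is surjective with kernel `Fit G ≥ N`; `φ ∘ π ∈ Irr I` (`Inf_irr`), constant on `N`. `cg`. `I.index = S.index` (`Subgroup.index_comap_of_surjective`, `I` is the comap of `S`), `θ 1` is a multiple of every `s i 1`. -/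
theorem lowg {G : Type} [Group G] [Finite G]
    (s : ∀ i : {p : ℕ // p ∈ (Nat.card G).primeFactors ∧ Tau G p}, Op (i : ℕ) G → ℂ)
    (hs : ∀ i : {p : ℕ // p ∈ (Nat.card G).primeFactors ∧ Tau G p}, s i ∈ Irr (Op (i : ℕ) G))
    (S : Subgroup (G ⧸ Fit G))
    (hS : ∀ z, z ∈ S ↔ ∀ i : {p : ℕ // p ∈ (Nat.card G).primeFactors ∧ Tau G p},
      z ∈ fxH (Fit G) (Op (i : ℕ) G) (op_nor _) (s i))
    (φ : S → ℂ) (hφ : φ ∈ Irr S) (b : ℕ) (hb : φ 1 = b) :
    ∃ χ ∈ Irr G, ∃ d : ℕ, χ 1 = d ∧ S.index * b ∣ d ∧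
      ∀ (i : {p : ℕ // p ∈ (Nat.card G).primeFactors ∧ Tau G p}) (e : ℕ), s i 1 = e → e ∣ d := by
  have : Finite {p : ℕ // p ∈ (Nat.card G).primeFactors ∧ Tau G p} :=
    Finite.of_injective
      (fun i => (⟨(i : ℕ), i.2.1⟩ : {p : ℕ // p ∈ (Nat.card G).primeFactors}))
      (fun i j h => Subtype.ext (congrArg (fun t : {p : ℕ // p ∈ (Nat.card G).primeFactors} =>
        (t : ℕ)) h))
  have hN : (⨆ i : {p : ℕ // p ∈ (Nat.card G).primeFactors ∧ Tau G p},
      Op (i : ℕ) G : Subgroup G).Normal := by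
    have : ∀ i : {p : ℕ // p ∈ (Nat.card G).primeFactors ∧ Tau G p}, (Op (i : ℕ) G).Normal :=
      fun i => op_nor _
    exact Subgroup.iSup_normal _
  obtain ⟨θ, hθ, h1, h2⟩ := prodchar
    (fun i : {p : ℕ // p ∈ (Nat.card G).primeFactors ∧ Tau G p} => Op (i : ℕ) G)
    (fun i => op_nor (i : ℕ))
    (fun i j hij => cc_cop (Nat.prime_of_mem_primeFactors i.2.1)
      (Nat.prime_of_mem_primeFactors j.2.1) (fun h => hij (Subtype.ext h))) s hs hN
  have hNF : (⨆ i : {p : ℕ // p ∈ (Nat.card G).primeFactors ∧ Tau G p},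
      Op (i : ℕ) G : Subgroup G) ≤ Fit G :=
    iSup_le fun i => op_fit _ (Nat.prime_of_mem_primeFactors i.2.1)
  have hfx : ∀ i : {p : ℕ // p ∈ (Nat.card G).primeFactors ∧ Tau G p},
      Fit G ≤ fxG (Op (i : ℕ) G) (op_nor _) (s i) := fun i =>
    fit_fx _ (Nat.prime_of_mem_primeFactors i.2.1) _ (hs i)
  have hF : Fit G ≤ fxG _ hN θ := fun g hg => (h2 g).mpr fun i => hfx i hg
  obtain ⟨I, hI⟩ : ∃ I, I = fxG _ hN θ := ⟨_, rfl⟩
  have hFI : Fit G ≤ I := by
    rw [hI]
    exact hF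
  have hIS : ∀ g : G, g ∈ I ↔ (g : G ⧸ Fit G) ∈ S := by
    intro g
    rw [hS, hI]
    constructor
    · intro hg i
      exact (mem_fxH (Fit G) _ _ _ (hfx i) g).mpr ((h2 g).mp hg i)
    · intro hg
      exact (h2 g).mpr fun i => (mem_fxH (Fit G) _ _ _ (hfx i) g).mp (hg i)
  obtain ⟨η, hη, hηθ⟩ := cc_ext _ hN tau_cop θ hθ I hI (hNF.trans hFI)
  obtain ⟨π, hπ⟩ : ∃ π : I →* S, ∀ t : I, ((π t : S) : G ⧸ Fit G) = ((t : G) : G ⧸ Fit G) :=
    ⟨{ toFun := fun t => ⟨((t : G) : G ⧸ Fit G), (hIS t).1 t.2⟩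
       map_one' := rfl
       map_mul' := fun _ _ => rfl }, fun _ => rfl⟩
  have hπs : Function.Surjective π := by
    intro z
    obtain ⟨g, hg⟩ := QuotientGroup.mk_surjective (z : G ⧸ Fit G)
    refine ⟨⟨g, (hIS g).2 (by rw [hg]; exact z.2)⟩, ?_⟩
    apply Subtype.ext
    rw [hπ]
    exact hg
  have hφπ : (fun t => φ (π t)) ∈ Irr I := Inf_irr π hπs φ hφ
  obtain ⟨a, ha⟩ := cc_deg hθ
  obtain ⟨χ, hχ, hd⟩ := cg _ hN θ hθ I hI (hNF.trans hFI) η hη hηθ (fun t => φ (π t)) hφπ (by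
    intro t ht
    show φ (π t) = φ (π 1)
    congr 1
    apply Subtype.ext
    rw [hπ, hπ]
    show ((t : G) : G ⧸ Fit G) = ((1 : G) : G ⧸ Fit G)
    rw [(QuotientGroup.eq_one_iff (t : G)).2 (hNF ht)]
    rfl) a b ha (by
    show φ (π 1) = b
    rw [map_one, hb])
  have hidx : I.index = S.index := by
    have h3 : I = S.comap (QuotientGroup.mk' (Fit G)) := by
      ext g
      exact hIS g
    rw [h3]
    exact Subgroup.index_comap_of_surjective S (QuotientGroup.mk'_surjective (Fit G))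
  refine ⟨χ, hχ, _, hd, ?_, ?_⟩
  · rw [hidx]
    exact ⟨a, by ring⟩
  · intro i e he
    obtain ⟨k, hk⟩ := h1 i
    rw [ha, he] at hk
    have h3 : a = k * e := by exact_mod_cast hk
    exact ⟨I.index * (k * b), by rw [h3]; ring⟩
-- END cc

-- BEGIN cd
private theorem cd_one (P : Type) [Group P] : (fun _ : P => (1 : ℂ)) ∈ Irr P := by
  refine ⟨1, (1 : P →* ((Fin 1 → ℂ) →ₗ[ℂ] (Fin 1 → ℂ))), ?_, ?_⟩
  · have h1 : IsSimpleOrder (Submodule ℂ (Fin 1 → ℂ)) := by
      have h2 : IsSimpleModule ℂ (Fin 1 → ℂ) := by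
        rw [isSimpleModule_iff_finrank_eq_one]
        simp
      exact (isSimpleModule_iff ℂ (Fin 1 → ℂ)).1 h2
    refine { exists_pair_ne := ⟨⊥, ⊤, fun h => ?_⟩, eq_bot_or_eq_top := fun S => ?_ }
    · have h2 := congrArg Subrepresentation.toSubmodule h
      exact bot_ne_top h2
    · rcases h1.eq_bot_or_eq_top S.toSubmodule with h2 | h2
      · left
        exact Subrepresentation.toSubmodule_injective h2
      · right
        exact Subrepresentation.toSubmodule_injective h2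
  · funext g
    show LinearMap.trace ℂ (Fin 1 → ℂ) (1 : (Fin 1 → ℂ) →ₗ[ℂ] (Fin 1 → ℂ)) = 1
    rw [LinearMap.trace_one]
    simp

private theorem cd_lin {P : Type} [Group P] (f : P →* ℂˣ) :
    (fun x : P => ((f x : ℂˣ) : ℂ)) ∈ Irr P := by
  have h1 := LinB_irr f _ (cd_one P)
  simpa using h1

/-- The projection of `H = D N` to `N`. -/
private theorem cd_pi {H : Type} [Group H] (D N : Subgroup H) (hD : D.Normal) (h1 : D ⊓ N = ⊥)
    (h2 : D ⊔ N = ⊤) : ∃ π : H →* N, (∀ n : N, π n = n) ∧ (∀ x ∈ D, π x = 1) ∧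
      ∀ h : H, h * (π h : H)⁻¹ ∈ D := by
  have hbij : Function.Bijective ((QuotientGroup.mk' D).comp N.subtype) := by
    constructor
    · rw [injective_iff_map_eq_one]
      intro n hn
      have h3 : (n : H) ∈ D := (QuotientGroup.eq_one_iff (n : H)).1 hn
      have h4 : (n : H) ∈ D ⊓ N := ⟨h3, n.2⟩
      rw [h1, Subgroup.mem_bot] at h4
      exact Subtype.ext h4
    · intro q
      obtain ⟨h, rfl⟩ := QuotientGroup.mk'_surjective D q
      have h3 : h ∈ D ⊔ N := by rw [h2]; trivial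
      obtain ⟨d, hd, n, hn, rfl⟩ := Subgroup.mem_sup_of_normal_left.1 h3
      refine ⟨⟨n, hn⟩, ?_⟩
      rw [map_mul]
      have h4 : QuotientGroup.mk' D d = 1 := (QuotientGroup.eq_one_iff d).2 hd
      rw [h4, one_mul]
      rfl
  obtain ⟨e, he⟩ : ∃ e : N ≃* H ⧸ D, ∀ n : N, e n = QuotientGroup.mk' D (n : H) :=
    ⟨MulEquiv.ofBijective _ hbij, fun _ => rfl⟩
  refine ⟨e.symm.toMonoidHom.comp (QuotientGroup.mk' D), ?_, ?_, ?_⟩
  · intro n
    show e.symm (QuotientGroup.mk' D (n : H)) = n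
    rw [← he, MulEquiv.symm_apply_apply]
  · intro x hx
    show e.symm (QuotientGroup.mk' D x) = 1
    have h4 : QuotientGroup.mk' D x = 1 := (QuotientGroup.eq_one_iff x).2 hx
    rw [h4, map_one]
  · intro h
    have h3 : QuotientGroup.mk' D ((e.symm (QuotientGroup.mk' D h) : N) : H) =
        QuotientGroup.mk' D h := by
      rw [← he, MulEquiv.apply_symm_apply]
    have h4 : QuotientGroup.mk' D (h * ((e.symm (QuotientGroup.mk' D h) : N) : H)⁻¹) = 1 := by
      rw [map_mul, map_inv, h3, mul_inv_cancel]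
    exact (QuotientGroup.eq_one_iff _).1 h4

/-- (cd, size 3) Characters over a linear character `α` of a complemented abelian normal subgroup `D` (complement `N`, stabilizer `S` of `α` in `N`): for every irreducible character `φ` of `S` there is one of degree `|N : S| * φ 1`. PROOF. `θ x = α x` is in `Irr D`
(as the private lemma `mb_lin` of Nan/Mn.lean). `I = fxG D hD θ`: it contains `D` (`D` is abelian) and is the product of `D` and the image of `S`: `d * n ∈ I ↔ n ∈ S`. Every element of `I` is uniquely `d * n`, `d ∈ D`, `n ∈ S`; `η (d * n) = α d` is a homomorphism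
`I → ℂˣ` (because `n` fixes `α`), `φ' (d * n) = φ n` is the inflation of `φ` under the homomorphism `I → S`, `d * n ↦ n` (`Inf_irr`), constant on `D`. `cg`; `I.index = S.index` (the cosets of `I` in `H = D N` are the cosets of `S` in `N`). -/
theorem splt {H : Type} [Group H] [Finite H] (D N : Subgroup H) (hD : D.Normal)
    (hab : ∀ x ∈ D, ∀ y ∈ D, x * y = y * x) (h1 : D ⊓ N = ⊥) (h2 : D ⊔ N = ⊤) (α : D →* ℂˣ)
    (S : Subgroup N) (hS : ∀ n : N, n ∈ S ↔ ∀ x y : D, (y : H) = n * x * (n : H)⁻¹ → α y = α x)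
    (φ : S → ℂ) (hφ : φ ∈ Irr S) (b : ℕ) (hb : φ 1 = b) :
    ∃ χ ∈ Irr H, χ 1 = ((S.index * b : ℕ) : ℂ) := by
  obtain ⟨π, hπN, hπD, hπ⟩ := cd_pi D N hD h1 h2
  have hsur : Function.Surjective π := fun n => ⟨n, hπN n⟩
  -- conjugation of elements of `D`
  have hcj : ∀ (h : H) (x : D), h * x * h⁻¹ = (π h : H) * x * (π h : H)⁻¹ := by
    intro h x
    have h3 : (π h : H) * x * (π h : H)⁻¹ ∈ D := hD.conj_mem _ x.2 _
    have h4 := hab _ (hπ h) _ h3
    calc h * x * h⁻¹ = (h * (π h : H)⁻¹) * ((π h : H) * x * (π h : H)⁻¹) *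
          (h * (π h : H)⁻¹)⁻¹ := by group
      _ = (π h : H) * x * (π h : H)⁻¹ := by rw [h4, mul_inv_cancel_right]
  obtain ⟨I, hI⟩ : ∃ I, I = fxG D hD (fun x : D => ((α x : ℂˣ) : ℂ)) := ⟨_, rfl⟩
  have hIS : ∀ h : H, h ∈ I ↔ π h ∈ S := by
    intro h
    rw [hI, mem_fxG, hS]
    constructor
    · intro h3 x y hxy
      exact Units.ext (h3 x y (hxy.trans (hcj h x).symm))
    · intro h3 x y hxy
      rw [h3 x y (hxy.trans (hcj h x))]
  have hDI : D ≤ I := by
    intro x hx
    rw [hIS, hπD x hx]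
    exact S.one_mem
  have hidx : I.index = S.index := by
    have h3 : I = S.comap π := by
      ext h
      rw [hIS, Subgroup.mem_comap]
    rw [h3]
    exact Subgroup.index_comap_of_surjective S hsur
  -- the extension of the linear character
  obtain ⟨f, hf⟩ : ∃ f : I →* ℂˣ, ∀ t : I, f t = α ⟨(t : H) * (π t : H)⁻¹, hπ t⟩ := by
    refine ⟨{ toFun := fun t => α ⟨(t : H) * (π t : H)⁻¹, hπ t⟩
              map_one' := ?_
              map_mul' := ?_ }, fun _ => rfl⟩
    · rw [← map_one α]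
      congr 1
      apply Subtype.ext
      show ((1 : I) : H) * (π ((1 : I) : H) : H)⁻¹ = 1
      rw [Subgroup.coe_one, map_one, Subgroup.coe_one, inv_one, mul_one]
    · intro t u
      obtain ⟨y, hy⟩ : ∃ y : D, (y : H) = t * ((u : H) * (π u : H)⁻¹) * (t : H)⁻¹ :=
        ⟨⟨_, hD.conj_mem _ (hπ u) t⟩, rfl⟩
      have h3 : α y = α ⟨(u : H) * (π u : H)⁻¹, hπ u⟩ := by
        have h4 : (t : H) ∈ fxG D hD (fun x : D => ((α x : ℂˣ) : ℂ)) := by
          rw [← hI]; exact t.2
        exact Units.ext ((mem_fxG D hD _ _).1 h4 ⟨(u : H) * (π u : H)⁻¹, hπ u⟩ y hy)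
      have h5 : (⟨((t * u : I) : H) * (π ((t * u : I) : H) : H)⁻¹, hπ _⟩ : D) =
          y * ⟨(t : H) * (π t : H)⁻¹, hπ t⟩ := by
        apply Subtype.ext
        show ((t * u : I) : H) * (π ((t * u : I) : H) : H)⁻¹ = y * ((t : H) * (π t : H)⁻¹)
        rw [Subgroup.coe_mul, map_mul, Subgroup.coe_mul, hy]
        group
      rw [h5, map_mul, h3, mul_comm]
  -- the projection to `S`
  obtain ⟨ρ, hρ⟩ : ∃ ρ : I →* S, ∀ t : I, ((ρ t : S) : N) = π t := by
    refine ⟨(π.comp I.subtype).codRestrict S (fun t => (hIS t).1 t.2), fun _ => rfl⟩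
  have hρs : Function.Surjective ρ := by
    intro s
    have h3 : ((s : N) : H) ∈ I := by
      rw [hIS, hπN]
      exact s.2
    refine ⟨⟨_, h3⟩, Subtype.ext ?_⟩
    rw [hρ]
    exact hπN _
  have h3 := cg D hD (fun x : D => ((α x : ℂˣ) : ℂ)) (cd_lin α) I hI hDI
    (fun t => ((f t : ℂˣ) : ℂ)) (cd_lin f) ?_ (fun t => φ (ρ t)) (Inf_irr ρ hρs φ hφ) ?_ 1 b
    (by rw [map_one, Units.val_one, Nat.cast_one]) (by rw [map_one]; exact hb)
  · obtain ⟨χ, hχ, h4⟩ := h3
    refine ⟨χ, hχ, ?_⟩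
    rw [h4, hidx, one_mul]
  · intro x t htx
    show ((f t : ℂˣ) : ℂ) = ((α x : ℂˣ) : ℂ)
    rw [hf]
    congr 2
    apply Subtype.ext
    show (t : H) * (π t : H)⁻¹ = x
    rw [htx, hπD _ x.2, Subgroup.coe_one, inv_one, mul_one]
  · intro t ht
    have h4 : ρ t = 1 := by
      apply Subtype.ext
      rw [hρ, hπD _ ht]
      rfl
    show φ (ρ t) = φ (ρ 1)
    rw [h4, map_one]
-- END cd

-- BEGIN ce
private theorem ce_lin {B : Type} [Group B] (η : B → ℂ) (hη : η ∈ Irr B) (h1 : η 1 = 1) :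
    ∃ w : B →* ℂˣ, ∀ b, η b = ((w b : ℂˣ) : ℂ) := by
  obtain ⟨n, ρ, -, rfl⟩ := hη
  have hn : n = 1 := by
    rw [Representation.char_one] at h1
    simpa using h1
  subst hn
  let f : B →* ℂ := (LinearMap.det : Module.End ℂ (Fin 1 → ℂ) →* ℂ).comp ρ
  refine ⟨f.toHomUnits, fun b => ?_⟩
  rw [MonoidHom.coe_toHomUnits]
  change LinearMap.trace ℂ (Fin 1 → ℂ) (ρ b) = LinearMap.det (ρ b)
  rw [← LinearMap.det_toMatrix', LinearMap.trace_eq_matrix_trace ℂ (Pi.basisFun ℂ (Fin 1))]
  rw [Matrix.trace_fin_one, Matrix.det_fin_one]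
  rfl

/-- (ce, size 2) A finite group with only linear irreducible characters is abelian. PROOF. Let `x y = c y x`, `c = x * y * x⁻¹ * y⁻¹`. For every `χ ∈ Irr S`, `χ 1 = 1`, `χ` is a homomorphism into `ℂˣ` (as the private lemma `hj_lin` of Nan/Ch.lean), so `χ c = 1 = χ 1`.
By the column orthogonality (KBL/Col.lean, the second relation; or: the regular character `∑ χ 1 * χ c` is `0` for `c ≠ 1`, look for it in KBL, KBZ, KBY: `Frb_sum` for the trivial subgroup gives it as well) `c = 1`. -/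
theorem lin_ab {S : Type} [Group S] [Finite S] (h : ∀ χ ∈ Irr S, χ 1 = 1) (x y : S) :
    x * y = y * x := by
  have : Fintype S := Fintype.ofFinite S
  obtain ⟨K, X, -, hr, h0, h2⟩ := Col_main S
  have hX : ∀ i, X i ∈ Irr S := fun i => by
    rw [← hr]
    exact Set.mem_range_self i
  by_contra hne
  have hc : x * y * x⁻¹ * y⁻¹ ≠ 1 := by
    intro h3
    apply hne
    rw [mul_inv_eq_one, mul_inv_eq_iff_eq_mul] at h3
    exact h3
  have h3 := h0 (x * y * x⁻¹ * y⁻¹) 1 fun h4 => hc (isConj_one_left.1 h4)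
  have h4 : ∀ i, X i (x * y * x⁻¹ * y⁻¹) * X i (1 : S)⁻¹ = 1 := by
    intro i
    obtain ⟨w, hw⟩ := ce_lin (X i) (hX i) (h _ (hX i))
    have h5 : w (x * y * x⁻¹ * y⁻¹) = 1 := by
      rw [map_mul, map_mul, map_mul, map_inv, map_inv, mul_comm (w x) (w y),
        mul_inv_cancel_right, mul_inv_cancel]
    rw [hw, hw, h5, inv_one, map_one]
    simp
  have h5 := h2 1 1 (IsConj.refl 1)
  have h6 : ∀ i, X i (1 : S) * X i (1 : S)⁻¹ = 1 := by
    intro i
    rw [inv_one, h _ (hX i), mul_one]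
  rw [Finset.sum_congr rfl fun i _ => h4 i] at h3
  rw [Finset.sum_congr rfl fun i _ => h6 i, h3] at h5
  have h7 : (Nat.card S : ℂ) ≠ 0 := by
    have : 0 < Nat.card S := Nat.card_pos
    exact_mod_cast this.ne'
  have h8 : (Nat.card {x : S // IsConj 1 x} : ℂ) ≠ 0 := by
    have : Nonempty {x : S // IsConj 1 x} := ⟨⟨1, IsConj.refl 1⟩⟩
    have : 0 < Nat.card {x : S // IsConj 1 x} := Nat.card_pos
    exact_mod_cast this.ne'
  exact div_ne_zero h7 h8 h5.symm
-- END ce

-- BEGIN cf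
private theorem cf_one (P : Type) [Group P] : (fun _ : P => (1 : ℂ)) ∈ Irr P := by
  refine ⟨1, (1 : P →* ((Fin 1 → ℂ) →ₗ[ℂ] (Fin 1 → ℂ))), ?_, ?_⟩
  · have h1 : IsSimpleOrder (Submodule ℂ (Fin 1 → ℂ)) := by
      have h2 : IsSimpleModule ℂ (Fin 1 → ℂ) := by
        rw [isSimpleModule_iff_finrank_eq_one]
        simp
      exact (isSimpleModule_iff ℂ (Fin 1 → ℂ)).1 h2
    refine { exists_pair_ne := ⟨⊥, ⊤, fun h => ?_⟩, eq_bot_or_eq_top := fun S => ?_ }
    · have h2 := congrArg Subrepresentation.toSubmodule h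
      exact bot_ne_top h2
    · rcases h1.eq_bot_or_eq_top S.toSubmodule with h2 | h2
      · left
        exact Subrepresentation.toSubmodule_injective h2
      · right
        exact Subrepresentation.toSubmodule_injective h2
  · funext g
    show LinearMap.trace ℂ (Fin 1 → ℂ) (1 : (Fin 1 → ℂ) →ₗ[ℂ] (Fin 1 → ℂ)) = 1
    rw [LinearMap.trace_one]
    simp

private theorem cf_lin {P : Type} [Group P] (f : P →* ℂˣ) :
    (fun x : P => ((f x : ℂˣ) : ℂ)) ∈ Irr P := by
  have h1 := LinB_irr f _ (cf_one P)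
  simpa using h1

private theorem cf_sep {S : Type} [Group S] [Finite S] (M : Subgroup S)
    (hab : ∀ x ∈ M, ∀ y ∈ M, x * y = y * x) (a : M) (ha : ∀ f : M →* ℂˣ, f a = 1) : a = 1 := by
  by_contra hne
  letI : CommGroup M :=
    { (inferInstance : Group M) with
      mul_comm := fun x y => Subtype.ext (hab x x.2 y y.2) }
  obtain ⟨f, hf⟩ := CommGroup.exists_apply_ne_one_of_hasEnoughRootsOfUnity M ℂ hne
  exact hf (ha f)

private theorem cf_idx {S : Type} [Group S] [Finite S] (r : ℕ) (hr : r.Prime) (M : Subgroup S)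
    (hM : M.Normal) (R : Sylow r S) (hRM : (R : Subgroup S) ⊔ M = ⊤) : ∃ k : ℕ, M.index = r ^ k := by
  have : Fact r.Prime := ⟨hr⟩
  have h1 : IsPGroup r (S ⧸ M) := by
    refine IsPGroup.of_surjective R.isPGroup' ((QuotientGroup.mk' M).comp (R : Subgroup S).subtype) ?_
    intro q
    obtain ⟨s, rfl⟩ := QuotientGroup.mk_surjective q
    have h2 : s ∈ (R : Subgroup S) ⊔ M := by
      rw [hRM]
      exact Subgroup.mem_top s
    obtain ⟨a, ha, m, hm, rfl⟩ := Subgroup.mem_sup_of_normal_right.1 h2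
    refine ⟨⟨a, ha⟩, ?_⟩
    show (QuotientGroup.mk a : S ⧸ M) = QuotientGroup.mk (a * m)
    rw [QuotientGroup.eq]
    simpa using hm
  obtain ⟨k, hk⟩ := IsPGroup.iff_card.1 h1
  exact ⟨k, by rw [Subgroup.index_eq_card, hk]⟩

/-- (cf, size 3) One step of Ito's theorem: `S = R M`, `M` an abelian normal `r'`-subgroup, `R` a Sylow `r`-subgroup. PROOF. Let `λ : M →* ℂˣ`, `θ x = λ x ∈ Irr M`. `clif` gives `χ ∈ Irr S` whose degree is divisible by the index of `fxG M hM θ`; this index divides `M.index`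
(`M ≤ fxG`), a power of `r` (`S = R M`), so it is `1`: all elements of `S` fix `λ`. So `λ (s x s⁻¹ x⁻¹) = 1` for all `λ`, `x ∈ M`, so `s x s⁻¹ = x` (characters of a finite abelian group separate points: `CommGroup.exists_apply_ne_one_of_hasEnoughRootsOfUnity`, or
`lin_ab`-like with Irr). So `M` is central, `R` is normal in `S = R M`. -/
theorem ito_step {S : Type} [Group S] [Finite S] (r : ℕ) (hr : r.Prime)
    (h : ∀ χ ∈ Irr S, ∀ d : ℕ, χ 1 = d → ¬ r ∣ d) (M : Subgroup S) (hM : M.Normal)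
    (hab : ∀ x ∈ M, ∀ y ∈ M, x * y = y * x) (R : Sylow r S) (hRM : (R : Subgroup S) ⊔ M = ⊤) :
    (∀ x ∈ M, ¬ r ∣ orderOf x) → (R : Subgroup S).Normal := by
  intro _
  have hcen : ∀ s : S, ∀ x ∈ M, s * x * s⁻¹ = x := by
    intro s x hx
    have hy : s * x * s⁻¹ ∈ M := hM.conj_mem x hx s
    have h1 : (⟨s * x * s⁻¹, hy⟩ : M) * (⟨x, hx⟩ : M)⁻¹ = 1 := by
      refine cf_sep M hab _ fun f => ?_
      have hθ := cf_lin f
      obtain ⟨χ, hχ, m, hm⟩ := clif M hM _ hθ
      rw [map_one, Units.val_one, mul_one] at hm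
      have h2 := h χ hχ (m * (fxG M hM fun x : M => ((f x : ℂˣ) : ℂ)).index) (by
        rw [hm, Nat.cast_mul])
      have h3 : M ≤ fxG M hM fun x : M => ((f x : ℂˣ) : ℂ) := by
        intro g hg u v huv
        have h4 : v = u := by
          refine Subtype.ext ?_
          rw [huv, hab g hg u u.2, mul_inv_cancel_right]
        rw [h4]
      obtain ⟨k, hk⟩ := cf_idx r hr M hM R hRM
      have h5 := Subgroup.index_dvd_of_le h3
      rw [hk] at h5
      obtain ⟨j, -, hj⟩ := (Nat.dvd_prime_pow hr).1 h5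
      have h6 : j = 0 := by
        by_contra h0
        refine h2 ((?_ : r ∣ _).mul_left m)
        rw [hj]
        exact dvd_pow_self r h0
      rw [h6, pow_zero, Subgroup.index_eq_one] at hj
      have h7 : s ∈ fxG M hM fun x : M => ((f x : ℂˣ) : ℂ) := by
        rw [hj]
        exact Subgroup.mem_top s
      have h8 := h7 ⟨x, hx⟩ ⟨s * x * s⁻¹, hy⟩ rfl
      have h9 : f ⟨s * x * s⁻¹, hy⟩ = f ⟨x, hx⟩ := Units.ext h8
      rw [map_mul, map_inv, h9, mul_inv_cancel]
    have h2 := congrArg Subtype.val h1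
    exact mul_inv_eq_one.1 h2
  refine ⟨fun n hn s => ?_⟩
  have h2 : s ∈ (R : Subgroup S) ⊔ M := by
    rw [hRM]
    exact Subgroup.mem_top s
  obtain ⟨a, ha, m, hm, rfl⟩ := Subgroup.mem_sup_of_normal_right.1 h2
  have h3 : n * m = m * n := by
    have h4 := hcen n m hm
    rw [mul_inv_eq_iff_eq_mul] at h4
    exact h4
  have h5 : a * m * n * (a * m)⁻¹ = a * n * a⁻¹ := by
    rw [mul_inv_rev, mul_assoc a m n, ← h3]
    group
  show a * m * n * (a * m)⁻¹ ∈ (R : Subgroup S)
  rw [h5]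
  exact (R : Subgroup S).mul_mem ((R : Subgroup S).mul_mem ha hn) ((R : Subgroup S).inv_mem ha)
-- END cf

-- BEGIN cg
/-- a minimal normal subgroup -/
private theorem cg_min {Q : Type} [Group Q] [Finite Q] [Nontrivial Q] (hs : Group.IsSolvable Q) :
    ∃ q : ℕ, q.Prime ∧ ∃ D : Subgroup Q, D.Normal ∧ D ≠ ⊥ ∧ IsPGroup q D ∧
      ∀ x ∈ D, ∀ y ∈ D, x * y = y * x := by
  have := hs
  have hTn : (⊤ : Subgroup Q).Normal ∧ (⊤ : Subgroup Q) ≠ ⊥ := ⟨inferInstance, top_ne_bot⟩
  obtain ⟨M, ⟨hM1, hM2⟩, hmin⟩ := WellFounded.has_min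
    (wellFounded_lt (α := Subgroup Q)) {M | M.Normal ∧ M ≠ ⊥} ⟨⊤, hTn⟩
  have hcm : ⁅M, M⁆ = ⊥ := by
    by_contra hcon
    have hlt : ⁅M, M⁆ < M := Group.IsSolvable.commutator_lt_of_ne_bot hM2
    exact hmin ⁅M, M⁆ ⟨Subgroup.commutator_normal M M, hcon⟩ hlt
  have hcom : ∀ a ∈ M, ∀ b ∈ M, a * b = b * a := by
    intro a ha b hb
    have h1 : a * b * a⁻¹ * b⁻¹ ∈ ⁅M, M⁆ := by
      rw [← commutatorElement_def]
      exact Subgroup.commutator_mem_commutator ha hb
    rw [hcm, Subgroup.mem_bot, mul_inv_eq_one, mul_inv_eq_iff_eq_mul] at h1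
    exact h1
  have hc : Nat.card M ≠ 1 := fun h => hM2 (Subgroup.card_eq_one.1 h)
  obtain ⟨r, hr, hrd⟩ := Nat.exists_prime_and_dvd hc
  have : Fact r.Prime := ⟨hr⟩
  obtain ⟨a, ha⟩ := exists_prime_orderOf_dvd_card' (G := M) r hrd
  let D : Subgroup Q :=
    { carrier := {x | x ∈ M ∧ x ^ r = 1}
      one_mem' := ⟨M.one_mem, one_pow r⟩
      mul_mem' := by
        rintro x y ⟨hx, hx'⟩ ⟨hy, hy'⟩
        refine ⟨M.mul_mem hx hy, ?_⟩
        have hxy : Commute x y := hcom x hx y hy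
        rw [hxy.mul_pow, hx', hy', one_mul]
      inv_mem' := by
        rintro x ⟨hx, hx'⟩
        refine ⟨M.inv_mem hx, ?_⟩
        rw [inv_pow, hx', inv_one] }
  refine ⟨r, hr, D, ⟨?_⟩, ?_, ?_, fun x hx y hy => hcom x hx.1 y hy.1⟩
  · rintro x ⟨hx, hx'⟩ g
    refine ⟨hM1.conj_mem x hx g, ?_⟩
    rw [conj_pow, hx', mul_one, mul_inv_cancel]
  · intro hD
    have h1 : (a : Q) ∈ D := by
      refine ⟨a.2, ?_⟩
      rw [← Subgroup.coe_pow, ← ha, pow_orderOf_eq_one, Subgroup.coe_one]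
    rw [hD, Subgroup.mem_bot] at h1
    have h2 : a = 1 := Subtype.ext h1
    rw [h2, orderOf_one] at ha
    exact hr.one_lt.ne ha
  · rintro ⟨x, hx⟩
    refine ⟨1, Subtype.ext ?_⟩
    rw [pow_one, Subgroup.coe_pow, Subgroup.coe_one]
    exact hx.2

/-- normal subgroups inherit the hypothesis -/
private theorem cg_sub {S : Type} [Group S] [Finite S] (r : ℕ)
    (h : ∀ χ ∈ Irr S, ∀ d : ℕ, χ 1 = d → ¬ r ∣ d) (N : Subgroup S) (hN : N.Normal) :
    ∀ χ ∈ Irr N, ∀ d : ℕ, χ 1 = d → ¬ r ∣ d := by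
  intro θ hθ d hd hrd
  obtain ⟨χ, hχ, m, hm⟩ := clif N hN θ hθ
  refine h χ hχ (m * (fxG N hN θ).index * d) ?_ (Dvd.dvd.mul_left hrd _)
  rw [hm, hd]
  push_cast
  ring

/-- the Sylow subgroup is normal -/
private theorem cg_nor (r : ℕ) (hr : r.Prime) (n : ℕ) : ∀ (S : Type) (_ : Group S) (_ : Finite S),
    Nat.card S ≤ n → Group.IsSolvable S → (∀ χ ∈ Irr S, ∀ d : ℕ, χ 1 = d → ¬ r ∣ d) →
    ∀ R : Sylow r S, (R : Subgroup S).Normal := by
  have : Fact r.Prime := ⟨hr⟩
  induction n with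
  | zero =>
    intro S _ _ hn
    have h1 : 0 < Nat.card S := Nat.card_pos
    omega
  | succ n ih =>
    intro S _ _ hn hs h R
    rcases subsingleton_or_nontrivial S with hS | hS
    · refine ⟨fun x hx g => ?_⟩
      rw [Subsingleton.elim (g * x * g⁻¹) x]
      exact hx
    obtain ⟨q, hq, M, hM, hMb, hMq, hMc⟩ := cg_min hs
    have hsq : Group.IsSolvable (S ⧸ M) := by
      have := hs
      infer_instance
    have hcq : Nat.card (S ⧸ M) ≤ n := by
      have h1 := Subgroup.card_mul_index M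
      have h2 : Nat.card M ≠ 1 := fun h => hMb (Subgroup.card_eq_one.1 h)
      have h3 : 0 < Nat.card M := Nat.card_pos
      have h4 : 0 < M.index := Nat.pos_of_ne_zero Subgroup.index_ne_zero_of_finite
      have h5 : Nat.card (S ⧸ M) = M.index := rfl
      rw [h5]
      have h6 : 2 * M.index ≤ Nat.card S := by
        rw [← h1]
        exact Nat.mul_le_mul_right _ (by omega)
      omega
    have hR' := ih (S ⧸ M) inferInstance inferInstance hcq hsq (fun χ hχ d hd =>
      h _ (Inf_irr (QuotientGroup.mk' M) (QuotientGroup.mk'_surjective M) χ hχ) d (by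
        rw [map_one]; exact hd)) (R.mapSurjective (QuotientGroup.mk'_surjective M))
    have hK : ((R : Subgroup S) ⊔ M).Normal := by
      have h1 := hR'.comap (QuotientGroup.mk' M)
      rw [Sylow.coe_mapSurjective, Subgroup.comap_map_eq, QuotientGroup.ker_mk'] at h1
      exact h1
    by_cases hqr : q = r
    · subst hqr
      have h1 := nor_syl q hq M hM hMq R
      rw [sup_eq_left.2 h1] at hK
      exact hK
    by_cases hKt : (R : Subgroup S) ⊔ M = ⊤
    · refine ito_step r hr h M hM hMc R hKt fun x hx hd => ?_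
      obtain ⟨k, hk⟩ := hMq ⟨x, hx⟩
      have h1 : x ^ q ^ k = 1 := congrArg Subtype.val hk
      have h2 : r ∣ q ^ k := hd.trans (orderOf_dvd_of_pow_eq_one h1)
      exact hqr ((Nat.prime_dvd_prime_iff_eq hr hq).1 (hr.dvd_of_dvd_pow h2)).symm
    · have hRK : (R : Subgroup S) ≤ (R : Subgroup S) ⊔ M := le_sup_left
      have hcK : Nat.card ((R : Subgroup S) ⊔ M : Subgroup S) ≤ n := by
        have h1 := Subgroup.card_mul_index ((R : Subgroup S) ⊔ M)
        have h2 : ((R : Subgroup S) ⊔ M).index ≠ 1 := fun h => hKt (Subgroup.index_eq_one.1 h)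
        have h3 : 0 < Nat.card ((R : Subgroup S) ⊔ M : Subgroup S) := Nat.card_pos
        have h4 : 0 < ((R : Subgroup S) ⊔ M).index :=
          Nat.pos_of_ne_zero Subgroup.index_ne_zero_of_finite
        have h6 : Nat.card ((R : Subgroup S) ⊔ M : Subgroup S) * 2 ≤ Nat.card S := by
          rw [← h1]
          exact Nat.mul_le_mul_left _ (by omega)
        omega
      have hsK : Group.IsSolvable ((R : Subgroup S) ⊔ M : Subgroup S) := by
        have := hs
        infer_instance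
      have h1 := ih _ inferInstance inferInstance hcK hsK (cg_sub r h _ hK) (R.subtype hRK)
      have h2 := Sylow.characteristic_of_normal (R.subtype hRK) h1
      have := hK
      have h3 : ((R.subtype hRK : Subgroup ((R : Subgroup S) ⊔ M : Subgroup S)).map
          ((R : Subgroup S) ⊔ M).subtype).Normal := ConjAct.normal_of_characteristic_of_normal
      rw [Sylow.coe_subtype, Subgroup.map_subgroupOf_eq_of_le hRK] at h3
      exact h3

/-- (cg, size 4) The theorem of Ito for solvable groups (the Sylow `r`-subgroup is normal and abelian). PROOF. Induction on `card S` (for all solvable `S`). (1) Normal subgroups and factor groups inherit the hypothesis (`clif`: the degree of a character over `θ` is a multiple of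
`θ 1`; `Inf_irr`). (2) If the Sylow subgroup `R` is normal: the characters of `R` have degrees prime to `r` by (1), and they divide `card R` (`Cdeg_dvd`), so they are linear, so `R` is abelian (`lin_ab`). (3) `R` is normal: if `S ≠ 1` let `M` be a minimal normal subgroup,
abelian, a `q`-group (as in the private lemma `mn5_min` of Nfv/Mn.lean). By induction the Sylow subgroup of `S ⧸ M` is normal, i.e. `R M` is normal in `S` for every Sylow `r`-subgroup `R` of `S`. If `q = r`: `R M = R` (`nor_syl`). If `q ≠ r` and `R M ≠ ⊤`: by (1) and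
induction `R` is normal in `R M`, so it is the only Sylow `r`-subgroup of `R M`, and conjugation by `s ∈ S` maps it to a Sylow `r`-subgroup of `R M`: normal in `S`. If `R M = ⊤`: `ito_step`. -/
theorem ito2 {S : Type} [Group S] [Finite S] (hs : Group.IsSolvable S) (r : ℕ) (hr : r.Prime)
    (h : ∀ χ ∈ Irr S, ∀ d : ℕ, χ 1 = d → ¬ r ∣ d) (R : Sylow r S) :
    (R : Subgroup S).Normal ∧ ∀ x ∈ (R : Subgroup S), ∀ y ∈ (R : Subgroup S), x * y = y * x := by
  have : Fact r.Prime := ⟨hr⟩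
  have hn := cg_nor r hr (Nat.card S) S inferInstance inferInstance le_rfl hs h R
  refine ⟨hn, fun x hx y hy => ?_⟩
  have h1 : ∀ χ ∈ Irr (R : Subgroup S), χ 1 = 1 := by
    intro χ hχ
    let _ : Fintype (R : Subgroup S) := Fintype.ofFinite _
    obtain ⟨d, hd, hd1⟩ := irr_deg hχ
    have h2 := cg_sub r h _ hn χ hχ d hd1
    have h3 := Cdeg_dvd χ hχ d hd1
    obtain ⟨k, hk⟩ := IsPGroup.iff_card.1 R.isPGroup'
    rw [hk] at h3
    obtain ⟨i, -, hi⟩ := (Nat.dvd_prime_pow hr).1 h3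
    rcases Nat.eq_zero_or_pos i with hi0 | hi0
    · rw [hd1, hi, hi0, pow_zero, Nat.cast_one]
    · exact absurd (hi ▸ dvd_pow_self r hi0.ne') h2
  have h4 := lin_ab h1 ⟨x, hx⟩ ⟨y, hy⟩
  exact congrArg Subtype.val h4
-- END cg

end Pool.Agent.R12
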