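import Pool.Agent.Nfv.Cn

/-! A vector which no Sylow `r`-subgroup fixes, for `r = 3` and all `r ≥ 5`, if a prime `≥ 5`
divides `e`. -/

set_option autoImplicit false

namespace Pool.Agent.R12c

open Pool.Agent.Nan Pool.Agent.Nas Pool.Agent.Nfv

section
variable {L : Type} [Group L] [Finite L] {U N : Subgroup L}

/-- The actions on `N / U` of the elements `x` of the centralizer of `U` with `x ^ 3 = 1`. -/
def A3 (U N : Subgroup L) : Set (N → L ⧸ U) :=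
  {φ | ∃ x : L, (∀ u ∈ U, x * u = u * x) ∧ x ^ 3 = 1 ∧
    ∀ y : N, φ y = ((x * (y : L) * x⁻¹ : L) : L ⧸ U)}

-- BEGIN da1
/-- (da1, size 3) The orthogonal complement of `a` modulo `U` is generated by `a`. PROOF. Let `D` be the subgroup of the elements of `N` which commute with `a`. `U ≤ D` (`hP.cU`), `D ≠ N` (otherwise `a ∈ U` by `hP.cen`), `a ∈ D`, `a ∉ U`. So `U.relIndex D` divides `s ^ 2`
(`relIndex_mul_relIndex`), is not `1` and not `s ^ 2`: it is `s`. `D / U` is a group of prime order `s`, generated by the class of `a`, so the class of `z` is the class of `a ^ k`, `k < s`. -/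
theorem perp (hP : Prg U N) (hU : U.Normal) (s : ℕ) (hs : s.Prime) (hN : U.relIndex N = s ^ 2)
    (a z : L) (ha : a ∈ N) (haU : a ∉ U) (hz : z ∈ N) (haz : a * z = z * a) :
    ∃ k : ℕ, k < s ∧ z * (a ^ k)⁻¹ ∈ U := by
  classical
  haveI := Fact.mk hs
  set D : Subgroup L := N ⊓ Subgroup.centralizer {a} with hD
  have hDm : ∀ x, x ∈ D ↔ x ∈ N ∧ a * x = x * a := by
    intro x
    rw [hD, Subgroup.mem_inf, Subgroup.mem_centralizer_iff]
    simp
  have hUD : U ≤ D := fun u hu => (hDm u).2 ⟨hP.UE hu, hP.cU a ha u hu⟩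
  have hDN : D ≤ N := inf_le_left
  have haD : a ∈ D := (hDm a).2 ⟨ha, rfl⟩
  have hzD : z ∈ D := (hDm z).2 ⟨hz, haz⟩
  have h1 : U.relIndex D * D.relIndex N = s ^ 2 := by
    rw [Subgroup.relIndex_mul_relIndex _ _ _ hUD hDN, hN]
  have h2 : U.relIndex D ≠ 1 := by
    rw [Ne, Subgroup.relIndex_eq_one]
    exact fun h => haU (h haD)
  have h3 : D.relIndex N ≠ 1 := by
    rw [Ne, Subgroup.relIndex_eq_one]
    intro h
    exact haU (hP.cen a ha fun y hy => ((hDm y).1 (h hy)).2)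
  have h4 : U.relIndex D = s := by
    obtain ⟨i, hi, h5⟩ := (Nat.dvd_prime_pow hs).1 (Dvd.intro _ h1)
    have hi0 : i ≠ 0 := by
      rintro rfl
      exact h2 (by rw [h5, pow_zero])
    have hi2 : i ≠ 2 := by
      rintro rfl
      rw [h5] at h1
      have h6 : 0 < s ^ 2 := pow_pos hs.pos 2
      exact h3 (Nat.eq_of_mul_eq_mul_left h6 (by rw [h1, mul_one]))
    have hi1 : i = 1 := by omega
    rw [h5, hi1, pow_one]
  -- the quotient
  haveI : (U.subgroupOf D).Normal := inferInstance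
  have hcard : Nat.card (D ⧸ U.subgroupOf D) = s := h4
  set π : D →* D ⧸ U.subgroupOf D := QuotientGroup.mk' _ with hπ
  have hπ1 : ∀ x : D, π x = 1 ↔ (x : L) ∈ U := by
    intro x
    rw [hπ, QuotientGroup.mk'_apply, QuotientGroup.eq_one_iff, Subgroup.mem_subgroupOf]
  have ha1 : π ⟨a, haD⟩ ≠ 1 := by
    rw [Ne, hπ1]
    exact haU
  have hord : orderOf (π ⟨a, haD⟩) = s := by
    have h5 : orderOf (π ⟨a, haD⟩) ∣ s := hcard ▸ orderOf_dvd_natCard _
    rcases (Nat.dvd_prime hs).1 h5 with h6 | h6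
    · exact absurd (orderOf_eq_one_iff.1 h6) ha1
    · exact h6
  have htop : Subgroup.zpowers (π ⟨a, haD⟩) = ⊤ := by
    apply Subgroup.eq_top_of_card_eq
    rw [Nat.card_zpowers, hord, hcard]
  have hzz : π ⟨z, hzD⟩ ∈ Subgroup.zpowers (π ⟨a, haD⟩) := by
    rw [htop]
    exact Subgroup.mem_top _
  obtain ⟨k, hk, hk2⟩ := (mem_zpowers_iff_mem_range_orderOf.1 hzz |> Finset.mem_image.1)
  rw [Finset.mem_range, hord] at hk
  refine ⟨k, hk, ?_⟩
  have h7 : π (⟨z, hzD⟩ * (⟨a, haD⟩ ^ k)⁻¹) = 1 := by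
    rw [map_mul, map_inv, map_pow, ← hk2, mul_inv_cancel]
  rw [hπ1] at h7
  exact h7
-- END da1

-- BEGIN da2
/-- (da2, size 2) `1 + x + x ^ 2 = 0`. PROOF. Put `z = y * (x * y * x⁻¹) * (x ^ 2 * y * (x ^ 2)⁻¹)`. `x * z * x⁻¹ = (x * y * x⁻¹) * (x ^ 2 * y * (x ^ 2)⁻¹) * y` as `x ^ 3 = 1`; since commutators of elements of `N` are in `U` (`hcom`), this is `z` modulo `U`.
So `x * z * x⁻¹ * z⁻¹ ∈ U`, and `z ∈ U` by `hf`. -/
theorem sum3 (hU : U.Normal) (hNn : N.Normal) (hcom : ∀ x ∈ N, ∀ y ∈ N, x * y * x⁻¹ * y⁻¹ ∈ U)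
    (x : L) (hx3 : x ^ 3 = 1) (hf : ∀ y ∈ N, x * y * x⁻¹ * y⁻¹ ∈ U → y ∈ U) (y : L)
    (hy : y ∈ N) : y * (x * y * x⁻¹) * (x ^ 2 * y * (x ^ 2)⁻¹) ∈ U := by
  have hb : x * y * x⁻¹ ∈ N := hNn.conj_mem y hy x
  have hc : x ^ 2 * y * (x ^ 2)⁻¹ ∈ N := hNn.conj_mem y hy (x ^ 2)
  refine hf _ (N.mul_mem (N.mul_mem hy hb) hc) ?_
  have e1 : x * (y * (x * y * x⁻¹) * (x ^ 2 * y * (x ^ 2)⁻¹)) * x⁻¹ =
      (x * y * x⁻¹) * (x ^ 2 * y * (x ^ 2)⁻¹) * (x ^ 3 * y * (x ^ 3)⁻¹) := by group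
  rw [e1, hx3, one_mul, inv_one, mul_one]
  have e2 : x * y * x⁻¹ * (x ^ 2 * y * (x ^ 2)⁻¹) * y *
      (y * (x * y * x⁻¹) * (x ^ 2 * y * (x ^ 2)⁻¹))⁻¹ =
      (x * y * x⁻¹ * (x ^ 2 * y * (x ^ 2)⁻¹)) * y *
        (x * y * x⁻¹ * (x ^ 2 * y * (x ^ 2)⁻¹))⁻¹ * y⁻¹ := by
    simp only [mul_inv_rev, mul_assoc, inv_inv]
  rw [e2]
  exact hcom _ (N.mul_mem hb hc) _ hy
-- END da2

-- BEGIN da3
/-- (da3, size 4) An element `x` of the centralizer of `U` with `x ^ 3 = 1` which is not trivial on `N / U` has no fixed point on `N / U`. PROOF. Suppose `y ∉ U`. For `z ∈ N` the commutator `[y, z] = y * z * y⁻¹ * z⁻¹` is in `U`, so it is fixed by `x`: `[y, z] = [x y x⁻¹, x z x⁻¹] = [y, x z x⁻¹]`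
(`x y x⁻¹ = u y` with `u ∈ U`, and `U` is centralized by `N`). So `y` commutes with `δ z = (x z x⁻¹) z⁻¹` (the pairing `[y, ·]` is multiplicative since its values are in `U`), and by `perp` `δ z ∈ ⟨y⟩ U` for all `z ∈ N`. `x` acts trivially on `⟨y⟩ U / U`. So, modulo `U`,
`x ^ k z x ^ (-k) = (δ z) ^ k z`; for `k = 3`: `(δ z) ^ 3 ∈ U`. Since `U.relIndex N = s ^ 2` is prime to 3, `δ z ∈ U` (the order of the class of `δ z` divides `s ^ 2` and `3`). This is a contradiction to `hn`. -/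
theorem fpf3 (hP : Prg U N) (hU : U.Normal) (hNn : N.Normal) (s : ℕ) (hs : s.Prime)
    (hs3 : s ≠ 3) (hN : U.relIndex N = s ^ 2) (x : L) (hx : ∀ u ∈ U, x * u = u * x)
    (hx3 : x ^ 3 = 1) (hn : ∃ y ∈ N, x * y * x⁻¹ * y⁻¹ ∉ U) (y : L) (hy : y ∈ N)
    (hxy : x * y * x⁻¹ * y⁻¹ ∈ U) : y ∈ U := by
  by_contra hyU
  obtain ⟨z, hz, hzU⟩ := hn
  apply hzU
  -- `y` commutes with `x z x⁻¹ z⁻¹`
  have hz' : x * z * x⁻¹ ∈ N := hNn.conj_mem z hz x
  have hd : x * z * x⁻¹ * z⁻¹ ∈ N := N.mul_mem hz' (N.inv_mem hz)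
  have hk : z⁻¹ * y * z * y⁻¹ ∈ U := by
    have := hP.com z⁻¹ (N.inv_mem hz) y hy
    rwa [inv_inv] at this
  have h1 : x * (z⁻¹ * y * z * y⁻¹) * x⁻¹ = z⁻¹ * y * z * y⁻¹ := by
    rw [hx _ hk, mul_inv_cancel_right]
  set z' : L := x * z * x⁻¹ with hz'd
  set u : L := x * y * x⁻¹ * y⁻¹ with hud
  have hxy' : x * y * x⁻¹ = u * y := by rw [hud]; group
  have h2 : x * (z⁻¹ * y * z * y⁻¹) * x⁻¹ = z'⁻¹ * (u * y) * z' * (u * y)⁻¹ := by
    rw [← hxy', hz'd]; group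
  have h3 : z'⁻¹ * (u * y) * z' * (u * y)⁻¹ = z'⁻¹ * y * z' * y⁻¹ := by
    have c1 : z' * u = u * z' := hP.cU z' hz' u hxy
    have c2 : y * u = u * y := hP.cU y hy u hxy
    have c3 : z'⁻¹ * u = u * z'⁻¹ := hP.cU _ (N.inv_mem hz') u hxy
    calc z'⁻¹ * (u * y) * z' * (u * y)⁻¹ = (z'⁻¹ * u) * y * z' * y⁻¹ * u⁻¹ := by group
      _ = u * (z'⁻¹ * y * z' * y⁻¹) * u⁻¹ := by rw [c3]; group
      _ = (z'⁻¹ * y * z' * y⁻¹) * u * u⁻¹ := by
          rw [hP.cU _ (N.mul_mem (N.mul_mem (N.mul_mem (N.inv_mem hz') hy) hz') (N.inv_mem hy))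
            u hxy]
      _ = _ := by group
  have h4 : z⁻¹ * y * z * y⁻¹ = z'⁻¹ * y * z' * y⁻¹ := by
    rw [← h1, h2, h3]
  have h5 : z⁻¹ * y * z = z'⁻¹ * y * z' := mul_right_cancel h4
  have hyd : y * (z' * z⁻¹) = z' * z⁻¹ * y := by
    have h6 : z' * (z⁻¹ * y * z) * z⁻¹ = z' * (z'⁻¹ * y * z') * z⁻¹ := by rw [h5]
    have h7 : z' * (z⁻¹ * y * z) * z⁻¹ = z' * z⁻¹ * y := by group
    have h8 : z' * (z'⁻¹ * y * z') * z⁻¹ = y * (z' * z⁻¹) := by group
    rw [← h7, ← h8, h6]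
  obtain ⟨k, -, hkU⟩ := perp hP hU s hs hN y _ hy hyU hd hyd
  -- `x` fixes `d` modulo `U`
  set d : L := z' * z⁻¹ with hdd
  have hxk : ∀ m : ℕ, x * y ^ m * x⁻¹ * (y ^ m)⁻¹ ∈ U := by
    intro m
    have e1 : x * y ^ m * x⁻¹ = (u * y) ^ m := by
      rw [← hxy', conj_pow]
    have e2 : (u * y) ^ m = u ^ m * y ^ m :=
      (Commute.mul_pow (show Commute u y from (hP.cU y hy u hxy).symm) m)
    rw [e1, e2, mul_inv_cancel_right]
    exact U.pow_mem hxy m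
  have hxd : x * d * x⁻¹ * d⁻¹ ∈ U := by
    set w : L := d * (y ^ k)⁻¹ with hwd
    have hdw : d = w * y ^ k := by rw [hwd]; group
    have hxw : x * w = w * x := hx w hkU
    have e1 : x * d * x⁻¹ * d⁻¹ = w * (x * y ^ k * x⁻¹ * (y ^ k)⁻¹) * w⁻¹ := by
      rw [hdw]
      calc x * (w * y ^ k) * x⁻¹ * (w * y ^ k)⁻¹ = (x * w) * y ^ k * x⁻¹ * (y ^ k)⁻¹ * w⁻¹ := by
            group
        _ = (w * x) * y ^ k * x⁻¹ * (y ^ k)⁻¹ * w⁻¹ := by rw [hxw]
        _ = _ := by group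
    rw [e1]
    exact hU.conj_mem _ (hxk k) w
  -- the third power
  set v : L := x * d * x⁻¹ * d⁻¹ with hvd
  have hxdv : x * d * x⁻¹ = v * d := by rw [hvd]; group
  have hxz : x * z * x⁻¹ = d * z := by
    change z' = d * z
    rw [hdd]; group
  have hxv : x * v * x⁻¹ = v := by rw [hx v hxd, mul_inv_cancel_right]
  have hvdc : d * v = v * d := hP.cU d hd v hxd
  have q2 : x ^ 2 * z * (x ^ 2)⁻¹ = v * d ^ 2 * z := by
    calc x ^ 2 * z * (x ^ 2)⁻¹ = x * (x * z * x⁻¹) * x⁻¹ := by rw [pow_two]; group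
      _ = x * (d * z) * x⁻¹ := by rw [hxz]
      _ = (x * d * x⁻¹) * (x * z * x⁻¹) := by group
      _ = (v * d) * (d * z) := by rw [hxdv, hxz]
      _ = v * d ^ 2 * z := by rw [pow_two]; group
  have q3 : x ^ 3 * z * (x ^ 3)⁻¹ = v ^ 3 * d ^ 3 * z := by
    calc x ^ 3 * z * (x ^ 3)⁻¹ = x * (x ^ 2 * z * (x ^ 2)⁻¹) * x⁻¹ := by
          rw [pow_succ, pow_two]; group
      _ = x * (v * d ^ 2 * z) * x⁻¹ := by rw [q2]
      _ = (x * v * x⁻¹) * (x * d * x⁻¹) * (x * d * x⁻¹) * (x * z * x⁻¹) := by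
          rw [pow_two]; group
      _ = v * (v * d) * (v * d) * (d * z) := by rw [hxv, hxdv, hxz]
      _ = v * v * (d * v) * d * d * z := by group
      _ = v * v * (v * d) * d * d * z := by rw [hvdc]
      _ = v ^ 3 * d ^ 3 * z := by simp only [pow_succ, pow_zero, one_mul, mul_assoc]
  have q4 : v ^ 3 * d ^ 3 = 1 := by
    rw [hx3, one_mul, inv_one, mul_one] at q3
    have : v ^ 3 * d ^ 3 * z = 1 * z := by rw [← q3, one_mul]
    exact mul_right_cancel this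
  have q5 : d ^ 3 ∈ U := by
    have : d ^ 3 = (v ^ 3)⁻¹ := by
      rw [eq_inv_iff_mul_eq_one]
      have c : Commute (d ^ 3) (v ^ 3) := (show Commute d v from hvdc).pow_pow 3 3
      rw [c.eq, q4]
    rw [this]
    exact U.inv_mem (U.pow_mem hxd 3)
  have q6 : d ^ (s ^ 2) ∈ U := by
    rw [← hN]
    have hUn : (U.subgroupOf N).Normal := hU.subgroupOf N
    have := Subgroup.pow_index_mem (U.subgroupOf N) (⟨d, hd⟩ : N)
    rw [Subgroup.mem_subgroupOf] at this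
    exact this
  have hcop : Nat.Coprime 3 (s ^ 2) :=
    Nat.Coprime.pow_right 2 ((Nat.coprime_primes Nat.prime_three hs).2 (Ne.symm hs3))
  have q7 : ((d : L) : L ⧸ U) = 1 := by
    have a1 : ((d : L) : L ⧸ U) ^ 3 = 1 := by
      rw [← QuotientGroup.mk_pow]
      exact (QuotientGroup.eq_one_iff _).2 q5
    have a2 : ((d : L) : L ⧸ U) ^ (s ^ 2) = 1 := by
      rw [← QuotientGroup.mk_pow]
      exact (QuotientGroup.eq_one_iff _).2 q6
    have a3 := Nat.dvd_gcd (orderOf_dvd_of_pow_eq_one a1) (orderOf_dvd_of_pow_eq_one a2)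
    rw [hcop.gcd_eq_one, Nat.dvd_one, orderOf_eq_one_iff] at a3
    exact a3
  exact (QuotientGroup.eq_one_iff _).1 q7
-- END da3

-- BEGIN da4
/-- Two conjugations which agree on `α` and on `g` outside `⟨α⟩` agree on `V` (order `s ^ 2`). -/
theorem da4_agree {Q : Type} [Group Q] [Finite Q] (V : Subgroup Q) (s : ℕ) (hs : s.Prime)
    (hV : Nat.card V = s ^ 2) (α g : Q) (hα : α ∈ V) (ho : orderOf α = s) (hg : g ∈ V)
    (hgα : g ∉ Subgroup.zpowers α) (ξ ξ' : Q) (h1 : ξ * α * ξ⁻¹ = ξ' * α * ξ'⁻¹)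
    (h2 : ξ * g * ξ⁻¹ = ξ' * g * ξ'⁻¹) (v : Q) (hv : v ∈ V) :
    ξ * v * ξ⁻¹ = ξ' * v * ξ'⁻¹ := by
  set K : Subgroup Q := MonoidHom.eqLocus (MulAut.conj ξ).toMonoidHom (MulAut.conj ξ').toMonoidHom with hK
  have hmem : ∀ q : Q, q ∈ K ↔ ξ * q * ξ⁻¹ = ξ' * q * ξ'⁻¹ := by
    intro q; rfl
  have hAK : Subgroup.zpowers α ≤ K ⊓ V := by
    rw [Subgroup.zpowers_le]
    exact ⟨(hmem α).2 h1, hα⟩
  have hcA : Nat.card (Subgroup.zpowers α) = s := by rw [Nat.card_zpowers, ho]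
  have hd1 : s ∣ Nat.card (K ⊓ V : Subgroup Q) := by
    rw [← hcA]; exact Subgroup.card_dvd_of_le hAK
  have hd2 : Nat.card (K ⊓ V : Subgroup Q) ∣ s ^ 2 := by
    rw [← hV]; exact Subgroup.card_dvd_of_le inf_le_right
  have hne : Nat.card (K ⊓ V : Subgroup Q) ≠ s := by
    intro hcard
    have : Subgroup.zpowers α = K ⊓ V :=
      Subgroup.eq_of_le_of_card_ge hAK (by rw [hcard, hcA])
    apply hgα
    rw [this]
    exact ⟨(hmem g).2 h2, hg⟩
  have hcard : Nat.card (K ⊓ V : Subgroup Q) = s ^ 2 := by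
    obtain ⟨i, hi, hi2⟩ := (Nat.dvd_prime_pow hs).1 hd2
    interval_cases i
    · rw [hi2, pow_zero] at hd1
      exact absurd (Nat.dvd_one.1 hd1) hs.one_lt.ne'
    · rw [pow_one] at hi2; exact absurd hi2 hne
    · exact hi2
  have : K ⊓ V = V := Subgroup.eq_of_le_of_card_ge inf_le_right (by rw [hcard, hV])
  have h3 : v ∈ K ⊓ V := by rw [this]; exact hv
  exact (hmem v).1 h3.1

/-- The order of the class of `a`. -/
theorem da4_ord (hP : Prg U N) (hU : U.Normal) (s : ℕ) (hs : s.Prime) (hN : U.relIndex N = s ^ 2)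
    (a : L) (ha : a ∈ N) (haU : a ∉ U) : orderOf (a : L ⧸ U) = s := by
  have hcV : Nat.card (N.map (QuotientGroup.mk' U)) = s ^ 2 := by
    rw [← Subgroup.relIndex_ker, QuotientGroup.ker_mk', hN]
  have h1 : (a : L ⧸ U) ≠ 1 := by
    intro h; exact haU ((QuotientGroup.eq_one_iff a).1 h)
  obtain ⟨k, hk, hk2⟩ := perp hP hU s hs hN a (a ^ s) ha haU (N.pow_mem ha s)
    (by rw [← pow_succ', pow_succ])
  have h2 : (a : L ⧸ U) ^ (s - k) = 1 := by
    have h3 : a ^ s * (a ^ k)⁻¹ = a ^ (s - k) := by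
      rw [pow_sub a hk.le]
    rw [h3] at hk2
    have := (QuotientGroup.eq_one_iff (a ^ (s - k))).2 hk2
    simpa using this
  have h4 : orderOf (a : L ⧸ U) ∣ s - k := orderOf_dvd_of_pow_eq_one h2
  have h5 : orderOf (a : L ⧸ U) ≤ s := le_trans (Nat.le_of_dvd (by omega) h4) (by omega)
  have h6 : orderOf (a : L ⧸ U) ∣ s ^ 2 := by
    rw [← hcV, ← Nat.card_zpowers]
    apply Subgroup.card_dvd_of_le
    rw [Subgroup.zpowers_le]
    exact ⟨a, ha, rfl⟩
  obtain ⟨i, hi, hi2⟩ := (Nat.dvd_prime_pow hs).1 h6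
  interval_cases i
  · rw [pow_zero, orderOf_eq_one_iff] at hi2; exact absurd hi2 h1
  · rw [hi2, pow_one]
  · rw [hi2] at h5
    have := hs.one_lt
    nlinarith

/-- The fibre of the actions with a given value at `a` in `⟨a⟩`. -/
theorem da4_fib (hP : Prg U N) (hU : U.Normal) (s : ℕ) (hs : s.Prime) (hN : U.relIndex N = s ^ 2)
    (hNn : N.Normal) (a b : L) (ha : a ∈ N) (haU : a ∉ U) (hb : b ∈ N)
    (hbA : (b : L ⧸ U) ∉ Subgroup.zpowers (a : L ⧸ U)) (g : L ⧸ U)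
    (hg : g ∈ Subgroup.zpowers (a : L ⧸ U)) :
    Set.ncard {φ : N → L ⧸ U | φ ∈ A3 U N ∧ φ ⟨a, ha⟩ = g} ≤ s := by
  classical
  have hcV : Nat.card (N.map (QuotientGroup.mk' U)) = s ^ 2 := by
    rw [← Subgroup.relIndex_ker, QuotientGroup.ker_mk', hN]
  have hoa := da4_ord hP hU s hs hN a ha haU
  have hcA : Nat.card (Subgroup.zpowers (a : L ⧸ U)) = s := by rw [Nat.card_zpowers, hoa]
  rcases Set.eq_empty_or_nonempty {φ : N → L ⧸ U | φ ∈ A3 U N ∧ φ ⟨a, ha⟩ = g} with he | ⟨φ₀, hφ₀⟩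
  · rw [he, Set.ncard_empty]; exact Nat.zero_le _
  · obtain ⟨⟨x₀, hx₀U, hx₀3, hx₀⟩, hφ₀a⟩ := hφ₀
    have hcoe : (Subgroup.zpowers (a : L ⧸ U) : Set (L ⧸ U)).ncard = s := by
      rw [← Nat.card_coe_set_eq]; exact hcA
    rw [← hcoe]
    apply Set.ncard_le_ncard_of_injOn (fun φ : N → L ⧸ U => φ ⟨b, hb⟩ * (φ₀ ⟨b, hb⟩)⁻¹)
    · rintro φ ⟨⟨x, hxU, hx3, hx⟩, hφa⟩
      simp only [SetLike.mem_coe]
      -- the pairing
      have hab : a * b * a⁻¹ * b⁻¹ ∈ U := hP.com a ha b hb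
      have hconj : ∀ y : L, (∀ u ∈ U, y * u = u * y) →
          (y * a * y⁻¹) * (y * b * y⁻¹) * (y * a * y⁻¹)⁻¹ * (y * b * y⁻¹)⁻¹ = a * b * a⁻¹ * b⁻¹ := by
        intro y hy
        have h1 : y * (a * b * a⁻¹ * b⁻¹) = (a * b * a⁻¹ * b⁻¹) * y := hy _ hab
        calc (y * a * y⁻¹) * (y * b * y⁻¹) * (y * a * y⁻¹)⁻¹ * (y * b * y⁻¹)⁻¹
            = y * (a * b * a⁻¹ * b⁻¹) * y⁻¹ := by group
          _ = a * b * a⁻¹ * b⁻¹ := by rw [h1]; group
      set a1 := x * a * x⁻¹ with ha1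
      set b1 := x * b * x⁻¹ with hb1
      set a0 := x₀ * a * x₀⁻¹ with ha0
      set b0 := x₀ * b * x₀⁻¹ with hb0
      have e1 : a1 * b1 * a1⁻¹ * b1⁻¹ = a0 * b0 * a0⁻¹ * b0⁻¹ := by
        rw [ha1, hb1, ha0, hb0, hconj x hxU, hconj x₀ hx₀U]
      have ha1N : a1 ∈ N := hNn.conj_mem a ha x
      have hb1N : b1 ∈ N := hNn.conj_mem b hb x
      have ha0N : a0 ∈ N := hNn.conj_mem a ha x₀
      have hb0N : b0 ∈ N := hNn.conj_mem b hb x₀
      have ha0U : a0 ∉ U := by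
        intro h
        apply haU
        have := hU.conj_mem a0 h x₀⁻¹
        have h2 : x₀⁻¹ * a0 * x₀⁻¹⁻¹ = a := by rw [ha0]; group
        rwa [h2] at this
      have hπ : ((a1 : L) : L ⧸ U) = ((a0 : L) : L ⧸ U) := by
        have h1 := hx ⟨a, ha⟩
        have h2 := hx₀ ⟨a, ha⟩
        simp only at h1 h2
        rw [ha1, ha0, ← h1, ← h2, hφa, hφ₀a]
      have hu : a1 * a0⁻¹ ∈ U := by
        have h1 : ((a1 * a0⁻¹ : L) : L ⧸ U) = 1 := by
          rw [QuotientGroup.mk_mul, QuotientGroup.mk_inv, hπ, mul_inv_cancel]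
        exact (QuotientGroup.eq_one_iff _).1 h1
      set u := a1 * a0⁻¹ with hudef
      have ha1u : a1 = u * a0 := by rw [hudef]; group
      have e2 : a0 * b1 * a0⁻¹ * b1⁻¹ = a0 * b0 * a0⁻¹ * b0⁻¹ := by
        rw [← e1, ha1u]
        have h1 : (a0 * b1 * a0⁻¹) * u⁻¹ = u⁻¹ * (a0 * b1 * a0⁻¹) :=
          hP.cU _ (N.mul_mem (N.mul_mem ha0N hb1N) (N.inv_mem ha0N)) _ (U.inv_mem hu)
        calc a0 * b1 * a0⁻¹ * b1⁻¹ = u * (u⁻¹ * (a0 * b1 * a0⁻¹)) * b1⁻¹ := by group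
          _ = u * ((a0 * b1 * a0⁻¹) * u⁻¹) * b1⁻¹ := by rw [h1]
          _ = u * a0 * b1 * (u * a0)⁻¹ * b1⁻¹ := by group
      have hzN : b1 * b0⁻¹ ∈ N := N.mul_mem hb1N (N.inv_mem hb0N)
      have hcU : a0 * b0 * a0⁻¹ * b0⁻¹ ∈ U := hP.com a0 ha0N b0 hb0N
      have hcomm : a0 * (b1 * b0⁻¹) = (b1 * b0⁻¹) * a0 := by
        have h1 : a0 * b1 * a0⁻¹ = (a0 * b0 * a0⁻¹ * b0⁻¹) * b1 := by
          rw [← e2]; group
        have h2 : a0 * b0 * a0⁻¹ = (a0 * b0 * a0⁻¹ * b0⁻¹) * b0 := by group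
        have h3 : (b1 * b0⁻¹) * (a0 * b0 * a0⁻¹ * b0⁻¹)  = (a0 * b0 * a0⁻¹ * b0⁻¹) * (b1 * b0⁻¹) :=
          hP.cU _ hzN _ hcU
        have h4 : a0 * (b1 * b0⁻¹) * a0⁻¹ = b1 * b0⁻¹ := by
          calc a0 * (b1 * b0⁻¹) * a0⁻¹ = (a0 * b1 * a0⁻¹) * (a0 * b0 * a0⁻¹)⁻¹ := by group
            _ = ((a0 * b0 * a0⁻¹ * b0⁻¹) * b1) * ((a0 * b0 * a0⁻¹ * b0⁻¹) * b0)⁻¹ := by rw [h1, ← h2]
            _ = ((a0 * b0 * a0⁻¹ * b0⁻¹) * (b1 * b0⁻¹)) * (a0 * b0 * a0⁻¹ * b0⁻¹)⁻¹ := by group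
            _ = b1 * b0⁻¹ := by rw [← h3]; group
        calc a0 * (b1 * b0⁻¹) = (a0 * (b1 * b0⁻¹) * a0⁻¹) * a0 := by group
          _ = _ := by rw [h4]
      obtain ⟨k, hk, hk2⟩ := perp hP hU s hs hN a0 (b1 * b0⁻¹) ha0N ha0U hzN hcomm
      have h5 : ((b1 * b0⁻¹ : L) : L ⧸ U) = ((a0 : L) : L ⧸ U) ^ k := by
        have h6 := (QuotientGroup.eq_one_iff _).2 hk2
        rw [QuotientGroup.mk_mul, QuotientGroup.mk_inv, QuotientGroup.mk_pow] at h6
        exact mul_inv_eq_one.1 h6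
      have h7 : φ ⟨b, hb⟩ = (b1 : L ⧸ U) := hx ⟨b, hb⟩
      have h8 : φ₀ ⟨b, hb⟩ = (b0 : L ⧸ U) := hx₀ ⟨b, hb⟩
      have h9 : ((a0 : L) : L ⧸ U) = g := by
        have := hx₀ ⟨a, ha⟩
        simp only at this
        rw [ha0, ← this, hφ₀a]
      rw [h7, h8, ← QuotientGroup.mk_inv, ← QuotientGroup.mk_mul, h5, h9]
      exact Subgroup.pow_mem _ hg k
    · rintro φ ⟨⟨x, hxU, hx3, hx⟩, hφa⟩ φ' ⟨⟨x', hx'U, hx'3, hx'⟩, hφ'a⟩ heq
      simp only at heq
      have hb' : φ ⟨b, hb⟩ = φ' ⟨b, hb⟩ := mul_right_cancel heq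
      funext y
      have h1 := da4_agree (N.map (QuotientGroup.mk' U)) s hs hcV (a : L ⧸ U) (b : L ⧸ U)
        ⟨a, ha, rfl⟩ hoa ⟨b, hb, rfl⟩ hbA (x : L ⧸ U) (x' : L ⧸ U)
        (by
          have h2 := hx ⟨a, ha⟩
          have h3 := hx' ⟨a, ha⟩
          rw [hφa] at h2
          rw [hφ'a] at h3
          have h4 := h2.symm.trans h3
          simpa using h4)
        (by
          have h2 := hx ⟨b, hb⟩
          have h3 := hx' ⟨b, hb⟩
          rw [hb'] at h2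
          have h4 := h2.symm.trans h3
          simpa using h4)
        ((y : L) : L ⧸ U) ⟨y, y.2, rfl⟩
      rw [hx y, hx' y]
      simpa using h1

/-- (da4, size 5) The number of actions of elements of order 3 on `N / U`. PROOF. `N / U` has `s ^ 2` elements; fix `a ∈ N`, `a ∉ U`, and `b ∈ N`, `b ∉ ⟨a⟩ U`; `N = ⟨a, b⟩ U` (the subgroup `⟨a⟩ U` has index `s` in `N`, `perp`). An action `φ` (of `x`) is determined by `φ a, φ b`. Apart from the trivial action, `x` has no fixed point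
on `N / U` (`fpf3`), and `y · x(y) · x²(y) = 1` in `N / U` (`sum3`). (i) If `x(a) ∉ ⟨a⟩ U`, then `a` and `x(a)` generate `N / U`, and `x(x(a)) = x(a)⁻¹ a⁻¹`, so `φ` is determined by the class `x(a)`: at most `s ^ 2 - s` actions. (ii) If `x(a) = a ^ k` modulo `U`, `k < s`, then `1 + k + k ^ 2` is divisible by `s`
(the order of `a` modulo `U` is `s`): at most 2 values of `k` (roots of a quadratic polynomial in `ZMod s`). For given `k` (`k ≠ 0`): `[x(a), x(b)] = [a, b]` (`x` centralizes `U`), so `x(b)` lies in one coset of the centralizer of `x(a)` in `N`, which is `⟨x(a)⟩ U = ⟨a⟩ U` (`perp`):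
at most `s` classes modulo `U`. Together at most `(s ^ 2 - s) + 2 s + 1`. -/
theorem act3 (hP : Prg U N) (hU : U.Normal) (hNn : N.Normal) (s : ℕ) (hs : s.Prime)
    (hs3 : s ≠ 3) (hN : U.relIndex N = s ^ 2) :
    Nat.card (A3 U N) ≤ s ^ 2 + s + 1 := by
  classical
  have : Fact s.Prime := ⟨hs⟩
  have hcV : Nat.card (N.map (QuotientGroup.mk' U)) = s ^ 2 := by
    rw [← Subgroup.relIndex_ker, QuotientGroup.ker_mk', hN]
  have hs1 := hs.one_lt
  -- a
  have hex : ∃ a ∈ N, a ∉ U := by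
    by_contra hcon
    push Not at hcon
    have h1 : U.relIndex N = 1 := Subgroup.relIndex_eq_one.2 (fun y hy => hcon y hy)
    rw [hN] at h1
    have : 1 < s ^ 2 := Nat.one_lt_pow (by norm_num) hs1
    omega
  obtain ⟨a, ha, haU⟩ := hex
  have hoa := da4_ord hP hU s hs hN a ha haU
  set α : L ⧸ U := (a : L ⧸ U) with hα
  set V : Subgroup (L ⧸ U) := N.map (QuotientGroup.mk' U) with hVdef
  have hαV : α ∈ V := ⟨a, ha, rfl⟩
  have hAV : Subgroup.zpowers α ≤ V := by rw [Subgroup.zpowers_le]; exact hαV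
  have hcA : Nat.card (Subgroup.zpowers α) = s := by rw [Nat.card_zpowers, hoa]
  have hexb : ∃ b ∈ N, (b : L ⧸ U) ∉ Subgroup.zpowers α := by
    by_contra hcon
    push Not at hcon
    have h1 : V ≤ Subgroup.zpowers α := by
      rintro _ ⟨y, hy, rfl⟩
      exact hcon y hy
    have h2 := Subgroup.card_dvd_of_le h1
    rw [hcA, hcV] at h2
    have h3 := Nat.le_of_dvd (by omega) h2
    nlinarith
  obtain ⟨b, hb, hbA⟩ := hexb
  have hNU : ∀ x ∈ N, ∀ y ∈ N, x * y * x⁻¹ * y⁻¹ ∈ U := hP.com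
  -- facts for nontrivial x
  have hsum : ∀ x : L, (∀ u ∈ U, x * u = u * x) → x ^ 3 = 1 → (∃ y ∈ N, x * y * x⁻¹ * y⁻¹ ∉ U) →
      ∀ y ∈ N, (y : L ⧸ U) * ((x : L ⧸ U) * y * (x : L ⧸ U)⁻¹) *
        ((x : L ⧸ U) * ((x : L ⧸ U) * y * (x : L ⧸ U)⁻¹) * (x : L ⧸ U)⁻¹) = 1 := by
    intro x hxU hx3 hn y hy
    have h1 := sum3 hU hNn hNU x hx3
      (fun z hz hzz => fpf3 hP hU hNn s hs hs3 hN x hxU hx3 hn z hz hzz) y hy
    have h2 := (QuotientGroup.eq_one_iff _).2 h1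
    have h3 : y * (x * y * x⁻¹) * (x ^ 2 * y * (x ^ 2)⁻¹) =
        y * (x * y * x⁻¹) * (x * (x * y * x⁻¹) * x⁻¹) := by group
    rw [h3] at h2
    simpa using h2
  set S1 : Set (N → L ⧸ U) := {φ | φ ∈ A3 U N ∧ φ ⟨a, ha⟩ ∉ Subgroup.zpowers α} with hS1
  set S2 : Set (N → L ⧸ U) := {φ | φ ∈ A3 U N ∧ φ ⟨a, ha⟩ ∈ Subgroup.zpowers α ∧
    ∃ y : N, φ y ≠ ((y : L) : L ⧸ U)} with hS2
  have hcov : A3 U N ⊆ ({fun y : N => ((y : L) : L ⧸ U)} : Set (N → L ⧸ U)) ∪ (S1 ∪ S2) := by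
    intro φ hφ
    by_cases h1 : φ ⟨a, ha⟩ ∈ Subgroup.zpowers α
    · by_cases h2 : ∃ y : N, φ y ≠ ((y : L) : L ⧸ U)
      · exact Or.inr (Or.inr ⟨hφ, h1, h2⟩)
      · push Not at h2
        left
        exact funext h2
    · exact Or.inr (Or.inl ⟨hφ, h1⟩)
  -- S1
  have hc1 : S1.ncard ≤ s ^ 2 - s := by
    have hdiff : ((V : Set (L ⧸ U)) \ (Subgroup.zpowers α : Set (L ⧸ U))).ncard = s ^ 2 - s := by
      have q1 : (V : Set (L ⧸ U)).ncard = s ^ 2 := by rw [← Nat.card_coe_set_eq]; exact hcV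
      have q2 : (Subgroup.zpowers α : Set (L ⧸ U)).ncard = s := by
        rw [← Nat.card_coe_set_eq]; exact hcA
      rw [Set.ncard_sdiff (by exact_mod_cast hAV) (Set.toFinite _), q1, q2]
    rw [← hdiff]
    apply Set.ncard_le_ncard_of_injOn (fun φ : N → L ⧸ U => φ ⟨a, ha⟩)
    · rintro φ ⟨⟨x, hxU, hx3, hx⟩, hφ⟩
      refine ⟨?_, hφ⟩
      show φ ⟨a, ha⟩ ∈ V
      rw [hx ⟨a, ha⟩]
      exact ⟨x * a * x⁻¹, hNn.conj_mem a ha x, rfl⟩
    · rintro φ ⟨⟨x, hxU, hx3, hx⟩, hφ⟩ φ' ⟨⟨x', hx'U, hx'3, hx'⟩, hφ'⟩ heq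
      simp only at heq
      have hxa : (x : L ⧸ U) * α * (x : L ⧸ U)⁻¹ = φ ⟨a, ha⟩ := by
        rw [hx ⟨a, ha⟩]; simp [hα]
      have hxa' : (x' : L ⧸ U) * α * (x' : L ⧸ U)⁻¹ = φ' ⟨a, ha⟩ := by
        rw [hx' ⟨a, ha⟩]; simp [hα]
      have hn : ∀ z : L, (z : L ⧸ U) * α * (z : L ⧸ U)⁻¹ ∉ Subgroup.zpowers α →
          ∃ y ∈ N, z * y * z⁻¹ * y⁻¹ ∉ U := by
        intro z hz
        refine ⟨a, ha, fun hmem => hz ?_⟩
        have h1 := (QuotientGroup.eq_one_iff _).2 hmem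
        have h2 : (z : L ⧸ U) * α * (z : L ⧸ U)⁻¹ = α := by
          have h3 : (z : L ⧸ U) * α * (z : L ⧸ U)⁻¹ * α⁻¹ = 1 := by
            simpa [hα] using h1
          exact mul_inv_eq_one.1 h3
        rw [h2]; exact Subgroup.mem_zpowers α
      have e1 := hsum x hxU hx3 (hn x (by rw [hxa]; exact hφ)) a ha
      have e2 := hsum x' hx'U hx'3 (hn x' (by rw [hxa']; exact hφ')) a ha
      rw [← hα] at e1 e2
      rw [hxa] at e1
      rw [hxa', ← heq] at e2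
      have e3 : (x : L ⧸ U) * φ ⟨a, ha⟩ * (x : L ⧸ U)⁻¹ =
          (x' : L ⧸ U) * φ ⟨a, ha⟩ * (x' : L ⧸ U)⁻¹ :=
        mul_left_cancel (e1.trans e2.symm)
      funext y
      have h1 := da4_agree V s hs hcV α (φ ⟨a, ha⟩) hαV hoa
        (by rw [hx ⟨a, ha⟩]; exact ⟨x * a * x⁻¹, hNn.conj_mem a ha x, rfl⟩) hφ
        (x : L ⧸ U) (x' : L ⧸ U) (by rw [hxa, hxa', heq]) e3
        ((y : L) : L ⧸ U) ⟨y, y.2, rfl⟩
      rw [hx y, hx' y]
      simpa using h1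
  -- S2
  have hroot : ∀ φ ∈ S2, ∃ k : ℕ, φ ⟨a, ha⟩ = α ^ k ∧ ((k : ZMod s) ^ 2 + k + 1 = 0) := by
    rintro φ ⟨⟨x, hxU, hx3, hx⟩, hφ, ⟨y, hy⟩⟩
    obtain ⟨k, hk⟩ := (Subgroup.mem_zpowers_iff).1 hφ
    have hkn : ∃ m : ℕ, φ ⟨a, ha⟩ = α ^ m := by
      have hfin : IsOfFinOrder α := isOfFinOrder_of_finite α
      have := (hfin.mem_powers_iff_mem_zpowers).2 hφ
      obtain ⟨m, hm⟩ := this
      exact ⟨m, hm.symm⟩
    obtain ⟨m, hm⟩ := hkn
    refine ⟨m, hm, ?_⟩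
    have hn : ∃ y ∈ N, x * y * x⁻¹ * y⁻¹ ∉ U := by
      refine ⟨y, y.2, fun hmem => hy ?_⟩
      have h1 := (QuotientGroup.eq_one_iff _).2 hmem
      rw [hx y]
      rw [QuotientGroup.mk_mul, QuotientGroup.mk_inv] at h1
      exact mul_inv_eq_one.1 h1
    have e1 := hsum x hxU hx3 hn a ha
    have hxa : (x : L ⧸ U) * α * (x : L ⧸ U)⁻¹ = α ^ m := by
      rw [← hm, hx ⟨a, ha⟩]; simp [hα]
    rw [← hα, hxa] at e1
    have hxa2 : (x : L ⧸ U) * α ^ m * (x : L ⧸ U)⁻¹ = α ^ (m * m) := by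
      rw [← conj_pow, hxa, ← pow_mul]
    rw [hxa2, ← pow_succ', ← pow_add] at e1
    have h3 := orderOf_dvd_of_pow_eq_one e1
    rw [hoa] at h3
    have h4 := (ZMod.natCast_eq_zero_iff _ _).2 h3
    push_cast at h4
    rw [← h4]; ring
  have hc2 : S2.ncard ≤ 2 * s := by
    rcases Set.eq_empty_or_nonempty S2 with he | ⟨φ₀, hφ₀⟩
    · rw [he, Set.ncard_empty]; exact Nat.zero_le _
    · obtain ⟨k₀, hk₀, hr₀⟩ := hroot φ₀ hφ₀
      have hsub : S2 ⊆ {φ | φ ∈ A3 U N ∧ φ ⟨a, ha⟩ = α ^ k₀} ∪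
          {φ | φ ∈ A3 U N ∧ φ ⟨a, ha⟩ = (α * α ^ k₀)⁻¹} := by
        intro φ hφ
        obtain ⟨k, hk, hr⟩ := hroot φ hφ
        have h1 : ((k : ZMod s) - k₀) * (k + k₀ + 1) = 0 := by
          have h2 : ((k : ZMod s) - k₀) * (k + k₀ + 1) =
            ((k : ZMod s) ^ 2 + k + 1) - ((k₀ : ZMod s) ^ 2 + k₀ + 1) := by ring
          rw [h2, hr, hr₀, sub_zero]
        rcases mul_eq_zero.1 h1 with h2 | h2
        · left
          refine ⟨hφ.1, ?_⟩
          have h3 : (k : ZMod s) = (k₀ : ZMod s) := sub_eq_zero.1 h2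
          have h4 := (ZMod.natCast_eq_natCast_iff _ _ _).1 h3
          rw [hk]
          exact (pow_eq_pow_iff_modEq (x := α)).2 (by rw [hoa]; exact h4)
        · right
          refine ⟨hφ.1, ?_⟩
          rw [hk]
          have h3 : ((k + (k₀ + 1) : ℕ) : ZMod s) = 0 := by
            push_cast; rw [← h2]; ring
          have h4 := (ZMod.natCast_eq_zero_iff _ _).1 h3
          rw [← hoa] at h4
          have h5 := orderOf_dvd_iff_pow_eq_one.1 h4
          rw [pow_add] at h5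
          rw [← pow_succ']
          exact eq_inv_of_mul_eq_one_left h5
      have hA1 : α ^ k₀ ∈ Subgroup.zpowers α := Subgroup.pow_mem _ (Subgroup.mem_zpowers α) _
      have hA2 : (α * α ^ k₀)⁻¹ ∈ Subgroup.zpowers α :=
        Subgroup.inv_mem _ (Subgroup.mul_mem _ (Subgroup.mem_zpowers α) hA1)
      have f1 := da4_fib hP hU s hs hN hNn a b ha haU hb hbA (α ^ k₀) hA1
      have f2 := da4_fib hP hU s hs hN hNn a b ha haU hb hbA ((α * α ^ k₀)⁻¹) hA2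
      calc S2.ncard ≤ _ := Set.ncard_le_ncard hsub (Set.toFinite _)
        _ ≤ _ := Set.ncard_union_le _ _
        _ ≤ s + s := Nat.add_le_add f1 f2
        _ = 2 * s := by ring
  have htot : (A3 U N).ncard ≤ 1 + ((s ^ 2 - s) + 2 * s) := by
    calc (A3 U N).ncard ≤ _ := Set.ncard_le_ncard hcov (Set.toFinite _)
      _ ≤ _ := Set.ncard_union_le _ _
      _ ≤ 1 + ((s ^ 2 - s) + 2 * s) := by
        apply Nat.add_le_add
        · rw [Set.ncard_singleton]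
        · exact le_trans (Set.ncard_union_le _ _) (Nat.add_le_add hc1 hc2)
  rw [Nat.card_coe_set_eq]
  have hss : s ≤ s ^ 2 := by nlinarith
  omega
-- END da4

-- BEGIN da5
private theorem da5_rel {E : Subgroup L} (hP : Prg U E) (hU : U.Normal) (s : ℕ) (hs : s.Prime)
    (hN : U.relIndex E = s ^ 2) (hEn : E.Normal) (a b x x₀ : L) (ha : a ∈ E) (haU : a ∉ U)
    (hb : b ∈ E) (hxU : ∀ u ∈ U, x * u = u * x) (hx₀U : ∀ u ∈ U, x₀ * u = u * x₀)
    (hxa : ((x * a * x⁻¹ : L) : L ⧸ U) = ((x₀ * a * x₀⁻¹ : L) : L ⧸ U)) :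
    ((x * b * x⁻¹ : L) : L ⧸ U) * ((x₀ * b * x₀⁻¹ : L) : L ⧸ U)⁻¹ ∈
      Subgroup.zpowers ((x₀ * a * x₀⁻¹ : L) : L ⧸ U) := by
  have hab : a * b * a⁻¹ * b⁻¹ ∈ U := hP.com a ha b hb
  have hconj : ∀ y : L, (∀ u ∈ U, y * u = u * y) →
      (y * a * y⁻¹) * (y * b * y⁻¹) * (y * a * y⁻¹)⁻¹ * (y * b * y⁻¹)⁻¹ = a * b * a⁻¹ * b⁻¹ := by
    intro y hy
    have h1 : y * (a * b * a⁻¹ * b⁻¹) = (a * b * a⁻¹ * b⁻¹) * y := hy _ hab
    calc (y * a * y⁻¹) * (y * b * y⁻¹) * (y * a * y⁻¹)⁻¹ * (y * b * y⁻¹)⁻¹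
        = y * (a * b * a⁻¹ * b⁻¹) * y⁻¹ := by group
      _ = a * b * a⁻¹ * b⁻¹ := by rw [h1]; group
  set a1 := x * a * x⁻¹ with ha1
  set b1 := x * b * x⁻¹ with hb1
  set a0 := x₀ * a * x₀⁻¹ with ha0
  set b0 := x₀ * b * x₀⁻¹ with hb0
  have e1 : a1 * b1 * a1⁻¹ * b1⁻¹ = a0 * b0 * a0⁻¹ * b0⁻¹ := by
    rw [ha1, hb1, ha0, hb0, hconj x hxU, hconj x₀ hx₀U]
  have ha1N : a1 ∈ E := hEn.conj_mem a ha x
  have hb1N : b1 ∈ E := hEn.conj_mem b hb x
  have ha0N : a0 ∈ E := hEn.conj_mem a ha x₀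
  have hb0N : b0 ∈ E := hEn.conj_mem b hb x₀
  have ha0U : a0 ∉ U := by
    intro h
    apply haU
    have := hU.conj_mem a0 h x₀⁻¹
    have h2 : x₀⁻¹ * a0 * x₀⁻¹⁻¹ = a := by rw [ha0]; group
    rwa [h2] at this
  have hu : a1 * a0⁻¹ ∈ U := by
    have h1 : ((a1 * a0⁻¹ : L) : L ⧸ U) = 1 := by
      rw [QuotientGroup.mk_mul, QuotientGroup.mk_inv, hxa, mul_inv_cancel]
    exact (QuotientGroup.eq_one_iff _).1 h1
  set u := a1 * a0⁻¹ with hudef
  have ha1u : a1 = u * a0 := by rw [hudef]; group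
  have e2 : a0 * b1 * a0⁻¹ * b1⁻¹ = a0 * b0 * a0⁻¹ * b0⁻¹ := by
    rw [← e1, ha1u]
    have h1 : (a0 * b1 * a0⁻¹) * u⁻¹ = u⁻¹ * (a0 * b1 * a0⁻¹) :=
      hP.cU _ (E.mul_mem (E.mul_mem ha0N hb1N) (E.inv_mem ha0N)) _ (U.inv_mem hu)
    calc a0 * b1 * a0⁻¹ * b1⁻¹ = u * (u⁻¹ * (a0 * b1 * a0⁻¹)) * b1⁻¹ := by group
      _ = u * ((a0 * b1 * a0⁻¹) * u⁻¹) * b1⁻¹ := by rw [h1]
      _ = u * a0 * b1 * (u * a0)⁻¹ * b1⁻¹ := by group
  have hzN : b1 * b0⁻¹ ∈ E := E.mul_mem hb1N (E.inv_mem hb0N)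
  have hcU : a0 * b0 * a0⁻¹ * b0⁻¹ ∈ U := hP.com a0 ha0N b0 hb0N
  have hcomm : a0 * (b1 * b0⁻¹) = (b1 * b0⁻¹) * a0 := by
    have h1 : a0 * b1 * a0⁻¹ = (a0 * b0 * a0⁻¹ * b0⁻¹) * b1 := by
      rw [← e2]; group
    have h2 : a0 * b0 * a0⁻¹ = (a0 * b0 * a0⁻¹ * b0⁻¹) * b0 := by group
    have h3 : (b1 * b0⁻¹) * (a0 * b0 * a0⁻¹ * b0⁻¹)  = (a0 * b0 * a0⁻¹ * b0⁻¹) * (b1 * b0⁻¹) :=
      hP.cU _ hzN _ hcU
    have h4 : a0 * (b1 * b0⁻¹) * a0⁻¹ = b1 * b0⁻¹ := by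
      calc a0 * (b1 * b0⁻¹) * a0⁻¹ = (a0 * b1 * a0⁻¹) * (a0 * b0 * a0⁻¹)⁻¹ := by group
        _ = ((a0 * b0 * a0⁻¹ * b0⁻¹) * b1) * ((a0 * b0 * a0⁻¹ * b0⁻¹) * b0)⁻¹ := by rw [h1, ← h2]
        _ = ((a0 * b0 * a0⁻¹ * b0⁻¹) * (b1 * b0⁻¹)) * (a0 * b0 * a0⁻¹ * b0⁻¹)⁻¹ := by group
        _ = b1 * b0⁻¹ := by rw [← h3]; group
    calc a0 * (b1 * b0⁻¹) = (a0 * (b1 * b0⁻¹) * a0⁻¹) * a0 := by group
      _ = _ := by rw [h4]
  obtain ⟨k, hk, hk2⟩ := perp hP hU s hs hN a0 (b1 * b0⁻¹) ha0N ha0U hzN hcomm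
  have h5 : ((b1 * b0⁻¹ : L) : L ⧸ U) = ((a0 : L) : L ⧸ U) ^ k := by
    have h6 := (QuotientGroup.eq_one_iff _).2 hk2
    rw [QuotientGroup.mk_mul, QuotientGroup.mk_inv, QuotientGroup.mk_pow] at h6
    exact mul_inv_eq_one.1 h6
  rw [← QuotientGroup.mk_inv, ← QuotientGroup.mk_mul, h5]
  exact Subgroup.pow_mem _ (Subgroup.mem_zpowers _) k

/-- (da5, size 4) The order of the symplectic group in dimension 2. PROOF. Fix `a, b ∈ E` as in `act3` (`N = E`). For `x` in the centralizer of `U` the coset `x E` is determined by the classes of `x(a) = x a x⁻¹`, `x(b)` modulo `U` (an element of the centralizer of `U` which is trivial on `E / U` is in `E`, `hE.big`). `x(a)` is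
not in `U`: `s ^ 2 - 1` classes; for a given class of `x(a)`, `[x(a), x(b)] = [a, b]`, so `x(b)` is in one coset of the centralizer of `x(a)` in `E`, which is `⟨x(a)⟩ U` (`perp`): at most `s` classes. So the number of cosets, `E.relIndex (centralizer U)`, is at most `(s ^ 2 - 1) * s`. -/
theorem cs_sl {E : Subgroup L} {n : ℕ} {M : Fin n → Subgroup L} (hc : IsCyclic U)
    (hU : U.Normal) (hE : SE U E n M) (s : ℕ) (hs : s.Prime) (he : U.relIndex E = s ^ 2) :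
    E.relIndex (Subgroup.centralizer (U : Set L)) ≤ (s ^ 2 - 1) * s := by
  classical
  haveI : Fact s.Prime := ⟨hs⟩
  haveI := hE.nor
  have hP : Prg U E := ⟨hc, hE.UE, hE.cU, hE.com, hE.cen⟩
  have hs1 := hs.one_lt
  have hcV : Nat.card (E.map (QuotientGroup.mk' U)) = s ^ 2 := by
    rw [← Subgroup.relIndex_ker, QuotientGroup.ker_mk', he]
  have hex : ∃ a ∈ E, a ∉ U := by
    by_contra hcon
    push Not at hcon
    have h1 : U.relIndex E = 1 := Subgroup.relIndex_eq_one.2 (fun y hy => hcon y hy)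
    rw [he] at h1
    have : 1 < s ^ 2 := Nat.one_lt_pow (by norm_num) hs1
    omega
  obtain ⟨a, ha, haU⟩ := hex
  have hoa := da4_ord hP hU s hs he a ha haU
  set V : Subgroup (L ⧸ U) := E.map (QuotientGroup.mk' U) with hVdef
  have hcA : Nat.card (Subgroup.zpowers (a : L ⧸ U)) = s := by rw [Nat.card_zpowers, hoa]
  have hexb : ∃ b ∈ E, (b : L ⧸ U) ∉ Subgroup.zpowers (a : L ⧸ U) := by
    by_contra hcon
    push Not at hcon
    have h1 : V ≤ Subgroup.zpowers (a : L ⧸ U) := by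
      rintro _ ⟨y, hy, rfl⟩
      exact hcon y hy
    have h2 := Subgroup.card_dvd_of_le h1
    rw [hcA, hcV] at h2
    have h3 := Nat.le_of_dvd (by omega) h2
    nlinarith
  obtain ⟨b, hb, hbA⟩ := hexb
  set C : Subgroup L := Subgroup.centralizer (U : Set L) with hC
  have hCm : ∀ x : L, x ∈ C ↔ ∀ u ∈ U, x * u = u * x := by
    intro x
    rw [hC, Subgroup.mem_centralizer_iff]
    exact ⟨fun h u hu => (h u hu).symm, fun h u hu => (h u hu).symm⟩
  -- the images of `b` for a given image of `a`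
  let T : L ⧸ U → Set (L ⧸ U) := fun g =>
    {β | ∃ x ∈ C, ((x * a * x⁻¹ : L) : L ⧸ U) = g ∧ ((x * b * x⁻¹ : L) : L ⧸ U) = β}
  have hT : ∀ g, (T g).ncard ≤ s := by
    intro g
    rcases Set.eq_empty_or_nonempty (T g) with h0 | ⟨β₀, x₀, hx₀, hg₀, hb₀⟩
    · rw [h0, Set.ncard_empty]
      exact Nat.zero_le _
    · have hog : orderOf g = s := by
        rw [← hg₀]
        refine da4_ord hP hU s hs he _ (hE.nor.conj_mem a ha x₀) ?_
        intro h
        apply haU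
        have := hU.conj_mem _ h x₀⁻¹
        have h2 : x₀⁻¹ * (x₀ * a * x₀⁻¹) * x₀⁻¹⁻¹ = a := by group
        rwa [h2] at this
      have hcoe : (Subgroup.zpowers g : Set (L ⧸ U)).ncard = s := by
        rw [← Nat.card_coe_set_eq]
        exact (Nat.card_zpowers g).trans hog
      rw [← hcoe]
      apply Set.ncard_le_ncard_of_injOn (fun β : L ⧸ U => β * β₀⁻¹)
      · rintro β ⟨x, hx, hg, hβ⟩
        have h1 := da5_rel hP hU s hs he hE.nor a b x x₀ ha haU hb ((hCm x).1 hx) ((hCm x₀).1 hx₀)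
          (hg.trans hg₀.symm)
        rw [hβ, hb₀, hg₀] at h1
        exact h1
      · intro β _ β' _ h1
        exact mul_right_cancel h1
  -- the set of pairs
  let P : Set ((L ⧸ U) × (L ⧸ U)) :=
    {z | z.1 ∈ V ∧ z.1 ≠ 1 ∧ z.2 ∈ T z.1}
  have hPc : P.ncard ≤ (s ^ 2 - 1) * s := by
    haveI := Fintype.ofFinite (L ⧸ U)
    have h1 : P ⊆ (((Finset.univ.filter fun g : L ⧸ U => g ∈ V ∧ g ≠ 1).biUnion fun g =>
        (T g).toFinset.image fun β => (g, β) : Finset ((L ⧸ U) × (L ⧸ U))) :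
          Set ((L ⧸ U) × (L ⧸ U))) := by
      rintro ⟨g, β⟩ ⟨hgV, hg1, hβ⟩
      rw [Finset.mem_coe, Finset.mem_biUnion]
      exact ⟨g, Finset.mem_filter.2 ⟨Finset.mem_univ _, hgV, hg1⟩,
        Finset.mem_image.2 ⟨β, Set.mem_toFinset.2 hβ, rfl⟩⟩
    have h2 : (Finset.univ.filter fun g : L ⧸ U => g ∈ V ∧ g ≠ 1).card = s ^ 2 - 1 := by
      have h3 : (Finset.univ.filter fun g : L ⧸ U => g ∈ V ∧ g ≠ 1) =
          (Finset.univ.filter fun g : L ⧸ U => g ∈ V).erase 1 := by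
        ext g
        simp only [Finset.mem_filter, Finset.mem_univ, true_and, Finset.mem_erase]
        exact and_comm
      rw [h3, Finset.card_erase_of_mem (Finset.mem_filter.2 ⟨Finset.mem_univ _, V.one_mem⟩)]
      have h4 : (Finset.univ.filter fun g : L ⧸ U => g ∈ V).card = s ^ 2 := by
        rw [← hcV, Nat.card_eq_fintype_card, Fintype.card_subtype]
      rw [h4]
    calc P.ncard ≤ ((Finset.univ.filter fun g : L ⧸ U => g ∈ V ∧ g ≠ 1).biUnion fun g =>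
        (T g).toFinset.image fun β => (g, β)).card := by
          rw [← Set.ncard_coe_finset]
          exact Set.ncard_le_ncard h1 (Set.toFinite _)
      _ ≤ (Finset.univ.filter fun g : L ⧸ U => g ∈ V ∧ g ≠ 1).card * s := by
          refine Finset.card_biUnion_le_card_mul _ _ _ fun g _ => ?_
          refine Finset.card_image_le.trans ?_
          rw [← Set.ncard_eq_toFinset_card']
          exact hT g
      _ = (s ^ 2 - 1) * s := by rw [h2]
  refine le_trans ?_ hPc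
  -- the injection
  let F : C ⧸ E.subgroupOf C → P := fun q =>
    ⟨((((q.out : C) : L) * a * ((q.out : C) : L)⁻¹ : L), (((q.out : C) : L) * b * ((q.out : C) : L)⁻¹ : L)),
      ⟨_, hE.nor.conj_mem a ha _, rfl⟩, by
        intro h1
        have h2 := (QuotientGroup.eq_one_iff _).1 h1
        apply haU
        have h3 := hU.conj_mem _ h2 ((q.out : C) : L)⁻¹
        have h4 : ((q.out : C) : L)⁻¹ * (((q.out : C) : L) * a * ((q.out : C) : L)⁻¹) *
          ((q.out : C) : L)⁻¹⁻¹ = a := by group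
        rwa [h4] at h3, ⟨_, (q.out : C).2, rfl, rfl⟩⟩
  have hF : Function.Injective F := by
    intro q q' hqq
    have h1 := congrArg (fun z : P => z.1.1) hqq
    have h2 := congrArg (fun z : P => z.1.2) hqq
    simp only [F] at h1 h2
    set x : L := ((q.out : C) : L) with hx
    set x' : L := ((q'.out : C) : L) with hx'
    have h3 : ∀ y ∈ E, x * y * x⁻¹ * (x' * y * x'⁻¹)⁻¹ ∈ U := by
      intro y hy
      have h4 := da4_agree V s hs hcV (a : L ⧸ U) (b : L ⧸ U) ⟨a, ha, rfl⟩ hoa ⟨b, hb, rfl⟩ hbA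
        (x : L ⧸ U) (x' : L ⧸ U) h1 h2 (y : L ⧸ U) ⟨y, hy, rfl⟩
      rw [← QuotientGroup.eq_one_iff]
      have h5 : ((x * y * x⁻¹ : L) : L ⧸ U) = ((x' * y * x'⁻¹ : L) : L ⧸ U) := h4
      rw [QuotientGroup.mk_mul, QuotientGroup.mk_inv, h5, mul_inv_cancel]
    have h4 : x⁻¹ * x' ∈ E := by
      have hxC : x ∈ C := (q.out : C).2
      have hx'C : x' ∈ C := (q'.out : C).2
      have hz : x⁻¹ * x' ∈ C := C.mul_mem (C.inv_mem hxC) hx'C
      refine hE.big _ ((hCm _).1 hz) ?_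
      intro y hy
      have h5 := h3 y hy
      have h6 := U.inv_mem (hU.conj_mem _ h5 x⁻¹)
      have h7 : (x⁻¹ * (x * y * x⁻¹ * (x' * y * x'⁻¹)⁻¹) * x⁻¹⁻¹)⁻¹ =
        x⁻¹ * x' * y * (x⁻¹ * x')⁻¹ * y⁻¹ := by group
      rw [h7] at h6
      exact h6
    rw [← QuotientGroup.out_eq' q, ← QuotientGroup.out_eq' q']
    refine QuotientGroup.eq.2 ?_
    rw [Subgroup.mem_subgroupOf]
    exact h4
  have h5 := Nat.card_le_card_of_injective F hF
  exact h5
-- END da5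

-- BEGIN da6
private theorem da6_mul {E : Subgroup L} {n : ℕ} {M : Fin n → Subgroup L} (hE : SE U E n M)
    (a b b' : L) (ha : a ∈ E) (hb : b ∈ E) (hb' : b' ∈ E) :
    a * (b * b') * a⁻¹ * (b * b')⁻¹ = (a * b * a⁻¹ * b⁻¹) * (a * b' * a⁻¹ * b'⁻¹) := by
  have h1 := hE.cU b hb _ (hE.com a ha b' hb')
  have h2 : a * (b * b') * a⁻¹ * (b * b')⁻¹ =
      (a * b * a⁻¹ * b⁻¹) * ((b * (a * b' * a⁻¹ * b'⁻¹)) * b⁻¹) := by group
  rw [h2, h1, mul_inv_cancel_right]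

private theorem da6_U {E : Subgroup L} {n : ℕ} {M : Fin n → Subgroup L} (hE : SE U E n M)
    (a u : L) (ha : a ∈ E) (hu : u ∈ U) : a * u * a⁻¹ * u⁻¹ = 1 := by
  rw [hE.cU a ha u hu, mul_inv_cancel_right, mul_inv_cancel]

private theorem da6_pow {E : Subgroup L} {n : ℕ} {M : Fin n → Subgroup L} (hE : SE U E n M)
    (a b : L) (ha : a ∈ E) (hb : b ∈ E) (k : ℕ) :
    a * b ^ k * a⁻¹ * (b ^ k)⁻¹ = (a * b * a⁻¹ * b⁻¹) ^ k := by
  induction k with
  | zero => simp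
  | succ k ih =>
    rw [pow_succ, da6_mul hE a (b ^ k) b ha (pow_mem hb k) hb, ih, pow_succ]

private theorem da6_cg {E : Subgroup L} {n : ℕ} {M : Fin n → Subgroup L} (hE : SE U E n M)
    (a b z : L) (ha : a ∈ E) (hb : b ∈ E) (k : ℕ) (hz : z * (b ^ k)⁻¹ ∈ U) :
    a * z * a⁻¹ * z⁻¹ = (a * b * a⁻¹ * b⁻¹) ^ k := by
  have h1 : z = z * (b ^ k)⁻¹ * b ^ k := by rw [inv_mul_cancel_right]
  rw [h1, da6_mul hE a _ _ ha (hE.UE hz) (pow_mem hb k), da6_U hE a _ ha hz, one_mul,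
    da6_pow hE a b ha hb k]

private theorem da6_t1 (s : ℕ) (hs : s.Prime) (hUs : Nat.card U = s) (t : L)
    (htU : ∃ u ∈ U, t * u ≠ u * t) (z : L) (hz : z ∈ U) (hzt : t * z * t⁻¹ = z) : z = 1 := by
  by_contra hz1
  obtain ⟨u, hu, hut⟩ := htU
  haveI : Fact s.Prime := ⟨hs⟩
  have h1 : (⟨u, hu⟩ : U) ∈ Subgroup.zpowers (⟨z, hz⟩ : U) :=
    mem_zpowers_of_prime_card hUs (fun h => hz1 (congrArg Subtype.val h))
  obtain ⟨k, hk⟩ := h1
  have h2 : z ^ k = u := congrArg Subtype.val hk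
  have h3 : Commute t z := by
    have := congrArg (· * t) hzt
    simp only [inv_mul_cancel_right] at this
    exact this
  apply hut
  rw [← h2]
  exact h3.zpow_right k

private theorem da6_com {E : Subgroup L} {n : ℕ} {M : Fin n → Subgroup L}
    (hU : U.Normal) (hE : SE U E n M) (s : ℕ) (hs : s.Prime)
    (hUs : Nat.card U = s) (t : L) (ht3 : t ^ 3 = 1) (htU : ∃ u ∈ U, t * u ≠ u * t)
    (hf : ∀ y ∈ E, t * y * t⁻¹ * y⁻¹ ∈ U → y ∈ U) (a : L) (ha : a ∈ E) :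
    a * (t * a * t⁻¹) * a⁻¹ * (t * a * t⁻¹)⁻¹ = 1 := by
  have hb : t * a * t⁻¹ ∈ E := hE.nor.conj_mem a ha t
  have h0 := sum3 hU hE.nor hE.com t ht3 hf a ha
  refine da6_t1 s hs hUs t htU _ (hE.com a ha _ hb) ?_
  -- the conjugate of the commutator
  have h1 : t * (a * (t * a * t⁻¹) * a⁻¹ * (t * a * t⁻¹)⁻¹) * t⁻¹ =
      (t * a * t⁻¹) * (t ^ 2 * a * (t ^ 2)⁻¹) * (t * a * t⁻¹)⁻¹ * (t ^ 2 * a * (t ^ 2)⁻¹)⁻¹ := by
    group
  rw [h1]
  generalize hbb : t * a * t⁻¹ = b at *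
  generalize hcc : t ^ 2 * a * (t ^ 2)⁻¹ = c at *
  -- `c = b⁻¹ * a⁻¹ * u`
  have h2 : c = b⁻¹ * (a⁻¹ * (a * b * c)) := by group
  have hu := h0
  generalize huu : a * b * c = u at *
  rw [h2]
  have hub : b * u = u * b := hE.cU b hb u hu
  have hua : a * u = u * a := hE.cU a ha u hu
  have hz := hE.cU a ha _ (hE.com a ha b hb)
  have hub' : u * b⁻¹ = b⁻¹ * u := by
    rw [eq_inv_mul_iff_mul_eq, ← mul_assoc, hub, mul_inv_cancel_right]
  have h3 : b * (b⁻¹ * (a⁻¹ * u)) * b⁻¹ * (b⁻¹ * (a⁻¹ * u))⁻¹ = a⁻¹ * (u * b⁻¹) * u⁻¹ * a * b := by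
    group
  rw [h3, hub']
  have h4 : a⁻¹ * (b⁻¹ * u) * u⁻¹ * a * b = a⁻¹ * (b⁻¹ * (a * b)) := by group
  rw [h4]
  have h5 : a⁻¹ * (b⁻¹ * (a * b)) = a⁻¹ * (b⁻¹ * ((a * b * a⁻¹ * b⁻¹) * b) * a) := by group
  have hzb := hE.cU b hb _ (hE.com a ha b hb)
  rw [h5, ← hzb]
  have h6 : a⁻¹ * (b⁻¹ * (b * (a * b * a⁻¹ * b⁻¹)) * a) = a⁻¹ * ((a * b * a⁻¹ * b⁻¹) * a) := by
    group
  rw [h6, ← hz]
  group

private theorem da6_key {E : Subgroup L} {n : ℕ} {M : Fin n → Subgroup L}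
    (hU : U.Normal) (hE : SE U E n M) (s : ℕ) (hs : s.Prime)
    (hUs : Nat.card U = s) (t : L) (ht3 : t ^ 3 = 1) (htU : ∃ u ∈ U, t * u ≠ u * t)
    (hf : ∀ y ∈ E, t * y * t⁻¹ * y⁻¹ ∈ U → y ∈ U) (a b : L) (ha : a ∈ E) (hb : b ∈ E)
    (hab : a * b * a⁻¹ * b⁻¹ ≠ 1) (k l : ℕ) (hk : k < s) (hl : l < s)
    (hka : t * a * t⁻¹ * (a ^ k)⁻¹ ∈ U) (hlb : t * b * t⁻¹ * (b ^ l)⁻¹ ∈ U) : k = l := by
  have hta : t * a * t⁻¹ ∈ E := hE.nor.conj_mem a ha t
  have htb : t * b * t⁻¹ ∈ E := hE.nor.conj_mem b hb t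
  have h1 := da6_com hU hE s hs hUs t ht3 htU hf (a * b) (mul_mem ha hb)
  have h2 := da6_com hU hE s hs hUs t ht3 htU hf a ha
  have h3 := da6_com hU hE s hs hUs t ht3 htU hf b hb
  have h4 : t * (a * b) * t⁻¹ = (t * a * t⁻¹) * (t * b * t⁻¹) := by group
  rw [h4, da6_mul hE (a * b) _ _ (mul_mem ha hb) hta htb] at h1
  -- left multiplicativity
  have h5 : ∀ z ∈ E, (a * b) * z * (a * b)⁻¹ * z⁻¹ =
      (a * z * a⁻¹ * z⁻¹) * (b * z * b⁻¹ * z⁻¹) := by
    intro z hz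
    have h6 := da6_mul hE z a b hz ha hb
    have h7 : (a * b) * z * (a * b)⁻¹ * z⁻¹ = (z * (a * b) * z⁻¹ * (a * b)⁻¹)⁻¹ := by group
    have h8 : (z * a * z⁻¹ * a⁻¹)⁻¹ = a * z * a⁻¹ * z⁻¹ := by group
    have h9 : (z * b * z⁻¹ * b⁻¹)⁻¹ = b * z * b⁻¹ * z⁻¹ := by group
    have h10 := hE.cU _ (hE.UE (hE.com b hb z hz)) _ (hE.com a ha z hz)
    rw [h7, h6, mul_inv_rev, h8, h9, h10]
  rw [h5 _ hta, h5 _ htb, h2, h3, one_mul, mul_one] at h1
  rw [da6_cg hE b a _ hb ha k hka, da6_cg hE a b _ ha hb l hlb] at h1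
  have h11 : b * a * b⁻¹ * a⁻¹ = (a * b * a⁻¹ * b⁻¹)⁻¹ := by group
  rw [h11, inv_pow, inv_mul_eq_one] at h1
  -- the order
  have hcU := hE.com a ha b hb
  have h12 : (a * b * a⁻¹ * b⁻¹) ^ s = 1 := by
    have h13 : (⟨a * b * a⁻¹ * b⁻¹, hcU⟩ : U) ^ s = 1 := by
      rw [← hUs]
      exact pow_card_eq_one'
    exact congrArg Subtype.val h13
  haveI : Fact s.Prime := ⟨hs⟩
  have h14 : orderOf (a * b * a⁻¹ * b⁻¹) = s := orderOf_eq_prime h12 hab
  exact pow_injOn_Iio_orderOf (by rw [Set.mem_Iio, h14]; exact hk)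
    (by rw [Set.mem_Iio, h14]; exact hl) h1

/-- (da6, size 4) A `t` with `t ^ 3 = 1` which is not trivial on `U` and has no fixed point on `E / U` acts on `E / U` as a scalar, so it commutes with the centralizer of `U` modulo `E`. PROOF. `U` has prime order `s` (`hUs`), so `t u t⁻¹ = u ^ κ` for all `u ∈ U` with a `κ`, and `κ` is not 1 modulo `s` (`htU`). Let `a ∈ E`, `a ∉ U`.
`t ^ 2 (a) = t(a)⁻¹ a⁻¹` modulo `U` by `sum3`. The pairing: `[a, t(a)] ^ κ = t [a, t(a)] t⁻¹ = [t(a), t ^ 2 (a)] = [t(a), t(a)⁻¹ a⁻¹] = [t(a), a⁻¹] = [t(a), a]⁻¹ = [a, t(a)]`, so `[a, t(a)] = 1`, and `t(a) = a ^ k` modulo `U` (`perp`). So `t` fixes all the subgroups of order `s` of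
`E / U`, and `k` does not depend on `a` (`a`, `b`, `a b` for `b` outside `⟨a⟩ U`). For `x` in the centralizer of `U` and `y ∈ E`: `t x t⁻¹ x⁻¹` is trivial on `E / U` and on `U`, so it is in `E` (`hE.big`). -/
theorem scal {E : Subgroup L} {n : ℕ} {M : Fin n → Subgroup L} (hc : IsCyclic U)
    (hU : U.Normal) (hE : SE U E n M) (s : ℕ) (hs : s.Prime) (he : U.relIndex E = s ^ 2)
    (hUs : Nat.card U = s) (t : L) (ht3 : t ^ 3 = 1) (htU : ∃ u ∈ U, t * u ≠ u * t)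
    (hf : ∀ y ∈ E, t * y * t⁻¹ * y⁻¹ ∈ U → y ∈ U) (x : L) (hx : ∀ u ∈ U, x * u = u * x) :
    t * x * t⁻¹ * x⁻¹ ∈ E := by
  have hP : Prg U E := ⟨hc, hE.UE, hE.cU, hE.com, hE.cen⟩
  have hpp : ∀ y ∈ E, y ∉ U → ∃ k : ℕ, k < s ∧ t * y * t⁻¹ * (y ^ k)⁻¹ ∈ U := by
    intro y hy hyU
    refine perp hP hU s hs he y _ hy hyU (hE.nor.conj_mem y hy t) ?_
    have h1 := da6_com hU hE s hs hUs t ht3 htU hf y hy
    rw [mul_inv_eq_one, mul_inv_eq_iff_eq_mul] at h1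
    exact h1
  -- an element outside `U`
  obtain ⟨a, ha, haU⟩ : ∃ a ∈ E, a ∉ U := by
    by_contra hcon
    push Not at hcon
    have h1 : U.relIndex E = 1 := Subgroup.relIndex_eq_one.2 fun y hy => hcon y hy
    rw [he] at h1
    have := hs.one_lt
    nlinarith
  obtain ⟨k, hk, hka⟩ := hpp a ha haU
  -- the scalar
  have hsc : ∀ y ∈ E, t * y * t⁻¹ * (y ^ k)⁻¹ ∈ U := by
    intro y hy
    by_cases hyU : y ∈ U
    · exact mul_mem (hU.conj_mem y hyU t) (inv_mem (pow_mem hyU k))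
    by_cases hay : a * y * a⁻¹ * y⁻¹ = 1
    · have h1 : a * y = y * a := by
        rw [mul_inv_eq_one, mul_inv_eq_iff_eq_mul] at hay
        exact hay
      obtain ⟨i, -, hi⟩ := perp hP hU s hs he a y ha haU hy h1
      -- compute in the quotient
      have hq : ∀ g h : L, g * h⁻¹ ∈ U → (g : L ⧸ U) = (h : L ⧸ U) := by
        intro g h hgh
        rw [QuotientGroup.eq]
        have h2 := hU.conj_mem _ (inv_mem hgh) h⁻¹
        have h3 : h⁻¹ * (g * h⁻¹)⁻¹ * h⁻¹⁻¹ = (g⁻¹ * h) := by group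
        rw [h3] at h2
        exact h2
      have h4 : (y : L ⧸ U) = (a : L ⧸ U) ^ i := by
        rw [← QuotientGroup.mk_pow]
        exact hq _ _ hi
      have h5 : (t : L ⧸ U) * (a : L ⧸ U) * (t : L ⧸ U)⁻¹ = (a : L ⧸ U) ^ k := by
        rw [← QuotientGroup.mk_pow, ← QuotientGroup.mk_mul, ← QuotientGroup.mk_inv,
          ← QuotientGroup.mk_mul]
        exact hq _ _ hka
      have h6 : (t : L ⧸ U) * (y : L ⧸ U) * (t : L ⧸ U)⁻¹ = (y : L ⧸ U) ^ k := by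
        rw [h4, ← conj_pow, h5, ← pow_mul, ← pow_mul, mul_comm]
      rw [← QuotientGroup.eq_one_iff, QuotientGroup.mk_mul, QuotientGroup.mk_mul,
        QuotientGroup.mk_mul, QuotientGroup.mk_inv, QuotientGroup.mk_inv, QuotientGroup.mk_pow,
        h6, mul_inv_cancel]
    · obtain ⟨l, hl, hly⟩ := hpp y hy hyU
      have h7 := da6_key hU hE s hs hUs t ht3 htU hf a y ha hy hay k l hk hl hka hly
      rw [h7]
      exact hly
  refine hE.big _ ?_ ?_
  · intro u hu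
    have h1 : t⁻¹ * u * t ∈ U := by
      have := hU.conj_mem u hu t⁻¹
      rwa [inv_inv] at this
    have h2 := hx _ h1
    have h3 : x⁻¹ * u = u * x⁻¹ := by
      rw [inv_mul_eq_iff_eq_mul, ← mul_assoc, hx u hu, mul_inv_cancel_right]
    calc t * x * t⁻¹ * x⁻¹ * u = t * x * t⁻¹ * (x⁻¹ * u) := by group
      _ = t * (x * (t⁻¹ * u * t)) * t⁻¹ * x⁻¹ := by rw [h3]; group
      _ = u * (t * x * t⁻¹ * x⁻¹) := by rw [h2]; group
  · intro y hy
    have hy1 : x⁻¹ * y * x ∈ E := by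
      have := hE.nor.conj_mem y hy x⁻¹
      rwa [inv_inv] at this
    have hy2 : t⁻¹ * (x⁻¹ * y * x) * t ∈ E := by
      have := hE.nor.conj_mem _ hy1 t⁻¹
      rwa [inv_inv] at this
    have hy3 : x * (t⁻¹ * (x⁻¹ * y * x) * t) * x⁻¹ ∈ E := hE.nor.conj_mem _ hy2 x
    have h1 := hsc _ hy3
    have h2 := hU.conj_mem _ (hsc _ hy2) x
    have h3 := mul_mem h1 (inv_mem h2)
    have h4 : (x * (t⁻¹ * (x⁻¹ * y * x) * t) * x⁻¹) ^ k =
        x * (t⁻¹ * (x⁻¹ * y * x) * t) ^ k * x⁻¹ := conj_pow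
    rw [h4] at h3
    generalize hg : (t⁻¹ * (x⁻¹ * y * x) * t) ^ k = g at h3
    have h5 : t * (x * (t⁻¹ * (x⁻¹ * y * x) * t) * x⁻¹) * t⁻¹ * (x * g * x⁻¹)⁻¹ *
        (x * (t * (t⁻¹ * (x⁻¹ * y * x) * t) * t⁻¹ * g⁻¹) * x⁻¹)⁻¹ =
        t * x * t⁻¹ * x⁻¹ * y * (t * x * t⁻¹ * x⁻¹)⁻¹ * y⁻¹ := by group
    rw [h5] at h3
    exact h3
-- END da6

end

section
variable {L : Type} [Group L] [Finite L] {U E : Subgroup L} {n : ℕ} {M : Fin n → Subgroup L}

/-- The number of cosets of `E` which contain an `x` with `x ^ 3 = 1` which centralizes `U`. -/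
noncomputable def Ct3 (U E : Subgroup L) : ℕ :=
  Nat.card {y : L ⧸ E // ∃ x : L, (x : L ⧸ E) = y ∧ x ^ 3 = 1 ∧ ∀ u ∈ U, x * u = u * x}

-- BEGIN db1
private theorem db1_E (hN : U.Normal) (hE : SE U E n M) (x : L)
    (hxU : ∀ u ∈ U, x * u = u * x) (hx : ∀ i, ∀ y ∈ M i, x * y * x⁻¹ * y⁻¹ ∈ U) : x ∈ E := by
  refine hE.big x hxU ?_
  let T : Subgroup L :=
    { carrier := {y | x * y * x⁻¹ * y⁻¹ ∈ U}
      one_mem' := by
        show x * 1 * x⁻¹ * 1⁻¹ ∈ U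
        simp
      mul_mem' := by
        intro y z hy hz
        have hy' : x * y * x⁻¹ * y⁻¹ ∈ U := hy
        have hz' : x * z * x⁻¹ * z⁻¹ ∈ U := hz
        show x * (y * z) * x⁻¹ * (y * z)⁻¹ ∈ U
        have h2 := U.mul_mem hy' (hN.conj_mem _ hz' y)
        have h3 : x * (y * z) * x⁻¹ * (y * z)⁻¹ =
          x * y * x⁻¹ * y⁻¹ * (y * (x * z * x⁻¹ * z⁻¹) * y⁻¹) := by group
        rw [h3]; exact h2
      inv_mem' := by
        intro y hy
        have hy' : x * y * x⁻¹ * y⁻¹ ∈ U := hy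
        show x * y⁻¹ * x⁻¹ * (y⁻¹)⁻¹ ∈ U
        have h2 := hN.conj_mem _ (U.inv_mem hy') y⁻¹
        have h3 : x * y⁻¹ * x⁻¹ * (y⁻¹)⁻¹ =
          y⁻¹ * (x * y * x⁻¹ * y⁻¹)⁻¹ * (y⁻¹)⁻¹ := by group
        rw [h3]; exact h2 }
  have hT := hE.gen T (by
    intro u hu
    show x * u * x⁻¹ * u⁻¹ ∈ U
    rw [hxU u hu, mul_inv_cancel_right, mul_inv_cancel]
    exact U.one_mem) (fun i y hy => hx i y hy)
  exact fun y hy => hT hy

/-- (db1, size 3) PROOF. Choose for every coset `y` in the set of `Ct3` an `x` as there, and map it to the family of the actions of `x` on the `M i / U`, elements of `A3 U (M i)`. This is injective: if `x`, `x'` act in the same way on all the `M i / U`, then `x⁻¹ x'` centralizes `U` and is trivial on all the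
`M i / U`, so on `E / U` (`hE.gen` for the subgroup of the `y` with `[x⁻¹ x', y] ∈ U`; see `zd2_E` in Nfv/Zl.lean), so it is in `E` (`hE.big`). `Nat.card (Π i, A3 U (M i)) = ∏ i, Nat.card (A3 U (M i))`. -/
theorem ct3_prod (hN : U.Normal) (hE : SE U E n M) (g : Fin n → ℕ)
    (hg : ∀ i, Nat.card (A3 U (M i)) ≤ g i) : Ct3 U E ≤ ∏ i, g i := by
  classical
  have hch : ∀ y : {y : L ⧸ E // ∃ x : L, (x : L ⧸ E) = y ∧ x ^ 3 = 1 ∧ ∀ u ∈ U, x * u = u * x},
      ∃ x : L, (x : L ⧸ E) = y.1 ∧ x ^ 3 = 1 ∧ ∀ u ∈ U, x * u = u * x := fun y => y.2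
  choose X hX1 hX2 hX3 using hch
  let f : {y : L ⧸ E // ∃ x : L, (x : L ⧸ E) = y ∧ x ^ 3 = 1 ∧ ∀ u ∈ U, x * u = u * x} →
      ∀ i, A3 U (M i) := fun y i =>
    ⟨fun m => ((X y * (m : L) * (X y)⁻¹ : L) : L ⧸ U), X y, hX3 y, hX2 y, fun _ => rfl⟩
  have hf : Function.Injective f := by
    intro y y' hyy
    have h1 : ∀ i, ∀ m ∈ M i, (X y)⁻¹ * X y' * m * ((X y)⁻¹ * X y')⁻¹ * m⁻¹ ∈ U := by
      intro i m hm
      have h2 := congrArg Subtype.val (congrFun hyy i)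
      have h3 : ((X y * m * (X y)⁻¹ : L) : L ⧸ U) = ((X y' * m * (X y')⁻¹ : L) : L ⧸ U) :=
        congrFun h2 ⟨m, hm⟩
      have h4 := QuotientGroup.eq.1 h3
      have h5 := hN.conj_mem _ h4 (m * (X y)⁻¹)
      have h6 : m * (X y)⁻¹ * ((X y * m * (X y)⁻¹)⁻¹ * (X y' * m * (X y')⁻¹)) *
          (m * (X y)⁻¹)⁻¹ = (X y)⁻¹ * X y' * m * ((X y)⁻¹ * X y')⁻¹ * m⁻¹ := by group
      rw [h6] at h5
      exact h5
    have h7 : ∀ u ∈ U, (X y)⁻¹ * X y' * u = u * ((X y)⁻¹ * X y') := by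
      intro u hu
      have h8 := hX3 y u hu
      have h9 := hX3 y' u hu
      have h10 : (X y)⁻¹ * u = u * (X y)⁻¹ := by
        rw [inv_mul_eq_iff_eq_mul, ← mul_assoc, h8, mul_inv_cancel_right]
      rw [mul_assoc, h9, ← mul_assoc, h10, mul_assoc]
    have h11 : (X y)⁻¹ * X y' ∈ E := db1_E hN hE _ h7 h1
    apply Subtype.ext
    rw [← hX1 y, ← hX1 y']
    exact QuotientGroup.eq.2 h11
  have hfin : ∀ i, Finite (A3 U (M i)) := fun i => inferInstance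
  calc Ct3 U E ≤ Nat.card (∀ i, A3 U (M i)) := Nat.card_le_card_of_injective f hf
    _ = ∏ i, Nat.card (A3 U (M i)) := Nat.card_pi
    _ ≤ ∏ i, g i := Finset.prod_le_prod' fun i _ => hg i
-- END db1

-- BEGIN db2
private theorem db2_pow {r a m : ℕ} (hr : r.Prime) (h : a ^ 2 = r ^ m) {q : ℕ} (hq : q.Prime)
    (hqa : q ∣ a) : q = r :=
  (Nat.prime_dvd_prime_iff_eq hq hr).1 (hq.dvd_of_dvd_pow (h ▸ dvd_pow hqa (by norm_num)))

private theorem db2_one {a n : ℕ} (ha : 1 < a) (h : a ^ n = a) (g : ℕ) : g ^ n = g := by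
  have h1 : n = 1 := Nat.pow_right_injective ha (by simpa using h)
  rw [h1, pow_one]

/-- (db2, size 4) PROOF. `se_sq`: `U.relIndex (M i) = (ee i) ^ 2`, `ee i ≥ 2`, `∏ ee i = e`. `M i / U` is a group of prime power order (`chief`: it is isomorphic to a module over `ZMod r`), so `ee i` is a power of a prime which divides `e`; as `e` is one of `5, 7, 10, 11` (squarefree) all the `ee i` are primes, and not 3. `act3` for `N = M i`
(`zd1_prg`): `card (A3 U (M i)) ≤ (ee i) ^ 2 + ee i + 1 ≤ (ee i) ^ 3`. `ct3_prod`. If `e` is prime then exactly one factor: `n = 1`, `ee 0 = e` (every `ee i` divides `e`, so it is `e`, `e ^ n = e`). `e = 10, 11`: `∏ (ee i) ^ 3 = e ^ 3`. -/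
theorem ct3_num (hs : Group.IsSolvable L) (hc : IsCyclic U) (hN : U.Normal)
    (hmx : ∀ N : Subgroup L, Ab N → U ≤ N → N ≤ U) (hE : SE U E n M) (e : ℕ)
    (he : U.relIndex E = e ^ 2) :
    (e = 5 → Ct3 U E ≤ 31) ∧ (e = 7 → Ct3 U E ≤ 57) ∧ (e = 10 → Ct3 U E ≤ 1000) ∧
    (e = 11 → Ct3 U E ≤ 1331) := by
  obtain ⟨ee, h1, h2⟩ := se_sq hc hN hmx hE e he
  have hdv : ∀ i, ee i ∣ e := fun i => by
    rw [← h2]
    exact Finset.dvd_prod_of_mem ee (Finset.mem_univ i)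
  have hpw : ∀ i, ∃ r m : ℕ, r.Prime ∧ ee i ^ 2 = r ^ m := by
    intro i
    have := hN
    obtain ⟨r, hr, S, _, _, _, _, ρ, q, _, _, _, _, _, hS, _⟩ :=
      chief hs U (M i) (hE.mN i) (hE.mU i) (hE.mMin i)
    have h3 := Module.natCard_eq_pow_finrank (K := ZMod r) (V := S)
    rw [Nat.card_zmod, hS, (h1 i).2] at h3
    exact ⟨r, _, hr.out, h3⟩
  have hA : ∀ i, (ee i).Prime → ee i ≠ 3 →
      Nat.card (A3 U (M i)) ≤ ee i ^ 2 + ee i + 1 := fun i hp h3 =>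
    act3 (zd1_prg hc hmx hE i) hN (hE.mN i) (ee i) hp h3 (h1 i).2
  have hone : e.Prime → e ≠ 3 → Ct3 U E ≤ e ^ 2 + e + 1 := by
    intro hp h3
    have h4 : ∀ i, ee i = e := fun i =>
      ((Nat.dvd_prime hp).1 (hdv i)).resolve_left (by have := (h1 i).1; omega)
    have h5 : e ^ n = e := by
      have : ∏ i : Fin n, ee i = e ^ n := by
        rw [Finset.prod_congr rfl fun i _ => h4 i]
        simp
      rw [← this, h2]
    have h6 := ct3_prod hN hE (fun _ => e ^ 2 + e + 1) fun i => by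
      have := hA i (by rw [h4 i]; exact hp) (by rw [h4 i]; exact h3)
      rw [h4 i] at this
      exact this
    rw [Finset.prod_const, Finset.card_univ, Fintype.card_fin, db2_one hp.one_lt h5] at h6
    exact h6
  refine ⟨?_, ?_, ?_, ?_⟩
  · rintro rfl
    exact hone (by norm_num) (by norm_num)
  · rintro rfl
    exact hone (by norm_num) (by norm_num)
  · rintro rfl
    have h3 : ∀ i, ee i = 2 ∨ ee i = 5 := by
      intro i
      obtain ⟨r, m, hr, hrm⟩ := hpw i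
      have h4 := hdv i
      have h5 := Nat.le_of_dvd (by norm_num) h4
      have h6 := (h1 i).1
      have h7 : ee i ≠ 10 := by
        intro h
        have a1 := db2_pow hr hrm Nat.prime_two (h ▸ (by norm_num))
        have a2 := db2_pow hr hrm Nat.prime_five (h ▸ (by norm_num))
        omega
      generalize ee i = x at *
      interval_cases x <;> simp_all
    have h4 : ∀ i, Nat.card (A3 U (M i)) ≤ ee i ^ 3 := by
      intro i
      rcases h3 i with h | h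
      · refine (hA i (by rw [h]; norm_num) (by rw [h]; norm_num)).trans ?_
        rw [h]; norm_num
      · refine (hA i (by rw [h]; norm_num) (by rw [h]; norm_num)).trans ?_
        rw [h]; norm_num
    have h5 := ct3_prod hN hE (fun i => ee i ^ 3) h4
    rw [Finset.prod_pow, h2] at h5
    exact h5
  · rintro rfl
    exact (hone (by norm_num) (by norm_num)).trans (by norm_num)
-- END db2

-- BEGIN db3
/-- (db3, size 2) PROOF. The cosets in the set of `Ct3` are contained in the centralizer `C` of `U` (`E ≤ C`), so `Ct3 ≤ E.relIndex C`, and `4 * E.relIndex C ≤ U.relIndex E ^ 3` by `cs_ob` with `ob` (see `card_C` in Nfv/Cn.lean). -/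
theorem ct3_gen (hs : Group.IsSolvable L) (hN : U.Normal) (hE : SE U E n M) (hn : 0 < n)
    (e : ℕ) (he : U.relIndex E = e ^ 2) : 4 * Ct3 U E ≤ e ^ 6 := by
  have hEC : E ≤ Subgroup.centralizer (U : Set L) := fun x hx =>
    Subgroup.mem_centralizer_iff.2 fun u hu => (hE.cU x hx u hu).symm
  have h6 := cs_ob hs hN hE hn (U.relIndex E) (ob _) le_rfl
  have h7 : Ct3 U E ≤ E.relIndex (Subgroup.centralizer (U : Set L)) := by
    unfold Ct3
    set C : Subgroup L := Subgroup.centralizer (U : Set L) with hC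
    choose f hf1 hf2 hf3 using fun y : {y : L ⧸ E // ∃ x : L, (x : L ⧸ E) = y ∧ x ^ 3 = 1 ∧
      ∀ u ∈ U, x * u = u * x} => y.2
    have hfC : ∀ y, f y ∈ C := fun y => Subgroup.mem_centralizer_iff.2 fun u hu => (hf3 y u hu).symm
    have hfin : Finite (C ⧸ E.subgroupOf C) := inferInstance
    refine Nat.card_le_card_of_injective
      (fun y => ((⟨f y, hfC y⟩ : C) : C ⧸ E.subgroupOf C)) ?_
    intro y y' hyy
    have h1 : (⟨f y, hfC y⟩ : C)⁻¹ * ⟨f y', hfC y'⟩ ∈ E.subgroupOf C := QuotientGroup.eq.1 hyy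
    rw [Subgroup.mem_subgroupOf] at h1
    apply Subtype.ext
    rw [← hf1 y, ← hf1 y']
    exact QuotientGroup.eq.2 h1
  calc 4 * Ct3 U E ≤ 4 * E.relIndex (Subgroup.centralizer (U : Set L)) := Nat.mul_le_mul_left _ h7
    _ ≤ U.relIndex E ^ 3 := h6
    _ = e ^ 6 := by rw [he]; ring
-- END db3

end

section
variable {p : ℕ} [Fact p.Prime] {L W : Type} [Group L] [Finite L] [AddCommGroup W]
  [Module (ZMod p) W] [Finite W] [Nontrivial W] {ρ : Representation (ZMod p) L W}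
  {U : Subgroup L}

/-- The nonzero vectors which are fixed by a nontrivial Sylow 3-subgroup. -/
def B3 (ρ : Representation (ZMod p) L W) : Set W :=
  {w | w ≠ 0 ∧ ∃ T : Sylow 3 L, (∃ x ∈ (T : Subgroup L), x ≠ 1) ∧
    ∀ x ∈ (T : Subgroup L), ρ x w = w}

/-- The nonzero vectors which are fixed by an element of order 3 which centralizes `U`. -/
def B3c (ρ : Representation (ZMod p) L W) (U : Subgroup L) : Set W :=
  {w | w ≠ 0 ∧ ∃ x : L, (x ≠ 1 ∧ x ^ 3 = 1 ∧ ∀ u ∈ U, x * u = u * x) ∧ ρ x w = w}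

-- BEGIN dc1
private theorem dc1_dc {ρ : Representation (ZMod p) L W} (P : L → Prop) (m s : ℕ)
    (hm : ∀ x, P x → ∀ w : W, ρ x w = w → m ≤ Nat.card {y : L // P y ∧ ρ y w = w})
    (hs : ∀ x, P x → Nat.card {w : W // ρ x w = w} ≤ s + 1) :
    m * Nat.card {w : W // w ≠ 0 ∧ ∃ x : L, P x ∧ ρ x w = w} ≤ Nat.card {x : L // P x} * s := by
  classical
  have := Fintype.ofFinite L
  have := Fintype.ofFinite W
  have h := Finset.card_mul_le_card_mul (fun (w : W) (x : L) => ρ x w = w)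
    (s := Finset.univ.filter fun w : W => w ≠ 0 ∧ ∃ x : L, P x ∧ ρ x w = w)
    (t := Finset.univ.filter fun x : L => P x) (m := m) (n := s) (by
      intro w hw
      obtain ⟨_, x, hx, hxw⟩ := (Finset.mem_filter.1 hw).2
      refine (hm x hx w hxw).trans (le_of_eq ?_)
      rw [Nat.card_eq_fintype_card, Fintype.card_subtype, Finset.bipartiteAbove, Finset.filter_filter]) (by
      intro x hx
      have h1 := hs x (Finset.mem_filter.1 hx).2
      rw [Nat.card_eq_fintype_card, Fintype.card_subtype] at h1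
      have h0 : (0 : W) ∈ Finset.univ.filter fun w : W => ρ x w = w :=
        Finset.mem_filter.2 ⟨Finset.mem_univ _, map_zero _⟩
      have h2 : (Finset.univ.filter fun w : W => w ≠ 0 ∧ ∃ x : L, P x ∧ ρ x w = w).bipartiteBelow
          (fun (w : W) (x : L) => ρ x w = w) x ⊆ (Finset.univ.filter fun w : W => ρ x w = w).erase 0 := by
        intro w hw
        rw [Finset.bipartiteBelow, Finset.mem_filter] at hw
        exact Finset.mem_erase.2 ⟨(Finset.mem_filter.1 hw.1).2.1,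
          Finset.mem_filter.2 ⟨Finset.mem_univ _, hw.2⟩⟩
      have h3 := Finset.card_le_card h2
      rw [Finset.card_erase_of_mem h0] at h3
      omega)
  rw [Nat.card_eq_fintype_card, Nat.card_eq_fintype_card, Fintype.card_subtype, Fintype.card_subtype,
    mul_comm m]
  exact h

private theorem dc1_ct {E : Subgroup L} {n : ℕ} {M : Fin n → Subgroup L} (hc : IsCyclic U)
    (hE : SE U E n M) (h3 : ¬ 3 ∣ Nat.card U) (e : ℕ) (he : U.relIndex E = e ^ 2) :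
    Nat.card {x : L // x ≠ 1 ∧ x ^ 3 = 1 ∧ ∀ u ∈ U, x * u = u * x} ≤ Ct3 U E * e ^ 2 := by
  classical
  have := hE.nor
  let A := {x : L // x ≠ 1 ∧ x ^ 3 = 1 ∧ ∀ u ∈ U, x * u = u * x}
  let B := {y : L ⧸ E // ∃ x : L, (x : L ⧸ E) = y ∧ x ^ 3 = 1 ∧ ∀ u ∈ U, x * u = u * x}
  let f : A → B := fun x => ⟨(x.1 : L ⧸ E), x.1, rfl, x.2.2.1, x.2.2.2⟩
  have : Fintype A := Fintype.ofFinite A
  have : Fintype B := Fintype.ofFinite B
  have hA : Nat.card A = (Finset.univ : Finset A).card := by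
    rw [Nat.card_eq_fintype_card, Finset.card_univ]
  have hB : Ct3 U E = (Finset.univ : Finset B).card := by
    show Nat.card B = _
    rw [Nat.card_eq_fintype_card, Finset.card_univ]
  show Nat.card A ≤ _
  rw [hA, hB, mul_comm]
  refine Finset.card_le_mul_card_image_of_maps_to (f := f) (fun _ _ => Finset.mem_univ _) _ ?_
  rintro ⟨y, x₀, hy, hx₀, hx₀U⟩ -
  rw [← he]
  refine le_trans ?_ (cos_cnt hc hE 3 Nat.prime_three h3 x₀)
  let b : B := ⟨y, x₀, hy, hx₀, hx₀U⟩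
  have h1 : (Finset.univ.filter fun a : A => f a = b).card = Nat.card {a : A // f a = b} := by
    rw [Nat.card_eq_fintype_card, Fintype.card_subtype]
  show (Finset.univ.filter fun a : A => f a = b).card ≤ _
  rw [h1]
  have h2 : ∀ a : {a : A // f a = b}, x₀⁻¹ * a.1.1 ∈ E := by
    rintro ⟨⟨x, hx⟩, hxb⟩
    have h3 : (x : L ⧸ E) = y := congrArg Subtype.val hxb
    exact QuotientGroup.eq.1 (hy.trans h3.symm)
  refine Nat.card_le_card_of_injective (fun a : {a : A // f a = b} =>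
    (⟨a.1.1, a.1.2.2.2, a.1.2.2.1, h2 a⟩ : {x : L // (∀ u ∈ U, x * u = u * x) ∧ x ^ 3 = 1 ∧
      x₀⁻¹ * x ∈ E})) ?_
  rintro ⟨⟨x, hx⟩, hxb⟩ ⟨⟨x', hx'⟩, hxb'⟩ haa
  have h3 : x = x' := congrArg Subtype.val haa
  subst h3
  rfl

/-- (dc1, size 3) Double counting, as in `bk_cnt`. PROOF. Every `w` in `B3c` is fixed by at least 2 elements of order 3 of the centralizer of `U` (`x` and `x ^ 2`), each of these fixes at most `Nat.sqrt (card W)` vectors, 0 is one of them (`fix_half` with `l = 3`; `x ∉ E` by `zd4_nE`), and there are at most `Ct3 U E * e ^ 2` of them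
(at most `e ^ 2` in each coset, `cos_cnt` with `l = 3`; compare `pe_ct`). -/
theorem b3c_cnt (h : QP ρ U) {E : Subgroup L} {n : ℕ} {M : Fin n → Subgroup L}
    (hE : SE U E n M) (h3 : ¬ 3 ∣ Nat.card U) (e : ℕ) (he : U.relIndex E = e ^ 2) :
    2 * Nat.card (B3c ρ U) ≤ Ct3 U E * e ^ 2 * (Nat.sqrt (Nat.card W) - 1) := by
  have hcy : IsCyclic U := qp_cyc h
  refine (dc1_dc (ρ := ρ) (fun x => x ≠ 1 ∧ x ^ 3 = 1 ∧ ∀ u ∈ U, x * u = u * x) 2
    (Nat.sqrt (Nat.card W) - 1) ?_ ?_).trans (Nat.mul_le_mul_right _ (dc1_ct hcy hE h3 e he))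
  · rintro x ⟨hx1, hx3, hxU⟩ w hw
    have hne : x ≠ x ^ 2 := by
      intro hxx
      apply hx1
      have h4 : x * 1 = x * x := by rw [mul_one, ← sq]; exact hxx
      exact (mul_left_cancel h4).symm
    have hx2 : x ^ 2 ≠ 1 := by
      intro h2
      apply hx1
      have h4 : x ^ 3 = x ^ 2 * x := pow_succ x 2
      rw [hx3, h2, one_mul] at h4
      exact h4.symm
    have hnt : Nontrivial {y : L // (y ≠ 1 ∧ y ^ 3 = 1 ∧ ∀ u ∈ U, y * u = u * y) ∧ ρ y w = w} := by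
      refine ⟨⟨x, ⟨hx1, hx3, hxU⟩, hw⟩, ⟨x ^ 2, ⟨hx2, ?_, ?_⟩, ?_⟩, ?_⟩
      · rw [← pow_mul, mul_comm, pow_mul, hx3, one_pow]
      · intro u hu
        exact (Commute.pow_left (show Commute x u from hxU u hu) _)
      · rw [sq, map_mul, Module.End.mul_apply, hw, hw]
      · intro hcon
        exact hne (congrArg Subtype.val hcon)
    exact Finite.one_lt_card_iff_nontrivial.2 hnt
  · rintro x ⟨hx1, hx3, hxU⟩
    have h1 := fix_half h hE 3 Nat.prime_three (by norm_num) h3 x hxU hx3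
      (zd4_nE hcy hE Nat.prime_three hx1 h3 hx3)
    have h2 : Nat.card {w : W // ρ x w = w} ≤ Nat.sqrt (Nat.card W) := Nat.le_sqrt'.2 h1
    omega
-- END dc1

-- BEGIN dc2
/-- (dc2, size 2) PROOF. The centralizer `C` of `U` is normal (`h.ab.nor`). If 3 divides `card C` then every Sylow 3-subgroup `T` of `L` meets `C` nontrivially (`T ⊓ C` is a Sylow 3-subgroup of `C`; or: a conjugate of `T` contains the given `x`, and `C` is normal), so `T` contains an element of order 3 of `C`. -/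
theorem b3_sub (h : QP ρ U) (hx : ∃ x : L, x ≠ 1 ∧ x ^ 3 = 1 ∧ ∀ u ∈ U, x * u = u * x) :
    B3 ρ ⊆ B3c ρ U := by
  rintro w ⟨hw0, T, -, hT⟩
  obtain ⟨x, hx1, hx3, hxU⟩ := hx
  have hpx : IsPGroup 3 (Subgroup.zpowers x) := by
    rw [IsPGroup.iff_orderOf]
    rintro ⟨y, k, rfl⟩
    have h1 : (⟨x ^ k, k, rfl⟩ : Subgroup.zpowers x) ^ 3 = 1 := by
      ext
      show (x ^ k) ^ 3 = 1
      rw [← zpow_natCast, ← zpow_mul, mul_comm, zpow_mul, zpow_natCast, hx3, one_zpow]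
    have h2 : orderOf (⟨x ^ k, k, rfl⟩ : Subgroup.zpowers x) ∣ 3 := orderOf_dvd_of_pow_eq_one h1
    rcases (Nat.dvd_prime Nat.prime_three).1 h2 with h3 | h3
    · exact ⟨0, by rw [pow_zero]; exact h3⟩
    · exact ⟨1, by rw [pow_one]; exact h3⟩
  obtain ⟨Q, hQ⟩ := hpx.exists_le_sylow
  haveI : Fact (Nat.Prime 3) := ⟨Nat.prime_three⟩
  obtain ⟨g, hg⟩ := MulAction.exists_smul_eq L Q T
  have hgx : g * x * g⁻¹ ∈ (T : Subgroup L) := by
    rw [← hg, Sylow.coe_subgroup_smul, Subgroup.mem_pointwise_smul_iff_inv_smul_mem]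
    have h1 : (MulAut.conj g)⁻¹ • (g * x * g⁻¹) = x := by
      rw [MulAut.smul_def, MulAut.conj_inv_apply]
      group
    rw [h1]
    exact hQ (Subgroup.mem_zpowers x)
  refine ⟨hw0, g * x * g⁻¹, ⟨?_, ?_, ?_⟩, hT _ hgx⟩
  · intro h1
    exact hx1 (conj_eq_one_iff.1 h1)
  · rw [conj_pow, hx3, mul_one, mul_inv_cancel]
  · intro u hu
    have h1 : g⁻¹ * u * g ∈ U := by
      have := h.ab.nor.conj_mem u hu g⁻¹
      rwa [inv_inv] at this
    have h2 := hxU _ h1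
    calc g * x * g⁻¹ * u = g * (x * (g⁻¹ * u * g)) * g⁻¹ := by group
      _ = g * (g⁻¹ * u * g * x) * g⁻¹ := by rw [h2]
      _ = u * (g * x * g⁻¹) := by group
-- END dc2

-- BEGIN dc3
private theorem dc3_cn (h : QP ρ U) : (Subgroup.centralizer (U : Set L)).Normal := by
  haveI := h.ab.nor
  infer_instance

private theorem dc3_syl (h : QP ρ U) :
    Nat.card (Sylow 3 L) ≤ Nat.card (Subgroup.centralizer (U : Set L)) := by
  classical
  haveI : Fact (Nat.Prime 3) := ⟨Nat.prime_three⟩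
  haveI : (Subgroup.centralizer (U : Set L)).Normal := dc3_cn h
  obtain ⟨T⟩ := (inferInstance : Nonempty (Sylow 3 L))
  have hN : (Subgroup.centralizer (U : Set L) ⊔ (T : Subgroup L)).Normal := by
    refine ⟨fun n hn g => ?_⟩
    have h1 : g * n * g⁻¹ * n⁻¹ ∈ Subgroup.centralizer (U : Set L) ⊔ (T : Subgroup L) :=
      (le_sup_left : Subgroup.centralizer (U : Set L) ≤ _) (qp_abq h g n)
    have h2 := mul_mem h1 hn
    rwa [inv_mul_cancel_right] at h2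
  have h1 := Sylow.normalizer_sup_eq_top' (N := Subgroup.centralizer (U : Set L) ⊔
    (T : Subgroup L)) T le_sup_right
  have h2 : Subgroup.centralizer (U : Set L) ⊔ Subgroup.normalizer (T : Set L) = ⊤ := by
    rw [eq_top_iff, ← h1]
    refine sup_le le_sup_right (sup_le le_sup_left ?_)
    exact le_trans Subgroup.le_normalizer le_sup_right
  refine Nat.card_le_card_of_surjective
    (fun c : Subgroup.centralizer (U : Set L) => (c : L) • T) ?_
  intro T'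
  obtain ⟨g, rfl⟩ := MulAction.exists_smul_eq L T T'
  have hg : g ∈ ((Subgroup.centralizer (U : Set L) ⊔ Subgroup.normalizer (T : Set L) :
      Subgroup L) : Set L) := by
    rw [h2]
    exact Subgroup.mem_top g
  rw [Subgroup.normal_mul] at hg
  obtain ⟨c, hc, n, hn, rfl⟩ := Set.mem_mul.1 hg
  refine ⟨⟨c, hc⟩, ?_⟩
  show c • T = (c * n) • T
  rw [mul_smul, Sylow.smul_eq_iff_mem_normalizer.2 hn]

private theorem dc3_ord (T : Sylow 3 L) (hT : ∃ x ∈ (T : Subgroup L), x ≠ 1) :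
    ∃ y ∈ (T : Subgroup L), y ≠ 1 ∧ y ^ 3 = 1 := by
  haveI : Fact (Nat.Prime 3) := ⟨Nat.prime_three⟩
  obtain ⟨x, hxT, hx1⟩ := hT
  have h1 : 3 ∣ Nat.card T := by
    rcases T.isPGroup'.card_eq_or_dvd with h2 | h2
    · exfalso
      apply hx1
      have h3 : Subsingleton T := (Nat.card_eq_one_iff_unique.1 h2).1
      exact congrArg Subtype.val (Subsingleton.elim (⟨x, hxT⟩ : T) 1)
    · exact h2
  obtain ⟨y, hy⟩ := exists_prime_orderOf_dvd_card' (G := T) 3 h1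
  refine ⟨(y : L), y.2, ?_, ?_⟩
  · intro h2
    have h3 : y = 1 := Subtype.ext h2
    rw [h3, orderOf_one] at hy
    omega
  · have h2 := pow_orderOf_eq_one y
    rw [hy] at h2
    exact congrArg Subtype.val h2

/-- (dc3, size 4) The case that 3 does not divide the order of the centralizer `C` of `U`. PROOF. `C` is normal and `L / C` is cyclic (`qp_fld`: it is isomorphic to a group of automorphisms of a finite field; or commutative: `qp_abq`), so for a Sylow 3-subgroup `T` of `L` the subgroup `C T` is normal, contains all the Sylow 3-subgroups of `L`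
(they are conjugate), which are Sylow 3-subgroups of `C T`; their number is at most the index of `T` in `C T`, which is at most `card C`. Let `c` be the maximum of the `card {w // ρ x w = w}` over the `x ≠ 1` with `x ^ 3 = 1` (`c = 1` if there is none): such an `x` is not in `C`, so `c ^ 3 ≤ card W` by `qp_gal`. A nontrivial Sylow 3-subgroup
contains such an `x`, so it fixes at most `c - 1` nonzero vectors. If `B3` is not empty then 3 divides `C.index`, which divides `a` (`qp_gal`; `a` is determined by `card (AA ρ U) = p ^ a`). -/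
theorem b3_gal (h : QP ρ U) (a : ℕ) (ha : Nat.card (AA ρ U) = p ^ a)
    (hx : ∀ x : L, x ^ 3 = 1 → (∀ u ∈ U, x * u = u * x) → x = 1) :
    Nat.card (Sylow 3 L) ≤ Nat.card (Subgroup.centralizer (U : Set L)) ∧
    ∃ c : ℕ, 0 < c ∧ c ^ 3 ≤ Nat.card W ∧
      Nat.card (B3 ρ) ≤ Nat.card (Sylow 3 L) * (c - 1) ∧ (Nat.card (B3 ρ) ≠ 0 → 3 ∣ a) := by
  classical
  haveI : Fact (Nat.Prime 3) := ⟨Nat.prime_three⟩
  obtain ⟨b, hb, hU, hC, hAA, -, hfix⟩ := qp_gal h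
  have hp : 2 ≤ p := (Fact.out : p.Prime).two_le
  have hab : b = a := Nat.pow_right_injective hp (hAA.symm.trans ha)
  subst hab
  have hnc : ∀ x : L, x ≠ 1 → x ^ 3 = 1 → x ∉ Subgroup.centralizer (U : Set L) := by
    intro x hx1 hx3 hxc
    rw [Subgroup.mem_centralizer_iff] at hxc
    exact hx1 (hx x hx3 fun u hu => (hxc u hu).symm)
  refine ⟨dc3_syl h, ?_⟩
  have hW : 0 < Nat.card W := Nat.card_pos
  obtain ⟨c, hc, hc2⟩ : ∃ t : ℕ, t ^ 3 ≤ Nat.card W ∧ ∀ s : ℕ, s ^ 3 ≤ Nat.card W → s ≤ t := by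
    refine ⟨Nat.findGreatest (fun s => s ^ 3 ≤ Nat.card W) (Nat.card W), ?_, ?_⟩
    · exact Nat.findGreatest_spec (P := fun s => s ^ 3 ≤ Nat.card W) (m := 0) (Nat.zero_le _)
        (by norm_num)
    · intro s hs2
      exact Nat.le_findGreatest ((Nat.le_self_pow (by norm_num) s).trans hs2) hs2
  have hc0 : 0 < c := hc2 1 (by rw [one_pow]; exact hW)
  refine ⟨c, hc0, hc, ?_, ?_⟩
  · haveI := Fintype.ofFinite W
    haveI := Fintype.ofFinite (Sylow 3 L)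
    let F : Sylow 3 L → Finset W := fun T =>
      Finset.univ.filter fun w : W => w ≠ 0 ∧ (∃ x ∈ (T : Subgroup L), x ≠ 1) ∧
        ∀ x ∈ (T : Subgroup L), ρ x w = w
    have hF : ∀ T, (F T).card ≤ c - 1 := by
      intro T
      by_cases hT : ∃ x ∈ (T : Subgroup L), x ≠ 1
      · obtain ⟨y, hyT, hy1, hy3⟩ := dc3_ord T hT
        have h1 : Nat.card {w : W // ρ y w = w} ≤ c :=
          hc2 _ (hfix 3 y Nat.prime_three hy3 (hnc y hy1 hy3))
        rw [Nat.card_eq_fintype_card, Fintype.card_subtype] at h1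
        have h0 : (0 : W) ∈ Finset.univ.filter fun w : W => ρ y w = w :=
          Finset.mem_filter.2 ⟨Finset.mem_univ _, map_zero _⟩
        have h2 : F T ⊆ (Finset.univ.filter fun w : W => ρ y w = w).erase 0 := by
          intro w hw
          obtain ⟨-, hw0, -, hw1⟩ := Finset.mem_filter.1 hw
          exact Finset.mem_erase.2 ⟨hw0, Finset.mem_filter.2 ⟨Finset.mem_univ _, hw1 y hyT⟩⟩
        have h3 := Finset.card_le_card h2
        rw [Finset.card_erase_of_mem h0] at h3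
        omega
      · have h1 : F T = ∅ := by
          apply Finset.filter_false_of_mem
          rintro w - ⟨-, h2, -⟩
          exact hT h2
        rw [h1, Finset.card_empty]
        exact Nat.zero_le _
    have hB : B3 ρ ⊆ ((Finset.univ.biUnion F : Finset W) : Set W) := by
      rintro w ⟨hw0, T, hT1, hT2⟩
      rw [Finset.mem_coe, Finset.mem_biUnion]
      exact ⟨T, Finset.mem_univ _, Finset.mem_filter.2 ⟨Finset.mem_univ _, hw0, hT1, hT2⟩⟩
    calc Nat.card (B3 ρ) = (B3 ρ).ncard := rfl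
      _ ≤ ((Finset.univ.biUnion F : Finset W) : Set W).ncard :=
        Set.ncard_le_ncard hB (Set.toFinite _)
      _ = (Finset.univ.biUnion F).card := Set.ncard_coe_finset _
      _ ≤ (Finset.univ : Finset (Sylow 3 L)).card * (c - 1) :=
        Finset.card_biUnion_le_card_mul _ _ _ fun T _ => hF T
      _ = Nat.card (Sylow 3 L) * (c - 1) := by
        rw [Nat.card_eq_fintype_card, Finset.card_univ]
  · intro hne
    have h1 : Nonempty (B3 ρ) := by
      by_contra h2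
      rw [not_nonempty_iff] at h2
      exact hne Nat.card_of_isEmpty
    obtain ⟨w, -, T, hT, -⟩ := h1
    obtain ⟨y, -, hy1, hy3⟩ := dc3_ord T hT
    have hyc := hnc y hy1 hy3
    haveI : (Subgroup.centralizer (U : Set L)).Normal := dc3_cn h
    have h2 : orderOf ((y : L) : L ⧸ Subgroup.centralizer (U : Set L)) = 3 := by
      refine orderOf_eq_prime ?_ ?_
      · rw [← QuotientGroup.mk_pow, hy3, QuotientGroup.mk_one]
      · intro h3
        exact hyc ((QuotientGroup.eq_one_iff y).1 h3)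
    have h3 : orderOf ((y : L) : L ⧸ Subgroup.centralizer (U : Set L)) ∣
        Nat.card (L ⧸ Subgroup.centralizer (U : Set L)) := orderOf_dvd_natCard _
    rw [h2] at h3
    exact h3.trans hC
-- END dc3

-- BEGIN dc4
/-- a fixed point of the conjugation with `t` in the coset `y U` -/
private theorem dc4_fix {L : Type} [Group L] [Finite L] {U : Subgroup L} (hU : Nat.card U = 7)
    (hUn : U.Normal) (t y : L) (ht : t ^ 3 = 1) (hyu : y⁻¹ * (t * y * t⁻¹) ∈ U) :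
    ∃ z : L, y⁻¹ * z ∈ U ∧ t * z * t⁻¹ = z := by
  classical
  have hf : ∀ z : L, y⁻¹ * ((MulAut.conj t).toEquiv z) ∈ U ↔ y⁻¹ * z ∈ U := by
    intro z
    have h1 : y⁻¹ * ((MulAut.conj t).toEquiv z) =
        (y⁻¹ * (t * y * t⁻¹)) * (t * (y⁻¹ * z) * t⁻¹) := by
      show y⁻¹ * (t * z * t⁻¹) = _
      group
    rw [h1, Subgroup.mul_mem_cancel_left U hyu]
    constructor
    · intro h2
      have h3 := hUn.conj_mem _ h2 t⁻¹
      have h4 : t⁻¹ * (t * (y⁻¹ * z) * t⁻¹) * t⁻¹⁻¹ = y⁻¹ * z := by group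
      rwa [h4] at h3
    · intro h2
      exact hUn.conj_mem _ h2 t
  let S := {z : L // y⁻¹ * z ∈ U}
  let σ : Equiv.Perm S := Equiv.Perm.subtypePerm (MulAut.conj t).toEquiv hf
  let _ : Fintype S := Fintype.ofFinite S
  have : Fact (Nat.Prime 3) := ⟨by norm_num⟩
  have hcard : Fintype.card S = 7 := by
    rw [← Nat.card_eq_fintype_card, ← hU]
    refine Nat.card_congr ⟨fun z => ⟨y⁻¹ * z.1, z.2⟩, fun u => ⟨y * u.1, ?_⟩, ?_, ?_⟩
    · rw [inv_mul_cancel_left]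
      exact u.2
    · intro z
      apply Subtype.ext
      simp
    · intro u
      apply Subtype.ext
      simp
  have hσ : σ ^ 3 ^ 1 = 1 := by
    ext z
    rw [pow_one]
    have h5 : ((σ ^ 3) z : S) = σ (σ (σ z)) := rfl
    rw [h5]
    show t * (t * (t * z.1 * t⁻¹) * t⁻¹) * t⁻¹ = z.1
    have h6 : t * (t * (t * z.1 * t⁻¹) * t⁻¹) * t⁻¹ = t ^ 3 * z.1 * (t ^ 3)⁻¹ := by
      simp only [pow_succ, pow_zero, one_mul, mul_inv_rev, mul_assoc]
    rw [h6, ht]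
    group
  obtain ⟨a, ha⟩ := Equiv.Perm.exists_fixed_point_of_prime (p := 3) (n := 1)
    (by rw [hcard]; norm_num) hσ
  exact ⟨a.1, a.2, congrArg Subtype.val ha⟩

/-- the group theory of `sy_78` -/
private theorem dc4_grp {L : Type} [Group L] [Finite L] {U E C : Subgroup L} (hCn : C.Normal)
    (hEn : E.Normal) (hUn : U.Normal) (hUE : U ≤ E) (hEC : E ≤ C)
    (hU : Nat.card U = 7)
    (hUi : U.relIndex E = 49) (hk : E.relIndex C ≤ 336) (hCi : C.index ∣ 3)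
    (hx : ∀ x ∈ C, x ^ 3 = 1 → x = 1)
    (hsc : ∀ t : L, t ^ 3 = 1 → t ∉ C → (∀ y ∈ E, t * y * t⁻¹ * y⁻¹ ∈ U → y ∈ U) →
      ∀ x ∈ C, t * x * t⁻¹ * x⁻¹ ∈ E) : Nat.card (Sylow 3 L) ≤ 16464 := by
  classical
  have h3 : Fact (Nat.Prime 3) := ⟨by norm_num⟩
  have hcE : Nat.card E = 343 := by
    have h1 := Subgroup.relIndex_mul_relIndex ⊥ U E bot_le hUE
    rw [Subgroup.relIndex_bot_left, Subgroup.relIndex_bot_left, hU, hUi] at h1
    omega
  have hcC : Nat.card C = 343 * E.relIndex C := by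
    have h1 := Subgroup.relIndex_mul_relIndex ⊥ E C bot_le hEC
    rw [Subgroup.relIndex_bot_left, Subgroup.relIndex_bot_left, hcE] at h1
    omega
  have hcL : Nat.card C * C.index = Nat.card L := Subgroup.card_mul_index C
  have h3C : ¬ 3 ∣ Nat.card C := by
    intro hd
    obtain ⟨x, hxo⟩ := exists_prime_orderOf_dvd_card' (G := C) 3 hd
    have h1 : (x : L) ^ 3 = 1 := by
      have h2 := pow_orderOf_eq_one x
      rw [hxo] at h2
      exact congrArg Subtype.val h2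
    have h4 := hx x.1 x.2 h1
    have h5 : x = 1 := Subtype.ext h4
    rw [h5, orderOf_one] at hxo
    omega
  have hCpos : Nat.card C ≠ 0 := Nat.card_pos.ne'
  obtain ⟨T⟩ : Nonempty (Sylow 3 L) := inferInstance
  have hcT := T.card_eq_multiplicity
  have hidx := Sylow.card_eq_index_normalizer T
  have hni := Subgroup.card_mul_index (Subgroup.normalizer (T : Set L))
  rcases (Nat.dvd_prime h3.out).1 hCi with hi | hi
  · -- no elements of order 3
    rw [hi, mul_one] at hcL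
    have h1 : (Nat.card L).factorization 3 = 0 := by
      rw [← hcL]
      exact Nat.factorization_eq_zero_of_not_dvd h3C
    rw [h1, pow_zero] at hcT
    have hTb : (T : Subgroup L) = ⊥ := Subgroup.card_eq_one.1 hcT
    have h2 : (Subgroup.normalizer (T : Set L)) = ⊤ := by
      have h4 : (T : Subgroup L).Normal := by
        rw [hTb]
        infer_instance
      exact Subgroup.normalizer_eq_top (T : Subgroup L)
    rw [hidx, h2, Subgroup.index_top]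
    norm_num
  · -- order 3
    rw [hi] at hcL
    have h1 : (Nat.card L).factorization 3 = 1 := by
      rw [← hcL, Nat.factorization_mul hCpos (by norm_num)]
      have h4 : (Nat.card C).factorization 3 = 0 := Nat.factorization_eq_zero_of_not_dvd h3C
      have h5 : (Nat.factorization 3) 3 = 1 := Nat.Prime.factorization_self h3.out
      rw [Finsupp.add_apply, h4, h5]
    rw [h1, pow_one] at hcT
    obtain ⟨t, htT, ht1⟩ : ∃ t ∈ (T : Subgroup L), t ≠ 1 := by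
      by_contra hcon
      push Not at hcon
      have h4 : (T : Subgroup L) = ⊥ := (Subgroup.eq_bot_iff_forall _).2 hcon
      rw [h4, Subgroup.card_bot] at hcT
      omega
    have ht3 : t ^ 3 = 1 := by
      have h4 : (⟨t, htT⟩ : (T : Subgroup L)) ^ Nat.card (T : Subgroup L) = 1 := pow_card_eq_one'
      rw [hcT] at h4
      exact congrArg Subtype.val h4
    have htC : t ∉ C := fun h => ht1 (hx t h ht3)
    have hto : orderOf t = 3 := orderOf_eq_prime ht3 ht1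
    have hTz : (T : Subgroup L) = Subgroup.zpowers t := by
      refine (Subgroup.eq_of_le_of_card_ge ((Subgroup.zpowers_le).2 htT) ?_).symm
      rw [Nat.card_zpowers, hto, hcT]
    by_cases hc : ∀ y ∈ E, t * y * t⁻¹ * y⁻¹ ∈ U → y ∈ U
    · -- all Sylow subgroups are in `E T`
      have hs := hsc t ht3 htC hc
      have hTE : (T : Subgroup L) ≤ E ⊔ (T : Subgroup L) := le_sup_right
      have hEE : E ≤ E ⊔ (T : Subgroup L) := le_sup_left
      have hCT : C ⊔ (T : Subgroup L) = ⊤ := by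
        have h4 : (C ⊔ (T : Subgroup L)).index ∣ 3 := by
          have h5 := Subgroup.index_dvd_of_le (le_sup_left : C ≤ C ⊔ (T : Subgroup L))
          rwa [hi] at h5
        rcases (Nat.dvd_prime h3.out).1 h4 with h5 | h5
        · exact Subgroup.index_eq_one.1 h5
        · exfalso
          have h6 := Subgroup.relIndex_mul_index (le_sup_left : C ≤ C ⊔ (T : Subgroup L))
          rw [h5, hi] at h6
          have h7 : C.relIndex (C ⊔ (T : Subgroup L)) = 1 := by omega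
          exact htC (Subgroup.relIndex_eq_one.1 h7 (Subgroup.mem_sup_right htT))
      have hN : (E ⊔ (T : Subgroup L)).Normal := by
        -- conjugates of `t`
        have ha : ∀ c ∈ C, c * t * c⁻¹ ∈ E ⊔ (T : Subgroup L) := by
          intro c hcC
          have h4 : c * t * c⁻¹ = (t * c * t⁻¹ * c⁻¹)⁻¹ * t := by group
          rw [h4]
          exact mul_mem (hEE (E.inv_mem (hs c hcC))) (hTE htT)
        have hb : ∀ g : L, g * t * g⁻¹ ∈ E ⊔ (T : Subgroup L) := by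
          intro g
          have h4 : g ∈ C ⊔ (T : Subgroup L) := by rw [hCT]; exact Subgroup.mem_top g
          obtain ⟨c, hcC, τ, hτ, rfl⟩ := Subgroup.mem_sup_of_normal_left.1 h4
          have h5 : τ * t = t * τ := by
            rw [hTz] at hτ
            obtain ⟨k, rfl⟩ := Subgroup.mem_zpowers_iff.1 hτ
            exact (Commute.zpow_self t k)
          have h6 : c * τ * t * (c * τ)⁻¹ = c * t * c⁻¹ := by
            rw [mul_assoc c τ t, h5]
            group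
          rw [h6]
          exact ha c hcC
        refine ⟨fun x hxx g => ?_⟩
        obtain ⟨e, he, τ, hτ, rfl⟩ := Subgroup.mem_sup_of_normal_left.1 hxx
        have h7 : g * (e * τ) * g⁻¹ = (g * e * g⁻¹) * (g * τ * g⁻¹) := by group
        rw [h7]
        refine mul_mem (hEE (hEn.conj_mem e he g)) ?_
        rw [hTz] at hτ
        obtain ⟨k, rfl⟩ := Subgroup.mem_zpowers_iff.1 hτ
        rw [← conj_zpow]
        exact Subgroup.zpow_mem _ (hb g) k
      have hF := Sylow.normalizer_sup_eq_top' T hTE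
      have hF2 : Subgroup.normalizer (T : Set L) ⊔ E = ⊤ := by
        rw [eq_top_iff, ← hF]
        refine sup_le le_sup_left (sup_le le_sup_right ?_)
        exact (Subgroup.le_normalizer (H := (T : Subgroup L))).trans le_sup_left
      have h8 : E.index ≤ Nat.card (Subgroup.normalizer (T : Set L)) := by
        have h9 := Subgroup.relIndex_sup_right (Subgroup.normalizer (T : Set L)) E
        rw [hF2, Subgroup.relIndex_top_right] at h9
        rw [h9]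
        have h10 := Subgroup.relIndex_dvd_of_le_left (Subgroup.normalizer (T : Set L))
          (bot_le : (⊥ : Subgroup L) ≤ E)
        rw [Subgroup.relIndex_bot_left] at h10
        exact Nat.le_of_dvd Nat.card_pos h10
      have h11 := Subgroup.card_mul_index E
      rw [hcE] at h11
      have h12 : 0 < Nat.card (Subgroup.normalizer (T : Set L)) := Nat.card_pos
      rw [hidx]
      have h13 : Nat.card (Subgroup.normalizer (T : Set L)) *
          (Subgroup.normalizer (T : Set L)).index ≤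
          Nat.card (Subgroup.normalizer (T : Set L)) * 343 := by
        rw [hni, ← h11, mul_comm]
        exact Nat.mul_le_mul_right 343 h8
      have h14 := Nat.le_of_mul_le_mul_left h13 h12
      omega
    · -- an element of order 7 commutes with `t`
      push Not at hc
      obtain ⟨y, hyE, hyt, hyU⟩ := hc
      have h4 : y⁻¹ * (t * y * t⁻¹) ∈ U := by
        have h5 : y⁻¹ * (t * y * t⁻¹) = y⁻¹ * (t * y * t⁻¹ * y⁻¹) * y⁻¹⁻¹ := by group
        rw [h5]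
        exact hUn.conj_mem _ hyt y⁻¹
      obtain ⟨z, hzy, hzt⟩ := dc4_fix hU hUn t y ht3 h4
      have hzE : z ∈ E := by
        have h5 := mul_mem hyE (hUE hzy)
        rwa [mul_inv_cancel_left] at h5
      have hz1 : z ≠ 1 := by
        rintro rfl
        rw [mul_one] at hzy
        exact hyU (inv_mem_iff.1 hzy)
      have hzo : 7 ∣ orderOf z := by
        have h5 : orderOf z ∣ 7 ^ 3 := by
          have h6 := Subgroup.orderOf_dvd_natCard E hzE
          rw [hcE] at h6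
          norm_num
          exact h6
        obtain ⟨i, hi3, hoi⟩ := (Nat.dvd_prime_pow (by norm_num : Nat.Prime 7)).1 h5
        rw [hoi]
        rcases Nat.eq_zero_or_pos i with rfl | hpos
        · rw [pow_zero] at hoi
          exact absurd (orderOf_eq_one_iff.1 hoi) hz1
        · exact dvd_pow_self 7 hpos.ne'
      have hzN : z ∈ Subgroup.normalizer (T : Set L) := by
        apply Subgroup.centralizer_le_normalizer (T : Set L)
        rw [Subgroup.mem_centralizer_iff]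
        intro τ hτ
        have hτ' : τ ∈ Subgroup.zpowers t := by
          rw [← hTz]
          exact hτ
        obtain ⟨k, rfl⟩ := Subgroup.mem_zpowers_iff.1 hτ'
        have h5 : Commute t z := by
          show t * z = z * t
          nth_rewrite 2 [← hzt]
          group
        exact (h5.zpow_left k)
      have htN : t ∈ Subgroup.normalizer (T : Set L) :=
        Subgroup.le_normalizer (H := (T : Subgroup L)) htT
      have h7N : 7 ∣ Nat.card (Subgroup.normalizer (T : Set L)) :=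
        hzo.trans (Subgroup.orderOf_dvd_natCard _ hzN)
      have h3N : 3 ∣ Nat.card (Subgroup.normalizer (T : Set L)) := by
        have h5 := Subgroup.orderOf_dvd_natCard _ htN
        rwa [hto] at h5
      have h21 : 21 ∣ Nat.card (Subgroup.normalizer (T : Set L)) := by
        have h5 : 7 * 3 ∣ Nat.card (Subgroup.normalizer (T : Set L)) :=
          Nat.Coprime.mul_dvd_of_dvd_of_dvd (by norm_num) h7N h3N
        exact h5
      have h21' : 21 ≤ Nat.card (Subgroup.normalizer (T : Set L)) :=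
        Nat.le_of_dvd Nat.card_pos h21
      rw [hidx]
      rw [← hcL, hcC] at hni
      have h6 : 21 * (Subgroup.normalizer (T : Set L)).index ≤ 343 * E.relIndex C * 3 := by
        rw [← hni]
        exact Nat.mul_le_mul_right _ h21'
      omega

/-- (dc4, size 5) The case `e = 7`, `p ^ a = 8`. PROOF. If the Sylow 3-subgroups are trivial there is one of them. `card U` divides 7 (`qp_gal`) and 7 divides `card U` (`sq_ex`, `7 ∣ e`), so `card U = 7`. The index of the centralizer `C` of `U` divides 3, so `card L = 3 * card C` or `card C`; 3 does not divide `card C` (`hx`, Cauchy), so the Sylow 3-subgroup `T`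
has order 3, `T = ⟨t⟩`, `t ∉ C`, `card L = 3 * card C`, `card C = 343 * k`, `k = E.relIndex C ≤ 48 * 7` (`cs_sl`). (i) Suppose that `t` has a fixed point on `E / U`: `y ∈ E`, `y ∉ U`, `[t, y] ∈ U`. Then `t` fixes some element `y' ≠ 1` of order 7 of `E` (the coset `y U` has 7 elements and is mapped to itself by the conjugation with `t`, which has order 3; 3 does not divide 7; and
`y' ∉ U`, `y' ^ 49 = 1`), so the centralizer of `t` in `C` has at least 7 elements, `T` times it is contained in the normalizer of `T`, so the number of Sylow 3-subgroups, the index of the normalizer, is at most `3 * 343 * k / 21 = 49 * k ≤ 49 * 336 = 16464`. (ii) Otherwise `scal` applies: `[t, x] ∈ E` for all `x ∈ C`, so `E T` is normalized by `C` and `T`, which generate `L`: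
all Sylow 3-subgroups are contained in `E T`, and their number is at most `card (E T) / card T = card E = 343` (a Sylow 3-subgroup of `E T`; index of the normalizer in `E T`). -/
theorem sy_78 (h : QP ρ U) {E : Subgroup L} {n : ℕ} {M : Fin n → Subgroup L}
    (hE : SE U E n M) (he : U.relIndex E = 7 ^ 2) (ha : Nat.card (AA ρ U) = 8)
    (hx : ∀ x : L, x ^ 3 = 1 → (∀ u ∈ U, x * u = u * x) → x = 1) :
    Nat.card (Sylow 3 L) ≤ 16464 := by
  have hc := qp_cyc h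
  have hUn : U.Normal := h.ab.nor
  obtain ⟨a, ha0, hUd, hCd, hAA, -, -⟩ := qp_gal h
  -- `p ^ a = 8`
  rw [ha] at hAA
  have hp : p.Prime := Fact.out
  have ha3 : a = 3 := by
    have h1 : p ∣ 2 ^ 3 := by
      have h2 : p ∣ p ^ a := dvd_pow_self p ha0.ne'
      rw [← hAA] at h2
      norm_num
      exact h2
    have h2 : p = 2 := (Nat.prime_dvd_prime_iff_eq hp Nat.prime_two).1 (hp.dvd_of_dvd_pow h1)
    rw [h2] at hAA
    have h3 : 2 ^ 3 = 2 ^ a := by rw [← hAA]; norm_num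
    exact (Nat.pow_right_injective le_rfl h3).symm
  rw [← hAA] at hUd
  rw [ha3] at hCd
  have hP : Prg U E := ⟨hc, hE.UE, hE.cU, hE.com, hE.cen⟩
  obtain ⟨e, he0, hee, hes⟩ := sq_ex hP
  have he7 : e = 7 := by
    rw [he] at hee
    exact (Nat.pow_left_injective (n := 2) (by norm_num) hee).symm
  have h7 : 7 ∣ Nat.card U := hes 7 (by norm_num) (by rw [he7])
  have hU7 : Nat.card U = 7 := by
    have h8 : Nat.card U ∣ 7 := by
      norm_num at hUd
      exact hUd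
    exact Nat.dvd_antisymm h8 h7
  have hCn : (Subgroup.centralizer (U : Set L)).Normal := by
    have := hUn
    infer_instance
  refine dc4_grp (U := U) (E := E) (C := Subgroup.centralizer (U : Set L)) hCn hE.nor hUn hE.UE
    ?_ hU7 (by rw [he]; norm_num) ?_ hCd ?_ ?_
  · intro x hxE
    rw [Subgroup.mem_centralizer_iff]
    intro u hu
    exact (hE.cU x hxE u hu).symm
  · have h9 := cs_sl hc hUn hE 7 (by norm_num) he
    norm_num at h9
    exact h9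
  · intro x hxC hx3
    refine hx x hx3 fun u hu => ?_
    exact (Subgroup.mem_centralizer_iff.1 hxC u hu).symm
  · intro t ht3 htC hf x hxC
    refine scal hc hUn hE 7 (by norm_num) he hU7 t ht3 ?_ hf x fun u hu => ?_
    · by_contra hcon
      push Not at hcon
      exact htC (Subgroup.mem_centralizer_iff.2 fun u hu => (hcon u hu).symm)
    · exact (Subgroup.mem_centralizer_iff.1 hxC u hu).symm
-- END dc4

end

-- BEGIN dd1
private theorem dd1_e (e : ℕ) (h : 29 ≤ e) : 9 * e ^ 16 ≤ 64 * 6 ^ e := by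
  induction e, h using Nat.le_induction with
  | base => norm_num
  | succ n hn ih =>
    have h1 : (n + 1) ^ 16 ≤ 6 * n ^ 16 := by
      have h2 : 29 * (n + 1) ≤ 30 * n := by omega
      have h3 : (29 * (n + 1)) ^ 16 ≤ (30 * n) ^ 16 := Nat.pow_le_pow_left h2 16
      rw [mul_pow, mul_pow] at h3
      have h4 : 30 ^ 16 * n ^ 16 ≤ 29 ^ 16 * (6 * n ^ 16) := by
        rw [← mul_assoc]
        exact Nat.mul_le_mul_right _ (by norm_num)
      exact Nat.le_of_mul_le_mul_left (h3.trans h4) (by positivity)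
    calc 9 * (n + 1) ^ 16 ≤ 9 * (6 * n ^ 16) := Nat.mul_le_mul_left _ h1
      _ = 6 * (9 * n ^ 16) := by ring
      _ ≤ 6 * (64 * 6 ^ n) := Nat.mul_le_mul_left _ ih
      _ = 64 * 6 ^ (n + 1) := by ring

/-- few elements: `2 b3 ≤ K (r - 1)`, `K ≤ 2 r`. -/
private theorem dd1_k (K b3 bk r V : ℕ) (hb : bk = 0) (h : 2 * b3 ≤ K * (r - 1)) (hK : K ≤ 2 * r)
    (hr : 2 ≤ r) (hV : r * r ≤ V) : b3 + bk + 1 < V := by
  obtain ⟨q, rfl⟩ : ∃ q, r = q + 1 := ⟨r - 1, by omega⟩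
  have h1 : K * (q + 1 - 1) ≤ 2 * (q + 1) * q := by
    rw [Nat.add_sub_cancel]
    exact Nat.mul_le_mul_right _ hK
  have h2 : 2 * b3 ≤ 2 * (q + 1) * q := h.trans h1
  have h3 : 2 * (q + 1) * q = 2 * (q * q) + 2 * q := by ring
  have h4 : (q + 1) * (q + 1) = q * q + 2 * q + 1 := by ring
  omega

private theorem dd1_64 (m e Q : ℕ) (h : m ≤ Q) (h2 : 9 * e ^ 16 ≤ 64 * m ^ e) :
    9 * e ^ 16 ≤ 64 * Q ^ e :=
  h2.trans (Nat.mul_le_mul_left _ (Nat.pow_le_pow_left h e))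

/-- (dd1, size 4) Numbers, the case `b3c_cnt`, `Bg` empty. `Q = p ^ a`, `r = √V`, `r ^ 2 ≤ V < (r + 1) ^ 2`. PROOF. `e = 5`: `Q ≥ 11` (`Q = 6` is not a prime power; see `bkx_25`), `V ≥ 11 ^ 5`, `r ≥ 401`, `bk = 0` (`h0`; see `bk_210`), `2 b3 ≤ 31 * 25 * (r - 1) = 775 (r - 1)`. `e = 7`: `Q ≥ 8`, `V ≥ 8 ^ 7`, `r ≥ 1448`, `bk = 0`, `2 b3 ≤ 57 * 49 * (r - 1) = 2793 (r - 1)`.
`e = 10`: `10 ∣ Q - 1`, `Q ≥ 11`, `r ≥ 11 ^ 5 = 161051`, `bk = 0`, `2 b3 ≤ 100000 (r - 1)`. `e = 11`: `Q ≥ 23` (`bkx_11`), `V ≥ 23 ^ 11`, `r ≥ 23 ^ 5 * 4`, `2 b3 ≤ 1331 * 121 * r`, `16 bk ≤ 11 ^ 8 r`. Otherwise `8 b3 ≤ e ^ 8 r`, `16 (b3 + bk) ≤ 3 e ^ 8 r`, and it suffices that `9 e ^ 16 ≤ 64 Q ^ e`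
(then `(16 (b3 + bk)) ^ 2 ≤ 9 e ^ 16 V ≤ 64 V ^ 2`, so `b3 + bk ≤ V / 2`): `e = 13`: `Q ≥ 27` (`Q = 14` no); `e = 14`: `Q ≥ 29` (`Q = 15` no); `e = 17, 19, 23`: `Q ≥ e + 1`; `e = 20`: `Q ≥ 11`; `e = 22`: `Q ≥ 23`; `e = 25`: `Q ≥ 11` (`Q = 6` no); `e = 26`: `Q ≥ 27`; `e = 28`: `Q ≥ 15`; `e ≥ 29`: `Q ≥ 6` and
`9 e ^ 16 ≤ 64 * 6 ^ e` (induction). -/
theorem num_B0 (p a e V b3 bk C3 s : ℕ) (hp : p.Prime) (ha : 0 < a) (he3 : ¬ 3 ∣ e)
    (hs : s.Prime) (hs5 : 5 ≤ s) (hse : s ∣ e) (he0 : 0 < e)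
    (hd : ∀ s : ℕ, s.Prime → s ∣ e → s ∣ p ^ a - 1) (hV : (p ^ a) ^ e ≤ V)
    (h3 : 2 * b3 ≤ C3 * e ^ 2 * (Nat.sqrt V - 1)) (h5 : e = 5 → C3 ≤ 31) (h7 : e = 7 → C3 ≤ 57)
    (h10 : e = 10 → C3 ≤ 1000) (h11 : e = 11 → C3 ≤ 1331) (hC : 4 * C3 ≤ e ^ 6)
    (h1 : 16 * bk ≤ e ^ 8 * Nat.sqrt V)
    (h0 : bk ≠ 0 → ∃ s k : ℕ, s.Prime ∧ 0 < k ∧ s ^ k ∣ e ∧ 4 ≤ s ^ k ∧ s ^ k ≠ 5 ∧ s ^ k ≠ 7) :
    b3 + bk + 1 < V := by
  have hQ2 : 2 ≤ p ^ a := hp.two_le.trans (Nat.le_self_pow ha.ne' p)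
  obtain ⟨Q, hQ⟩ : ∃ Q, p ^ a = Q := ⟨_, rfl⟩
  rw [hQ] at hd hV hQ2
  obtain ⟨r, hr⟩ : ∃ r, Nat.sqrt V = r := ⟨_, rfl⟩
  have hrr : r * r ≤ V := by rw [← hr]; exact Nat.sqrt_le V
  have hle : ∀ y : ℕ, y * y ≤ V → y ≤ r := fun y hy => by rw [← hr]; exact Nat.le_sqrt.2 hy
  rw [hr] at h3 h1
  have he5 : 5 ≤ e := hs5.trans (Nat.le_of_dvd he0 hse)
  have hV32 : 32 ≤ V := by
    calc 32 = 2 ^ 5 := by norm_num
      _ ≤ Q ^ 5 := Nat.pow_le_pow_left hQ2 5
      _ ≤ Q ^ e := Nat.pow_le_pow_right (by omega) he5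
      _ ≤ V := hV
  have hr2 : 2 ≤ r := hle 2 (by omega)
  have hVm : ∀ m : ℕ, m ≤ Q → m ^ e ≤ V := fun m hm => (Nat.pow_le_pow_left hm e).trans hV
  have hgen : 9 * e ^ 16 ≤ 64 * Q ^ e → b3 + bk + 1 < V := by
    intro h9
    have g1 : 8 * b3 ≤ e ^ 8 * r := by
      calc 8 * b3 = 4 * (2 * b3) := by ring
        _ ≤ 4 * (C3 * e ^ 2 * (r - 1)) := Nat.mul_le_mul_left _ h3
        _ = 4 * C3 * e ^ 2 * (r - 1) := by ring
        _ ≤ e ^ 6 * e ^ 2 * r := Nat.mul_le_mul (Nat.mul_le_mul_right _ hC) (Nat.sub_le _ _)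
        _ = e ^ 8 * r := by ring
    have g2 : 16 * (b3 + bk) ≤ 3 * (e ^ 8 * r) := by omega
    have g3 : (16 * (b3 + bk)) ^ 2 ≤ (8 * V) ^ 2 := by
      calc (16 * (b3 + bk)) ^ 2 ≤ (3 * (e ^ 8 * r)) ^ 2 := Nat.pow_le_pow_left g2 2
        _ = 9 * e ^ 16 * (r * r) := by ring
        _ ≤ 64 * Q ^ e * V := Nat.mul_le_mul h9 hrr
        _ ≤ 64 * V * V := Nat.mul_le_mul_right _ (Nat.mul_le_mul_left _ hV)
        _ = (8 * V) ^ 2 := by ring
    have g4 : 16 * (b3 + bk) ≤ 8 * V := (Nat.pow_le_pow_iff_left (by norm_num)).1 g3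
    omega
  have hbk : e ∣ 210 → bk = 0 := by
    intro h210
    by_contra hb
    obtain ⟨s', k, hs', hk, hd', h4, h5', h7'⟩ := h0 hb
    exact bk_210 s' k hs' hk h4 h5' h7' (hd'.trans h210)
  have hdq : ∀ s : ℕ, s.Prime → s ∣ e → s + 1 ≤ Q := by
    intro s hs hse
    have := Nat.le_of_dvd (by omega) (hd s hs hse)
    omega
  have h2x : ∀ k : ℕ, e ≠ 2 ^ k := by
    rintro k rfl
    have := Nat.le_of_dvd (by norm_num) (hs.dvd_of_dvd_pow hse)
    omega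
  have hno : ∀ x y : ℕ, x.Prime → y.Prime → x ≠ y → x ∣ Q → y ∣ Q → False := by
    intro x y hx hy hxy h1 h2
    rw [← hQ] at h1 h2
    exact bk_two p a x y hp hx hy hxy h1 h2
  rcases Nat.lt_or_ge e 29 with h29 | h29
  swap
  · exact hgen (dd1_64 6 e Q (by have := hdq s hs hse; omega) (dd1_e e h29))
  have hcase : e = 5 ∨ e = 7 ∨ e = 8 ∨ e = 10 ∨ e = 11 ∨ e = 13 ∨ e = 14 ∨ e = 16 ∨ e = 17 ∨
      e = 19 ∨ e = 20 ∨ e = 22 ∨ e = 23 ∨ e = 25 ∨ e = 26 ∨ e = 28 := by omega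
  rcases hcase with rfl | rfl | rfl | rfl | rfl | rfl | rfl | rfl | rfl | rfl | rfl | rfl | rfl |
    rfl | rfl | rfl
  · -- 5
    have hQ11 : 11 ≤ Q := by
      obtain ⟨c, hc⟩ := hd 5 (by norm_num) (by norm_num)
      have h6 : Q ≠ 6 := fun h => hno 2 3 (by norm_num) (by norm_num) (by norm_num)
        (by rw [h]; norm_num) (by rw [h]; norm_num)
      omega
    have hr' : 401 ≤ r := hle 401 (le_trans (by norm_num) (hVm 11 hQ11))
    refine dd1_k (C3 * 5 ^ 2) b3 bk r V (hbk (by norm_num)) h3 ?_ hr2 hrr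
    have := h5 rfl
    omega
  · -- 7
    have hQ8 : 8 ≤ Q := by have := hdq 7 (by norm_num) (by norm_num); omega
    have hr' : 1448 ≤ r := hle 1448 (le_trans (by norm_num) (hVm 8 hQ8))
    refine dd1_k (C3 * 7 ^ 2) b3 bk r V (hbk (by norm_num)) h3 ?_ hr2 hrr
    have := h7 rfl
    omega
  · exact absurd rfl (h2x 3)
  · -- 10
    have hQ11 : 11 ≤ Q := by
      have h2 := hd 2 (by norm_num) (by norm_num)
      have h5' := hd 5 (by norm_num) (by norm_num)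
      omega
    have hr' : 100000 ≤ r := hle 100000 (le_trans (by norm_num) (hVm 11 hQ11))
    refine dd1_k (C3 * 10 ^ 2) b3 bk r V (hbk (by norm_num)) h3 ?_ hr2 hrr
    have := h10 rfl
    omega
  · -- 11
    have hQ23 : 23 ≤ Q := by
      obtain ⟨c, hc⟩ := hd 11 (by norm_num) (by norm_num)
      have h6 : Q ≠ 12 := fun h => hno 2 3 (by norm_num) (by norm_num) (by norm_num)
        (by rw [h]; norm_num) (by rw [h]; norm_num)
      omega
    have hr' : 30000000 ≤ r := hle 30000000 (le_trans (by norm_num) (hVm 23 hQ23))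
    have hC3 := h11 rfl
    have g1 : 2 * b3 ≤ 161051 * r := by
      refine h3.trans ?_
      calc C3 * 11 ^ 2 * (r - 1) ≤ 1331 * 11 ^ 2 * r :=
            Nat.mul_le_mul (Nat.mul_le_mul_right _ hC3) (Nat.sub_le _ _)
        _ = 161051 * r := by norm_num
    have g2 : 16 * bk ≤ 214358881 * r := by
      refine h1.trans (le_of_eq ?_)
      norm_num
    have g3 : 30000000 * r ≤ r * r := Nat.mul_le_mul_right _ hr'
    omega
  · -- 13
    refine hgen (dd1_64 27 13 Q ?_ (by norm_num))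
    obtain ⟨c, hc⟩ := hd 13 (by norm_num) (by norm_num)
    have h6 : Q ≠ 14 := fun h => hno 2 7 (by norm_num) (by norm_num) (by norm_num)
      (by rw [h]; norm_num) (by rw [h]; norm_num)
    omega
  · -- 14
    refine hgen (dd1_64 29 14 Q ?_ (by norm_num))
    have h2 := hd 2 (by norm_num) (by norm_num)
    have h7' := hd 7 (by norm_num) (by norm_num)
    have h6 : Q ≠ 15 := fun h => hno 3 5 (by norm_num) (by norm_num) (by norm_num)
      (by rw [h]; norm_num) (by rw [h]; norm_num)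
    omega
  · exact absurd rfl (h2x 4)
  · exact hgen (dd1_64 18 17 Q (hdq 17 (by norm_num) (by norm_num)) (by norm_num))
  · exact hgen (dd1_64 20 19 Q (hdq 19 (by norm_num) (by norm_num)) (by norm_num))
  · -- 20
    refine hgen (dd1_64 11 20 Q ?_ (by norm_num))
    have h2 := hd 2 (by norm_num) (by norm_num)
    have h5' := hd 5 (by norm_num) (by norm_num)
    omega
  · exact hgen (dd1_64 12 22 Q (hdq 11 (by norm_num) (by norm_num)) (by norm_num))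
  · exact hgen (dd1_64 24 23 Q (hdq 23 (by norm_num) (by norm_num)) (by norm_num))
  · -- 25
    refine hgen (dd1_64 11 25 Q ?_ (by norm_num))
    obtain ⟨c, hc⟩ := hd 5 (by norm_num) (by norm_num)
    have h6 : Q ≠ 6 := fun h => hno 2 3 (by norm_num) (by norm_num) (by norm_num)
      (by rw [h]; norm_num) (by rw [h]; norm_num)
    omega
  · exact hgen (dd1_64 14 26 Q (hdq 13 (by norm_num) (by norm_num)) (by norm_num))
  · exact hgen (dd1_64 8 28 Q (hdq 7 (by norm_num) (by norm_num)) (by norm_num))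
-- END dd1

-- BEGIN dd2
private theorem dd2_L1 (e : ℕ) (he : 10 ≤ e) : e ^ 24 ≤ 8 * 27 ^ (2 * e - 3) := by
  induction e, he using Nat.le_induction with
  | base => norm_num
  | succ e he ih =>
    have h1 : (10 * (e + 1)) ^ 24 ≤ (11 * e) ^ 24 := Nat.pow_le_pow_left (by omega) 24
    rw [mul_pow, mul_pow] at h1
    have h2 : (e + 1) ^ 24 ≤ 729 * e ^ 24 := by
      generalize (e + 1) ^ 24 = y at h1 ⊢
      generalize e ^ 24 = z at h1 ⊢
      norm_num at h1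
      omega
    have h3 : 27 ^ (2 * (e + 1) - 3) = 729 * 27 ^ (2 * e - 3) := by
      have h4 : 2 * (e + 1) - 3 = 2 + (2 * e - 3) := by omega
      rw [h4, pow_add]
      norm_num
    rw [h3]
    omega

private theorem dd2_L2 (e : ℕ) (he : 11 ≤ e) : e ^ 16 ≤ 16 * 27 ^ e := by
  induction e, he using Nat.le_induction with
  | base => norm_num
  | succ e he ih =>
    have h1 : (11 * (e + 1)) ^ 16 ≤ (12 * e) ^ 16 := Nat.pow_le_pow_left (by omega) 16
    rw [mul_pow, mul_pow] at h1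
    have h2 : (e + 1) ^ 16 ≤ 27 * e ^ 16 := by
      generalize (e + 1) ^ 16 = y at h1 ⊢
      generalize e ^ 16 = z at h1 ⊢
      norm_num at h1
      omega
    rw [pow_succ' 27 e]
    omega

private theorem dd2_L3 (e : ℕ) (he : 49 ≤ e) : e ^ 24 ≤ 8 * 8 ^ (2 * e - 3) := by
  induction e, he using Nat.le_induction with
  | base => norm_num
  | succ e he ih =>
    have h1 : (49 * (e + 1)) ^ 24 ≤ (50 * e) ^ 24 := Nat.pow_le_pow_left (by omega) 24
    rw [mul_pow, mul_pow] at h1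
    have h2 : (e + 1) ^ 24 ≤ 64 * e ^ 24 := by
      generalize (e + 1) ^ 24 = y at h1 ⊢
      generalize e ^ 24 = z at h1 ⊢
      norm_num at h1
      omega
    have h3 : 8 ^ (2 * (e + 1) - 3) = 64 * 8 ^ (2 * e - 3) := by
      have h4 : 2 * (e + 1) - 3 = 2 + (2 * e - 3) := by omega
      rw [h4, pow_add]
      norm_num
    rw [h3]
    omega

private theorem dd2_L4 (e : ℕ) (he : 49 ≤ e) : e ^ 16 ≤ 16 * 8 ^ e := by
  induction e, he using Nat.le_induction with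
  | base => norm_num
  | succ e he ih =>
    have h1 : (49 * (e + 1)) ^ 16 ≤ (50 * e) ^ 16 := Nat.pow_le_pow_left (by omega) 16
    rw [mul_pow, mul_pow] at h1
    have h2 : (e + 1) ^ 16 ≤ 8 * e ^ 16 := by
      generalize (e + 1) ^ 16 = y at h1 ⊢
      generalize e ^ 16 = z at h1 ⊢
      norm_num at h1
      omega
    rw [pow_succ' 8 e]
    omega

private theorem dd2_seven (e : ℕ) (he0 : 0 < e) (he1 : e ≠ 1)
    (h : ∀ s : ℕ, s.Prime → s ∣ e → s ∣ 7) : e = 7 ∨ 49 ≤ e := by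
  have h7 : ∀ s : ℕ, s.Prime → s ∣ e → s = 7 := fun s hs hse =>
    (Nat.prime_dvd_prime_iff_eq hs (by norm_num)).1 (h s hs hse)
  obtain ⟨k, hk⟩ : ∃ k : ℕ, e = 7 ^ k :=
    ⟨_, Nat.eq_prime_pow_of_unique_prime_dvd (p := 7) he0.ne' (fun {d} hd hde => h7 d hd hde)⟩
  rcases Nat.lt_or_ge k 2 with h2 | h2
  · interval_cases k
    · exact absurd hk he1
    · exact Or.inl hk
  · right
    rw [hk]
    calc 49 = 7 ^ 2 := by norm_num
      _ ≤ 7 ^ k := Nat.pow_le_pow_right (by norm_num) h2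

/-- (dd2, size 4) Numbers, the case `b3_gal`, `Bg` empty. PROOF. `a = 3 a'`, `q = p ^ a'`, `Q = q ^ 3`, `b3 ≤ N3 (c - 1)`, `c ^ 3 ≤ V`. (i) `e = 7`, `Q = 8`: `bk = 0` (`h0`), `V ≥ 8 ^ 7 = 128 ^ 3`, `b3 ≤ 16464 (c - 1)`; if `c ≤ 128` then `b3 ≤ 16464 * 127 < 2097151`; if `c ≥ 128` then `16464 (c - 1) + 1 < c ^ 3`. (ii) Otherwise `b3 ≤ V / 2`:
`4 b3 ≤ Q e ^ 8 c`, and `(Q e ^ 8 c) ^ 3 ≤ Q ^ 3 e ^ 24 V ≤ 8 V ^ 3` if `e ^ 24 ≤ 8 Q ^ (2 e - 3)`; and `4 bk ≤ V`: `bk = 0` or `e ^ 16 ≤ 16 Q ^ e` (as in `bg_num`, `j1`). These: `e = 5`: `q ^ 3 = 1` modulo 5 so `q = 1` modulo 5, `q ≥ 6`, `Q ≥ 216`. `e = 7`: `q ≥ 4` (`q = 2` is (i), 7 does not divide 26), `Q ≥ 64`. `e = 10, 11, 13, 14, 17`: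
`q ≥ 3` (a prime factor of `e` does not divide 7, or 14 does not divide 7), `Q ≥ 27`, for `e = 10` `q ≥ 6` as before. `e ≥ 16`: if `q ≥ 3` then `Q ≥ 27`; if `q = 2` then all the prime factors of `e` are 7, so `e ≥ 49`, `Q = 8`; both inequalities by induction. (`bk = 0` for `e = 5, 7, 10, 14`.) So `b3 + bk ≤ 3 V / 4 < V - 1`. -/
theorem num_A0 (p a e V b3 bk N3 N c s : ℕ) (hp : p.Prime) (ha : 0 < a) (h3a : 3 ∣ a)
    (he3 : ¬ 3 ∣ e) (hs : s.Prime) (hs5 : 5 ≤ s) (hse : s ∣ e) (he0 : 0 < e)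
    (hd : ∀ s : ℕ, s.Prime → s ∣ e → s ∣ p ^ a - 1) (hV : (p ^ a) ^ e ≤ V)
    (hc : c ^ 3 ≤ V) (hc0 : 0 < c) (h3 : b3 ≤ N3 * (c - 1)) (hN : N3 ≤ N)
    (hN4 : 4 * N ≤ (p ^ a - 1) * e ^ 8) (h78 : e = 7 → p ^ a = 8 → N3 ≤ 16464)
    (h1 : 16 * bk ≤ e ^ 8 * Nat.sqrt V)
    (h0 : bk ≠ 0 → ∃ s k : ℕ, s.Prime ∧ 0 < k ∧ s ^ k ∣ e ∧ 4 ≤ s ^ k ∧ s ^ k ≠ 5 ∧ s ^ k ≠ 7) :
    b3 + bk + 1 < V := by
  obtain ⟨a', rfl⟩ := h3a
  have ha' : 0 < a' := by omega
  obtain ⟨q, hq⟩ : ∃ q, p ^ a' = q := ⟨_, rfl⟩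
  have hQ : p ^ (3 * a') = q ^ 3 := by rw [mul_comm, pow_mul, hq]
  rw [hQ] at hd hV hN4 h78
  have hq2 : 2 ≤ q := by
    rw [← hq]
    exact hp.two_le.trans (Nat.le_self_pow ha'.ne' p)
  have hQ8 : 8 ≤ q ^ 3 := by
    calc 8 = 2 ^ 3 := by norm_num
      _ ≤ q ^ 3 := Nat.pow_le_pow_left hq2 3
  have hbk0 : e ∣ 210 → bk = 0 := by
    intro h
    by_contra hne
    obtain ⟨s', k, hs', hk, hse', h4, h5, h7⟩ := h0 hne
    exact bk_210 s' k hs' hk h4 h5 h7 (hse'.trans h)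
  -- the possible values of `e`
  have hecases : e = 5 ∨ e = 7 ∨ 10 ≤ e := by
    obtain ⟨m, hm⟩ := hse
    have hm0 : 0 < m := by
      rcases Nat.eq_zero_or_pos m with h | h
      · rw [hm, h, mul_zero] at he0
        omega
      · exact h
    rcases Nat.lt_or_ge m 2 with h | h
    · have hm1 : m = 1 := by omega
      rw [hm1, mul_one] at hm
      rw [hm]
      have h6 : s ≠ 6 := by rintro rfl; revert hs; decide
      have h8 : s ≠ 8 := by rintro rfl; revert hs; decide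
      have h9 : s ≠ 9 := by rintro rfl; revert hs; decide
      omega
    · right; right
      rw [hm]
      calc 10 = 5 * 2 := by norm_num
        _ ≤ s * m := Nat.mul_le_mul hs5 h
  -- the special case
  by_cases hsp : e = 7 ∧ q ^ 3 = 8
  · obtain ⟨rfl, hq8⟩ := hsp
    have hbk := hbk0 (by norm_num)
    have hN3 := h78 rfl hq8
    rw [hq8] at hV
    norm_num at hV
    have hb : b3 ≤ 16464 * (c - 1) := h3.trans (Nat.mul_le_mul_right _ hN3)
    rw [hbk]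
    rcases Nat.lt_or_ge c 129 with hc1 | hc1
    · omega
    · have h5 : 16641 * c ≤ V := by
        calc 16641 * c = 129 ^ 2 * c := by norm_num
          _ ≤ c ^ 2 * c := Nat.mul_le_mul_right _ (Nat.pow_le_pow_left hc1 2)
          _ = c ^ 3 := by ring
          _ ≤ V := hc
      omega
  -- the two inequalities
  have key : e ^ 24 ≤ 8 * (q ^ 3) ^ (2 * e - 3) ∧ (11 ≤ e → e ^ 16 ≤ 16 * (q ^ 3) ^ e) := by
    rcases Nat.lt_or_ge q 3 with hq3 | hq3
    · have hq2' : q = 2 := by omega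
      subst hq2'
      have h7 : e = 7 ∨ 49 ≤ e := by
        refine dd2_seven e he0 (by omega) ?_
        intro s' hs' hse'
        have := hd s' hs' hse'
        norm_num at this
        exact this
      rcases h7 with h7 | h7
      · exact absurd ⟨h7, by norm_num⟩ hsp
      · have e8 : (2 : ℕ) ^ 3 = 8 := by norm_num
        rw [e8]
        exact ⟨dd2_L3 e h7, fun _ => dd2_L4 e h7⟩
    · have hQ27 : 27 ≤ q ^ 3 := by
        calc 27 = 3 ^ 3 := by norm_num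
          _ ≤ q ^ 3 := Nat.pow_le_pow_left hq3 3
      refine ⟨?_, fun h11 => (dd2_L2 e h11).trans
        (Nat.mul_le_mul_left _ (Nat.pow_le_pow_left hQ27 e))⟩
      rcases hecases with rfl | rfl | h10
      · -- `e = 5`
        have h5 := hd 5 (by norm_num) (dvd_refl 5)
        have hq6 : 6 ≤ q := by
          by_contra hlt
          have : q = 3 ∨ q = 4 ∨ q = 5 := by omega
          rcases this with rfl | rfl | rfl <;> revert h5 <;> norm_num
        have hQ216 : 216 ≤ q ^ 3 := by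
          calc 216 = 6 ^ 3 := by norm_num
            _ ≤ q ^ 3 := Nat.pow_le_pow_left hq6 3
        calc 5 ^ 24 ≤ 8 * 216 ^ 7 := by norm_num
          _ ≤ 8 * (q ^ 3) ^ (2 * 5 - 3) := Nat.mul_le_mul_left _ (Nat.pow_le_pow_left hQ216 7)
      · -- `e = 7`
        have h5 := hd 7 (by norm_num) (dvd_refl 7)
        have hq4 : 4 ≤ q := by
          by_contra hlt
          have : q = 3 := by omega
          subst this
          revert h5
          norm_num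
        have hQ64 : 64 ≤ q ^ 3 := by
          calc 64 = 4 ^ 3 := by norm_num
            _ ≤ q ^ 3 := Nat.pow_le_pow_left hq4 3
        calc 7 ^ 24 ≤ 8 * 64 ^ 11 := by norm_num
          _ ≤ 8 * (q ^ 3) ^ (2 * 7 - 3) := Nat.mul_le_mul_left _ (Nat.pow_le_pow_left hQ64 11)
      · exact (dd2_L1 e h10).trans (Nat.mul_le_mul_left _ (Nat.pow_le_pow_left hQ27 _))
  obtain ⟨k1, k2⟩ := key
  have he5 : 5 ≤ e := by omega
  have hVpos : 8 ≤ V := by
    calc 8 ≤ q ^ 3 := hQ8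
      _ = (q ^ 3) ^ 1 := (pow_one _).symm
      _ ≤ (q ^ 3) ^ e := Nat.pow_le_pow_right (by omega) (by omega)
      _ ≤ V := hV
  have j1 : 4 * bk ≤ V := by
    rcases Nat.lt_or_ge e 11 with h11 | h11
    · have : e = 5 ∨ e = 7 ∨ e = 10 := by
        rcases hecases with h | h | h
        · exact Or.inl h
        · exact Or.inr (Or.inl h)
        · right; right
          omega
      have hb0 : bk = 0 := by
        apply hbk0
        rcases this with rfl | rfl | rfl <;> norm_num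
      rw [hb0]
      omega
    · have m1 : (16 * bk) ^ 2 ≤ (4 * V) ^ 2 := by
        calc (16 * bk) ^ 2 ≤ (e ^ 8 * Nat.sqrt V) ^ 2 := Nat.pow_le_pow_left h1 2
          _ = e ^ 16 * (Nat.sqrt V) ^ 2 := by ring
          _ ≤ (16 * (q ^ 3) ^ e) * V := Nat.mul_le_mul (k2 h11) (Nat.sqrt_le' V)
          _ ≤ (16 * V) * V := Nat.mul_le_mul_right _ (Nat.mul_le_mul_left _ hV)
          _ = (4 * V) ^ 2 := by ring
      have m2 : 16 * bk ≤ 4 * V := (Nat.pow_le_pow_iff_left (by norm_num)).1 m1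
      omega
  have j2 : 2 * b3 ≤ V := by
    have n1 : 4 * b3 ≤ q ^ 3 * e ^ 8 * c := by
      calc 4 * b3 ≤ 4 * (N * (c - 1)) :=
            Nat.mul_le_mul_left _ (h3.trans (Nat.mul_le_mul_right _ hN))
        _ = 4 * N * (c - 1) := by ring
        _ ≤ ((q ^ 3 - 1) * e ^ 8) * c := Nat.mul_le_mul hN4 (Nat.sub_le _ _)
        _ ≤ q ^ 3 * e ^ 8 * c :=
          Nat.mul_le_mul_right _ (Nat.mul_le_mul_right _ (Nat.sub_le _ _))
    have n3 : (q ^ 3) ^ (2 * e - 3) * (q ^ 3) ^ 3 = ((q ^ 3) ^ e) ^ 2 := by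
      rw [← pow_add, ← pow_mul (q ^ 3) e 2]
      congr 1
      omega
    have n4 : (q ^ 3 * e ^ 8 * c) ^ 3 ≤ (2 * V) ^ 3 := by
      calc (q ^ 3 * e ^ 8 * c) ^ 3 = e ^ 24 * (q ^ 3) ^ 3 * c ^ 3 := by ring
        _ ≤ (8 * (q ^ 3) ^ (2 * e - 3)) * (q ^ 3) ^ 3 * V :=
          Nat.mul_le_mul (Nat.mul_le_mul_right _ k1) hc
        _ = 8 * ((q ^ 3) ^ e) ^ 2 * V := by rw [mul_assoc 8, n3]
        _ ≤ 8 * V ^ 2 * V :=
          Nat.mul_le_mul_right _ (Nat.mul_le_mul_left _ (Nat.pow_le_pow_left hV 2))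
        _ = (2 * V) ^ 3 := by ring
    have n5 : q ^ 3 * e ^ 8 * c ≤ 2 * V := (Nat.pow_le_pow_iff_left (by norm_num)).1 n4
    omega
  omega
-- END dd2

-- BEGIN dd3
private theorem dd3_e (e : ℕ) (h : 11 ≤ e) : 9 * e ^ 16 ≤ 16 * 32 ^ e := by
  induction e, h using Nat.le_induction with
  | base => norm_num
  | succ n hn ih =>
    have h1 : (n + 1) ^ 16 ≤ 32 * n ^ 16 := by
      have h2 : 10 * (n + 1) ≤ 11 * n := by omega
      have h3 : (10 * (n + 1)) ^ 16 ≤ (11 * n) ^ 16 := Nat.pow_le_pow_left h2 16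
      rw [mul_pow, mul_pow] at h3
      have h4 : 11 ^ 16 * n ^ 16 ≤ 10 ^ 16 * (32 * n ^ 16) := by
        rw [← mul_assoc]
        exact Nat.mul_le_mul_right _ (by norm_num)
      exact Nat.le_of_mul_le_mul_left (h3.trans h4) (by positivity)
    calc 9 * (n + 1) ^ 16 ≤ 9 * (32 * n ^ 16) := Nat.mul_le_mul_left _ h1
      _ = 32 * (9 * n ^ 16) := by ring
      _ ≤ 32 * (16 * 32 ^ n) := Nat.mul_le_mul_left _ ih
      _ = 16 * 32 ^ (n + 1) := by ring

/-- (dd3, size 3) Numbers, `Bg` not empty: `a ≥ 5`. PROOF. `2 bg ≤ V`: this is `j2` in the proof of `bg_num` (`cg3_ineq`, `cg3_a5`). `9 e ^ 16 ≤ 16 Q ^ e`: `Q ≥ 32`; `e = 5, 7`: `Q ≥ 1024` (`cg3_Q`); `2 ∣ e`: `Q ≥ 243` (`p ≥ 3`; `e = 10`); `e ≥ 11`: `9 e ^ 16 ≤ 16 * 32 ^ e` (induction). -/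
theorem num_g (p a e V bg c N s l : ℕ) (hp : p.Prime) (ha : 0 < a) (he3 : ¬ 3 ∣ e)
    (hs : s.Prime) (hs5 : 5 ≤ s) (hse : s ∣ e) (he0 : 0 < e)
    (hd : ∀ s : ℕ, s.Prime → s ∣ e → s ∣ p ^ a - 1) (hV : (p ^ a) ^ e ≤ V)
    (hl : l.Prime) (hl5 : 5 ≤ l) (hla : l ∣ a) (hc : c ^ 5 ≤ V) (hc0 : 0 < c)
    (h2 : 5 * bg ≤ a * N * (c - 1)) (h4 : 4 * N ≤ (p ^ a - 1) * e ^ 8) :
    2 * bg ≤ V ∧ 9 * e ^ 16 ≤ 16 * (p ^ a) ^ e := by
  have ha5 : 5 ≤ a := hl5.trans (Nat.le_of_dvd ha hla)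
  have hQ2 : 2 ^ a ≤ p ^ a := Nat.pow_le_pow_left hp.two_le a
  have h32 : 32 ≤ p ^ a := by
    calc 32 = 2 ^ 5 := by norm_num
      _ ≤ 2 ^ a := Nat.pow_le_pow_right (by norm_num) ha5
      _ ≤ p ^ a := hQ2
  have he5 : 5 ≤ e := hs5.trans (Nat.le_of_dvd he0 hse)
  obtain ⟨-, i2⟩ := cg3_ineq hp (by omega : 3 ≤ e) hd hl hl5 hla ha
  have j2 : 2 * bg ≤ V := by
    have n1 : 20 * bg ≤ a * p ^ a * e ^ 8 * c := by
      calc 20 * bg = 4 * (5 * bg) := by ring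
        _ ≤ 4 * (a * N * (c - 1)) := Nat.mul_le_mul_left _ h2
        _ = a * (4 * N) * (c - 1) := by ring
        _ ≤ a * ((p ^ a - 1) * e ^ 8) * c :=
            Nat.mul_le_mul (Nat.mul_le_mul_left _ h4) (Nat.sub_le _ _)
        _ ≤ a * (p ^ a * e ^ 8) * c :=
            Nat.mul_le_mul_right _ (Nat.mul_le_mul_left _
              (Nat.mul_le_mul_right _ (Nat.sub_le _ _)))
        _ = a * p ^ a * e ^ 8 * c := by ring
    have n2 : a ^ 5 ≤ 4 * (p ^ a) ^ 2 :=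
      (cg3_a5 a ha5).trans (Nat.mul_le_mul_left _ (Nat.pow_le_pow_left hQ2 2))
    have n3 : (p ^ a) ^ (4 * e - 7) * (p ^ a) ^ 7 = ((p ^ a) ^ e) ^ 4 := by
      rw [← pow_add, ← pow_mul (p ^ a) e 4]
      congr 1
      omega
    have n4 : (a * p ^ a * e ^ 8 * c) ^ 5 ≤ (10 * V) ^ 5 := by
      calc (a * p ^ a * e ^ 8 * c) ^ 5 = a ^ 5 * ((p ^ a) ^ 5 * e ^ 40) * c ^ 5 := by ring
        _ ≤ (4 * (p ^ a) ^ 2) * ((p ^ a) ^ 5 * e ^ 40) * V :=
            Nat.mul_le_mul (Nat.mul_le_mul_right _ n2) hc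
        _ = (4 * e ^ 40) * (p ^ a) ^ 7 * V := by ring
        _ ≤ (10 ^ 5 * (p ^ a) ^ (4 * e - 7)) * (p ^ a) ^ 7 * V :=
            Nat.mul_le_mul_right _ (Nat.mul_le_mul_right _ i2)
        _ = 10 ^ 5 * ((p ^ a) ^ e) ^ 4 * V := by rw [mul_assoc (10 ^ 5), n3]
        _ ≤ 10 ^ 5 * V ^ 4 * V :=
            Nat.mul_le_mul_right _ (Nat.mul_le_mul_left _ (Nat.pow_le_pow_left hV 4))
        _ = (10 * V) ^ 5 := by ring
    have n5 : a * p ^ a * e ^ 8 * c ≤ 10 * V := (Nat.pow_le_pow_iff_left (by norm_num)).1 n4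
    omega
  refine ⟨j2, ?_⟩
  have hpw : ∀ b n, b ≤ p ^ a → b ^ n ≤ (p ^ a) ^ n := fun b n h => Nat.pow_le_pow_left h n
  rcases Nat.lt_or_ge e 11 with h11 | h11
  · have hcase : e = 5 ∨ e = 7 ∨ e = 8 ∨ e = 10 := by omega
    rcases hcase with rfl | rfl | rfl | rfl
    · have t := hpw 1024 5 (cg3_Q hp hl hl5 hla ha (Or.inr (Or.inl rfl)) (hd 5 (by norm_num) (by norm_num)))
      norm_num at t ⊢
      omega
    · have t := hpw 1024 7 (cg3_Q hp hl hl5 hla ha (Or.inr (Or.inr rfl)) (hd 7 (by norm_num) (by norm_num)))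
      norm_num at t ⊢
      omega
    · exfalso
      have h8 : s ∣ 2 ^ 3 := by norm_num; exact hse
      have := Nat.le_of_dvd (by norm_num) (hs.dvd_of_dvd_pow h8)
      omega
    · have t := hpw 1024 10 (cg3_Q hp hl hl5 hla ha (Or.inr (Or.inl rfl)) (hd 5 (by norm_num) (by norm_num)))
      norm_num at t ⊢
      omega
  · exact (dd3_e e h11).trans (Nat.mul_le_mul_left _ (hpw 32 e h32))
-- END dd3

-- BEGIN dd4
private theorem dd4_pow (e : ℕ) (he : 5 ≤ e) : 8 * e ^ 24 ≤ 2 ^ (15 * (2 * e - 3)) := by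
  rcases Nat.lt_or_ge e 8 with h | h
  · interval_cases e <;> norm_num
  · calc 8 * e ^ 24 ≤ 2 ^ 3 * (2 ^ e) ^ 24 :=
          Nat.mul_le_mul (by norm_num) (Nat.pow_le_pow_left Nat.lt_two_pow_self.le 24)
      _ = 2 ^ (3 + e * 24) := by rw [← pow_mul, ← pow_add]
      _ ≤ 2 ^ (15 * (2 * e - 3)) := Nat.pow_le_pow_right (by norm_num) (by omega)

/-- (dd4, size 3) Numbers, both cases with `Bg` not empty. PROOF. `num_g`. (B): `16 (b3 + bk) ≤ 3 e ^ 8 √V`, `(16 (b3 + bk)) ^ 2 ≤ 9 e ^ 16 V ≤ 16 V ^ 2`, so `b3 + bk ≤ V / 4`; with `2 bg ≤ V`: at most `3 V / 4`. (A): `a ≥ 15` as 3 and `l` divide `a`, `Q ≥ 2 ^ 15`; `4 b3 ≤ Q e ^ 8 c3`, `(2 Q e ^ 8 c3) ^ 3 ≤ 8 Q ^ 3 e ^ 24 V ≤ V ^ 3` as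
`8 e ^ 24 ≤ Q ^ (2 e - 3)` (`e = 5`: `8 * 5 ^ 24 ≤ 2 ^ 105`; induction), so `8 b3 ≤ V`; `16 bk ≤ e ^ 8 √V`, `(16 bk) ^ 2 ≤ e ^ 16 V ≤ 16 V ^ 2`, `4 bk ≤ V`; at most `7 V / 8`, and `V ≥ 2 ^ 15`. -/
theorem num_1 (p a e V b3 bk bg c N s l : ℕ) (hp : p.Prime) (ha : 0 < a) (he3 : ¬ 3 ∣ e)
    (hs : s.Prime) (hs5 : 5 ≤ s) (hse : s ∣ e) (he0 : 0 < e)
    (hd : ∀ s : ℕ, s.Prime → s ∣ e → s ∣ p ^ a - 1) (hV : (p ^ a) ^ e ≤ V)
    (hl : l.Prime) (hl5 : 5 ≤ l) (hla : l ∣ a) (hc : c ^ 5 ≤ V) (hc0 : 0 < c)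
    (h2 : 5 * bg ≤ a * N * (c - 1)) (h4 : 4 * N ≤ (p ^ a - 1) * e ^ 8)
    (h1 : 16 * bk ≤ e ^ 8 * Nat.sqrt V)
    (h3 : (8 * b3 ≤ e ^ 8 * Nat.sqrt V) ∨
      (3 ∣ a ∧ ∃ c3 : ℕ, 0 < c3 ∧ c3 ^ 3 ≤ V ∧ b3 ≤ N * (c3 - 1))) :
    b3 + bk + bg + 1 < V := by
  obtain ⟨hg1, hg2⟩ := num_g p a e V bg c N s l hp ha he3 hs hs5 hse he0 hd hV hl hl5 hla hc hc0
    h2 h4
  have he5 : 5 ≤ e := le_trans hs5 (Nat.le_of_dvd he0 hse)
  have ha5 : 5 ≤ a := le_trans hl5 (Nat.le_of_dvd ha hla)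
  have hsq : Nat.sqrt V ^ 2 ≤ V := Nat.sqrt_le' V
  have hVb : 8 < V := by
    calc 8 < 2 ^ (5 * 5) := by norm_num
      _ ≤ 2 ^ (a * e) := Nat.pow_le_pow_right (by norm_num) (Nat.mul_le_mul ha5 he5)
      _ = (2 ^ a) ^ e := pow_mul _ _ _
      _ ≤ (p ^ a) ^ e := Nat.pow_le_pow_left (Nat.pow_le_pow_left hp.two_le _) _
      _ ≤ V := hV
  have hbk : 4 * bk ≤ V := by
    have h5 : (16 * bk) ^ 2 ≤ (4 * V) ^ 2 := by
      calc (16 * bk) ^ 2 ≤ (e ^ 8 * Nat.sqrt V) ^ 2 := Nat.pow_le_pow_left h1 2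
        _ = e ^ 16 * Nat.sqrt V ^ 2 := by ring
        _ ≤ (16 * V) * V := Nat.mul_le_mul (by linarith) hsq
        _ = (4 * V) ^ 2 := by ring
    have h6 := (Nat.pow_le_pow_iff_left two_ne_zero).1 h5
    omega
  rcases h3 with h3 | ⟨h3a, c3, hc3, hc3V, hb3⟩
  · have h5 : (16 * (b3 + bk)) ^ 2 ≤ (4 * V) ^ 2 := by
      calc (16 * (b3 + bk)) ^ 2 ≤ (3 * (e ^ 8 * Nat.sqrt V)) ^ 2 :=
            Nat.pow_le_pow_left (by linarith) 2
        _ = 9 * e ^ 16 * Nat.sqrt V ^ 2 := by ring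
        _ ≤ (16 * V) * V := Nat.mul_le_mul (hg2.trans (Nat.mul_le_mul_left _ hV)) hsq
        _ = (4 * V) ^ 2 := by ring
    have h6 := (Nat.pow_le_pow_iff_left two_ne_zero).1 h5
    omega
  · have ha15 : 15 ≤ a := by
      have hcop : Nat.Coprime 3 l := (Nat.coprime_primes Nat.prime_three hl).2 (by omega)
      have h5 := Nat.le_of_dvd ha (Nat.Coprime.mul_dvd_of_dvd_of_dvd hcop h3a hla)
      omega
    have hQ : 2 ^ 15 ≤ p ^ a :=
      (Nat.pow_le_pow_right (by norm_num) ha15).trans (Nat.pow_le_pow_left hp.two_le a)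
    have hkey : 8 * e ^ 24 ≤ (p ^ a) ^ (2 * e - 3) := by
      refine (dd4_pow e he5).trans ?_
      rw [pow_mul]
      exact Nat.pow_le_pow_left hQ _
    have h4b : 4 * b3 ≤ p ^ a * e ^ 8 * c3 := by
      calc 4 * b3 ≤ 4 * (N * (c3 - 1)) := Nat.mul_le_mul_left _ hb3
        _ = 4 * N * (c3 - 1) := by ring
        _ ≤ ((p ^ a - 1) * e ^ 8) * (c3 - 1) := Nat.mul_le_mul_right _ h4
        _ ≤ p ^ a * e ^ 8 * c3 :=
          Nat.mul_le_mul (Nat.mul_le_mul_right _ (Nat.sub_le _ _)) (Nat.sub_le _ _)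
    have h7 : (2 * (p ^ a * e ^ 8 * c3)) ^ 3 ≤ V ^ 3 := by
      calc (2 * (p ^ a * e ^ 8 * c3)) ^ 3 = (p ^ a) ^ 3 * (8 * e ^ 24) * c3 ^ 3 := by ring
        _ ≤ (p ^ a) ^ 3 * (p ^ a) ^ (2 * e - 3) * V :=
          Nat.mul_le_mul (Nat.mul_le_mul_left _ hkey) hc3V
        _ = ((p ^ a) ^ e) ^ 2 * V := by
          rw [← pow_add, show 3 + (2 * e - 3) = e * 2 by omega, pow_mul]
        _ ≤ V ^ 2 * V := Nat.mul_le_mul_right _ (Nat.pow_le_pow_left hV 2)
        _ = V ^ 3 := by ring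
    have h8 := (Nat.pow_le_pow_iff_left three_ne_zero).1 h7
    omega
-- END dd4

section
variable {p : ℕ} [Fact p.Prime] {L W : Type} [Group L] [Finite L] [AddCommGroup W]
  [Module (ZMod p) W] [Finite W] [Nontrivial W] {ρ : Representation (ZMod p) L W}
  {U : Subgroup L}

-- BEGIN de1
private theorem de1_num (b C e V : ℕ) (h1 : 2 * b ≤ C * e ^ 2 * (Nat.sqrt V - 1))
    (h2 : 4 * C ≤ e ^ 6) : 8 * b ≤ e ^ 8 * Nat.sqrt V := by
  calc 8 * b = 4 * (2 * b) := by ring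
    _ ≤ 4 * (C * e ^ 2 * (Nat.sqrt V - 1)) := Nat.mul_le_mul_left _ h1
    _ = (4 * C) * (e ^ 2 * (Nat.sqrt V - 1)) := by ring
    _ ≤ e ^ 6 * (e ^ 2 * (Nat.sqrt V - 1)) := Nat.mul_le_mul_right _ h2
    _ ≤ e ^ 6 * (e ^ 2 * Nat.sqrt V) :=
      Nat.mul_le_mul_left _ (Nat.mul_le_mul_left _ (Nat.sub_le _ _))
    _ = e ^ 8 * Nat.sqrt V := by ring

/-- (de1, size 4) PROOF. As the proof of `cn` in Nfv/Cn.lean. `sq_ex`: `U.relIndex E = e ^ 2`, the primes which divide `e` divide `card U`, so `¬ 3 ∣ e`, and `s ∣ e`; `n > 0` (otherwise `hE.card` gives `U.relIndex E = 1`). `qp_gal`, `qp_dim`. Claim: `card (B3 ρ) + card (Bk ρ U) + card (Bg ρ U) + 1 < card W`.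
If some `x ≠ 1` with `x ^ 3 = 1` centralizes `U`: `b3_sub`, `b3c_cnt`, `ct3_num`, `ct3_gen`, `bk_gen`, and `num_B0` if `Bg` is empty, otherwise `bg_cnt`, `card_C`, `num_1`. If not: `b3_gal`, `sy_78`, `card_C`, `bk_gen`, `num_A0` if `Bg` is empty and `B3` is not empty (if `B3` is empty take `num_B0` with `b3 = 0`, `C3 = 0`), otherwise `bg_cnt`, `num_1` (`B3` empty:
first alternative). Take `w ≠ 0` outside the three sets. Let `R` be a nontrivial Sylow `r`-subgroup which fixes `w`: `r = 3` contradicts `w ∉ B3`; `r ≥ 5`: `R` contains an `x` of order `r`, which is in the definition of `Bk` or of `Bg`. -/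
theorem cn3 (h : QP ρ U) (hs : Group.IsSolvable L) {E : Subgroup L} {n : ℕ}
    {M : Fin n → Subgroup L} (hE : SE U E n M) (h3 : ¬ 3 ∣ Nat.card U) (s : ℕ) (hsp : s.Prime)
    (hs5 : 5 ≤ s) (hsE : s ∣ U.relIndex E) :
    ∃ w : W, w ≠ 0 ∧ ∀ r : ℕ, r.Prime → r ≠ 2 → ¬ r ∣ Nat.card U → ∀ R : Sylow r L,
      (∀ x ∈ (R : Subgroup L), ρ x w = w) → ∀ x ∈ (R : Subgroup L), x = 1 := by
  classical
  have hcyc := qp_cyc h
  have hprg : Prg U E := ⟨hcyc, hE.UE, hE.cU, hE.com, hE.cen⟩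
  obtain ⟨e, he0, he, hep⟩ := sq_ex hprg
  have hse : s ∣ e := hsp.dvd_of_dvd_pow (he ▸ hsE)
  have he3 : ¬ 3 ∣ e := fun h0 => h3 (hep 3 Nat.prime_three h0)
  have hn : 0 < n := by
    rcases Nat.eq_zero_or_pos n with h0 | h0
    · exfalso
      subst h0
      have h1 := hE.card
      rw [Finset.univ_eq_empty, Finset.prod_empty] at h1
      rw [h1] at hsE
      have := Nat.le_of_dvd one_pos hsE
      omega
    · exact h0
  obtain ⟨a, ha0, hUa, _, hAA, ⟨d, hd0, hWd⟩, _⟩ := qp_gal h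
  have hV : (p ^ a) ^ e ≤ Nat.card W := by
    rw [← hAA]
    exact qp_dim h hE e he
  have hdv : ∀ s : ℕ, s.Prime → s ∣ e → s ∣ p ^ a - 1 := fun s hsp hse =>
    (hep s hsp hse).trans hUa
  obtain ⟨k1, k2⟩ := bk_gen h hs hE hn e he
  obtain ⟨c1, c2⟩ := card_C h hs hE hn e a he hAA
  have hpp : p.Prime := Fact.out
  have key : Nat.card (B3 ρ) + Nat.card (Bk ρ U) + Nat.card (Bg ρ U) + 1 < Nat.card W := by
    by_cases hx : ∃ x : L, x ≠ 1 ∧ x ^ 3 = 1 ∧ ∀ u ∈ U, x * u = u * x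
    · have hsub := b3_sub h hx
      have hle : Nat.card (B3 ρ) ≤ Nat.card (B3c ρ U) := Nat.card_mono (Set.toFinite _) hsub
      have hcnt := b3c_cnt h hE h3 e he
      obtain ⟨m5, m7, m10, m11⟩ := ct3_num hs hcyc h.ab.nor h.mx hE e he
      have hC := ct3_gen hs h.ab.nor hE hn e he
      by_cases hg : Nat.card (Bg ρ U) = 0
      · rw [hg]
        have := num_B0 p a e (Nat.card W) (Nat.card (B3c ρ U)) (Nat.card (Bk ρ U)) (Ct3 U E) s
          hpp ha0 he3 hsp hs5 hse he0 hdv hV hcnt m5 m7 m10 m11 hC k1 k2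
        omega
      · obtain ⟨c, hc0, hc5, hb, hl⟩ := bg_cnt h a hAA
        obtain ⟨l, hlp, hl5, hla⟩ := hl hg
        have := num_1 p a e (Nat.card W) (Nat.card (B3c ρ U)) (Nat.card (Bk ρ U))
          (Nat.card (Bg ρ U)) c (Nat.card (Subgroup.centralizer (U : Set L))) s l
          hpp ha0 he3 hsp hs5 hse he0 hdv hV hlp hl5 hla hc5 hc0 hb c2 k1
          (Or.inl (de1_num _ _ _ _ hcnt hC))
        omega
    · have hx' : ∀ x : L, x ^ 3 = 1 → (∀ u ∈ U, x * u = u * x) → x = 1 := by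
        intro x hx3 hxu
        by_contra hx1
        exact hx ⟨x, hx1, hx3, hxu⟩
      obtain ⟨n1, c3, hc30, hc33, hb3, h3a⟩ := b3_gal h a hAA hx'
      by_cases h0 : Nat.card (B3 ρ) = 0
      · rw [h0]
        by_cases hg : Nat.card (Bg ρ U) = 0
        · rw [hg]
          have := num_B0 p a e (Nat.card W) 0 (Nat.card (Bk ρ U)) 0 s
            hpp ha0 he3 hsp hs5 hse he0 hdv hV (by simp) (fun _ => Nat.zero_le _)
            (fun _ => Nat.zero_le _) (fun _ => Nat.zero_le _) (fun _ => Nat.zero_le _)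
            (by simp) k1 k2
          omega
        · obtain ⟨c, hc0, hc5, hb, hl⟩ := bg_cnt h a hAA
          obtain ⟨l, hlp, hl5, hla⟩ := hl hg
          have := num_1 p a e (Nat.card W) 0 (Nat.card (Bk ρ U))
            (Nat.card (Bg ρ U)) c (Nat.card (Subgroup.centralizer (U : Set L))) s l
            hpp ha0 he3 hsp hs5 hse he0 hdv hV hlp hl5 hla hc5 hc0 hb c2 k1
            (Or.inl (by simp))
          omega
      · by_cases hg : Nat.card (Bg ρ U) = 0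
        · rw [hg]
          have := num_A0 p a e (Nat.card W) (Nat.card (B3 ρ)) (Nat.card (Bk ρ U))
            (Nat.card (Sylow 3 L)) (Nat.card (Subgroup.centralizer (U : Set L))) c3 s
            hpp ha0 (h3a h0) he3 hsp hs5 hse he0 hdv hV hc33 hc30 hb3 n1 c2
            (fun e7 q8 => sy_78 h hE (by rw [he, e7]) (by rw [hAA, q8]) hx') k1 k2
          omega
        · obtain ⟨c, hc0, hc5, hb, hl⟩ := bg_cnt h a hAA
          obtain ⟨l, hlp, hl5, hla⟩ := hl hg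
          exact num_1 p a e (Nat.card W) (Nat.card (B3 ρ)) (Nat.card (Bk ρ U))
            (Nat.card (Bg ρ U)) c (Nat.card (Subgroup.centralizer (U : Set L))) s l
            hpp ha0 he3 hsp hs5 hse he0 hdv hV hlp hl5 hla hc5 hc0 hb c2 k1
            (Or.inr ⟨h3a h0, c3, hc30, hc33, hb3.trans (Nat.mul_le_mul_right _ n1)⟩)
  have hex2 : ∃ w : W, w ∉ ((B3 ρ ∪ Bk ρ U) ∪ Bg ρ U) ∪ {0} := by
    by_contra hcon
    push Not at hcon
    have h1 : ((B3 ρ ∪ Bk ρ U) ∪ Bg ρ U) ∪ {0} = (Set.univ : Set W) :=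
      Set.eq_univ_of_forall hcon
    have h2 : (((B3 ρ ∪ Bk ρ U) ∪ Bg ρ U) ∪ {0}).ncard ≤
        (B3 ρ).ncard + (Bk ρ U).ncard + (Bg ρ U).ncard + 1 := by
      refine (Set.ncard_union_le _ _).trans ?_
      rw [Set.ncard_singleton]
      have i1 := Set.ncard_union_le (B3 ρ ∪ Bk ρ U) (Bg ρ U)
      have i2 := Set.ncard_union_le (B3 ρ) (Bk ρ U)
      omega
    rw [h1, Set.ncard_univ] at h2
    have h4 : (B3 ρ).ncard = Nat.card (B3 ρ) := rfl
    have h5 : (Bk ρ U).ncard = Nat.card (Bk ρ U) := rfl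
    have h6 : (Bg ρ U).ncard = Nat.card (Bg ρ U) := rfl
    omega
  obtain ⟨w, hw⟩ := hex2
  simp only [Set.mem_union, Set.mem_singleton_iff, not_or] at hw
  refine ⟨w, hw.2, ?_⟩
  intro r hr hr2 hrU R hfix x hx
  by_contra hx1
  by_cases hr3 : r = 3
  · subst hr3
    exact hw.1.1.1 ⟨hw.2, R, ⟨x, hx, hx1⟩, hfix⟩
  have hr5 : 5 ≤ r := by
    have h2 := hr.two_le
    by_contra hlt
    have h4 : r = 4 := by omega
    rw [h4] at hr
    exact absurd hr (by decide)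
  have : Fact r.Prime := ⟨hr⟩
  obtain ⟨k, hk⟩ := (IsPGroup.iff_orderOf.mp R.isPGroup') ⟨x, hx⟩
  rw [Subgroup.orderOf_mk] at hk
  have hk0 : k ≠ 0 := by
    intro h0
    rw [h0, pow_zero, orderOf_eq_one_iff] at hk
    exact hx1 hk
  obtain ⟨k, rfl⟩ := Nat.exists_eq_succ_of_ne_zero hk0
  have hy1 : x ^ (r ^ k) ≠ 1 := by
    intro h0
    have h1 := orderOf_dvd_of_pow_eq_one h0
    rw [hk] at h1
    have h2 := Nat.le_of_dvd (pow_pos hr.pos k) h1
    have h3 : r ^ k < r ^ (k + 1) := Nat.pow_lt_pow_right hr.one_lt (Nat.lt_succ_self k)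
    exact absurd h2 (not_le_of_gt h3)
  have hyr : (x ^ (r ^ k)) ^ r = 1 := by
    rw [← pow_mul, ← pow_succ]
    have := pow_orderOf_eq_one x
    rw [hk] at this
    exact this
  have hyR : x ^ (r ^ k) ∈ (R : Subgroup L) := pow_mem hx _
  by_cases hcu : ∀ u ∈ U, x ^ (r ^ k) * u = u * x ^ (r ^ k)
  · exact hw.1.1.2 ⟨hw.2, _, ⟨hy1, r, hr, hr5, hrU, hyr⟩, hcu, hfix _ hyR⟩
  · push Not at hcu
    exact hw.1.2 ⟨hw.2, _, ⟨hy1, r, hr, hr5, hyr⟩, hcu, hfix _ hyR⟩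
-- END de1

end

end Pool.Agent.R12c
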