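import Pool.Agent.Nfv.Mn

/-! The interface between the local machine and the assembly for `2 ∣ |G : Fit G|`. -/

set_option autoImplicit false

namespace Pool.Agent.R12

open Classical
open Pool.Agent.Nan Pool.Agent.Nas Pool.Agent.Nfv
open Pool.Agent.KB Pool.Agent.KB.ContrAux Pool.Agent.KBL Pool.Agent.KBZ Pool.Agent.KBU
  Pool.Agent.KBQ Pool.Agent.KBY

/-- Generic data of a module: the sum of the conjugates of the vectors `v b`, `b ∈ Δ`, is fixed by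
no Sylow `r`-subgroup, `r ∈ Cv`. -/
structure Gd {p : ℕ} {H : Type} [Group H] (F : Fam p H) (Cv : Set ℕ) (Δ : Finset F.J)
    (v : F.J → F.X) : Prop where
  ne : Δ.Nonempty
  two : Nontrivial F.J → 2 ≤ Δ.card
  vW : ∀ b, v b ∈ F.W b ∧ v b ≠ 0
  cov : ∀ k : F.J → H, (∀ b, k b ∈ Nm F.ρ (F.W b)) → ∀ r ∈ Cv, ∀ R : Sylow r H,
    ¬ ∀ x ∈ (R : Subgroup H), F.ρ x (∑ b ∈ Δ, F.ρ (k b) (v b)) = ∑ b ∈ Δ, F.ρ (k b) (v b)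

/-- The data of the prime `p` for `G`. LOW: for every nonzero `l` in the subspace `Y` (an
`A`-homogeneous component) of the module `X` the character `s l`. HIGH: for all vectors `T` and all
`k : Fin n → A` the character `Θ k T`; its stabilizer is the intersection of `K k` with the
stabilizers of the vectors `T j`, `j ∉ I`. -/
structure TB (G : Type) [Group G] [Finite G] (A : Subgroup (G ⧸ Fit G)) (B : Set ℕ) (p : ℕ)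
    (E : PD G p) (Cv : Fin E.n → Set ℕ) (Δ : ∀ j, Finset (E.F j).J)
    (v : ∀ j, (E.F j).J → (E.F j).X) where
  X : Type
  [iA : AddCommGroup X]
  [iM : Module (ZMod p) X]
  [iF : Finite X]
  ρ : Representation (ZMod p) (G ⧸ Fit G) X
  Y : Submodule (ZMod p) X
  Yne : Y ≠ ⊥
  Ybl : ∀ h, ∀ l ∈ Y, l ≠ 0 → ρ h l ∈ Y → Y.map (ρ h) = Y
  YA : ∀ a ∈ A, Y.map (ρ a) = Y
  Yc : ∀ h, (∀ a ∈ A, h * a = a * h) → Y.map (ρ h) = Y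
  s : X → Op p G → ℂ
  s_irr : ∀ l ∈ Y, l ≠ 0 → s l ∈ Irr (Op p G)
  s_fx : ∀ l ∈ Y, l ≠ 0 → ∀ z ∈ fxH (Fit G) (Op p G) (op_nor p) (s l), ρ z l = l
  s_one : ¬ Tau G p → ∀ l, s l = fun _ => 1
  s3 : ∀ l ∈ Y, l ≠ 0 → ∀ P Q : Sylow 3 (G ⧸ Fit G),
    (P : Subgroup (G ⧸ Fit G)) ≤ fxH (Fit G) (Op p G) (op_nor p) (s l) →
      (∀ x ∈ (Q : Subgroup (G ⧸ Fit G)), ρ x l = l) →
        (Q : Subgroup (G ⧸ Fit G)) ≤ fxH (Fit G) (Op p G) (op_nor p) (s l)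
  n : ℕ
  St : Fin n → Subgroup (G ⧸ Fit G)
  blk : ∀ l ∈ Y, l ≠ 0 → Blk2 A B p (fun D => ntG (Op p G) D)
    (fxH (Fit G) (Op p G) (op_nor p) (s l)) n St
  κ : (Fin n → G ⧸ Fit G) → ∀ j, (E.F j).J → G ⧸ Fit G
  κA : ∀ k, (∀ a, k a ∈ A) → ∀ j b, κ k j b ∈ A
  I : Finset (Fin E.n)
  one : ∀ j ∈ I, Subsingleton (E.F j).J ∧ Abq (E.F j).ρ (E.F j).W (E.F j).UU
  K : (Fin n → G ⧸ Fit G) → Subgroup (G ⧸ Fit G)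
  K_lin : ¬ Tau G p → I = ∅ ∧ ∀ k, K k = ⊤
  K_cv : ∀ k, (∀ a, k a ∈ A) → ∀ j ∈ I, ∀ r ∈ Cv j, ∀ R : Sylow r (G ⧸ Fit G),
    ¬ (R : Subgroup (G ⧸ Fit G)) ≤ K k
  K_D : ∀ k, (∀ a, k a ∈ A) → ∀ D : Subgroup (G ⧸ Fit G), D.Normal → D ≤ K k →
    ∀ j ∈ I, ∀ d ∈ D, ∀ x, (E.F j).ρ d x = x
  Θ : (Fin n → G ⧸ Fit G) → (∀ j, (E.F j).X) → Op p G → ℂ
  Θ_irr : ∀ k, (∀ a, k a ∈ A) → ∀ T, Θ k T ∈ Irr (Op p G)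
  Θ_fx : ∀ k, (∀ a, k a ∈ A) → ∀ T z, z ∈ fxH (Fit G) (Op p G) (op_nor p) (Θ k T) ↔
    z ∈ K k ∧ ∀ j, j ∉ I → (E.F j).ρ z (T j) = T j
  st : ∀ k, (∀ a, k a ∈ A) → ∀ r ∈ B, ∀ R : Sylow r (G ⧸ Fit G),
    (R : Subgroup (G ⧸ Fit G)) ≤ K k →
      (∀ x ∈ (R : Subgroup (G ⧸ Fit G)), ∀ j, j ∉ I → ∀ b ∈ Δ j,
        (E.F j).ρ x ((E.F j).ρ (κ k j b) (v j b)) = (E.F j).ρ (κ k j b) (v j b)) →
        ∀ x ∈ (R : Subgroup (G ⧸ Fit G)), ∀ a, (k a)⁻¹ * x * k a ∈ St a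
  dv : Tau G p → (∀ l ∈ Y, l ≠ 0 → ∃ d : ℕ, s l 1 = d ∧ p ∣ d) ∨
    ∀ k, (∀ a, k a ∈ A) → ∀ T, ∃ d : ℕ, Θ k T 1 = d ∧ p ∣ d
  s2 : ∀ l ∈ Y, l ≠ 0 → ∀ z ∈ fxH (Fit G) (Op p G) (op_nor p) (s l), (∀ e ∈ Y, ρ z e = e) →
    ∀ k, Y.map (ρ k) = Y → k * z * k⁻¹ ∈ fxH (Fit G) (Op p G) (op_nor p) (s l)

attribute [instance] TB.iA TB.iM TB.iF

/-- The statement which the local machine must prove for the primes in `Tau`. -/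
def TBst (G : Type) [Group G] [Finite G] : Prop :=
  ∀ (p : ℕ) [Fact p.Prime] (_ : Group.IsSolvable G) (E : PD G p) (_ : Tau G p) (_ : 3 ≤ p)
    (A : Subgroup (G ⧸ Fit G)) (_ : Ab A) (B : Set ℕ) (_ : ∀ r ∈ B, AR A r)
    (_ : ∀ r ∈ B, 3 ≤ r) (_ : ∀ j, A ≤ (E.F j).A) (_ : ∀ r ∈ B, ∀ j, (E.F j).Bt r)
    (_ : ∀ r ∈ B, ∀ j, (∀ c ∈ cm A r, ∀ x, (E.F j).ρ c x = x) →
      ∀ R : Sylow r (G ⧸ Fit G), ∀ y ∈ (R : Subgroup (G ⧸ Fit G)), ∀ x, (E.F j).ρ y x = x)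
    (Cv : Fin E.n → Set ℕ) (_ : ∀ j, ∀ r ∈ Cv j, r.Prime ∧ ¬ (E.F j).Bt r)
    (Pd : ∀ j, Finset (E.F j).J → ((E.F j).J → (E.F j).X) → Prop)
    (_ : ∀ j b₀ b₁, ∃ Δ v, b₀ ∈ Δ ∧ b₁ ∈ Δ ∧ Pd j Δ v ∧ Gd (E.F j) (Cv j) Δ v),
    ∃ (Δ : ∀ j, Finset (E.F j).J) (v : ∀ j, (E.F j).J → (E.F j).X),
      (∀ j, Gd (E.F j) (Cv j) (Δ j) (v j)) ∧
      (∀ j, Nontrivial (E.F j).J → Pd j (Δ j) (v j)) ∧ Nonempty (TB G A B p E Cv Δ v)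

end Pool.Agent.R12
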