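import Pool.Agent.Nap.Mn
import Pool.Agent.R12.As
import Pool.Agent.R12.Br

/-! Two characters cover all the primes: all finite solvable groups. -/

set_option autoImplicit false

namespace Pool.Agent.R12

open Pool.Agent.Nan
open Pool.Agent.KB Pool.Agent.KB.ContrAux Pool.Agent.KBL Pool.Agent.KBZ Pool.Agent.KBU
  Pool.Agent.KBQ Pool.Agent.KBY

private theorem fn_deg {G : Type} [Group G] {n : ℕ} (ρ : Representation ℂ G (Fin n → ℂ))
    (hρ : ρ.IsIrreducible) : ρ.character ∈ Irr G ∧ ρ.character 1 = (n : ℂ) := by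
  refine ⟨⟨n, ρ, hρ, rfl⟩, ?_⟩
  have h1 := (Omega_deg ρ hρ).1
  rw [h1]
  simp

private theorem fn_irr {G : Type} [Group G] {χ : G → ℂ} (hχ : χ ∈ Irr G) {d : ℕ}
    (hd : χ 1 = d) : d ∈ Deg G := by
  obtain ⟨n, ρ, hρ, rfl⟩ := hχ
  have h1 := (fn_deg ρ hρ).2
  rw [hd] at h1
  have h2 : d = n := by exact_mod_cast h1
  subst h2
  exact ⟨ρ, hρ⟩

/-- Two degrees cover all the primes of the degrees. -/
theorem deg_two {G : Type} [Group G] [Finite G] (hs : Group.IsSolvable G) :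
    ∃ m ∈ Deg G, ∃ n ∈ Deg G, ∀ p : ℕ, p.Prime → (∃ d ∈ Deg G, p ∣ d) → p ∣ m * n := by
  by_cases h2 : 2 ∣ Nat.card (G ⧸ Fit G)
  · obtain ⟨χ₁, h1, χ₂, h2, d₁, d₂, e1, e2, h3⟩ := main3 tbst hs h2
    refine ⟨d₁, fn_irr h1 e1, d₂, fn_irr h2 e2, fun p hp h4 => ?_⟩
    obtain ⟨d, ⟨ρ, hρ⟩, hd⟩ := h4
    exact h3 p hp ⟨ρ.character, (fn_deg ρ hρ).1, d, (fn_deg ρ hρ).2, hd⟩
  · exact Nap.deg2 hs h2

/-- Some degree is divisible by at least half of the primes. -/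
theorem deg_half {G : Type} [Group G] [Finite G] (hs : Group.IsSolvable G) :
    ∃ m ∈ Deg G, {p : ℕ | p.Prime ∧ ∃ d ∈ Deg G, p ∣ d}.ncard ≤ 2 * m.primeFactors.card := by
  obtain ⟨m, hm, n, hn, h⟩ := deg_two hs
  have hpos : ∀ d ∈ Deg G, 0 < d := by
    rintro d ⟨ρ, hρ⟩
    rcases Nat.eq_zero_or_pos d with h0 | h0
    · subst h0
      exfalso
      obtain ⟨a, b, hab⟩ := hρ.exists_pair_ne
      exact hab (Subrepresentation.toSubmodule_injective (Subsingleton.elim _ _))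
    · exact h0
  have hsub : {p : ℕ | p.Prime ∧ ∃ d ∈ Deg G, p ∣ d} ⊆
      ((m.primeFactors ∪ n.primeFactors : Finset ℕ) : Set ℕ) := by
    rintro p ⟨hp, hex⟩
    rw [Finset.mem_coe, Finset.mem_union]
    rcases (hp.dvd_mul).1 (h p hp hex) with h1 | h1
    · left
      exact Nat.mem_primeFactors.2 ⟨hp, h1, (hpos m hm).ne'⟩
    · right
      exact Nat.mem_primeFactors.2 ⟨hp, h1, (hpos n hn).ne'⟩
  have h1 : {p : ℕ | p.Prime ∧ ∃ d ∈ Deg G, p ∣ d}.ncard ≤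
      m.primeFactors.card + n.primeFactors.card := by
    have h2 := Set.ncard_le_ncard hsub (Finset.finite_toSet _)
    rw [Set.ncard_coe_finset] at h2
    exact h2.trans (Finset.card_union_le _ _)
  rcases le_total m.primeFactors.card n.primeFactors.card with h2 | h2
  · exact ⟨n, hn, by omega⟩
  · exact ⟨m, hm, by omega⟩

end Pool.Agent.R12
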