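import Pool.Agent.Nfv.Mn
import Pool.Agent.R12.Cg

/-! Supplements of the subgroups `Op p G` (Gaschuetz) and high characters over them. -/

set_option autoImplicit false

namespace Pool.Agent.R12

open Classical
open Pool.Agent.Nan Pool.Agent.Nas Pool.Agent.Nfv
open Pool.Agent.KB Pool.Agent.KB.ContrAux Pool.Agent.KBL Pool.Agent.KBZ Pool.Agent.KBU
  Pool.Agent.KBQ Pool.Agent.KBY

-- BEGIN za
/-- (za, size 3) Gaschuetz. `N` normal, abelian modulo `N ⊓ frattini G`; then it has a supplement `L` with `N ⊓ L = N ⊓ frattini G`. PROOF. `L₀` = a subgroup of the smallest order with `N ⊔ L₀ = ⊤`. `X = (N ⊓ L₀) ⊔ (N ⊓ frattini G)` is normalized by `L₀` and by `N` (`hab`), so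
it is normal. If `X ≤ frattini G` then `L = L₀ ⊔ (N ⊓ frattini G)` is as required (Dedekind). Otherwise there is a maximal subgroup `M` which does not contain `X`; `frattini G ≤ M`, so `N ⊓ L₀` is not in `M`; `X ⊔ M = ⊤`, so every `l ∈ L₀` is `a * (c * m)`,
`a ∈ N ⊓ L₀`, `c ∈ N ⊓ frattini G ≤ M`: `L₀ = (N ⊓ L₀) ⊔ (L₀ ⊓ M)`, `N ⊔ (L₀ ⊓ M) = ⊤`, and by minimality `L₀ ≤ M`, a contradiction. -/
theorem gz {G : Type} [Group G] [Finite G] (N : Subgroup G) (hN : N.Normal)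
    (hab : ∀ x ∈ N, ∀ y ∈ N, x * y * x⁻¹ * y⁻¹ ∈ frattini G) :
    ∃ L : Subgroup G, N ⊔ L = ⊤ ∧ N ⊓ L = N ⊓ frattini G := by
  have hΦ : (frattini G).Normal := inferInstance
  have hNΦ : (N ⊓ frattini G).Normal := inferInstance
  -- the smallest supplement
  obtain ⟨L₀, hL₀, hmin⟩ : ∃ L₀ : Subgroup G, N ⊔ L₀ = ⊤ ∧
      ∀ L : Subgroup G, N ⊔ L = ⊤ → L ≤ L₀ → L = L₀ := by
    have h1 : ∃ n, ∃ L : Subgroup G, N ⊔ L = ⊤ ∧ Nat.card L = n := ⟨_, ⊤, sup_top_eq _, rfl⟩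
    obtain ⟨L₀, h2, h3⟩ := Nat.find_spec h1
    refine ⟨L₀, h2, fun L hL hle => ?_⟩
    have h4 := Nat.find_min' h1 ⟨L, hL, rfl⟩
    rw [← h3] at h4
    exact Subgroup.eq_of_le_of_card_ge hle h4
  obtain ⟨X, hX⟩ : ∃ X : Subgroup G, X = (N ⊓ L₀) ⊔ (N ⊓ frattini G) := ⟨_, rfl⟩
  have hXm : ∀ x, x ∈ X ↔ ∃ a ∈ N ⊓ L₀, ∃ c ∈ N ⊓ frattini G, a * c = x := by
    intro x
    rw [hX, Subgroup.mem_sup_of_normal_right]
  have hXn : X.Normal := by
    have h1 : ∀ g ∈ N ⊔ L₀, ∀ x ∈ X, g * x * g⁻¹ ∈ X := by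
      intro g hg
      obtain ⟨n, hn, l, hl, rfl⟩ := Subgroup.mem_sup_of_normal_left.mp hg
      intro x hx
      have h2 : l * x * l⁻¹ ∈ X := by
        obtain ⟨a, ha, c, hc, rfl⟩ := (hXm x).mp hx
        refine (hXm _).mpr ⟨l * a * l⁻¹, ⟨hN.conj_mem a ha.1 l, L₀.mul_mem (L₀.mul_mem hl ha.2) (L₀.inv_mem hl)⟩,
          l * c * l⁻¹, hNΦ.conj_mem c hc l, by group⟩
      obtain ⟨a, ha, c, hc, h3⟩ := (hXm _).mp h2
      refine (hXm _).mpr ⟨a, ha, (a⁻¹ * (n * a * n⁻¹ * a⁻¹) * a) * (n * c * n⁻¹), ?_, ?_⟩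
      · refine (N ⊓ frattini G).mul_mem ?_ (hNΦ.conj_mem c hc n)
        have h4 : n * a * n⁻¹ * a⁻¹ ∈ N ⊓ frattini G :=
          ⟨N.mul_mem (N.mul_mem (N.mul_mem hn ha.1) (N.inv_mem hn)) (N.inv_mem ha.1), hab n hn a ha.1⟩
        have h5 := hNΦ.conj_mem _ h4 a⁻¹
        rwa [inv_inv] at h5
      · have h4 : n * l * x * (n * l)⁻¹ = n * (l * x * l⁻¹) * n⁻¹ := by group
        rw [h4, ← h3]
        group
    refine ⟨fun x hx g => h1 g (by rw [hL₀]; exact Subgroup.mem_top g) x hx⟩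
  by_cases hXΦ : N ⊓ L₀ ≤ frattini G
  · refine ⟨L₀ ⊔ (N ⊓ frattini G), ?_, ?_⟩
    · rw [← sup_assoc, hL₀, top_sup_eq]
    · apply le_antisymm
      · rintro g ⟨hg1, hg2⟩
        obtain ⟨l, hl, c, hc, rfl⟩ := Subgroup.mem_sup_of_normal_right.mp hg2
        have h1 : l ∈ N := by
          have h2 := N.mul_mem hg1 (N.inv_mem hc.1)
          rwa [mul_inv_cancel_right] at h2
        exact ⟨hg1, (frattini G).mul_mem (hXΦ ⟨h1, hl⟩) hc.2⟩
      · exact le_inf inf_le_left le_sup_right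
  · exfalso
    have h1 : ∃ M : Subgroup G, IsCoatom M ∧ ¬ N ⊓ L₀ ≤ M := by
      by_contra h2
      push Not at h2
      apply hXΦ
      unfold frattini Order.radical
      exact le_iInf fun M => le_iInf fun hM => h2 M hM
    obtain ⟨M, hM, hM2⟩ := h1
    have h3 : frattini G ≤ M := frattini_le_coatom hM
    have h4 : X ⊔ M = ⊤ := by
      apply hM.2
      refine lt_of_le_of_ne le_sup_right fun h5 => hM2 ?_
      rw [h5, hX]
      exact le_sup_left.trans le_sup_left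
    have h5 : N ⊔ (L₀ ⊓ M) = ⊤ := by
      rw [eq_top_iff, ← hL₀]
      refine sup_le le_sup_left fun l hl => ?_
      have h6 : l ∈ X ⊔ M := by rw [h4]; exact Subgroup.mem_top l
      obtain ⟨x, hx, m, hm, rfl⟩ := Subgroup.mem_sup_of_normal_left.mp h6
      obtain ⟨a, ha, c, hc, rfl⟩ := (hXm x).mp hx
      have h7 : c * m ∈ L₀ ⊓ M := by
        refine ⟨?_, M.mul_mem (h3 hc.2) hm⟩
        have h8 := L₀.mul_mem (L₀.inv_mem ha.2) hl
        rwa [← mul_assoc, ← mul_assoc, inv_mul_cancel, one_mul] at h8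
      rw [mul_assoc]
      exact Subgroup.mul_mem _ (Subgroup.mem_sup_left ha.1) (Subgroup.mem_sup_right h7)
    have h6 := hmin _ h5 inf_le_left
    apply hM2
    rw [← h6]
    exact inf_le_right.trans inf_le_right
-- END za

-- BEGIN zb
/-- (zb, size 2) The Frattini subgroup of a normal subgroup is in the Frattini subgroup. PROOF. Let `M` be maximal in `G`, `Φ` = the image of `frattini N` (normal in `G`, because it is characteristic in `N`). If `Φ` is not in `M` then `Φ ⊔ M = ⊤`, so every `n ∈ N` is `c * m`, `c ∈ Φ`, `m ∈ M ⊓ N`: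
`frattini N ⊔ (M ⊓ N) = N`, so `M ⊓ N = N` (`frattini_nongenerating`), `Φ ≤ N ≤ M`. -/
theorem fr_nor {G : Type} [Group G] [Finite G] (N : Subgroup G) (hN : N.Normal) (x : N)
    (hx : x ∈ frattini N) : (x : G) ∈ frattini G := by
  have hΦ : ((frattini N).map N.subtype).Normal := ConjAct.normal_of_characteristic_of_normal
  simp only [frattini, Order.radical, Subgroup.mem_iInf, Set.mem_ofPred_eq]
  intro M hM
  by_contra hxM
  have hΦM : ¬ (frattini N).map N.subtype ≤ M := fun h => hxM (h ⟨x, hx, rfl⟩)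
  have htop : (frattini N).map N.subtype ⊔ M = ⊤ :=
    hM.2 _ (lt_of_le_of_ne le_sup_right fun h => hΦM (h.symm ▸ le_sup_left))
  have key : M.subgroupOf N ⊔ frattini N = ⊤ := by
    rw [eq_top_iff]
    intro n _
    have hn : (n : G) ∈ (frattini N).map N.subtype ⊔ M := by
      rw [htop]
      exact Subgroup.mem_top _
    rw [← SetLike.mem_coe, Subgroup.normal_mul] at hn
    obtain ⟨c, hc, m, hm, hcm⟩ := hn
    obtain ⟨c', hc', rfl⟩ := hc
    have hm1 : m = ((c'⁻¹ * n : N) : G) := by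
      rw [Subgroup.coe_mul, Subgroup.coe_inv, ← hcm]
      simp
    have hm2 : c'⁻¹ * n ∈ M.subgroupOf N := by
      rw [Subgroup.mem_subgroupOf, ← hm1]
      exact hm
    have hn2 : n = c' * (c'⁻¹ * n) := by group
    rw [hn2]
    exact Subgroup.mul_mem _ (Subgroup.mem_sup_right hc') (Subgroup.mem_sup_left hm2)
  have h2 := frattini_nongenerating key
  apply hxM
  have h3 : x ∈ M.subgroupOf N := by
    rw [h2]
    exact Subgroup.mem_top _
  exact Subgroup.mem_subgroupOf.1 h3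
-- END zb

section
variable {G : Type} [Group G] [Finite G]

/-- The linear forms of the modules of `E` vanish on the Frattini subgroup of `G`. -/
def Ffr {p : ℕ} (E : PD G p) : Prop :=
  p ∣ Nat.card (G ⧸ Fit G) → ∀ x : Op p G, (x : G) ∈ frattini G →
    ∀ (j : Fin E.n) (y : (E.F j).X), E.em j y (E.q x) = 0

-- BEGIN zi
omit [Finite G] in
private theorem zi_com (a b : G) : a * b * a⁻¹ * b⁻¹ ∈ frattini G ↔
    QuotientGroup.mk' (frattini G) a * QuotientGroup.mk' (frattini G) b =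
      QuotientGroup.mk' (frattini G) b * QuotientGroup.mk' (frattini G) a := by
  have h1 : a * b * a⁻¹ * b⁻¹ ∈ frattini G ↔ QuotientGroup.mk' (frattini G) (a * b * a⁻¹ * b⁻¹) = 1 :=
    (QuotientGroup.eq_one_iff _).symm
  rw [h1, map_mul, map_mul, map_mul, map_inv, map_inv, mul_inv_eq_one, mul_inv_eq_iff_eq_mul]

/-- (zi, size 2) `Fit G` is abelian modulo `frattini G`. PROOF. In `G ⧸ frattini G` the images of the `Op p G` are abelian (`gc_comm_le`, `fr_nor`) and commute with each other (`op_com`), so the image of `Fit G = ⨆ Op p G` is abelian (twice the centralizer of an element). -/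
theorem fit_ab (x y : G) (hx : x ∈ Fit G) (hy : y ∈ Fit G) :
    x * y * x⁻¹ * y⁻¹ ∈ frattini G := by
  have h0 : ∀ i j : {p : ℕ // p ∈ (Nat.card G).primeFactors}, ∀ a ∈ Op (i : ℕ) G,
      ∀ b ∈ Op (j : ℕ) G, a * b * a⁻¹ * b⁻¹ ∈ frattini G := by
    intro i j a ha b hb
    have hi := Nat.prime_of_mem_primeFactors i.2
    have hj := Nat.prime_of_mem_primeFactors j.2
    by_cases h : i = j
    · subst h
      have hf : Fact (i : ℕ).Prime := ⟨hi⟩
      have h1 : (⟨a, ha⟩ : Op (i : ℕ) G) * ⟨b, hb⟩ * (⟨a, ha⟩ : Op (i : ℕ) G)⁻¹ *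
          (⟨b, hb⟩ : Op (i : ℕ) G)⁻¹ ∈ frattini (Op (i : ℕ) G) := by
        apply gc_comm_le (i : ℕ) (op_pgr (i : ℕ))
        have h2 := Subgroup.commutator_mem_commutator (G := Op (i : ℕ) G) (H₁ := ⊤) (H₂ := ⊤)
          (Subgroup.mem_top (⟨a, ha⟩ : Op (i : ℕ) G)) (Subgroup.mem_top (⟨b, hb⟩ : Op (i : ℕ) G))
        exact h2
      exact fr_nor (Op (i : ℕ) G) (op_nor _) _ h1
    · have h1 := op_com (i : ℕ) (j : ℕ) hi hj (fun h2 => h (Subtype.ext h2)) a b ha hb
      have h2 : a * b * a⁻¹ * b⁻¹ = 1 := by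
        rw [h1]
        group
      rw [h2]
      exact Subgroup.one_mem _
  have h1 : ∀ j : {p : ℕ // p ∈ (Nat.card G).primeFactors}, ∀ b ∈ Op (j : ℕ) G,
      Fit G ≤ (Subgroup.centralizer {QuotientGroup.mk' (frattini G) b}).comap
        (QuotientGroup.mk' (frattini G)) := by
    intro j b hb
    refine iSup_le fun i a ha => ?_
    rw [Subgroup.mem_comap, Subgroup.mem_centralizer_singleton_iff]
    exact ((zi_com a b).1 (h0 i j a ha b hb))
  have h2 : Fit G ≤ (Subgroup.centralizer {QuotientGroup.mk' (frattini G) x}).comap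
      (QuotientGroup.mk' (frattini G)) := by
    refine iSup_le fun j b hb => ?_
    have h3 := h1 j b hb hx
    rw [Subgroup.mem_comap, Subgroup.mem_centralizer_singleton_iff] at h3 ⊢
    exact h3.symm
  have h3 := h2 hy
  rw [Subgroup.mem_comap, Subgroup.mem_centralizer_singleton_iff] at h3
  exact (zi_com x y).2 h3.symm
-- END zi

-- BEGIN zh
private theorem zh_one (P : Type) [Group P] : (fun _ : P => (1 : ℂ)) ∈ Irr P := by
  refine ⟨1, (1 : P →* ((Fin 1 → ℂ) →ₗ[ℂ] (Fin 1 → ℂ))), ?_, ?_⟩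
  · have h1 : IsSimpleOrder (Submodule ℂ (Fin 1 → ℂ)) := by
      have h2 : IsSimpleModule ℂ (Fin 1 → ℂ) := by
        rw [isSimpleModule_iff_finrank_eq_one]
        simp
      exact (isSimpleModule_iff ℂ (Fin 1 → ℂ)).1 h2
    refine { exists_pair_ne := ⟨⊥, ⊤, fun h => ?_⟩, eq_bot_or_eq_top := fun S => ?_ }
    · have h2 := congrArg Subrepresentation.toSubmodule h
      exact bot_ne_top h2
    · rcases h1.eq_bot_or_eq_top S.toSubmodule with h2 | h2
      · left
        exact Subrepresentation.toSubmodule_injective h2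
      · right
        exact Subrepresentation.toSubmodule_injective h2
  · funext g
    show LinearMap.trace ℂ (Fin 1 → ℂ) (1 : (Fin 1 → ℂ) →ₗ[ℂ] (Fin 1 → ℂ)) = 1
    rw [LinearMap.trace_one]
    simp

private theorem zh_lin {P : Type} [Group P] (f : P →* ℂˣ) :
    (fun x : P => ((f x : ℂˣ) : ℂ)) ∈ Irr P := by
  have h1 := LinB_irr f _ (zh_one P)
  simpa using h1

/-- The `p'`-part of the Fitting subgroup. -/
private theorem zh_pp (p : ℕ) (hp : p.Prime) : ∃ F' : Subgroup G, F'.Normal ∧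
    (Nat.card F').Coprime p ∧ Op p G ⊔ F' = Fit G := by
  set S := (Nat.card G).primeFactors.erase p with hS
  have hSp : ∀ r ∈ S, r.Prime := fun r hr =>
    Nat.prime_of_mem_primeFactors (Finset.mem_of_mem_erase hr)
  refine ⟨⨆ r ∈ S, Op r G, ?_, ?_, ?_⟩
  · have h2 : ∀ r, (⨆ (_ : r ∈ S), Op r G : Subgroup G).Normal := by
      intro r
      have h3 : (Op r G).Normal := op_nor r
      exact Subgroup.iSup_normal _
    exact Subgroup.iSup_normal _
  · refine csup_cop S (fun r => Op r G) hSp (fun r _ => op_pgr r) ?_ p ?_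
    · intro r hr r' hr' hne x hx y hy
      exact op_com r r' (hSp r hr) (hSp r' hr') hne x y hx hy
    · intro r hr hd
      exact Finset.ne_of_mem_erase hr ((Nat.prime_dvd_prime_iff_eq (hSp r hr) hp).1 hd)
  · apply le_antisymm
    · refine sup_le (op_fit p hp) (iSup₂_le fun r hr => op_fit r (hSp r hr))
    · refine iSup_le fun r => ?_
      by_cases hr : (r : ℕ) = p
      · rw [hr]; exact le_sup_left
      · refine le_sup_of_le_right ?_
        exact le_iSup₂_of_le (r : ℕ) (Finset.mem_erase.2 ⟨hr, r.2⟩) le_rfl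

/-- (zh, size 5) Faithfulness. PROOF. `N = Op p G`, `L` from `gz` (`gc_comm_le`, `fr_nor`), `D'` = the preimage of `D`, `K = D' ⊓ L`. (1) `h`, for all `g ∈ D'`: so `K` is normal in `G`: `L` normalizes it, and for `n ∈ N`, `k ∈ K`: `n k n⁻¹ = (n k n⁻¹ k⁻¹) k`, the first factor is in `N ⊓ frattini G ≤ L` and
in `N ≤ D'`. (2) `F'` = `⨆ q ≠ p, Op q G` (normal, its order is prime to `p`, `N ⊔ F' = Fit G`); `F' ≤ L`. `E = (N ⊓ frattini G) ⊔ F' ≤ K` is normal, `Fit G ⊓ L = E`. (3) `R : Sylow r K`. `k ∈ K`: some power `k ^ r ^ a ∈ Fit G ⊓ L = E`, so `K = E ⊔ R`. (4) Frattini argument: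
`G = N_G(R) ⊔ K = (N_G(R) ⊔ F') ⊔ frattini G`, so `N_G(R) ⊔ F' = ⊤` (`frattini_nongenerating`). (5) So `Y = F' ⊔ R` is normal; its order is prime to `p`, so `R` commutes with `N`. (6) `D' = N ⊔ K = Fit G ⊔ R`; `Fit G` (`fit_fx`) and `R` fix every linear character of `N`. -/
theorem fr_triv (p r : ℕ) (hp : p.Prime) (hr : r.Prime) (hrp : r ≠ p)
    (D : Subgroup (G ⧸ Fit G)) (hD : D.Normal) (hDr : IsPGroup r D)
    (h : ∀ g : G, (g : G ⧸ Fit G) ∈ D → ∀ x ∈ Op p G, g * x * g⁻¹ * x⁻¹ ∈ frattini G) :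
    ¬ ntG (Op p G) D := by
  have hpf : Fact p.Prime := ⟨hp⟩
  have hrf : Fact r.Prime := ⟨hr⟩
  have hN : (Op p G).Normal := op_nor p
  have hNp : IsPGroup p (Op p G) := op_pgr p
  have hFn : (Fit G).Normal := fit_nor
  -- commutators of `N`
  have hab : ∀ x ∈ Op p G, ∀ y ∈ Op p G, x * y * x⁻¹ * y⁻¹ ∈ frattini G := by
    intro x hx y hy
    have h1 : (⟨x, hx⟩ : Op p G) * ⟨y, hy⟩ * (⟨x, hx⟩ : Op p G)⁻¹ * (⟨y, hy⟩ : Op p G)⁻¹ ∈
        frattini (Op p G) := by
      apply gc_comm_le p hNp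
      have h2 := Subgroup.commutator_mem_commutator (G := Op p G) (H₁ := ⊤) (H₂ := ⊤)
        (Subgroup.mem_top (⟨x, hx⟩ : Op p G)) (Subgroup.mem_top (⟨y, hy⟩ : Op p G))
      exact h2
    exact fr_nor (Op p G) hN _ h1
  obtain ⟨L, hL1, hL2⟩ := gz (Op p G) hN hab
  obtain ⟨F', hF'n, hcop, hNF⟩ := zh_pp (G := G) p hp
  obtain ⟨a, hcardN⟩ := IsPGroup.iff_card.1 hNp
  have hcop' : (Nat.card F').Coprime (Nat.card (Op p G)) := by
    rw [hcardN]
    exact Nat.Coprime.pow_right a hcop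
  have hcom : ∀ x ∈ Op p G, ∀ y ∈ F', x * y = y * x := by
    intro x hx y hy
    exact Subgroup.commute_of_normal_of_disjoint _ _ hN hF'n
      (Subgroup.disjoint_of_coprime_natCard hcop'.symm) x y hx hy
  -- `F' ≤ L`
  have hF'L : F' ≤ L := by
    intro f hf
    obtain ⟨n, hn, l, hl, hnl⟩ : ∃ n ∈ Op p G, ∃ l ∈ L, n * l = f :=
      Subgroup.mem_sup_of_normal_left.1 (hL1 ▸ Subgroup.mem_top f)
    obtain ⟨k, hk1, hk2⟩ := Nat.chineseRemainder hcop' 1 0
    have hl' : l = n⁻¹ * f := by rw [← hnl]; group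
    have hc : Commute n⁻¹ f := hcom _ ((Op p G).inv_mem hn) f hf
    have h1 : n⁻¹ ^ k = 1 := by
      have h2 : (⟨n⁻¹, (Op p G).inv_mem hn⟩ : Op p G) ^ k = 1 := by
        obtain ⟨m, rfl⟩ := (Nat.modEq_zero_iff_dvd).1 hk2
        rw [pow_mul, pow_card_eq_one', one_pow]
      exact congrArg Subtype.val h2
    have h2 : f ^ k = f := by
      have h3 : (⟨f, hf⟩ : F') ^ k = (⟨f, hf⟩ : F') ^ 1 :=
        pow_eq_pow_iff_modEq.2 (Nat.ModEq.of_dvd (orderOf_dvd_natCard _) hk1)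
      rw [pow_one] at h3
      exact congrArg Subtype.val h3
    have h3 : l ^ k = f := by
      rw [hl', hc.mul_pow, h1, h2, one_mul]
    rw [← h3]
    exact L.pow_mem hl k
  -- the normal subgroup `K`
  have hFD : Fit G ≤ D.comap (QuotientGroup.mk' (Fit G)) := by
    intro x hx
    rw [Subgroup.mem_comap]
    have h1 : QuotientGroup.mk' (Fit G) x = 1 := (QuotientGroup.eq_one_iff x).2 hx
    rw [h1]
    exact D.one_mem
  have hDn : (D.comap (QuotientGroup.mk' (Fit G))).Normal := hD.comap _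
  have hNF' : Op p G ≤ Fit G := op_fit p hp
  have hKn : (D.comap (QuotientGroup.mk' (Fit G)) ⊓ L).Normal := by
    constructor
    intro k hk g
    obtain ⟨n, hn, l, hl, rfl⟩ : ∃ n ∈ Op p G, ∃ l ∈ L, n * l = g :=
      Subgroup.mem_sup_of_normal_left.1 (hL1 ▸ Subgroup.mem_top g)
    have h1 : l * k * l⁻¹ ∈ D.comap (QuotientGroup.mk' (Fit G)) ⊓ L :=
      ⟨hDn.conj_mem k hk.1 l, L.mul_mem (L.mul_mem hl hk.2) (L.inv_mem hl)⟩
    have h2 : n * l * k * (n * l)⁻¹ =
        ((l * k * l⁻¹) * n * (l * k * l⁻¹)⁻¹ * n⁻¹)⁻¹ * (l * k * l⁻¹) := by group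
    rw [h2]
    refine Subgroup.mul_mem _ (Subgroup.inv_mem _ ?_) h1
    have h3 : (l * k * l⁻¹) * n * (l * k * l⁻¹)⁻¹ * n⁻¹ ∈ frattini G :=
      h _ h1.1 n hn
    have h4 : (l * k * l⁻¹) * n * (l * k * l⁻¹)⁻¹ * n⁻¹ ∈ Op p G :=
      (Op p G).mul_mem (hN.conj_mem n hn _) ((Op p G).inv_mem hn)
    have h5 : (l * k * l⁻¹) * n * (l * k * l⁻¹)⁻¹ * n⁻¹ ∈ Op p G ⊓ L := by
      rw [hL2]
      exact ⟨h4, h3⟩
    exact ⟨hFD (hNF' h4), h5.2⟩
  set K := D.comap (QuotientGroup.mk' (Fit G)) ⊓ L with hK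
  set E := (Op p G ⊓ frattini G) ⊔ F' with hE
  have hNΦ : (Op p G ⊓ frattini G).Normal := Subgroup.normal_inf_normal _ _
  have hEn : E.Normal := Subgroup.sup_normal _ _
  have hEK : E ≤ K := by
    refine sup_le ?_ ?_
    · intro x hx
      have h1 := hx
      rw [← hL2] at h1
      exact ⟨hFD (hNF' hx.1), h1.2⟩
    · intro x hx
      exact ⟨hFD (hNF ▸ Subgroup.mem_sup_right hx), hF'L hx⟩
  have hEF : E ≤ Fit G := by
    refine sup_le (inf_le_left.trans hNF') ?_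
    rw [← hNF]
    exact le_sup_right
  have hFL : ∀ x ∈ Fit G, x ∈ L → x ∈ E := by
    intro x hx hxL
    rw [← hNF] at hx
    obtain ⟨n, hn, f, hf, rfl⟩ := Subgroup.mem_sup_of_normal_left.1 hx
    have h1 : n ∈ L := by
      have h2 := L.mul_mem hxL (L.inv_mem (hF'L hf))
      rwa [mul_inv_cancel_right] at h2
    have h2 : n ∈ Op p G ⊓ frattini G := by
      rw [← hL2]
      exact ⟨hn, h1⟩
    exact E.mul_mem (Subgroup.mem_sup_left h2) (Subgroup.mem_sup_right hf)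
  -- the Sylow subgroup
  let R : Sylow r K := default
  have hER : E.subgroupOf K ⊔ (R : Subgroup K) = ⊤ := by
    rw [← Subgroup.index_eq_one]
    have hE1 : (E.subgroupOf K).Normal := hEn.subgroupOf K
    have h1 : (E.subgroupOf K ⊔ (R : Subgroup K)).index ∣ (E.subgroupOf K).index :=
      Subgroup.index_dvd_of_le le_sup_left
    have h2 : (E.subgroupOf K ⊔ (R : Subgroup K)).index ∣ (R : Subgroup K).index :=
      Subgroup.index_dvd_of_le le_sup_right
    have h3 : IsPGroup r (K ⧸ E.subgroupOf K) := by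
      intro y
      obtain ⟨k, rfl⟩ := QuotientGroup.mk'_surjective (E.subgroupOf K) y
      obtain ⟨m, hm⟩ := hDr ⟨_, k.2.1⟩
      refine ⟨m, ?_⟩
      have h4 : ((k : G) : G ⧸ Fit G) ^ r ^ m = 1 := congrArg Subtype.val hm
      rw [← QuotientGroup.mk_pow, QuotientGroup.eq_one_iff] at h4
      rw [← map_pow]
      refine (QuotientGroup.eq_one_iff (N := E.subgroupOf K) (k ^ r ^ m)).2 ?_
      rw [Subgroup.mem_subgroupOf]
      exact hFL _ h4 (L.pow_mem k.2.2 _)
    obtain ⟨m, hm⟩ := IsPGroup.iff_card.1 h3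
    have h4 : (E.subgroupOf K).index = r ^ m := hm
    rw [h4] at h1
    obtain ⟨j, -, hj⟩ := (Nat.dvd_prime_pow hr).1 h1
    rcases Nat.eq_zero_or_pos j with hj0 | hj0
    · rw [hj, hj0, pow_zero]
    · exfalso
      apply R.not_dvd_index
      exact ((dvd_pow_self r hj0.ne').trans (hj ▸ dvd_rfl)).trans h2
  -- Frattini argument
  set R' : Subgroup G := (R : Subgroup K).map K.subtype with hR'
  have hR'K : R' ≤ K := by
    rintro _ ⟨x, -, rfl⟩
    exact x.2
  have hKE : ∀ k ∈ K, ∃ e ∈ E, ∃ y ∈ R', e * y = k := by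
    intro k hk
    have hE1 : (E.subgroupOf K).Normal := hEn.subgroupOf K
    have h1 : (⟨k, hk⟩ : K) ∈ E.subgroupOf K ⊔ (R : Subgroup K) := by
      rw [hER]
      exact Subgroup.mem_top _
    obtain ⟨e, he, y, hy, hey⟩ := Subgroup.mem_sup_of_normal_left.1 h1
    exact ⟨e, he, y, ⟨y, hy, rfl⟩, congrArg Subtype.val hey⟩
  have hfr : Subgroup.normalizer (R' : Set G) ⊔ K = ⊤ := Sylow.normalizer_sup_eq_top R
  have hfr2 : (Subgroup.normalizer (R' : Set G) ⊔ F') ⊔ frattini G = ⊤ := by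
    rw [eq_top_iff, ← hfr]
    refine sup_le (le_sup_of_le_left le_sup_left) ?_
    intro k hk
    obtain ⟨e, he, y, hy, rfl⟩ := hKE k hk
    refine Subgroup.mul_mem _ ?_ (Subgroup.mem_sup_left (Subgroup.mem_sup_left
      (Subgroup.le_normalizer hy)))
    have h1 : E ≤ (Subgroup.normalizer (R' : Set G) ⊔ F') ⊔ frattini G :=
      sup_le (inf_le_right.trans le_sup_right) (le_sup_of_le_left le_sup_right)
    exact h1 he
  have hfr3 := frattini_nongenerating hfr2
  -- the normal subgroup `Y`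
  have hYn : (F' ⊔ R').Normal := by
    constructor
    intro y hy g
    obtain ⟨f, hf, ρ, hρ, rfl⟩ := Subgroup.mem_sup_of_normal_left.1 hy
    have hg : g ∈ F' ⊔ Subgroup.normalizer (R' : Set G) := by
      rw [sup_comm, hfr3]
      exact Subgroup.mem_top _
    obtain ⟨f₂, hf₂, n, hn, rfl⟩ := Subgroup.mem_sup_of_normal_left.1 hg
    have h1 : f₂ * n * (f * ρ) * (f₂ * n)⁻¹ =
        (f₂ * n * f * (f₂ * n)⁻¹) * (f₂ * (n * ρ * n⁻¹) * f₂⁻¹) := by group
    rw [h1]
    have h2 : n * ρ * n⁻¹ ∈ R' := (Subgroup.mem_normalizer_iff.1 hn ρ).1 hρ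
    exact Subgroup.mul_mem _ (Subgroup.mem_sup_left (hF'n.conj_mem f hf _))
      (Subgroup.mul_mem _ (Subgroup.mul_mem _ (Subgroup.mem_sup_left hf₂)
        (Subgroup.mem_sup_right h2)) (Subgroup.inv_mem _ (Subgroup.mem_sup_left hf₂)))
  have hYp : ¬ p ∣ Nat.card (F' ⊔ R' : Subgroup G) := by
    have h1 : Nat.card F' * F'.relIndex (F' ⊔ R') = Nat.card (F' ⊔ R' : Subgroup G) := by
      rw [← Subgroup.relIndex_bot_left, ← Subgroup.relIndex_bot_left,
        Subgroup.relIndex_mul_relIndex _ _ _ bot_le le_sup_left]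
    rw [← h1, hp.dvd_mul]
    rintro (h2 | h2)
    · exact hp.one_lt.ne' (Nat.eq_one_of_dvd_coprimes hcop h2 dvd_rfl)
    · have h3 : F'.relIndex (F' ⊔ R') = F'.relIndex R' := Subgroup.relIndex_sup_left ..
      rw [h3] at h2
      have h4 : IsPGroup r R' := R.isPGroup'.map _
      obtain ⟨m, hm⟩ := IsPGroup.iff_card.1 h4
      have h5 := h2.trans (Subgroup.relIndex_dvd_card _ _)
      rw [hm] at h5
      exact hrp ((Nat.prime_dvd_prime_iff_eq hp hr).1 (hp.dvd_of_dvd_pow h5)).symm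
  have hcom2 : ∀ x ∈ Op p G, ∀ y ∈ R', x * y = y * x := by
    intro x hx y hy
    have h1 : (Nat.card (Op p G)).Coprime (Nat.card (F' ⊔ R' : Subgroup G)) := by
      rw [hcardN]
      exact Nat.Coprime.pow_left a ((hp.coprime_iff_not_dvd).2 hYp)
    exact Subgroup.commute_of_normal_of_disjoint _ _ hN hYn
      (Subgroup.disjoint_of_coprime_natCard h1) x y hx (Subgroup.mem_sup_right hy)
  -- the end
  rintro ⟨g, hg, f, x, y, hxy, hf⟩
  apply hf
  have hF := fit_fx p hp _ (zh_lin f)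
  have hg2 : g ∈ fxG (Op p G) (op_nor p) (fun x => ((f x : ℂˣ) : ℂ)) := by
    obtain ⟨n, hn, l, hl, rfl⟩ : ∃ n ∈ Op p G, ∃ l ∈ L, n * l = g :=
      Subgroup.mem_sup_of_normal_left.1 (hL1 ▸ Subgroup.mem_top g)
    refine Subgroup.mul_mem _ (hF (hNF' hn)) ?_
    have h1 : l ∈ K := by
      refine ⟨?_, hl⟩
      have h2 := Subgroup.mul_mem _ (Subgroup.inv_mem _ (hFD (hNF' hn)))
        (show n * l ∈ D.comap (QuotientGroup.mk' (Fit G)) from hg)
      rwa [inv_mul_cancel_left] at h2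
    obtain ⟨e, he, z, hz, rfl⟩ := hKE l h1
    refine Subgroup.mul_mem _ (hF (hEF he)) ?_
    rw [mem_fxG]
    intro u v huv
    have h2 : v = u := by
      apply Subtype.ext
      rw [huv, ← hcom2 u u.2 z hz]
      group
    rw [h2]
  exact Units.ext ((mem_fxG _ _ _ _).1 hg2 x y hxy)
-- END zh

-- BEGIN zd
/-- An irreducible invariant submodule. -/
private def zd_I {p : ℕ} {H X : Type} [Group H] [AddCommGroup X] [Module (ZMod p) X]
    (ρ : Representation (ZMod p) H X) (Y : Submodule (ZMod p) X) : Prop :=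
  Ivt ρ ⊤ Y ∧ Y ≠ ⊥ ∧ ∀ W ≤ Y, Ivt ρ ⊤ W → W = ⊥ ∨ W = Y

private theorem zd_finS {p : ℕ} (X : Type) [AddCommGroup X] [Module (ZMod p) X] [Finite X] :
    Finite (Submodule (ZMod p) X) :=
  Finite.of_injective (fun W : Submodule (ZMod p) X => (W : Set X)) SetLike.coe_injective

/-- A non-zero invariant submodule contains an irreducible one. -/
private theorem zd_sub {p : ℕ} {H X : Type} [Group H] [AddCommGroup X] [Module (ZMod p) X]
    [Finite X] (ρ : Representation (ZMod p) H X) (T : Submodule (ZMod p) X) (hT : Ivt ρ ⊤ T)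
    (h0 : T ≠ ⊥) : ∃ Z ≤ T, zd_I ρ Z := by
  have hfin := zd_finS (p := p) X
  have hne : Nonempty {Z : Submodule (ZMod p) X // Z ≤ T ∧ Ivt ρ ⊤ Z ∧ Z ≠ ⊥} :=
    ⟨⟨T, le_rfl, hT, h0⟩⟩
  obtain ⟨⟨Z, hZT, hZ, hZ0⟩, hmin⟩ := Finite.exists_min
    (fun Z : {Z : Submodule (ZMod p) X // Z ≤ T ∧ Ivt ρ ⊤ Z ∧ Z ≠ ⊥} => Nat.card Z.1)
  refine ⟨Z, hZT, hZ, hZ0, fun W hW hWi => ?_⟩
  by_contra hc
  push Not at hc
  have h1 : Nat.card Z ≤ Nat.card W := hmin ⟨W, hW.trans hZT, hWi, hc.1⟩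
  apply hc.2
  apply SetLike.coe_injective
  exact Set.eq_of_subset_of_ncard_le hW h1 (Set.toFinite _)

private theorem zd_inv {p : ℕ} {H X : Type} [Group H] [AddCommGroup X] [Module (ZMod p) X]
    (ρ : Representation (ZMod p) H X) (s : Set (Submodule (ZMod p) X))
    (hs : ∀ Y ∈ s, Ivt ρ ⊤ Y) : Ivt ρ ⊤ (sSup s) := by
  intro n hn w hw
  have h1 : sSup s ≤ (sSup s).comap (ρ n) :=
    sSup_le fun Y hY y hy => le_sSup hY (hs Y hY n hn y hy)
  exact h1 hw

/-- A maximal independent family of irreducible submodules. -/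
private theorem zd_soc {p : ℕ} {H X : Type} [Group H] [AddCommGroup X] [Module (ZMod p) X]
    [Finite X] (ρ : Representation (ZMod p) H X) (T : Submodule (ZMod p) X) :
    ∃ s : Set (Submodule (ZMod p) X), sSupIndep s ∧ (∀ Y ∈ s, zd_I ρ Y ∧ Y ≤ T) ∧
      ∀ Z, zd_I ρ Z → Z ≤ T → Z ≤ sSup s := by
  have hfin := zd_finS (p := p) X
  have hne : Nonempty {s : Set (Submodule (ZMod p) X) // sSupIndep s ∧ ∀ Y ∈ s, zd_I ρ Y ∧ Y ≤ T} :=
    ⟨⟨∅, sSupIndep_empty, fun Y hY => absurd hY (Set.notMem_empty Y)⟩⟩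
  obtain ⟨⟨s, hs, hsI⟩, hmax⟩ := Finite.exists_max
    (fun s : {s : Set (Submodule (ZMod p) X) // sSupIndep s ∧ ∀ Y ∈ s, zd_I ρ Y ∧ Y ≤ T} =>
      Set.ncard s.1)
  refine ⟨s, hs, hsI, fun Z hZ hZT => ?_⟩
  by_contra hc
  have hinv : Ivt ρ ⊤ (sSup s) := zd_inv ρ s fun Y hY => (hsI Y hY).1.1
  have hd : Disjoint Z (sSup s) := by
    rw [disjoint_iff]
    rcases hZ.2.2 (Z ⊓ sSup s) inf_le_left
      (fun n hn w hw => ⟨hZ.1 n hn w hw.1, hinv n hn w hw.2⟩) with h | h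
    · exact h
    · exact absurd (inf_eq_left.1 h) hc
  have hns : Z ∉ s := fun h => hc (le_sSup h)
  have h1 : sSupIndep (insert Z s) := by
    intro a ha
    rcases ha with rfl | ha
    · rw [Set.insert_sdiff_of_mem _ (Set.mem_singleton _), Set.sdiff_singleton_eq_self hns]
      exact hd
    · have hne : Z ≠ a := fun h => hns (h ▸ ha)
      rw [Set.insert_sdiff_of_notMem s
        (show Z ∉ ({a} : Set (Submodule (ZMod p) X)) from fun h => hne h), sSup_insert]
      have h2 : Disjoint a (sSup (s \ {a})) := hs ha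
      rw [sup_comm]
      refine h2.disjoint_sup_right_of_disjoint_sup_left ?_
      refine Disjoint.mono_left ?_ hd.symm
      exact sup_le (le_sSup ha) (sSup_le_sSup Set.sdiff_subset)
  have h2 : Set.ncard (insert Z s) ≤ Set.ncard s := hmax ⟨insert Z s, h1, by
    intro Y hY
    rcases hY with rfl | hY
    · exact ⟨hZ, hZT⟩
    · exact hsI Y hY⟩
  rw [Set.ncard_insert_of_notMem hns (Set.toFinite _)] at h2
  omega

/-- The family member for an irreducible submodule. -/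
private theorem zd_fam {p : ℕ} [Fact p.Prime] {H X : Type} [Group H] [Finite H]
    [AddCommGroup X] [Module (ZMod p) X] [Finite X] (ρ : Representation (ZMod p) H X)
    (Y : Submodule (ZMod p) X) (hY : zd_I ρ Y) :
    ∃ (F : Fam p H) (e : F.X →ₗ[ZMod p] X), Function.Injective e ∧ LinearMap.range e = Y ∧
      ∀ h x, e (F.ρ h x) = ρ h (e x) := by
  have hn : Nontrivial Y := Submodule.nontrivial_iff_ne_bot.2 hY.2.1
  have hirr : Irrd (rs ρ Y hY.1) ⊤ := by
    intro W hW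
    have h1 := hY.2.2 (W.map Y.subtype) (Submodule.map_subtype_le Y W) (by
      rintro n hn _ ⟨w, hw, rfl⟩
      exact ⟨rs ρ Y hY.1 n w, hW n hn w hw, rfl⟩)
    rcases h1 with h | h
    · left
      rw [eq_bot_iff]
      intro w hw
      have h2 : (w : X) ∈ W.map Y.subtype := ⟨w, hw, rfl⟩
      rw [h, Submodule.mem_bot] at h2
      exact Submodule.mem_bot _ |>.2 (Subtype.ext h2)
    · right
      rw [eq_top_iff]
      intro y _
      have h2 : (y : X) ∈ W.map Y.subtype := by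
        rw [h]
        exact y.2
      obtain ⟨w, hw, he⟩ := h2
      have h3 : w = y := Subtype.ext he
      exact h3 ▸ hw
  obtain ⟨J, hJ, W, UU, hB⟩ := bs_ex hirr
  exact ⟨{ X := Y, ρ := rs ρ Y hY.1, irr := hirr, J := J, W := W, UU := UU, bs := hB },
    Y.subtype, Y.injective_subtype, Y.range_subtype, fun h x => rfl⟩

/-- Automorphisms preserve the kernel of `q`. -/
private theorem zd_ker {p : ℕ} {P V : Type} [Group P] [AddCommGroup V]
    [Module (ZMod p) V] (q : P → V) (q_mul : ∀ x y, q (x * y) = q x + q y)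
    (q_ker : ∀ x, q x = 0 ↔ x ∈ pe_Phi p P) (α : P →* P) (x : P) (hx : q x = 0) :
    q (α x) = 0 := by
  have hq1 : q 1 = 0 := by
    have h1 := q_mul 1 1
    rw [mul_one] at h1
    simpa using h1
  let f : P →* Multiplicative V :=
    { toFun := fun x => Multiplicative.ofAdd (q (α x))
      map_one' := by
        rw [map_one, hq1, ofAdd_zero]
      map_mul' := fun x y => by
        rw [map_mul, q_mul, ofAdd_add] }
  have h1 := pe_Phi_le p f (by
    intro a
    obtain ⟨v, rfl⟩ := Multiplicative.ofAdd.surjective a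
    rw [← ofAdd_nsmul, ZModModule.char_nsmul_eq_zero, ofAdd_zero])
  have h2 := h1 ((q_ker x).1 hx)
  rw [MonoidHom.mem_ker] at h2
  exact Multiplicative.ofAdd.injective h2

/-- The representation on the Frattini factor group. -/
private theorem zd_rep (p : ℕ) [Fact p.Prime] {V : Type} [AddCommGroup V]
    [Module (ZMod p) V] (q : Op p G → V) (q_mul : ∀ x y, q (x * y) = q x + q y)
    (q_surj : Function.Surjective q) (q_ker : ∀ x, q x = 0 ↔ x ∈ pe_Phi p (Op p G)) :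
    ∃ ρV : Representation (ZMod p) (G ⧸ Fit G) V, ∀ (g : G) (x y : Op p G),
      (y : G) = g * x * g⁻¹ → q y = ρV (g : G ⧸ Fit G) (q x) := by
  have hN : (Op p G).Normal := op_nor p
  have h1 : ∀ g : G, ∃ F : V →+ V, ∀ x, F (q x) = q (MulAut.conjNormal g x) := by
    intro g
    exact pe_lift q q_mul q_surj (fun x => q (MulAut.conjNormal g x))
      (fun x y => by rw [map_mul, q_mul])
      (fun x hx => zd_ker q q_mul q_ker (MulAut.conjNormal g : MulAut (Op p G)).toMonoidHom x hx)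
  choose F hF using h1
  let R : G →* Module.End (ZMod p) V :=
    { toFun := fun g => (F g).toZModLinearMap p
      map_one' := by
        refine LinearMap.ext fun v => ?_
        obtain ⟨x, rfl⟩ := q_surj v
        show F 1 (q x) = q x
        rw [hF, map_one, MulAut.one_apply]
      map_mul' := fun g h => by
        refine LinearMap.ext fun v => ?_
        obtain ⟨x, rfl⟩ := q_surj v
        show F (g * h) (q x) = F g (F h (q x))
        rw [hF, hF, hF, map_mul, MulAut.mul_apply] }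
  have hR : ∀ g x, R g (q x) = q (MulAut.conjNormal g x) := fun g x => hF g x
  have hq1 : q 1 = 0 := by
    have h1 := q_mul 1 1
    rw [mul_one] at h1
    simpa using h1
  have hker : Fit G ≤ R.ker := by
    refine iSup_le fun r u hu => ?_
    rw [MonoidHom.mem_ker]
    refine LinearMap.ext fun v => ?_
    obtain ⟨x, rfl⟩ := q_surj v
    rw [hR]
    show q (MulAut.conjNormal u x) = q x
    by_cases hr : (r : ℕ) = p
    · rw [hr] at hu
      have h2 : (MulAut.conjNormal u : MulAut (Op p G)) x = ⟨u, hu⟩ * x * ⟨u, hu⟩⁻¹ := by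
        apply Subtype.ext
        rw [MulAut.conjNormal_apply]
        rfl
      have h3 : q (⟨u, hu⟩ : Op p G) + q (⟨u, hu⟩ : Op p G)⁻¹ = 0 := by
        rw [← q_mul, mul_inv_cancel, hq1]
      rw [h2, q_mul, q_mul, add_right_comm, h3, zero_add]
    · have h2 : (MulAut.conjNormal u : MulAut (Op p G)) x = x := by
        apply Subtype.ext
        rw [MulAut.conjNormal_apply, op_com (r : ℕ) p (Nat.prime_of_mem_primeFactors r.2)
          (Fact.out) hr u x hu x.2, mul_inv_cancel_right]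
      rw [h2]
  refine ⟨QuotientGroup.lift (Fit G) R hker, fun g x y hxy => ?_⟩
  have h2 : y = MulAut.conjNormal g x := by
    apply Subtype.ext
    rw [MulAut.conjNormal_apply, hxy]
  rw [h2, ← hR]
  rfl

/-- (zd, size 4) The family of modules which vanish on `frattini G`. PROOF. If `p` does not divide `card (G ⧸ Fit G)`: `pd_ex`. Otherwise copy the proof of `pd_ex` (Nfv/Mn.lean, with the private lemmas `mn2_*`), but take a maximal independent family of irreducible submodules of `Dual V` among those which are contained in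
`D₀ = {f | f (q x) = 0 for all x ∈ Op p G with x ∈ frattini G}` (an invariant submodule: `frattini G` is normal; simplest: `mn2_soc` for the restriction of `ρV.dual` to `D₀`, or `mn2_soc` with the extra condition `Y ≤ D₀`). `sup` is vacuous. `det`: let the normal `r`-group `D` be trivial on the family. As in `pd_ex` (with
`T = D₀ ⊓ ker ∑`) it is trivial on `D₀`. `W` = the image of `Op p G ⊓ frattini G` in `V` (a submodule); a vector on which all forms of `D₀` vanish is in `W`. So for `g` with class in `D` and `x ∈ Op p G`: `q (g x g⁻¹) - q x ∈ W`, so `g x g⁻¹ x⁻¹ = y c`, `y ∈ frattini G`, `c ∈ pe_Phi p (Op p G) ≤ frattini (Op p G)`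
(`gc_comm_le`, `gc_pow_mem`), so it is in `frattini G` (`fr_nor`). `fr_triv` is a contradiction to `ntG`. -/
theorem pdf_ex (p : ℕ) (hp : p.Prime) : ∃ E : PD G p, Ffr E := by
  by_cases hpH : p ∣ Nat.card (G ⧸ Fit G)
  swap
  · obtain ⟨E⟩ := pd_ex (G := G) p hp
    exact ⟨E, fun h => absurd h hpH⟩
  have hpf : Fact p.Prime := ⟨hp⟩
  obtain ⟨V, iA, iM, iF, q, q_mul, q_surj, q_ker⟩ := pe_V p (Op p G)
  obtain ⟨ρV, q_eq⟩ := zd_rep p q q_mul q_surj q_ker
  have hDfin : Finite (Module.Dual (ZMod p) V) :=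
    Finite.of_injective (fun f : Module.Dual (ZMod p) V => (f : V → ZMod p))
      DFunLike.coe_injective
  have hdual : ∀ (h : G ⧸ Fit G) (f : Module.Dual (ZMod p) V) (v : V),
      ρV.dual h f v = f (ρV h⁻¹ v) := fun h f v => rfl
  have hN : (Op p G).Normal := op_nor p
  have hFn : (frattini G).Normal := inferInstance
  have hq1 : q 1 = 0 := by
    have h1 := q_mul 1 1
    rw [mul_one] at h1
    simpa using h1
  have hqi : ∀ x, q x⁻¹ = - q x := by
    intro x
    have h := q_mul x x⁻¹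
    rw [mul_inv_cancel, hq1] at h
    exact eq_neg_of_add_eq_zero_right h.symm
  -- the image of `frattini G`
  let WA : AddSubgroup V :=
    { carrier := {v | ∃ x : Op p G, (x : G) ∈ frattini G ∧ q x = v}
      zero_mem' := ⟨1, (frattini G).one_mem, hq1⟩
      add_mem' := by
        rintro _ _ ⟨x, hx, rfl⟩ ⟨y, hy, rfl⟩
        exact ⟨x * y, (frattini G).mul_mem hx hy, q_mul x y⟩
      neg_mem' := by
        rintro _ ⟨x, hx, rfl⟩
        exact ⟨x⁻¹, (frattini G).inv_mem hx, hqi x⟩ }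
  let W : Submodule (ZMod p) V := AddSubgroup.toZModSubmodule p WA
  have hW : ∀ v, v ∈ W ↔ ∃ x : Op p G, (x : G) ∈ frattini G ∧ q x = v := fun v => Iff.rfl
  let D₀ : Submodule (ZMod p) (Module.Dual (ZMod p) V) := W.dualAnnihilator
  have hD₀ : ∀ f, f ∈ D₀ ↔ ∀ w ∈ W, f w = 0 := fun f => Submodule.mem_dualAnnihilator f
  have hD₀i : Ivt ρV.dual ⊤ D₀ := by
    intro h _ f hf
    rw [hD₀] at hf ⊢
    intro w hw
    rw [hW] at hw
    obtain ⟨x, hx, rfl⟩ := hw
    obtain ⟨g, rfl⟩ := QuotientGroup.mk_surjective h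
    rw [hdual, ← QuotientGroup.mk_inv]
    apply hf
    rw [hW]
    refine ⟨⟨g⁻¹ * x * g⁻¹⁻¹, hN.conj_mem (x : G) x.2 g⁻¹⟩, hFn.conj_mem (x : G) hx g⁻¹, ?_⟩
    exact q_eq g⁻¹ x _ rfl
  obtain ⟨s, hs, hsI, hsM⟩ := zd_soc ρV.dual D₀
  have hfin := zd_finS (p := p) (Module.Dual (ZMod p) V)
  obtain ⟨n, ⟨e⟩⟩ : ∃ n : ℕ, Nonempty (Fin n ≃ s) :=
    ⟨Nat.card s, ⟨(Finite.equivFin s).symm⟩⟩
  have hF := fun i : Fin n => zd_fam ρV.dual (e i : Submodule (ZMod p) (Module.Dual (ZMod p) V))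
    (hsI _ (e i).2).1
  choose F em hinj hran heq using hF
  have hsup : ⨆ i, LinearMap.range (em i) = sSup s := by
    rw [sSup_eq_iSup', ← e.iSup_comp]
    exact iSup_congr hran
  have hind : iSupIndep fun i => LinearMap.range (em i) := by
    have h1 : iSupIndep fun y : s => (y : Submodule (ZMod p) (Module.Dual (ZMod p) V)) :=
      (sSupIndep_iff s).1 hs
    have h2 := h1.comp e.injective
    have h3 : (fun i => LinearMap.range (em i)) =
        (fun y : s => (y : Submodule (ZMod p) (Module.Dual (ZMod p) V))) ∘ e :=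
      funext hran
    rw [h3]
    exact h2
  have hdet : ∀ r : ℕ, r.Prime → r ≠ p → ∀ D : Subgroup (G ⧸ Fit G), D.Normal → IsPGroup r D →
      ntG (Op p G) D → ∃ i, ∃ d ∈ D, ∃ x, (F i).ρ d x ≠ x := by
    intro r hr hrp D hD hDr hnt
    by_contra hcon
    push Not at hcon
    -- `D` is trivial on the sum of the family
    have hS : ∀ d ∈ D, ∀ f ∈ sSup s, ρV.dual d f = f := by
      intro d hd f hf
      rw [← hsup] at hf
      refine Submodule.iSup_induction _ (motive := fun f => ρV.dual d f = f) hf ?_ (map_zero _) ?_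
      · rintro i _ ⟨x, rfl⟩
        rw [← heq, hcon i d hd x]
      · intro f f' h1 h2
        rw [map_add, h1, h2]
    -- `D` is trivial on `D₀`
    have hft := Fintype.ofFinite D
    have hpD : ¬ p ∣ Nat.card D := by
      have hrf : Fact r.Prime := ⟨hr⟩
      obtain ⟨k, hk⟩ := IsPGroup.iff_card.1 hDr
      rw [hk]
      intro hd
      exact hrp ((Nat.prime_dvd_prime_iff_eq hp hr).1 (hp.dvd_of_dvd_pow hd)).symm
    have hM : ∀ d ∈ D, ∀ f ∈ D₀, ρV.dual d f = f := by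
      by_contra hc
      push Not at hc
      obtain ⟨d, hd, f, hf, hdf⟩ := hc
      obtain ⟨y, hy0, hy⟩ := avg_ex (rs ρV.dual D₀ hD₀i) D hpD
        ⟨d, hd, ⟨f, hf⟩, fun h => hdf (congrArg Subtype.val h)⟩
      have hy' : ∑ k : D, ρV.dual (k : G ⧸ Fit G) (y : Module.Dual (ZMod p) V) = 0 := by
        have h1 := congrArg Subtype.val hy
        rw [AddSubmonoidClass.coe_finsetSum] at h1
        exact h1
      let T : Submodule (ZMod p) (Module.Dual (ZMod p) V) :=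
        D₀ ⊓ LinearMap.ker (∑ k : D, ρV.dual (k : G ⧸ Fit G))
      have hTm : ∀ f, f ∈ T ↔ f ∈ D₀ ∧ ∑ k : D, ρV.dual (k : G ⧸ Fit G) f = 0 := by
        intro f
        refine and_congr_right fun _ => ?_
        show (∑ k : D, ρV.dual (k : G ⧸ Fit G)) f = 0 ↔ _
        rw [LinearMap.sum_apply]
      have hTi : Ivt ρV.dual ⊤ T := by
        intro h _ f hf
        rw [hTm] at hf ⊢
        refine ⟨hD₀i h (Subgroup.mem_top h) f hf.1, ?_⟩
        have h1 : ∑ k : D, ρV.dual (k : G ⧸ Fit G) (ρV.dual h f) =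
            ρV.dual h (∑ k : D, ρV.dual (k : G ⧸ Fit G) f) := by
          rw [map_sum]
          refine Fintype.sum_equiv (MulAut.conjNormal (H := D) h⁻¹).toEquiv _ _ fun k => ?_
          have h2 : (((MulAut.conjNormal (H := D) h⁻¹).toEquiv k : D) : G ⧸ Fit G) =
              h⁻¹ * k * h := by
            have h3 := MulAut.conjNormal_apply (H := D) h⁻¹ k
            rw [inv_inv] at h3
            exact h3
          rw [h2]
          rw [← Module.End.mul_apply, ← Module.End.mul_apply, ← map_mul, ← map_mul]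
          congr 2
          group
        rw [h1, hf.2, map_zero]
      have hT0 : T ≠ ⊥ := by
        intro h
        apply hy0
        have h1 : (y : Module.Dual (ZMod p) V) ∈ T := (hTm y).2 ⟨y.2, hy'⟩
        rw [h, Submodule.mem_bot] at h1
        exact Subtype.ext h1
      obtain ⟨Z, hZT, hZ⟩ := zd_sub ρV.dual T hTi hT0
      apply hZ.2.1
      rw [eq_bot_iff]
      intro z hz
      have h1 := ((hTm z).1 (hZT hz)).2
      have h2 : ∀ k : D, ρV.dual (k : G ⧸ Fit G) z = z := fun k =>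
        hS k k.2 z (hsM Z hZ (fun w hw => ((hTm w).1 (hZT hw)).1) hz)
      rw [Finset.sum_congr rfl fun k _ => h2 k, Finset.sum_const, Finset.card_univ,
        ← Nat.card_eq_fintype_card, ← Nat.cast_smul_eq_nsmul (ZMod p)] at h1
      have hn : ((Nat.card D : ℕ) : ZMod p) ≠ 0 := by
        rw [Ne, ZMod.natCast_eq_zero_iff]
        exact hpD
      rw [Submodule.mem_bot]
      rcases smul_eq_zero.1 h1 with h3 | h3
      · exact absurd h3 hn
      · exact h3
    have hfr : pe_Phi p (Op p G) ≤ frattini (Op p G) := by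
      refine sup_le (gc_comm_le p (op_pgr p)) ?_
      rw [Subgroup.closure_le]
      rintro _ ⟨x, rfl⟩
      exact gc_pow_mem p (op_pgr p) x
    refine fr_triv p r hp hr hrp D hD hDr ?_ hnt
    intro g hg x hx
    have h1 : ρV (g : G ⧸ Fit G) (q ⟨x, hx⟩) - q ⟨x, hx⟩ ∈ W := by
      have h2 : W = W.dualAnnihilator.dualCoannihilator :=
        Subspace.dualAnnihilator_dualCoannihilator_eq.symm
      rw [h2, Submodule.mem_dualCoannihilator]
      intro f hf
      have h3 := hM (g : G ⧸ Fit G)⁻¹ (D.inv_mem hg) f hf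
      have h4 := congrArg (fun t : Module.Dual (ZMod p) V => t (q ⟨x, hx⟩)) h3
      beta_reduce at h4
      rw [hdual, inv_inv] at h4
      rw [map_sub, h4, sub_self]
    rw [hW] at h1
    obtain ⟨y, hy, hyq⟩ := h1
    have h2 : q ⟨g * x * g⁻¹, hN.conj_mem x hx g⟩ = ρV (g : G ⧸ Fit G) (q ⟨x, hx⟩) :=
      q_eq g ⟨x, hx⟩ _ rfl
    have h3 : q (⟨g * x * g⁻¹, hN.conj_mem x hx g⟩ * (y * ⟨x, hx⟩)⁻¹) = 0 := by
      rw [q_mul, hqi, q_mul, hyq, h2]
      abel
    have h4 := fr_nor (Op p G) hN _ (hfr ((q_ker _).1 h3))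
    have h5 : g * x * g⁻¹ * x⁻¹ = (g * x * g⁻¹ * ((y : G) * x)⁻¹) * (y : G) := by group
    rw [h5]
    exact (frattini G).mul_mem h4 hy
  refine ⟨{
    V := V
    q := q
    ρV := ρV
    n := n
    F := F
    em := em
    q_mul := q_mul
    q_surj := q_surj
    q_ker := q_ker
    q_eq := q_eq
    inj := hinj
    eqv := fun i h x v => by rw [heq, hdual]
    ind := hind
    sup := fun h => absurd hpH h
    det := hdet }, ?_⟩
  intro _ x hx j y
  have h1 : em j y ∈ D₀ := by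
    have h2 : em j y ∈ (e j : Submodule (ZMod p) (Module.Dual (ZMod p) V)) := by
      rw [← hran j]
      exact ⟨y, rfl⟩
    exact (hsI _ (e j).2).2 h2
  exact (hD₀ _).1 h1 _ ((hW _).2 ⟨x, hx, rfl⟩)
-- END zd

-- BEGIN ze
private theorem ze_inv {p : ℕ} {H X : Type} [Group H] [AddCommGroup X] [Module (ZMod p) X]
    (ρ : Representation (ZMod p) H X) {h : H} {v : X} (hv : ρ h v = v) : ρ h⁻¹ v = v := by
  have h1 : ρ h⁻¹ (ρ h v) = v := by
    rw [← Module.End.mul_apply, ← map_mul, inv_mul_cancel, map_one, Module.End.one_apply]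
  rwa [hv] at h1

private theorem ze_inv2 {p : ℕ} {H X : Type} [Group H] [AddCommGroup X] [Module (ZMod p) X]
    (ρ : Representation (ZMod p) H X) {h : H} {v : X} (hv : ρ h⁻¹ v = v) : ρ h v = v := by
  have h1 := ze_inv ρ hv
  rwa [inv_inv] at h1

/-- (ze, size 2) The stabilizer of the linear character of a vector. PROOF. `mn3_fx` of Nfv/Mn.lean (private: copy it) for one direction, `eqv`, `q_eq` for the other. -/
theorem lin_fx (p : ℕ) [Fact p.Prime] (E : PD G p) (ζ : Multiplicative (ZMod p) →* ℂˣ)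
    (hζ : Function.Injective ζ) (T : ∀ i, (E.F i).X) (z : G ⧸ Fit G) :
    z ∈ fxH (Fit G) (Op p G) (op_nor p)
      (fun x => ((ζ (Multiplicative.ofAdd ((∑ i, E.em i (T i)) (E.q x))) : ℂˣ) : ℂ)) ↔
    ∀ i, (E.F i).ρ z (T i) = T i := by
  constructor
  · rintro ⟨g, hg, rfl⟩
    have hg' := (mem_fxG _ _ _ _).1 hg
    have h1 : ∀ v : E.V, (∑ i, E.em i (T i)) (E.ρV (g : G ⧸ Fit G) v) = (∑ i, E.em i (T i)) v := by
      intro v
      obtain ⟨x, rfl⟩ := E.q_surj v
      obtain ⟨y, hy⟩ : ∃ y : Op p G, (y : G) = g * x * g⁻¹ :=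
        ⟨⟨_, (op_nor (G := G) p).conj_mem (x : G) x.2 g⟩, rfl⟩
      have h2 := hζ (Units.ext (hg' x y hy))
      have h3 := Multiplicative.ofAdd.injective h2
      rw [E.q_eq g x y hy] at h3
      exact h3
    have h2 : ∑ i, E.em i ((E.F i).ρ (g : G ⧸ Fit G)⁻¹ (T i) - T i) = 0 := by
      refine LinearMap.ext fun v => ?_
      have h3 := h1 v
      rw [LinearMap.sum_apply, LinearMap.sum_apply] at h3
      rw [LinearMap.sum_apply, LinearMap.zero_apply]
      simp only [map_sub, LinearMap.sub_apply]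
      rw [Finset.sum_sub_distrib, sub_eq_zero, ← h3]
      refine Finset.sum_congr rfl fun i _ => ?_
      rw [E.eqv, inv_inv]
    intro i
    apply ze_inv2
    have h3 := (iSupIndep_iff_finsetSum_eq_zero_imp_eq_zero _).1 E.ind Finset.univ _
      (fun i _ => ⟨_, rfl⟩) h2 i (Finset.mem_univ i)
    have h4 := E.inj i (h3.trans (map_zero _).symm)
    exact sub_eq_zero.1 h4
  · intro hz
    obtain ⟨g, rfl⟩ := QuotientGroup.mk'_surjective (Fit G) z
    refine ⟨g, ?_, rfl⟩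
    have h0 : ∀ x y : Op p G, (y : G) = g * x * g⁻¹ →
        (∑ i, E.em i (T i)) (E.q y) = (∑ i, E.em i (T i)) (E.q x) := by
      intro x y hxy
      rw [E.q_eq g x y hxy, LinearMap.sum_apply, LinearMap.sum_apply]
      refine Finset.sum_congr rfl fun i _ => ?_
      have h1 := E.eqv i (g : G ⧸ Fit G)⁻¹ (T i) (E.q x)
      rw [inv_inv] at h1
      have h2 : (E.F i).ρ (g : G ⧸ Fit G)⁻¹ (T i) = T i := ze_inv (E.F i).ρ (hz i)
      rw [← h1, h2]
    intro x y hxy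
    show ((ζ (Multiplicative.ofAdd ((∑ i, E.em i (T i)) (E.q y))) : ℂˣ) : ℂ) =
      ((ζ (Multiplicative.ofAdd ((∑ i, E.em i (T i)) (E.q x))) : ℂˣ) : ℂ)
    rw [h0 x y hxy]
-- END ze

-- BEGIN zf
private theorem zf_hall :
    (Nat.card (⨆ i : {p : ℕ // p ∈ (Nat.card G).primeFactors ∧ ¬ p ∣ Nat.card (G ⧸ Fit G)},
      Op i G : Subgroup G)).Coprime
    (⨆ i : {p : ℕ // p ∈ (Nat.card G).primeFactors ∧ ¬ p ∣ Nat.card (G ⧸ Fit G)},
      Op i G : Subgroup G).index := by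
  obtain ⟨S, hS⟩ : ∃ S : Finset ℕ,
      S = (Nat.card G).primeFactors.filter (fun p => ¬ p ∣ Nat.card (G ⧸ Fit G)) := ⟨_, rfl⟩
  have e : (⨆ i : {p : ℕ // p ∈ (Nat.card G).primeFactors ∧ ¬ p ∣ Nat.card (G ⧸ Fit G)},
      Op i G : Subgroup G) = ⨆ r ∈ S, Op r G := by
    apply le_antisymm
    · refine iSup_le fun i => ?_
      refine le_iSup₂_of_le (i : ℕ) ?_ le_rfl
      rw [hS, Finset.mem_filter]
      exact i.2
    · refine iSup₂_le fun r hr => ?_
      rw [hS, Finset.mem_filter] at hr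
      exact le_iSup (fun i : {p : ℕ // p ∈ (Nat.card G).primeFactors ∧
        ¬ p ∣ Nat.card (G ⧸ Fit G)} => Op i G) ⟨r, hr⟩
  have hpr : ∀ r ∈ S, r.Prime := by
    intro r hr
    rw [hS, Finset.mem_filter] at hr
    exact Nat.prime_of_mem_primeFactors hr.1
  rw [e]
  refine csup_cop S (fun r => Op r G) hpr (fun r _ => op_pgr r) ?_ _ ?_
  · intro r hr r' hr' hne x hx y hy
    exact op_com r r' (hpr r hr) (hpr r' hr') hne x y hx hy
  · intro r hr hd
    have h1 : Op r G ≤ ⨆ r ∈ S, Op r G := le_iSup₂_of_le r hr le_rfl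
    have h2 := Subgroup.index_dvd_of_le h1
    have h3 : ¬ r ∣ (Fit G).index := by
      rw [hS, Finset.mem_filter] at hr
      exact hr.2
    exact op_idx r (hpr r hr) h3 (hd.trans h2)

private theorem zf_cop {p q : ℕ} (hp : p.Prime) (hq : q.Prime) (hne : p ≠ q) :
    (Nat.card (Op p G)).Coprime (Nat.card (Op q G)) := by
  have := Fact.mk hp
  have := Fact.mk hq
  exact IsPGroup.coprime_card_of_ne p q hne _ _ (op_pgr p) (op_pgr q)

private theorem zf_deg {A : Type} [Group A] [Finite A] {θ : A → ℂ} (h : θ ∈ Irr A) :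
    ∃ n : ℕ, 0 < n ∧ θ 1 = n := by
  have := Fintype.ofFinite A
  obtain ⟨n, h0, h1⟩ := irr_deg h
  exact ⟨n, h0, h1⟩

/-- The elements of `Fit G` of order prime to `i`. -/
private theorem zf_Q (i : ℕ) (hi : i.Prime) : ∃ Q : Subgroup G, Q.Normal ∧ (Nat.card Q).Coprime i ∧
    (∀ x ∈ Op i G, ∀ y ∈ Q, x * y = y * x) ∧ Op i G ⊔ Q = Fit G ∧
    ∀ j : ℕ, j.Prime → j ≠ i → Op j G ≤ Q := by
  set S := (Nat.card G).primeFactors.erase i with hS
  have hSp : ∀ r ∈ S, r.Prime := fun r hr =>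
    Nat.prime_of_mem_primeFactors (Finset.mem_of_mem_erase hr)
  refine ⟨⨆ r ∈ S, Op r G, ?_, ?_, ?_, ?_, ?_⟩
  · have : ∀ r : ℕ, (Op r G).Normal := fun r => op_nor r
    have h1 : ∀ r : ℕ, (⨆ _ : r ∈ S, Op r G : Subgroup G).Normal := fun r =>
      Subgroup.iSup_normal _
    exact Subgroup.iSup_normal _
  · refine csup_cop S (fun r => Op r G) hSp (fun r _ => op_pgr r) ?_ i ?_
    · intro r hr r' hr' hne x hx y hy
      exact op_com r r' (hSp r hr) (hSp r' hr') hne x y hx hy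
    · intro r hr hd
      exact Finset.ne_of_mem_erase hr ((Nat.prime_dvd_prime_iff_eq (hSp r hr) hi).1 hd)
  · intro x hx y hy
    have h1 : (⨆ r ∈ S, Op r G : Subgroup G) ≤ Subgroup.centralizer (Op i G : Set G) := by
      refine iSup₂_le fun r hr => ?_
      intro z hz
      rw [Subgroup.mem_centralizer_iff]
      intro w hw
      exact op_com i r hi (hSp r hr) (Finset.ne_of_mem_erase hr).symm w z hw hz
    exact (Subgroup.mem_centralizer_iff.1 (h1 hy) x hx)
  · apply le_antisymm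
    · refine sup_le (op_fit i hi) (iSup₂_le fun r hr => op_fit r (hSp r hr))
    · refine iSup_le fun r => ?_
      by_cases hr : (r : ℕ) = i
      · rw [hr]
        exact le_sup_left
      · refine le_sup_of_le_right ?_
        exact le_iSup₂_of_le (r : ℕ) (Finset.mem_erase.2 ⟨hr, r.2⟩) le_rfl
  · intro j hj hji
    by_cases h : j ∣ Nat.card G
    · exact le_iSup₂_of_le j (Finset.mem_erase.2 ⟨hji, Nat.mem_primeFactors.2
        ⟨hj, h, Nat.card_pos.ne'⟩⟩) le_rfl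
    · have hb : Op j G = ⊥ := by
        have := Fact.mk hj
        obtain ⟨k, hk⟩ := IsPGroup.iff_card.1 (op_pgr (G := G) j)
        have h0 : k = 0 := by
          by_contra h0
          apply h
          refine dvd_trans ?_ (Subgroup.card_subgroup_dvd_card (Op j G))
          rw [hk]
          exact dvd_pow_self j h0
        rw [h0, pow_zero] at hk
        exact Subgroup.card_eq_one.1 hk
      rw [hb]
      exact bot_le

/-- A linear character of `Op i G` which is trivial on `L` extends to its stabilizer. -/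
private theorem zf_lam (L : Subgroup G) (hL : Fit G ⊔ L = ⊤) (i : ℕ) (hi : i.Prime)
    (f : Op i G →* ℂˣ) (hf : ∀ x : Op i G, (x : G) ∈ L → f x = 1) (I : Subgroup G)
    (hFI : Fit G ≤ I) (hI : ∀ g ∈ I, ∀ x y : Op i G, (y : G) = g * x * g⁻¹ → f y = f x) :
    ∃ Λ : I →* ℂˣ, (∀ (x : Op i G) (t : I), (t : G) = x → Λ t = f x) ∧
      ∀ j : ℕ, j.Prime → j ≠ i → ∀ x ∈ Op j G, ∀ t : I, (t : G) = x → Λ t = 1 := by
  obtain ⟨Q, hQn, hQc, hQcom, hQF, hQj⟩ := zf_Q (G := G) i hi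
  have hOn : (Op i G).Normal := op_nor i
  -- the decomposition
  have hex : ∀ t : I, ∃ x : Op i G, ∃ k ∈ (Q ⊔ L : Subgroup G), (t : G) = x * k := by
    intro t
    have h1 : (t : G) ∈ (Op i G ⊔ (Q ⊔ L) : Subgroup G) := by
      rw [← sup_assoc, hQF, hL]
      exact Subgroup.mem_top _
    rw [Subgroup.mem_sup_of_normal_left] at h1
    obtain ⟨x, hx, k, hk, he⟩ := h1
    exact ⟨⟨x, hx⟩, k, hk, he.symm⟩
  -- uniqueness
  have hint : ∀ x : Op i G, (x : G) ∈ (Q ⊔ L : Subgroup G) → f x = 1 := by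
    intro x hx
    apply hf
    rw [Subgroup.mem_sup_of_normal_left] at hx
    obtain ⟨u, hu, l, hl, he⟩ := hx
    -- `l = u⁻¹ x`, commuting elements of coprime orders
    have hl' : l = u⁻¹ * x := by
      rw [← he]
      group
    obtain ⟨m, hm⟩ := (op_pgr (G := G) i) x
    have hx1 : (x : G) ^ i ^ m = 1 := by simpa using congrArg Subtype.val hm
    have hu1 : u ^ Nat.card Q = 1 := by
      exact congrArg (fun y : Q => (y : G)) (pow_card_eq_one' (x := (⟨u, hu⟩ : Q)))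
    have hcop : Nat.Coprime (i ^ m) (Nat.card Q) := Nat.Coprime.pow_left m hQc.symm
    obtain ⟨e, he1, he2⟩ := Nat.chineseRemainder hcop 1 0
    have hcm : Commute u⁻¹ (x : G) := by
      have h1 : Commute u (x : G) := (hQcom x x.2 u hu).symm
      exact h1.inv_left
    have h2 : l ^ e = x := by
      rw [hl', hcm.mul_pow]
      have h3 : u⁻¹ ^ e = 1 := by
        obtain ⟨c, hc⟩ := (Nat.modEq_zero_iff_dvd).1 he2
        rw [hc, pow_mul, inv_pow, hu1, inv_one, one_pow]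
      have h4 : (x : G) ^ e = (x : G) ^ 1 :=
        pow_eq_pow_iff_modEq.2 (Nat.ModEq.of_dvd (orderOf_dvd_of_pow_eq_one hx1) he1)
      rw [h3, one_mul, h4, pow_one]
    rw [← h2]
    exact L.pow_mem hl e
  have hun : ∀ (x x' : Op i G) (k k' : G), k ∈ (Q ⊔ L : Subgroup G) → k' ∈ (Q ⊔ L : Subgroup G) →
      (x : G) * k = x' * k' → f x = f x' := by
    intro x x' k k' hk hk' he
    have h1 : f (x'⁻¹ * x) = 1 := by
      apply hint
      have h2 : ((x'⁻¹ * x : Op i G) : G) = k' * k⁻¹ := by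
        show (x' : G)⁻¹ * x = k' * k⁻¹
        have h3 : (x : G) = x' * k' * k⁻¹ := by
          rw [← he]
          group
        rw [h3]
        group
      rw [h2]
      exact Subgroup.mul_mem _ hk' (Subgroup.inv_mem _ hk)
    rw [map_mul, map_inv, inv_mul_eq_one] at h1
    exact h1.symm
  choose X k hk he using hex
  have hkI : ∀ t : I, k t ∈ I := by
    intro t
    have h1 : k t = (X t : G)⁻¹ * t := by
      rw [he t]
      group
    rw [h1]
    exact I.mul_mem (I.inv_mem (hFI (op_fit i hi (X t).2))) t.2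
  refine ⟨MonoidHom.mk' (fun t => f (X t)) ?_, ?_, ?_⟩
  · intro t t'
    show f (X (t * t')) = f (X t) * f (X t')
    obtain ⟨y, hy⟩ : ∃ y : Op i G, (y : G) = k t * (X t' : G) * (k t)⁻¹ :=
      ⟨⟨_, hOn.conj_mem _ (X t').2 (k t)⟩, rfl⟩
    have h1 : f y = f (X t') := hI (k t) (hkI t) (X t') y hy
    rw [← h1, ← map_mul]
    refine hun _ _ (k (t * t')) (k t * k t') (hk _) (Subgroup.mul_mem _ (hk t) (hk t')) ?_
    rw [← he (t * t')]
    show (t : G) * t' = (X t : G) * y * (k t * k t')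
    rw [hy, he t, he t']
    group
  · intro x t htx
    show f (X t) = f x
    refine hun _ _ (k t) 1 (hk t) (Subgroup.one_mem _) ?_
    rw [← he t, htx, mul_one]
  · intro j hj hji x hx t htx
    show f (X t) = 1
    rw [← map_one f]
    refine hun _ _ (k t) x (hk t) (Subgroup.mem_sup_left (hQj j hj hji hx)) ?_
    rw [← he t, htx]
    show x = ((1 : Op i G) : G) * x
    rw [OneMemClass.coe_one, one_mul]

private theorem zf_over {A T : Type} [Group A] [Fintype A] [Group T] (κ : A →* T) (ζ : T → ℂ)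
    (θ : A → ℂ) (hθ : θ ∈ Irr A) (h : ∀ a, ζ (κ a) = θ a) : Over κ ζ θ := by
  unfold Over
  have h1 : ∑ a : A, ζ (κ a) * θ a⁻¹ = ∑ a : A, θ a * θ a⁻¹ :=
    Finset.sum_congr rfl fun a _ => by rw [h a]
  rw [h1, (Col_row θ θ hθ hθ).1 rfl]
  exact_mod_cast (Nat.card_pos (α := A)).ne'

private theorem zf_res {N T I : Type} [Group N] [Fintype N] [Group T] [Fintype T] [Group I]
    [Fintype I] {κ : N →* T} (hκ : Nrm κ) {ι : T →* I} (hι : Nrm ι) (η : I → ℂ) (hη : η ∈ Irr I)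
    (θ : N → ℂ) (hθ : θ ∈ Irr N) (h : ∀ x, η (ι (κ x)) = θ x) : (fun t => η (ι t)) ∈ Irr T := by
  have hov : Over (ι.comp κ) η θ := zf_over (ι.comp κ) η θ hθ h
  obtain ⟨φ, hφ, h1, h2⟩ := (ClA_trans κ hκ.inj ι hι.inj η hη θ hθ).1 hov
  obtain ⟨O, hO, hO1, hO2⟩ := ClC_main hι η hη φ hφ h1
  obtain ⟨O', hO', hO'1, hO'2⟩ := ClC_main hκ φ hφ θ hθ h2
  obtain ⟨d, hd, hdθ⟩ := irr_deg hθ
  have h3 : η 1 = θ 1 := by
    rw [← h 1, map_one, map_one]
  rw [hO'2, h3, hdθ] at hO2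
  have h4 : d = mlt ι η φ * O.card * (mlt κ φ θ * O'.card * d) := by exact_mod_cast hO2
  have h5 : (mlt ι η φ * O.card) * (mlt κ φ θ * O'.card) = 1 := by
    refine Nat.eq_of_mul_eq_mul_right hd ?_
    rw [one_mul, mul_assoc]
    exact h4.symm
  have h6 : mlt ι η φ * O.card = 1 := Nat.eq_one_of_mul_eq_one_right h5
  have h7 : mlt ι η φ = 1 := Nat.eq_one_of_mul_eq_one_right h6
  have h8 : O.card = 1 := Nat.eq_one_of_mul_eq_one_left h6
  have h9 : O = {φ} := by
    obtain ⟨φ', hφ'⟩ := Finset.card_eq_one.1 h8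
    have h10 : φ ∈ O := (hO φ).2 ⟨1, tw_one hι φ⟩
    rw [hφ'] at h10 ⊢
    rw [Finset.mem_singleton.1 h10]
  have h10 : (fun t => η (ι t)) = φ := by
    funext t
    rw [hO1 t, h7, h9, Finset.sum_singleton, Nat.cast_one, one_mul]
  rw [h10]
  exact hφ

/-- The extension of `θ` to `I` with `F'` in its kernel. -/
private theorem zf_eta (N F' I : Subgroup G) (hN : N.Normal) (hF' : F'.Normal)
    (hcop : (Nat.card N).Coprime N.index) (hNF : N ⊓ F' = ⊥) (θ : N → ℂ) (hθ : θ ∈ Irr N)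
    (hNI : N ≤ I) (hI : I ≤ fxG N hN θ) :
    ∃ η ∈ Irr I, (∀ (x : N) (t : I), (t : G) = x → η t = θ x) ∧
      ∀ t : I, (t : G) ∈ F' → η t = η 1 := by
  have h3 := Fintype.ofFinite N
  have h4 := Fintype.ofFinite I
  have hFn : (F'.subgroupOf I).Normal := inferInstance
  have h5 := Fintype.ofFinite (I ⧸ F'.subgroupOf I)
  obtain ⟨j, hj⟩ : ∃ j : N →* I, ∀ x, (j x : G) = x :=
    ⟨Subgroup.inclusion hNI, fun _ => rfl⟩
  obtain ⟨ι, hι'⟩ : ∃ ι : N →* I ⧸ F'.subgroupOf I, ∀ x, ι x = ((j x : I) : I ⧸ F'.subgroupOf I) :=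
    ⟨(QuotientGroup.mk' (F'.subgroupOf I)).comp j, fun _ => rfl⟩
  have hinj : Function.Injective ι := by
    rw [injective_iff_map_eq_one]
    intro x hx
    rw [hι', QuotientGroup.eq_one_iff, Subgroup.mem_subgroupOf, hj] at hx
    have h6 : (x : G) ∈ N ⊓ F' := ⟨x.2, hx⟩
    rw [hNF, Subgroup.mem_bot] at h6
    exact Subtype.ext h6
  have hι : Nrm ι := by
    refine ⟨hinj, fun g x => ?_⟩
    obtain ⟨t, rfl⟩ := QuotientGroup.mk_surjective g
    refine ⟨⟨(t : G) * x * (t : G)⁻¹, hN.conj_mem x x.2 t⟩, ?_⟩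
    rw [hι', hι', ← QuotientGroup.mk_mul, ← QuotientGroup.mk_inv, ← QuotientGroup.mk_mul]
    congr 1
    apply Subtype.ext
    rw [hj]
    show _ = (t : G) * (j x : G) * (t : G)⁻¹
    rw [hj]
  have hidx : ι.range.index ∣ N.index := by
    have h6 : (N.subgroupOf I).map (QuotientGroup.mk' (F'.subgroupOf I)) = ι.range := by
      ext y
      constructor
      · rintro ⟨t, ht, rfl⟩
        refine ⟨⟨(t : G), ht⟩, ?_⟩
        rw [hι']
        show ((j ⟨(t : G), ht⟩ : I) : I ⧸ F'.subgroupOf I) = ((t : I) : I ⧸ F'.subgroupOf I)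
        congr 1
        apply Subtype.ext
        rw [hj]
      · rintro ⟨x, rfl⟩
        refine ⟨j x, ?_, (hι' x).symm⟩
        show ((j x : I) : G) ∈ N
        rw [hj]
        exact x.2
    rw [← h6]
    have h7 : ((N.subgroupOf I).map (QuotientGroup.mk' (F'.subgroupOf I))).index ∣
        (N.subgroupOf I).index :=
      Subgroup.index_map_dvd _ (QuotientGroup.mk'_surjective _)
    refine h7.trans ?_
    show N.relIndex I ∣ N.index
    exact Dvd.intro _ (Subgroup.relIndex_mul_index hNI)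
  obtain ⟨η, hη, hηθ⟩ := cext hι (Nat.Coprime.coprime_dvd_right hidx hcop) θ hθ (by
    intro g
    obtain ⟨t, rfl⟩ := QuotientGroup.mk_surjective g
    funext x
    rw [tw_apply]
    refine (mem_fxG _ _ _ _).1 (hI t.2) x _ ?_
    have h6 := hι.cg_spec (t : I ⧸ F'.subgroupOf I) x
    obtain ⟨y, hy⟩ : ∃ y : N, (y : G) = t * x * (t : G)⁻¹ :=
      ⟨⟨_, hN.conj_mem x x.2 t⟩, rfl⟩
    have h7 : ι y = (t : I ⧸ F'.subgroupOf I) * ι x * (t : I ⧸ F'.subgroupOf I)⁻¹ := by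
      rw [hι', hι', ← QuotientGroup.mk_mul, ← QuotientGroup.mk_inv, ← QuotientGroup.mk_mul]
      congr 1
      apply Subtype.ext
      rw [hj]
      show _ = (t : G) * (j x : G) * (t : G)⁻¹
      rw [hj, hy]
    rw [← h6] at h7
    rw [← hι.inj h7, hy])
  refine ⟨fun t => η (t : I ⧸ F'.subgroupOf I), ?_, ?_, ?_⟩
  · exact Inf_irr (QuotientGroup.mk' (F'.subgroupOf I)) (QuotientGroup.mk'_surjective _) η hη
  · intro x t htx
    have h6 : t = j x := Subtype.ext (by rw [hj, htx])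
    show η (t : I ⧸ F'.subgroupOf I) = θ x
    rw [h6, ← hι', hηθ]
  · intro t ht
    show η (t : I ⧸ F'.subgroupOf I) = η ((1 : I) : I ⧸ F'.subgroupOf I)
    congr 1
    rw [QuotientGroup.mk_one, QuotientGroup.eq_one_iff]
    exact ht

/-- The version with a supplement `L` of the Fitting subgroup. -/
private theorem zf_L (L : Subgroup G) (hL : Fit G ⊔ L = ⊤)
    (s : ∀ i : {p : ℕ // p ∈ (Nat.card G).primeFactors}, Op (i : ℕ) G → ℂ)
    (hs : ∀ i : {p : ℕ // p ∈ (Nat.card G).primeFactors}, s i ∈ Irr (Op (i : ℕ) G))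
    (hlin : ∀ i : {p : ℕ // p ∈ (Nat.card G).primeFactors}, (i : ℕ) ∣ Nat.card (G ⧸ Fit G) →
      ∃ f : Op (i : ℕ) G →* ℂˣ, (∀ x, s i x = f x) ∧ ∀ x : Op (i : ℕ) G, (x : G) ∈ L → f x = 1)
    (S : Subgroup (G ⧸ Fit G))
    (hS : ∀ z, z ∈ S ↔ ∀ i : {p : ℕ // p ∈ (Nat.card G).primeFactors},
      z ∈ fxH (Fit G) (Op (i : ℕ) G) (op_nor _) (s i))
    (φ : S → ℂ) (hφ : φ ∈ Irr S) (b : ℕ) (hb : φ 1 = b) :
    ∃ χ ∈ Irr G, ∃ d : ℕ, χ 1 = d ∧ S.index * b ∣ d ∧
      ∀ (i : {p : ℕ // p ∈ (Nat.card G).primeFactors}) (e : ℕ), s i 1 = e → e ∣ d := by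
  have hpr : ∀ i : {p : ℕ // p ∈ (Nat.card G).primeFactors}, (i : ℕ).Prime := fun i =>
    Nat.prime_of_mem_primeFactors i.2
  -- the Hall subgroup for the primes in `τ`
  have hfin : Finite {p : ℕ // p ∈ (Nat.card G).primeFactors ∧ ¬ p ∣ Nat.card (G ⧸ Fit G)} :=
    Finite.of_injective
      (fun i => (⟨(i : ℕ), i.2.1⟩ : {p : ℕ // p ∈ (Nat.card G).primeFactors}))
      (fun i j h => Subtype.ext (congrArg (fun t : {p : ℕ // p ∈ (Nat.card G).primeFactors} =>
        (t : ℕ)) h))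
  have hfin' : Finite {p : ℕ // p ∈ (Nat.card G).primeFactors ∧ p ∣ Nat.card (G ⧸ Fit G)} :=
    Finite.of_injective
      (fun i => (⟨(i : ℕ), i.2.1⟩ : {p : ℕ // p ∈ (Nat.card G).primeFactors}))
      (fun i j h => Subtype.ext (congrArg (fun t : {p : ℕ // p ∈ (Nat.card G).primeFactors} =>
        (t : ℕ)) h))
  have hft' := Fintype.ofFinite {p : ℕ // p ∈ (Nat.card G).primeFactors ∧ p ∣ Nat.card (G ⧸ Fit G)}
  obtain ⟨N, hNdef⟩ : ∃ N : Subgroup G,
      N = ⨆ i : {p : ℕ // p ∈ (Nat.card G).primeFactors ∧ ¬ p ∣ Nat.card (G ⧸ Fit G)}, Op (i : ℕ) G := ⟨_, rfl⟩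
  obtain ⟨F', hF'def⟩ : ∃ F' : Subgroup G,
      F' = ⨆ i : {p : ℕ // p ∈ (Nat.card G).primeFactors ∧ p ∣ Nat.card (G ⧸ Fit G)}, Op (i : ℕ) G := ⟨_, rfl⟩
  have hon : ∀ i : ℕ, (Op i G).Normal := fun i => op_nor i
  have hF'n : F'.Normal := by
    rw [hF'def]
    exact Subgroup.iSup_normal _
  have hθex : ∃ (hN : N.Normal), (Nat.card N).Coprime N.index ∧ ∃ θ ∈ Irr N,
      (∀ i : {p : ℕ // p ∈ (Nat.card G).primeFactors ∧ ¬ p ∣ Nat.card (G ⧸ Fit G)}, ∃ m : ℕ,
        θ 1 = (m : ℂ) * s ⟨(i : ℕ), i.2.1⟩ 1) ∧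
      ∀ g : G, g ∈ fxG N hN θ ↔ ∀ i : {p : ℕ // p ∈ (Nat.card G).primeFactors ∧ ¬ p ∣ Nat.card (G ⧸ Fit G)},
        g ∈ fxG (Op (i : ℕ) G) (op_nor _) (s ⟨(i : ℕ), i.2.1⟩) := by
    rw [hNdef]
    have hN : (⨆ i : {p : ℕ // p ∈ (Nat.card G).primeFactors ∧ ¬ p ∣ Nat.card (G ⧸ Fit G)},
        Op (i : ℕ) G : Subgroup G).Normal := Subgroup.iSup_normal _
    obtain ⟨θ, hθ, h1, h2⟩ := prodchar
      (fun i : {p : ℕ // p ∈ (Nat.card G).primeFactors ∧ ¬ p ∣ Nat.card (G ⧸ Fit G)} => Op (i : ℕ) G)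
      (fun i => op_nor (i : ℕ))
      (fun i j hij => zf_cop (Nat.prime_of_mem_primeFactors i.2.1)
        (Nat.prime_of_mem_primeFactors j.2.1) (fun h => hij (Subtype.ext h)))
      (fun i => s ⟨(i : ℕ), i.2.1⟩) (fun i => hs ⟨(i : ℕ), i.2.1⟩) hN
    exact ⟨hN, zf_hall, θ, hθ, h1, h2⟩
  obtain ⟨hN, hcop, θ, hθ, h1, h2⟩ := hθex
  have hNF : N ≤ Fit G := by
    rw [hNdef]
    exact iSup_le fun i => op_fit _ (Nat.prime_of_mem_primeFactors i.2.1)
  have hF'F : F' ≤ Fit G := by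
    rw [hF'def]
    exact iSup_le fun i => op_fit _ (Nat.prime_of_mem_primeFactors i.2.1)
  -- the intersection is trivial
  have hbot : N ⊓ F' = ⊥ := by
    have hNc : ∀ r : ℕ, r.Prime → r ∣ Nat.card (G ⧸ Fit G) → (Nat.card N).Coprime r := by
      intro r hr hτ
      have h3 : N = ⨆ p ∈ (Nat.card G).primeFactors.filter (fun p => ¬ p ∣ Nat.card (G ⧸ Fit G)), Op p G := by
        rw [hNdef]
        apply le_antisymm
        · exact iSup_le fun i => le_iSup₂_of_le (i : ℕ) (Finset.mem_filter.2 i.2) le_rfl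
        · refine iSup₂_le fun p hp => ?_
          exact le_iSup (fun i : {p : ℕ // p ∈ (Nat.card G).primeFactors ∧ ¬ p ∣ Nat.card (G ⧸ Fit G)} =>
            Op (i : ℕ) G) ⟨p, Finset.mem_filter.1 hp⟩
      have hpr' : ∀ p ∈ (Nat.card G).primeFactors.filter (fun p => ¬ p ∣ Nat.card (G ⧸ Fit G)), p.Prime :=
        fun p hp => Nat.prime_of_mem_primeFactors (Finset.mem_filter.1 hp).1
      rw [h3]
      refine csup_cop _ (fun p => Op p G) hpr' (fun p _ => op_pgr p) ?_ r ?_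
      · intro p hp p' hp' hne x hx y hy
        exact op_com p p' (hpr' p hp) (hpr' p' hp') hne x y hx hy
      · intro p hp hd
        have h4 := (Nat.prime_dvd_prime_iff_eq (hpr' p hp) hr).1 hd
        exact (Finset.mem_filter.1 hp).2 (by rw [h4]; exact hτ)
    have hF'c : (Nat.card F').Coprime (Nat.card N) := by
      have h3 : F' = ⨆ p ∈ (Nat.card G).primeFactors.filter (fun p => p ∣ Nat.card (G ⧸ Fit G)), Op p G := by
        rw [hF'def]
        apply le_antisymm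
        · exact iSup_le fun i => le_iSup₂_of_le (i : ℕ) (Finset.mem_filter.2 i.2) le_rfl
        · refine iSup₂_le fun p hp => ?_
          exact le_iSup (fun i : {p : ℕ // p ∈ (Nat.card G).primeFactors ∧ p ∣ Nat.card (G ⧸ Fit G)} =>
            Op (i : ℕ) G) ⟨p, Finset.mem_filter.1 hp⟩
      have hpr' : ∀ p ∈ (Nat.card G).primeFactors.filter (fun p => p ∣ Nat.card (G ⧸ Fit G)), p.Prime :=
        fun p hp => Nat.prime_of_mem_primeFactors (Finset.mem_filter.1 hp).1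
      rw [h3]
      refine csup_cop _ (fun p => Op p G) hpr' (fun p _ => op_pgr p) ?_ _ ?_
      · intro p hp p' hp' hne x hx y hy
        exact op_com p p' (hpr' p hp) (hpr' p' hp') hne x y hx hy
      · intro p hp hd
        have h4 := hNc p (hpr' p hp) (Finset.mem_filter.1 hp).2
        exact (hpr' p hp).one_lt.ne' (Nat.eq_one_of_dvd_coprimes h4 hd dvd_rfl)
    exact (Subgroup.disjoint_of_coprime_natCard hF'c.symm).eq_bot
  have hfx : ∀ i : {p : ℕ // p ∈ (Nat.card G).primeFactors},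
      Fit G ≤ fxG (Op (i : ℕ) G) (op_nor _) (s i) := fun i => fit_fx _ (hpr i) _ (hs i)
  -- the stabilizer
  obtain ⟨I, hI⟩ : ∃ I : Subgroup G, ∀ g, g ∈ I ↔
      ∀ i : {p : ℕ // p ∈ (Nat.card G).primeFactors}, g ∈ fxG (Op (i : ℕ) G) (op_nor _) (s i) :=
    ⟨⨅ i : {p : ℕ // p ∈ (Nat.card G).primeFactors}, fxG (Op (i : ℕ) G) (op_nor _) (s i),
      fun g => Subgroup.mem_iInf⟩
  have hFI : Fit G ≤ I := fun g hg => (hI g).2 fun i => hfx i hg
  have hIθ : I ≤ fxG N hN θ := fun g hg => (h2 g).2 fun i => (hI g).1 hg ⟨(i : ℕ), i.2.1⟩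
  obtain ⟨η₁, hη₁, hη₁θ, hη₁F⟩ := zf_eta N F' I hN hF'n hcop hbot θ hθ (hNF.trans hFI) hIθ
  -- the linear characters
  choose f hf hfL using fun i : {p : ℕ // p ∈ (Nat.card G).primeFactors ∧ p ∣ Nat.card (G ⧸ Fit G)} =>
    hlin ⟨(i : ℕ), i.2.1⟩ i.2.2
  have hlam : ∀ i : {p : ℕ // p ∈ (Nat.card G).primeFactors ∧ p ∣ Nat.card (G ⧸ Fit G)}, ∃ Λ : I →* ℂˣ,
      (∀ (x : Op (i : ℕ) G) (t : I), (t : G) = x → Λ t = f i x) ∧
      ∀ j : ℕ, j.Prime → j ≠ i → ∀ x ∈ Op j G, ∀ t : I, (t : G) = x → Λ t = 1 := by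
    intro i
    refine zf_lam L hL (i : ℕ) (Nat.prime_of_mem_primeFactors i.2.1) (f i) (hfL i) I hFI ?_
    intro g hg x y hxy
    have h3 := (mem_fxG _ _ _ _).1 ((hI g).1 hg ⟨(i : ℕ), i.2.1⟩) x y hxy
    rw [hf i, hf i] at h3
    exact Units.ext h3
  choose Λ hΛ1 hΛ2 using hlam
  obtain ⟨M, hM⟩ : ∃ M : I →* ℂˣ, ∀ t, M t = ∏ i, Λ i t :=
    ⟨∏ i, Λ i, fun t => by rw [MonoidHom.finsetProd_apply]⟩
  -- the values of `M`
  have hM1 : ∀ j : ℕ, j.Prime → (∀ i : {p : ℕ // p ∈ (Nat.card G).primeFactors ∧ p ∣ Nat.card (G ⧸ Fit G)},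
      j ≠ i) → ∀ x ∈ Op j G, ∀ t : I, (t : G) = x → M t = 1 := by
    intro j hj hji x hx t htx
    rw [hM]
    exact Finset.prod_eq_one fun i _ => hΛ2 i j hj (hji i) x hx t htx
  have hM2 : ∀ (i : {p : ℕ // p ∈ (Nat.card G).primeFactors ∧ p ∣ Nat.card (G ⧸ Fit G)}) (x : Op (i : ℕ) G)
      (t : I), (t : G) = x → M t = f i x := by
    intro i x t htx
    rw [hM, Finset.prod_eq_single i]
    · exact hΛ1 i x t htx
    · intro i' _ hi'
      refine hΛ2 i' (i : ℕ) (Nat.prime_of_mem_primeFactors i.2.1) ?_ x x.2 t htx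
      intro h
      exact hi' (Subtype.ext h.symm)
    · intro h
      exact absurd (Finset.mem_univ i) h
  have hMN : ∀ t : I, (t : G) ∈ N → M t = 1 := by
    have h3 : N ≤ M.ker.map I.subtype := by
      rw [hNdef]
      refine iSup_le fun i x hx => ?_
      have hxI : x ∈ I := hFI (op_fit _ (Nat.prime_of_mem_primeFactors i.2.1) hx)
      refine ⟨⟨x, hxI⟩, ?_, rfl⟩
      exact hM1 (i : ℕ) (Nat.prime_of_mem_primeFactors i.2.1) (fun i' h => i.2.2 (by rw [h]; exact i'.2.2))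
        x hx _ rfl
    intro t ht
    obtain ⟨t', ht', he⟩ := h3 ht
    have h4 : t' = t := Subtype.ext he
    rw [← h4]
    exact ht'
  obtain ⟨η, hηdef⟩ : ∃ η : I → ℂ, ∀ t, η t = ((M t : ℂˣ) : ℂ) * η₁ t := ⟨_, fun _ => rfl⟩
  have hη : η ∈ Irr I := by
    have h3 := LinB_irr M η₁ hη₁
    have h4 : η = fun t => ((M t : ℂˣ) : ℂ) * η₁ t := funext hηdef
    rw [h4]
    exact h3
  have hηN : ∀ (x : N) (t : I), (t : G) = x → η t = θ x := by
    intro x t htx
    rw [hηdef, hMN t (by rw [htx]; exact x.2), Units.val_one, one_mul]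
    exact hη₁θ x t htx
  have hη₁1 : η₁ 1 = θ 1 := hη₁θ 1 1 rfl
  have hηi : ∀ (i : {p : ℕ // p ∈ (Nat.card G).primeFactors ∧ p ∣ Nat.card (G ⧸ Fit G)}) (x : Op (i : ℕ) G)
      (t : I), (t : G) = x → η t = s ⟨(i : ℕ), i.2.1⟩ x * θ 1 := by
    intro i x t htx
    have h3 : (t : G) ∈ F' := by
      rw [htx, hF'def]
      exact le_iSup (fun i : {p : ℕ // p ∈ (Nat.card G).primeFactors ∧ p ∣ Nat.card (G ⧸ Fit G)} =>
        Op (i : ℕ) G) i x.2
    rw [hηdef, hM2 i x t htx, hη₁F t h3, hη₁1]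
    congr 1
    exact (hf i x).symm
  -- the restriction to the Fitting subgroup
  have h3 := Fintype.ofFinite N
  have h4 := Fintype.ofFinite I
  have h5 := Fintype.ofFinite (Fit G)
  obtain ⟨κ, hκ⟩ : ∃ κ : N →* Fit G, ∀ x, (κ x : G) = x := ⟨Subgroup.inclusion hNF, fun _ => rfl⟩
  obtain ⟨ι, hι⟩ : ∃ ι : Fit G →* I, ∀ x, (ι x : G) = x := ⟨Subgroup.inclusion hFI, fun _ => rfl⟩
  have hκn : Nrm κ := by
    refine ⟨fun a b hab => ?_, fun g x => ⟨⟨(g : G) * x * (g : G)⁻¹, hN.conj_mem x x.2 g⟩, ?_⟩⟩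
    · have h6 := congrArg (fun y : Fit G => (y : G)) hab
      simp only [hκ] at h6
      exact Subtype.ext h6
    · apply Subtype.ext
      rw [hκ]
      show _ = (g : G) * (κ x : G) * (g : G)⁻¹
      rw [hκ]
  have hιn : Nrm ι := by
    refine ⟨fun a b hab => ?_,
      fun g x => ⟨⟨(g : G) * x * (g : G)⁻¹, (fit_nor (G := G)).conj_mem x x.2 g⟩, ?_⟩⟩
    · have h6 := congrArg (fun y : I => (y : G)) hab
      simp only [hι] at h6
      exact Subtype.ext h6
    · apply Subtype.ext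
      rw [hι]
      show _ = (g : G) * (ι x : G) * (g : G)⁻¹
      rw [hι]
  obtain ⟨θF, hθFdef⟩ : ∃ θF : Fit G → ℂ, ∀ x, θF x = η (ι x) := ⟨_, fun _ => rfl⟩
  have hθF : θF ∈ Irr (Fit G) := by
    have h6 := zf_res hκn hιn η hη θ hθ fun x => hηN x _ (by rw [hι, hκ])
    have h7 : θF = fun t => η (ι t) := funext hθFdef
    rw [h7]
    exact h6
  have hθ0 : θ 1 ≠ 0 := by
    obtain ⟨n, hn, hn1⟩ := zf_deg hθ
    rw [hn1]
    exact_mod_cast hn.ne'
  -- the stabilizer of `θF` is `I`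
  have hII : I = fxG (Fit G) fit_nor θF := by
    ext g
    rw [mem_fxG]
    constructor
    · intro hg x y hxy
      rw [hθFdef, hθFdef]
      refine (Col_class hη (isConj_iff.2 ⟨⟨g, hg⟩, ?_⟩)).symm
      apply Subtype.ext
      show g * (ι x : G) * g⁻¹ = (ι y : G)
      rw [hι, hι, hxy]
    · intro hg
      rw [hI]
      intro i
      rcases Classical.em (¬ (i : ℕ) ∣ Nat.card (G ⧸ Fit G)) with hτ | hτ'
      · have h6 : g ∈ fxG N hN θ := by
          rw [mem_fxG]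
          intro x y hxy
          have h7 := hg (κ x) (κ y) (by rw [hκ, hκ, hxy])
          have h8 : η (ι (κ x)) = θ x := hηN x _ (by rw [hι, hκ])
          have h9 : η (ι (κ y)) = θ y := hηN y _ (by rw [hι, hκ])
          rw [hθFdef, hθFdef, h8, h9] at h7
          exact h7
        exact (h2 g).1 h6 ⟨(i : ℕ), i.2, hτ⟩
      · have hτ := not_not.1 hτ'
        rw [mem_fxG]
        intro x y hxy
        have hOF : ∀ x : Op (i : ℕ) G, (x : G) ∈ Fit G := fun x => op_fit _ (hpr i) x.2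
        have h7 := hg ⟨x, hOF x⟩ ⟨y, hOF y⟩ hxy
        have h8 : η (ι ⟨x, hOF x⟩) = s i x * θ 1 :=
          hηi ⟨(i : ℕ), i.2, hτ⟩ x _ (hι ⟨x, hOF x⟩)
        have h9 : η (ι ⟨y, hOF y⟩) = s i y * θ 1 :=
          hηi ⟨(i : ℕ), i.2, hτ⟩ y _ (hι ⟨y, hOF y⟩)
        rw [hθFdef, hθFdef, h8, h9] at h7
        exact mul_right_cancel₀ hθ0 h7
  -- the characters of `S`
  have hIS : ∀ g : G, g ∈ I ↔ (g : G ⧸ Fit G) ∈ S := by
    intro g
    rw [hS, hI]
    constructor
    · intro hg i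
      exact (mem_fxH (Fit G) _ _ _ (hfx i) g).mpr (hg i)
    · intro hg i
      exact (mem_fxH (Fit G) _ _ _ (hfx i) g).mp (hg i)
  obtain ⟨π, hπ⟩ : ∃ π : I →* S, ∀ t : I, ((π t : S) : G ⧸ Fit G) = ((t : G) : G ⧸ Fit G) :=
    ⟨{ toFun := fun t => ⟨((t : G) : G ⧸ Fit G), (hIS t).1 t.2⟩
       map_one' := rfl
       map_mul' := fun _ _ => rfl }, fun _ => rfl⟩
  have hπs : Function.Surjective π := by
    intro z
    obtain ⟨g, hg⟩ := QuotientGroup.mk_surjective (z : G ⧸ Fit G)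
    refine ⟨⟨g, (hIS g).2 (by rw [hg]; exact z.2)⟩, ?_⟩
    apply Subtype.ext
    rw [hπ]
    exact hg
  have hφπ : (fun t => φ (π t)) ∈ Irr I := Inf_irr π hπs φ hφ
  obtain ⟨a, -, ha⟩ := zf_deg hθF
  obtain ⟨χ, hχ, hd⟩ := cg (Fit G) fit_nor θF hθF I hII hFI η hη (by
    intro x t htx
    rw [hθFdef]
    congr 1
    apply Subtype.ext
    rw [hι, htx]) (fun t => φ (π t)) hφπ (by
    intro t ht
    show φ (π t) = φ (π 1)
    congr 1
    apply Subtype.ext
    rw [hπ, hπ]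
    show ((t : G) : G ⧸ Fit G) = ((1 : G) : G ⧸ Fit G)
    rw [(QuotientGroup.eq_one_iff (t : G)).2 ht]
    rfl) a b ha (by
    show φ (π 1) = b
    rw [map_one, hb])
  have hidx : I.index = S.index := by
    have h6 : I = S.comap (QuotientGroup.mk' (Fit G)) := by
      ext g
      exact hIS g
    rw [h6]
    exact Subgroup.index_comap_of_surjective S (QuotientGroup.mk'_surjective (Fit G))
  refine ⟨χ, hχ, _, hd, ?_, ?_⟩
  · rw [hidx]
    exact ⟨a, by ring⟩
  · intro i e he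
    have haθ : (a : ℂ) = θ 1 := by
      rw [← ha, hθFdef]
      exact hηN 1 _ (by rw [hι]; rfl)
    rcases Classical.em (¬ (i : ℕ) ∣ Nat.card (G ⧸ Fit G)) with hτ | hτ'
    · obtain ⟨k, hk⟩ := h1 ⟨(i : ℕ), i.2, hτ⟩
      rw [← haθ] at hk
      have h6 : (a : ℂ) = (k : ℂ) * (e : ℂ) := by
        rw [hk]
        congr 1
      have h7 : a = k * e := by exact_mod_cast h6
      exact ⟨I.index * (k * b), by rw [h7]; ring⟩
    · have hτ := not_not.1 hτ'
      have h6 : s i 1 = 1 := by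
        have h7 := hf ⟨(i : ℕ), i.2, hτ⟩ 1
        rw [map_one, Units.val_one] at h7
        exact h7
      rw [h6] at he
      have h7 : e = 1 := by exact_mod_cast he.symm
      rw [h7]
      exact one_dvd _

/-- (zf, size 5) HIGH CHARACTERS WITH DEGREES. PROOF. `I` = the preimage of `S` in `G` = the intersection of the `fxG (Op i G) _ (Θ i)` (`mem_fxH`, `fit_fx`). `C` = the `i` which do not divide `(Fit G).index`, `N_C = ⨆ i ∈ C, Op i G` (its order is prime to its index: as `tau_cop`), `θ_C` on `N_C` from `prodchar`, all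
elements of `I` fix `θ_C`. `N_D = ⨆ i ∉ C, Op i G`, `N_C ⊓ N_D = ⊥`, `N_C ⊔ N_D = Fit G`. `cext` for `N_C → I ⧸ N_D` and `Inf_irr` give `η_C ∈ Irr I`, trivial on `N_D`, which extends `θ_C`. For `i ∉ C`: `L i` from `gz` for `N = Op i G` (`gc_comm_le`, `fr_nor`); the `Op j G`, `j ≠ i`, are in `L i`
(the index of `L i` divides `card (Op i G)`); `lext` gives `F i : I →* ℂˣ` which extends `f i` and is trivial on the `Op j G`, `j ≠ i`. `η = (∏ i ∉ C, F i) * η_C ∈ Irr I` (`LinB_irr`). `θ` = the restriction of `η` to `Fit G`: irreducible, because its restriction to `N_C` is `θ_C`. `fxG (Fit G) _ θ = I`: an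
element which fixes `θ` fixes its restrictions to `N_C` and to the `Op i G`, `i ∉ C`, which are `θ_C` and multiples of `Θ i`; `η` is a class function on `I`. Then `cg` for `N = Fit G`, `θ`, `I`, `η` and the inflation of `φ`; `I.index = S.index`. -/
theorem highg (Θ : ∀ i : {p : ℕ // p ∈ (Nat.card G).primeFactors}, Op (i : ℕ) G → ℂ)
    (hΘ : ∀ i : {p : ℕ // p ∈ (Nat.card G).primeFactors}, Θ i ∈ Irr (Op (i : ℕ) G))
    (hf : ∀ i : {p : ℕ // p ∈ (Nat.card G).primeFactors}, (i : ℕ) ∣ Nat.card (G ⧸ Fit G) →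
      ∃ f : Op (i : ℕ) G →* ℂˣ, (∀ x, Θ i x = ((f x : ℂˣ) : ℂ)) ∧
        ∀ x : Op (i : ℕ) G, (x : G) ∈ frattini G → f x = 1)
    (S : Subgroup (G ⧸ Fit G))
    (hS : ∀ z, z ∈ S ↔ ∀ i : {p : ℕ // p ∈ (Nat.card G).primeFactors},
      z ∈ fxH (Fit G) (Op (i : ℕ) G) (op_nor _) (Θ i))
    (φ : S → ℂ) (hφ : φ ∈ Irr S) (b : ℕ) (hb : φ 1 = b) :
    ∃ χ ∈ Irr G, ∃ d : ℕ, χ 1 = d ∧ S.index * b ∣ d ∧
      ∀ (i : {p : ℕ // p ∈ (Nat.card G).primeFactors}) (e : ℕ), Θ i 1 = e → e ∣ d := by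
  obtain ⟨L, hL1, hL2⟩ := gz (Fit G) fit_nor fun x hx y hy => fit_ab x y hx hy
  refine zf_L L hL1 Θ hΘ (fun i hi => ?_) S hS φ hφ b hb
  obtain ⟨f, hf1, hf2⟩ := hf i hi
  refine ⟨f, hf1, fun x hx => hf2 x ?_⟩
  have h1 : (x : G) ∈ Fit G ⊓ L :=
    ⟨op_fit _ (Nat.prime_of_mem_primeFactors i.2) x.2, hx⟩
  rw [hL2] at h1
  exact h1.2
-- END zf

-- BEGIN zg
private theorem zg_sum (p : ℕ) [Fact p.Prime] (E : PD G p) (ζ : Multiplicative (ZMod p) →* ℂˣ)
    (T : ∀ i, (E.F i).X) : ∃ f : Op p G →* ℂˣ, ∀ x,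
      f x = ζ (Multiplicative.ofAdd ((∑ i, E.em i (T i)) (E.q x))) := by
  have hq1 : E.q 1 = 0 := by
    have h1 := E.q_mul 1 1
    rw [mul_one] at h1
    simpa using h1
  exact ⟨{ toFun := fun x => ζ (Multiplicative.ofAdd ((∑ i, E.em i (T i)) (E.q x)))
           map_one' := by
             rw [hq1, map_zero, ofAdd_zero, map_one]
           map_mul' := by
             intro x y
             rw [E.q_mul, map_add, ofAdd_add, map_mul] }, fun _ => rfl⟩

private theorem zg_one (P : Type) [Group P] : (fun _ : P => (1 : ℂ)) ∈ Irr P := by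
  refine ⟨1, (1 : P →* ((Fin 1 → ℂ) →ₗ[ℂ] (Fin 1 → ℂ))), ?_, ?_⟩
  · have h1 : IsSimpleOrder (Submodule ℂ (Fin 1 → ℂ)) := by
      have h2 : IsSimpleModule ℂ (Fin 1 → ℂ) := by
        rw [isSimpleModule_iff_finrank_eq_one]
        simp
      exact (isSimpleModule_iff ℂ (Fin 1 → ℂ)).1 h2
    refine { exists_pair_ne := ⟨⊥, ⊤, fun h => ?_⟩, eq_bot_or_eq_top := fun S => ?_ }
    · have h2 := congrArg Subrepresentation.toSubmodule h
      exact bot_ne_top h2
    · rcases h1.eq_bot_or_eq_top S.toSubmodule with h2 | h2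
      · left
        exact Subrepresentation.toSubmodule_injective h2
      · right
        exact Subrepresentation.toSubmodule_injective h2
  · funext g
    show LinearMap.trace ℂ (Fin 1 → ℂ) (1 : (Fin 1 → ℂ) →ₗ[ℂ] (Fin 1 → ℂ)) = 1
    rw [LinearMap.trace_one]
    simp

/-- (zg, size 2) The same for the vectors of the modules. PROOF. `Θ' i` = `Θ i` if `i` does not divide `card (G ⧸ Fit G)`, otherwise the linear character of `∑ j, em j (T i j)` (`zt_ex`, `lin_fx`, `Ffr`); `highg`. -/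
theorem highT (E : ∀ i : {p : ℕ // p ∈ (Nat.card G).primeFactors}, PD G i)
    (hE : ∀ i, Ffr (E i)) (T : ∀ i j, ((E i).F j).X)
    (Θ : ∀ i : {p : ℕ // p ∈ (Nat.card G).primeFactors}, Op (i : ℕ) G → ℂ)
    (hΘ : ∀ i : {p : ℕ // p ∈ (Nat.card G).primeFactors}, Θ i ∈ Irr (Op (i : ℕ) G))
    (S : Subgroup (G ⧸ Fit G))
    (hS : ∀ z, z ∈ S ↔ ∀ i : {p : ℕ // p ∈ (Nat.card G).primeFactors},
      ((i : ℕ) ∣ Nat.card (G ⧸ Fit G) → ∀ j, ((E i).F j).ρ z (T i j) = T i j) ∧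
      (¬ (i : ℕ) ∣ Nat.card (G ⧸ Fit G) → z ∈ fxH (Fit G) (Op (i : ℕ) G) (op_nor _) (Θ i)))
    (φ : S → ℂ) (hφ : φ ∈ Irr S) (b : ℕ) (hb : φ 1 = b) :
    ∃ χ ∈ Irr G, ∃ d : ℕ, χ 1 = d ∧ S.index * b ∣ d ∧
      ∀ i : {p : ℕ // p ∈ (Nat.card G).primeFactors}, ¬ (i : ℕ) ∣ Nat.card (G ⧸ Fit G) →
        ∀ e : ℕ, Θ i 1 = e → e ∣ d := by
  have hfact : ∀ i : {p : ℕ // p ∈ (Nat.card G).primeFactors}, Fact (i : ℕ).Prime := fun i =>
    ⟨Nat.prime_of_mem_primeFactors i.2⟩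
  have hζ : ∀ i : {p : ℕ // p ∈ (Nat.card G).primeFactors},
      ∃ ζ : Multiplicative (ZMod (i : ℕ)) →* ℂˣ, Function.Injective ζ := fun i => zt_ex (i : ℕ)
  choose ζ hζ using hζ
  have hf : ∀ i : {p : ℕ // p ∈ (Nat.card G).primeFactors}, ∃ f : Op (i : ℕ) G →* ℂˣ, ∀ x,
      f x = ζ i (Multiplicative.ofAdd ((∑ j, (E i).em j (T i j)) ((E i).q x))) := fun i =>
    zg_sum (i : ℕ) (E i) (ζ i) (T i)
  choose f hf using hf
  obtain ⟨Θ', hΘ'⟩ : ∃ Θ' : ∀ i : {p : ℕ // p ∈ (Nat.card G).primeFactors}, Op (i : ℕ) G → ℂ,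
      ∀ i, Θ' i = if (i : ℕ) ∣ Nat.card (G ⧸ Fit G) then (fun x => ((f i x : ℂˣ) : ℂ)) else Θ i :=
    ⟨_, fun _ => rfl⟩
  obtain ⟨χ, hχ, d, h1, h2, h3⟩ := highg Θ' (fun i => by
      rw [hΘ']
      split_ifs
      · have h1 := LinB_irr (f i) _ (zg_one (Op (i : ℕ) G))
        simpa using h1
      · exact hΘ i) (fun i hi => by
      refine ⟨f i, fun x => ?_, fun x hx => ?_⟩
      · rw [hΘ', if_pos hi]
      · rw [hf, LinearMap.sum_apply, Finset.sum_eq_zero (fun j _ => hE i hi x hx j (T i j)), ofAdd_zero, map_one])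
      S (fun z => by
      rw [hS]
      refine forall_congr' fun i => ?_
      by_cases hi : (i : ℕ) ∣ Nat.card (G ⧸ Fit G)
      · rw [hΘ', if_pos hi]
        have h1 : (fun x => ((f i x : ℂˣ) : ℂ)) = fun x =>
            ((ζ i (Multiplicative.ofAdd ((∑ j, (E i).em j (T i j)) ((E i).q x))) : ℂˣ) : ℂ) := by
          funext x
          rw [hf]
        rw [h1, lin_fx (i : ℕ) (E i) (ζ i) (hζ i) (T i) z]
        exact ⟨fun h => h.1 hi, fun h => ⟨fun _ => h, fun h' => absurd hi h'⟩⟩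
      · rw [hΘ', if_neg hi]
        exact ⟨fun h => h.2 hi, fun h => ⟨fun h' => absurd h' hi, fun _ => h⟩⟩) φ hφ b hb
  refine ⟨χ, hχ, d, h1, h2, fun i hi e he => h3 i e ?_⟩
  rw [hΘ', if_neg hi]
  exact he
-- END zg

end

end Pool.Agent.R12
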