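import Pool.Agent.Nas.Ha

/-! Definitions for the local data of a prime whose Sylow subgroup is not abelian. -/

set_option autoImplicit false

namespace Pool.Agent.R12

open Pool.Agent.Nan Pool.Agent.Nas
open Pool.Agent.KB

section
variable {p : ℕ} {H : Type} [Group H]

/-- The generic vectors `v i j`, `j ∈ Δ i`. -/
structure Cho (A : Subgroup H) (B : Set ℕ) {n : ℕ} (F : Fin n → Fam p H)
    (Δ : ∀ i, Finset (F i).J) (v : ∀ i, (F i).J → (F i).X) : Prop where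
  ne : ∀ i, (Δ i).Nonempty
  two : ∀ i, Nontrivial (F i).J → 2 ≤ (Δ i).card
  vW : ∀ i j, v i j ∈ (F i).W j
  v0 : ∀ i j, v i j ≠ 0
  full : ∀ i, Subsingleton (F i).J → ∀ r ∈ B, ∀ (R : Sylow r H) (j : (F i).J),
    (∀ x ∈ (R : Subgroup H), (F i).ρ x (v i j) = v i j) →
      (∀ R' : Sylow r H, ∀ x ∈ (R' : Subgroup H), ∀ y, (F i).ρ x y = y) ∨
        Full (F i).ρ (cm A r)

/-- The high characters `Th k T` of one prime: `T i` is a vector of the module `F i`, `k` is the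
conjugating element. `h` fixes `Th k T` iff it fixes the `T i`, `i ∉ I`, and `k⁻¹ h k ∈ S0`. The
elements of `S0` fix a nonzero vector of `F i` for `i ∈ I`. -/
structure Hi {P : Type} [Group P] (fx : (P → ℂ) → Subgroup H) {n : ℕ} (F : Fin n → Fam p H)
    (Th : H → (∀ i, (F i).X) → P → ℂ) (S0 : Subgroup H) (I : Set (Fin n)) : Prop where
  irr : ∀ k T, Th k T ∈ Irr P
  fix : ∀ k T h, h ∈ fx (Th k T) ↔
    k⁻¹ * h * k ∈ S0 ∧ ∀ i, i ∉ I → (F i).ρ h (T i) = T i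
  one : ∀ i ∈ I, Subsingleton (F i).J ∧ Abq (F i).ρ (F i).W (F i).UU
  zf : ∀ i ∈ I, ∃ z : (F i).X, z ≠ 0 ∧ ∀ h ∈ S0, (F i).ρ h z = z

/-- The low characters `s l`, `l ∈ E`, `l ≠ 0`, of one prime. -/
structure LoD {P : Type} [Group P] (fx : (P → ℂ) → Subgroup H) (A : Subgroup H) (B : Set ℕ)
    {n : ℕ} (F : Fin n → Fam p H) : Type 1 where
  Y : Type
  [iA : AddCommGroup Y]
  [iM : Module (ZMod p) Y]
  [iF : Finite Y]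
  ρ : Representation (ZMod p) H Y
  E : Submodule (ZMod p) Y
  s : Y → P → ℂ
  i₀ : Fin n
  i₁ : Fin n
  j₀ : (F i₀).J
  j₁ : (F i₁).J
  ne : E ≠ ⊥
  bl : ∀ h, ∀ l ∈ E, l ≠ 0 → ρ h l ∈ E → E.map (ρ h) = E
  bA : ∀ a ∈ A, E.map (ρ a) = E
  bC : ∀ h, (∀ a ∈ A, h * a = a * h) → E.map (ρ h) = E
  irr : ∀ l ∈ E, l ≠ 0 → s l ∈ Irr P
  deg : ∀ l ∈ E, l ≠ 0 → ∃ d : ℕ, s l 1 = d ∧ p ∣ d
  fix : ∀ l ∈ E, l ≠ 0 → ∀ h ∈ fx (s l), ρ h l = l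
  tw : ∀ l ∈ E, l ≠ 0 → ∀ x ∈ fx (s l), (∀ e ∈ E, ρ x e = e) →
    ∀ k, E.map (ρ k) = E → k * x * k⁻¹ ∈ fx (s l)
  th : ∀ l ∈ E, l ≠ 0 → ∀ r : ℕ, r.Prime → 3 ≤ r → ∀ R : Sylow r H,
    (R : Subgroup H) ≤ fx (s l) → ∀ x ∈ (R : Subgroup H),
      ∀ k, ρ k l = l → k * x * k⁻¹ ∈ fx (s l)
  b1 : ∀ (Δ : ∀ i, Finset (F i).J) (v : ∀ i, (F i).J → (F i).X), Cho A B F Δ v →
    j₀ ∈ Δ i₀ → j₁ ∈ Δ i₁ → ∀ l ∈ E, l ≠ 0 → ∀ a ∈ A,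
      (∀ i, ∀ j ∈ Δ i, (F i).ρ a (v i j) = v i j) → a ∈ fx (s l)
  c : ∀ (Δ : ∀ i, Finset (F i).J) (v : ∀ i, (F i).J → (F i).X), Cho A B F Δ v →
    j₀ ∈ Δ i₀ → j₁ ∈ Δ i₁ → ∀ l ∈ E, l ≠ 0 → ∀ r ∈ B,
      (∃ c ∈ cm A r, ∃ i x, (F i).ρ c x ≠ x) →
      ¬ ((∃ R : Sylow r H, (R : Subgroup H) ≤ fx (s l)) ∧
        (∀ i, ∀ j ∈ Δ i, ∃ R : Sylow r H, ∀ x ∈ (R : Subgroup H),
          (F i).ρ x (v i j) = v i j) ∧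
        (∀ c ∈ cm A r, c ∈ fx (s l) → ∀ i, ∀ j ∈ Δ i, (F i).ρ c (v i j) = v i j) ∧
        ∀ x : ∀ i, (F i).J → H, (∀ i j, x i j ∈ cm A r) →
          ∃ y ∈ cm A r, ∀ i, ∀ j ∈ Δ i, (F i).ρ ((x i j)⁻¹ * y) (v i j) = v i j)

attribute [instance] LoD.iA LoD.iM LoD.iF

end

end Pool.Agent.R12
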