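import Pool.Agent.Nas.Ha
import Pool.Agent.Nas.St

/-! The special vector of a one-block semilinear module, threshold `3`, groups of any order. -/

set_option autoImplicit false

namespace Pool.Agent.R12

open Pool.Agent.Nan Pool.Agent.Nas

section
variable {p : ℕ} [Fact p.Prime] {H : Type} [Group H] [Finite H]

private theorem sp3_num (w : ℕ) (hw : 0 < w) : (2 * w) ^ 15 < 3 ^ (10 * w) := by
  induction w, hw using Nat.le_induction with
  | base => norm_num
  | succ w hw ih =>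
    have h1 : (2 * (w + 1)) ^ 15 ≤ 2 ^ 15 * (2 * w) ^ 15 := by
      rw [← mul_pow]
      exact Nat.pow_le_pow_left (by omega) 15
    have h2 : 3 ^ (10 * (w + 1)) = 3 ^ 10 * 3 ^ (10 * w) := by
      rw [← pow_add]
      congr 1
      ring
    have h3 : 2 ^ 15 * (2 * w) ^ 15 < 2 ^ 15 * 3 ^ (10 * w) :=
      Nat.mul_lt_mul_of_pos_left ih (by positivity)
    have h4 : (2 : ℕ) ^ 15 * 3 ^ (10 * w) ≤ 3 ^ 10 * 3 ^ (10 * w) :=
      Nat.mul_le_mul_right _ (show (2 : ℕ) ^ 15 ≤ 3 ^ 10 by norm_num)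
    rw [h2]
    exact lt_of_le_of_lt h1 (lt_of_lt_of_le h3 h4)

private theorem sp3_cnt {w z t x a : ℕ} (hz : 2 ≤ z) (ht : 0 < t) (h1 : z ^ 3 ≤ x)
    (h2 : t ^ 5 ≤ x) (h3 : 3 ^ a ≤ x) (h4 : 5 * w ≤ a) :
    2 * (z + w * ((z - 1) * (z * t))) < x ∨ w = 0 ∧ 2 * z < x := by
  rcases Nat.eq_zero_or_pos w with h0 | h0
  · right
    refine ⟨h0, ?_⟩
    have h5 : 2 * z < z ^ 3 := by
      have h6 : z ^ 3 = z * (z * z) := by ring
      have h7 : 2 * 2 ≤ z * z := Nat.mul_le_mul hz hz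
      have h8 : z * (2 * 2) ≤ z * (z * z) := Nat.mul_le_mul_left _ h7
      omega
    omega
  · left
    have h5 : z + w * ((z - 1) * (z * t)) ≤ w * (z * (z * t)) := by
      obtain ⟨y, rfl⟩ : ∃ y, z = y + 1 := ⟨z - 1, by omega⟩
      have h6 : y + 1 ≤ w * ((y + 1) * t) := by
        calc y + 1 = 1 * ((y + 1) * 1) := by ring
          _ ≤ w * ((y + 1) * t) := Nat.mul_le_mul h0 (Nat.mul_le_mul_left _ ht)
      have h7 : w * ((y + 1) * ((y + 1) * t)) =
          w * ((y + 1) * t) + w * (y * ((y + 1) * t)) := by ring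
      rw [h7, Nat.add_sub_cancel]
      exact Nat.add_le_add_right h6 _
    refine lt_of_le_of_lt (Nat.mul_le_mul_left 2 h5) ?_
    have hx : 0 < x := lt_of_lt_of_le (by positivity) h3
    have h8 : (2 * w) ^ 15 < x ^ 2 := by
      refine lt_of_lt_of_le (sp3_num w h0) ?_
      calc 3 ^ (10 * w) = (3 ^ (5 * w)) ^ 2 := by rw [← pow_mul]; congr 1; ring
        _ ≤ (3 ^ a) ^ 2 := Nat.pow_le_pow_left (Nat.pow_le_pow_right (by norm_num) h4) 2
        _ ≤ x ^ 2 := Nat.pow_le_pow_left h3 2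
    have h9 : (2 * (w * (z * (z * t)))) ^ 15 < x ^ 15 := by
      calc (2 * (w * (z * (z * t)))) ^ 15 = (2 * w) ^ 15 * ((z ^ 3) ^ 10 * (t ^ 5) ^ 3) := by ring
        _ ≤ (2 * w) ^ 15 * (x ^ 10 * x ^ 3) := by gcongr
        _ < x ^ 2 * (x ^ 10 * x ^ 3) := Nat.mul_lt_mul_of_pos_right h8 (by positivity)
        _ = x ^ 15 := by ring
    exact lt_of_pow_lt_pow_left₀ 15 (Nat.zero_le _) h9

/-- the numbers of the prime `3` -/
private theorem sp3_cnt3 {z t x b : ℕ} (hz : 5 ≤ z) (h1 : z ^ 3 ≤ x) (h2 : t ^ 3 ≤ x)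
    (h3 : b ≤ z * t ∨ 5 * b ≤ (z - 1) * (z * t)) : 2 * b ≤ x := by
  have hx : 125 ≤ x := le_trans (by
    calc 125 = 5 ^ 3 := by norm_num
      _ ≤ z ^ 3 := Nat.pow_le_pow_left hz 3) h1
  rcases h3 with h3 | h3
  · refine (Nat.mul_le_mul_left 2 h3).trans ?_
    have h4 : (2 * (z * t)) ^ 3 ≤ x ^ 3 := by
      calc (2 * (z * t)) ^ 3 = 8 * (z ^ 3 * t ^ 3) := by ring
        _ ≤ 8 * (x * x) := by gcongr
        _ ≤ x * (x * x) := Nat.mul_le_mul_right _ (by omega)
        _ = x ^ 3 := by ring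
    exact le_of_pow_le_pow_left₀ (by norm_num) (Nat.zero_le _) h4
  · have h4 : (z * (z * t)) ^ 3 ≤ x ^ 3 := by
      calc (z * (z * t)) ^ 3 = (z ^ 3) ^ 2 * t ^ 3 := by ring
        _ ≤ x ^ 2 * x := by gcongr
        _ = x ^ 3 := by ring
    have h5 : z * (z * t) ≤ x := le_of_pow_le_pow_left₀ (by norm_num) (Nat.zero_le _) h4
    have h6 : (z - 1) * (z * t) ≤ z * (z * t) := Nat.mul_le_mul_right _ (by omega)
    omega

/-- the preimage of a subspace -/
private theorem sp3_pre {Y : Type} [AddCommGroup Y] [Module (ZMod p) Y] [Finite Y]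
    (f : Y →ₗ[ZMod p] Y) (Z : Submodule (ZMod p) Y) :
    Nat.card {m : Y // f m ∈ Z} ≤ Nat.card Z * Nat.card {m : Y // f m = 0} := by
  classical
  -- choose preimages
  have hch : ∀ z : Z, (∃ m, f m = z) → ∃ m, f m = z := fun z h => h
  let g : Z → Y := fun z => if h : ∃ m, f m = z then h.choose else 0
  have hg : ∀ m : Y, ∀ hm : f m ∈ Z, f (g ⟨f m, hm⟩) = f m := by
    intro m hm
    have h : ∃ m', f m' = ((⟨f m, hm⟩ : Z) : Y) := ⟨m, rfl⟩
    show f (if h : ∃ m', f m' = ((⟨f m, hm⟩ : Z) : Y) then h.choose else 0) = f m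
    rw [dif_pos h]
    exact h.choose_spec
  rw [← Nat.card_prod]
  refine Nat.card_le_card_of_injective
    (fun m : {m : Y // f m ∈ Z} => (⟨⟨f m.1, m.2⟩, ⟨m.1 - g ⟨f m.1, m.2⟩, by
      rw [map_sub, hg, sub_self]⟩⟩ : Z × {m : Y // f m = 0})) ?_
  rintro ⟨m, hm⟩ ⟨m', hm'⟩ h
  rw [Prod.mk.injEq] at h
  obtain ⟨h1, h2⟩ := h
  have h3 := Subtype.ext_iff.1 h2
  simp only at h3
  rw [h1] at h3
  exact Subtype.ext (sub_left_injective h3)

private theorem sp3_pow {G : Type} [Group G] [Finite G] [IsCyclic G] {l : ℕ} (hl : l.Prime)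
    {x y : G} (hx : orderOf x = l) (hy : y ^ l = 1) : ∃ j : ℕ, x ^ j = y := by
  classical
  have := Fintype.ofFinite G
  have h1 : (Finset.univ.filter fun a : G => a ^ l = 1).card ≤ l :=
    IsCyclic.card_pow_eq_one_le hl.pos
  have h2 : Finset.image (fun j : ℕ => x ^ j) (Finset.range l) =
      (Finset.univ.filter fun a : G => a ^ l = 1) := by
    apply Finset.eq_of_subset_of_card_le
    · intro a ha
      rw [Finset.mem_image] at ha
      obtain ⟨j, -, rfl⟩ := ha
      rw [Finset.mem_filter]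
      refine ⟨Finset.mem_univ _, ?_⟩
      rw [← pow_mul, mul_comm, pow_mul, ← hx, pow_orderOf_eq_one, one_pow]
    · rw [Finset.card_image_of_injOn, Finset.card_range]
      · exact h1
      · intro i hi j hj hij
        rw [Finset.coe_range, Set.mem_Iio] at hi hj
        exact pow_injOn_Iio_orderOf (by rwa [Set.mem_Iio, hx]) (by rwa [Set.mem_Iio, hx]) hij
  have h3 : y ∈ Finset.image (fun j : ℕ => x ^ j) (Finset.range l) := by
    rw [h2, Finset.mem_filter]
    exact ⟨Finset.mem_univ _, hy⟩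
  rw [Finset.mem_image] at h3
  obtain ⟨j, -, hj⟩ := h3
  exact ⟨j, hj⟩

private theorem sp3_five (P : Finset ℕ) (i : ℕ) (hi : 0 < i)
    (hP : ∀ l ∈ P, l.Prime ∧ 5 ≤ l ∧ l ∣ i) : 5 * P.card ≤ i := by
  have h1 : ∏ l ∈ P, l ∣ i := by
    apply Finset.prod_primes_dvd
    · intro l hl
      exact (hP l hl).1.prime
    · intro l hl
      exact (hP l hl).2.2
  have h2 : 5 ^ P.card ≤ ∏ l ∈ P, l :=
    Finset.pow_card_le_prod (s := P) (f := fun l => l) (n := 5) fun l hl => (hP l hl).2.1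
  have h3 : ∀ t : ℕ, 5 * (t + 1) ≤ 5 ^ (t + 1) := by
    intro t
    induction t with
    | zero => norm_num
    | succ t ih =>
      rw [pow_succ]
      omega
  rcases Nat.eq_zero_or_pos P.card with h0 | h0
  · rw [h0]
    omega
  · obtain ⟨t, ht⟩ := Nat.exists_eq_succ_of_ne_zero h0.ne'
    have h4 := h3 t
    rw [ht] at h2 ⊢
    exact h4.trans (h2.trans (Nat.le_of_dvd hi h1))

private theorem sp3_cyc (K : Type) [Field K] [Finite K] [CharP K p] : IsCyclic (K ≃+* K) := by
  let _ := ZMod.algebra K p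
  let e : (K ≃ₐ[ZMod p] K) →* (K ≃+* K) :=
    { toFun := fun f => f.toRingEquiv
      map_one' := rfl
      map_mul' := fun f g => rfl }
  refine isCyclic_of_surjective e ?_
  intro f
  refine ⟨AlgEquiv.ofRingEquiv (f := f) fun r => ?_, ?_⟩
  · have h1 : (f : K →+* K).comp (algebraMap (ZMod p) K) = algebraMap (ZMod p) K :=
      Subsingleton.elim _ _
    exact congrArg (fun g : ZMod p →+* K => g r) h1
  · ext c
    rfl

/-- An element of order `3` which moves an element of `S ∩ U` fixes a nonzero vector of `Z`. -/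
private theorem sp3_fix {L Y : Type} [Group L] [Finite L] [AddCommGroup Y] [Module (ZMod p) Y]
    [Finite Y] [Nontrivial Y] {ρ : Representation (ZMod p) L Y} {U : Subgroup L} (h : QP ρ U) (S : Subgroup L)
    (Z : Submodule (ZMod p) Y) (hZ : Z ≠ ⊥) (hZS : ∀ x ∈ S, ∀ z ∈ Z, ρ x z ∈ Z) (x u : L)
    (hx : x ∈ S) (hx3 : x ^ 3 = 1) (hu : u ∈ S) (huU : u ∈ U) (hxu : x * u ≠ u * x) :
    ∃ z ∈ Z, z ≠ 0 ∧ ρ x z = z := by
  by_contra hno
  push Not at hno
  have hfix : ∀ z ∈ Z, ρ x z = z → z = 0 := by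
    intro z hz hxz
    by_contra h0
    exact hno z hz h0 hxz
  have hU : U.Normal := h.ab.nor
  have hmul : ∀ (a b : L) (y : Y), ρ a (ρ b y) = ρ (a * b) y := by
    intro a b y
    rw [map_mul, Module.End.mul_apply]
  obtain ⟨u1, hu1⟩ : ∃ u1, u1 = x * u * x⁻¹ := ⟨_, rfl⟩
  obtain ⟨u2, hu2⟩ : ∃ u2, u2 = x * u1 * x⁻¹ := ⟨_, rfl⟩
  have hu1U : u1 ∈ U := by rw [hu1]; exact hU.conj_mem u huU x
  have hu2U : u2 ∈ U := by rw [hu2]; exact hU.conj_mem u1 hu1U x
  have hxu1 : x * u = u1 * x := by rw [hu1]; group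
  have hxu2 : x * u1 = u2 * x := by rw [hu2]; group
  have hc01 : u * u1 = u1 * u := h.ab.com u huU u1 hu1U
  have hc02 : u * u2 = u2 * u := h.ab.com u huU u2 hu2U
  have hc12 : u1 * u2 = u2 * u1 := h.ab.com u1 hu1U u2 hu2U
  have hne1 : u1 ≠ u := by
    intro h1
    apply hxu
    rw [hxu1, h1]
  have hne2 : u1 ≠ u2 := by
    intro h1
    apply hne1
    have h2 : x * u = x * u1 := by rw [hxu1, hxu2, ← h1]
    exact (mul_left_cancel h2).symm
  -- differences of elements of `U` are injective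
  have hinj : ∀ a ∈ U, ∀ b ∈ U, a ≠ b → ∀ y : Y, ρ a y - ρ b y = 0 → y = 0 := by
    intro a ha b hb hab y hy
    by_contra h0
    apply hab
    have h1 : ρ (b⁻¹ * a) y = y := by
      rw [← hmul, sub_eq_zero.1 hy, hmul, inv_mul_cancel, map_one, Module.End.one_apply]
    have h2 := qp_fpf h U h.ab _ (mul_mem (inv_mem hb) ha) y h0 h1
    rw [inv_mul_eq_one] at h2
    exact h2.symm
  have hE1 : ∀ z ∈ Z, z + ρ x z + ρ (x * x) z = 0 := by
    intro z hz
    refine hfix _ (Z.add_mem (Z.add_mem hz (hZS x hx z hz)) (hZS _ (mul_mem hx hx) z hz)) ?_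
    rw [map_add, map_add, hmul, hmul]
    have h1 : x * (x * x) = 1 := by rw [← hx3, pow_succ, pow_succ, pow_one, mul_assoc]
    rw [h1, map_one, Module.End.one_apply]
    abel
  have hE4 : ∀ z ∈ Z, (ρ u z - ρ u2 z) + (ρ (u1 * x) z - ρ (u2 * x) z) = 0 := by
    intro z hz
    have h1 := hE1 (ρ u z) (hZS u hu z hz)
    rw [hmul, hmul] at h1
    have h2 : x * x * u = u2 * (x * x) := by
      rw [mul_assoc, hxu1, ← mul_assoc, hxu2, mul_assoc]
    rw [hxu1, h2] at h1
    have h3 := congrArg (ρ u2) (hE1 z hz)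
    rw [map_add, map_add, hmul, hmul, map_zero] at h3
    calc (ρ u z - ρ u2 z) + (ρ (u1 * x) z - ρ (u2 * x) z)
        = (ρ u z + ρ (u1 * x) z + ρ (u2 * (x * x)) z) -
          (ρ u2 z + ρ (u2 * x) z + ρ (u2 * (x * x)) z) := by abel
      _ = 0 := by rw [h1, h3, sub_self]
  obtain ⟨z, hz, hz0⟩ := Submodule.exists_mem_ne_zero_of_ne_bot hZ
  have h5 := hE4 (ρ u z) (hZS u hu z hz)
  have h6 := congrArg (ρ u) (hE4 z hz)
  rw [map_add, map_sub, map_sub, hmul, hmul, hmul, hmul, map_zero] at h6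
  rw [hmul, hmul, hmul, hmul] at h5
  have h7 : ρ (u1 * u1 * x) z - ρ (u2 * u1 * x) z - (ρ (u * u1 * x) z - ρ (u * u2 * x) z) = 0 := by
    have e1 : u1 * x * u = u1 * u1 * x := by rw [mul_assoc, hxu1, ← mul_assoc]
    have e2 : u2 * x * u = u2 * u1 * x := by rw [mul_assoc, hxu1, ← mul_assoc]
    rw [e1, e2, ← hc02] at h5
    rw [← mul_assoc, ← mul_assoc] at h6
    calc ρ (u1 * u1 * x) z - ρ (u2 * u1 * x) z - (ρ (u * u1 * x) z - ρ (u * u2 * x) z)
        = (ρ (u * u) z - ρ (u * u2) z + (ρ (u1 * u1 * x) z - ρ (u2 * u1 * x) z)) -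
          (ρ (u * u) z - ρ (u * u2) z + (ρ (u * u1 * x) z - ρ (u * u2 * x) z)) := by abel
      _ = 0 := by rw [h5, h6, sub_self]
  have h8 : ρ u1 (ρ u1 (ρ x z) - ρ u (ρ x z)) - ρ u2 (ρ u1 (ρ x z) - ρ u (ρ x z)) = 0 := by
    have e1 : ρ u1 (ρ u1 (ρ x z)) = ρ (u1 * u1 * x) z := by rw [hmul, hmul]
    have e2 : ρ u1 (ρ u (ρ x z)) = ρ (u * u1 * x) z := by rw [hmul, hmul, ← hc01]
    have e3 : ρ u2 (ρ u1 (ρ x z)) = ρ (u2 * u1 * x) z := by rw [hmul, hmul]
    have e4 : ρ u2 (ρ u (ρ x z)) = ρ (u * u2 * x) z := by rw [hmul, hmul, ← hc02]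
    rw [map_sub, map_sub, e1, e2, e3, e4, ← h7]
    abel
  have h9 := hinj u1 hu1U u2 hu2U hne2 _ h8
  have h10 := hinj u1 hu1U u huU hne1 _ h9
  apply hz0
  have h11 : ρ x⁻¹ (ρ x z) = z := by
    rw [hmul, inv_mul_cancel, map_one, Module.End.one_apply]
  rw [h10, map_zero] at h11
  exact h11.symm

/-- the preimage of `Z` under `x - 1`, if `x` of order `3` fixes a nonzero vector of `Z` -/
private theorem sp3_pre5 {L Y : Type} [Group L] [AddCommGroup Y] [Module (ZMod p) Y] [Finite Y]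
    (ρ : Representation (ZMod p) L Y) (hp : 5 ≤ p) (Z : Submodule (ZMod p) Y) (x : L)
    (hx3 : x ^ 3 = 1) (z0 : Y) (hz0 : z0 ∈ Z) (hz1 : z0 ≠ 0) (hxz : ρ x z0 = z0) :
    5 * Nat.card {m : Y // ρ x m - m ∈ Z} ≤ Nat.card Z * Nat.card {m : Y // ρ x m = m} := by
  obtain ⟨f, hf⟩ : ∃ f : Y →ₗ[ZMod p] Y, f = ρ x - 1 := ⟨_, rfl⟩
  have hfa : ∀ m, f m = ρ x m - m := by
    intro m
    rw [hf]
    rfl
  obtain ⟨Z', hZ'⟩ : ∃ Z' : Submodule (ZMod p) Y, Z' = Z ⊓ LinearMap.range f := ⟨_, rfl⟩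
  have hle : Z' ≤ Z := by rw [hZ']; exact inf_le_left
  have hrg : Z' ≤ LinearMap.range f := by rw [hZ']; exact inf_le_right
  have h1 : Nat.card {m : Y // ρ x m - m ∈ Z} = Nat.card {m : Y // f m ∈ Z'} := by
    refine Nat.card_congr (Equiv.subtypeEquivRight fun m => ?_)
    rw [hZ', ← hfa, Submodule.mem_inf]
    exact ⟨fun h => ⟨h, ⟨m, rfl⟩⟩, fun h => h.1⟩
  have h2 : Nat.card {m : Y // ρ x m = m} = Nat.card {m : Y // f m = 0} := by
    refine Nat.card_congr (Equiv.subtypeEquivRight fun m => ?_)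
    rw [hfa, sub_eq_zero]
  have h3 := sp3_pre f Z'
  -- the line of fixed vectors
  have h3p : (3 : ZMod p) ≠ 0 := by
    intro h0
    have h4 : ((3 : ℕ) : ZMod p) = 0 := by exact_mod_cast h0
    rw [ZMod.natCast_eq_zero_iff] at h4
    have := Nat.le_of_dvd (by norm_num) h4
    omega
  have h5 : 5 * Nat.card Z' ≤ Nat.card Z := by
    have h6 : Nat.card (ZMod p × Z') ≤ Nat.card Z := by
      refine Nat.card_le_card_of_injective (fun c : ZMod p × Z' =>
        (⟨c.1 • z0 + (c.2 : Y), Z.add_mem (Z.smul_mem _ hz0) (hle c.2.2)⟩ : Z)) ?_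
      rintro ⟨c, w⟩ ⟨d, w'⟩ hcw
      have h7 : c • z0 + (w : Y) = d • z0 + (w' : Y) := Subtype.ext_iff.1 hcw
      have h8 : (c - d) • z0 = (w' : Y) - (w : Y) := by
        rw [sub_smul]
        have h9 : c • z0 - d • z0 - ((w' : Y) - (w : Y)) =
            (c • z0 + (w : Y)) - (d • z0 + (w' : Y)) := by abel
        have h10 : c • z0 - d • z0 - ((w' : Y) - (w : Y)) = 0 := by rw [h9, h7, sub_self]
        exact sub_eq_zero.1 h10
      have h11 : ((w' : Y) - (w : Y)) ∈ LinearMap.range f :=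
        (LinearMap.range f).sub_mem (hrg w'.2) (hrg w.2)
      obtain ⟨y, hy⟩ := h11
      -- `1 + x + x ^ 2` kills the image and multiplies the fixed vectors with 3
      have hmul : ∀ (a b : L) (y : Y), ρ a (ρ b y) = ρ (a * b) y := by
        intro a b y
        rw [map_mul, Module.End.mul_apply]
      have h14 : ρ x ((c - d) • z0) = (c - d) • z0 := by rw [map_smul, hxz]
      have h15 : (3 : ZMod p) • ((c - d) • z0) = 0 := by
        have h16 : (3 : ZMod p) • ((c - d) • z0) =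
            (c - d) • z0 + ρ x ((c - d) • z0) + ρ x (ρ x ((c - d) • z0)) := by
          rw [h14, h14]
          have h17 : (3 : ZMod p) = 1 + 1 + 1 := by norm_num
          rw [h17, add_smul, add_smul, one_smul]
        rw [h16, h8, ← hy, hfa, map_sub, map_sub, hmul, hmul]
        have h18 : x * (x * x) = 1 := by rw [← hx3, pow_succ, pow_succ, pow_one, mul_assoc]
        rw [h18, map_one, Module.End.one_apply]
        abel
      rw [smul_smul, smul_eq_zero] at h15
      have h19 : c - d = 0 := by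
        rcases h15 with h15 | h15
        · exact (mul_eq_zero.1 h15).resolve_left h3p
        · exact absurd h15 hz1
      have h20 : c = d := sub_eq_zero.1 h19
      rw [h19, zero_smul] at h8
      exact Prod.ext h20 (Subtype.ext (sub_eq_zero.1 h8.symm).symm)
    rw [Nat.card_prod, Nat.card_zmod] at h6
    exact (Nat.mul_le_mul_right _ hp).trans h6
  rw [h1, h2]
  calc 5 * Nat.card {m : Y // f m ∈ Z'} ≤ 5 * (Nat.card Z' * Nat.card {m : Y // f m = 0}) :=
        Nat.mul_le_mul_left _ h3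
    _ = (5 * Nat.card Z') * Nat.card {m : Y // f m = 0} := by ring
    _ ≤ Nat.card Z * Nat.card {m : Y // f m = 0} := Nat.mul_le_mul_right _ h5

/-- the version for a quasi-primitive group -/
private theorem sp3_aux {L Y : Type} [Group L] [Finite L] [AddCommGroup Y] [Module (ZMod p) Y]
    [Finite Y] [Nontrivial Y] {ρ : Representation (ZMod p) L Y} {U : Subgroup L} (h : QP ρ U)
    (hp : 3 ≤ p) (hpL : ¬ p ∣ Nat.card L) (hab : ∀ x y : L, x * y * x⁻¹ * y⁻¹ ∈ U) (S : Subgroup L)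
    (Z : Submodule (ZMod p) Y) (hZ : Z ≠ ⊥) (hZS : ∀ x ∈ S, ∀ z ∈ Z, ρ x z ∈ Z)
    (hc : Nat.card Z ^ 3 ≤ Nat.card Y) :
    ∃ m : Y, ∀ x ∈ S, ∀ s : ℕ, s.Prime → 3 ≤ s → (∀ u ∈ U, u ^ s = 1 → u = 1) → x ^ s = 1 →
      ρ x m - m ∈ Z → x = 1 := by
  classical
  obtain ⟨a, ha, -, hidx, -, ⟨d, hd, hcard⟩, hgal⟩ := qp_gal h
  obtain ⟨K, iF, iFin, iCh, iMod, χ, σ, hχ, hχρ, hσρ, hσ, hgen⟩ := qp_fld h
  have : IsCyclic (K ≃+* K) := sp3_cyc (p := p) K
  have : Finite (K ≃+* K) :=
    Finite.of_injective (fun (f : K ≃+* K) => (f : K → K)) DFunLike.coe_injective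
  -- the centralizer of `U` is `U`
  have hcent : Subgroup.centralizer (U : Set L) = U := by
    apply le_antisymm
    · intro z hz
      rw [Subgroup.mem_centralizer_iff] at hz
      have hzU : z ∈ U ⊔ Subgroup.zpowers z := Subgroup.mem_sup_right (Subgroup.mem_zpowers z)
      refine h.mx (U ⊔ Subgroup.zpowers z) ⟨⟨?_⟩, ?_⟩ le_sup_left hzU
      · intro n hn g
        have h1 : g * n * g⁻¹ = g * n * g⁻¹ * n⁻¹ * n := by group
        rw [h1]
        exact mul_mem (Subgroup.mem_sup_left (hab g n)) hn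
      · have h1 : U ⊔ Subgroup.zpowers z ≤ Subgroup.centralizer (U : Set L) := by
          refine sup_le (fun u hu => ?_) ?_
          · rw [Subgroup.mem_centralizer_iff]
            intro u' hu'
            exact h.ab.com u' hu' u hu
          · rw [Subgroup.zpowers_le, Subgroup.mem_centralizer_iff]
            exact hz
        have h2 : U ⊔ Subgroup.zpowers z ≤ Subgroup.centralizer ({z} : Set L) := by
          refine sup_le (fun u hu => ?_) ?_
          · rw [Subgroup.mem_centralizer_iff]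
            rintro _ rfl
            exact (hz u hu).symm
          · rw [Subgroup.zpowers_le, Subgroup.mem_centralizer_iff]
            rintro _ rfl
            rfl
        intro x hx
        have h3 : U ⊔ Subgroup.zpowers z ≤ Subgroup.centralizer ({x} : Set L) := by
          refine sup_le (fun u hu => ?_) ?_
          · rw [Subgroup.mem_centralizer_iff]
            rintro _ rfl
            exact (Subgroup.mem_centralizer_iff.1 (h1 hx) u hu).symm
          · rw [Subgroup.zpowers_le, Subgroup.mem_centralizer_iff]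
            rintro _ rfl
            exact (Subgroup.mem_centralizer_iff.1 (h2 hx) z rfl).symm
        intro y hy
        exact Subgroup.mem_centralizer_iff.1 (h3 hy) x rfl
    · intro u hu
      rw [Subgroup.mem_centralizer_iff]
      intro u' hu'
      exact h.ab.com u' hu' u hu
  rw [hcent] at hidx
  have hker : ∀ x : L, σ x = 1 ↔ x ∈ U := by
    intro x
    rw [hσ, ← hcent, Subgroup.mem_centralizer_iff]
    rw [hcent]
    exact ⟨fun h1 u hu => (h1 u hu).symm, fun h1 u hu => (h1 u hu).symm⟩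
  have hir : Nat.card σ.range = U.index := by
    have h1 : U = σ.ker := by
      ext g
      rw [MonoidHom.mem_ker, hker]
    rw [← Subgroup.index_ker, ← h1]
  have hW : 0 < Nat.card Y := Nat.card_pos
  obtain ⟨t, htt, ht2⟩ : ∃ t : ℕ, t ^ 5 ≤ Nat.card Y ∧ ∀ s : ℕ, s ^ 5 ≤ Nat.card Y → s ≤ t := by
    refine ⟨Nat.findGreatest (fun s => s ^ 5 ≤ Nat.card Y) (Nat.card Y), ?_, ?_⟩
    · exact Nat.findGreatest_spec (P := fun s => s ^ 5 ≤ Nat.card Y) (m := 0) (Nat.zero_le _)
        (by norm_num)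
    · intro s hs2
      exact Nat.le_findGreatest ((Nat.le_self_pow (by norm_num) s).trans hs2) hs2
  have ht0 : 0 < t := ht2 1 (by rw [one_pow]; exact hW)
  have hft : ∀ (l : ℕ) (x : L), l.Prime → 5 ≤ l → x ^ l = 1 → x ∉ U →
      Nat.card {w : Y // ρ x w = w} ≤ t := by
    intro l x hl hl5 hxl hxc
    apply ht2
    refine le_trans (Nat.pow_le_pow_right ?_ hl5) (hgal l x hl hxl (by rw [hcent]; exact hxc))
    have : Nonempty {w : Y // ρ x w = w} := ⟨⟨0, map_zero _⟩⟩
    exact Nat.card_pos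
  obtain ⟨t3, htt3, ht23⟩ : ∃ t : ℕ, t ^ 3 ≤ Nat.card Y ∧ ∀ s : ℕ, s ^ 3 ≤ Nat.card Y → s ≤ t := by
    refine ⟨Nat.findGreatest (fun s => s ^ 3 ≤ Nat.card Y) (Nat.card Y), ?_, ?_⟩
    · exact Nat.findGreatest_spec (P := fun s => s ^ 3 ≤ Nat.card Y) (m := 0) (Nat.zero_le _)
        (by norm_num)
    · intro s hs2
      exact Nat.le_findGreatest ((Nat.le_self_pow (by norm_num) s).trans hs2) hs2
  have hft3 : ∀ x : L, x ^ 3 = 1 → x ∉ U → Nat.card {w : Y // ρ x w = w} ≤ t3 := by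
    intro x hxl hxc
    apply ht23
    exact hgal 3 x Nat.prime_three hxl (by rw [hcent]; exact hxc)
  have hord : ∀ (l : ℕ) (x : L), l.Prime → x ^ l = 1 → x ∉ U → orderOf (σ x) = l := by
    intro l x hl hxl hxc
    have : Fact l.Prime := ⟨hl⟩
    refine orderOf_eq_prime ?_ ?_
    · rw [← map_pow, hxl, map_one]
    · intro h1
      exact hxc ((hker x).1 h1)
  have hdvd : ∀ (l : ℕ) (x : L), l.Prime → x ^ l = 1 → x ∉ U → l ∣ a := by
    intro l x hl hxl hxc
    refine dvd_trans ?_ hidx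
    rw [← hir, ← hord l x hl hxl hxc]
    have h1 : orderOf (⟨σ x, ⟨x, rfl⟩⟩ : σ.range) ∣ Nat.card σ.range := orderOf_dvd_natCard _
    rwa [← Subgroup.orderOf_coe] at h1
  -- the power of `x`
  have hpw : ∀ x ∈ S, ∀ m : Y, ρ x m - m ∈ Z → ∀ j : ℕ, ρ (x ^ j) m - m ∈ Z := by
    intro x hx m hm j
    induction j with
    | zero =>
      rw [pow_zero, map_one, Module.End.one_apply, sub_self]
      exact Z.zero_mem
    | succ j ih =>
      have h1 : ρ (x ^ (j + 1)) m - m = ρ x (ρ (x ^ j) m - m) + (ρ x m - m) := by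
        rw [map_sub, ← Module.End.mul_apply, ← map_mul, ← pow_succ']
        abel
      rw [h1]
      exact Z.add_mem (hZS x hx _ ih) hm
  obtain ⟨z0, hz0, hz1⟩ := Submodule.exists_mem_ne_zero_of_ne_bot hZ
  -- the elements of `U`
  have hU : ∀ x ∈ S, x ∈ U → x ≠ 1 → ∀ m : Y, ρ x m - m ∈ Z → m ∈ Z := by
    intro x hx hxU hx1 m hm
    let f : Z → Z := fun z => ⟨ρ x z - z, Z.sub_mem (hZS x hx z z.2) z.2⟩
    have hf : Function.Injective f := by
      intro z z' hzz
      have h1 : ρ x (z : Y) - z = ρ x z' - z' := Subtype.ext_iff.1 hzz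
      have h2 : ρ x ((z : Y) - z') = (z : Y) - z' := by
        rw [map_sub]
        have h3 : ρ x (z : Y) - ρ x z' - ((z : Y) - z') = 0 := by
          have h4 : ρ x (z : Y) - ρ x z' - ((z : Y) - z') = (ρ x (z : Y) - z) - (ρ x z' - z') := by
            abel
          rw [h4, h1, sub_self]
        exact sub_eq_zero.1 h3
      by_contra hne
      refine hx1 (qp_fpf h U h.ab x hxU _ ?_ h2)
      intro h0
      exact hne (Subtype.ext (sub_eq_zero.1 h0))
    obtain ⟨z, hz⟩ := (Finite.injective_iff_surjective.1 hf) ⟨ρ x m - m, hm⟩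
    have h1 : ρ x (z : Y) - z = ρ x m - m := Subtype.ext_iff.1 hz
    have h2 : ρ x (m - z) = m - z := by
      rw [map_sub]
      have h4 : ρ x m - ρ x (z : Y) - (m - z) = (ρ x m - m) - (ρ x (z : Y) - z) := by abel
      have h3 : ρ x m - ρ x (z : Y) - (m - z) = 0 := by rw [h4, h1, sub_self]
      exact sub_eq_zero.1 h3
    by_cases h0 : m - z = 0
    · rw [sub_eq_zero.1 h0]
      exact z.2
    · exact absurd (qp_fpf h U h.ab x hxU _ h0 h2) hx1
  -- the size of `S ∩ U`
  have hSU : Nat.card {x : L // x ∈ S ∧ x ∈ U} ≤ Nat.card Z - 1 := by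
    have h1 : Nat.card {x : L // x ∈ S ∧ x ∈ U} ≤ Nat.card {z : Z // z ≠ 0} := by
      refine Nat.card_le_card_of_injective
        (fun u : {x : L // x ∈ S ∧ x ∈ U} => (⟨⟨ρ (u : L) z0, hZS _ u.2.1 z0 hz0⟩, by
          intro h0
          have h1 : ρ (u : L) z0 = 0 := Subtype.ext_iff.1 h0
          apply hz1
          have h2 : ρ ((u : L)⁻¹) (ρ (u : L) z0) = z0 := by
            rw [← Module.End.mul_apply, ← map_mul, inv_mul_cancel, map_one, Module.End.one_apply]
          rw [h1, map_zero] at h2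
          exact h2.symm⟩ : {z : Z // z ≠ 0})) ?_
      intro u v huv
      have h2 : ρ (u : L) z0 = ρ (v : L) z0 :=
        Subtype.ext_iff.1 (Subtype.ext_iff.1 huv)
      have h3 : ρ ((v : L)⁻¹ * (u : L)) z0 = z0 := by
        rw [map_mul, Module.End.mul_apply, h2, ← Module.End.mul_apply, ← map_mul, inv_mul_cancel,
          map_one, Module.End.one_apply]
      have h4 := qp_fpf h U h.ab _ (mul_mem (inv_mem v.2.2) u.2.2) z0 hz1 h3
      have h5 : (u : L) = (v : L) := by
        rw [inv_mul_eq_one] at h4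
        exact h4.symm
      exact Subtype.ext h5
    refine h1.trans (le_of_eq ?_)
    have := Fintype.ofFinite Z
    rw [Nat.card_eq_fintype_card, Nat.card_eq_fintype_card, Fintype.card_subtype_compl,
      Fintype.card_subtype_eq]
  have hz2 : 2 ≤ Nat.card Z := by
    have : Nontrivial Z := (Submodule.nontrivial_iff_ne_bot).2 hZ
    exact Finite.one_lt_card
  have := Fintype.ofFinite L
  have := Fintype.ofFinite Y
  -- the bad vectors for one prime
  set Bd : ℕ → Finset Y := fun s => Finset.univ.filter fun m : Y =>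
    ∃ x ∈ S, x ∉ U ∧ x ^ s = 1 ∧ ρ x m - m ∈ Z with hBd
  have hone : ∀ s : ℕ, s.Prime → 5 ≤ s →
      (Bd s).card ≤ (Nat.card Z - 1) * (Nat.card Z * t) := by
    intro s hs hs5
    by_cases hex : ∃ y ∈ S, y ∉ U ∧ y ^ s = 1
    · obtain ⟨y, hyS, hyU, hys⟩ := hex
      set R : Finset L := Finset.univ.filter fun x => x ∈ S ∧ x ^ s = 1 ∧ y⁻¹ * x ∈ U with hR
      have hRc : R.card ≤ Nat.card Z - 1 := by
        refine le_trans ?_ hSU
        rw [Nat.card_eq_fintype_card, ← Fintype.card_coe]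
        refine Fintype.card_le_of_injective
          (fun x : R => (⟨y⁻¹ * x.1, mul_mem (inv_mem hyS) (Finset.mem_filter.1 x.2).2.1,
            (Finset.mem_filter.1 x.2).2.2.2⟩ : {x : L // x ∈ S ∧ x ∈ U})) ?_
        intro x x' hxx
        have h1 := Subtype.ext_iff.1 hxx
        exact Subtype.ext (mul_left_cancel h1)
      have hsub : Bd s ⊆ R.biUnion fun x => Finset.univ.filter fun m : Y => ρ x m - m ∈ Z := by
        intro m hm
        obtain ⟨-, x, hxS, hxU, hxs, hxm⟩ := Finset.mem_filter.1 hm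
        have h1 := hord s x hs hxs hxU
        obtain ⟨j, hj⟩ := sp3_pow hs h1 (y := σ y) (by rw [← map_pow, hys, map_one])
        refine Finset.mem_biUnion.2 ⟨x ^ j, Finset.mem_filter.2 ⟨Finset.mem_univ _,
          pow_mem hxS j, ?_, ?_⟩, Finset.mem_filter.2 ⟨Finset.mem_univ _, hpw x hxS m hxm j⟩⟩
        · rw [← pow_mul, mul_comm, pow_mul, hxs, one_pow]
        · rw [← hker, map_mul, map_inv, map_pow, hj, inv_mul_cancel]
      refine (Finset.card_le_card hsub).trans ?_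
      refine (Finset.card_biUnion_le_card_mul _ _ (Nat.card Z * t) fun x hx => ?_).trans
        (Nat.mul_le_mul_right _ hRc)
      obtain ⟨-, hxS, hxs, hxy⟩ := Finset.mem_filter.1 hx
      have hxU : x ∉ U := by
        intro hxU
        apply hyU
        have h2 : y = x * (y⁻¹ * x)⁻¹ := by group
        rw [h2]
        exact mul_mem hxU (inv_mem hxy)
      have h1 : (Finset.univ.filter fun m : Y => ρ x m - m ∈ Z).card =
          Nat.card {m : Y // (ρ x - 1 : Module.End (ZMod p) Y) m ∈ Z} := by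
        rw [Nat.card_eq_fintype_card, Fintype.card_subtype]
        rfl
      rw [h1]
      refine (sp3_pre _ Z).trans (Nat.mul_le_mul_left _ ?_)
      refine le_trans (le_of_eq ?_) (hft s x hs hs5 hxs hxU)
      refine Nat.card_congr (Equiv.subtypeEquivRight fun m => ?_)
      show ρ x m - m = 0 ↔ _
      exact sub_eq_zero
    · have h1 : Bd s = ∅ := by
        rw [hBd, Finset.filter_eq_empty_iff]
        rintro m - ⟨x, hxS, hxU, hxs, -⟩
        exact hex ⟨x, hxS, hxU, hxs⟩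
      rw [h1, Finset.card_empty]
      exact Nat.zero_le _
  -- the bad vectors for the prime `3`
  have hz5 : p ≤ Nat.card Z := by
    have h1 : Nat.card (ZMod p) ≤ Nat.card Z := by
      refine Nat.card_le_card_of_injective (fun c : ZMod p => (⟨c • z0, Z.smul_mem _ hz0⟩ : Z)) ?_
      intro c d hcd
      have h2 : c • z0 = d • z0 := Subtype.ext_iff.1 hcd
      have h3 : (c - d) • z0 = 0 := by rw [sub_smul, h2, sub_self]
      rcases smul_eq_zero.1 h3 with h4 | h4
      · exact sub_eq_zero.1 h4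
      · exact absurd h4 hz1
    rwa [Nat.card_zmod] at h1
  set B3 : Finset Y := Finset.univ.filter fun m : Y => (∀ u ∈ U, u ^ 3 = 1 → u = 1) ∧
    ∃ x ∈ S, x ∉ U ∧ x ^ 3 = 1 ∧ ρ x m - m ∈ Z with hB3d
  have hB3 : 2 * B3.card ≤ Nat.card Y := by
    by_cases hex : (∀ u ∈ U, u ^ 3 = 1 → u = 1) ∧ ∃ y ∈ S, y ∉ U ∧ y ^ 3 = 1
    · obtain ⟨h3U, y, hyS, hyU, hys⟩ := hex
      have hp5 : 5 ≤ p := by
        have h3 : p ≠ 3 := by
          rintro rfl
          apply hpL
          have h4 : orderOf y = 3 := orderOf_eq_prime hys (fun h5 => hyU (h5 ▸ one_mem U))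
          rw [← h4]
          exact orderOf_dvd_natCard y
        have h4 : p ≠ 4 := by
          rintro rfl
          exact absurd (Fact.out : Nat.Prime 4) (by norm_num)
        omega
      refine sp3_cnt3 (hp5.trans hz5) hc htt3 ?_
      obtain ⟨R, hR⟩ : ∃ R : Finset L,
          R = Finset.univ.filter fun x => x ∈ S ∧ x ^ 3 = 1 ∧ y⁻¹ * x ∈ U := ⟨_, rfl⟩
      have hRm : ∀ x, x ∈ R ↔ x ∈ S ∧ x ^ 3 = 1 ∧ y⁻¹ * x ∈ U := by
        intro x
        rw [hR, Finset.mem_filter]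
        exact ⟨fun h => h.2, fun h => ⟨Finset.mem_univ _, h⟩⟩
      have hRc : R.card ≤ Nat.card Z - 1 := by
        refine le_trans ?_ hSU
        rw [Nat.card_eq_fintype_card, ← Fintype.card_coe]
        refine Fintype.card_le_of_injective
          (fun x : R => (⟨y⁻¹ * x.1, mul_mem (inv_mem hyS) ((hRm _).1 x.2).1,
            ((hRm _).1 x.2).2.2⟩ : {x : L // x ∈ S ∧ x ∈ U})) ?_
        intro x x' hxx
        have h1 := Subtype.ext_iff.1 hxx
        exact Subtype.ext (mul_left_cancel h1)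
      have hsub : B3 ⊆ R.biUnion fun x => Finset.univ.filter fun m : Y => ρ x m - m ∈ Z := by
        intro m hm
        obtain ⟨-, -, x, hxS, hxU, hxs, hxm⟩ := Finset.mem_filter.1 hm
        have h1 := hord 3 x Nat.prime_three hxs hxU
        obtain ⟨j, hj⟩ := sp3_pow Nat.prime_three h1 (y := σ y)
          (by rw [← map_pow, hys, map_one])
        refine Finset.mem_biUnion.2 ⟨x ^ j, (hRm _).2 ⟨pow_mem hxS j, ?_, ?_⟩,
          Finset.mem_filter.2 ⟨Finset.mem_univ _, hpw x hxS m hxm j⟩⟩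
        · rw [← pow_mul, mul_comm, pow_mul, hxs, one_pow]
        · rw [← hker, map_mul, map_inv, map_pow, hj, inv_mul_cancel]
      have hxU : ∀ x ∈ R, x ∉ U := by
        intro x hx hxU
        apply hyU
        have h2 : y = x * (y⁻¹ * x)⁻¹ := by group
        rw [h2]
        exact mul_mem hxU (inv_mem ((hRm _).1 hx).2.2)
      have hcd : ∀ x : L, (Finset.univ.filter fun m : Y => ρ x m - m ∈ Z).card =
          Nat.card {m : Y // ρ x m - m ∈ Z} := by
        intro x
        rw [Nat.card_eq_fintype_card, Fintype.card_subtype]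
      by_cases hmv : ∃ u ∈ S, u ∈ U ∧ y * u ≠ u * y
      · right
        obtain ⟨u, huS, huU, hyu⟩ := hmv
        have h1 : B3.card ≤ ∑ x ∈ R, (Finset.univ.filter fun m : Y => ρ x m - m ∈ Z).card :=
          (Finset.card_le_card hsub).trans Finset.card_biUnion_le
        have h2 : ∀ x ∈ R, 5 * (Finset.univ.filter fun m : Y => ρ x m - m ∈ Z).card ≤
            Nat.card Z * t3 := by
          intro x hx
          obtain ⟨hxS, hxs, hxy⟩ := (hRm _).1 hx
          have hxu : x * u ≠ u * x := by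
            intro h3
            apply hyu
            have h4 : y⁻¹ * x * u = u * (y⁻¹ * x) := h.ab.com _ hxy u huU
            have h5 : x = y * (y⁻¹ * x) := by group
            have h6 : y * u * (y⁻¹ * x) = u * y * (y⁻¹ * x) := by
              calc y * u * (y⁻¹ * x) = y * (u * (y⁻¹ * x)) := by group
                _ = y * (y⁻¹ * x * u) := by rw [h4]
                _ = x * u := by group
                _ = u * x := h3
                _ = u * y * (y⁻¹ * x) := by group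
            exact mul_right_cancel h6
          obtain ⟨z1, hz1Z, hz10, hz1x⟩ := sp3_fix h S Z hZ hZS x u hxS hxs huS huU hxu
          rw [hcd]
          exact (sp3_pre5 ρ hp5 Z x hxs z1 hz1Z hz10 hz1x).trans
            (Nat.mul_le_mul_left _ (hft3 x hxs (hxU x hx)))
        calc 5 * B3.card ≤ 5 * ∑ x ∈ R, (Finset.univ.filter fun m : Y => ρ x m - m ∈ Z).card :=
              Nat.mul_le_mul_left _ h1
          _ = ∑ x ∈ R, 5 * (Finset.univ.filter fun m : Y => ρ x m - m ∈ Z).card :=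
              Finset.mul_sum _ _ _
          _ ≤ ∑ _x ∈ R, Nat.card Z * t3 := Finset.sum_le_sum h2
          _ = R.card * (Nat.card Z * t3) := by rw [Finset.sum_const, smul_eq_mul]
          _ ≤ (Nat.card Z - 1) * (Nat.card Z * t3) := Nat.mul_le_mul_right _ hRc
      · left
        push Not at hmv
        have hR1 : R.card ≤ 1 := by
          rw [Finset.card_le_one]
          have h1 : ∀ x ∈ R, x = y := by
            intro x hx
            obtain ⟨hxS, hxs, hxy⟩ := (hRm _).1 hx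
            have h2 := hmv (y⁻¹ * x) (mul_mem (inv_mem hyS) hxS) hxy
            have h3 : (y⁻¹ * x) ^ 3 = 1 := by
              have h4 : Commute y (y⁻¹ * x) := h2
              have h5 : (y * (y⁻¹ * x)) ^ 3 = y ^ 3 * (y⁻¹ * x) ^ 3 := h4.mul_pow 3
              rw [mul_inv_cancel_left, hxs, hys, one_mul] at h5
              exact h5.symm
            have h4 := h3U _ hxy h3
            rw [inv_mul_eq_one] at h4
            exact h4.symm
          intro x hx x' hx'
          rw [h1 x hx, h1 x' hx']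
        refine (Finset.card_le_card hsub).trans ?_
        refine (Finset.card_biUnion_le_card_mul _ _ (Nat.card Z * t3) fun x hx => ?_).trans
          (by
            calc R.card * (Nat.card Z * t3) ≤ 1 * (Nat.card Z * t3) := Nat.mul_le_mul_right _ hR1
              _ = Nat.card Z * t3 := one_mul _)
        obtain ⟨hxS, hxs, hxy⟩ := (hRm _).1 hx
        rw [hcd]
        have h1 : Nat.card {m : Y // ρ x m - m ∈ Z} =
            Nat.card {m : Y // (ρ x - 1 : Module.End (ZMod p) Y) m ∈ Z} := rfl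
        rw [h1]
        refine (sp3_pre _ Z).trans (Nat.mul_le_mul_left _ ?_)
        refine le_trans (le_of_eq ?_) (hft3 x hxs (hxU x hx))
        refine Nat.card_congr (Equiv.subtypeEquivRight fun m => ?_)
        show ρ x m - m = 0 ↔ _
        exact sub_eq_zero
    · have h1 : B3 = ∅ := by
        rw [hB3d, Finset.filter_eq_empty_iff]
        rintro m - ⟨h3U, x, hxS, hxU, hxs, -⟩
        exact hex ⟨h3U, x, hxS, hxU, hxs⟩
      rw [h1, Finset.card_empty, mul_zero]
      exact Nat.zero_le _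
  set P : Finset ℕ := a.primeFactors.filter fun l => 5 ≤ l with hP
  have hP1 : ∀ l, l ∈ P ↔ l.Prime ∧ 5 ≤ l ∧ l ∣ a := by
    intro l
    rw [hP, Finset.mem_filter, Nat.mem_primeFactors]
    constructor
    · rintro ⟨⟨h1, h2, -⟩, h3⟩
      exact ⟨h1, h3, h2⟩
    · rintro ⟨h1, h2, h3⟩
      exact ⟨⟨h1, h3, ha.ne'⟩, h2⟩
  have hw : 5 * P.card ≤ a := sp3_five P a ha fun l hl => (hP1 l).1 hl
  have hY : 3 ^ a ≤ Nat.card Y := by
    rw [hcard]
    calc 3 ^ a ≤ p ^ a := Nat.pow_le_pow_left hp a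
      _ = (p ^ a) ^ 1 := (pow_one _).symm
      _ ≤ (p ^ a) ^ d := Nat.pow_le_pow_right (by positivity) hd
  have hlt : 2 * (Nat.card Z + P.card * ((Nat.card Z - 1) * (Nat.card Z * t))) < Nat.card Y := by
    rcases sp3_cnt hz2 ht0 hc htt hY hw with h1 | ⟨h1, h2⟩
    · exact h1
    · rw [h1, zero_mul, add_zero]
      exact h2
  have hB1 : ((Finset.univ.filter fun m : Y => m ∈ Z) ∪ P.biUnion Bd).card ≤
      Nat.card Z + P.card * ((Nat.card Z - 1) * (Nat.card Z * t)) := by
    refine (Finset.card_union_le _ _).trans (Nat.add_le_add (le_of_eq ?_) ?_)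
    · rw [Nat.card_eq_fintype_card, Fintype.card_subtype]
    · exact Finset.card_biUnion_le_card_mul _ _ _ fun s hs =>
        hone s ((hP1 s).1 hs).1 ((hP1 s).1 hs).2.1
  have hB : (((Finset.univ.filter fun m : Y => m ∈ Z) ∪ P.biUnion Bd) ∪ B3).card <
      (Finset.univ : Finset Y).card := by
    refine lt_of_le_of_lt (Finset.card_union_le _ _) ?_
    rw [Finset.card_univ, ← Nat.card_eq_fintype_card]
    omega
  obtain ⟨m, -, hm⟩ := Finset.exists_mem_notMem_of_card_lt_card hB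
  refine ⟨m, fun x hx s hs1 hs2 hsU hs3 hs4 => ?_⟩
  by_contra h1
  apply hm
  rw [Finset.mem_union, Finset.mem_union]
  by_cases hxU : x ∈ U
  · exact Or.inl (Or.inl (Finset.mem_filter.2 ⟨Finset.mem_univ _, hU x hx hxU h1 m hs4⟩))
  · rcases Nat.lt_or_ge s 5 with h5 | h5
    · have h4 : s ≠ 4 := by
        rintro rfl
        norm_num at hs1
      have h3 : s = 3 := by omega
      subst h3
      exact Or.inr (Finset.mem_filter.2 ⟨Finset.mem_univ _, hsU, x, hx, hxU, hs3, hs4⟩)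
    · exact Or.inl (Or.inr (Finset.mem_biUnion.2 ⟨s, (hP1 s).2 ⟨hs1, h5, hdvd s x hs1 hs3 hxU⟩,
        Finset.mem_filter.2 ⟨Finset.mem_univ _, x, hx, hxU, hs3, hs4⟩⟩))

/-- The special vector, threshold `3`, groups of any order. PROOF. As `spm` of Nfv/Lc.lean; the new
prime is `s = 3`, if no element of `U` has order `3` modulo the kernel. Let `x` in `S`, not in `U`, of
order `3` modulo the kernel. If `x` centralizes `S ∩ U` then `⟨x⟩` is the only subgroup of order `3`:
at most `z * t` bad vectors, `t ^ 3 ≤ V`, `z ^ 3 ≤ V`. Otherwise (`sp3_fix`) `x` fixes a nonzero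
vector of `Z`: if not, `1 + x + x ^ 2 = 0` on `Z`, so `(u - u2) z + (u1 - u2) x z = 0` for `u` in
`S ∩ U`, `u1 = x u x⁻¹`, `u2 = x u1 x⁻¹`, so `(u1 - u2) (u1 - u) x z = 0`, and differences of elements
of `U` are injective. So (`sp3_pre5`) the bad set of `x` has at most `z * t / 5` elements, all
together at most `V / 5`. The primes `s ≥ 5`: less than `V / 2` as in Nfv. The
characteristic `p` is at least `3`; if `p = 3` there is nothing to do for `s = 3`. -/
theorem spm3 (hp : 3 ≤ p) (hpH : ¬ p ∣ Nat.card H) (F : Fam p H) (hJ : Subsingleton F.J) (hab : Abq F.ρ F.W F.UU)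
    (S : Subgroup H) (Z : Submodule (ZMod p) F.X) (hZ : Z ≠ ⊥)
    (hZS : ∀ x ∈ S, ∀ z ∈ Z, F.ρ x z ∈ Z) (hZc : Nat.card Z ^ 3 ≤ Nat.card F.X) :
    ∃ m : F.X, ∀ x ∈ S, ∀ s : ℕ, s.Prime → 3 ≤ s → Ufr F.ρ F.W F.UU s →
      (∀ y, F.ρ (x ^ s) y = y) → F.ρ x m - m ∈ Z → ∀ y, F.ρ x y = y := by
  classical
  have hsup := F.bs.sup
  have hne : Nonempty F.J := by
    by_contra h
    rw [not_nonempty_iff] at h
    rw [iSup_of_empty] at hsup
    exact bot_ne_top hsup
  obtain ⟨j⟩ := hne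
  have hW : F.W j = ⊤ := by
    rw [← hsup]
    refine le_antisymm (le_iSup F.W j) (iSup_le fun j' => ?_)
    rw [Subsingleton.elim j' j]
  have hNm : ∀ g : H, g ∈ Nm F.ρ (F.W j) := by
    intro g
    rw [mem_Nm]
    obtain ⟨j', hj'⟩ := F.bs.prm g j
    rw [hj', Subsingleton.elim j' j]
  obtain ⟨L, iL, iLf, ρL, π, U, hsurj, hcomp, hQ, hU⟩ := bs_qp F.bs j
  have : Nontrivial (F.W j) := (Submodule.nontrivial_iff_ne_bot).2 (F.bs.ne j)
  have hmem : ∀ y : F.X, y ∈ F.W j := fun y => by rw [hW]; exact Submodule.mem_top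
  have hab' : ∀ x y : L, x * y * x⁻¹ * y⁻¹ ∈ U := by
    intro x y
    obtain ⟨g, rfl⟩ := hsurj x
    obtain ⟨k, rfl⟩ := hsurj y
    rw [← map_inv, ← map_inv, ← map_mul, ← map_mul, ← map_mul, hU]
    exact hab j g g.2 k k.2
  let S' : Subgroup L := (S.subgroupOf (Nm F.ρ (F.W j))).map π
  let Z' : Submodule (ZMod p) (F.W j) := Z.comap (F.W j).subtype
  have hZ' : Z' ≠ ⊥ := by
    obtain ⟨z, hz, hz0⟩ := Submodule.exists_mem_ne_zero_of_ne_bot hZ
    intro h0
    have h1 : (⟨z, hmem z⟩ : F.W j) ∈ Z' := hz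
    rw [h0, Submodule.mem_bot] at h1
    exact hz0 (Subtype.ext_iff.1 h1)
  have hZS' : ∀ x ∈ S', ∀ z ∈ Z', ρL x z ∈ Z' := by
    rintro _ ⟨g, hg, rfl⟩ z hz
    show ((ρL (π g) z : F.W j) : F.X) ∈ Z
    rw [hcomp]
    exact hZS g hg z hz
  have hc' : Nat.card Z' ^ 3 ≤ Nat.card (F.W j) := by
    have h1 : Nat.card Z' ≤ Nat.card Z :=
      Nat.card_le_card_of_injective (fun z : Z' => (⟨((z : F.W j) : F.X), z.2⟩ : Z))
        (fun z z' hzz => by
          have h9 : ((z : F.W j) : F.X) = ((z' : F.W j) : F.X) := by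
            have h10 := congrArg (fun z : Z => (z : F.X)) hzz
            exact h10
          exact Subtype.ext (Subtype.ext h9))
    have h2 : Nat.card F.X = Nat.card (F.W j) :=
      Nat.card_congr (Equiv.subtypeUnivEquiv hmem).symm
    rw [← h2]
    exact (Nat.pow_le_pow_left h1 3).trans hZc
  have hpL : ¬ p ∣ Nat.card L := fun h2 => hpH ((h2.trans
    (Subgroup.card_dvd_of_surjective π hsurj)).trans (Subgroup.card_subgroup_dvd_card _))
  obtain ⟨m, hm⟩ := sp3_aux hQ hp hpL hab' S' Z' hZ' hZS' hc'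
  refine ⟨m, fun x hx s hs1 hs2 hsU hs3 hs4 y => ?_⟩
  have hU2 : ∀ u ∈ U, u ^ s = 1 → u = 1 := by
    intro u huU hus
    obtain ⟨g, rfl⟩ := hsurj u
    have hgU : (g : H) ∈ F.UU j := (hU g).1 huU
    refine hQ.fai _ fun w => Subtype.ext ?_
    rw [hcomp]
    refine hsU j (g : H) hgU ?_ w w.2
    intro w' hw'
    have h1 := hcomp (g ^ s) ⟨w', hw'⟩
    rw [map_pow, hus, map_one, Module.End.one_apply] at h1
    exact h1.symm
  have h1 : π ⟨x, hNm x⟩ ∈ S' := ⟨⟨x, hNm x⟩, hx, rfl⟩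
  have h2 : (π ⟨x, hNm x⟩) ^ s = 1 := by
    rw [← map_pow]
    refine hQ.fai _ fun w => Subtype.ext ?_
    rw [hcomp]
    exact hs3 w
  have h3 : ρL (π ⟨x, hNm x⟩) m - m ∈ Z' := by
    show ((ρL (π ⟨x, hNm x⟩) m - m : F.W j) : F.X) ∈ Z
    rw [Submodule.coe_sub, hcomp]
    exact hs4
  have h4 := hm _ h1 s hs1 hs2 hU2 h2 h3
  have h5 := hcomp ⟨x, hNm x⟩ ⟨y, hmem y⟩
  rw [h4, map_one, Module.End.one_apply] at h5
  exact h5.symm

end

end Pool.Agent.R12
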