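import Pool.Agent.Nfv.Gn
import Pool.Agent.R12.Sp3
import Pool.Agent.R12.Ld

/-! The local theorem for a `p`-group of class two, groups of any order. -/

set_option autoImplicit false

namespace Pool.Agent.R12

open Pool.Agent.Nan Pool.Agent.Nas
open Pool.Agent.Nfv (gen_one)

section
variable {p : ℕ} {H V U : Type} [Group H] [AddCommGroup V] [Module (ZMod p) V]
  [AddCommGroup U] [Module (ZMod p) U]

/-- The setting: the irreducible modules `F i` are the summands of the dual of `V`. -/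
structure LS (ρV : Representation (ZMod p) H V) (ρU : Representation (ZMod p) H U)
    (β : V →ₗ[ZMod p] V →ₗ[ZMod p] U) (A : Subgroup H) (B : Set ℕ) {n : ℕ}
    (F : Fin n → Fam p H) (em : ∀ i, (F i).X →ₗ[ZMod p] Module.Dual (ZMod p) V) : Prop where
  ltg : Ltg p ρV ρU β
  sol : Group.IsSolvable H
  p3 : 3 ≤ p
  ab : Ab A
  ar : ∀ r ∈ B, AR A r
  b3 : ∀ r ∈ B, 3 ≤ r
  inj : ∀ i, Function.Injective (em i)
  eqv : ∀ i h x v, em i ((F i).ρ h x) v = em i x (ρV h⁻¹ v)
  ind : iSupIndep fun i => LinearMap.range (em i)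
  sup : ⨆ i, LinearMap.range (em i) = ⊤
  Ale : ∀ i, A ≤ (F i).A
  bt : ∀ r ∈ B, ∀ i, (F i).Bt r
  triv : ∀ r ∈ B, ∀ i, (∀ c ∈ cm A r, ∀ x, (F i).ρ c x = x) →
    ∀ R : Sylow r H, ∀ y ∈ (R : Subgroup H), ∀ x, (F i).ρ y x = x

/-- The summand of `V` which is dual to `F i`. -/
def Vs {n : ℕ} {F : Fin n → Fam p H} (em : ∀ i, (F i).X →ₗ[ZMod p] Module.Dual (ZMod p) V)
    (i : Fin n) : Submodule (ZMod p) V where
  carrier := {v | ∀ i', i' ≠ i → ∀ x, em i' x v = 0}
  zero_mem' := fun i' _ x => map_zero _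
  add_mem' := by
    intro a b ha hb i' hi x
    rw [map_add, ha i' hi x, hb i' hi x, add_zero]
  smul_mem' := by
    intro c a ha i' hi x
    rw [map_smul, ha i' hi x, smul_zero]

/-- The sum of the summands outside `I`. -/
def Cs {n : ℕ} {F : Fin n → Fam p H} (em : ∀ i, (F i).X →ₗ[ZMod p] Module.Dual (ZMod p) V)
    (I : Finset (Fin n)) : Submodule (ZMod p) V where
  carrier := {v | ∀ i ∈ I, ∀ x, em i x v = 0}
  zero_mem' := fun i' _ x => map_zero _
  add_mem' := by
    intro a b ha hb i' hi x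
    rw [map_add, ha i' hi x, hb i' hi x, add_zero]
  smul_mem' := by
    intro c a ha i' hi x
    rw [map_smul, ha i' hi x, smul_zero]

/-- `h` fixes `l` and the restriction of `m` to the radical of `l`. -/
def Fx2 (ρV : Representation (ZMod p) H V) (ρU : Representation (ZMod p) H U)
    (β : V →ₗ[ZMod p] V →ₗ[ZMod p] U) (l : Module.Dual (ZMod p) U) (m : Module.Dual (ZMod p) V)
    (h : H) : Prop := FixL ρU l h ∧ ∀ v ∈ Rad β l, m (ρV h v) = m v

/-- Case Y: a form `l` whose radical contains the summands outside `I` and meets the summands in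
`I`. -/
def CY (β : V →ₗ[ZMod p] V →ₗ[ZMod p] U) {n : ℕ} {F : Fin n → Fam p H}
    (em : ∀ i, (F i).X →ₗ[ZMod p] Module.Dual (ZMod p) V) : Prop :=
  ∃ l : Module.Dual (ZMod p) U, l ≠ 0 ∧ ∃ I : Finset (Fin n),
    (∀ i ∈ I, Subsingleton (F i).J ∧ Abq (F i).ρ (F i).W (F i).UU) ∧
    (∀ x ∈ Cs em I, ∀ y, β x y = 0) ∧ ∀ i ∈ I, ∃ w ∈ Vs em i, w ≠ 0 ∧ w ∈ Rad β l

/-- The prime `r` is not covered by `l`, `m` and the `v i j`. -/
def Bad (ρV : Representation (ZMod p) H V) (ρU : Representation (ZMod p) H U)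
    (β : V →ₗ[ZMod p] V →ₗ[ZMod p] U) (A : Subgroup H) {n : ℕ} (F : Fin n → Fam p H)
    (Δ : ∀ i, Finset (F i).J) (v : ∀ i, (F i).J → (F i).X) (l : Module.Dual (ZMod p) U)
    (m : Module.Dual (ZMod p) V) (r : ℕ) : Prop :=
  (∃ R : Sylow r H, ∀ x ∈ (R : Subgroup H), Fx2 ρV ρU β l m x) ∧
    (∀ i, ∀ j ∈ Δ i, ∃ R : Sylow r H, ∀ x ∈ (R : Subgroup H), (F i).ρ x (v i j) = v i j) ∧
    (∀ c ∈ cm A r, Fx2 ρV ρU β l m c → ∀ i, ∀ j ∈ Δ i, (F i).ρ c (v i j) = v i j) ∧
    ∀ x : ∀ i, (F i).J → H, (∀ i j, x i j ∈ cm A r) →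
      ∃ y ∈ cm A r, ∀ i, ∀ j ∈ Δ i, (F i).ρ ((x i j)⁻¹ * y) (v i j) = v i j

/-- What one knows about a bad prime `r`. -/
structure Anl (ρU : Representation (ZMod p) H U) (A : Subgroup H) {n : ℕ} (F : Fin n → Fam p H)
    (l : Module.Dual (ZMod p) U) (r : ℕ) (I : Finset (Fin n)) : Prop where
  hI : ∀ i, i ∈ I ↔ ∃ c ∈ cm A r, ∃ x, (F i).ρ c x ≠ x
  one : ∀ i ∈ I, Subsingleton (F i).J
  full : ∀ i ∈ I, Full (F i).ρ (cm A r)
  cyc : IsCyclic (cm A r)
  fpf : ∀ c ∈ cm A r, ∀ u, u ≠ 0 → ρU c u = u → c = 1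
  srj : ∀ x : Fin n → H, (∀ i, x i ∈ cm A r) →
    ∃ y ∈ cm A r, ∀ i ∈ I, ∀ z, (F i).ρ ((x i)⁻¹ * y) z = z
  size : ∀ c ∈ cm A r, c ^ Nat.card (Orb ρU (cm A r) l) = c
  fix : ∃ R : Sylow r H, ∀ x ∈ (R : Subgroup H), FixL ρU l x
  out : ∀ i, i ∉ I → ∀ R : Sylow r H, ∀ y ∈ (R : Subgroup H), ∀ x, (F i).ρ y x = x

/-- The module `F i` has one block, is semilinear, and the radical of `l` is large in `Vs em i`. -/
def Spc {n : ℕ} {F : Fin n → Fam p H} (em : ∀ i, (F i).X →ₗ[ZMod p] Module.Dual (ZMod p) V)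
    (β : V →ₗ[ZMod p] V →ₗ[ZMod p] U) (l : Module.Dual (ZMod p) U) (i : Fin n) : Prop :=
  Subsingleton (F i).J ∧ Abq (F i).ρ (F i).W (F i).UU ∧ (∃ v ∈ Vs em i, v ∉ Rad β l) ∧
    Nat.card {x : (F i).X // ∀ v ∈ Rad β l, v ∈ Vs em i → em i x v = 0} ^ 3 ≤
      Nat.card (F i).X

end

section
variable {p : ℕ} [Fact p.Prime] {H V U : Type} [Group H] [Finite H] [AddCommGroup V]
  [Module (ZMod p) V] [Finite V] [AddCommGroup U] [Module (ZMod p) U] [Finite U]
  {ρV : Representation (ZMod p) H V} {ρU : Representation (ZMod p) H U}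
  {β : V →ₗ[ZMod p] V →ₗ[ZMod p] U} {A : Subgroup H} {B : Set ℕ} {n : ℕ} {F : Fin n → Fam p H}
  {em : ∀ i, (F i).X →ₗ[ZMod p] Module.Dual (ZMod p) V}

-- BEGIN lc1
private theorem lc1_k0 (h : LS ρV ρU β A B F em) (v : V) (hv : ∀ i x, em i x v = 0) : v = 0 := by
  have hle : (⨆ i, LinearMap.range (em i)) ≤ LinearMap.ker (Module.Dual.eval (ZMod p) V v) := by
    refine iSup_le fun i => ?_
    rintro _ ⟨x, rfl⟩
    rw [LinearMap.mem_ker, Module.Dual.eval_apply]
    exact hv i x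
  rw [h.sup] at hle
  have hall : ∀ f : Module.Dual (ZMod p) V, f v = 0 := by
    intro f
    have := hle (Submodule.mem_top (x := f))
    rwa [LinearMap.mem_ker, Module.Dual.eval_apply] at this
  exact (Module.forall_dual_apply_eq_zero_iff (ZMod p) v).1 hall

private noncomputable def lc1_L (em : ∀ i, (F i).X →ₗ[ZMod p] Module.Dual (ZMod p) V) :
    (∀ i, (F i).X) →ₗ[ZMod p] Module.Dual (ZMod p) V :=
  ∑ i, (em i) ∘ₗ (LinearMap.proj i : (∀ i, (F i).X) →ₗ[ZMod p] (F i).X)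

private theorem lc1_L_apply (em : ∀ i, (F i).X →ₗ[ZMod p] Module.Dual (ZMod p) V)
    (x : ∀ i, (F i).X) : lc1_L em x = ∑ i, em i (x i) := by
  simp [lc1_L, LinearMap.sum_apply]

private theorem lc1_L_single (em : ∀ i, (F i).X →ₗ[ZMod p] Module.Dual (ZMod p) V)
    (i : Fin n) (x : (F i).X) : lc1_L em (Pi.single i x) = em i x := by
  rw [lc1_L_apply, Finset.sum_eq_single i]
  · rw [Pi.single_eq_same]
  · intro j _ hj
    rw [Pi.single_eq_of_ne hj, map_zero]
  · intro hi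
    exact absurd (Finset.mem_univ i) hi

private theorem lc1_L_bij (h : LS ρV ρU β A B F em) : Function.Bijective (lc1_L em) := by
  constructor
  · rw [← LinearMap.ker_eq_bot, LinearMap.ker_eq_bot']
    intro x hx
    rw [lc1_L_apply] at hx
    funext i
    have hd := h.ind i
    have hmem : em i (x i) ∈ ⨆ j, ⨆ (_ : j ≠ i), LinearMap.range (em j) := by
      have heq : em i (x i) = - ∑ j ∈ Finset.univ.erase i, em j (x j) := by
        rw [← Finset.add_sum_erase Finset.univ (fun j => em j (x j)) (Finset.mem_univ i)] at hx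
        exact eq_neg_of_add_eq_zero_left hx
      rw [heq]
      refine Submodule.neg_mem _ (Submodule.sum_mem _ fun j hj => ?_)
      have hji : j ≠ i := (Finset.mem_erase.1 hj).1
      exact (le_iSup₂ (f := fun j (_ : j ≠ i) => LinearMap.range (em j)) j hji) ⟨x j, rfl⟩
    have h0 : em i (x i) = 0 := by
      have := (Submodule.disjoint_def.1 hd) (em i (x i)) ⟨x i, rfl⟩ hmem
      exact this
    exact h.inj i (by rw [h0, Pi.zero_apply, map_zero])
  · rw [← LinearMap.range_eq_top]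
    rw [eq_top_iff, ← h.sup]
    refine iSup_le fun i => ?_
    rintro _ ⟨x, rfl⟩
    exact ⟨Pi.single i x, lc1_L_single em i x⟩

private theorem lc1_dec (h : LS ρV ρU β A B F em) (v : V) :
    ∃ w : Fin n → V, (∀ i, w i ∈ Vs em i) ∧ ∑ i, w i = v := by
  classical
  let E : (∀ i, (F i).X) ≃ₗ[ZMod p] Module.Dual (ZMod p) V :=
    LinearEquiv.ofBijective (lc1_L em) (lc1_L_bij h)
  have hE : ∀ i (x : (F i).X), E.symm (em i x) = Pi.single i x := by
    intro i x
    rw [LinearEquiv.symm_apply_eq]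
    exact (lc1_L_single em i x).symm
  haveI : Module.Finite (ZMod p) V := Module.Finite.of_finite
  let w : Fin n → V := fun i => (Module.evalEquiv (ZMod p) V).symm
    ((Module.Dual.eval (ZMod p) V v) ∘ₗ (em i) ∘ₗ
      (LinearMap.proj i : (∀ i, (F i).X) →ₗ[ZMod p] (F i).X) ∘ₗ E.symm.toLinearMap)
  have hw : ∀ i (f : Module.Dual (ZMod p) V), f (w i) = em i (E.symm f i) v := by
    intro i f
    simp only [w]
    rw [Module.apply_evalEquiv_symm_apply]
    rfl
  refine ⟨w, ?_, ?_⟩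
  · intro i i' hi x
    show em i' x (w i) = 0
    rw [hw, hE, Pi.single_eq_of_ne (Ne.symm hi), map_zero]
    rfl
  · have hall : ∀ f : Module.Dual (ZMod p) V, f (∑ i, w i - v) = 0 := by
      intro f
      rw [map_sub, map_sum]
      simp only [hw]
      have h1 : f = ∑ i, em i (E.symm f i) := by
        have := E.apply_symm_apply f
        rw [← lc1_L_apply]
        exact this.symm
      have h2 : ∑ i, (em i (E.symm f i)) v = f v := by
        rw [← LinearMap.sum_apply, ← h1]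
      rw [h2, sub_self]
    exact sub_eq_zero.1 ((Module.forall_dual_apply_eq_zero_iff (ZMod p) _).1 hall)

/-- (lc1, size 4) Duality. PROOF. The dual of `V` is the direct sum of the ranges of the `em i`; for `v ∈ V` and `i` the functional
`f ↦ (component of f in range (em i)) v` on `Dual V` is evaluation at some `v_i ∈ V` (finite dimension), `v = ∑ v_i`, `v_i ∈ Vs em i`.
The restriction `range (em i) → Dual (Vs em i)` is bijective. `Ivt`: `eqv`. The last parts: an `N`-invariant `W' ≤ Vs em i` has the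
`N`-invariant annihilator in `(F i).X`, and conversely. -/
theorem vs_dec (h : LS ρV ρU β A B F em) :
    (∀ i, Ivt ρV ⊤ (Vs em i)) ∧ iSupIndep (Vs em) ∧ ⨆ i, Vs em i = ⊤ ∧
      (∀ i, Nat.card (Vs em i) = Nat.card (F i).X) ∧
      (∀ i, ∀ x : (F i).X, (∀ v ∈ Vs em i, em i x v = 0) → x = 0) ∧
      (∀ i, ∀ f : Module.Dual (ZMod p) V, ∃ x : (F i).X, ∀ v ∈ Vs em i, em i x v = f v) ∧
      (∀ i g, (∀ x, (F i).ρ g x = x) ↔ ∀ v ∈ Vs em i, ρV g v = v) ∧
      (∀ I : Finset (Fin n), Cs em I ⊔ ⨆ i ∈ I, Vs em i = ⊤) ∧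
      (∀ I : Finset (Fin n), ∀ i, i ∉ I → Vs em i ≤ Cs em I) ∧
      (∀ I : Finset (Fin n), Ivt ρV ⊤ (Cs em I)) := by
  classical
  have heqv : ∀ i g x v, em i x (ρV g v) = em i ((F i).ρ g⁻¹ x) v := by
    intro i g x v
    have := h.eqv i g⁻¹ x v
    rw [inv_inv] at this
    exact this.symm
  have hsup : ⨆ i, Vs em i = ⊤ := by
    rw [eq_top_iff]
    intro v _
    obtain ⟨w, hw, rfl⟩ := lc1_dec h v
    exact Submodule.sum_mem _ fun i _ => (le_iSup (Vs em) i) (hw i)
  have h5 : ∀ i, ∀ x : (F i).X, (∀ v ∈ Vs em i, em i x v = 0) → x = 0 := by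
    intro i x hx
    have hle : (⨆ j, Vs em j) ≤ LinearMap.ker (em i x) := by
      refine iSup_le fun j v hv => ?_
      rw [LinearMap.mem_ker]
      by_cases hj : j = i
      · subst hj
        exact hx v hv
      · exact hv i (Ne.symm hj) x
    rw [hsup] at hle
    apply h.inj i
    rw [map_zero]
    ext v
    have := hle (Submodule.mem_top (x := v))
    rwa [LinearMap.mem_ker] at this
  have h6 : ∀ i, ∀ f : Module.Dual (ZMod p) V, ∃ x : (F i).X, ∀ v ∈ Vs em i, em i x v = f v := by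
    intro i f
    obtain ⟨x, hx⟩ := (lc1_L_bij h).2 f
    refine ⟨x i, fun v hv => ?_⟩
    rw [← hx, lc1_L_apply, LinearMap.sum_apply, Finset.sum_eq_single i]
    · intro j _ hj
      exact hv j hj (x j)
    · intro hi
      exact absurd (Finset.mem_univ i) hi
  have h9 : ∀ I : Finset (Fin n), ∀ i, i ∉ I → Vs em i ≤ Cs em I := by
    intro I i hi v hv i' hi' x
    exact hv i' (fun hc => hi (hc ▸ hi')) x
  refine ⟨?_, ?_, hsup, ?_, h5, h6, ?_, ?_, h9, ?_⟩
  · intro i g _ v hv i' hi' x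
    rw [heqv]
    exact hv i' hi' _
  · intro i
    rw [Submodule.disjoint_def]
    intro v hv hv'
    refine lc1_k0 h v fun j x => ?_
    by_cases hj : j = i
    · subst hj
      have hle : (⨆ k, ⨆ (_ : k ≠ j), Vs em k) ≤ LinearMap.ker (em j x) := by
        refine iSup₂_le fun k hk u hu => ?_
        rw [LinearMap.mem_ker]
        exact hu j (Ne.symm hk) x
      have := hle hv'
      rwa [LinearMap.mem_ker] at this
    · exact hv j hj x
  · intro i
    haveI : Module.Finite (ZMod p) V := Module.Finite.of_finite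
    have hcd : Nat.card (Module.Dual (ZMod p) (Vs em i)) = Nat.card (Vs em i) := by
      rw [Module.natCard_eq_pow_finrank (K := ZMod p), Module.natCard_eq_pow_finrank (K := ZMod p)
        (V := Vs em i), Subspace.dual_finrank_eq]
    rw [← hcd]
    symm
    let g : (F i).X →ₗ[ZMod p] Module.Dual (ZMod p) (Vs em i) :=
      (Submodule.dualRestrict (Vs em i)) ∘ₗ (em i)
    have hg : ∀ x v, g x v = em i x v := fun x v => rfl
    refine Nat.card_congr (Equiv.ofBijective g ⟨?_, ?_⟩)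
    · rw [← LinearMap.ker_eq_bot, LinearMap.ker_eq_bot']
      intro x hx
      refine h5 i x fun v hv => ?_
      have := LinearMap.congr_fun hx ⟨v, hv⟩
      rwa [hg] at this
    · intro f
      obtain ⟨f', hf'⟩ := Subspace.dualRestrict_surjective (W := Vs em i) f
      obtain ⟨x, hx⟩ := h6 i f'
      refine ⟨x, ?_⟩
      ext v
      rw [hg, hx v v.2, ← hf']
      rfl
  · intro i g
    constructor
    · intro hx v hv
      rw [← sub_eq_zero]
      refine lc1_k0 h _ fun j x => ?_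
      rw [map_sub, heqv, sub_eq_zero]
      by_cases hj : j = i
      · subst hj
        have : (F j).ρ g⁻¹ x = x := by
          conv_lhs => rw [← hx x]
          rw [← Module.End.mul_apply, ← map_mul, inv_mul_cancel, map_one, Module.End.one_apply]
        rw [this]
      · rw [hv j hj, hv j hj]
    · intro hv x
      rw [← sub_eq_zero]
      refine h5 i _ fun v hv' => ?_
      have h1 : ρV g⁻¹ v = v := by
        conv_lhs => rw [← hv v hv']
        rw [← Module.End.mul_apply, ← map_mul, inv_mul_cancel, map_one, Module.End.one_apply]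
      rw [map_sub, LinearMap.sub_apply, h.eqv, h1, sub_self]
  · intro I
    rw [eq_top_iff, ← hsup]
    refine iSup_le fun i => ?_
    by_cases hi : i ∈ I
    · exact le_trans (le_iSup₂ (f := fun i (_ : i ∈ I) => Vs em i) i hi) le_sup_right
    · exact le_trans (h9 I i hi) le_sup_left
  · intro I g _ v hv i hi x
    rw [heqv]
    exact hv i hi _
-- END lc1

-- BEGIN lc2
/-- (lc2, size 3) PROOF. `vs_dec`: annihilators of subspaces; `FullS ρV (Vs em i) N` is `Full` for the dual module. -/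
theorem vs_full (h : LS ρV ρU β A B F em) (i : Fin n) (N : Subgroup H) :
    (Irrd (F i).ρ N → ∀ W' ≤ Vs em i, Ivt ρV N W' → W' = ⊥ ∨ W' = Vs em i) ∧
      (Full (F i).ρ N → FullS ρV (Vs em i) N) := by
  obtain ⟨-, -, -, hcard, -, hext, htriv, -, -, -⟩ := vs_dec h
  have hzero : ∀ v : V, (∀ i' x, em i' x v = 0) → v = 0 := by
    intro v hv
    have hle : (⨆ i', LinearMap.range (em i')) ≤
        LinearMap.ker (Module.Dual.eval (ZMod p) V v) := by
      refine iSup_le fun i' => ?_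
      rintro _ ⟨x, rfl⟩
      rw [LinearMap.mem_ker, Module.Dual.eval_apply]
      exact hv i' x
    rw [h.sup] at hle
    have hall : ∀ f : Module.Dual (ZMod p) V, f v = 0 := by
      intro f
      have hf := hle (Submodule.mem_top (x := f))
      rwa [LinearMap.mem_ker, Module.Dual.eval_apply] at hf
    exact (Module.forall_dual_apply_eq_zero_iff (ZMod p) v).1 hall
  have main : Irrd (F i).ρ N → ∀ W' ≤ Vs em i, Ivt ρV N W' → W' = ⊥ ∨ W' = Vs em i := by
    intro hirr W' hW' hinv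
    let Y : Submodule (ZMod p) (F i).X :=
      { carrier := {x | ∀ v ∈ W', em i x v = 0}
        zero_mem' := by
          intro v _
          rw [map_zero, LinearMap.zero_apply]
        add_mem' := by
          intro a b ha hb v hv
          rw [map_add, LinearMap.add_apply, ha v hv, hb v hv, add_zero]
        smul_mem' := by
          intro c a ha v hv
          rw [map_smul, LinearMap.smul_apply, ha v hv, smul_zero] }
    have hY : ∀ x : (F i).X, x ∈ Y ↔ ∀ v ∈ W', em i x v = 0 := fun x => Iff.rfl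
    have hYinv : ∀ g ∈ N, ∀ x ∈ Y, (F i).ρ g x ∈ Y := by
      intro g hg x hx
      rw [hY]
      intro v hv
      rw [h.eqv i g x v]
      exact (hY x).1 hx _ (hinv g⁻¹ (N.inv_mem hg) v hv)
    rcases hirr Y hYinv with hb | ht
    · right
      refine le_antisymm hW' ?_
      intro v₀ hv₀
      by_contra hn
      obtain ⟨f, hf, hf0⟩ := Submodule.exists_le_ker_of_notMem hn
      obtain ⟨x, hx⟩ := hext i f
      have hxY : x ∈ Y := by
        rw [hY]
        intro v hv
        rw [hx v (hW' hv)]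
        exact hf0 hv
      rw [hb, Submodule.mem_bot] at hxY
      apply hf
      rw [← hx v₀ hv₀, hxY, map_zero, LinearMap.zero_apply]
    · left
      rw [Submodule.eq_bot_iff]
      intro v hv
      refine hzero v fun i' x => ?_
      by_cases hi : i' = i
      · subst hi
        have hx : x ∈ Y := by
          rw [ht]
          exact Submodule.mem_top
        exact (hY x).1 hx v hv
      · exact hW' hv i' hi x
  refine ⟨main, ?_⟩
  rintro ⟨hirr, m, t, hm, ht, hc, hk⟩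
  refine ⟨main hirr, m, t, hm, ht, ?_, ?_⟩
  · rw [hcard i, hc]
  · rw [hk]
    have he : Nat.card {c : N // ∀ x : (F i).X, (F i).ρ (c : H) x = x} =
        Nat.card {c : N // ∀ w ∈ Vs em i, ρV (c : H) w = w} :=
      Nat.card_congr (Equiv.subtypeEquivRight fun c => htriv i (c : H))
    rw [he]
-- END lc2

-- BEGIN lc3
private theorem lc3_A (h : LS ρV ρU β A B F em) (i : Fin n) (j : (F i).J) (a : H) (ha : a ∈ A) :
    a ∈ (F i).UU j := by
  have h1 := h.Ale i ha
  exact (Subgroup.mem_iInf.1 h1) j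

private theorem lc3_W (h : LS ρV ρU β A B F em) (i : Fin n) (j : (F i).J) (a : H) (ha : a ∈ A)
    (x : (F i).X) (hx : x ∈ (F i).W j) : (F i).ρ a x ∈ (F i).W j := by
  have h1 := (F i).bs.uN j (lc3_A h i j a ha)
  rw [mem_Nm] at h1
  rw [← h1]
  exact Submodule.mem_map_of_mem hx

private theorem lc3_p (h : LS ρV ρU β A B F em) (K : Subgroup H) :
    ((Nat.card K : ℕ) : ZMod p) ≠ 0 := by
  intro hc
  rw [ZMod.natCast_eq_zero_iff] at hc
  exact h.ltg.pH (hc.trans (Subgroup.card_subgroup_dvd_card K))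

private theorem lc3_step (h : LS ρV ρU β A B F em) (T : Submodule (ZMod p) V)
    (hT : ∀ i (j : (F i).J) (w : V),
      (∀ a ∈ A, Tv (F i).ρ ((F i).W j) a → ρV a w = w) → w ∈ T)
    (S : Finset (Σ i, (F i).J)) :
    ∀ v : V, ∃ u : V, v - u ∈ T ∧ ∀ s ∈ S, ∀ x ∈ (F s.1).W s.2, em s.1 x u = 0 := by
  classical
  induction S using Finset.induction_on with
  | empty => intro v; exact ⟨v, by rw [sub_self]; exact T.zero_mem, by simp⟩
  | insert s S hs ih =>
    intro v
    obtain ⟨u, hu, hz⟩ := ih v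
    have hfin : Finite H := inferInstance
    let K : Subgroup H := A ⊓
      { carrier := {a | Tv (F s.1).ρ ((F s.1).W s.2) a}
        one_mem' := fun w _ => by rw [map_one]; rfl
        mul_mem' := fun {a b} ha hb w hw => by
          rw [map_mul]
          show (F s.1).ρ a ((F s.1).ρ b w) = w
          rw [hb w hw, ha w hw]
        inv_mem' := fun {a} ha w hw => by
          have h1 : (F s.1).ρ a⁻¹ ((F s.1).ρ a w) = w := by
            rw [← Module.End.mul_apply, ← map_mul, inv_mul_cancel, map_one]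
            rfl
          have h2 : (F s.1).ρ a w = w := ha w hw
          rw [h2] at h1
          exact h1 }
    have hK : ∀ a, a ∈ K ↔ a ∈ A ∧ Tv (F s.1).ρ ((F s.1).W s.2) a := fun a => Iff.rfl
    have hKf : Fintype K := Fintype.ofFinite K
    have hc : ((Nat.card K : ℕ) : ZMod p) ≠ 0 := lc3_p h K
    let e : V := ((Nat.card K : ℕ) : ZMod p)⁻¹ • ∑ a : K, ρV (a : H) u
    have he : e ∈ T := by
      refine hT s.1 s.2 e fun b hb hb' => ?_
      have hbK : b ∈ K := (hK b).2 ⟨hb, hb'⟩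
      show ρV b (_ • ∑ a : K, ρV (a : H) u) = _ • ∑ a : K, ρV (a : H) u
      rw [map_smul, map_sum]
      congr 1
      rw [← Equiv.sum_comp (Equiv.mulLeft (⟨b, hbK⟩ : K)) fun a : K => ρV (a : H) u]
      refine Finset.sum_congr rfl fun a _ => ?_
      rw [Equiv.coe_mulLeft, Subgroup.coe_mul, map_mul, Module.End.mul_apply]
    have hax : ∀ (a : H) (i : Fin n) (x : (F i).X) (v : V),
        em i x (ρV a v) = em i ((F i).ρ a⁻¹ x) v := by
      intro a i x v
      rw [h.eqv, inv_inv]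
    refine ⟨u - e, ?_, ?_⟩
    · have : v - (u - e) = (v - u) + e := by abel
      rw [this]
      exact T.add_mem hu he
    · intro t ht x hx
      have hexp : em t.1 x (u - e) = em t.1 x u -
          ((Nat.card K : ℕ) : ZMod p)⁻¹ • ∑ a : K, em t.1 x (ρV (a : H) u) := by
        show em t.1 x (u - _ • ∑ a : K, ρV (a : H) u) = _
        rw [map_sub, map_smul, map_sum]
      rw [hexp]
      by_cases hts : t = s
      · subst hts
        have h1 : ∀ a : K, em t.1 x (ρV (a : H) u) = em t.1 x u := by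
          intro a
          rw [hax]
          have h2 := (hK ((a : H)⁻¹)).1 (K.inv_mem a.2)
          rw [h2.2 x hx]
        rw [Finset.sum_congr rfl fun a _ => h1 a, Finset.sum_const, Finset.card_univ,
          ← Nat.card_eq_fintype_card, ← Nat.cast_smul_eq_nsmul (ZMod p), smul_smul,
          inv_mul_cancel₀ hc, one_smul, sub_self]
      · have ht' : t ∈ S := by
          rcases Finset.mem_insert.1 ht with h1 | h1
          · exact absurd h1 hts
          · exact h1
        have h1 : ∀ a : K, em t.1 x (ρV (a : H) u) = 0 := by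
          intro a
          rw [hax]
          exact hz t ht' _ (lc3_W h t.1 t.2 _ (A.inv_mem ((hK _).1 a.2).1) x hx)
        rw [Finset.sum_congr rfl fun a _ => h1 a, hz t ht' x hx]
        simp

private theorem lc3_top (h : LS ρV ρU β A B F em) (T : Submodule (ZMod p) V)
    (hT : ∀ i (j : (F i).J) (w : V),
      (∀ a ∈ A, Tv (F i).ρ ((F i).W j) a → ρV a w = w) → w ∈ T) (v : V) : v ∈ T := by
  classical
  have : Fintype (Σ i, (F i).J) := Fintype.ofFinite _
  obtain ⟨u, hu, hz⟩ := lc3_step h T hT Finset.univ v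
  have hu0 : u = 0 := by
    rw [← Module.forall_dual_apply_eq_zero_iff (ZMod p) u]
    intro f
    have hf : f ∈ ⨆ i, LinearMap.range (em i) := by rw [h.sup]; exact Submodule.mem_top
    have hle : (⨆ i, LinearMap.range (em i)) ≤
        LinearMap.ker (Module.Dual.eval (ZMod p) V u) := by
      refine iSup_le fun i => ?_
      rintro _ ⟨x, rfl⟩
      rw [LinearMap.mem_ker, Module.Dual.eval_apply]
      have hx : x ∈ ⨆ j, (F i).W j := by rw [(F i).bs.sup]; exact Submodule.mem_top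
      have hle' : (⨆ j, (F i).W j) ≤
          LinearMap.ker ((Module.Dual.eval (ZMod p) V u).comp (em i)) := by
        refine iSup_le fun j y hy => ?_
        rw [LinearMap.mem_ker, LinearMap.comp_apply, Module.Dual.eval_apply]
        exact hz ⟨i, j⟩ (Finset.mem_univ _) y hy
      have := hle' hx
      rwa [LinearMap.mem_ker, LinearMap.comp_apply, Module.Dual.eval_apply] at this
    have := hle hf
    rwa [LinearMap.mem_ker, Module.Dual.eval_apply] at this
  rw [hu0, sub_zero] at hu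
  exact hu

private theorem lc3_ex (h : LS ρV ρU β A B F em) :
    ∃ (i₀ : Fin n) (j₀ : (F i₀).J) (i₁ : Fin n) (j₁ : (F i₁).J) (w w' : V), β w w' ≠ 0 ∧
      (∀ a ∈ A, Tv (F i₀).ρ ((F i₀).W j₀) a → ρV a w = w) ∧
      ∀ a ∈ A, Tv (F i₁).ρ ((F i₁).W j₁) a → ρV a w' = w' := by
  by_contra hcon
  apply h.ltg.ne
  refine LinearMap.ext fun v => ?_
  have h1 : v ∈ LinearMap.ker β := by
    refine lc3_top h _ (fun i₀ j₀ w hw => ?_) v
    rw [LinearMap.mem_ker]
    refine LinearMap.ext fun v' => ?_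
    have h2 : v' ∈ LinearMap.ker (β w) := by
      refine lc3_top h _ (fun i₁ j₁ w' hw' => ?_) v'
      rw [LinearMap.mem_ker]
      by_contra hne
      exact hcon ⟨i₀, j₀, i₁, j₁, w, w', hne, hw, hw'⟩
    rw [LinearMap.mem_ker] at h2
    rw [h2, LinearMap.zero_apply]
  rw [LinearMap.mem_ker] at h1
  rw [h1, LinearMap.zero_apply]

private theorem lc3_min {D : Type} [AddCommGroup D] [Module (ZMod p) D]
    [Finite D] (P : Submodule (ZMod p) D → Prop) (h : ∃ M, P M) :
    ∃ M, P M ∧ ∀ M' ≤ M, P M' → M' = M := by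
  obtain ⟨M, hM, hmin⟩ := WellFounded.has_min (wellFounded_lt (α := Submodule (ZMod p) D)) {M | P M} h
  refine ⟨M, hM, fun M' hle hP => ?_⟩
  by_contra hne
  exact hmin M' hP (lt_of_le_of_ne hle hne)

private theorem lc3_fun (hpH : ¬ p ∣ Nat.card H) (hA : ∀ a ∈ A, ∀ b ∈ A, a * b = b * a)
    (K : Subgroup H) (hK : K ≤ A) (u : U) (hu : u ≠ 0) (hfix : ∀ a ∈ K, ρU a u = u) :
    ∃ l : Module.Dual (ZMod p) U, l ≠ 0 ∧ LIrr ρU A l ∧ ∀ a ∈ K, FixL ρU l a := by
  have hfin : Finite (Module.Dual (ZMod p) U) := DFunLike.finite _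
  have hKf : Fintype K := Fintype.ofFinite K
  obtain ⟨f, hf⟩ : ∃ l : Module.Dual (ZMod p) U, l u ≠ 0 := by
    by_contra hcon
    push Not at hcon
    exact hu ((Module.forall_dual_apply_eq_zero_iff (ZMod p) u).1 hcon)
  let D : Submodule (ZMod p) (Module.Dual (ZMod p) U) :=
    { carrier := {l | ∀ a ∈ K, FixL ρU l a}
      zero_mem' := fun a _ x => rfl
      add_mem' := fun {l m} hl hm a ha x => by
        rw [LinearMap.add_apply, LinearMap.add_apply, hl a ha x, hm a ha x]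
      smul_mem' := fun c l hl a ha x => by
        rw [LinearMap.smul_apply, LinearMap.smul_apply, hl a ha x] }
  have hD : ∀ l, l ∈ D ↔ ∀ a ∈ K, FixL ρU l a := fun l => Iff.rfl
  have hDinv : ∀ a ∈ A, ∀ l ∈ D, l ∘ₗ ρU a ∈ D := by
    intro a ha l hl b hb x
    rw [LinearMap.comp_apply, LinearMap.comp_apply, ← Module.End.mul_apply, ← map_mul,
      hA a ha b (hK hb), map_mul, Module.End.mul_apply]
    exact hl b hb _
  let g : Module.Dual (ZMod p) U := ∑ a : K, f ∘ₗ ρU (a : H)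
  have hgD : g ∈ D := by
    intro b hb x
    show (∑ a : K, f ∘ₗ ρU (a : H)) (ρU b x) = (∑ a : K, f ∘ₗ ρU (a : H)) x
    rw [LinearMap.sum_apply, LinearMap.sum_apply,
      ← Equiv.sum_comp (Equiv.mulRight (⟨b, hb⟩ : K)) fun a : K => (f ∘ₗ ρU (a : H)) x]
    refine Finset.sum_congr rfl fun a _ => ?_
    rw [Equiv.coe_mulRight, Subgroup.coe_mul, map_mul, LinearMap.comp_apply,
      LinearMap.comp_apply, Module.End.mul_apply]
  have hg0 : g ≠ 0 := by
    intro hg
    have h1 : g u = ((Nat.card K : ℕ) : ZMod p) * f u := by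
      show (∑ a : K, f ∘ₗ ρU (a : H)) u = _
      rw [LinearMap.sum_apply, Finset.sum_congr rfl fun (a : K) _ => show
        (f ∘ₗ ρU (a : H)) u = f u by rw [LinearMap.comp_apply, hfix a a.2], Finset.sum_const,
        Finset.card_univ, ← Nat.card_eq_fintype_card, nsmul_eq_mul]
    rw [hg, LinearMap.zero_apply] at h1
    rcases mul_eq_zero.1 h1.symm with h2 | h2
    · rw [ZMod.natCast_eq_zero_iff] at h2
      exact hpH (h2.trans (Subgroup.card_subgroup_dvd_card K))
    · exact hf h2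
  obtain ⟨M, ⟨hM1, hM2, hM3⟩, hmin⟩ := lc3_min (p := p)
    (fun M : Submodule (ZMod p) (Module.Dual (ZMod p) U) =>
      (∀ a ∈ A, ∀ f ∈ M, f ∘ₗ ρU a ∈ M) ∧ M ≠ ⊥ ∧ M ≤ D)
    ⟨D, hDinv, fun hb => hg0 (by
      have : g ∈ (⊥ : Submodule (ZMod p) (Module.Dual (ZMod p) U)) := hb ▸ hgD
      exact (Submodule.mem_bot _).1 this), le_refl _⟩
  obtain ⟨l, hl, hl'⟩ := M.ne_bot_iff.1 hM2
  refine ⟨l, hl', fun M' hM' hinv => ?_, hM3 hl⟩
  have hO : Orb ρU A l ≤ M := by
    refine Submodule.span_le.2 ?_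
    rintro f ⟨n, hn, rfl⟩
    exact hM1 n hn l hl
  by_cases hb : M' = ⊥
  · exact Or.inl hb
  · right
    have h1 := hmin M' (hM'.trans hO) ⟨hinv, hb, (hM'.trans hO).trans hM3⟩
    exact le_antisymm hM' (h1 ▸ hO)

/-- (lc3, size 4) The functional `l`. PROOF. For a block `j` of `F i` let `Wd i j ≤ V` be the set of the `v ∈ Vs em i` with `em i x v = 0` for all `x` in the other blocks of
`F i`. `V` is the sum of all the `Wd i j` (as in `vs_dec`), so `β (w, w') ≠ 0` for some `w ∈ Wd i₀ j₀`, `w' ∈ Wd i₁ j₁` (`β ≠ 0`). An `a ∈ A` (it fixes all blocks) with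
`Tv (W j₀) a` fixes all `w ∈ Wd i₀ j₀` (all functionals take the same value on `a w` and `w`). So `A₀ = {a ∈ A | Tv (W j₀) a, Tv (W j₁) a}` fixes the vector
`β (w, w') ≠ 0` of `U`. As `p` does not divide `card H`, `A₀` fixes a functional `≠ 0` on `U` (average of a functional which is not zero on
`β (w, w')`). The functionals which are fixed by `A₀` form an `A`-invariant subspace; take `l ≠ 0` in a minimal nonzero `A`-invariant subspace of it (compare `la_l`, `la_min`
in Nan/La.lean). -/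
theorem ch_l (h : LS ρV ρU β A B F em) :
    ∃ (i₀ : Fin n) (j₀ : (F i₀).J) (i₁ : Fin n) (j₁ : (F i₁).J) (l : Module.Dual (ZMod p) U),
      l ≠ 0 ∧ LIrr ρU A l ∧ ∀ a ∈ A, Tv (F i₀).ρ ((F i₀).W j₀) a → Tv (F i₁).ρ ((F i₁).W j₁) a →
        FixL ρU l a := by
  obtain ⟨i₀, j₀, i₁, j₁, w, w', hne, hw, hw'⟩ := lc3_ex h
  let K : Subgroup H := A ⊓
    { carrier := {a | ρV a w = w ∧ ρV a w' = w'}
      one_mem' := ⟨by rw [map_one]; rfl, by rw [map_one]; rfl⟩
      mul_mem' := fun {a b} ha hb =>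
        ⟨by rw [map_mul, Module.End.mul_apply, hb.1, ha.1],
          by rw [map_mul, Module.End.mul_apply, hb.2, ha.2]⟩
      inv_mem' := fun {a} ha => by
        have h1 : ∀ v, ρV a v = v → ρV a⁻¹ v = v := by
          intro v hv
          have h2 : ρV a⁻¹ (ρV a v) = v := by
            rw [← Module.End.mul_apply, ← map_mul, inv_mul_cancel, map_one]
            rfl
          rwa [hv] at h2
        exact ⟨h1 _ ha.1, h1 _ ha.2⟩ }
  obtain ⟨l, hl0, hli, hl⟩ := lc3_fun (ρU := ρU) (A := A) h.ltg.pH h.ab.com K inf_le_left (β w w')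
    hne (by
      intro a ha
      have h2 : ρV a w = w ∧ ρV a w' = w' := ha.2
      rw [← h.ltg.eqv, h2.1, h2.2])
  exact ⟨i₀, j₀, i₁, j₁, l, hl0, hli, fun a ha h1 h2 =>
    hl a ⟨ha, hw a ha h1, hw' a ha h2⟩⟩
-- END lc3

-- BEGIN lc5
private theorem lc5_invA (l : Module.Dual (ZMod p) U) (a : H) (ha : a ∈ A)
    (f : Module.Dual (ZMod p) U) (hf : f ∈ Orb ρU A l) : f ∘ₗ ρU a ∈ Orb ρU A l := by
  refine Submodule.span_induction (p := fun f _ => f ∘ₗ ρU a ∈ Orb ρU A l) ?_ ?_ ?_ ?_ hf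
  · rintro f ⟨n, hn, rfl⟩
    refine Submodule.subset_span ⟨n * a, A.mul_mem hn ha, ?_⟩
    rw [map_mul]
    rfl
  · rw [LinearMap.zero_comp]
    exact Submodule.zero_mem _
  · intro x y _ _ hx hy
    rw [LinearMap.add_comp]
    exact Submodule.add_mem _ hx hy
  · intro c x _ hx
    rw [LinearMap.smul_comp]
    exact Submodule.smul_mem _ _ hx

private def lc5_map (ρU : Representation (ZMod p) H U) (l : Module.Dual (ZMod p) U) (a : H)
    (ha : a ∈ A) : Orb ρU A l →ₗ[ZMod p] Orb ρU A l where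
  toFun f := ⟨f.1 ∘ₗ ρU a, lc5_invA l a ha f.1 f.2⟩
  map_add' f g := Subtype.ext (LinearMap.add_comp _ _ _)
  map_smul' c f := Subtype.ext (LinearMap.smul_comp _ _ _)

private def lc5_rep (ρU : Representation (ZMod p) H U) (hA : Ab A) (l : Module.Dual (ZMod p) U) :
    Representation (ZMod p) A (Orb ρU A l) where
  toFun a := lc5_map ρU l a a.2
  map_one' := LinearMap.ext fun f => Subtype.ext (by
    show (f.1 : Module.Dual (ZMod p) U) ∘ₗ ρU ((1 : A) : H) = f.1
    rw [Subgroup.coe_one, map_one]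
    rfl)
  map_mul' a b := by
    refine LinearMap.ext fun f => Subtype.ext ?_
    show (f : Module.Dual (ZMod p) U) ∘ₗ ρU ((a : H) * b) = (f.1 ∘ₗ ρU (b : H)) ∘ₗ ρU (a : H)
    rw [hA.com _ a.2 _ b.2, map_mul]
    rfl

private theorem lc5_irr (hA : Ab A) (l : Module.Dual (ZMod p) U) (hirr : LIrr ρU A l) :
    Irrd (lc5_rep ρU hA l) ⊤ := by
  intro W hW
  have h1 := hirr (W.map (Orb ρU A l).subtype) (Submodule.map_subtype_le _ _) (by
    rintro a ha _ ⟨f, hf, rfl⟩
    exact ⟨lc5_rep ρU hA l ⟨a, ha⟩ f, hW ⟨a, ha⟩ (Subgroup.mem_top _) f hf, rfl⟩)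
  rcases h1 with h1 | h1
  · left
    rw [eq_bot_iff]
    intro f hf
    have h2 : (f : Module.Dual (ZMod p) U) ∈ W.map (Orb ρU A l).subtype := ⟨f, hf, rfl⟩
    rw [h1, Submodule.mem_bot] at h2
    exact (Submodule.mem_bot _).2 (Subtype.ext h2)
  · right
    rw [eq_top_iff]
    rintro f -
    have h2 : (f : Module.Dual (ZMod p) U) ∈ W.map (Orb ρU A l).subtype := by
      rw [h1]
      exact f.2
    obtain ⟨g, hg, hgf⟩ := h2
    have h3 : g = f := Subtype.ext hgf
    rwa [← h3]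

private theorem lc5_mem (l : Module.Dual (ZMod p) U) : l ∈ Orb ρU A l := by
  refine Submodule.subset_span ⟨1, A.one_mem, ?_⟩
  rw [map_one]
  rfl

/-- An element of `A` which fixes `l` is trivial on the span of the orbit. -/
private theorem lc5_triv (hA : Ab A) (l : Module.Dual (ZMod p) U) (a : H) (ha : a ∈ A)
    (hl : FixL ρU l a) (f : Module.Dual (ZMod p) U) (hf : f ∈ Orb ρU A l) : f ∘ₗ ρU a = f := by
  refine Submodule.span_induction (p := fun f _ => f ∘ₗ ρU a = f) ?_ ?_ ?_ ?_ hf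
  · rintro f ⟨n, hn, rfl⟩
    apply LinearMap.ext
    intro u
    show l (ρU n (ρU a u)) = l (ρU n u)
    have h1 : ρU n (ρU a u) = ρU a (ρU n u) := by
      rw [← Module.End.mul_apply, ← map_mul, hA.com n hn a ha, map_mul, Module.End.mul_apply]
    rw [h1]
    exact hl _
  · exact LinearMap.zero_comp _
  · intro x y _ _ hx hy
    rw [LinearMap.add_comp, hx, hy]
  · intro c x _ hx
    rw [LinearMap.smul_comp, hx]

/-- Two elements of order `q` on the span of the orbit. -/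
private theorem lc5_q (hA : Ab A) (l : Module.Dual (ZMod p) U) (hl0 : l ≠ 0)
    (hirr : LIrr ρU A l) (q : ℕ) (hq : q.Prime) (y₁ y₂ : H) (h1 : y₁ ∈ A) (h2 : y₂ ∈ A)
    (hf1 : FixL ρU l (y₁ ^ q)) (hf2 : FixL ρU l (y₂ ^ q)) (hn : ¬ FixL ρU l y₁) :
    ∃ a : ℕ, FixL ρU l ((y₁ ^ a)⁻¹ * y₂) := by
  haveI : Finite (Module.Dual (ZMod p) U) := DFunLike.finite _
  haveI : Nontrivial (Orb ρU A l) :=
    ⟨⟨⟨l, lc5_mem l⟩, 0, fun h => hl0 (congrArg Subtype.val h)⟩⟩
  obtain ⟨K, iK, fK, cK, χ, e, he, -⟩ := irf (lc5_rep ρU hA l) (fun a b y => by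
    apply Subtype.ext
    show (y.1 ∘ₗ ρU (b : H)) ∘ₗ ρU (a : H) = (y.1 ∘ₗ ρU (a : H)) ∘ₗ ρU (b : H)
    rw [LinearMap.comp_assoc, LinearMap.comp_assoc]
    congr 1
    show ρU (b : H) * ρU (a : H) = ρU (a : H) * ρU (b : H)
    rw [← map_mul, ← map_mul, hA.com _ a.2 _ b.2]) (lc5_irr hA l hirr)
  have hel : e ⟨l, lc5_mem l⟩ ≠ 0 := by
    intro h
    have h3 : (⟨l, lc5_mem l⟩ : Orb ρU A l) = 0 := by
      rw [← e.map_eq_zero_iff]
      exact h
    exact hl0 (congrArg Subtype.val h3)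
  have hfx : ∀ a : A, FixL ρU l (a : H) ↔ χ a = 1 := by
    intro a
    constructor
    · intro hf
      have h3 := he a ⟨l, lc5_mem l⟩
      have h4 : lc5_rep ρU hA l a ⟨l, lc5_mem l⟩ = ⟨l, lc5_mem l⟩ := by
        apply Subtype.ext
        show l ∘ₗ ρU (a : H) = l
        exact lc5_triv hA l a a.2 hf l (lc5_mem l)
      rw [h4] at h3
      apply Units.ext
      have h5 : ((χ a : Kˣ) : K) * e ⟨l, lc5_mem l⟩ = 1 * e ⟨l, lc5_mem l⟩ := by
        rw [one_mul]
        exact h3.symm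
      exact mul_right_cancel₀ hel h5
    · intro hc u
      have h3 := he a ⟨l, lc5_mem l⟩
      rw [hc, Units.val_one, one_mul] at h3
      have h4 := e.injective h3
      have h5 := congrArg Subtype.val h4
      have h6 : l ∘ₗ ρU (a : H) = l := h5
      exact LinearMap.congr_fun h6 u
  have hc1 : (χ ⟨y₁, h1⟩) ^ q = 1 := by
    rw [← map_pow]
    exact (hfx _).1 hf1
  have hc2 : (χ ⟨y₂, h2⟩) ^ q = 1 := by
    rw [← map_pow]
    exact (hfx _).1 hf2
  have hc3 : χ ⟨y₁, h1⟩ ≠ 1 := fun h => hn ((hfx ⟨y₁, h1⟩).2 h)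
  have hpr : IsPrimitiveRoot (χ ⟨y₁, h1⟩) q := by
    have h3 := orderOf_eq_prime (hp := ⟨hq⟩) hc1 hc3
    rw [← h3]
    exact IsPrimitiveRoot.orderOf _
  haveI : NeZero q := ⟨hq.ne_zero⟩
  obtain ⟨a, -, ha⟩ := (IsPrimitiveRoot.coe_units_iff.2 hpr).eq_pow_of_pow_eq_one
    (ξ := ((χ ⟨y₂, h2⟩ : Kˣ) : K)) (by
      rw [← Units.val_pow_eq_pow_val, hc2, Units.val_one])
  refine ⟨a, ?_⟩
  have h4 : χ ((⟨y₁, h1⟩ ^ a)⁻¹ * ⟨y₂, h2⟩) = 1 := by
    rw [map_mul, map_inv, map_pow]
    have h5 : (χ ⟨y₁, h1⟩) ^ a = χ ⟨y₂, h2⟩ := by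
      apply Units.ext
      rw [Units.val_pow_eq_pow_val]
      exact ha
    rw [h5]
    exact inv_mul_cancel _
  exact (hfx _).2 h4

/-- Trivial action on `W j` in terms of the vector `v i j`. -/
private theorem lc5_tv (h : LS ρV ρU β A B F em) {Δ : ∀ i, Finset (F i).J}
    {v : ∀ i, (F i).J → (F i).X} (hc : Cho A B F Δ v) (d : H) (hd : d ∈ A) (i : Fin n)
    (j : (F i).J) (hf : (F i).ρ d (v i j) = v i j) : Tv (F i).ρ ((F i).W j) d := by
  have h1 : d ∈ (F i).UU j := (Subgroup.mem_iInf.1 (h.Ale i hd)) j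
  exact bs_fpf (F i).bs j d h1 (v i j) (hc.vW i j) (hc.v0 i j) hf

/-- `Tv` of a quotient. -/
private theorem lc5_eqw {X : Type} [AddCommGroup X] [Module (ZMod p) X]
    {ρ : Representation (ZMod p) H X} {W : Submodule (ZMod p) X} (a b : H)
    (ht : Tv ρ W (a⁻¹ * b)) (w : X) (hw : w ∈ W) : ρ b w = ρ a w := by
  have h1 := ht w hw
  rw [map_mul, Module.End.mul_apply] at h1
  have h2 := congrArg (ρ a) h1
  rw [← Module.End.mul_apply, ← map_mul, mul_inv_cancel, map_one, Module.End.one_apply] at h2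
  exact h2

private theorem lc5_powq {X : Type} [AddCommGroup X] [Module (ZMod p) X]
    {ρ : Representation (ZMod p) H X} {W : Submodule (ZMod p) X} (a b : H)
    (ha : a ∈ Nm ρ W) (ht : Tv ρ W (a⁻¹ * b)) (k : ℕ) :
    ∀ w ∈ W, ρ (b ^ k) w = ρ (a ^ k) w := by
  induction k with
  | zero =>
    intro w _
    rw [pow_zero, pow_zero]
  | succ k ih =>
    intro w hw
    rw [pow_succ, pow_succ, map_mul, map_mul, Module.End.mul_apply, Module.End.mul_apply,
      lc5_eqw a b ht w hw]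
    refine ih _ ?_
    have h1 : W.map (ρ a) = W := ha
    rw [← h1]
    exact Submodule.mem_map_of_mem hw

private theorem lc5_tvpow {X : Type} [AddCommGroup X] [Module (ZMod p) X]
    {ρ : Representation (ZMod p) H X} {W : Submodule (ZMod p) X} (a : H) (ha : Tv ρ W a)
    (k : ℕ) : Tv ρ W (a ^ k) := by
  intro w hw
  induction k with
  | zero => rw [pow_zero, map_one, Module.End.one_apply]
  | succ k ih => rw [pow_succ, map_mul, Module.End.mul_apply, ha w hw, ih]

/-- A non-trivial element has a power of prime order on `W`. -/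
private theorem lc5_prime {X : Type} [AddCommGroup X] [Module (ZMod p) X]
    {ρ : Representation (ZMod p) H X} {W : Submodule (ZMod p) X} (y : H) (hy : ¬ Tv ρ W y) :
    ∃ q : ℕ, q.Prime ∧ ∃ k : ℕ, ¬ Tv ρ W (y ^ k) ∧ Tv ρ W ((y ^ k) ^ q) := by
  classical
  have hex : ∃ m : ℕ, 0 < m ∧ Tv ρ W (y ^ m) := by
    refine ⟨orderOf y, orderOf_pos y, ?_⟩
    rw [pow_orderOf_eq_one]
    intro w _
    rw [map_one, Module.End.one_apply]
  set m := Nat.find hex with hm
  obtain ⟨h1, h2⟩ := Nat.find_spec hex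
  rw [← hm] at h1 h2
  have hm1 : m ≠ 1 := by
    intro h3
    rw [h3, pow_one] at h2
    exact hy h2
  obtain ⟨q, hq, hqm⟩ := Nat.exists_prime_and_dvd hm1
  obtain ⟨k, hk⟩ := hqm
  refine ⟨q, hq, k, fun h3 => ?_, ?_⟩
  · have hk0 : 0 < k := by
      rcases Nat.eq_zero_or_pos k with h4 | h4
      · rw [h4, mul_zero] at hk
        omega
      · exact h4
    have h4 : k < m := by
      rw [hk]
      exact (Nat.lt_mul_iff_one_lt_left hk0).2 hq.one_lt
    exact Nat.find_min hex h4 ⟨hk0, h3⟩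
  · rw [← pow_mul, mul_comm k q, ← hk]
    exact h2

/-- (lc5, size 5) Analysis of a bad prime. PROOF. `D = cm A r`, `θ = Orb ρU A l`. (1) If `(F i).J` has at least two elements then `D` is trivial on `(F i).X`: otherwise it is not trivial on any block (normal; the blocks
are conjugate). `j ≠ j'` in `Δ i`. Let `q` be a prime divisor of the order of the image of `D` on `W j` (the same for `W j'`). By the last part of `Bad` there are `y₁, y₂ ∈ D`: `y₁` acts on `W j` with order `q`, and trivially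
on the other blocks of `Δ` (all `i`), `y₂` the same for `j'` (an element of `D ≤ UU` which fixes `v i j` is trivial on `W j`: `bs_fpf`). `y₁ ^ q`, `y₂ ^ q` are trivial on all the blocks of `Δ`, so they fix `l`
(`hl`), so they act trivially on `θ`. `A` acts on `θ` irreducibly, so as a subgroup of the multiplicative group of a field (`irf`), where there are at most `q` elements with `z ^ q = 1`: so some
`y = y₁ ^ a y₂ ^ b`, `(a, b) ≠ (0, 0)` mod `q`, is trivial on `θ`, so it fixes `l`, so by the third part of `Bad` it fixes all `v i j`, so it is trivial on `W j`, `W j'`: contradiction. (2) If `c ∈ D` fixes `l`: it fixes all `v i j`, `j ∈ Δ i`, so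
it is trivial on `(F i).X` for all `i` (one block, or (1)), so on `V`, `c = 1`. `cyc`: `la_cyc`; `size`: `la_size`; `fpf`: `⟨c⟩` is normal (`cyc_nor`), `cycfixS` for `W = ⊤` (`U` irreducible). `full`: `Cho.full`, the first
alternative is impossible as `D = ⁅A, R⁆` is not trivial. `out`: `triv`. `srj`: last part of `Bad` and `bs_fpf`. -/
theorem ana (h : LS ρV ρU β A B F em) {Δ : ∀ i, Finset (F i).J}
    {v : ∀ i, (F i).J → (F i).X} (hc : Cho A B F Δ v) (l : Module.Dual (ZMod p) U) (hl0 : l ≠ 0)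
    (hli : LIrr ρU A l)
    (hl : ∀ a ∈ A, (∀ i, ∀ j ∈ Δ i, Tv (F i).ρ ((F i).W j) a) → FixL ρU l a) (r : ℕ) (hr : r ∈ B)
    (hD : cm A r ≠ ⊥) (hb : Bad ρV ρU β A F Δ v l 0 r) :
    ∃ I : Finset (Fin n), Anl ρU A F l r I := by
  classical
  obtain ⟨⟨R, hR⟩, hb2, hb3, hb4⟩ := hb
  have hDA : cm A r ≤ A := cm_le h.ab r
  have hDn : (cm A r).Normal := cm_nor h.ab r
  have hAR : AR A r := h.ar r hr
  -- the elements of `cm A r` which fix `l`
  have hfl : ∀ c ∈ cm A r, FixL ρU l c → ∀ i, ∀ j ∈ Δ i, Tv (F i).ρ ((F i).W j) c := by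
    intro c hcD hcl i j hj
    refine lc5_tv h hc c (hDA hcD) i j (hb3 c hcD ⟨hcl, fun v _ => ?_⟩ i j hj)
    rw [LinearMap.zero_apply, LinearMap.zero_apply]
  -- two blocks
  have htwo : ∀ i, Nontrivial (F i).J → ∀ c ∈ cm A r, ∀ x, (F i).ρ c x = x := by
    intro i hJ
    by_contra hcon
    push Not at hcon
    obtain ⟨c₀, hc₀, x₀, hx₀⟩ := hcon
    -- not trivial on any block
    have hnb : ∀ j, ∃ c ∈ cm A r, ¬ Tv (F i).ρ ((F i).W j) c := by
      intro j
      by_contra hcon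
      push Not at hcon
      have hall : ∀ j', ∀ w ∈ (F i).W j', (F i).ρ c₀ w = w := by
        intro j' w hw
        obtain ⟨g, hg⟩ := (F i).bs.tra j j'
        rw [← hg] at hw
        obtain ⟨w', hw', rfl⟩ := hw
        have h1 := hcon (g⁻¹ * c₀ * g) (by
          have h2 := hDn.conj_mem c₀ hc₀ g⁻¹
          rwa [inv_inv] at h2) w' hw'
        rw [← Module.End.mul_apply, ← map_mul]
        have h2 : c₀ * g = g * (g⁻¹ * c₀ * g) := by group
        rw [h2, map_mul, Module.End.mul_apply, h1]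
      have h2 : (⊤ : Submodule (ZMod p) (F i).X) ≤ LinearMap.eqLocus ((F i).ρ c₀) LinearMap.id := by
        rw [← (F i).bs.sup]
        refine iSup_le fun j' w hw => ?_
        exact hall j' w hw
      exact hx₀ (h2 (Submodule.mem_top (x := x₀)))
    have hcard : 1 < (Δ i).card := hc.two i hJ
    obtain ⟨j, hj, j', hj', hjj⟩ := Finset.one_lt_card.1 hcard
    obtain ⟨y, hyD, hyn⟩ := hnb j
    obtain ⟨q, hq, k, hk1, hk2⟩ := lc5_prime y hyn
    set z₁ := y ^ k with hz₁
    have hz₁D : z₁ ∈ cm A r := (cm A r).pow_mem hyD k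
    obtain ⟨g, hg⟩ := (F i).bs.tra j j'
    set z₂ := g * z₁ * g⁻¹ with hz₂
    have hz₂D : z₂ ∈ cm A r := hDn.conj_mem z₁ hz₁D g
    have hz₂n : ¬ Tv (F i).ρ ((F i).W j') z₂ := by
      intro ht
      apply hk1
      intro w hw
      have h1 := ht ((F i).ρ g w) (by
        rw [← hg]
        exact Submodule.mem_map_of_mem hw)
      rw [hz₂, ← Module.End.mul_apply, ← map_mul, inv_mul_cancel_right, map_mul,
        Module.End.mul_apply] at h1
      have h2 := congrArg ((F i).ρ g⁻¹) h1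
      rw [← Module.End.mul_apply, ← map_mul, inv_mul_cancel, map_one, Module.End.one_apply,
        ← Module.End.mul_apply, ← map_mul, inv_mul_cancel, map_one, Module.End.one_apply] at h2
      exact h2
    have hz₂q : Tv (F i).ρ ((F i).W j') (z₂ ^ q) := by
      intro w hw
      rw [← hg] at hw
      obtain ⟨w', hw', rfl⟩ := hw
      rw [hz₂, conj_pow, ← Module.End.mul_apply, ← map_mul, inv_mul_cancel_right, map_mul,
        Module.End.mul_apply, hk2 w' hw']
    have hNm : ∀ d ∈ cm A r, ∀ i' (j'' : (F i').J), d ∈ Nm (F i').ρ ((F i').W j'') :=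
      fun d hd i' j'' => (F i').bs.uN j'' ((Subgroup.mem_iInf.1 (h.Ale i' (hDA hd))) j'')
    -- the element with prescribed action
    have hpr : ∀ (z : H), z ∈ cm A r → ∀ j₀ : (F i).J, j₀ ∈ Δ i → ∃ y ∈ cm A r,
        Tv (F i).ρ ((F i).W j₀) (z⁻¹ * y) ∧ ∀ i', ∀ j'' ∈ Δ i',
          (⟨i', j''⟩ : Σ i, (F i).J) ≠ ⟨i, j₀⟩ → Tv (F i').ρ ((F i').W j'') y := by
      intro z hz j₀ hj₀
      obtain ⟨y, hy, hyv⟩ := hb4 (fun i' j'' =>
        if (⟨i', j''⟩ : Σ i, (F i).J) = ⟨i, j₀⟩ then z else 1) (by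
          intro i' j''
          split_ifs
          · exact hz
          · exact (cm A r).one_mem)
      refine ⟨y, hy, ?_, ?_⟩
      · have h1 := hyv i j₀ hj₀
        rw [if_pos rfl] at h1
        exact lc5_tv h hc _ (A.mul_mem (A.inv_mem (hDA hz)) (hDA hy)) i j₀ h1
      · intro i' j'' hj'' hne
        have h1 := hyv i' j'' hj''
        rw [if_neg hne, inv_one, one_mul] at h1
        exact lc5_tv h hc _ (hDA hy) i' j'' h1
    obtain ⟨y₁, hy₁, hy₁a, hy₁b⟩ := hpr z₁ hz₁D j hj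
    obtain ⟨y₂, hy₂, hy₂a, hy₂b⟩ := hpr z₂ hz₂D j' hj'
    have hq1 : FixL ρU l (y₁ ^ q) := by
      refine hl _ (A.pow_mem (hDA hy₁) q) fun i' j'' hj'' => ?_
      by_cases he : (⟨i', j''⟩ : Σ i, (F i).J) = ⟨i, j⟩
      · obtain ⟨rfl, h1⟩ := Sigma.mk.inj he
        obtain rfl := eq_of_heq h1
        intro w hw
        rw [lc5_powq z₁ y₁ (hNm _ hz₁D _ _) hy₁a q w hw]
        exact hk2 w hw
      · exact lc5_tvpow _ (hy₁b i' j'' hj'' he) q
    have hq2 : FixL ρU l (y₂ ^ q) := by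
      refine hl _ (A.pow_mem (hDA hy₂) q) fun i' j'' hj'' => ?_
      by_cases he : (⟨i', j''⟩ : Σ i, (F i).J) = ⟨i, j'⟩
      · obtain ⟨rfl, h1⟩ := Sigma.mk.inj he
        obtain rfl := eq_of_heq h1
        intro w hw
        rw [lc5_powq z₂ y₂ (hNm _ hz₂D _ _) hy₂a q w hw]
        exact hz₂q w hw
      · exact lc5_tvpow _ (hy₂b i' j'' hj'' he) q
    have hn1 : ¬ FixL ρU l y₁ := by
      intro hf
      apply hk1
      intro w hw
      rw [← lc5_eqw z₁ y₁ hy₁a w hw]
      exact hfl y₁ hy₁ hf i j hj w hw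
    obtain ⟨a, ha⟩ := lc5_q h.ab l hl0 hli q hq y₁ y₂ (hDA hy₁) (hDA hy₂) hq1 hq2 hn1
    apply hz₂n
    intro w hw
    rw [← lc5_eqw z₂ y₂ hy₂a w hw]
    have h1 := hfl _ ((cm A r).mul_mem ((cm A r).inv_mem ((cm A r).pow_mem hy₁ a)) hy₂) ha i j' hj'
    rw [lc5_eqw (y₁ ^ a) y₂ h1 w hw]
    refine lc5_tvpow _ (hy₁b i j' hj' fun he => ?_) a w hw
    exact hjj (eq_of_heq (Sigma.mk.inj he).2).symm
  -- one block
  have hone : ∀ i, Subsingleton (F i).J → ∀ j, (F i).W j = ⊤ := by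
    intro i hs j
    rw [eq_top_iff, ← (F i).bs.sup]
    exact iSup_le fun j' => by rw [Subsingleton.elim j' j]
  have hsub : ∀ i, Subsingleton (F i).J → ∀ d : H, (∀ j ∈ Δ i, Tv (F i).ρ ((F i).W j) d) →
      ∀ x, (F i).ρ d x = x := by
    intro i hs d hd x
    obtain ⟨j, hj⟩ := hc.ne i
    refine hd j hj x ?_
    rw [hone i hs j]
    exact Submodule.mem_top
  have hfai : ∀ c ∈ cm A r, FixL ρU l c → c = 1 := by
    intro c hcD hcl
    have h1 : ∀ i x, (F i).ρ c x = x := by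
      intro i
      rcases subsingleton_or_nontrivial (F i).J with hs | hs
      · exact hsub i hs c fun j hj => hfl c hcD hcl i j hj
      · exact htwo i hs c hcD
    have h2 : ∀ v, ρV c⁻¹ v = v := by
      intro v
      rw [← sub_eq_zero]
      refine (Module.forall_dual_apply_eq_zero_iff (ZMod p) _).1 fun f => ?_
      have h3 : f ∈ ⨆ i, LinearMap.range (em i) := by
        rw [h.sup]
        exact Submodule.mem_top
      refine Submodule.iSup_induction (fun i => LinearMap.range (em i))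
        (motive := fun f => f (ρV c⁻¹ v - v) = 0) h3 ?_ ?_ ?_
      · rintro i _ ⟨x, rfl⟩
        rw [map_sub, ← h.eqv i c x v, h1 i x, sub_self]
      · rfl
      · intro f g hf hg
        rw [LinearMap.add_apply, hf, hg, add_zero]
    exact inv_eq_one.1 (h.ltg.fai _ h2)
  have hfai' : ∀ c ∈ cm A r, (∀ f ∈ Orb ρU A l, f ∘ₗ ρU c = f) → c = 1 := by
    intro c hcD hf
    exact hfai c hcD fun u => LinearMap.congr_fun (hf l (lc5_mem l)) u
  have hcyc : IsCyclic (cm A r) := la_cyc h.ab l hl0 hli (cm A r) hDA hfai'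
  refine ⟨Finset.univ.filter fun i => ∃ c ∈ cm A r, ∃ x, (F i).ρ c x ≠ x, ?_⟩
  have hI : ∀ i, i ∈ (Finset.univ.filter fun i => ∃ c ∈ cm A r, ∃ x, (F i).ρ c x ≠ x) ↔
      ∃ c ∈ cm A r, ∃ x, (F i).ρ c x ≠ x := by
    intro i
    rw [Finset.mem_filter]
    exact ⟨fun h1 => h1.2, fun h1 => ⟨Finset.mem_univ _, h1⟩⟩
  have hsubI : ∀ i ∈ (Finset.univ.filter fun i => ∃ c ∈ cm A r, ∃ x, (F i).ρ c x ≠ x),
      Subsingleton (F i).J := by
    intro i hi
    obtain ⟨c, hcD, x, hx⟩ := (hI i).1 hi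
    rcases subsingleton_or_nontrivial (F i).J with hs | hs
    · exact hs
    · exact absurd (htwo i hs c hcD x) hx
  refine ⟨hI, hsubI, ?_, hcyc, ?_, ?_, ?_, ⟨R, fun x hx => (hR x hx).1⟩, ?_⟩
  · intro i hi
    have hs := hsubI i hi
    obtain ⟨j, hj⟩ := hc.ne i
    obtain ⟨R', hR'⟩ := hb2 i j hj
    rcases hc.full i hs r hr R' j hR' with h1 | h1
    · exfalso
      obtain ⟨c, hcD, x, hx⟩ := (hI i).1 hi
      apply hx
      have h2 : cm A r ≤ (MonoidHom.ker ((F i).ρ : H →* Module.End (ZMod p) (F i).X)) := by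
        rw [ar_cm h.ab hAR R', Subgroup.commutator_le]
        intro a ha y hy
        rw [MonoidHom.mem_ker, commutatorElement_def]
        have h3 : (F i).ρ y = 1 := LinearMap.ext fun z => h1 R' y hy z
        have h4 : (F i).ρ y⁻¹ = 1 := LinearMap.ext fun z => h1 R' _ ((R' : Subgroup H).inv_mem hy) z
        rw [map_mul, map_mul, map_mul, h3, h4, mul_one, mul_one, ← map_mul, mul_inv_cancel, map_one]
      have h3 := MonoidHom.mem_ker.1 (h2 hcD)
      have h4 := LinearMap.congr_fun h3 x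
      exact h4
    · exact h1
  · intro c hcD u hu hcu
    have h1 := cycfixS ρU ⊤ (fun _ _ _ _ => Submodule.mem_top) (fun W₁ _ hW₁ => h.ltg.irr W₁ hW₁)
      (cm A r) hDn hcyc c hcD u Submodule.mem_top hu hcu
    exact hfai c hcD fun u' => by rw [h1 u' Submodule.mem_top]
  · intro x hx
    obtain ⟨y, hy, hyv⟩ := hb4 (fun i _ => x i) fun i _ => hx i
    refine ⟨y, hy, fun i hi z => ?_⟩
    have hs := hsubI i hi
    exact hsub i hs _ (fun j hj => lc5_tv h hc _
      (A.mul_mem (A.inv_mem (hDA (hx i))) (hDA hy)) i j (hyv i j hj)) z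
  · intro c hcD
    exact la_size h.ab l hl0 hli (cm A r) hDA hfai' c hcD
  · intro i hi R' y hy x
    refine h.triv r hr i (fun c hcD z => ?_) R' y hy x
    by_contra hne
    exact hi ((hI i).2 ⟨c, hcD, z, hne⟩)
-- END lc5

-- BEGIN lc6
private theorem lc6_eq (h : LS ρV ρU β A B F em) (v w : V)
    (hvw : ∀ j x, em j x v = em j x w) : v = w := by
  rw [← sub_eq_zero, ← Module.forall_dual_apply_eq_zero_iff (ZMod p)]
  intro f
  have hf : f ∈ ⨆ j, LinearMap.range (em j) := h.sup ▸ Submodule.mem_top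
  have hle : (⨆ j, LinearMap.range (em j)) ≤
      LinearMap.ker (LinearMap.applyₗ (v - w) : Module.Dual (ZMod p) V →ₗ[ZMod p] ZMod p) := by
    refine iSup_le fun j => ?_
    rintro _ ⟨x, rfl⟩
    rw [LinearMap.mem_ker, LinearMap.applyₗ_apply_apply, map_sub, sub_eq_zero]
    exact hvw j x
  exact LinearMap.mem_ker.1 (hle hf)

/-- An element of `H` fixes the vectors whose components it fixes. -/
private theorem lc6_fix (h : LS ρV ρU β A B F em) (c : H) (v : V)
    (hc : ∀ j, (∀ x, em j x v = 0) ∨ ∀ x, (F j).ρ c x = x) : ρV c v = v := by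
  refine lc6_eq h _ _ fun j x => ?_
  have h1 := h.eqv j c⁻¹ x v
  rw [inv_inv] at h1
  rw [← h1]
  rcases hc j with h2 | h2
  · rw [h2, h2]
  · have h3 : (F j).ρ c⁻¹ x = x := by
      conv_lhs => rw [← h2 x]
      rw [← Module.End.mul_apply, ← map_mul, inv_mul_cancel, map_one, Module.End.one_apply]
    rw [h3]

/-- `cm A r` fixes the elements of `Cs em I`. -/
private theorem lc6_cs (h : LS ρV ρU β A B F em) {l : Module.Dual (ZMod p) U} {r : ℕ}
    {I : Finset (Fin n)} (ha : Anl ρU A F l r I) (c : H) (hc : c ∈ cm A r) (v : V)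
    (hv : v ∈ Cs em I) : ρV c v = v := by
  refine lc6_fix h c v fun j => ?_
  by_cases hj : j ∈ I
  · exact Or.inl (hv j hj)
  · right
    intro x
    by_contra hx
    exact hj ((ha.hI j).2 ⟨c, hc, x, hx⟩)

/-- A nontrivial element of `cm A r` which is trivial on all the modules but one. -/
private theorem lc6_c {l : Module.Dual (ZMod p) U} {r : ℕ}
    {I : Finset (Fin n)} (ha : Anl ρU A F l r I) (i : Fin n) (hi : i ∈ I) :
    ∃ y ∈ cm A r, y ≠ 1 ∧ ∀ j, j ≠ i → ∀ x, (F j).ρ y x = x := by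
  classical
  obtain ⟨c, hc, x, hx⟩ := (ha.hI i).1 hi
  obtain ⟨y, hy, hy'⟩ := ha.srj (fun j => if j = i then c else 1) (fun j => by
    split_ifs
    · exact hc
    · exact Subgroup.one_mem _)
  refine ⟨y, hy, ?_, fun j hj z => ?_⟩
  · intro hy1
    apply hx
    have h1 := hy' i hi ((F i).ρ c x)
    rw [if_pos rfl, hy1, mul_one, ← Module.End.mul_apply, ← map_mul, inv_mul_cancel, map_one,
      Module.End.one_apply] at h1
    exact h1.symm
  · by_cases hjI : j ∈ I
    · have h1 := hy' j hjI z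
      rw [if_neg hj, inv_one, one_mul] at h1
      exact h1
    · by_contra hz
      exact hjI ((ha.hI j).2 ⟨y, hy, z, hz⟩)

private theorem lc6_zero (h : LS ρV ρU β A B F em) {l : Module.Dual (ZMod p) U} {r : ℕ}
    {I : Finset (Fin n)} (ha : Anl ρU A F l r I) (c : H) (hc : c ∈ cm A r) (hc1 : c ≠ 1)
    (v w : V) (hv : ρV c v = v) (hw : ρV c w = w) : β v w = 0 := by
  by_contra hne
  apply hc1
  refine ha.fpf c hc _ hne ?_
  rw [← h.ltg.eqv, hv, hw]

private theorem lc6_vs (h : LS ρV ρU β A B F em) (c : H) (i : Fin n)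
    (hc : ∀ x, (F i).ρ c x = x) (v : V) (hv : v ∈ Vs em i) : ρV c v = v := by
  refine lc6_fix h c v fun j => ?_
  by_cases hj : j = i
  · subst hj
    exact Or.inr hc
  · exact Or.inl (hv j hj)

/-- `β x = 0` if this holds on `Cs em I` and on the summands in `I`. -/
private theorem lc6_all (h : LS ρV ρU β A B F em) (I : Finset (Fin n)) (x : V)
    (h1 : ∀ y ∈ Cs em I, β x y = 0) (h2 : ∀ i ∈ I, ∀ y ∈ Vs em i, β x y = 0) (y : V) :
    β x y = 0 := by
  obtain ⟨_, _, _, _, _, _, _, h8, _⟩ := vs_dec h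
  have h3 : Cs em I ⊔ ⨆ i ∈ I, Vs em i ≤ LinearMap.ker (β x) :=
    sup_le (fun y hy => h1 y hy) (iSup₂_le fun i hi y hy => h2 i hi y hy)
  rw [h8 I] at h3
  exact h3 (Submodule.mem_top (x := y))

private theorem lc6_anti (h : LS ρV ρU β A B F em) (x y : V) : β x y = - β y x := by
  have h1 := h.ltg.alt (x + y)
  rw [map_add, map_add, LinearMap.add_apply, LinearMap.add_apply, h.ltg.alt, h.ltg.alt, zero_add,
    add_zero] at h1
  rw [add_comm] at h1
  exact eq_neg_of_add_eq_zero_left h1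

/-- (lc6, size 4) At most two summands. PROOF. `D = cm A r ≠ ⊥`. `D` is trivial on `Cs em I` (sum of the `Vs em i`, `i ∉ I`; `hI`), so it fixes `β (x, y)` for `x, y ∈ Cs em I`, so it is zero
(`fpf`). `I` is not empty. For `i ∈ I` the subgroup `D_i` of the elements of `D` which are trivial on `(F i').X` for all `i' ∈ I`, `i' ≠ i`, is not trivial (`srj`). If `i ≠ i' ∈ I`: `D_i'` is trivial on `Vs em i` and on `Cs em I`,
so `β` is zero on `Vs em i × Vs em i` and on `Vs em i × Cs em I`. If there were a third `i'' ∈ I` then `D_i''` is trivial on `Vs em i` and `Vs em i'`, so `β` would be zero. -/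
theorem ana_two (h : LS ρV ρU β A B F em) (l : Module.Dual (ZMod p) U) (r : ℕ)
    (hD : cm A r ≠ ⊥) (I : Finset (Fin n)) (ha : Anl ρU A F l r I) :
    (∀ x ∈ Cs em I, ∀ y ∈ Cs em I, β x y = 0) ∧
      ((∃ i, I = {i}) ∨ ∃ i i', i ≠ i' ∧ I = {i, i'} ∧
        (∀ x ∈ Vs em i, ∀ y ∈ Vs em i, β x y = 0) ∧ (∀ x ∈ Vs em i', ∀ y ∈ Vs em i', β x y = 0) ∧
        ∀ x ∈ Cs em I, ∀ y, β x y = 0) := by
  classical
  obtain ⟨c, hc, hc1⟩ := (Subgroup.ne_bot_iff_exists_ne_one).1 hD |>.elim fun c hc =>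
    (⟨c.1, c.2, fun h => hc (Subtype.ext h)⟩ : ∃ c : H, c ∈ cm A r ∧ c ≠ 1)
  have hCC : ∀ x ∈ Cs em I, ∀ y ∈ Cs em I, β x y = 0 := fun x hx y hy =>
    lc6_zero h ha c hc hc1 x y (lc6_cs h ha c hc x hx) (lc6_cs h ha c hc y hy)
  refine ⟨hCC, ?_⟩
  -- the facts for two different elements of `I`
  have hVV : ∀ i i', i ∈ I → i' ∈ I → i ≠ i' → ∀ x ∈ Vs em i, ∀ y ∈ Vs em i, β x y = 0 := by
    intro i i' _ hi' hne x hx y hy
    obtain ⟨z, hz, hz1, hz2⟩ := lc6_c ha i' hi'
    exact lc6_zero h ha z hz hz1 x y (lc6_vs h z i (hz2 i hne) x hx)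
      (lc6_vs h z i (hz2 i hne) y hy)
  have hVC : ∀ i i', i ∈ I → i' ∈ I → i ≠ i' → ∀ x ∈ Vs em i, ∀ y ∈ Cs em I, β x y = 0 := by
    intro i i' _ hi' hne x hx y hy
    obtain ⟨z, hz, hz1, hz2⟩ := lc6_c ha i' hi'
    exact lc6_zero h ha z hz hz1 x y (lc6_vs h z i (hz2 i hne) x hx) (lc6_cs h ha z hz y hy)
  have hVV' : ∀ i i' i'', i ∈ I → i' ∈ I → i'' ∈ I → i ≠ i'' → i' ≠ i'' →
      ∀ x ∈ Vs em i, ∀ y ∈ Vs em i', β x y = 0 := by
    intro i i' i'' _ _ hi'' hne hne' x hx y hy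
    obtain ⟨z, hz, hz1, hz2⟩ := lc6_c ha i'' hi''
    exact lc6_zero h ha z hz hz1 x y (lc6_vs h z i (hz2 i hne) x hx)
      (lc6_vs h z i' (hz2 i' hne') y hy)
  have hz0 : (∀ x ∈ Cs em I, ∀ y, β x y = 0) →
      (∀ i ∈ I, ∀ x ∈ Vs em i, ∀ i' ∈ I, ∀ y ∈ Vs em i', β x y = 0) → False := by
    intro h1 h2
    refine h.ltg.ne (LinearMap.ext fun y => LinearMap.ext fun x => ?_)
    rw [LinearMap.zero_apply, LinearMap.zero_apply]
    have h3 : ∀ x ∈ Cs em I, β y x = 0 := by
      intro x hx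
      rw [lc6_anti h, h1 x hx y, neg_zero]
    refine lc6_all h I y h3 (fun i hi x hx => ?_) x
    rw [lc6_anti h]
    rw [lc6_all h I x (fun z hz => ?_) (fun i' hi' z hz => h2 i hi x hx i' hi' z hz) y, neg_zero]
    rw [lc6_anti h, h1 z hz x, neg_zero]
  rcases I.eq_empty_or_nonempty with hI0 | ⟨i, hi⟩
  · exfalso
    subst hI0
    have h1 : ∀ x, x ∈ Cs em (∅ : Finset (Fin n)) := fun x i hi => absurd hi (Finset.notMem_empty i)
    exact h.ltg.ne (LinearMap.ext fun y => LinearMap.ext fun x => hCC y (h1 y) x (h1 x))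
  by_cases h1 : ∃ i' ∈ I, i' ≠ i
  · obtain ⟨i', hi', hne⟩ := h1
    have hne' : i ≠ i' := fun h => hne h.symm
    have hC0 : ∀ x ∈ Cs em I, ∀ y, β x y = 0 := by
      intro x hx y
      refine lc6_all h I x (fun z hz => hCC x hx z hz) (fun j hj z hz => ?_) y
      rw [lc6_anti h]
      by_cases hji : j = i
      · rw [hVC j i' hj hi' (by rw [hji]; exact hne') z hz x hx, neg_zero]
      · rw [hVC j i hj hi hji z hz x hx, neg_zero]
    right
    refine ⟨i, i', hne', ?_, hVV i i' hi hi' hne', hVV i' i hi' hi hne, hC0⟩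
    by_contra hI
    have h2 : ∃ i'' ∈ I, i'' ≠ i ∧ i'' ≠ i' := by
      by_contra hcon
      push Not at hcon
      apply hI
      ext j
      rw [Finset.mem_insert, Finset.mem_singleton]
      constructor
      · intro hj
        by_cases hji : j = i
        · exact Or.inl hji
        · exact Or.inr (hcon j hj hji)
      · rintro (rfl | rfl)
        · exact hi
        · exact hi'
    obtain ⟨i'', hi'', h3, h4⟩ := h2
    refine hz0 hC0 fun a haI x hx b hbI y hy => ?_
    -- some element of `I` is different from `a` and `b`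
    have h5 : ∃ d ∈ I, a ≠ d ∧ b ≠ d := by
      by_cases e1 : a = i ∨ b = i
      · by_cases e2 : a = i' ∨ b = i'
        · refine ⟨i'', hi'', ?_, ?_⟩
          · rcases e1 with rfl | rfl
            · exact fun h => h3 h.symm
            · rcases e2 with rfl | e2
              · exact fun h => h4 h.symm
              · exact absurd e2 hne'
          · rcases e1 with rfl | rfl
            · rcases e2 with e2 | rfl
              · exact absurd e2 hne'
              · exact fun h => h4 h.symm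
            · exact fun h => h3 h.symm
        · push Not at e2
          exact ⟨i', hi', e2.1, e2.2⟩
      · push Not at e1
        exact ⟨i, hi, e1.1, e1.2⟩
    obtain ⟨d, hd, hda, hdb⟩ := h5
    exact hVV' a b d haI hbI hd hda hdb x hx y hy
  · left
    push Not at h1
    refine ⟨i, Finset.eq_singleton_iff_unique_mem.2 ⟨hi, fun j hj => h1 j hj⟩⟩
-- END lc6

-- BEGIN lc7
private theorem lc7_size (hA : Ab A) (N : Subgroup H)
    (hNA : N ≤ A) (l : Module.Dual (ZMod p) U) (hl : l ≠ 0)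
    (W : Submodule (ZMod p) V) (hW : Ivt ρV ⊤ W)
    (hWne : W ≠ ⊥) (hfull : ∀ W' ≤ W, Ivt ρV N W' → W' = ⊥ ∨ W' = W)
    (hsize : ∀ c ∈ N, c ^ Nat.card (Orb ρU N l) = c) :
    Module.finrank (ZMod p) W ≤ Module.finrank (ZMod p) (Orb ρU N l) := by
  have hdf : Finite (Module.Dual (ZMod p) U) :=
    Finite.of_injective (fun l : Module.Dual (ZMod p) U => (l : U → ZMod p))
      DFunLike.coe_injective
  have hWn : Nontrivial W := Submodule.nontrivial_iff_ne_bot.2 hWne
  have hlM : l ∈ Orb ρU N l := Submodule.subset_span ⟨1, N.one_mem, by rw [map_one]; rfl⟩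
  have hMn : Nontrivial (Orb ρU N l) :=
    ⟨⟨l, hlM⟩, 0, fun h1 => hl (congrArg Subtype.val h1)⟩
  have hc1 : Nat.card (Orb ρU N l) = p ^ Module.finrank (ZMod p) (Orb ρU N l) := by
    rw [Module.natCard_eq_pow_finrank (K := ZMod p), Nat.card_zmod]
  have hc2 : Nat.card W = p ^ Module.finrank (ZMod p) W := by
    rw [Module.natCard_eq_pow_finrank (K := ZMod p), Nat.card_zmod]
  have hf : 0 < Module.finrank (ZMod p) (Orb ρU N l) := Module.finrank_pos
  have h1 : Nat.card W ≤ Nat.card (Orb ρU N l) := by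
    refine sizeW (p := p) ((rs ρV W hW).comp N.subtype) ?_ ?_ _ _ hf hc1 ?_
    · intro a b y
      have h2 : (a : H) * b = b * a := hA.com a (hNA a.2) b (hNA b.2)
      refine Subtype.ext ?_
      show ρV (a : H) (ρV (b : H) (y : V)) = ρV (b : H) (ρV (a : H) (y : V))
      rw [← Module.End.mul_apply, ← map_mul, h2, map_mul, Module.End.mul_apply]
    · intro W' hW'
      have h2 : W'.map W.subtype ≤ W := by
        rintro _ ⟨x, _, rfl⟩
        exact x.2
      have h3 : Ivt ρV N (W'.map W.subtype) := by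
        rintro n hn _ ⟨x, hx, rfl⟩
        exact ⟨_, hW' ⟨n, hn⟩ (Subgroup.mem_top _) x hx, rfl⟩
      rcases hfull _ h2 h3 with h4 | h4
      · left
        refine (Submodule.eq_bot_iff W').2 fun x hx => Subtype.ext ?_
        have h5 : (x : V) ∈ W'.map W.subtype := ⟨x, hx, rfl⟩
        rw [h4] at h5
        exact h5
      · right
        refine Submodule.eq_top_iff'.2 fun x => ?_
        have h5 : (x : V) ∈ W'.map W.subtype := by
          rw [h4]
          exact x.2
        obtain ⟨y, hy, hyx⟩ := h5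
        have h6 : y = x := Subtype.ext hyx
        rw [← h6]
        exact hy
    · intro n w
      have h2 : n ^ Nat.card (Orb ρU N l) = n := Subtype.ext (hsize n n.2)
      rw [h2]
  rw [hc1, hc2] at h1
  exact (Nat.pow_le_pow_iff_right (Fact.out : p.Prime).one_lt).1 h1

private theorem lc7_ker (β : V →ₗ[ZMod p] V →ₗ[ZMod p] U)
    (M : Submodule (ZMod p) (Module.Dual (ZMod p) U))
    (W : Submodule (ZMod p) V) (w : V) (hw : w ∈ W) (hw0 : w ≠ 0) (halt : β w w = 0)
    (hle : Module.finrank (ZMod p) W ≤ Module.finrank (ZMod p) M) :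
    ∃ m ∈ M, m ≠ 0 ∧ ∀ x ∈ W, m (β w x) = 0 := by
  have hdf : Finite (Module.Dual (ZMod p) U) :=
    Finite.of_injective (fun l : Module.Dual (ZMod p) U => (l : U → ZMod p))
      DFunLike.coe_injective
  let Φ : M →ₗ[ZMod p] Module.Dual (ZMod p) W :=
    { toFun := fun m => ((m : Module.Dual (ZMod p) U) ∘ₗ β w) ∘ₗ W.subtype
      map_add' := fun a b => rfl
      map_smul' := fun a b => rfl }
  have hΦ : ∀ (m : M) (x : W), Φ m x = (m : Module.Dual (ZMod p) U) (β w x) := fun _ _ => rfl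
  by_cases hinj : Function.Injective Φ
  · exfalso
    have h1 := LinearMap.finrank_range_of_inj hinj
    have h2 : LinearMap.range Φ ≠ ⊤ := by
      intro h3
      have h4 : (⟨w, hw⟩ : W) = 0 := by
        rw [← Module.forall_dual_apply_eq_zero_iff (ZMod p)]
        intro φ
        have h5 : φ ∈ LinearMap.range Φ := by
          rw [h3]
          exact Submodule.mem_top
        obtain ⟨m, rfl⟩ := h5
        rw [hΦ, halt, map_zero]
      exact hw0 (congrArg Subtype.val h4)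
    have h3 := Submodule.finrank_lt h2
    rw [h1, Subspace.dual_finrank_eq] at h3
    exact absurd hle (not_le.2 h3)
  · rw [injective_iff_map_eq_zero] at hinj
    push Not at hinj
    obtain ⟨m, hm, hm0⟩ := hinj
    refine ⟨m, m.2, fun h => hm0 (Subtype.ext h), fun x hx => ?_⟩
    have h1 := hΦ m ⟨x, hx⟩
    rw [hm] at h1
    exact h1.symm

/-- (lc7, size 3) Case A. PROOF. `W = Vs em i`, `V₀ = Cs em {i}`, `N = cm A r`: `FullS ρV W N` (`vs_full`), `J1c`: `β (W, V₀) = 0`, with `ana_two`: `β (V₀, V) = 0`. As in the proof of `J1` (private lemmas `xg_size`,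
`xg_ker` of Nan/Ex.lean, copy them): `finrank W ≤ finrank (Orb ρU N l)` by `size`, and for `0 ≠ w ∈ W` there is `l' ∈ Orb ρU N l`, `l' ≠ 0`, with `l' (β w x) = 0` for all `x ∈ W`; so
`w ∈ Rad β l'`. -/
theorem case_A (h : LS ρV ρU β A B F em) (l : Module.Dual (ZMod p) U) (hl0 : l ≠ 0) (r : ℕ)
    (hr : r ∈ B) (hD : cm A r ≠ ⊥) (i : Fin n) (ha : Anl ρU A F l r {i})
    (hne : ∃ x ∈ Vs em i, ∃ y ∈ Vs em i, β x y ≠ 0) :
    (∀ x ∈ Cs em {i}, ∀ y, β x y = 0) ∧ ∃ l' : Module.Dual (ZMod p) U, l' ≠ 0 ∧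
      ∃ w ∈ Vs em i, w ≠ 0 ∧ w ∈ Rad β l' := by
  classical
  obtain ⟨v1, _, _, v4, _, _, v7, v8, _, v10⟩ := vs_dec h
  have hiI : i ∈ ({i} : Finset (Fin n)) := Finset.mem_singleton_self i
  have hanti : ∀ x y, β x y = - β y x := by
    intro x y
    have h1 := h.ltg.alt (x + y)
    rw [map_add, map_add, LinearMap.add_apply, LinearMap.add_apply, h.ltg.alt, h.ltg.alt,
      zero_add, add_zero] at h1
    rw [add_comm] at h1
    exact eq_neg_of_add_eq_zero_left h1
  have hNA := cm_le h.ab r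
  have hWne : Vs em i ≠ ⊥ := by
    obtain ⟨x, hx, y, hy, hxy⟩ := hne
    intro h0
    rw [h0, Submodule.mem_bot] at hx
    exact hxy (by rw [hx, map_zero, LinearMap.zero_apply])
  have hfull : FullS ρV (Vs em i) (cm A r) := (vs_full h i (cm A r)).2 (ha.full i hiI)
  have hN0 : ∀ c ∈ cm A r, ∀ v ∈ Cs em {i}, ρV c v = v := by
    intro c hc v hv
    -- all functionals agree
    have key : ∀ j x, em j x (ρV c v) = em j x v := by
      intro j x
      have h1 := h.eqv j c⁻¹ x v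
      rw [inv_inv] at h1
      rw [← h1]
      by_cases hj : j = i
      · subst hj
        rw [hv j hiI, hv j hiI]
      · have h3 : (F j).ρ c⁻¹ x = x := by
          by_contra h4
          exact hj (Finset.mem_singleton.1 ((ha.hI j).2 ⟨c⁻¹, Subgroup.inv_mem _ hc, x, h4⟩))
        rw [h3]
    rw [← sub_eq_zero, ← Module.forall_dual_apply_eq_zero_iff (ZMod p)]
    intro f
    have hf : f ∈ ⨆ j, LinearMap.range (em j) := h.sup ▸ Submodule.mem_top
    have hle : (⨆ j, LinearMap.range (em j)) ≤ LinearMap.ker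
        (LinearMap.applyₗ (ρV c v - v) : Module.Dual (ZMod p) V →ₗ[ZMod p] ZMod p) := by
      refine iSup_le fun j => ?_
      rintro _ ⟨x, rfl⟩
      rw [LinearMap.mem_ker, LinearMap.applyₗ_apply_apply, map_sub, sub_eq_zero]
      exact key j x
    exact LinearMap.mem_ker.1 (hle hf)
  have hW0 := J1c h.ltg h.ab (cm A r) hNA (Cs em {i}) (Vs em i) (v10 {i}) (v1 i) hWne hN0 hfull
    hne
  have h00 := (ana_two h l r hD {i} ha).1
  have hdec : ∀ x : V, ∃ a ∈ Cs em {i}, ∃ b ∈ Vs em i, a + b = x := by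
    intro x
    have h1 : x ∈ Cs em {i} ⊔ ⨆ j ∈ ({i} : Finset (Fin n)), Vs em j := by
      rw [v8 {i}]
      exact Submodule.mem_top
    have h2 : (⨆ j ∈ ({i} : Finset (Fin n)), Vs em j) = Vs em i := by
      simp
    rw [h2] at h1
    exact Submodule.mem_sup.1 h1
  refine ⟨?_, ?_⟩
  · intro x hx y
    obtain ⟨a, ha', b, hb, rfl⟩ := hdec y
    rw [map_add, h00 x hx a ha', hanti x b, hW0 b hb x hx, neg_zero, add_zero]
  · obtain ⟨w, hw, hw0⟩ := (Vs em i).ne_bot_iff.1 hWne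
    obtain ⟨m, _, hm0, hmW⟩ := lc7_ker β (Orb ρU (cm A r) l) (Vs em i) w hw hw0 (h.ltg.alt w)
      (lc7_size h.ab (cm A r) hNA l hl0 (Vs em i) (v1 i) hWne hfull.1 ha.size)
    refine ⟨m, hm0, w, hw, hw0, ?_⟩
    rw [mem_Rad]
    intro x
    obtain ⟨a, ha', b, hb, rfl⟩ := hdec x
    rw [map_add, hW0 w hw a ha', zero_add]
    exact hmW b hb
-- END lc7

-- BEGIN lc8
private theorem lc8_dvd {p m t c d : ℕ} (hp : 1 < p) (hm : 0 < m) (ht : 3 ≤ t) (hd0 : 0 < d)
    (h : c * (p ^ m - 1) = p ^ (m * t) - 1) (hd : c ∣ p ^ d - 1) : m * t ∣ d := by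
  obtain ⟨s, rfl⟩ : ∃ s, t = s + 1 := ⟨t - 1, by omega⟩
  have hc : c ∣ p ^ (m * (s + 1)) - 1 := h ▸ Dvd.intro _ rfl
  have hg0 : 0 < Nat.gcd (m * (s + 1)) d := Nat.gcd_pos_of_pos_right _ hd0
  have hcg : c ∣ p ^ Nat.gcd (m * (s + 1)) d - 1 := by
    rw [← Nat.pow_sub_one_gcd_pow_sub_one]
    exact Nat.dvd_gcd hc hd
  set g := Nat.gcd (m * (s + 1)) d with hg
  have hpg : 1 < p ^ g := Nat.one_lt_pow hg0.ne' hp
  have hle : c ≤ p ^ g - 1 := Nat.le_of_dvd (by omega) hcg
  have hcp : p ^ (m * s) < c := by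
    by_contra hcon
    push Not at hcon
    have hpm : 1 < p ^ m := Nat.one_lt_pow hm.ne' hp
    have h1 : c * (p ^ m - 1) ≤ p ^ (m * s) * (p ^ m - 1) := Nat.mul_le_mul_right _ hcon
    have h2 : p ^ (m * s) * (p ^ m - 1) = p ^ (m * (s + 1)) - p ^ (m * s) := by
      rw [Nat.mul_sub, mul_one, ← pow_add, mul_add, mul_one]
    have h3 : 1 < p ^ (m * s) := Nat.one_lt_pow (by
      have : 0 < m * s := Nat.mul_pos hm (by omega)
      omega) hp
    have h4 : p ^ (m * s) ≤ p ^ (m * (s + 1)) :=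
      Nat.pow_le_pow_right (by omega) (Nat.mul_le_mul_left _ (by omega))
    omega
  have h5 : p ^ (m * s) < p ^ g := by omega
  have h6 : m * s < g := (Nat.pow_lt_pow_iff_right hp).1 h5
  obtain ⟨k, hk⟩ : g ∣ m * (s + 1) := Nat.gcd_dvd_left _ _
  have hk1 : k = 1 := by
    have hms : 0 < m * (s + 1) := Nat.mul_pos hm (by omega)
    rcases Nat.lt_or_ge k 2 with h7 | h7
    · interval_cases k
      · omega
      · rfl
    · exfalso
      have h8 : g * 2 ≤ g * k := Nat.mul_le_mul_left _ h7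
      have h9 : m * (s + 1) = m * s + m := by ring
      have h10 : m * 2 ≤ m * s := Nat.mul_le_mul_left _ (by omega)
      omega
  rw [hk1, mul_one] at hk
  rw [hk]
  exact Nat.gcd_dvd_right _ _

private theorem lc8_num {p m₁ t₁ m₂ t₂ c₁ c₂ u : ℕ} (hp : 1 < p) (hm₁ : 0 < m₁) (ht₁ : 3 ≤ t₁)
    (hm₂ : 0 < m₂) (ht₂ : 3 ≤ t₂) (hu : 0 < u) (h₁ : c₁ * (p ^ m₁ - 1) = p ^ (m₁ * t₁) - 1)
    (h₂ : c₂ * (p ^ m₂ - 1) = p ^ (m₂ * t₂) - 1) (hcop : c₁.Coprime c₂) (hc₁ : c₁ ∣ p ^ u - 1)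
    (hc₂ : c₂ ∣ p ^ u - 1) (hle : ¬ (p ^ (m₁ * t₁)) ^ 3 ≤ p ^ (m₂ * t₂)) :
    p ^ (m₂ * t₂) < p ^ u := by
  by_contra hcon
  push Not at hcon
  have h1 : u ≤ m₂ * t₂ := (Nat.pow_le_pow_iff_right hp).1 hcon
  have h2 : m₂ * t₂ ∣ u := lc8_dvd hp hm₂ ht₂ hu h₂ hc₂
  have h3 : u = m₂ * t₂ := le_antisymm h1 (Nat.le_of_dvd hu h2)
  rw [h3, ← h₂] at hc₁
  have h4 : c₁ ∣ p ^ m₂ - 1 := hcop.dvd_of_dvd_mul_left hc₁
  have h5 : m₁ * t₁ ∣ m₂ := lc8_dvd hp hm₁ ht₁ hm₂ h₁ h4
  have h6 : m₁ * t₁ ≤ m₂ := Nat.le_of_dvd hm₂ h5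
  apply hle
  rw [← pow_mul]
  refine Nat.pow_le_pow_right (by omega) ?_
  calc m₁ * t₁ * 3 ≤ m₂ * 3 := Nat.mul_le_mul_right _ h6
    _ ≤ m₂ * t₂ := Nat.mul_le_mul_left _ ht₂

/-- Two subgroups of a finite cyclic group which intersect trivially have coprime orders. -/
private theorem lc8_cop {D : Type} [Group D] [Finite D] (hD : IsCyclic D) (K₁ K₂ : Subgroup D)
    (hd : K₁ ⊓ K₂ = ⊥) : (Nat.card K₁).Coprime (Nat.card K₂) := by
  classical
  have : Fintype D := Fintype.ofFinite D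
  refine Nat.coprime_of_dvd fun q hq h1 h2 => ?_
  have : Fact q.Prime := ⟨hq⟩
  obtain ⟨a, ha⟩ := exists_prime_orderOf_dvd_card' (G := K₁) q h1
  obtain ⟨b, hb⟩ := exists_prime_orderOf_dvd_card' (G := K₂) q h2
  have ha' : orderOf (a : D) = q := by rw [Subgroup.orderOf_coe, ha]
  have hb' : orderOf (b : D) = q := by rw [Subgroup.orderOf_coe, hb]
  have hle := IsCyclic.card_pow_eq_one_le (α := D) hq.pos
  have hsub : ∀ x : D, orderOf x = q → (Subgroup.zpowers x : Set D) ⊆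
      (Finset.univ.filter fun y : D => y ^ q = 1 : Finset D) := by
    intro x hx y hy
    obtain ⟨k, rfl⟩ := Subgroup.mem_zpowers_iff.1 hy
    rw [Finset.coe_filter]
    refine ⟨Finset.mem_univ _, ?_⟩
    rw [← zpow_natCast, zpow_comm, zpow_natCast, ← hx, pow_orderOf_eq_one, one_zpow]
  have heq : ∀ x : D, orderOf x = q → (Subgroup.zpowers x : Set D) =
      (Finset.univ.filter fun y : D => y ^ q = 1 : Finset D) := by
    intro x hx
    refine Set.eq_of_subset_of_ncard_le (hsub x hx) ?_ (Finset.finite_toSet _)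
    rw [Set.ncard_coe_finset]
    refine hle.trans ?_
    have h3 : (Subgroup.zpowers x : Set D).ncard = Nat.card (Subgroup.zpowers x) := rfl
    rw [h3, Nat.card_zpowers, hx]
  have h4 : (Subgroup.zpowers (a : D) : Set D) = (Subgroup.zpowers (b : D) : Set D) := by
    rw [heq _ ha', heq _ hb']
  have h5 : (a : D) ∈ Subgroup.zpowers (b : D) := by
    have h6 : (a : D) ∈ (Subgroup.zpowers (a : D) : Set D) := Subgroup.mem_zpowers _
    rw [h4] at h6
    exact h6
  have h7 : (a : D) ∈ K₁ ⊓ K₂ := by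
    refine ⟨a.2, ?_⟩
    exact (Subgroup.zpowers_le.2 b.2) h5
  rw [hd, Subgroup.mem_bot] at h7
  rw [h7, orderOf_one] at ha'
  exact hq.one_lt.ne ha'

private theorem lc8_card {D : Type} [Group D] [Finite D] (K₁ K₂ : Subgroup D)
    (hd : K₁ ⊓ K₂ = ⊥) (hs : ∀ d : D, ∃ y ∈ K₁, d⁻¹ * y ∈ K₂) :
    Nat.card K₁ * Nat.card K₂ = Nat.card D := by
  refine (Subgroup.isComplement'_of_disjoint_and_mul_eq_univ (disjoint_iff.2 hd) ?_).card_mul_card
  refine Set.eq_univ_of_forall fun d => ?_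
  obtain ⟨y, hy, h⟩ := hs d
  refine ⟨y, hy, (d⁻¹ * y)⁻¹, K₂.inv_mem h, ?_⟩
  show y * (d⁻¹ * y)⁻¹ = d
  group

/-- A free action: the order of the group divides the number of the points. -/
private theorem lc8_free {D X : Type} [Group D] [Finite D] [MulAction D X] [Finite X]
    (h : ∀ (d : D) (x : X), d • x = x → d = 1) : Nat.card D ∣ Nat.card X := by
  have h0 : ∀ b : X, MulAction.stabilizer D b = ⊥ := by
    intro b
    rw [Subgroup.eq_bot_iff_forall]
    intro d hd
    exact h d b hd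
  have e := MulAction.selfEquivOrbitsQuotientProd h0
  rw [Nat.card_congr e, Nat.card_prod]
  exact Dvd.intro_left _ rfl

/-- The elements of `D` which are trivial on the `j`-th module. -/
private def lc8_K (F : Fin n → Fam p H) (D : Subgroup H) (j : Fin n) : Subgroup D where
  carrier := {c | ∀ x : (F j).X, (F j).ρ (c : H) x = x}
  one_mem' := by
    intro x
    rw [Subgroup.coe_one, map_one]
    rfl
  mul_mem' := by
    intro a b ha hb x
    rw [Subgroup.coe_mul, map_mul, Module.End.mul_apply, hb x, ha x]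
  inv_mem' := by
    intro a ha x
    rw [Subgroup.coe_inv]
    conv_lhs => rw [← ha x]
    rw [← Module.End.mul_apply, ← map_mul, inv_mul_cancel, map_one, Module.End.one_apply]

private theorem lc8_one (h : LS ρV ρU β A B F em) (c : H)
    (hc : ∀ j, ∀ x : (F j).X, (F j).ρ c x = x) : c = 1 := by
  refine h.ltg.fai c fun v => ?_
  rw [← sub_eq_zero, ← Module.forall_dual_apply_eq_zero_iff (ZMod p)]
  intro f
  have hf : f ∈ ⨆ j, LinearMap.range (em j) := h.sup ▸ Submodule.mem_top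
  have hle : (⨆ j, LinearMap.range (em j)) ≤
      LinearMap.ker (LinearMap.applyₗ (ρV c v - v) : Module.Dual (ZMod p) V →ₗ[ZMod p] ZMod p) := by
    refine iSup_le fun j => ?_
    rintro _ ⟨x, rfl⟩
    rw [LinearMap.mem_ker, LinearMap.applyₗ_apply_apply, map_sub, sub_eq_zero]
    have h1 := h.eqv j c⁻¹ x v
    rw [inv_inv] at h1
    rw [← h1]
    have h2 : (F j).ρ c⁻¹ x = x := by
      conv_lhs => rw [← hc j x]
      rw [← Module.End.mul_apply, ← map_mul, inv_mul_cancel, map_one, Module.End.one_apply]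
    rw [h2]
  exact LinearMap.mem_ker.1 (hle hf)

private theorem lc8_div (ρU : Representation (ZMod p) H U) (D : Subgroup H)
    (hfpf : ∀ c ∈ D, ∀ u : U, u ≠ 0 → ρU c u = u → c = 1) :
    Nat.card D ∣ Nat.card U - 1 := by
  classical
  have hcard : Nat.card {u : U // u ≠ 0} = Nat.card U - 1 := by
    have := Fintype.ofFinite U
    rw [Nat.card_eq_fintype_card, Nat.card_eq_fintype_card, Fintype.card_subtype_compl,
      Fintype.card_subtype_eq]
  let act : MulAction D {u : U // u ≠ 0} :=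
    { smul := fun c u => ⟨ρU (c : H) u.1, fun h0 => u.2 (by
        have h1 : ρU (c : H)⁻¹ (ρU (c : H) u.1) = u.1 := by
          rw [← Module.End.mul_apply, ← map_mul, inv_mul_cancel, map_one, Module.End.one_apply]
        rw [← h1, h0, map_zero])⟩
      one_smul := fun u => Subtype.ext (by
        change ρU ((1 : D) : H) u.1 = u.1
        rw [Subgroup.coe_one, map_one]
        rfl)
      mul_smul := fun a b u => Subtype.ext (by
        change ρU ((a * b : D) : H) u.1 = ρU (a : H) (ρU (b : H) u.1)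
        rw [Subgroup.coe_mul, map_mul]
        rfl) }
  rw [← hcard]
  refine lc8_free fun d x hx => ?_
  have h1 : ρU (d : H) x.1 = x.1 := congrArg Subtype.val hx
  exact Subtype.ext (hfpf d d.2 x.1 x.2 h1)

/-- (lc8, size 4) Case B, numbers. PROOF. `c₁`, `c₂` = orders of the images of the cyclic group `D = cm A r` on the two modules: `c_i (p ^ m_i - 1) = p ^ n_i - 1`, `n_i = m_i t_i`, `t_i ≥ 3` (`Full`), `card X_i = p ^ n_i`;
`card D = c₁ c₂` (faithful, `srj`), coprime (cyclic). `D` acts on `U` without fixed points, `card U = p ^ u`: `c₁ c₂ ∣ p ^ u - 1`, `u > 0`. Suppose `u ≤ n₂`. `c₂ ∣ p ^ gcd(u, n₂) - 1` (`Nat.pow_sub_one_gcd_pow_sub_one`), `c₂ > p ^ (n₂ - m₂)`,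
so `gcd(u, n₂) > 2 n₂ / 3`, so it is `n₂`, and `u = n₂`. `c₁` is coprime to `c₂` and divides `c₂ (p ^ m₂ - 1)`, so `c₁ ∣ p ^ m₂ - 1`, `c₁ ∣ p ^ gcd(n₁, m₂) - 1`, so `gcd(n₁, m₂) = n₁`, `n₁ ≤ m₂ ≤ n₂ / 3`. -/
theorem case_Bn (h : LS ρV ρU β A B F em) (l : Module.Dual (ZMod p) U) (r : ℕ) (i i' : Fin n)
    (hi : i ≠ i') (ha : Anl ρU A F l r {i, i'})
    (hle : ¬ Nat.card (F i).X ^ 3 ≤ Nat.card (F i').X) :
    Nat.card (F i').X < Nat.card U := by
  classical
  have hp : p.Prime := Fact.out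
  obtain ⟨_, m₁, t₁, hm₁, ht₁, hX₁, hF₁⟩ := ha.full i (by simp)
  obtain ⟨_, m₂, t₂, hm₂, ht₂, hX₂, hF₂⟩ := ha.full i' (by simp)
  have hcyc := ha.cyc
  have hfpf := ha.fpf
  have hI := ha.hI
  have hsrj := ha.srj
  generalize cm A r = D at hF₁ hF₂ hcyc hfpf hI hsrj
  change Nat.card D * (p ^ m₁ - 1) = Nat.card (lc8_K F D i) * (p ^ (m₁ * t₁) - 1) at hF₁
  change Nat.card D * (p ^ m₂ - 1) = Nat.card (lc8_K F D i') * (p ^ (m₂ * t₂) - 1) at hF₂
  have hinf : lc8_K F D i ⊓ lc8_K F D i' = ⊥ := by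
    rw [Subgroup.eq_bot_iff_forall]
    rintro c ⟨hc, hc'⟩
    refine Subtype.ext (lc8_one h c fun j x => ?_)
    by_cases hj : j ∈ ({i, i'} : Finset (Fin n))
    · rw [Finset.mem_insert, Finset.mem_singleton] at hj
      rcases hj with rfl | rfl
      · exact hc x
      · exact hc' x
    · by_contra hx
      exact hj ((hI j).2 ⟨c, c.2, x, hx⟩)
  have hsur : ∀ d : D, ∃ y ∈ lc8_K F D i, d⁻¹ * y ∈ lc8_K F D i' := by
    intro d
    obtain ⟨y, hy, hy'⟩ := hsrj (fun j => if j = i' then (d : H) else 1) (fun j => by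
      split_ifs
      · exact d.2
      · exact D.one_mem)
    refine ⟨⟨y, hy⟩, fun x => ?_, fun x => ?_⟩
    · have h1 := hy' i (by simp) x
      rw [if_neg hi, inv_one, one_mul] at h1
      exact h1
    · have h1 := hy' i' (by simp) x
      rw [if_pos rfl] at h1
      exact h1
  have hcard := lc8_card _ _ hinf hsur
  have hcop := lc8_cop hcyc _ _ hinf
  have hpos₁ : 0 < Nat.card (lc8_K F D i) := Nat.card_pos
  have hpos₂ : 0 < Nat.card (lc8_K F D i') := Nat.card_pos
  have hdiv := lc8_div ρU D hfpf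
  have hUn : Nontrivial U := by
    by_contra hcon
    rw [not_nontrivial_iff_subsingleton] at hcon
    exact h.ltg.ne (LinearMap.ext fun v => LinearMap.ext fun w => Subsingleton.elim _ _)
  have hUc : Nat.card U = p ^ Module.finrank (ZMod p) U := by
    rw [Module.natCard_eq_pow_finrank (K := ZMod p), Nat.card_zmod]
  have hu : 0 < Module.finrank (ZMod p) U := Module.finrank_pos
  rw [hUc] at hdiv ⊢
  rw [hX₂]
  rw [hX₁, hX₂] at hle
  refine lc8_num hp.one_lt hm₁ ht₁ hm₂ ht₂ hu (c₁ := Nat.card (lc8_K F D i'))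
    (c₂ := Nat.card (lc8_K F D i)) ?_ ?_ hcop.symm ?_ ?_ hle
  · refine Nat.eq_of_mul_eq_mul_left hpos₁ ?_
    rw [← mul_assoc, hcard, hF₁]
  · refine Nat.eq_of_mul_eq_mul_left hpos₂ ?_
    rw [← mul_assoc, mul_comm (Nat.card (lc8_K F D i')), hcard, hF₂]
  · exact (Dvd.intro_left _ hcard).trans hdiv
  · exact (Dvd.intro _ hcard).trans hdiv
-- END lc8

-- BEGIN lc9
private theorem lc9_fr {W : Type} [AddCommGroup W] [Module (ZMod p) W] [Finite W] :
    Nat.card W = p ^ Module.finrank (ZMod p) W := by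
  haveI : Module.Finite (ZMod p) W := Module.Finite.of_finite
  have := Module.natCard_eq_pow_finrank (K := ZMod p) (V := W)
  rw [this, Nat.card_zmod]

private theorem lc9_dec (h : LS ρV ρU β A B F em) (i i' : Fin n) (v : V) :
    ∃ c ∈ Cs em {i, i'}, ∃ a ∈ Vs em i, ∃ b ∈ Vs em i', v = c + a + b := by
  obtain ⟨-, -, -, -, -, -, -, hs, -, -⟩ := vs_dec h
  have h0 : v ∈ Cs em {i, i'} ⊔ ⨆ k ∈ ({i, i'} : Finset (Fin n)), Vs em k := by
    rw [hs]; trivial
  rw [Submodule.mem_sup] at h0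
  obtain ⟨c, hc, w, hw, hcw⟩ := h0
  have h1 : (⨆ k ∈ ({i, i'} : Finset (Fin n)), Vs em k) ≤ Vs em i ⊔ Vs em i' := by
    refine iSup₂_le fun k hk => ?_
    rw [Finset.mem_insert, Finset.mem_singleton] at hk
    rcases hk with rfl | rfl
    · exact le_sup_left
    · exact le_sup_right
  have h2 := h1 hw
  rw [Submodule.mem_sup] at h2
  obtain ⟨a, ha, b, hb, hab⟩ := h2
  exact ⟨c, hc, a, ha, b, hb, by rw [← hcw, ← hab, add_assoc]⟩

private theorem lc9_sw (h : LS ρV ρU β A B F em) (x y : V) : β x y = - β y x := by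
  have h1 := h.ltg.alt (x + y)
  simp only [map_add, LinearMap.add_apply, h.ltg.alt, zero_add, add_zero] at h1
  exact eq_neg_of_add_eq_zero_right h1

/-- (lc9, size 3) Case B. PROOF. `V₁ = Vs em i`, `V₂ = Vs em i'`, `0 ≠ y₁ ∈ V₁`. `β (y₁, V) = β (y₁, V₂)` has at most `card V₂ < card U` elements, so there is `l' ≠ 0` which is zero on the subspace `β (y₁, V₂)`;
`y₁ ∈ Rad β l'`. The map `V₂ → Dual V₁`, `y ↦ l' (β y ·)` has values in the annihilator of `y₁`, which has `card V₁ / p < card V₂` elements, so it is not injective; `y₂` in the kernel is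
in `Rad β l'`. -/
theorem case_B (h : LS ρV ρU β A B F em) (i i' : Fin n) (hi : i ≠ i')
    (h1 : ∀ x ∈ Vs em i, ∀ y ∈ Vs em i, β x y = 0)
    (h2 : ∀ x ∈ Vs em i', ∀ y ∈ Vs em i', β x y = 0) (h3 : ∀ x ∈ Cs em {i, i'}, ∀ y, β x y = 0)
    (h4 : Nat.card (F i).X ≤ Nat.card (F i').X) (h5 : Nat.card (F i').X < Nat.card U) :
    ∃ l' : Module.Dual (ZMod p) U, l' ≠ 0 ∧ (∃ w ∈ Vs em i, w ≠ 0 ∧ w ∈ Rad β l') ∧
      ∃ w ∈ Vs em i', w ≠ 0 ∧ w ∈ Rad β l' := by
  classical
  have hV := vs_dec h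
  obtain ⟨-, -, -, hcard, -, -, -, -, -, -⟩ := hV
  haveI : Nontrivial (Vs em i) := by
    have hX : 1 < Nat.card (F i).X := Finite.one_lt_card
    rw [← hcard i] at hX
    exact Finite.one_lt_card_iff_nontrivial.mp hX
  obtain ⟨y1, hy1⟩ := exists_ne (0 : Vs em i)
  haveI : Module.Finite (ZMod p) U := Module.Finite.of_finite
  haveI : Module.Finite (ZMod p) V := Module.Finite.of_finite
  have hp : 1 < p := (Fact.out : p.Prime).one_lt
  have hlt : Module.finrank (ZMod p) (Vs em i') < Module.finrank (ZMod p) U := by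
    have h6 : Nat.card (Vs em i') < Nat.card U := by rw [hcard i']; exact h5
    rw [lc9_fr (p := p) (W := Vs em i'), lc9_fr (p := p) (W := U)] at h6
    exact (Nat.pow_lt_pow_iff_right hp).mp h6
  have hle : Module.finrank (ZMod p) (Vs em i) ≤ Module.finrank (ZMod p) (Vs em i') := by
    have h6 : Nat.card (Vs em i) ≤ Nat.card (Vs em i') := by rw [hcard i, hcard i']; exact h4
    rw [lc9_fr (p := p) (W := Vs em i), lc9_fr (p := p) (W := Vs em i')] at h6
    exact (Nat.pow_le_pow_iff_right hp).mp h6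
  have hbc : ∀ x c, c ∈ Cs em {i, i'} → β x c = 0 := by
    intro x c hc
    rw [lc9_sw h x c, h3 c hc x, neg_zero]
  -- the functional
  have hS : (Vs em i').map (β (y1 : V)) < ⊤ := by
    rw [lt_top_iff_ne_top]
    intro htop
    have h7 : Module.finrank (ZMod p) ((Vs em i').map (β (y1 : V))) ≤
        Module.finrank (ZMod p) (Vs em i') := Submodule.finrank_map_le _ _
    rw [htop, finrank_top] at h7
    omega
  obtain ⟨l', hl', hker⟩ := Submodule.exists_le_ker_of_lt_top _ hS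
  have hb2 : ∀ b ∈ Vs em i', l' (β (y1 : V) b) = 0 := by
    intro b hb
    exact hker (Submodule.mem_map_of_mem hb)
  refine ⟨l', hl', ⟨y1, y1.2, ?_, ?_⟩, ?_⟩
  · intro h0
    exact hy1 (Subtype.ext h0)
  · rw [mem_Rad]
    intro w
    obtain ⟨c, hc, a, ha, b, hb, rfl⟩ := lc9_dec h i i' w
    simp only [map_add, hbc _ c hc, h1 _ y1.2 _ ha, map_zero, zero_add]
    exact hb2 b hb
  · -- the kernel of the map of `V₂` to the dual of `V₁`
    let φ : Vs em i' →ₗ[ZMod p] Module.Dual (ZMod p) (Vs em i) :=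
      { toFun := fun y => (l' ∘ₗ β (y : V)) ∘ₗ (Vs em i).subtype
        map_add' := by
          intro a b
          ext x
          simp
        map_smul' := by
          intro c a
          ext x
          simp }
    have hφ : ∀ (y : Vs em i') (x : Vs em i), φ y x = l' (β (y : V) (x : V)) := fun _ _ => rfl
    let ev : Module.Dual (ZMod p) (Module.Dual (ZMod p) (Vs em i)) :=
      Module.Dual.eval (ZMod p) (Vs em i) y1
    have hev0 : ev ≠ 0 := by
      intro h0
      apply hy1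
      exact (Module.forall_dual_apply_eq_zero_iff (ZMod p) y1).mp fun f => by
        have h11 := LinearMap.congr_fun h0 f
        exact h11
    have hrange : LinearMap.range φ ≤ LinearMap.ker ev := by
      rintro _ ⟨y, rfl⟩
      rw [LinearMap.mem_ker]
      show φ y y1 = 0
      rw [hφ, lc9_sw h, map_neg, hb2 _ y.2, neg_zero]
    have hev1 : Module.finrank (ZMod p) (LinearMap.ker ev) + 1 =
        Module.finrank (ZMod p) (Vs em i) := by
      rw [Module.Dual.finrank_ker_add_one_of_ne_zero hev0, Subspace.dual_finrank_eq]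
    have hk : LinearMap.ker φ ≠ ⊥ := by
      intro hbot
      have h8 : Module.finrank (ZMod p) (LinearMap.range φ) =
          Module.finrank (ZMod p) (Vs em i') := by
        exact LinearMap.finrank_range_of_inj (LinearMap.ker_eq_bot.mp hbot)
      have h9 := Submodule.finrank_mono hrange
      omega
    obtain ⟨y2, hy2, hy20⟩ := (Submodule.ne_bot_iff _).mp hk
    refine ⟨y2, y2.2, ?_, ?_⟩
    · intro h0
      exact hy20 (Subtype.ext h0)
    · rw [mem_Rad]
      intro w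
      obtain ⟨c, hc, a, ha, b, hb, rfl⟩ := lc9_dec h i i' w
      simp only [map_add, hbc _ c hc, h2 _ y2.2 _ hb, map_zero, zero_add, add_zero]
      have h10 := hφ y2 ⟨a, ha⟩
      rw [LinearMap.mem_ker.mp hy2] at h10
      exact h10.symm
-- END lc9

-- BEGIN lc10
/-- the value of the sum on one summand -/
private theorem lc10_val (y : ∀ i, (F i).X) (i : Fin n) (v : V) (hv : v ∈ Vs em i) :
    (∑ i', em i' (y i')) v = em i (y i) v := by
  rw [LinearMap.sum_apply]
  refine Finset.sum_eq_single i (fun i' _ hi' => hv i' hi' _) (fun h => absurd (Finset.mem_univ i) h)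

/-- The group of the elements which fix `l` and the restriction of `m` to the radical. -/
def fx2 (hl : Ltg p ρV ρU β) (l : Module.Dual (ZMod p) U) (m : Module.Dual (ZMod p) V) :
    Subgroup H where
  carrier := {g | Fx2 ρV ρU β l m g}
  one_mem' := by
    refine ⟨fun u => ?_, fun v _ => ?_⟩
    · rw [map_one, Module.End.one_apply]
    · rw [map_one, Module.End.one_apply]
  mul_mem' := by
    rintro a b ⟨ha1, ha2⟩ ⟨hb1, hb2⟩
    refine ⟨fun u => ?_, fun v hv => ?_⟩
    · rw [map_mul, Module.End.mul_apply, ha1, hb1]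
    · rw [map_mul, Module.End.mul_apply, ha2 _ (rad_inv hl l b hb1 v hv), hb2 v hv]
  inv_mem' := by
    rintro a ⟨ha1, ha2⟩
    have h1 : FixL ρU l a⁻¹ := by
      intro u
      have h2 := ha1 (ρU a⁻¹ u)
      rw [← Module.End.mul_apply, ← map_mul, mul_inv_cancel, map_one, Module.End.one_apply] at h2
      exact h2.symm
    refine ⟨h1, fun v hv => ?_⟩
    have h2 := ha2 _ (rad_inv hl l a⁻¹ h1 v hv)
    rw [← Module.End.mul_apply, ← map_mul, mul_inv_cancel, map_one, Module.End.one_apply] at h2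
    exact h2.symm

theorem mem_fx2 (hl : Ltg p ρV ρU β) (l : Module.Dual (ZMod p) U) (m : Module.Dual (ZMod p) V)
    (g : H) : g ∈ fx2 hl l m ↔ Fx2 ρV ρU β l m g := Iff.rfl

/-- (lc10) If `m` is given by `z` on a summand, and is not zero on its intersection with the radical
of `l`, then the elements which fix `l` and `m` fix a nonzero vector of the module: the sum of the
conjugates of `z`. -/
theorem fixv (h : LS ρV ρU β A B F em) (l : Module.Dual (ZMod p) U) (m : Module.Dual (ZMod p) V)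
    (i : Fin n) (z : (F i).X) (hm : ∀ w ∈ Vs em i, m w = em i z w)
    (hw : ∃ w ∈ Vs em i, w ∈ Rad β l ∧ em i z w ≠ 0) :
    ∃ z' : (F i).X, z' ≠ 0 ∧ ∀ g, Fx2 ρV ρU β l m g → (F i).ρ g z' = z' := by
  classical
  have hfin := Fintype.ofFinite (fx2 h.ltg l m)
  refine ⟨∑ s : fx2 h.ltg l m, (F i).ρ (s : H) z, ?_, ?_⟩
  · obtain ⟨w, hw1, hw2, hw3⟩ := hw
    intro h0
    have h1 : em i (∑ s : fx2 h.ltg l m, (F i).ρ (s : H) z) w =
        (Fintype.card (fx2 h.ltg l m) : ZMod p) * em i z w := by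
      rw [map_sum, LinearMap.sum_apply]
      have h2 : ∀ s : fx2 h.ltg l m, em i ((F i).ρ (s : H) z) w = em i z w := by
        intro s
        rw [h.eqv]
        have h3 : Fx2 ρV ρU β l m (s : H)⁻¹ := (fx2 h.ltg l m).inv_mem s.2
        have h4 : ρV (s : H)⁻¹ w ∈ Vs em i := (vs_dec h).1 i _ (Subgroup.mem_top _) w hw1
        rw [← hm _ h4, ← hm _ hw1]
        exact h3.2 w hw2
      rw [Finset.sum_congr rfl fun s _ => h2 s, Finset.sum_const, Finset.card_univ, nsmul_eq_mul]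
    rw [h0, map_zero, LinearMap.zero_apply, eq_comm, mul_eq_zero] at h1
    rcases h1 with h1 | h1
    · rw [ZMod.natCast_eq_zero_iff, ← Nat.card_eq_fintype_card] at h1
      exact h.ltg.pH (h1.trans (Subgroup.card_subgroup_dvd_card (fx2 h.ltg l m)))
    · exact hw3 h1
  · intro g hg
    rw [map_sum]
    have h1 : ∀ s : fx2 h.ltg l m, (F i).ρ g ((F i).ρ (s : H) z) =
        (F i).ρ ((⟨g, hg⟩ * s : fx2 h.ltg l m) : H) z := by
      intro s
      rw [Subgroup.coe_mul, map_mul, Module.End.mul_apply]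
    rw [Finset.sum_congr rfl fun s _ => h1 s]
    exact Fintype.sum_equiv (Equiv.mulLeft (⟨g, hg⟩ : fx2 h.ltg l m)) _ _ fun s => rfl

private theorem lc10_inv {X : Type} [AddCommGroup X] [Module (ZMod p) X]
    (ρ : Representation (ZMod p) H X) (g : H) (x : X) (hx : ρ g x = x) : ρ g⁻¹ x = x := by
  have h1 : ρ g⁻¹ (ρ g x) = x := by
    rw [← Module.End.mul_apply, ← map_mul, inv_mul_cancel, map_one, Module.End.one_apply]
  rwa [hx] at h1

private theorem lc10_em (h : LS ρV ρU β A B F em) (i : Fin n) (g : H) (x : (F i).X) (w : V) :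
    em i x (ρV g w) = em i ((F i).ρ g⁻¹ x) w := by
  have h1 := h.eqv i g⁻¹ x w
  rw [inv_inv] at h1
  exact h1.symm

/-- (lc10) Case Y. PROOF. `m T = ∑ em i (y i)` with `y i = T i` for `i ∉ I`, and a fixed `y i` for
`i ∈ I`, not zero at `w_i ∈ Vs em i ⊓ Rad β l` (`vs_dec`). For `i ∉ I`: `Vs em i ≤ Rad β l`, so an
element which fixes `m T` on the radical fixes `T i`. `fixv` for `i ∈ I`. -/
theorem cy_hi (h : LS ρV ρU β A B F em) (hY : CY β em) :
    ∃ l : Module.Dual (ZMod p) U, l ≠ 0 ∧ ∃ (I : Finset (Fin n)) (m₀ : Module.Dual (ZMod p) V)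
      (m : (∀ i, (F i).X) → Module.Dual (ZMod p) V),
      (∀ i ∈ I, Subsingleton (F i).J ∧ Abq (F i).ρ (F i).W (F i).UU) ∧
      (∀ i ∈ I, ∃ z : (F i).X, z ≠ 0 ∧ ∀ g, Fx2 ρV ρU β l m₀ g → (F i).ρ g z = z) ∧
      ∀ T g, Fx2 ρV ρU β l (m T) g ↔
        Fx2 ρV ρU β l m₀ g ∧ ∀ i, i ∉ I → (F i).ρ g (T i) = T i := by
  classical
  obtain ⟨l, hl, I, hI, hC, hw⟩ := hY
  obtain ⟨hiv, -, -, -, hz0, hsu, -, -, hle, -⟩ := vs_dec h
  have hx : ∀ i ∈ I, ∃ x : (F i).X, ∃ w ∈ Vs em i, w ∈ Rad β l ∧ em i x w ≠ 0 := by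
    intro i hi
    obtain ⟨w, hw1, hw0, hw2⟩ := hw i hi
    have h1 : ¬ ∀ f : Module.Dual (ZMod p) V, f w = 0 := by
      rw [Module.forall_dual_apply_eq_zero_iff (ZMod p) w]
      exact hw0
    rw [not_forall] at h1
    obtain ⟨f, hf⟩ := h1
    obtain ⟨x, hx⟩ := hsu i f
    exact ⟨x, w, hw1, hw2, by rwa [hx w hw1]⟩
  choose! xx hxx using hx
  let y0 : ∀ i, (F i).X := fun i => if i ∈ I then xx i else 0
  let yT : (∀ i, (F i).X) → ∀ i, (F i).X := fun T i => if i ∈ I then xx i else T i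
  let dT : (∀ i, (F i).X) → ∀ i, (F i).X := fun T i => if i ∈ I then 0 else T i
  have hsum : ∀ T w, (∑ i', em i' (yT T i')) w = (∑ i', em i' (y0 i')) w +
      (∑ i', em i' (dT T i')) w := by
    intro T w
    rw [← LinearMap.add_apply, ← Finset.sum_add_distrib]
    congr 1
    refine Finset.sum_congr rfl fun i _ => ?_
    rw [← map_add]
    congr 1
    by_cases hi : i ∈ I
    · simp only [yT, y0, dT, if_pos hi, add_zero]
    · simp only [yT, y0, dT, if_neg hi, zero_add]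
  have hdT : ∀ T g, (∀ i, i ∉ I → (F i).ρ g (T i) = T i) → ∀ w,
      (∑ i', em i' (dT T i')) (ρV g w) = (∑ i', em i' (dT T i')) w := by
    intro T g hg w
    rw [LinearMap.sum_apply, LinearMap.sum_apply]
    refine Finset.sum_congr rfl fun i _ => ?_
    rw [lc10_em h]
    congr 2
    by_cases hi : i ∈ I
    · simp only [dT, if_pos hi, map_zero]
    · simp only [dT, if_neg hi]
      exact lc10_inv _ _ _ (hg i hi)
  refine ⟨l, hl, I, ∑ i', em i' (y0 i'), fun T => ∑ i', em i' (yT T i'), hI, ?_, ?_⟩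
  · intro i hi
    refine fixv h l _ i (xx i) (fun w hw => ?_) (hxx i hi)
    rw [lc10_val y0 i w hw]
    simp only [y0, if_pos hi]
  · intro T g
    constructor
    · intro hg
      have hT : ∀ i, i ∉ I → (F i).ρ g (T i) = T i := by
        intro i hi
        have h1 : (F i).ρ g⁻¹ (T i) - T i = 0 := by
          apply hz0 i
          intro w hw
          have hwR : w ∈ Rad β l := by
            intro w'
            rw [hC w (hle I i hi hw), map_zero]
          have h2 := hg.2 w hwR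
          rw [lc10_val _ i _ (hiv i g (Subgroup.mem_top g) w hw), lc10_val _ i _ hw] at h2
          simp only [yT, if_neg hi] at h2
          rw [map_sub, LinearMap.sub_apply, h.eqv, inv_inv, h2, sub_self]
        have h2 := lc10_inv (F i).ρ g⁻¹ (T i) (sub_eq_zero.1 h1)
        rwa [inv_inv] at h2
      refine ⟨⟨hg.1, fun w hw => ?_⟩, hT⟩
      have h1 := hg.2 w hw
      change (∑ i', em i' (yT T i')) (ρV g w) = (∑ i', em i' (yT T i')) w at h1
      rw [hsum T (ρV g w), hsum T w, hdT T g hT w] at h1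
      exact add_right_cancel h1
    · rintro ⟨hg, hT⟩
      refine ⟨hg.1, fun w hw => ?_⟩
      change (∑ i', em i' (yT T i')) (ρV g w) = (∑ i', em i' (yT T i')) w
      rw [hsum T (ρV g w), hsum T w, hdT T g hT w, hg.2 w hw]
-- END lc10

-- BEGIN lc11
/-- A Sylow subgroup which is trivial on a module: all are. -/
private theorem lc11_conj {X : Type} [AddCommGroup X] [Module (ZMod p) X]
    (ρ : Representation (ZMod p) H X) (r : ℕ) [Fact r.Prime] (R : Sylow r H)
    (hR : ∀ x ∈ (R : Subgroup H), ∀ v, ρ x v = v) :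
    ∀ R' : Sylow r H, ∀ x ∈ (R' : Subgroup H), ∀ v, ρ x v = v := by
  intro R' x hx v
  obtain ⟨g, hg⟩ := MulAction.exists_smul_eq H R R'
  rw [← hg, Sylow.coe_subgroup_smul, Subgroup.mem_pointwise_smul_iff_inv_smul_mem] at hx
  have h1 : g⁻¹ * x * g ∈ (R : Subgroup H) := by
    have h2 : (MulAut.conj g)⁻¹ • x = g⁻¹ * x * g := by
      rw [← map_inv, MulAut.smul_def, MulAut.conj_apply, inv_inv]
    rw [← h2]
    exact hx
  have h3 := hR _ h1 (ρ g⁻¹ v)
  have h4 : ρ g (ρ (g⁻¹ * x * g) (ρ g⁻¹ v)) = ρ x v := by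
    rw [← Module.End.mul_apply, ← Module.End.mul_apply, ← map_mul, ← map_mul]
    congr 2
    group
  rw [← h4, h3, ← Module.End.mul_apply, ← map_mul, mul_inv_cancel, map_one, Module.End.one_apply]

omit [Finite H] in
/-- If all the Sylow subgroups are trivial on the module then so is `cm A r`. -/
private theorem lc11_cm {X : Type} [AddCommGroup X] [Module (ZMod p) X]
    (ρ : Representation (ZMod p) H X) (A : Subgroup H) (r : ℕ)
    (hR : ∀ R : Sylow r H, ∀ x ∈ (R : Subgroup H), ∀ v, ρ x v = v) :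
    ∀ c ∈ cm A r, ∀ v, ρ c v = v := by
  intro c hc v
  have h1 : (⨆ R : Sylow r H, (R : Subgroup H)) ≤ MonoidHom.ker ρ := by
    refine iSup_le fun R x hx => ?_
    rw [MonoidHom.mem_ker]
    exact LinearMap.ext fun w => hR R x hx w
  have h2 : cm A r ≤ MonoidHom.ker ρ :=
    (Subgroup.commutator_mono le_rfl h1).trans (Subgroup.commutator_le_right _ _)
  have h3 := h2 hc
  rw [MonoidHom.mem_ker] at h3
  rw [h3, Module.End.one_apply]

omit [Finite H] in
/-- A power of a nontrivial element of `r`-power order which acts with order `r`. -/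
private theorem lc11_pow {X : Type} [AddCommGroup X] [Module (ZMod p) X]
    (ρ : Representation (ZMod p) H X) (r : ℕ) [Fact r.Prime] (R : Sylow r H) (x : H)
    (hx : x ∈ (R : Subgroup H)) (hn : ∃ v, ρ x v ≠ v) :
    ∃ y ∈ (R : Subgroup H), (∃ v, ρ y v ≠ v) ∧ ∀ v, ρ (y ^ r) v = v := by
  obtain ⟨k, hk⟩ := R.isPGroup' ⟨x, hx⟩
  have hk' : x ^ r ^ k = 1 := by
    have := congrArg (Subtype.val) hk
    simpa using this
  have hex : ∃ k, ∀ v, ρ (x ^ r ^ k) v = v := ⟨k, fun v => by rw [hk', map_one]; rfl⟩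
  classical
  have h0 : Nat.find hex ≠ 0 := by
    intro h0
    have h1 := Nat.find_spec hex
    rw [h0, pow_zero, pow_one] at h1
    obtain ⟨v, hv⟩ := hn
    exact hv (h1 v)
  obtain ⟨m, hm⟩ := Nat.exists_eq_succ_of_ne_zero h0
  have h2 := Nat.find_min hex (show m < Nat.find hex by omega)
  push Not at h2
  refine ⟨x ^ r ^ m, Subgroup.pow_mem _ hx _, h2, ?_⟩
  intro v
  have h3 := Nat.find_spec hex v
  rw [hm, Nat.succ_eq_add_one, pow_succ, pow_mul] at h3
  exact h3

/-- The fixed vectors of an element of order `r` outside `UU j`, one block. -/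
private theorem lc11_gal {X J : Type} [AddCommGroup X] [Module (ZMod p) X] [Finite X]
    {ρ : Representation (ZMod p) H X} {W : J → Submodule (ZMod p) X} {UU : J → Subgroup H}
    (h : BS ρ W UU) (hab : Abq ρ W UU) (r : ℕ) (hr : r.Prime) (j : J) (hj : W j = ⊤) (x : H)
    (hx : ∀ v, ρ (x ^ r) v = v) (hxU : x ∉ UU j) :
    Nat.card {w : X // ρ x w = w} ^ r ≤ Nat.card X := by
  obtain ⟨L, iL, iF, ρL, π, U, hπ, hρ, hQ, hU⟩ := bs_qp h j
  have hNm : ∀ g : H, g ∈ Nm ρ (W j) := by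
    intro g
    rw [mem_Nm, hj, Submodule.map_top, LinearMap.range_eq_top]
    intro v
    refine ⟨ρ g⁻¹ v, ?_⟩
    rw [← Module.End.mul_apply, ← map_mul, mul_inv_cancel, map_one, Module.End.one_apply]
  have hnt : Nontrivial (W j) := (Submodule.nontrivial_iff_ne_bot).2 (h.ne j)
  obtain ⟨a, -, -, -, -, -, hg⟩ := qp_gal hQ
  have h1 : (π ⟨x, hNm x⟩) ^ r = 1 := by
    apply hQ.fai
    intro w
    apply Subtype.ext
    rw [← map_pow, hρ]
    exact hx w
  have habU : ∀ a b : L, a * b * a⁻¹ * b⁻¹ ∈ U := by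
    intro a b
    obtain ⟨g, rfl⟩ := hπ a
    obtain ⟨g', rfl⟩ := hπ b
    rw [← map_mul, ← map_inv, ← map_mul, ← map_inv, ← map_mul, hU]
    exact hab j g g.2 g' g'.2
  have h2 : π ⟨x, hNm x⟩ ∉ Subgroup.centralizer (U : Set L) := by
    intro hc
    rw [Subgroup.mem_centralizer_iff] at hc
    apply hxU
    rw [← hU ⟨x, hNm x⟩]
    have hle : U ≤ U ⊔ Subgroup.zpowers (π ⟨x, hNm x⟩) := le_sup_left
    have hmem : π ⟨x, hNm x⟩ ∈ U ⊔ Subgroup.zpowers (π ⟨x, hNm x⟩) :=
      Subgroup.mem_sup_right (Subgroup.mem_zpowers _)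
    refine hQ.mx (U ⊔ Subgroup.zpowers (π ⟨x, hNm x⟩)) ⟨⟨?_⟩, ?_⟩ hle hmem
    · intro n hn g
      have h3 : g * n * g⁻¹ = (g * n * g⁻¹ * n⁻¹) * n := by group
      rw [h3]
      exact Subgroup.mul_mem _ (hle (habU g n)) hn
    · have k1 : U ≤ Subgroup.centralizer (U : Set L) := by
        intro a ha
        rw [Subgroup.mem_centralizer_iff]
        intro b hb
        exact hQ.ab.com b hb a ha
      have k2 : Subgroup.zpowers (π ⟨x, hNm x⟩) ≤ Subgroup.centralizer (U : Set L) := by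
        rw [Subgroup.zpowers_le, Subgroup.mem_centralizer_iff]
        exact hc
      have k3 := Subgroup.le_centralizer_iff.1 (sup_le k1 k2)
      have k4 := Subgroup.le_centralizer_iff.1
        (sup_le (Subgroup.le_centralizer_iff.1 k2) (Subgroup.le_centralizer (Subgroup.zpowers (π ⟨x, hNm x⟩))))
      have h4 : U ⊔ Subgroup.zpowers (π ⟨x, hNm x⟩) ≤
          Subgroup.centralizer ((U ⊔ Subgroup.zpowers (π ⟨x, hNm x⟩) : Subgroup L) : Set L) :=
        sup_le k3 k4
      intro a ha b hb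
      have h5 := Subgroup.mem_centralizer_iff.1 (h4 ha) b hb
      exact h5.symm
  have h3 := hg r (π ⟨x, hNm x⟩) hr h1 h2
  have e1 : Nat.card (W j) = Nat.card X := by
    rw [hj]
    exact Nat.card_congr Submodule.topEquiv.toEquiv
  have e2 : Nat.card {w : X // ρ x w = w} = Nat.card {w : W j // ρL (π ⟨x, hNm x⟩) w = w} := by
    refine Nat.card_congr ⟨fun w => ⟨⟨w, by rw [hj]; exact Submodule.mem_top⟩, ?_⟩,
      fun w => ⟨w.1, ?_⟩, fun w => rfl, fun w => rfl⟩
    · apply Subtype.ext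
      rw [hρ]
      exact w.2
    · have h4 := congrArg (Subtype.val) w.2
      rw [hρ] at h4
      exact h4
  rw [e2, ← e1]
  exact h3

/-- (lc11, size 4) Case C. PROOF. `V₁ = Vs em i`, `C = Cs em {i}`. `R` (a Sylow subgroup which fixes `l`, `ha.fix`) is trivial on `C` (`out`), not on `(F i).X`. For `x ∈ R`, `v ∈ V₁`, `c ∈ C`: `l (β (x v) c) = l (β (x v) (x c)) = l (β v c)`; with
`h0`: `x v - v ∈ Rad β l`. Take `x ∈ R` which acts on `(F i).X` with order `r` (a power of a non-trivial element). The functionals in the set of `Spc` vanish on all `x v - v`, so they are the fixed vectors of `x` on `(F i).X`. `bt` gives `Abq`, `Ufr`.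
`bs_qp` for the single block (`W j = ⊤`): the image `x'` of `x` in `L` has `x' ^ r = 1`; `L / U` is abelian, so the centralizer of `U` is `U` (a subgroup `⟨U, z⟩`, `z` in the centralizer, is normal, as `L / U` is abelian,
and commutative; `mx`), and `x'` is not in `U` by `Ufr`. `qp_gal`: `card (fixed vectors) ^ r ≤ card (F i).X`, `r ≥ 3`. Some `v ∈ V₁` is not in `Rad β l`: otherwise `l` is zero on all values of `β` (`ana_two`: `β (C, C) = 0`), contradiction to `ltg_ne`. -/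
theorem case_C (h : LS ρV ρU β A B F em) (l : Module.Dual (ZMod p) U) (hl0 : l ≠ 0) (r : ℕ)
    (hr : r ∈ B) (hD : cm A r ≠ ⊥) (i : Fin n) (ha : Anl ρU A F l r {i})
    (h0 : ∀ x ∈ Vs em i, ∀ y ∈ Vs em i, β x y = 0) : Spc em β l i := by
  have hrp : r.Prime := (h.ar r hr).prime
  have hr3 : 3 ≤ r := h.b3 r hr
  have : Fact r.Prime := ⟨hrp⟩
  obtain ⟨d1, -, -, -, d5, -, -, d8, -, -⟩ := vs_dec h
  have hii : i ∈ ({i} : Finset (Fin n)) := Finset.mem_singleton_self i
  have hsub : Subsingleton (F i).J := ha.one i hii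
  obtain ⟨R, hR⟩ := ha.fix
  -- some Sylow subgroup is not trivial on `(F i).X`
  have hnt : ¬ ∀ R' : Sylow r H, ∀ x ∈ (R' : Subgroup H), ∀ v, (F i).ρ x v = v := by
    intro hcon
    obtain ⟨c, hc, x, hx⟩ := (ha.hI i).1 hii
    exact hx (lc11_cm (F i).ρ A r hcon c hc x)
  have hRn : ∃ x ∈ (R : Subgroup H), ∃ v, (F i).ρ x v ≠ v := by
    by_contra hcon
    push Not at hcon
    exact hnt (lc11_conj (F i).ρ r R hcon)
  rcases h.bt r hr i with hb | ⟨-, hab, hU⟩
  · exact absurd hb hnt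
  obtain ⟨x₀, hx₀, hx₀n⟩ := hRn
  obtain ⟨x, hx, hxn, hxr⟩ := lc11_pow (F i).ρ r R x₀ hx₀ hx₀n
  obtain ⟨j⟩ : Nonempty (F i).J := by
    by_contra hne
    rw [not_nonempty_iff] at hne
    have h1 := (F i).bs.sup
    rw [iSup_of_empty] at h1
    exact bot_ne_top h1
  have hj : (F i).W j = ⊤ := by
    rw [eq_top_iff, ← (F i).bs.sup]
    refine iSup_le fun j' => ?_
    rw [Subsingleton.elim j' j]
  have hxU : x ∉ (F i).UU j := by
    intro hxU
    obtain ⟨v, hv⟩ := hxn
    refine hv (hU j x hxU (fun w _ => hxr w) v ?_)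
    rw [hj]
    exact Submodule.mem_top
  have hgal := lc11_gal (F i).bs hab r hrp j hj x hxr hxU
  -- `x` is trivial on `Cs em {i}`
  have hxC : ∀ c ∈ Cs em {i}, ρV x c = c := by
    intro c hc
    rw [← sub_eq_zero]
    rw [← Module.forall_dual_apply_eq_zero_iff (ZMod p)]
    have hE : (⊤ : Submodule (ZMod p) (Module.Dual (ZMod p) V)) ≤
        LinearMap.ker (Module.Dual.eval (ZMod p) V (ρV x c - c)) := by
      rw [← h.sup]
      refine iSup_le fun i' => ?_
      rintro _ ⟨y, rfl⟩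
      rw [LinearMap.mem_ker, Module.Dual.eval_apply, map_sub, sub_eq_zero]
      have h1 : em i' y (ρV x c) = em i' ((F i').ρ x⁻¹ y) c := by
        rw [h.eqv, inv_inv]
      rw [h1]
      by_cases hi' : i' = i
      · subst hi'
        rw [hc i' hii, hc i' hii]
      · rw [ha.out i' (by rwa [Finset.mem_singleton]) R x⁻¹ (Subgroup.inv_mem _ hx)]
    intro f
    exact hE (Submodule.mem_top (x := f))
  have hV : ∀ w : V, ∃ c ∈ Cs em {i}, ∃ w' ∈ Vs em i, w = c + w' := by
    intro w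
    have h1 : w ∈ Cs em {i} ⊔ ⨆ i' ∈ ({i} : Finset (Fin n)), Vs em i' := by
      rw [d8]
      exact Submodule.mem_top
    rw [Finset.iSup_singleton, Submodule.mem_sup] at h1
    obtain ⟨c, hc, w', hw', he⟩ := h1
    exact ⟨c, hc, w', hw', he.symm⟩
  have hrad : ∀ v ∈ Vs em i, ρV x v - v ∈ Rad β l := by
    intro v hv
    rw [mem_Rad]
    intro w
    obtain ⟨c, hc, w', hw', rfl⟩ := hV w
    have hxv : ρV x v ∈ Vs em i := d1 i x (Subgroup.mem_top x) v hv
    have e1 : β (ρV x v - v) w' = 0 := h0 _ (Submodule.sub_mem _ hxv hv) _ hw'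
    have e2 : l (β (ρV x v) c) = l (β v c) := by
      conv_lhs => rw [← hxC c hc, h.ltg.eqv]
      exact hR x hx _
    rw [map_add, map_add, e1, map_zero, add_zero, map_sub, LinearMap.sub_apply, map_sub, e2, sub_self]
  refine ⟨hsub, hab, ?_, ?_⟩
  · by_contra hcon
    push Not at hcon
    obtain ⟨v, w, hvw⟩ := ltg_ne h.ltg l hl0
    obtain ⟨c, hc, v', hv', rfl⟩ := hV v
    obtain ⟨c', hc', w', hw', rfl⟩ := hV w
    have hsk : ∀ a b, β a b = - β b a := by
      intro a b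
      have h1 := h.ltg.alt (a + b)
      rw [map_add, map_add, LinearMap.add_apply, LinearMap.add_apply, h.ltg.alt, h.ltg.alt, zero_add,
        add_zero] at h1
      rw [eq_neg_iff_add_eq_zero, add_comm]
      exact h1
    apply hvw
    have e1 : l (β v' (c' + w')) = 0 := (mem_Rad β l v').1 (hcon v' hv') _
    have e2 : l (β c w') = 0 := by
      rw [hsk, map_neg, (mem_Rad β l w').1 (hcon w' hw') _, neg_zero]
    have e3 : β c c' = 0 := (ana_two h l r hD {i} ha).1 c hc c' hc'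
    have e4 : β (c + v') (c' + w') = β c c' + β c w' + β v' (c' + w') := by
      rw [map_add β c v', LinearMap.add_apply, map_add (β c)]
    rw [e4, map_add, e1, add_zero, e3, zero_add, e2]
  · -- the functionals of the set are fixed by `x`
    have hfix : ∀ y : (F i).X, (∀ v ∈ Rad β l, v ∈ Vs em i → em i y v = 0) → (F i).ρ x y = y := by
      intro y hy
      have h1 : (F i).ρ x⁻¹ y - y = 0 := by
        apply d5 i
        intro v hv
        have hxv : ρV x v ∈ Vs em i := d1 i x (Subgroup.mem_top x) v hv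
        have h2 := hy _ (hrad v hv) (Submodule.sub_mem _ hxv hv)
        rw [map_sub, LinearMap.sub_apply, h.eqv, inv_inv, ← map_sub]
        exact h2
      rw [sub_eq_zero] at h1
      have h2 : (F i).ρ x ((F i).ρ x⁻¹ y) = y := by
        rw [← Module.End.mul_apply, ← map_mul, mul_inv_cancel, map_one, Module.End.one_apply]
      rw [h1] at h2
      exact h2
    have hle : Nat.card {y : (F i).X // ∀ v ∈ Rad β l, v ∈ Vs em i → em i y v = 0} ≤
        Nat.card {w : (F i).X // (F i).ρ x w = w} := by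
      refine Nat.card_le_card_of_injective (fun y => ⟨y.1, hfix y.1 y.2⟩) ?_
      intro y y' hyy
      exact Subtype.ext (Subtype.mk.inj hyy)
    have hpos : 1 ≤ Nat.card {w : (F i).X // (F i).ρ x w = w} := by
      have : Nonempty {w : (F i).X // (F i).ρ x w = w} := ⟨⟨0, map_zero _⟩⟩
      exact Nat.card_pos
    calc _ ≤ Nat.card {w : (F i).X // (F i).ρ x w = w} ^ 3 := Nat.pow_le_pow_left hle 3
      _ ≤ Nat.card {w : (F i).X // (F i).ρ x w = w} ^ r := Nat.pow_le_pow_right hpos (by omega)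
      _ ≤ _ := hgal
-- END lc11

-- BEGIN lc12
/-- Extension of `β x = 0` from the summands. -/
private theorem lc12_l (h : LS ρV ρU β A B F em) (I : Finset (Fin n)) (f : V →ₗ[ZMod p] ZMod p)
    (h1 : ∀ y ∈ Cs em I, f y = 0) (h2 : ∀ i ∈ I, ∀ y ∈ Vs em i, f y = 0) (y : V) : f y = 0 := by
  obtain ⟨_, _, _, _, _, _, _, h8, _⟩ := vs_dec h
  have h3 : Cs em I ⊔ ⨆ i ∈ I, Vs em i ≤ LinearMap.ker f :=
    sup_le (fun y hy => h1 y hy) (iSup₂_le fun i hi y hy => h2 i hi y hy)
  rw [h8 I] at h3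
  exact h3 (Submodule.mem_top (x := y))

private theorem lc12_anti (h : LS ρV ρU β A B F em) (x y : V) : β x y = - β y x := by
  have h1 := h.ltg.alt (x + y)
  rw [map_add, map_add, LinearMap.add_apply, LinearMap.add_apply, h.ltg.alt, h.ltg.alt, zero_add,
    add_zero] at h1
  rw [add_comm] at h1
  exact eq_neg_of_add_eq_zero_left h1

private theorem lc12_dual (p : ℕ) [Fact p.Prime] (M : Type) [AddCommGroup M] [Module (ZMod p) M]
    [Finite M] : Nat.card (Module.Dual (ZMod p) M) = Nat.card M := by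
  rw [Module.natCard_eq_pow_finrank (K := ZMod p), Module.natCard_eq_pow_finrank (K := ZMod p)
    (V := M), Subspace.dual_finrank_eq]

/-- (lc12, size 3) Case B, second part. PROOF. `V₁ = Vs em i`, `V₂ = Vs em i'`. The map `V₂ → Dual V₁`, `y ↦ l (β y ·)` has the kernel `V₂ ⊓ Rad β l`, so the annihilator of `V₂ ⊓ Rad β l` in `(F i').X` has at most `card V₁` elements.
`Abq` from `bt` (some Sylow subgroup is not trivial on `(F i').X`, since `cm A r = ⁅A, R⁆` is not). If `V₂ ≤ Rad β l` then `l` is zero on all values of `β`, contradiction to `ltg_ne`. -/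
theorem case_B2 (h : LS ρV ρU β A B F em) (l : Module.Dual (ZMod p) U) (hl0 : l ≠ 0) (r : ℕ)
    (hr : r ∈ B) (i i' : Fin n) (hi : i ≠ i') (ha : Anl ρU A F l r {i, i'})
    (h1 : ∀ x ∈ Vs em i, ∀ y ∈ Vs em i, β x y = 0)
    (h2 : ∀ x ∈ Vs em i', ∀ y ∈ Vs em i', β x y = 0) (h3 : ∀ x ∈ Cs em {i, i'}, ∀ y, β x y = 0)
    (h4 : Nat.card (F i).X ^ 3 ≤ Nat.card (F i').X) : Spc em β l i' := by
  classical
  obtain ⟨_, _, _, v4, v5, _, _, _, _⟩ := vs_dec h
  have hi'I : i' ∈ ({i, i'} : Finset (Fin n)) := by simp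
  have h3' : ∀ x ∈ Cs em {i, i'}, ∀ y, β y x = 0 := by
    intro x hx y
    rw [lc12_anti h, h3 x hx y, neg_zero]
  refine ⟨ha.one i' hi'I, ?_, ?_, ?_⟩
  · -- the type of `r`
    rcases h.bt r hr i' with hb | hb
    · exfalso
      obtain ⟨c, hc, x, hx⟩ := (ha.hI i').1 hi'I
      apply hx
      let K : Subgroup H :=
        { carrier := {g | ∀ x, (F i').ρ g x = x}
          one_mem' := by
            intro x
            rw [map_one]
            rfl
          mul_mem' := by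
            intro a b ha hb x
            rw [map_mul, Module.End.mul_apply, hb, ha]
          inv_mem' := by
            intro a ha x
            conv_lhs => rw [← ha x]
            rw [← Module.End.mul_apply, ← map_mul, inv_mul_cancel, map_one,
              Module.End.one_apply] }
      have hK : K.Normal := ⟨fun z hz g x => by
        rw [map_mul, map_mul, Module.End.mul_apply, Module.End.mul_apply, hz,
          ← Module.End.mul_apply, ← map_mul, mul_inv_cancel, map_one, Module.End.one_apply]⟩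
      have hRK : (⨆ R : Sylow r H, (R : Subgroup H)) ≤ K := iSup_le fun R z hz => hb R z hz
      have hcK : cm A r ≤ K := (Subgroup.commutator_mono le_rfl hRK).trans
        (Subgroup.commutator_le_right _ _)
      exact hcK hc x
    · exact hb.2.1
  · by_contra hcon
    push Not at hcon
    obtain ⟨v, w, hvw⟩ := ltg_ne h.ltg l hl0
    apply hvw
    have e1 : ∀ x ∈ Vs em i', ∀ y, l (β x y) = 0 := fun x hx y => hcon x hx y
    have e2 : ∀ x ∈ Vs em i, ∀ y, l (β x y) = 0 := by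
      intro x hx y
      refine lc12_l h {i, i'} (l ∘ₗ β x) (fun y hy => ?_) (fun j hj y hy => ?_) y
      · rw [LinearMap.comp_apply, h3' y hy, map_zero]
      · rw [LinearMap.comp_apply]
        rw [Finset.mem_insert, Finset.mem_singleton] at hj
        rcases hj with rfl | rfl
        · rw [h1 x hx y hy, map_zero]
        · rw [lc12_anti h, map_neg, e1 y hy x, neg_zero]
    have e3 : ∀ y, l (β y w) = 0 := by
      intro y
      refine lc12_l h {i, i'} (l ∘ₗ β.flip w) (fun y hy => ?_) (fun j hj y hy => ?_) y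
      · rw [LinearMap.comp_apply, LinearMap.flip_apply, h3 y hy, map_zero]
      · rw [LinearMap.comp_apply, LinearMap.flip_apply]
        rw [Finset.mem_insert, Finset.mem_singleton] at hj
        rcases hj with rfl | rfl
        · exact e2 y hy w
        · exact e1 y hy w
    exact e3 v
  · refine le_trans (Nat.pow_le_pow_left ?_ 3) h4
    -- the map `V₂ → Dual V₁`
    let f : Vs em i' →ₗ[ZMod p] Module.Dual (ZMod p) (Vs em i) :=
      { toFun := fun y => (l ∘ₗ β (y : V)) ∘ₗ (Vs em i).subtype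
        map_add' := by
          intro a b
          refine LinearMap.ext fun x => ?_
          change l (β ((a : V) + (b : V)) (x : V)) = l (β (a : V) (x : V)) + l (β (b : V) (x : V))
          rw [map_add, LinearMap.add_apply, map_add]
        map_smul' := by
          intro c a
          refine LinearMap.ext fun x => ?_
          change l (β (c • (a : V)) (x : V)) = c • l (β (a : V) (x : V))
          rw [map_smul, LinearMap.smul_apply, map_smul] }
    have hf : ∀ (y : Vs em i') (x : Vs em i), f y x = l (β (y : V) (x : V)) := fun _ _ => rfl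
    have hker : ∀ y : Vs em i', y ∈ LinearMap.ker f → (y : V) ∈ Rad β l := by
      intro y hy
      rw [LinearMap.mem_ker] at hy
      rw [mem_Rad]
      intro w
      refine lc12_l h {i, i'} (l ∘ₗ β (y : V)) (fun z hz => ?_) (fun j hj z hz => ?_) w
      · rw [LinearMap.comp_apply, h3' z hz, map_zero]
      · rw [LinearMap.comp_apply]
        rw [Finset.mem_insert, Finset.mem_singleton] at hj
        rcases hj with rfl | rfl
        · have h5 := hf y ⟨z, hz⟩
          rw [hy] at h5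
          exact h5.symm
        · rw [h2 y y.2 z hz, map_zero]
    have hfinD : Finite (Module.Dual (ZMod p) (Vs em i)) := DFunLike.finite _
    have hfinDD : Finite (Module.Dual (ZMod p) (Module.Dual (ZMod p) (Vs em i))) :=
      DFunLike.finite _
    have hfinD' : Finite (Module.Dual (ZMod p) (Vs em i')) := DFunLike.finite _
    let Φ : {x : (F i').X // ∀ v ∈ Rad β l, v ∈ Vs em i' → em i' x v = 0} →
        LinearMap.range f.dualMap := fun x =>
      ⟨em i' x.1 ∘ₗ (Vs em i').subtype, by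
        rw [LinearMap.range_dualMap_eq_dualAnnihilator_ker, Submodule.mem_dualAnnihilator]
        intro y hy
        exact x.2 y (hker y hy) y.2⟩
    have hΦ : Function.Injective Φ := by
      intro x y hxy
      have h5 : em i' x.1 ∘ₗ (Vs em i').subtype = em i' y.1 ∘ₗ (Vs em i').subtype :=
        congrArg Subtype.val hxy
      refine Subtype.ext (sub_eq_zero.1 (v5 i' _ fun v hv => ?_))
      have h6 := LinearMap.congr_fun h5 ⟨v, hv⟩
      rw [map_sub, LinearMap.sub_apply, sub_eq_zero]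
      exact h6
    calc Nat.card {x : (F i').X // ∀ v ∈ Rad β l, v ∈ Vs em i' → em i' x v = 0}
        ≤ Nat.card (LinearMap.range f.dualMap) := Nat.card_le_card_of_injective Φ hΦ
      _ ≤ Nat.card (Module.Dual (ZMod p) (Module.Dual (ZMod p) (Vs em i))) :=
          Nat.card_le_card_of_surjective _ (LinearMap.surjective_rangeRestrict f.dualMap)
      _ = Nat.card (F i).X := by
          rw [lc12_dual, lc12_dual, v4 i]
-- END lc12

end

section
variable {p : ℕ} [Fact p.Prime] {H V U : Type} [Group H] [Finite H] [AddCommGroup V]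
  [Module (ZMod p) V] [Finite V] [AddCommGroup U] [Module (ZMod p) U] [Finite U]
  {ρV : Representation (ZMod p) H V} {ρU : Representation (ZMod p) H U}
  {β : V →ₗ[ZMod p] V →ₗ[ZMod p] U} {A : Subgroup H} {B : Set ℕ} {n : ℕ} {F : Fin n → Fam p H}
  {em : ∀ i, (F i).X →ₗ[ZMod p] Module.Dual (ZMod p) V}

-- BEGIN lc14
/-- (lc14, size 2) PROOF. `spm` for `S = {x | FixL ρU l x}` and `Z` = the set of `Spc` (a submodule, `≠ ⊥` by `vs_dec`; invariant under `S` by `rad_inv`). `em i z (ρV x v) = em i (ρ x⁻¹ z) v` (`eqv`); the condition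
says `ρ x⁻¹ z - z ∈ Z`, for `x⁻¹`. -/
theorem spv (h : LS ρV ρU β A B F em) (l : Module.Dual (ZMod p) U) (i : Fin n)
    (hS : Spc em β l i) :
    ∃ z : (F i).X, (∃ w ∈ Vs em i, w ∈ Rad β l ∧ em i z w ≠ 0) ∧
      ∀ x : H, FixL ρU l x → ∀ s : ℕ, s.Prime → 3 ≤ s →
      Ufr (F i).ρ (F i).W (F i).UU s → (∀ y, (F i).ρ (x ^ s) y = y) →
        (∀ w ∈ Rad β l, w ∈ Vs em i → em i z (ρV x w) = em i z w) → ∀ y, (F i).ρ x y = y := by
  classical
  obtain ⟨hJ, hab, ⟨v0, hv0, hv0R⟩, hcard⟩ := hS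
  obtain ⟨_, _, _, _, hsep, hrep, _, _, _, _⟩ := vs_dec h
  set S : Subgroup H :=
    { carrier := {x | FixL ρU l x}
      mul_mem' := by
        intro a b ha hb u
        show l (ρU (a * b) u) = l u
        rw [map_mul, Module.End.mul_apply, ha, hb]
      one_mem' := by
        intro u
        show l (ρU 1 u) = l u
        rw [map_one]
        rfl
      inv_mem' := by
        intro a ha u
        show l (ρU a⁻¹ u) = l u
        have h1 := ha (ρU a⁻¹ u)
        rw [← Module.End.mul_apply, ← map_mul, mul_inv_cancel, map_one] at h1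
        exact h1.symm } with hSdef
  set Z : Submodule (ZMod p) (F i).X :=
    { carrier := {x | ∀ v ∈ Rad β l, v ∈ Vs em i → em i x v = 0}
      add_mem' := by
        intro a b ha hb v hv hv2
        rw [map_add, LinearMap.add_apply, ha v hv hv2, hb v hv hv2, add_zero]
      zero_mem' := by
        intro v _ _
        rw [map_zero]
        rfl
      smul_mem' := by
        intro c a ha v hv hv2
        rw [map_smul, LinearMap.smul_apply, ha v hv hv2, smul_zero] } with hZdef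
  have hVs := (vs_dec h).1 i
  have hZ0 : Z ≠ ⊥ := by
    intro hZb
    obtain ⟨f, hf1, hf2⟩ := Submodule.exists_le_ker_of_notMem (p := Rad β l) hv0R
    obtain ⟨x, hx⟩ := hrep i f
    have hxZ : x ∈ Z := by
      intro v hv hv2
      rw [hx v hv2]
      exact LinearMap.mem_ker.mp (hf2 hv)
    rw [hZb, Submodule.mem_bot] at hxZ
    apply hf1
    rw [← hx v0 hv0, hxZ, map_zero]
    rfl
  have hSi : ∀ x, FixL ρU l x → FixL ρU l x⁻¹ := fun x hx => S.inv_mem (x := x) hx
  have hZS : ∀ x ∈ S, ∀ z ∈ Z, (F i).ρ x z ∈ Z := by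
    intro x hx z hz v hv hv2
    rw [h.eqv]
    exact hz _ (rad_inv h.ltg l x⁻¹ (hSi x hx) v hv) (hVs x⁻¹ (Subgroup.mem_top _) v hv2)
  obtain ⟨m, hm, hmZ⟩ : ∃ m : (F i).X, (∀ x ∈ S, ∀ s : ℕ, s.Prime → 3 ≤ s →
      Ufr (F i).ρ (F i).W (F i).UU s → (∀ y, (F i).ρ (x ^ s) y = y) → (F i).ρ x m - m ∈ Z →
        ∀ y, (F i).ρ x y = y) ∧ m ∉ Z := by
    obtain ⟨m, hm⟩ := spm3 h.p3 h.ltg.pH (F i) hJ hab S Z hZ0 hZS hcard
    by_cases hmZ : m ∈ Z
    · have hZt : ∃ m', m' ∉ Z := by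
        by_contra hcon
        push Not at hcon
        have hZt : Z = ⊤ := by
          rw [eq_top_iff]
          exact fun x _ => hcon x
        have h1 : Nat.card Z = Nat.card (F i).X := by
          rw [hZt]
          exact Nat.card_congr Submodule.topEquiv.toEquiv
        have h2 : 1 < Nat.card (F i).X := Finite.one_lt_card
        have h3 : Nat.card (F i).X ^ 3 ≤ Nat.card (F i).X := by
          have h4 := hcard
          change Nat.card Z ^ 3 ≤ _ at h4
          rwa [h1] at h4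
        have h4 : Nat.card (F i).X ^ 1 < Nat.card (F i).X ^ 3 :=
          Nat.pow_lt_pow_right h2 (by norm_num)
        rw [pow_one] at h4
        omega
      obtain ⟨m', hm'⟩ := hZt
      exact ⟨m', fun x hx s hs hs3 hsU hxs _ => hm x hx s hs hs3 hsU hxs
        (Z.sub_mem (hZS x hx m hmZ) hmZ), hm'⟩
    · exact ⟨m, hm, hmZ⟩
  refine ⟨m, ?_, ?_⟩
  · by_contra hcon
    push Not at hcon
    exact hmZ fun v hv hv2 => hcon v hv2 hv
  intro x hx s hs hs3 hsU hxs hfix y
  have hinv : ∀ (g : H) (w : (F i).X), (F i).ρ g w = w → (F i).ρ g⁻¹ w = w := by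
    intro g w hg
    have h1 : (F i).ρ g⁻¹ ((F i).ρ g w) = w := by
      rw [← Module.End.mul_apply, ← map_mul, inv_mul_cancel, map_one]
      rfl
    rw [hg] at h1
    exact h1
  have h2 := hm x⁻¹ (hSi x hx) s hs hs3 hsU (fun w => by rw [inv_pow]; exact hinv _ w (hxs w)) (by
    intro v hv hv2
    rw [map_sub, LinearMap.sub_apply, h.eqv, inv_inv, hfix v hv hv2, sub_self]) y
  have h3 := hinv x⁻¹ y h2
  rw [inv_inv] at h3
  exact h3
-- END lc14

-- BEGIN lc15
theorem lc15_em (h : LS ρV ρU β A B F em) (i : Fin n) (g : H) (x : (F i).X) (w : V) :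
    em i x (ρV g w) = em i ((F i).ρ g⁻¹ x) w := by
  have h1 := h.eqv i g⁻¹ x w
  rw [inv_inv] at h1
  exact h1.symm

theorem lc15_inv {X : Type} [AddCommGroup X] [Module (ZMod p) X] (ρ : Representation (ZMod p) H X)
    (g : H) (x : X) (hx : ρ g⁻¹ x = x) : ρ g x = x := by
  calc ρ g x = ρ g (ρ g⁻¹ x) := by rw [hx]
    _ = x := by
      rw [← Module.End.mul_apply, ← map_mul, mul_inv_cancel, map_one]
      rfl

theorem lc15_inv' {X : Type} [AddCommGroup X] [Module (ZMod p) X] (ρ : Representation (ZMod p) H X)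
    (g : H) (x : X) (hx : ρ g x = x) : ρ g⁻¹ x = x := by
  apply lc15_inv
  rw [inv_inv]
  exact hx

theorem lc15_fix (h : LS ρV ρU β A B F em) (i : Fin n) (g : H) (x : (F i).X) :
    FixL ρV (em i x) g ↔ (F i).ρ g x = x := by
  constructor
  · intro hx
    apply lc15_inv
    apply h.inj i
    apply LinearMap.ext
    intro w
    rw [← lc15_em h]
    exact hx w
  · intro hx w
    rw [lc15_em h, lc15_inv' _ _ _ hx]

theorem lc15_zero (h : LS ρV ρU β A B F em) (y : ∀ i, (F i).X) (hy : ∑ i, em i (y i) = 0) :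
    ∀ i, y i = 0 := by
  intro i
  have h1 := (iSupIndep_iff_finsetSum_eq_zero_imp_eq_zero _).mp h.ind Finset.univ
    (fun i => em i (y i)) (fun i _ => LinearMap.mem_range_self _ _) hy i (Finset.mem_univ i)
  exact h.inj i (by rw [h1, map_zero])

theorem lc15_sum (h : LS ρV ρU β A B F em) (y : ∀ i, (F i).X) (x : H)
    (hy : ∀ w, ∑ i, em i (y i) (ρV x w) = ∑ i, em i (y i) w) : ∀ i, (F i).ρ x (y i) = y i := by
  intro i
  apply lc15_inv
  have h1 := lc15_zero h (fun i => (F i).ρ x⁻¹ (y i) - y i) (by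
    apply LinearMap.ext
    intro w
    rw [LinearMap.sum_apply, LinearMap.zero_apply]
    have h2 : ∀ i, em i ((F i).ρ x⁻¹ (y i) - y i) w = em i (y i) (ρV x w) - em i (y i) w := by
      intro i
      rw [map_sub, LinearMap.sub_apply, lc15_em h]
    rw [Finset.sum_congr rfl fun i _ => h2 i, Finset.sum_sub_distrib, hy w, sub_self]) i
  exact sub_eq_zero.mp h1

theorem lc15_comp {X J : Type} [AddCommGroup X] [Module (ZMod p) X] (W : J → Submodule (ZMod p) X)
    (hW : iSupIndep W) (Δ : Finset J) (u u' : J → X) (hu : ∀ j, u j ∈ W j)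
    (hu' : ∀ j, u' j ∈ W j) (hs : ∑ j ∈ Δ, u j = ∑ j ∈ Δ, u' j) : ∀ j ∈ Δ, u j = u' j := by
  intro j hj
  have h1 := (iSupIndep_iff_finsetSum_eq_zero_imp_eq_zero _).mp hW Δ
    (fun j => u j - u' j) (fun j _ => sub_mem (hu j) (hu' j)) (by
      rw [Finset.sum_sub_distrib, hs, sub_self]) j hj
  exact sub_eq_zero.mp h1

theorem lc15_syl {X : Type} [AddCommGroup X] [Module (ZMod p) X] (ρ : Representation (ZMod p) H X)
    (r : ℕ) (hr : r.Prime) (R R' : Sylow r H) (hR : ∀ x ∈ (R : Subgroup H), ∀ y, ρ x y = y) :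
    ∀ x ∈ (R' : Subgroup H), ∀ y, ρ x y = y := by
  haveI : Fact r.Prime := ⟨hr⟩
  obtain ⟨g, hg⟩ := MulAction.exists_smul_eq H R R'
  intro x hx y
  rw [← hg, Sylow.coe_subgroup_smul, Subgroup.mem_pointwise_smul_iff_inv_smul_mem] at hx
  have h2 : (MulAut.conj g)⁻¹ • x = g⁻¹ * x * g := by
    rw [← map_inv, MulAut.smul_def, MulAut.conj_apply]
    group
  rw [h2] at hx
  have h3 := hR _ hx (ρ g⁻¹ y)
  have h4 : ρ g (ρ (g⁻¹ * x * g) (ρ g⁻¹ y)) = ρ x y := by
    rw [← Module.End.mul_apply, ← map_mul, ← Module.End.mul_apply, ← map_mul]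
    congr 2
    group
  rw [← h4, h3, ← Module.End.mul_apply, ← map_mul, mul_inv_cancel, map_one]
  rfl

theorem lc15_sp (h : LS ρV ρU β A B F em) (l : Module.Dual (ZMod p) U) (m : Module.Dual (ZMod p) V)
    (z : ∀ i, (F i).X) (i : Fin n)
    (hz : ∀ x : H, FixL ρU l x → ∀ s : ℕ, s.Prime → 3 ≤ s →
      Ufr (F i).ρ (F i).W (F i).UU s → (∀ y, (F i).ρ (x ^ s) y = y) →
        (∀ w ∈ Rad β l, w ∈ Vs em i → em i (z i) (ρV x w) = em i (z i) w) → ∀ y, (F i).ρ x y = y)
    (hm : ∀ w ∈ Vs em i, m w = em i (z i) w) (r : ℕ) (hr : r.Prime) (hr3 : 3 ≤ r)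
    (hrU : Ufr (F i).ρ (F i).W (F i).UU r)
    (R : Sylow r H) (hR : ∀ x ∈ (R : Subgroup H), Fx2 ρV ρU β l m x) :
    ∀ x ∈ (R : Subgroup H), ∀ y, (F i).ρ x y = y := by
  have hpow : ∀ k : ℕ, ∀ x ∈ (R : Subgroup H), x ^ (r ^ k) = 1 → ∀ y, (F i).ρ x y = y := by
    intro k
    induction k with
    | zero =>
      intro x _ hx y
      rw [pow_zero, pow_one] at hx
      rw [hx, map_one]
      rfl
    | succ k ih =>
      intro x hx hxk
      have h1 := ih (x ^ r) (pow_mem hx r) (by rw [← pow_mul, ← pow_succ', hxk])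
      refine hz x (hR x hx).1 r hr hr3 hrU h1 ?_
      intro w hw hwV
      have hinv : ρV x w ∈ Vs em i := by
        intro i' hi' y
        rw [lc15_em h]
        exact hwV i' hi' _
      rw [← hm _ hinv, ← hm _ hwV]
      exact (hR x hx).2 w hw
  intro x hx
  haveI : Fact r.Prime := ⟨hr⟩
  obtain ⟨k, hk⟩ := R.2 ⟨x, hx⟩
  exact hpow k x hx (congrArg Subtype.val hk)

theorem lc15_cm (h : LS ρV ρU β A B F em) (r : ℕ) (hr : r ∈ B) (i : Fin n) (R : Sylow r H)
    (hR : ∀ x ∈ (R : Subgroup H), ∀ y, (F i).ρ x y = y) : ∀ c ∈ cm A r, ∀ y, (F i).ρ c y = y := by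
  let K : Subgroup H := ((F i).ρ : H →* Module.End (ZMod p) (F i).X).ker
  have hK : ∀ c, c ∈ K ↔ ∀ y, (F i).ρ c y = y := by
    intro c
    constructor
    · intro hc y
      have h1 : (F i).ρ c = 1 := hc
      rw [h1]
      rfl
    · intro hc
      show (F i).ρ c = 1
      apply LinearMap.ext
      intro y
      exact hc y
  rw [ar_cm h.ab (h.ar r hr) R]
  have h2 : ⁅A, (R : Subgroup H)⁆ ≤ K := by
    rw [Subgroup.commutator_le]
    intro a _ x hx
    rw [commutatorElement_def]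
    have hx' : x ∈ K := (hK x).mpr (hR x hx)
    have h3 : a * x * a⁻¹ ∈ K := (inferInstance : K.Normal).conj_mem x hx' a
    exact K.mul_mem h3 (K.inv_mem hx')
  intro c hc
  exact (hK c).mp (h2 hc)

theorem lc15_T (h : LS ρV ρU β A B F em) {Δ : ∀ i, Finset (F i).J} {v : ∀ i, (F i).J → (F i).X}
    {N : ℕ} (e : Fin N ≃ Σ i : Fin n, {j // j ∈ Δ i}) (k : Fin N → H) (k' : ∀ i, (F i).J → H)
    (hk' : ∀ i (j : (F i).J) (hj : j ∈ Δ i), k' i j = k (e.symm ⟨i, ⟨j, hj⟩⟩)) (w : V) :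
    ∑ s, em (e s).1 (v (e s).1 (e s).2) (ρV (k s)⁻¹ w) =
      ∑ i, em i (∑ j ∈ Δ i, (F i).ρ (k' i j) (v i j)) w := by
  have h1 : ∀ s, em (e s).1 (v (e s).1 (e s).2) (ρV (k s)⁻¹ w) =
      (fun q : Σ i : Fin n, {j // j ∈ Δ i} => em q.1 (v q.1 q.2) (ρV (k (e.symm q))⁻¹ w)) (e s) := by
    intro s
    show _ = em (e s).1 (v (e s).1 (e s).2) (ρV (k (e.symm (e s)))⁻¹ w)
    rw [Equiv.symm_apply_apply]
  rw [Finset.sum_congr rfl fun s _ => h1 s, Equiv.sum_comp e
    (fun q : Σ i : Fin n, {j // j ∈ Δ i} => em q.1 (v q.1 q.2) (ρV (k (e.symm q))⁻¹ w)),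
    Fintype.sum_sigma]
  apply Finset.sum_congr rfl
  intro i _
  rw [map_sum, LinearMap.sum_apply, ← Finset.sum_coe_sort (Δ i)]
  apply Finset.sum_congr rfl
  intro j _
  rw [lc15_em h, inv_inv, hk' i j.1 j.2]

theorem lc15_one {X J : Type} [AddCommGroup X] [Module (ZMod p) X]
    {ρ : Representation (ZMod p) H X} {W : J → Submodule (ZMod p) X} {UU : J → Subgroup H}
    (hB : BS ρ W UU) (hJ : Subsingleton J) (j : J) (a : H) (ha : Tv ρ (W j) a) :
    ∀ x, ρ a x = x := by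
  intro x
  apply ha
  have h1 : (⨆ j', W j') ≤ W j := iSup_le fun j' => by rw [Subsingleton.elim j' j]
  rw [hB.sup] at h1
  exact h1 Submodule.mem_top

-- END lc15

-- BEGIN lc16
/-- If all the Sylow `r`-subgroups act trivially then so does `cm A r`. -/
private theorem lc16_tr {X : Type} [AddCommGroup X] [Module (ZMod p) X]
    (ρ : Representation (ZMod p) H X) (A : Subgroup H) (r : ℕ)
    (hR : ∀ R : Sylow r H, ∀ y ∈ (R : Subgroup H), ∀ x, ρ y x = x) (c : H) (hc : c ∈ cm A r) :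
    ∀ x, ρ c x = x := by
  have hle : (⨆ R : Sylow r H, (R : Subgroup H)) ≤ ρ.ker := by
    refine iSup_le fun R y hy => ?_
    rw [MonoidHom.mem_ker]
    ext x
    rw [hR R y hy x]
    rfl
  have h1 : cm A r ≤ ρ.ker := by
    refine Subgroup.commutator_le.2 fun a _ b hb => ?_
    have hb' : b ∈ ρ.ker := hle hb
    rw [commutatorElement_def]
    exact mul_mem (ρ.normal_ker.conj_mem b hb' a) (inv_mem hb')
  have h2 : ρ c = 1 := h1 hc
  intro x
  rw [h2]
  rfl

/-- The members of `I` are not trivial for the Sylow subgroups. -/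
private theorem lc16_nt {l : Module.Dual (ZMod p) U} {r : ℕ} {I : Finset (Fin n)}
    (ha : Anl ρU A F l r I) (i : Fin n) (hi : i ∈ I) :
    ¬ ∀ R : Sylow r H, ∀ y ∈ (R : Subgroup H), ∀ x, (F i).ρ y x = x := by
  intro hR
  obtain ⟨c, hc, x, hx⟩ := (ha.hI i).1 hi
  exact hx (lc16_tr (F i).ρ A r hR c hc x)

private theorem lc16_abq (h : LS ρV ρU β A B F em) {l : Module.Dual (ZMod p) U} {r : ℕ}
    (hr : r ∈ B) {I : Finset (Fin n)} (ha : Anl ρU A F l r I) (i : Fin n) (hi : i ∈ I) :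
    Abq (F i).ρ (F i).W (F i).UU := by
  rcases h.bt r hr i with h1 | h1
  · exact absurd (fun R y hy x => h1 R y hy x) (lc16_nt ha i hi)
  · exact h1.2.1

/-- Two summands, the first one is not larger than the second one. -/
private theorem lc16_two (h : LS ρV ρU β A B F em) (l : Module.Dual (ZMod p) U) (hl0 : l ≠ 0)
    {r : ℕ} (hr : r ∈ B) (hCY : ¬ CY β em) (i i' : Fin n) (hi : i ≠ i')
    (ha : Anl ρU A F l r {i, i'})
    (h1 : ∀ x ∈ Vs em i, ∀ y ∈ Vs em i, β x y = 0)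
    (h2 : ∀ x ∈ Vs em i', ∀ y ∈ Vs em i', β x y = 0) (h3 : ∀ x ∈ Cs em {i, i'}, ∀ y, β x y = 0)
    (hle : Nat.card (F i).X ≤ Nat.card (F i').X) : Spc em β l i' := by
  by_cases h4 : Nat.card (F i).X ^ 3 ≤ Nat.card (F i').X
  · exact case_B2 h l hl0 r hr i i' hi ha h1 h2 h3 h4
  · exfalso
    have h5 := case_Bn h l r i i' hi ha h4
    obtain ⟨l', hl', hw1, hw2⟩ := case_B h i i' hi h1 h2 h3 hle h5
    refine hCY ⟨l', hl', {i, i'}, fun k hk => ⟨ha.one k hk, lc16_abq h hr ha k hk⟩, h3, ?_⟩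
    intro k hk
    rcases Finset.mem_insert.1 hk with hk1 | hk1
    · rw [hk1]
      exact hw1
    · rw [Finset.mem_singleton.1 hk1]
      exact hw2

/-- A bad prime gives a special module. -/
private theorem lc16_bad (h : LS ρV ρU β A B F em) (hCY : ¬ CY β em)
    {Δ : ∀ i, Finset (F i).J} {v : ∀ i, (F i).J → (F i).X} (hc : Cho A B F Δ v)
    (l : Module.Dual (ZMod p) U) (hl0 : l ≠ 0) (hli : LIrr ρU A l)
    (hl' : ∀ a ∈ A, (∀ i, ∀ j ∈ Δ i, Tv (F i).ρ ((F i).W j) a) → FixL ρU l a)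
    (r : ℕ) (hr : r ∈ B) (hD : cm A r ≠ ⊥) (hbad : Bad ρV ρU β A F Δ v l 0 r) :
    ∃ i, (Spc em β l i ∧ Irrd (F i).ρ (cm A r) ∧ ∀ c ∈ cm A r, FixL ρU l c → c = 1) ∧
      ¬ ∀ R : Sylow r H, ∀ y ∈ (R : Subgroup H), ∀ x, (F i).ρ y x = x := by
  obtain ⟨I, ha⟩ := ana h hc l hl0 hli hl' r hr hD hbad
  obtain ⟨hCC, hI⟩ := ana_two h l r hD I ha
  have hfix : ∀ c ∈ cm A r, FixL ρU l c → c = 1 := by
    intro c hcr hcl
    by_contra hc1
    -- `c` acts without fixed points on `U`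
    have hinj : Function.Injective (ρU c - 1 : Module.End (ZMod p) U) := by
      rw [← LinearMap.ker_eq_bot, LinearMap.ker_eq_bot']
      intro u hu
      have h5 : ρU c u - u = 0 := hu
      by_contra hu0
      exact hc1 (ha.fpf c hcr u hu0 (sub_eq_zero.1 h5))
    have hsur : Function.Surjective (ρU c - 1 : Module.End (ZMod p) U) :=
      Finite.surjective_of_injective hinj
    apply hl0
    ext u
    obtain ⟨w, hw⟩ := hsur u
    have hw' : ρU c w - w = u := hw
    rw [← hw', map_sub, hcl w, sub_self, LinearMap.zero_apply]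
  rcases hI with ⟨i, rfl⟩ | ⟨i, i', hii, rfl, h1, h2, h3⟩
  · by_cases hne : ∃ x ∈ Vs em i, ∃ y ∈ Vs em i, β x y ≠ 0
    · exfalso
      obtain ⟨hC, l', hl1, hw⟩ := case_A h l hl0 r hr hD i ha hne
      refine hCY ⟨l', hl1, {i}, fun k hk => ⟨ha.one k hk, lc16_abq h hr ha k hk⟩, hC, ?_⟩
      intro k hk
      rw [Finset.mem_singleton.1 hk]
      exact hw
    · have h0 : ∀ x ∈ Vs em i, ∀ y ∈ Vs em i, β x y = 0 := by
        intro x hx y hy
        by_contra hxy
        exact hne ⟨x, hx, y, hy, hxy⟩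
      exact ⟨i, ⟨case_C h l hl0 r hr hD i ha h0, (ha.full i (Finset.mem_singleton_self i)).1,
        hfix⟩, lc16_nt ha i (Finset.mem_singleton_self i)⟩
  · have hi'I : i' ∈ ({i, i'} : Finset (Fin n)) :=
      Finset.mem_insert_of_mem (Finset.mem_singleton_self i')
    have hiI : i ∈ ({i, i'} : Finset (Fin n)) := Finset.mem_insert_self i _
    rcases le_total (Nat.card (F i).X) (Nat.card (F i').X) with hle | hle
    · exact ⟨i', ⟨lc16_two h l hl0 hr hCY i i' hii ha h1 h2 h3 hle, (ha.full i' hi'I).1, hfix⟩,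
        lc16_nt ha i' hi'I⟩
    · have hsw : ({i, i'} : Finset (Fin n)) = {i', i} := Finset.pair_comm i i'
      refine ⟨i, ⟨lc16_two h l hl0 hr hCY i' i (Ne.symm hii) (hsw ▸ ha) h2 h1 ?_ hle,
        (ha.full i hiI).1, hfix⟩, lc16_nt ha i hiI⟩
      rw [← hsw]
      exact h3

/-- The forms which are annihilated by the elements of the algebra of `A` which annihilate `l`. -/
def EE (ρU : Representation (ZMod p) H U) (A : Subgroup H) (l : Module.Dual (ZMod p) U) :
    Submodule (ZMod p) (Module.Dual (ZMod p) U) where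
  carrier := {l' | ∀ z ∈ AA ρU A, l ∘ₗ z = 0 → l' ∘ₗ z = 0}
  zero_mem' := fun z _ _ => LinearMap.zero_comp z
  add_mem' := by
    intro f g hf hg z hz hl
    rw [LinearMap.add_comp, hf z hz hl, hg z hz hl, add_zero]
  smul_mem' := by
    intro c f hf z hz hl
    rw [LinearMap.smul_comp, hf z hz hl, smul_zero]

private theorem ee_mem (l l' : Module.Dual (ZMod p) U) :
    l' ∈ EE ρU A l ↔ ∀ z ∈ AA ρU A, l ∘ₗ z = 0 → l' ∘ₗ z = 0 := Iff.rfl

private theorem ee_gen (a : H) (ha : a ∈ A) : ρU a ∈ AA ρU A :=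
  Algebra.subset_adjoin ⟨a, ha, rfl⟩

private theorem ee_stab (M : Submodule (ZMod p) (Module.Dual (ZMod p) U))
    (hM : ∀ a ∈ A, ∀ f ∈ M, f ∘ₗ ρU a ∈ M) (z : Module.End (ZMod p) U) (hz : z ∈ AA ρU A) :
    ∀ f ∈ M, f ∘ₗ z ∈ M := by
  rw [AA] at hz
  induction hz using Algebra.adjoin_induction with
  | mem x hx =>
    obtain ⟨a, ha, rfl⟩ := hx
    exact hM a ha
  | algebraMap c =>
    intro f hf
    have h1 : f ∘ₗ (algebraMap (ZMod p) (Module.End (ZMod p) U) c) = c • f := by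
      ext u
      rw [LinearMap.comp_apply, Module.algebraMap_end_apply, map_smul, LinearMap.smul_apply]
    rw [h1]
    exact M.smul_mem c hf
  | add x y _ _ hx hy =>
    intro f hf
    rw [LinearMap.comp_add]
    exact M.add_mem (hx f hf) (hy f hf)
  | mul x y _ _ hx hy =>
    intro f hf
    have h1 : f ∘ₗ (x * y) = (f ∘ₗ x) ∘ₗ y := rfl
    rw [h1]
    exact hy _ (hx f hf)

private theorem ee_orbA (hA : Ab A) (l : Module.Dual (ZMod p) U) (a : H) (ha : a ∈ A) :
    ∀ f ∈ Orb ρU A l, f ∘ₗ ρU a ∈ Orb ρU A l := fun f hf => lc5_invA l a ha f hf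

private theorem ee_orb (l : Module.Dual (ZMod p) U) (f : Module.Dual (ZMod p) U)
    (hf : f ∈ Orb ρU A l) : ∃ z ∈ AA ρU A, f = l ∘ₗ z := by
  refine Submodule.span_induction (p := fun f _ => ∃ z ∈ AA ρU A, f = l ∘ₗ z) ?_ ?_ ?_ ?_ hf
  · rintro _ ⟨a, ha, rfl⟩
    exact ⟨ρU a, ee_gen a ha, rfl⟩
  · exact ⟨0, zero_mem _, by rw [LinearMap.comp_zero]⟩
  · rintro _ _ _ _ ⟨x, hx, rfl⟩ ⟨y, hy, rfl⟩
    exact ⟨x + y, add_mem hx hy, by rw [LinearMap.comp_add]⟩
  · rintro c _ _ ⟨x, hx, rfl⟩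
    exact ⟨c • x, Subalgebra.smul_mem _ hx c, by rw [LinearMap.comp_smul]⟩

private theorem ee_inv (hA : Ab A) (l : Module.Dual (ZMod p) U) (hli : LIrr ρU A l)
    (z : Module.End (ZMod p) U) (hz : z ∈ AA ρU A) (hlz : l ∘ₗ z ≠ 0) :
    ∃ w ∈ AA ρU A, (l ∘ₗ z) ∘ₗ w = l := by
  let M : Submodule (ZMod p) (Module.Dual (ZMod p) U) :=
    { carrier := {f | ∃ w ∈ AA ρU A, (l ∘ₗ z) ∘ₗ w = f}
      zero_mem' := ⟨0, zero_mem _, LinearMap.comp_zero _⟩
      add_mem' := by
        rintro _ _ ⟨x, hx, rfl⟩ ⟨y, hy, rfl⟩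
        exact ⟨x + y, add_mem hx hy, by rw [LinearMap.comp_add]⟩
      smul_mem' := by
        rintro c _ ⟨x, hx, rfl⟩
        exact ⟨c • x, Subalgebra.smul_mem _ hx c, by rw [LinearMap.comp_smul]⟩ }
  have hO : ∀ w ∈ AA ρU A, l ∘ₗ w ∈ Orb ρU A l := fun w hw =>
    ee_stab _ (ee_orbA hA l) w hw l (lc5_mem l)
  have hMO : M ≤ Orb ρU A l := by
    rintro _ ⟨w, hw, rfl⟩
    exact ee_stab _ (ee_orbA hA l) w hw _ (hO z hz)
  have hMi : ∀ a ∈ A, ∀ f ∈ M, f ∘ₗ ρU a ∈ M := by
    rintro a ha _ ⟨w, hw, rfl⟩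
    exact ⟨w * ρU a, mul_mem hw (ee_gen a ha), rfl⟩
  have hz1 : l ∘ₗ z ∈ M := ⟨1, one_mem _, rfl⟩
  rcases hli M hMO hMi with h1 | h1
  · exfalso
    rw [h1, Submodule.mem_bot] at hz1
    exact hlz hz1
  · have h2 : l ∈ M := by
      rw [h1]
      exact lc5_mem l
    exact h2

private theorem ee_iff (hA : Ab A) (l l' : Module.Dual (ZMod p) U) (hli : LIrr ρU A l)
    (hl' : l' ∈ EE ρU A l) (h0 : l' ≠ 0) (z : Module.End (ZMod p) U) (hz : z ∈ AA ρU A)
    (h1 : l' ∘ₗ z = 0) : l ∘ₗ z = 0 := by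
  by_contra hlz
  obtain ⟨w, hw, hlw⟩ := ee_inv hA l hli z hz hlz
  have h2 : l' ∘ₗ (z * w - 1) = 0 := by
    refine hl' _ (sub_mem (mul_mem hz hw) (one_mem _)) ?_
    rw [LinearMap.comp_sub]
    have h3 : l ∘ₗ (z * w) = (l ∘ₗ z) ∘ₗ w := rfl
    have h4 : l ∘ₗ (1 : Module.End (ZMod p) U) = l := rfl
    rw [h3, hlw, h4, sub_self]
  rw [LinearMap.comp_sub] at h2
  have h3 : l' ∘ₗ (z * w) = (l' ∘ₗ z) ∘ₗ w := rfl
  have h4 : l' ∘ₗ (1 : Module.End (ZMod p) U) = l' := rfl
  rw [h3, h1, h4, LinearMap.zero_comp, zero_sub, neg_eq_zero] at h2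
  exact h0 h2

private theorem ee_irr (hA : Ab A) (l l' : Module.Dual (ZMod p) U) (hli : LIrr ρU A l)
    (hl' : l' ∈ EE ρU A l) (h0 : l' ≠ 0) : LIrr ρU A l' := by
  intro M hM hMi
  by_cases hMb : M = ⊥
  · exact Or.inl hMb
  right
  obtain ⟨f, hf, hf0⟩ := Submodule.exists_mem_ne_zero_of_ne_bot hMb
  obtain ⟨z, hz, rfl⟩ := ee_orb l' f (hM hf)
  have hlz : l ∘ₗ z ≠ 0 := fun h => hf0 (hl' z hz h)
  obtain ⟨w, hw, hlw⟩ := ee_inv hA l hli z hz hlz
  have h2 : l' ∘ₗ (z * w - 1) = 0 := by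
    refine hl' _ (sub_mem (mul_mem hz hw) (one_mem _)) ?_
    rw [LinearMap.comp_sub]
    have h3 : l ∘ₗ (z * w) = (l ∘ₗ z) ∘ₗ w := rfl
    have h4 : l ∘ₗ (1 : Module.End (ZMod p) U) = l := rfl
    rw [h3, hlw, h4, sub_self]
  rw [LinearMap.comp_sub] at h2
  have h3 : l' ∘ₗ (z * w) = (l' ∘ₗ z) ∘ₗ w := rfl
  have h4 : l' ∘ₗ (1 : Module.End (ZMod p) U) = l' := rfl
  rw [h3, h4, sub_eq_zero] at h2
  have hlM : l' ∈ M := by
    rw [← h2]
    exact ee_stab M hMi w hw _ hf
  refine le_antisymm hM (Submodule.span_le.2 ?_)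
  rintro _ ⟨a, ha, rfl⟩
  exact hMi a ha l' hlM

private theorem ee_fix (l l' : Module.Dual (ZMod p) U) (hl' : l' ∈ EE ρU A l) (a : H)
    (ha : a ∈ A) (hf : FixL ρU l a) : FixL ρU l' a := by
  have h1 : l' ∘ₗ (ρU a - 1) = 0 := by
    refine hl' _ (sub_mem (ee_gen a ha) (one_mem _)) ?_
    ext u
    rw [LinearMap.comp_apply, LinearMap.sub_apply, map_sub, hf u, LinearMap.zero_apply]
    exact sub_self _
  intro u
  have h2 := LinearMap.congr_fun h1 u
  rw [LinearMap.comp_apply, LinearMap.sub_apply, map_sub, LinearMap.zero_apply] at h2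
  exact sub_eq_zero.1 h2

/-- Case X. The component `E` of the dual of `U` and the forms `mm l`, `l ∈ E`. -/
structure CX (ρV : Representation (ZMod p) H V) (ρU : Representation (ZMod p) H U)
    (β : V →ₗ[ZMod p] V →ₗ[ZMod p] U) (A : Subgroup H) (B : Set ℕ) {n : ℕ}
    (F : Fin n → Fam p H) (E : Submodule (ZMod p) (Module.Dual (ZMod p) U))
    (mm : Module.Dual (ZMod p) U → Module.Dual (ZMod p) V) (i₀ i₁ : Fin n) (j₀ : (F i₀).J)
    (j₁ : (F i₁).J) : Prop where
  ne : E ≠ ⊥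
  bl : ∀ h, ∀ l ∈ E, l ≠ 0 → l ∘ₗ ρU h ∈ E → ∀ l' ∈ E, l' ∘ₗ ρU h ∈ E
  bA : ∀ a ∈ A, ∀ l ∈ E, l ∘ₗ ρU a ∈ E
  bC : ∀ h, (∀ a ∈ A, h * a = a * h) → ∀ l ∈ E, l ∘ₗ ρU h ∈ E
  tw : ∀ l ∈ E, l ≠ 0 → ∀ x, Fx2 ρV ρU β l (mm l) x → (∀ e ∈ E, FixL ρU e x) →
    ∀ k, (∀ e ∈ E, e ∘ₗ ρU k ∈ E) → Fx2 ρV ρU β l (mm l) (k * x * k⁻¹)
  th : ∀ l ∈ E, l ≠ 0 → ∀ r : ℕ, r.Prime → 3 ≤ r → ∀ R : Sylow r H,
    (∀ x ∈ (R : Subgroup H), Fx2 ρV ρU β l (mm l) x) → ∀ x ∈ (R : Subgroup H),
      ∀ k, FixL ρU l k → Fx2 ρV ρU β l (mm l) (k * x * k⁻¹)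
  b1 : ∀ (Δ : ∀ i, Finset (F i).J) (v : ∀ i, (F i).J → (F i).X), Cho A B F Δ v →
    j₀ ∈ Δ i₀ → j₁ ∈ Δ i₁ → ∀ l ∈ E, l ≠ 0 → ∀ a ∈ A,
      (∀ i, ∀ j ∈ Δ i, (F i).ρ a (v i j) = v i j) → Fx2 ρV ρU β l (mm l) a
  c : ∀ (Δ : ∀ i, Finset (F i).J) (v : ∀ i, (F i).J → (F i).X), Cho A B F Δ v →
    j₀ ∈ Δ i₀ → j₁ ∈ Δ i₁ → ∀ l ∈ E, l ≠ 0 → ∀ r ∈ B, cm A r ≠ ⊥ →
      ¬ Bad ρV ρU β A F Δ v l (mm l) r

/-- (lc16) PROOF. `ch_l` gives `l₀` and the marks. `E = EE ρU A l₀`. `z l i` for the `i` with `Spc em β l i`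
for which a prime `r ∈ B` has `cm A r` irreducible on `(F i).X` and faithful on `l` (`spv`), otherwise zero; `mm l = ∑ em i (z l i)`. The bad primes give such modules (`lc16_bad`). -/
theorem cx_main (h : LS ρV ρU β A B F em) (hCY : ¬ CY β em) :
    ∃ (E : Submodule (ZMod p) (Module.Dual (ZMod p) U))
      (mm : Module.Dual (ZMod p) U → Module.Dual (ZMod p) V) (i₀ i₁ : Fin n) (j₀ : (F i₀).J)
      (j₁ : (F i₁).J), CX ρV ρU β A B F E mm i₀ i₁ j₀ j₁ := by
  classical
  obtain ⟨i₀, j₀, i₁, j₁, l₀, hl0, hli, hl⟩ := ch_l h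
  -- `A` fixes the blocks
  have hAU : ∀ i (j : (F i).J), ∀ a ∈ A, a ∈ (F i).UU j := by
    intro i j a ha
    have h1 : a ∈ (F i).A := h.Ale i ha
    exact (Subgroup.mem_iInf.mp h1) j
  let Sp : Module.Dual (ZMod p) U → Fin n → Prop := fun l i => Spc em β l i ∧
    ∃ r ∈ B, Irrd (F i).ρ (cm A r) ∧ ∀ c ∈ cm A r, FixL ρU l c → c = 1
  have hz0 : ∀ l i, ∃ z : (F i).X, (Sp l i → (∃ w ∈ Vs em i, w ∈ Rad β l ∧ em i z w ≠ 0) ∧
      ∀ x : H, FixL ρU l x → ∀ s : ℕ, s.Prime →
      3 ≤ s → Ufr (F i).ρ (F i).W (F i).UU s → (∀ y, (F i).ρ (x ^ s) y = y) →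
        (∀ w ∈ Rad β l, w ∈ Vs em i → em i z (ρV x w) = em i z w) → ∀ y, (F i).ρ x y = y) ∧
      (¬ Sp l i → z = 0) := by
    intro l i
    by_cases hS : Sp l i
    · obtain ⟨z, hz⟩ := spv h l i hS.1
      exact ⟨z, fun _ => hz, fun h' => absurd hS h'⟩
    · exact ⟨0, fun h' => absurd h' hS, fun _ => rfl⟩
  choose z hz hzn using hz0
  let mm : Module.Dual (ZMod p) U → Module.Dual (ZMod p) V := fun l => ∑ i, em i (z l i)
  have hmw : ∀ l w, mm l w = ∑ i, em i (z l i) w := by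
    intro l w
    exact LinearMap.sum_apply _ _ _
  have hmV : ∀ l i, ∀ w ∈ Vs em i, mm l w = em i (z l i) w := by
    intro l i w hw
    rw [hmw, Finset.sum_eq_single i]
    · intro i' _ hi'
      exact hw i' hi' _
    · intro hi
      exact absurd (Finset.mem_univ i) hi
  have hmfix : ∀ l, ∀ a : H, (∀ i, Sp l i → ∀ y, (F i).ρ a y = y) →
      ∀ w, mm l (ρV a w) = mm l w := by
    intro l a ha w
    rw [hmw, hmw]
    apply Finset.sum_congr rfl
    intro i _
    rw [lc15_em h]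
    by_cases hS : Sp l i
    · rw [lc15_inv' _ _ _ (ha i hS _)]
    · rw [hzn l i hS, map_zero]
  -- the vectors which are fixed by the stabilizers
  have hfv : ∀ l i, Sp l i → ∃ z' : (F i).X, z' ≠ 0 ∧
      ∀ g, Fx2 ρV ρU β l (mm l) g → (F i).ρ g z' = z' := fun l i hS =>
    fixv h l (mm l) i (z l i) (hmV l i) (hz l i hS).1
  -- a Sylow subgroup of the stabilizer is trivial on the special modules
  have hRt : ∀ l, ∀ r : ℕ, r.Prime → 3 ≤ r → ∀ R : Sylow r H,
      (∀ x ∈ (R : Subgroup H), Fx2 ρV ρU β l (mm l) x) → ∀ i, Sp l i →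
        ∀ x ∈ (R : Subgroup H), ∀ y, (F i).ρ x y = y := by
    intro l r hr hr3 R hR i hS
    have hBt : (F i).Bt r := by
      by_contra hnB
      have hJ : Subsingleton (F i).J := hS.1.1
      obtain ⟨x, hx, -, hinj⟩ := gen_one (F i).bs hS.1.2.1 r hr hnB R
      obtain ⟨z', hz', hfz⟩ := hfv l i hS
      exact hz' (hinj z' (hfz x (hR x hx)))
    rcases hBt with ht | ⟨_, _, hrU⟩
    · exact ht R
    · exact lc15_sp h l (mm l) (z l) i (hz l i hS).2 (hmV l i) r hr hr3 hrU R hR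
  have hne : EE ρU A l₀ ≠ ⊥ := by
    intro h0
    apply hl0
    have h1 : l₀ ∈ EE ρU A l₀ := fun z _ h => h
    rwa [h0, Submodule.mem_bot] at h1
  refine ⟨EE ρU A l₀, mm, i₀, i₁, j₀, j₁, hne, ?_, ?_, ?_, ?_, ?_, ?_, ?_⟩
  · -- blocks
    intro g l hl1 hl2 hlg l' hl' w hw hw0
    have h1 : cj ρU g w ∈ AA ρU A := aa_cj h.ab g w hw
    have hcomm : ∀ f : Module.Dual (ZMod p) U, (f ∘ₗ ρU g) ∘ₗ w = (f ∘ₗ cj ρU g w) ∘ₗ ρU g := by
      intro f
      ext u
      show f (ρU g (w u)) = f (ρU g (w (ρU g⁻¹ (ρU g u))))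
      rw [← Module.End.mul_apply (ρU g⁻¹), ← map_mul, inv_mul_cancel, map_one,
        Module.End.one_apply]
    have h2 : (l ∘ₗ ρU g) ∘ₗ w = 0 := hlg w hw hw0
    rw [hcomm] at h2
    have h3 : l ∘ₗ cj ρU g w = 0 := by
      ext u
      have h4 := LinearMap.congr_fun h2 (ρU g⁻¹ u)
      rw [LinearMap.comp_apply, LinearMap.zero_apply, ← Module.End.mul_apply, ← map_mul,
        mul_inv_cancel, map_one, Module.End.one_apply] at h4
      rw [h4, LinearMap.zero_apply]
    have h4 := hl' _ h1 (ee_iff h.ab l₀ l hli hl1 hl2 _ h1 h3)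
    rw [hcomm, h4, LinearMap.zero_comp]
  · -- `A`
    intro a ha l' hl' w hw hw0
    have h1 : (l' ∘ₗ ρU a) ∘ₗ w = (l' ∘ₗ w) ∘ₗ ρU a := by
      have h2 := aa_comm h.ab (ρU a) w (ee_gen a ha) hw
      show l' ∘ₗ (ρU a * w) = l' ∘ₗ (w * ρU a)
      rw [h2]
    rw [h1, hl' w hw hw0, LinearMap.zero_comp]
  · -- the centralizer of `A`
    intro g hg l' hl' w hw hw0
    have h2 : ρU g * w = w * ρU g := by
      have h3 : AA ρU A ≤ Subalgebra.centralizer (ZMod p) {ρU g} := by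
        rw [AA]
        refine Algebra.adjoin_le ?_
        rintro _ ⟨a, ha, rfl⟩
        rw [SetLike.mem_coe, Subalgebra.mem_centralizer_iff]
        intro y hy
        rw [Set.mem_singleton_iff] at hy
        rw [hy, ← map_mul, ← map_mul, hg a ha]
      exact (Subalgebra.mem_centralizer_iff (ZMod p)).1 (h3 hw) _ (Set.mem_singleton _)
    have h1 : (l' ∘ₗ ρU g) ∘ₗ w = (l' ∘ₗ w) ∘ₗ ρU g := by
      show l' ∘ₗ (ρU g * w) = l' ∘ₗ (w * ρU g)
      rw [h2]
    rw [h1, hl' w hw hw0, LinearMap.zero_comp]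
  · -- `tw`
    intro l hlE hl1 x hx hxE k hk
    have hxt : ∀ i, Sp l i → ∀ y, (F i).ρ x y = y := by
      intro i hS
      obtain ⟨r, hr, hirr, hfai⟩ := hS.2
      have hCA : cm A r ≤ A := cm_le h.ab r
      have hCn : (cm A r).Normal := cm_nor h.ab r
      have hEA : ∀ a ∈ A, ∀ e ∈ EE ρU A l₀, e ∘ₗ ρU a ∈ EE ρU A l₀ := by
        intro a ha l' hl' w hw hw0
        have h1 : (l' ∘ₗ ρU a) ∘ₗ w = (l' ∘ₗ w) ∘ₗ ρU a := by
          have h2 := aa_comm h.ab (ρU a) w (ee_gen a ha) hw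
          show l' ∘ₗ (ρU a * w) = l' ∘ₗ (w * ρU a)
          rw [h2]
        rw [h1, hl' w hw hw0, LinearMap.zero_comp]
      have hcm : ∀ c ∈ cm A r, x * c = c * x := by
        intro c hc
        have h1 : x * c * x⁻¹ * c⁻¹ ∈ cm A r :=
          mul_mem (hCn.conj_mem c hc x) (inv_mem hc)
        have h2 : x * c * x⁻¹ * c⁻¹ = 1 := by
          refine hfai _ h1 fun u => ?_
          have h3 := hxE l hlE
          have h4 := hxE _ (hEA c (hCA hc) l hlE)
          have h5 : ∀ u, l (ρU c (ρU x⁻¹ u)) = l (ρU c u) := by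
            intro u
            have h6 := h4 (ρU x⁻¹ u)
            rw [← Module.End.mul_apply, ← map_mul, mul_inv_cancel, map_one,
              Module.End.one_apply] at h6
            exact h6.symm
          rw [map_mul, map_mul, map_mul, Module.End.mul_apply, Module.End.mul_apply,
            Module.End.mul_apply, h3, h5, ← Module.End.mul_apply, ← map_mul, mul_inv_cancel,
            map_one, Module.End.one_apply]
        rw [mul_inv_eq_one, mul_inv_eq_iff_eq_mul] at h2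
        exact h2
      obtain ⟨z', hz', hfz⟩ := hfv l i hS
      let W : Submodule (ZMod p) (F i).X := LinearMap.eqLocus ((F i).ρ x) LinearMap.id
      have hW : ∀ c ∈ cm A r, ∀ w ∈ W, (F i).ρ c w ∈ W := by
        intro c hc w hw
        have h1 : (F i).ρ x w = w := hw
        show (F i).ρ x ((F i).ρ c w) = (F i).ρ c w
        rw [← Module.End.mul_apply, ← map_mul, hcm c hc, map_mul, Module.End.mul_apply, h1]
      rcases hirr W hW with h1 | h1
      · exfalso
        apply hz'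
        have h2 : z' ∈ W := hfz x hx
        rwa [h1, Submodule.mem_bot] at h2
      · intro y
        have h2 : y ∈ W := by
          rw [h1]
          exact Submodule.mem_top
        exact h2
    refine ⟨fun u => ?_, fun w _ => hmfix l _ (fun i hS y => ?_) w⟩
    · have h1 := hxE _ (hk l hlE) (ρU k⁻¹ u)
      change l (ρU k (ρU x (ρU k⁻¹ u))) = l (ρU k (ρU k⁻¹ u)) at h1
      rw [map_mul, map_mul, Module.End.mul_apply, Module.End.mul_apply, h1,
        ← Module.End.mul_apply, ← map_mul, mul_inv_cancel, map_one, Module.End.one_apply]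
    · rw [map_mul, map_mul, Module.End.mul_apply, Module.End.mul_apply, hxt i hS,
        ← Module.End.mul_apply, ← map_mul, mul_inv_cancel, map_one, Module.End.one_apply]
  · -- `th`
    intro l hlE hl1 r hr hr3 R hR x hx k hk
    have hxt : ∀ i, Sp l i → ∀ y, (F i).ρ x y = y := fun i hS => hRt l r hr hr3 R hR i hS x hx
    have hk' : FixL ρU l k⁻¹ := by
      intro u
      have h1 := hk (ρU k⁻¹ u)
      rw [← Module.End.mul_apply, ← map_mul, mul_inv_cancel, map_one, Module.End.one_apply] at h1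
      exact h1.symm
    refine ⟨fun u => ?_, fun w _ => hmfix l _ (fun i hS y => ?_) w⟩
    · rw [map_mul, map_mul, Module.End.mul_apply, Module.End.mul_apply, hk, (hR x hx).1, hk']
    · rw [map_mul, map_mul, Module.End.mul_apply, Module.End.mul_apply, hxt i hS,
        ← Module.End.mul_apply, ← map_mul, mul_inv_cancel, map_one, Module.End.one_apply]
  · -- `b1`
    intro Δ v hc hj0 hj1 l hlE hl1 a ha hfa
    have hTv : ∀ i, ∀ j ∈ Δ i, Tv (F i).ρ ((F i).W j) a := by
      intro i j hj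
      exact bs_fpf (F i).bs j a (hAU i j a ha) (v i j) (hc.vW i j) (hc.v0 i j) (hfa i j hj)
    refine ⟨ee_fix l₀ l hlE a ha (hl a ha (hTv i₀ j₀ hj0) (hTv i₁ j₁ hj1)), ?_⟩
    intro w _
    apply hmfix
    intro i hS
    obtain ⟨j, hj⟩ := hc.ne i
    exact lc15_one (F i).bs hS.1.1 j a (hTv i j hj)
  · -- `c`
    intro Δ v hc hj0 hj1 l hlE hl1 r hr hD ⟨⟨R, hR⟩, h2, h3, h4⟩
    have hrp : r.Prime := (h.ar r hr).prime
    have hRt' : ∀ i, Sp l i → ∀ x ∈ (R : Subgroup H), ∀ y, (F i).ρ x y = y :=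
      hRt l r hrp (h.b3 r hr) R hR
    have hct : ∀ i, Sp l i → ∀ c ∈ cm A r, ∀ y, (F i).ρ c y = y := by
      intro i hS
      exact lc15_cm h r hr i R (hRt' i hS)
    have hbad : Bad ρV ρU β A F Δ v l 0 r := by
      refine ⟨⟨R, fun x hx => ⟨(hR x hx).1, fun w _ => rfl⟩⟩, h2, ?_, h4⟩
      intro c hcc hc0
      exact h3 c hcc ⟨hc0.1, fun w _ => hmfix l c (fun i hS => hct i hS c hcc) w⟩
    obtain ⟨i, ⟨hS, hirr, hfai⟩, hn⟩ := lc16_bad h hCY hc l hl1
      (ee_irr h.ab l₀ l hli hlE hl1)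
      (fun a ha H => ee_fix l₀ l hlE a ha (hl a ha (H i₀ j₀ hj0) (H i₁ j₁ hj1))) r hr hD hbad
    exact hn fun R' => lc15_syl (F i).ρ r hrp R R' (hRt' i ⟨hS, r, hr, hirr, hfai⟩)
-- END lc16

end

end Pool.Agent.R12
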