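import Pool.Agent.R12.Lc
import Pool.Agent.Nfv.Mn

/-! From the linear algebra to characters of a `p`-group with operators. -/

set_option autoImplicit false

namespace Pool.Agent.R12

open Classical
open Pool.Agent.Nan Pool.Agent.Nas
open Pool.Agent.Nfv (PD)
open Pool.Agent.KB Pool.Agent.KB.ContrAux Pool.Agent.KBL Pool.Agent.KBZ Pool.Agent.KBU
  Pool.Agent.KBQ Pool.Agent.KBY

section
variable {p : ℕ} {H H' : Type} [Group H] [Group H']

-- BEGIN na
private theorem na_AA (σ : H →* H')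
    (hσ : Function.Surjective σ) {X : Type} [AddCommGroup X] [Module (ZMod p) X]
    (ρ : Representation (ZMod p) H X) (ρ' : Representation (ZMod p) H' X)
    (hρ : ∀ h, ρ' (σ h) = ρ h) (N : Subgroup H') : AA ρ' N = AA ρ (N.comap σ) := by
  unfold AA
  congr 1
  ext z
  constructor
  · rintro ⟨n, hn, rfl⟩
    obtain ⟨h, rfl⟩ := hσ n
    exact ⟨h, hn, (hρ h).symm⟩
  · rintro ⟨h, hh, rfl⟩
    exact ⟨σ h, hh, hρ h⟩

/-- (na) The action of `H'` on a module of `H` on which the kernel of `σ` is trivial. PROOF. `lo5_ex` of Nfv/Lo.lean. -/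
theorem fmap_ex (σ : H →* H') (hσ : Function.Surjective σ) {X : Type} [AddCommGroup X]
    [Module (ZMod p) X] (ρ : Representation (ZMod p) H X) (hk : ∀ h, σ h = 1 → ∀ x, ρ h x = x) :
    ∃ ρ' : Representation (ZMod p) H' X, ∀ h, ρ' (σ h) = ρ h := by
  have hd : ∀ g h, σ g = σ h → ρ g = ρ h := by
    intro g h hgh
    have h1 : σ (h⁻¹ * g) = 1 := by rw [map_mul, map_inv, hgh, inv_mul_cancel]
    have h2 : ρ g = ρ h * ρ (h⁻¹ * g) := by rw [← map_mul, mul_inv_cancel_left]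
    have h3 : ρ (h⁻¹ * g) = 1 := LinearMap.ext fun x => hk _ h1 x
    rw [h2, h3, mul_one]
  choose s hs using hσ
  exact ⟨{ toFun := fun g => ρ (s g)
           map_one' := by
             rw [hd (s 1) 1 (by rw [hs, map_one]), map_one]
           map_mul' := fun g h => by
             rw [hd (s (g * h)) (s g * s h) (by rw [hs, map_mul, hs, hs]), map_mul] },
    fun h => hd _ _ (hs _)⟩

/-- (na) PROOF. `lo5_bs` of Nfv/Lo.lean. -/
theorem fmap_bs (σ : H →* H') (hσ : Function.Surjective σ) {X J : Type} [AddCommGroup X]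
    [Module (ZMod p) X] (ρ : Representation (ZMod p) H X) (ρ' : Representation (ZMod p) H' X)
    (hρ : ∀ h, ρ' (σ h) = ρ h) {W : J → Submodule (ZMod p) X} {UU : J → Subgroup H}
    (h : BS ρ W UU) : BS ρ' W fun j => (UU j).map σ := by
  have hNm : ∀ j g, σ g ∈ Nm ρ' (W j) ↔ g ∈ Nm ρ (W j) := by
    intro j g
    rw [mem_Nm, mem_Nm, hρ]
  refine ⟨h.ind, h.sup, h.ne, ?_, ?_, ?_, ?_, ?_, ?_, ?_, ?_, ?_⟩
  · intro g j
    obtain ⟨g, rfl⟩ := hσ g
    rw [hρ]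
    exact h.prm g j
  · intro j j'
    obtain ⟨g, hg⟩ := h.tra j j'
    exact ⟨σ g, by rw [hρ]; exact hg⟩
  · intro j N hN hn hc z hz
    rw [na_AA σ hσ ρ ρ' hρ N] at hz
    refine h.qp j (N.comap σ) ?_ ?_ ?_ z hz
    · intro n hn
      exact (hNm j n).1 (hN hn)
    · intro g hg n hn'
      rw [Subgroup.mem_comap, map_mul, map_mul, map_inv]
      exact hn _ ((hNm j g).2 hg) _ hn'
    · intro a ha b hb w hw
      have h1 := hc (σ a) ha (σ b) hb w hw
      rwa [hρ, hρ] at h1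
  · rintro j _ ⟨u, hu, rfl⟩
    exact (hNm j u).2 (h.uN j hu)
  · rintro j g hg _ ⟨u, hu, rfl⟩
    obtain ⟨g, rfl⟩ := hσ g
    exact ⟨g * u * g⁻¹, h.uNor j g ((hNm j g).1 hg) u hu, by rw [map_mul, map_mul, map_inv]⟩
  · rintro j _ ⟨a, ha, rfl⟩ _ ⟨b, hb, rfl⟩ w hw
    rw [hρ, hρ]
    exact h.uCom j a ha b hb w hw
  · intro j g hg
    obtain ⟨g, rfl⟩ := hσ g
    refine ⟨g, h.uKer j g ?_, rfl⟩
    intro w hw
    have h1 := hg w hw
    rwa [hρ] at h1
  · intro j N hN hn hc hU n hn'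
    obtain ⟨n, rfl⟩ := hσ n
    refine ⟨n, h.uMax j (N.comap σ) ?_ ?_ ?_ ?_ hn', rfl⟩
    · intro n hn
      exact (hNm j n).1 (hN hn)
    · intro g hg n hn'
      rw [Subgroup.mem_comap, map_mul, map_mul, map_inv]
      exact hn _ ((hNm j g).2 hg) _ hn'
    · intro a ha b hb w hw
      have h1 := hc (σ a) ha (σ b) hb w hw
      rwa [hρ, hρ] at h1
    · intro u hu
      exact hU ⟨u, hu, rfl⟩
  · rintro g j j' hg _ ⟨u, hu, rfl⟩
    obtain ⟨g, rfl⟩ := hσ g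
    rw [hρ] at hg
    exact ⟨g * u * g⁻¹, h.uCj g j j' hg u hu, by rw [map_mul, map_mul, map_inv]⟩

/-- (na) PROOF. Clear. -/
theorem fmap_irr (σ : H →* H') (hσ : Function.Surjective σ) {X : Type} [AddCommGroup X]
    [Module (ZMod p) X] (ρ : Representation (ZMod p) H X) (ρ' : Representation (ZMod p) H' X)
    (hρ : ∀ h, ρ' (σ h) = ρ h) (h : Irrd ρ ⊤) : Irrd ρ' ⊤ := by
  intro W hW
  apply h W
  intro n _ w hw
  rw [← hρ]
  exact hW (σ n) trivial w hw
-- END na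

/-- The module `F` as a module of `H'`. -/
noncomputable abbrev fmap (σ : H →* H') (hσ : Function.Surjective σ) (F : Fam p H)
    (hk : ∀ h, σ h = 1 → ∀ x, F.ρ h x = x) : Fam p H' where
  X := F.X
  ρ := (fmap_ex σ hσ F.ρ hk).choose
  irr := fmap_irr σ hσ F.ρ _ (fmap_ex σ hσ F.ρ hk).choose_spec F.irr
  J := F.J
  W := F.W
  UU := fun j => (F.UU j).map σ
  bs := fmap_bs σ hσ F.ρ _ (fmap_ex σ hσ F.ρ hk).choose_spec F.bs

theorem fmap_ρ (σ : H →* H') (hσ : Function.Surjective σ) (F : Fam p H)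
    (hk : ∀ h, σ h = 1 → ∀ x, F.ρ h x = x) (h : H) :
    (fmap σ hσ F hk).ρ (σ h) = F.ρ h :=
  (fmap_ex σ hσ F.ρ hk).choose_spec h

variable [Finite H] [Finite H']

-- BEGIN nb
omit [Finite H] [Finite H'] in
private theorem nb_Tv (σ : H →* H') {X : Type} [AddCommGroup X] [Module (ZMod p) X]
    (ρ : Representation (ZMod p) H X) (ρ' : Representation (ZMod p) H' X)
    (hρ : ∀ h, ρ' (σ h) = ρ h) (W : Submodule (ZMod p) X) (g : H) :
    Tv ρ' W (σ g) ↔ Tv ρ W g := by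
  unfold Tv
  rw [hρ]

omit [Finite H] [Finite H'] in
private theorem nb_abq (σ : H →* H') (hσ : Function.Surjective σ) {X J : Type}
    [AddCommGroup X] [Module (ZMod p) X] (ρ : Representation (ZMod p) H X)
    (ρ' : Representation (ZMod p) H' X) (hρ : ∀ h, ρ' (σ h) = ρ h)
    {W : J → Submodule (ZMod p) X} {UU : J → Subgroup H} (h : BS ρ W UU) :
    Abq ρ' W (fun j => (UU j).map σ) ↔ Abq ρ W UU := by
  have hNm : ∀ j g, σ g ∈ Nm ρ' (W j) ↔ g ∈ Nm ρ (W j) := by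
    intro j g
    rw [mem_Nm, mem_Nm, hρ]
  constructor
  · intro hA j x hx y hy
    obtain ⟨u, hu, he⟩ := hA j (σ x) ((hNm j x).2 hx) (σ y) ((hNm j y).2 hy)
    have h1 : Tv ρ (W j) (u⁻¹ * (x * y * x⁻¹ * y⁻¹)) := by
      rw [← nb_Tv σ ρ ρ' hρ]
      have h2 : σ (u⁻¹ * (x * y * x⁻¹ * y⁻¹)) = 1 := by
        rw [map_mul, map_inv, he, map_mul, map_mul, map_mul, map_inv, map_inv, inv_mul_cancel]
      rw [h2]
      intro w _
      rw [map_one]
      rfl
    have h2 := (UU j).mul_mem hu (h.uKer j _ h1)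
    rwa [mul_inv_cancel_left] at h2
  · intro hA j x hx y hy
    obtain ⟨x, rfl⟩ := hσ x
    obtain ⟨y, rfl⟩ := hσ y
    exact ⟨x * y * x⁻¹ * y⁻¹, hA j x ((hNm j x).1 hx) y ((hNm j y).1 hy), by
      rw [map_mul, map_mul, map_mul, map_inv, map_inv]⟩

private theorem nb_bt (σ : H →* H') (hσ : Function.Surjective σ) {X J : Type}
    [AddCommGroup X] [Module (ZMod p) X] (ρ : Representation (ZMod p) H X)
    (ρ' : Representation (ZMod p) H' X) (hρ : ∀ h, ρ' (σ h) = ρ h)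
    {W : J → Submodule (ZMod p) X} {UU : J → Subgroup H} (h : BS ρ W UU) (r : ℕ)
    (hr : r.Prime) :
    Nas.Bt ρ' W (fun j => (UU j).map σ) r ↔ Nas.Bt ρ W UU r := by
  have : Fact r.Prime := ⟨hr⟩
  have hS : ∀ Q : H' → Prop, (∀ R : Sylow r H', ∀ x ∈ (R : Subgroup H'), Q x) ↔
      ∀ R : Sylow r H, ∀ x ∈ (R : Subgroup H), Q (σ x) := by
    intro Q
    constructor
    · intro hQ R x hx
      refine hQ (R.mapSurjective hσ) (σ x) ?_
      rw [Sylow.coe_mapSurjective]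
      exact ⟨x, hx, rfl⟩
    · intro hQ R' x hx
      obtain ⟨R, rfl⟩ := Sylow.mapSurjective_surjective hσ r R'
      rw [Sylow.coe_mapSurjective] at hx
      obtain ⟨x, hx, rfl⟩ := hx
      exact hQ R x hx
  unfold Nas.Bt
  refine or_congr ?_ (and_congr ?_ (and_congr (nb_abq σ hσ ρ ρ' hρ h) ?_))
  · rw [hS fun x => ∀ v, ρ' x v = v]
    simp only [hρ]
  · rw [hS fun x => ∀ j, (W j).map (ρ' x) = W j]
    simp only [hρ]
  · constructor
    · intro hU j u hu ht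
      rw [← nb_Tv σ ρ ρ' hρ]
      refine hU j (σ u) ⟨u, hu, rfl⟩ ?_
      rw [← map_pow, nb_Tv σ ρ ρ' hρ]
      exact ht
    · rintro hU j _ ⟨u, hu, rfl⟩ ht
      rw [nb_Tv σ ρ ρ' hρ]
      refine hU j u hu ?_
      rw [← nb_Tv σ ρ ρ' hρ, map_pow]
      exact ht

/-- (nb, size 2) PROOF. The three parts of `lo5_bt` of Nfv/Lo.lean. -/
theorem fmap_abq (σ : H →* H') (hσ : Function.Surjective σ) (F : Fam p H)
    (hk : ∀ h, σ h = 1 → ∀ x, F.ρ h x = x) :
    Abq (fmap σ hσ F hk).ρ (fmap σ hσ F hk).W (fmap σ hσ F hk).UU ↔ Abq F.ρ F.W F.UU := by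
  exact nb_abq σ hσ F.ρ (fmap σ hσ F hk).ρ (fmap_ρ σ hσ F hk) F.bs

theorem fmap_bt (σ : H →* H') (hσ : Function.Surjective σ) (F : Fam p H)
    (hk : ∀ h, σ h = 1 → ∀ x, F.ρ h x = x) (r : ℕ) (hr : r.Prime) :
    (fmap σ hσ F hk).Bt r ↔ F.Bt r := by
  exact nb_bt σ hσ F.ρ (fmap σ hσ F hk).ρ (fmap_ρ σ hσ F hk) F.bs r hr

theorem fmap_A (σ : H →* H') (hσ : Function.Surjective σ) (F : Fam p H)
    (hk : ∀ h, σ h = 1 → ∀ x, F.ρ h x = x) : F.A.map σ ≤ (fmap σ hσ F hk).A := by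
  exact le_iInf fun j => Subgroup.map_mono (iInf_le _ j)
-- END nb

-- BEGIN nc
/-- (nc, size 3) PROOF. `K = ker σ ⊓ N` is trivial on `X`. `card N = card (N.map σ) * card K`, `card {c : N // c trivial} = card {c : N.map σ // c trivial} * card K` (the second set is the image of the first one, which is a subgroup of `N` containing `K`). Cancel `card K`. -/
theorem full_map (σ : H →* H') (hσ : Function.Surjective σ) {X : Type} [AddCommGroup X]
    [Module (ZMod p) X] (ρ : Representation (ZMod p) H X) (ρ' : Representation (ZMod p) H' X)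
    (hρ : ∀ h, ρ' (σ h) = ρ h) (N : Subgroup H) (h : Full ρ N) : Full ρ' (N.map σ) := by
  obtain ⟨hi, m, t, hm, ht, hX, hc⟩ := h
  refine ⟨?_, m, t, hm, ht, hX, ?_⟩
  · intro W hW
    refine hi W ?_
    intro n hn w hw
    have h1 := hW (σ n) (Subgroup.mem_map_of_mem σ hn) w hw
    rwa [hρ] at h1
  · let T : Subgroup (N.map σ) :=
      { carrier := {c | ∀ x : X, ρ' (c : H') x = x}
        one_mem' := fun x => by
          rw [OneMemClass.coe_one, map_one, Module.End.one_apply]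
        mul_mem' := fun {a b} ha hb x => by
          rw [Subgroup.coe_mul, map_mul, Module.End.mul_apply, hb x, ha x]
        inv_mem' := fun {a} ha x => by
          have h1 : ρ' ((a⁻¹ : N.map σ) : H') (ρ' (a : H') x) = x := by
            rw [← Module.End.mul_apply, ← map_mul, Subgroup.coe_inv, inv_mul_cancel, map_one,
              Module.End.one_apply]
          rwa [ha x] at h1 }
    have hf : Function.Surjective (σ.subgroupMap N) := σ.subgroupMap_surjective N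
    have e1 : Nat.card {c : N // ∀ x : X, ρ (c : H) x = x} =
        Nat.card (T.comap (σ.subgroupMap N)) := by
      refine Nat.card_congr (Equiv.subtypeEquivRight ?_)
      intro c
      refine forall_congr' fun x => ?_
      rw [← hρ]
      rfl
    have e2 : Nat.card {c : N.map σ // ∀ x : X, ρ' (c : H') x = x} = Nat.card T := rfl
    have i1 := (T.comap (σ.subgroupMap N)).card_mul_index
    have i2 := T.card_mul_index
    have i3 : (T.comap (σ.subgroupMap N)).index = T.index :=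
      T.index_comap_of_surjective hf
    have hpos : 0 < Nat.card (T.comap (σ.subgroupMap N)) := Nat.card_pos
    rw [e1, ← i1, i3, mul_assoc] at hc
    have h2 := Nat.eq_of_mul_eq_mul_left hpos hc
    rw [e2, ← i2, mul_assoc, h2]
-- END nc

-- BEGIN nd
/-- (nd, size 3) PROOF. `full`: every Sylow subgroup of `H'` is the image of one of `H` (`Sylow.mapSurjective_surjective`), `cm (A.map σ) r = (cm A r).map σ` (`map_ab`), `full_map`. -/
theorem cho_map (σ : H →* H') (hσ : Function.Surjective σ) {A : Subgroup H} (hA : Ab A)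
    (B : Set ℕ) (hB : ∀ r ∈ B, r.Prime) {n : ℕ} (F : Fin n → Fam p H)
    (hk : ∀ i, ∀ h, σ h = 1 → ∀ x, (F i).ρ h x = x) (Δ : ∀ i, Finset (F i).J)
    (v : ∀ i, (F i).J → (F i).X) (h : Cho A B F Δ v) :
    Cho (A.map σ) B (fun i => fmap σ hσ (F i) (hk i)) Δ v := by
  refine ⟨h.ne, h.two, h.vW, h.v0, ?_⟩
  intro i hi r hr R' j hfix
  haveI : Fact r.Prime := ⟨hB r hr⟩
  have hρ : ∀ g : H, (fmap σ hσ (F i) (hk i)).ρ (σ g) = (F i).ρ g :=
    fmap_ρ σ hσ (F i) (hk i)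
  obtain ⟨R, rfl⟩ := Sylow.mapSurjective_surjective hσ r R'
  have h1 : ∀ x ∈ (R : Subgroup H), (F i).ρ x (v i j) = v i j := by
    intro x hx
    have h2 := hfix (σ x) (by
      rw [Sylow.coe_mapSurjective]
      exact Subgroup.mem_map_of_mem σ hx)
    have h3 : (fmap σ hσ (F i) (hk i)).ρ (σ x) (v i j) = (F i).ρ x (v i j) :=
      LinearMap.congr_fun (hρ x) (v i j)
    exact h3.symm.trans h2
  rcases h.full i hi r hr R j h1 with h4 | h4
  · left
    intro Q' x' hx' y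
    obtain ⟨Q, rfl⟩ := Sylow.mapSurjective_surjective hσ r Q'
    rw [Sylow.coe_mapSurjective] at hx'
    obtain ⟨x, hx, rfl⟩ := Subgroup.mem_map.1 hx'
    have h3 : (fmap σ hσ (F i) (hk i)).ρ (σ x) y = (F i).ρ x y :=
      LinearMap.congr_fun (hρ x) y
    exact h3.trans (h4 Q x hx y)
  · right
    rw [(map_ab σ hσ hA).2.2 r (hB r hr)]
    exact full_map σ hσ (F i).ρ _ hρ (cm A r) h4
-- END nd

-- BEGIN ne
/-- (ne, size 4) PROOF. `Y`, `E`, `s`, the marks are the same, `ρ := ρ' ∘ σ`. `th`: the image of a Sylow subgroup is a Sylow subgroup (`Sylow.mapSurjective`). `b1`, `c`: `cho_map`; in `c` (as in `loc_map2` of Nfv/Lo.lean) the elements of `cm (A.map σ) r` are images of elements of `cm A r` (`map_ab`). -/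
theorem lod_map (σ : H →* H') (hσ : Function.Surjective σ) {A : Subgroup H} (hA : Ab A)
    (B : Set ℕ) (hB : ∀ r ∈ B, r.Prime) {n : ℕ} (F : Fin n → Fam p H)
    (hk : ∀ i, ∀ h, σ h = 1 → ∀ x, (F i).ρ h x = x) {P : Type} [Group P]
    (fx : (P → ℂ) → Subgroup H) (fx' : (P → ℂ) → Subgroup H')
    (hfx : ∀ χ g, g ∈ fx χ ↔ σ g ∈ fx' χ)
    (h : Nonempty (LoD fx' (A.map σ) B (fun i => fmap σ hσ (F i) (hk i)))) :
    Nonempty (LoD fx A B F) := by
  obtain ⟨L⟩ := h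
  obtain ⟨hA', -, hcm⟩ := map_ab σ hσ hA
  -- the Sylow subgroups
  have hsy : ∀ r : ℕ, r.Prime → ∀ R : Sylow r H, ∃ R' : Sylow r H',
      (R' : Subgroup H') = (R : Subgroup H).map σ := by
    intro r hr R
    have : Fact r.Prime := ⟨hr⟩
    exact ⟨R.mapSurjective hσ, Sylow.coe_mapSurjective _ _⟩
  have hρ : ∀ i g x, (fmap σ hσ (F i) (hk i)).ρ (σ g) x = (F i).ρ g x := by
    intro i g x
    rw [fmap_ρ]
  have hbC : ∀ h : H, (∀ a ∈ A, h * a = a * h) → L.E.map (L.ρ (σ h)) = L.E := by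
    intro h hh
    refine L.bC (σ h) ?_
    rintro _ ⟨a, ha, rfl⟩
    rw [← map_mul, hh a ha, map_mul]
  have htw : ∀ l ∈ L.E, l ≠ 0 → ∀ x ∈ fx (L.s l), (∀ e ∈ L.E, L.ρ (σ x) e = e) →
      ∀ k, L.E.map (L.ρ (σ k)) = L.E → k * x * k⁻¹ ∈ fx (L.s l) := by
    intro l hl hl0 x hx he k hkE
    rw [hfx, map_mul, map_mul, map_inv]
    exact L.tw l hl hl0 (σ x) ((hfx _ _).1 hx) he (σ k) hkE
  have hth : ∀ l ∈ L.E, l ≠ 0 → ∀ r : ℕ, r.Prime → 3 ≤ r → ∀ R : Sylow r H,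
      (R : Subgroup H) ≤ fx (L.s l) → ∀ x ∈ (R : Subgroup H),
        ∀ k, L.ρ (σ k) l = l → k * x * k⁻¹ ∈ fx (L.s l) := by
    intro l hl hl0 r hr hr3 R hR x hx k hkl
    obtain ⟨R', hR'⟩ := hsy r hr R
    rw [hfx, map_mul, map_mul, map_inv]
    refine L.th l hl hl0 r hr hr3 R' ?_ (σ x) ?_ (σ k) hkl
    · rw [hR', Subgroup.map_le_iff_le_comap]
      exact fun y hy => (hfx _ y).1 (hR hy)
    · rw [hR']
      exact ⟨x, hx, rfl⟩
  have hb1 : ∀ (Δ : ∀ i, Finset (F i).J) (v : ∀ i, (F i).J → (F i).X), Cho A B F Δ v →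
      L.j₀ ∈ Δ L.i₀ → L.j₁ ∈ Δ L.i₁ → ∀ l ∈ L.E, l ≠ 0 → ∀ a ∈ A,
        (∀ i, ∀ j ∈ Δ i, (F i).ρ a (v i j) = v i j) → a ∈ fx (L.s l) := by
    intro Δ v hc h0 h1 l hl hl0 a ha hf
    rw [hfx]
    refine L.b1 Δ v (cho_map σ hσ hA B hB F hk Δ v hc) h0 h1 l hl hl0 (σ a) ⟨a, ha, rfl⟩ ?_
    intro i j hj
    rw [hρ]
    exact hf i j hj
  have hcc : ∀ (Δ : ∀ i, Finset (F i).J) (v : ∀ i, (F i).J → (F i).X), Cho A B F Δ v →
      L.j₀ ∈ Δ L.i₀ → L.j₁ ∈ Δ L.i₁ → ∀ l ∈ L.E, l ≠ 0 → ∀ r ∈ B,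
        (∃ c ∈ cm A r, ∃ i x, (F i).ρ c x ≠ x) →
        ¬ ((∃ R : Sylow r H, (R : Subgroup H) ≤ fx (L.s l)) ∧
          (∀ i, ∀ j ∈ Δ i, ∃ R : Sylow r H, ∀ x ∈ (R : Subgroup H),
            (F i).ρ x (v i j) = v i j) ∧
          (∀ c ∈ cm A r, c ∈ fx (L.s l) → ∀ i, ∀ j ∈ Δ i, (F i).ρ c (v i j) = v i j) ∧
          ∀ x : ∀ i, (F i).J → H, (∀ i j, x i j ∈ cm A r) →
            ∃ y ∈ cm A r, ∀ i, ∀ j ∈ Δ i, (F i).ρ ((x i j)⁻¹ * y) (v i j) = v i j) := by
    rintro Δ v hc h0 h1 l hl hl0 r hr ⟨c₀, hc₀, i₀, x₀, hx₀⟩ ⟨⟨R, hR⟩, hRj, hcj, hS⟩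
    have hrp := hB r hr
    have hc' := hcm r hrp
    refine L.c Δ v (cho_map σ hσ hA B hB F hk Δ v hc) h0 h1 l hl hl0 r hr
      ⟨σ c₀, by rw [hc']; exact ⟨c₀, hc₀, rfl⟩, i₀, x₀, fun h => hx₀ (by rwa [hρ] at h)⟩
      ⟨?_, ?_, ?_, ?_⟩
    · obtain ⟨R', hR'⟩ := hsy r hrp R
      refine ⟨R', ?_⟩
      rw [hR', Subgroup.map_le_iff_le_comap]
      exact fun y hy => (hfx _ y).1 (hR hy)
    · intro i j hj
      obtain ⟨R₁, hR₁⟩ := hRj i j hj
      obtain ⟨R', hR'⟩ := hsy r hrp R₁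
      refine ⟨R', ?_⟩
      rw [hR']
      rintro _ ⟨x, hx, rfl⟩
      rw [hρ]
      exact hR₁ x hx
    · rw [hc']
      rintro _ ⟨c, hcA, rfl⟩ hcs i j hj
      rw [hρ]
      exact hcj c hcA ((hfx _ c).2 hcs) i j hj
    · intro x hx
      rw [hc'] at hx ⊢
      choose x' hx' hxx using hx
      obtain ⟨y, hy, hyj⟩ := hS x' hx'
      refine ⟨σ y, ⟨y, hy, rfl⟩, fun i j hj => ?_⟩
      have h5 := hyj i j hj
      rw [← hρ, map_mul, map_inv, hxx] at h5
      exact h5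
  exact ⟨{ Y := L.Y
           ρ := L.ρ.comp σ
           E := L.E
           s := L.s
           i₀ := L.i₀
           i₁ := L.i₁
           j₀ := L.j₀
           j₁ := L.j₁
           ne := L.ne
           bl := fun h l hl hl0 hlE => L.bl (σ h) l hl hl0 hlE
           bA := fun a ha => L.bA (σ a) ⟨a, ha, rfl⟩
           bC := hbC
           irr := L.irr
           deg := L.deg
           fix := fun l hl hl0 h hh => L.fix l hl hl0 (σ h) ((hfx _ _).1 hh)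
           tw := htw
           th := hth
           b1 := hb1
           c := hcc }⟩
-- END ne

-- BEGIN nf
/-- (nf, size 2) PROOF. `S0 := S0'.comap σ`, `Th k := Th' (σ k)`. -/
theorem hi_map (σ : H →* H') (hσ : Function.Surjective σ) {n : ℕ} (F : Fin n → Fam p H)
    (hk : ∀ i, ∀ h, σ h = 1 → ∀ x, (F i).ρ h x = x) {P : Type} [Group P]
    (fx : (P → ℂ) → Subgroup H) (fx' : (P → ℂ) → Subgroup H')
    (hfx : ∀ χ g, g ∈ fx χ ↔ σ g ∈ fx' χ) (Th' : H' → (∀ i, (F i).X) → P → ℂ)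
    (S0' : Subgroup H') (I : Set (Fin n))
    (h : Hi fx' (fun i => fmap σ hσ (F i) (hk i)) Th' S0' I) :
    Hi fx F (fun k => Th' (σ k)) (S0'.comap σ) I := by
  have hρ : ∀ i, ∀ g : H, ∀ y, (fmap σ hσ (F i) (hk i)).ρ (σ g) y = (F i).ρ g y := fun i g y =>
    LinearMap.congr_fun (fmap_ρ σ hσ (F i) (hk i) g) y
  refine ⟨fun k T => h.irr (σ k) T, ?_, ?_, ?_⟩
  · intro k T g
    rw [hfx, h.fix (σ k) T (σ g), Subgroup.mem_comap, map_mul, map_mul, map_inv]
    refine and_congr Iff.rfl (forall_congr' fun i => imp_congr Iff.rfl ?_)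
    rw [hρ i g (T i)]
  · intro i hi
    exact ⟨(h.one i hi).1, (fmap_abq σ hσ (F i) (hk i)).1 (h.one i hi).2⟩
  · intro i hi
    obtain ⟨z, hz, hz2⟩ := h.zf i hi
    refine ⟨z, hz, fun g hg => ?_⟩
    exact (hρ i g z).symm.trans (hz2 (σ g) hg)
-- END nf

-- BEGIN ng
/-- (ng, size 2) Inflation and change of `fx`. -/
theorem lod_inf {P P' : Type} [Group P] [Group P'] (π : P →* P')
    (hπ : Function.Surjective π) {A : Subgroup H} (B : Set ℕ) {n : ℕ} (F : Fin n → Fam p H)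
    (fx : (P → ℂ) → Subgroup H) (fx' : (P' → ℂ) → Subgroup H)
    (hfx : ∀ χ ∈ Irr P', fx (fun x => χ (π x)) = fx' χ) (h : Nonempty (LoD fx' A B F)) :
    Nonempty (LoD fx A B F) := by
  obtain ⟨L⟩ := h
  have hfs : ∀ l ∈ L.E, l ≠ 0 → fx (fun x => L.s l (π x)) = fx' (L.s l) :=
    fun l hl hl0 => hfx _ (L.irr l hl hl0)
  refine ⟨{ Y := L.Y, ρ := L.ρ, E := L.E, s := fun l x => L.s l (π x), i₀ := L.i₀, i₁ := L.i₁,
            j₀ := L.j₀, j₁ := L.j₁, ne := L.ne, bl := L.bl, bA := L.bA, bC := L.bC,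
            irr := fun l hl hl0 => Inf_irr π hπ _ (L.irr l hl hl0)
            deg := ?_, fix := ?_, tw := ?_, th := ?_, b1 := ?_, c := ?_ }⟩
  · intro l hl hl0
    obtain ⟨d, hd, hpd⟩ := L.deg l hl hl0
    refine ⟨d, ?_, hpd⟩
    change L.s l (π 1) = d
    rw [map_one, hd]
  · intro l hl hl0
    rw [hfs l hl hl0]
    exact L.fix l hl hl0
  · intro l hl hl0
    rw [hfs l hl hl0]
    exact L.tw l hl hl0
  · intro l hl hl0
    rw [hfs l hl hl0]
    exact L.th l hl hl0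
  · intro Δ v hC h0 h1 l hl hl0
    rw [hfs l hl hl0]
    exact L.b1 Δ v hC h0 h1 l hl hl0
  · intro Δ v hC h0 h1 l hl hl0
    rw [hfs l hl hl0]
    exact L.c Δ v hC h0 h1 l hl hl0

theorem hi_inf {P P' : Type} [Group P] [Group P'] (π : P →* P')
    (hπ : Function.Surjective π) {n : ℕ} (F : Fin n → Fam p H)
    (fx : (P → ℂ) → Subgroup H) (fx' : (P' → ℂ) → Subgroup H)
    (hfx : ∀ χ ∈ Irr P', fx (fun x => χ (π x)) = fx' χ) (Th : H → (∀ i, (F i).X) → P' → ℂ)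
    (S0 : Subgroup H) (I : Set (Fin n)) (h : Hi fx' F Th S0 I) :
    Hi fx F (fun k T x => Th k T (π x)) S0 I := by
  refine ⟨fun k T => Inf_irr π hπ _ (h.irr k T), ?_, h.one, h.zf⟩
  intro k T
  rw [hfx _ (h.irr k T)]
  exact h.fix k T
-- END ng

end

end Pool.Agent.R12
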